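import Pool.Agent.Run7.h435.GLe

/-! # The law of the sums of consecutive gaps, final form -/

set_option autoImplicit false

namespace Run7.h435.GL

open Filter Finset MeasureTheory ProbabilityTheory Topology
open Pool.Agent.X112.LF (Tup Cov)
open scoped Matrix

/-- the vector of the normalised sums -/
noncomputable def vs {m : ℕ} (h : ℕ) (k : Fin m → ℕ) (n : ℕ) : EuclideanSpace ℝ (Fin m) :=
  WithLp.toLp 2 fun i => (∑ l ∈ Finset.range (k i), dd (n + l) - k i) / Real.sqrt (Real.log h)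

/-- the covariance matrix -/
noncomputable def Sg {m : ℕ} (h : ℕ) (k : Fin m → ℕ) : Matrix (Fin m) (Fin m) ℝ :=
  Matrix.of fun i j => if i = j then Real.log (k i) / (Real.pi ^ 2 * Real.log h) else
    (Real.log (k i) + Real.log (k j) - Real.log |(k i : ℝ) - k j|) / (2 * Real.pi ^ 2 * Real.log h)

lemma Kov_cons {m : ℕ} (h : ℕ) (k : Fin m → ℕ) :
    Kov (h : ℝ) (fun i => ((Fin.cons 0 k : Fin (m + 1) → ℕ) i : ℝ)) = Sg h k := by
  have hpi := Real.pi_pos
  ext i j
  simp only [Kov, Cov, Sg, Matrix.of_apply, Fin.cons_zero, Fin.cons_succ, Nat.cast_zero, zero_sub, abs_neg,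
    Nat.abs_cast]
  by_cases hij : i = j
  · rw [if_pos hij, hij, sub_self, abs_zero, Real.log_zero, zero_div, sub_zero]
    by_cases hl : Real.log (h : ℝ) = 0
    · rw [hl]; simp
    · field_simp
      norm_num
  · rw [if_neg hij]
    by_cases hl : Real.log (h : ℝ) = 0
    · rw [hl]; simp
    · field_simp

theorem law (m A : ℕ) (S : Set (EuclideanSpace ℝ (Fin m))) (hS : volume (frontier S) = 0)
    (ε : ℝ) (hε : 0 < ε) : ∀ᶠ h : ℕ in atTop, ∀ k : Fin m → ℕ,
      ((∀ i, h ≤ k i ∧ k i ≤ h ^ A) ∧ ∀ i j, i ≠ j → (h : ℝ) ≤ |(k i : ℝ) - k j|) →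
      (Sg h k).PosDef ∧ ∀ᶠ N : ℕ in atTop,
      |(1 / N : ℝ) * ({n : ℕ | 1 ≤ n ∧ n ≤ N ∧ vs h k n ∈ S}.ncard : ℝ) -
        (multivariateGaussian 0 (Sg h k)).real S| ≤ ε := by
  filter_upwards [two_sided (max A 1) m (le_max_right _ _) S hS ε hε, eventually_ge_atTop 1]
    with h h1 hh k hk
  have hpow : h ^ A ≤ h ^ max A 1 := Nat.pow_le_pow_right hh (le_max_left _ _)
  have hT : Tup (max A 1) h (Fin.cons 0 k : Fin (m + 1) → ℕ) := by
    refine ⟨rfl, fun i j => ?_, fun i => ?_⟩
    · refine Fin.cases ?_ (fun i' => ?_) i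
      · refine Fin.cases ?_ (fun j' => ?_) j
        · intro h0
          exact absurd rfl h0
        · intro _
          simp only [Fin.cons_zero, Fin.cons_succ, Nat.cast_zero, zero_sub, abs_neg, Nat.abs_cast]
          exact_mod_cast (hk.1 j').1
      · refine Fin.cases ?_ (fun j' => ?_) j
        · intro _
          simp only [Fin.cons_zero, Fin.cons_succ, Nat.cast_zero, sub_zero, Nat.abs_cast]
          exact_mod_cast (hk.1 i').1
        · intro h0
          simp only [Fin.cons_succ]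
          exact hk.2 i' j' (fun he => h0 (by rw [he]))
    · refine Fin.cases ?_ (fun i' => ?_) i
      · simp
      · simp only [Fin.cons_succ]
        exact (hk.1 i').2.trans hpow
  obtain ⟨hpd, h2⟩ := h1 _ hT
  rw [Kov_cons] at hpd h2
  refine ⟨hpd, ?_⟩
  filter_upwards [h2] with N h3
  exact h3

end Run7.h435.GL
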