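import Pool.Agent.Run7.h435.PotSpec

/-!
# Removing rich lines, and the simple greedy algorithm
-/

set_option linter.unusedSectionVars false

namespace Run7.h435

open Finset

variable {α : Type} [DecidableEq α]

/-- General position with respect to a ternary relation. -/
def GP (R : α → α → α → Prop) (O : Finset α) : Prop := ∀ a ∈ O, ∀ b ∈ O, ∀ c ∈ O, ¬ R a b c

theorem line_R {R : α → α → α → Prop} (h : Lin R) {x y a b c : α} (hxy : x ≠ y)
    (ha : a = x ∨ a = y ∨ R x y a) (hb : b = x ∨ b = y ∨ R x y b) (hc : c = x ∨ c = y ∨ R x y c)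
    (hab : a ≠ b) (hac : a ≠ c) (hbc : b ≠ c) : R a b c := by
  rcases ha with rfl | rfl | ha
  · rcases hb with rfl | rfl | hb
    · exact absurd rfl hab
    · rcases hc with rfl | rfl | hc
      · exact absurd rfl hac
      · exact absurd rfl hbc
      · exact hc
    · rcases hc with rfl | rfl | hc
      · exact absurd rfl hac
      · exact h.swap2 hb
      · exact h.tr _ _ _ _ hb hc hbc
  · rcases hb with rfl | rfl | hb
    · rcases hc with rfl | rfl | hc
      · exact absurd rfl hbc
      · exact absurd rfl hac
      · exact h.swap _ _ _ hc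
    · exact absurd rfl hab
    · rcases hc with rfl | rfl | hc
      · exact h.rot _ _ _ hb
      · exact absurd rfl hac
      · exact h.tr _ _ _ _ (h.swap _ _ _ hb) (h.swap _ _ _ hc) hbc
  · rcases hb with rfl | rfl | hb
    · rcases hc with rfl | rfl | hc
      · exact absurd rfl hbc
      · exact h.rot2 ha
      · exact h.swap _ _ _ (h.tr _ _ _ _ ha hc hac)
    · rcases hc with rfl | rfl | hc
      · exact h.swap3 ha
      · exact absurd rfl hbc
      · exact h.swap _ _ _ (h.tr _ _ _ _ (h.swap _ _ _ ha) (h.swap _ _ _ hc) hac)
    · rcases hc with rfl | rfl | hc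
      · exact h.rot _ _ _ (h.tr _ _ _ _ ha hb hab)
      · exact h.rot _ _ _ (h.tr _ _ _ _ (h.swap _ _ _ ha) (h.swap _ _ _ hb) hab)
      · have h1 : R x a b := h.tr _ _ _ _ ha hb hab
        have h2 : R x a c := h.tr _ _ _ _ ha hc hac
        exact h.tr _ _ _ _ (h.swap _ _ _ h1) (h.swap _ _ _ h2) hbc

theorem gp_line {R : α → α → α → Prop} (h : Lin R) {O T : Finset α} (hO : GP R O) (hT : T ⊆ O)
    {x y : α} (hxy : x ≠ y) (hl : ∀ z ∈ T, z = x ∨ z = y ∨ R x y z) : T.card ≤ 2 := by
  by_contra hcon
  push Not at hcon
  rw [two_lt_card] at hcon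
  obtain ⟨a, ha, b, hb, c, hc, hab, hac, hbc⟩ := hcon
  exact hO a (hT ha) b (hT hb) c (hT hc)
    (line_R h hxy (hl a ha) (hl b hb) (hl c hc) hab hac hbc)

variable (r : α → α → α → Bool)

def onL (x y z : α) : Bool := decide (z = x) || decide (z = y) || r x y z

def prodL {β γ : Type} (V : List β) (W : List γ) : List (β × γ) :=
  V.flatMap fun x => W.map fun y => (x, y)

def richT (l : ℕ) (V : List α) (p : α × α) : Bool :=
  !(decide (p.1 = p.2)) && decide (l < (V.filter fun z => onL r p.1 p.2 z).length)

def cleanStep (l : ℕ) (V : List α) : List α :=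
  match ((prodL V V).filter fun p => richT r l V p).head? with
  | none => V
  | some p => V.filter fun z => !(onL r p.1 p.2 z)

/-- Repeatedly remove a line with more than `l` points. -/
def clean (l : ℕ) (V : List α) : List α := (cleanStep r l)^[V.length] V

theorem mem_prodL {β γ : Type} {V : List β} {W : List γ} {p : β × γ} :
    p ∈ prodL V W ↔ p.1 ∈ V ∧ p.2 ∈ W := by
  unfold prodL
  rw [List.mem_flatMap]
  constructor
  · rintro ⟨x, hx, hp⟩
    rw [List.mem_map] at hp
    obtain ⟨y, hy, rfl⟩ := hp
    exact ⟨hx, hy⟩
  · rintro ⟨h1, h2⟩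
    exact ⟨p.1, h1, List.mem_map.2 ⟨p.2, h2, rfl⟩⟩

theorem cleanStep_cases (l : ℕ) (V : List α) :
    ((∀ x ∈ V, ∀ y ∈ V, x ≠ y → (V.filter fun z => onL r x y z).length ≤ l) ∧
      cleanStep r l V = V) ∨
    (∃ x y, x ≠ y ∧ l < (V.filter fun z => onL r x y z).length ∧
      cleanStep r l V = V.filter fun z => !(onL r x y z)) := by
  unfold cleanStep
  cases hh : ((prodL V V).filter fun p => richT r l V p).head? with
  | none =>
    left
    refine ⟨?_, rfl⟩
    intro x hx y hy hxy
    rw [List.head?_eq_none_iff, List.filter_eq_nil_iff] at hh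
    have := hh (x, y) (mem_prodL.2 ⟨hx, hy⟩)
    unfold richT at this
    simp only [Bool.and_eq_true, Bool.not_eq_true', decide_eq_false_iff_not, decide_eq_true_iff,
      not_and] at this
    have := this hxy
    omega
  | some p =>
    right
    have hm : p ∈ (prodL V V).filter fun p => richT r l V p := List.mem_of_head? hh
    rw [List.mem_filter] at hm
    have := hm.2
    unfold richT at this
    simp only [Bool.and_eq_true, Bool.not_eq_true', decide_eq_false_iff_not,
      decide_eq_true_iff] at this
    exact ⟨p.1, p.2, this.1, this.2, rfl⟩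

theorem cleanStep_sub (l : ℕ) (V : List α) : (cleanStep r l V).Sublist V := by
  rcases cleanStep_cases r l V with ⟨_, h⟩ | ⟨x, y, _, _, h⟩
  · rw [h]
  · rw [h]; exact List.filter_sublist

theorem clean_iter_sub (l : ℕ) (V : List α) (k : ℕ) : ((cleanStep r l)^[k] V).Sublist V := by
  induction k with
  | zero => exact List.Sublist.refl _
  | succ k ih =>
    rw [Function.iterate_succ_apply']
    exact (cleanStep_sub r l _).trans ih

theorem clean_sub (l : ℕ) (V : List α) : (clean r l V).Sublist V := clean_iter_sub r l V _

/-- No rich line. -/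
def Poor (l : ℕ) (V : List α) : Prop :=
  ∀ x ∈ V, ∀ y ∈ V, x ≠ y → (V.filter fun z => onL r x y z).length ≤ l

theorem clean_iter_poor (l : ℕ) (V : List α) (k : ℕ) :
    Poor r l ((cleanStep r l)^[k] V) ∨ ((cleanStep r l)^[k] V).length + k ≤ V.length := by
  induction k with
  | zero => right; simp
  | succ k ih =>
    rw [Function.iterate_succ_apply']
    set W := (cleanStep r l)^[k] V with hW
    rcases cleanStep_cases r l W with ⟨h1, h2⟩ | ⟨x, y, hxy, h1, h2⟩
    · left
      rw [h2]; exact h1
    · rcases ih with ih | ih
      · left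
        have : cleanStep r l W = W := by
          rcases cleanStep_cases r l W with ⟨_, h4⟩ | ⟨x', y', _, _, _⟩
          · exact h4
          · unfold cleanStep
            have : ((prodL W W).filter fun p => richT r l W p) = [] := by
              rw [List.filter_eq_nil_iff]
              rintro ⟨a, b⟩ hab
              rw [mem_prodL] at hab
              unfold richT
              simp only [Bool.and_eq_true, Bool.not_eq_true', decide_eq_false_iff_not,
                decide_eq_true_iff, not_and, not_lt]
              intro hne
              exact ih a hab.1 b hab.2 hne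
            rw [this]
            rfl
        rw [this]
        exact ih
      · right
        rw [h2]
        have h3 := List.length_eq_length_filter_add (l := W) (fun z => onL r x y z)
        omega

theorem clean_poor (l : ℕ) (V : List α) : Poor r l (clean r l V) := by
  rcases clean_iter_poor r l V V.length with h | h
  · exact h
  · have : (cleanStep r l)^[V.length] V = [] := by
      rw [← List.length_eq_zero_iff]; omega
    unfold clean
    rw [this]
    intro x hx
    simp at hx

theorem clean_iter_opt (h : Lin (rel r)) {O : Finset α} (hO : GP (rel r) O) (l : ℕ) {V : List α}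
    (hV : V.Nodup) (k : ℕ) :
    l * (O ∩ V.toFinset).card + 2 * ((cleanStep r l)^[k] V).length ≤
      l * (O ∩ ((cleanStep r l)^[k] V).toFinset).card + 2 * V.length := by
  induction k with
  | zero => simp
  | succ k ih =>
    rw [Function.iterate_succ_apply']
    set W := (cleanStep r l)^[k] V with hW
    rcases cleanStep_cases r l W with ⟨h1, h2⟩ | ⟨x, y, hxy, h1, h2⟩
    · rw [h2]; exact ih
    · have hWn : W.Nodup := (clean_iter_sub r l V k).nodup hV
      have h3 := List.length_eq_length_filter_add (l := W) (fun z => onL r x y z)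
      rw [← h2] at h3
      have h4 : (O ∩ W.toFinset).card ≤ (O ∩ (cleanStep r l W).toFinset).card + 2 := by
        have e : O ∩ W.toFinset ⊆ (O ∩ (cleanStep r l W).toFinset) ∪
            (O ∩ W.toFinset).filter (fun z => onL r x y z = true) := by
          intro z hz
          rw [Finset.mem_inter, List.mem_toFinset] at hz
          rw [Finset.mem_union, Finset.mem_inter, List.mem_toFinset, Finset.mem_filter,
            Finset.mem_inter, List.mem_toFinset]
          cases hon : onL r x y z
          · left
            refine ⟨hz.1, ?_⟩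
            rw [h2, List.mem_filter]
            exact ⟨hz.2, by rw [hon]; rfl⟩
          · right
            exact ⟨hz, rfl⟩
        refine (card_le_card e).trans ((card_union_le _ _).trans ?_)
        apply Nat.add_le_add_left
        apply gp_line h hO (x := x) (y := y) _ hxy
        · intro z hz
          rw [Finset.mem_filter] at hz
          have := hz.2
          unfold onL at this
          simpa [or_assoc] using this
        · intro z hz
          rw [Finset.mem_filter, Finset.mem_inter] at hz
          exact hz.1.1
      have h5 : l * (O ∩ W.toFinset).card ≤ l * (O ∩ (cleanStep r l W).toFinset).card + l * 2 := by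
        rw [← Nat.mul_add]
        exact Nat.mul_le_mul_left _ h4
      omega

theorem clean_opt (h : Lin (rel r)) {O : Finset α} (hO : GP (rel r) O) (l : ℕ) {V : List α}
    (hV : V.Nodup) (hOV : O ⊆ V.toFinset) :
    l * O.card ≤ l * (clean r l V).length + 2 * V.length := by
  have h1 := clean_iter_opt r h hO l hV V.length
  rw [Finset.inter_eq_left.2 hOV] at h1
  have h2 : (O ∩ ((cleanStep r l)^[V.length] V).toFinset).card ≤ (clean r l V).length := by
    refine (card_le_card Finset.inter_subset_right).trans ?_
    exact List.toFinset_card_le _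
  have h3 := Nat.mul_le_mul_left l h2
  omega

/-! ### The simple greedy algorithm -/

/-- The simple greedy algorithm. -/
def gre (V : List α) : List α :=
  V.foldr (fun x s => bif (s.any fun a => s.any fun b => r a b x) then s else x :: s) []

theorem gre_cons (x : α) (V : List α) : gre r (x :: V) =
    bif ((gre r V).any fun a => (gre r V).any fun b => r a b x) then gre r V else x :: gre r V :=
  rfl

theorem gre_sub : ∀ V : List α, (gre r V).Sublist V
  | [] => List.Sublist.refl _
  | x :: V => by
    rw [gre_cons]
    cases ((gre r V).any fun a => (gre r V).any fun b => r a b x)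
    · exact (gre_sub V).cons_cons x
    · exact (gre_sub V).cons x

theorem gre_gp (h : Lin (rel r)) : ∀ V : List α, ∀ a ∈ gre r V, ∀ b ∈ gre r V, ∀ c ∈ gre r V,
    ¬ (rel r) a b c
  | [], a, ha, _, _, _, _ => by simp [gre] at ha
  | x :: V, a, ha, b, hb, c, hc => by
    have ih := gre_gp h V
    rw [gre_cons] at ha hb hc
    cases hx : ((gre r V).any fun a => (gre r V).any fun b => r a b x)
    · rw [hx] at ha hb hc
      have hext : ∀ a ∈ gre r V, ∀ b ∈ gre r V, ¬ (rel r) a b x := by
        intro a ha b hb hR
        rw [List.any_eq_false] at hx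
        have := hx a ha
        rw [Bool.not_eq_true, List.any_eq_false] at this
        exact this b hb hR
      simp only [cond_false, List.mem_cons] at ha hb hc
      intro hR
      rcases ha with ea | ha
      · rcases hb with eb | hb
        · exact h.ne _ _ _ hR (ea.trans eb.symm)
        · rcases hc with ec | hc
          · exact h.ne3 hR (ea.trans ec.symm)
          · rw [ea] at hR
            exact hext b hb c hc (h.rot _ _ _ hR)
      · rcases hb with eb | hb
        · rcases hc with ec | hc
          · exact h.ne2 hR (eb.trans ec.symm)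
          · rw [eb] at hR
            exact hext c hc a ha (h.rot2 hR)
        · rcases hc with ec | hc
          · rw [ec] at hR
            exact hext a ha b hb hR
          · exact ih a ha b hb c hc hR
    · rw [hx] at ha hb hc
      exact ih a ha b hb c hc

theorem gre_cover : ∀ V : List α, ∀ x ∈ V, x ∈ gre r V ∨
    ∃ a ∈ gre r V, ∃ b ∈ gre r V, (rel r) a b x
  | [], x, hx => by simp at hx
  | y :: V, x, hx => by
    have ih := gre_cover V
    rw [gre_cons]
    cases hy : ((gre r V).any fun a => (gre r V).any fun b => r a b y)
    · simp only [cond_false, List.mem_cons]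
      rcases List.mem_cons.1 hx with rfl | hx
      · left; left; rfl
      · rcases ih x hx with h1 | ⟨a, ha, b, hb, hR⟩
        · left; right; exact h1
        · right
          exact ⟨a, Or.inr ha, b, Or.inr hb, hR⟩
    · simp only [cond_true]
      rcases List.mem_cons.1 hx with rfl | hx
      · right
        rw [List.any_eq_true] at hy
        obtain ⟨a, ha, hy⟩ := hy
        rw [List.any_eq_true] at hy
        obtain ⟨b, hb, hy⟩ := hy
        exact ⟨a, ha, b, hb, hy⟩
      · exact ih x hx

theorem gre_bound (h : Lin (rel r)) {O : Finset α} (hO : GP (rel r) O) {V : List α}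
    (hOV : O ⊆ V.toFinset) : O.card ≤ 3 * ((gre r V).length * (gre r V).length) := by
  set s := gre r V with hs
  have h1 : O ⊆ s.toFinset ∪ (s.toFinset ×ˢ s.toFinset).biUnion
      (fun p => O.filter fun x => p.1 ≠ p.2 ∧ (x = p.1 ∨ x = p.2 ∨ (rel r) p.1 p.2 x)) := by
    intro x hx
    have hxV := hOV hx
    rw [List.mem_toFinset] at hxV
    rw [Finset.mem_union, List.mem_toFinset]
    rcases gre_cover r V x hxV with h2 | ⟨a, ha, b, hb, hR⟩
    · left; exact h2
    · right
      rw [Finset.mem_biUnion]
      refine ⟨(a, b), ?_, ?_⟩
      · rw [Finset.mem_product, List.mem_toFinset, List.mem_toFinset]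
        exact ⟨ha, hb⟩
      · rw [Finset.mem_filter]
        exact ⟨hx, h.ne _ _ _ hR, Or.inr (Or.inr hR)⟩
  have h2 : ((s.toFinset ×ˢ s.toFinset).biUnion
      (fun p => O.filter fun x => p.1 ≠ p.2 ∧ (x = p.1 ∨ x = p.2 ∨ (rel r) p.1 p.2 x))).card ≤
      (s.toFinset ×ˢ s.toFinset).card * 2 := by
    apply card_biUnion_le_card_mul
    intro p _
    by_cases hp : p.1 = p.2
    · have : (O.filter fun x => p.1 ≠ p.2 ∧ (x = p.1 ∨ x = p.2 ∨ (rel r) p.1 p.2 x)) = ∅ := by
        rw [Finset.filter_eq_empty_iff]
        intro x _ hh
        exact hh.1 hp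
      rw [this]; simp
    · apply gp_line h hO (Finset.filter_subset _ _) hp
      intro z hz
      rw [Finset.mem_filter] at hz
      exact hz.2.2
  have h3 := card_le_card h1
  have h4 := card_union_le s.toFinset ((s.toFinset ×ˢ s.toFinset).biUnion
      (fun p => O.filter fun x => p.1 ≠ p.2 ∧ (x = p.1 ∨ x = p.2 ∨ (rel r) p.1 p.2 x)))
  have h5 : s.toFinset.card ≤ s.length := List.toFinset_card_le _
  rw [card_product] at h2
  have h6 : s.toFinset.card * s.toFinset.card ≤ s.length * s.length := Nat.mul_le_mul h5 h5
  have h7 : s.length ≤ s.length * s.length := by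
    rcases Nat.eq_zero_or_pos s.length with h0 | h0
    · rw [h0]
    · exact Nat.le_mul_of_pos_left _ h0
  omega

end Run7.h435
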