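import Pool.Agent.Run7.h435.Pot

/-!
# One step of the greedy process
-/

set_option linter.unusedSectionVars false

namespace Run7.h435

open Finset

/-- The axioms of collinearity of three distinct points. -/
structure Lin {α : Type*} (R : α → α → α → Prop) : Prop where
  swap : ∀ a b c, R a b c → R b a c
  rot : ∀ a b c, R a b c → R b c a
  ne : ∀ a b c, R a b c → a ≠ b
  tr : ∀ a b c d, R a b c → R a b d → c ≠ d → R a c d

variable {α : Type*} [DecidableEq α] {R : α → α → α → Prop}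

namespace Lin

variable (h : Lin R)
include h

theorem rot2 {a b c : α} (H : R a b c) : R c a b := h.rot _ _ _ (h.rot _ _ _ H)
theorem swap2 {a b c : α} (H : R a b c) : R a c b := h.rot2 (h.swap _ _ _ (h.rot2 (h.rot2 H)))
theorem swap3 {a b c : α} (H : R a b c) : R c b a := h.swap _ _ _ (h.rot _ _ _ H)
theorem ne2 {a b c : α} (H : R a b c) : b ≠ c := h.ne _ _ _ (h.rot _ _ _ H)
theorem ne3 {a b c : α} (H : R a b c) : a ≠ c := (h.ne _ _ _ (h.rot2 H)).symm

end Lin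

/-- No four points on a line. -/
def No4 (R : α → α → α → Prop) (W : Finset α) : Prop :=
  ∀ x ∈ W, ∀ y ∈ W, ∀ z ∈ W, ∀ w ∈ W, R x y z → R x y w → z = w

/-- No triangle whose three sides contain further points. -/
def No6 (R : α → α → α → Prop) (W : Finset α) : Prop :=
  ∀ x ∈ W, ∀ y ∈ W, ∀ z ∈ W, ∀ a ∈ W, ∀ b ∈ W, ∀ c ∈ W,
    R x y a → R y z b → R z x c → R x y z

variable (R) in
/-- Points of `V` on a line with `u` and a point of `I`. -/
def nb [∀ a b c, Decidable (R a b c)] (I V : Finset α) (u : α) : Finset α :=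
  V.filter fun x => ∃ w ∈ I, R w u x

variable (R) in
/-- Ordered pairs of points of `V` collinear with `u`. -/
def e3 [∀ a b c, Decidable (R a b c)] (V : Finset α) (u : α) : Finset (α × α) :=
  (V ×ˢ V).filter fun x => R u x.1 x.2

variable (R) in
def s2 [∀ a b c, Decidable (R a b c)] (I V : Finset α) : ℕ := ∑ u ∈ V, (nb R I V u).card

variable (R) in
def c3 [∀ a b c, Decidable (R a b c)] (V : Finset α) : ℕ := ∑ u ∈ V, (e3 R V u).card

variable [∀ a b c, Decidable (R a b c)]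

theorem mem_nb {I V : Finset α} {u x : α} : x ∈ nb R I V u ↔ x ∈ V ∧ ∃ w ∈ I, R w u x := by
  unfold nb; rw [mem_filter]

theorem mem_e3 {V : Finset α} {u : α} {x : α × α} :
    x ∈ e3 R V u ↔ (x.1 ∈ V ∧ x.2 ∈ V) ∧ R u x.1 x.2 := by
  unfold e3; rw [mem_filter, mem_product]

theorem nb_symm (h : Lin R) {I V : Finset α} {u x : α} (hu : u ∈ V) (hx : x ∈ nb R I V u) :
    u ∈ nb R I V x := by
  rw [mem_nb] at hx ⊢
  obtain ⟨_, w, hw, hR⟩ := hx
  exact ⟨hu, w, hw, h.swap2 hR⟩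

/-- Double counting over neighbours. -/
theorem sum_nb (h : Lin R) (I V : Finset α) (f : α → ℕ) :
    ∑ v ∈ V, ∑ u ∈ nb R I V v, f u = ∑ u ∈ V, (nb R I V u).card * f u := by
  have e1 : ∑ v ∈ V, ∑ u ∈ nb R I V v, f u = ∑ v ∈ V, ∑ u ∈ V, if (∃ w ∈ I, R w v u) then f u
      else 0 := by
    refine sum_congr rfl fun v _ => ?_
    unfold nb
    rw [sum_filter]
  rw [e1, sum_comm]
  refine sum_congr rfl fun u hu => ?_
  rw [← sum_filter]
  have e2 : (V.filter fun v => ∃ w ∈ I, R w v u) = nb R I V u := by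
    unfold nb
    refine filter_congr fun v _ => ?_
    constructor
    · rintro ⟨w, hw, hR⟩; exact ⟨w, hw, h.swap2 hR⟩
    · rintro ⟨w, hw, hR⟩; exact ⟨w, hw, h.swap2 hR⟩
  rw [e2, sum_const, smul_eq_mul]

theorem card_nb (I V : Finset α) (u : α) :
    (nb R I V u).card = ∑ x ∈ V, if (∃ w ∈ I, R w u x) then 1 else 0 := by
  unfold nb; rw [card_filter]

theorem card_e3 (V : Finset α) (u : α) :
    (e3 R V u).card = ∑ y ∈ V, ∑ z ∈ V, if R u y z then 1 else 0 := by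
  unfold e3; rw [card_filter, sum_product]

/-- Sum over a subset as a sum with an indicator. -/
theorem sum_sub_ind {V K : Finset α} (hK : K ⊆ V) (f : α → ℕ) :
    ∑ x ∈ K, f x = ∑ x ∈ V, if x ∈ K then f x else 0 := by
  rw [← sum_filter]
  congr 1
  ext x
  simp only [mem_filter]
  exact ⟨fun h => ⟨hK h, h⟩, fun h => h.2⟩

theorem sum_sdiff_ind {V K : Finset α} (f : α → ℕ) :
    ∑ x ∈ V \ K, f x = ∑ x ∈ V, if x ∈ K then 0 else f x := by
  have : V \ K = V.filter fun x => x ∉ K := by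
    ext x; simp
  rw [this, sum_filter]
  refine sum_congr rfl fun x _ => ?_
  by_cases hx : x ∈ K <;> simp [hx]

/-- Deleting a set of points: the graph part. -/
theorem s2_sdiff (h : Lin R) {I V K : Finset α} (hK : K ⊆ V) :
    s2 R I (V \ K) + 2 * ∑ x ∈ K, (nb R I V x).card = s2 R I V + ∑ x ∈ K, (nb R I K x).card := by
  unfold s2
  simp only [card_nb]
  set r : α → α → ℕ := fun u x => if (∃ w ∈ I, R w u x) then 1 else 0 with hr
  have rs : ∀ u x, r u x = r x u := by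
    intro u x
    have : (∃ w ∈ I, R w u x) ↔ (∃ w ∈ I, R w x u) :=
      ⟨fun ⟨w, hw, H⟩ => ⟨w, hw, h.swap2 H⟩, fun ⟨w, hw, H⟩ => ⟨w, hw, h.swap2 H⟩⟩
    simp only [hr, this]
  change ∑ u ∈ V \ K, ∑ x ∈ V \ K, r u x + 2 * ∑ u ∈ K, ∑ x ∈ V, r u x =
    ∑ u ∈ V, ∑ x ∈ V, r u x + ∑ u ∈ K, ∑ x ∈ K, r u x
  have e1 : ∑ u ∈ V \ K, ∑ x ∈ V \ K, r u x =
      ∑ u ∈ V, ∑ x ∈ V, if u ∈ K then 0 else (if x ∈ K then 0 else r u x) := by
    rw [sum_sdiff_ind]
    refine sum_congr rfl fun u _ => ?_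
    by_cases hu : u ∈ K
    · simp [hu]
    · simp only [hu, if_false]; rw [sum_sdiff_ind]
  have e2 : ∑ u ∈ K, ∑ x ∈ V, r u x = ∑ u ∈ V, ∑ x ∈ V, if u ∈ K then r u x else 0 := by
    rw [sum_sub_ind hK]
    refine sum_congr rfl fun u _ => ?_
    by_cases hu : u ∈ K <;> simp [hu]
  have e3 : ∑ u ∈ K, ∑ x ∈ V, r u x = ∑ u ∈ V, ∑ x ∈ V, if x ∈ K then r u x else 0 := by
    rw [e2, sum_comm]
    refine sum_congr rfl fun u _ => sum_congr rfl fun x _ => ?_
    rw [rs]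
  have e4 : ∑ u ∈ K, ∑ x ∈ K, r u x =
      ∑ u ∈ V, ∑ x ∈ V, if u ∈ K then (if x ∈ K then r u x else 0) else 0 := by
    rw [sum_sub_ind hK]
    refine sum_congr rfl fun u _ => ?_
    by_cases hu : u ∈ K
    · simp only [hu, if_true]; rw [sum_sub_ind hK]
    · simp [hu]
  rw [two_mul]
  nth_rewrite 1 [e2]
  rw [e3, e1, e4, ← sum_add_distrib, ← sum_add_distrib, ← sum_add_distrib]
  refine sum_congr rfl fun u _ => ?_
  rw [← sum_add_distrib, ← sum_add_distrib, ← sum_add_distrib]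
  refine sum_congr rfl fun x _ => ?_
  by_cases hu : u ∈ K <;> by_cases hx : x ∈ K <;> simp [hu, hx]

/-- Deleting a set of points: the triples. -/
theorem c3_sdiff (h : Lin R) {V K : Finset α} (hK : K ⊆ V)
    (hno : ∀ x ∈ K, ∀ y ∈ K, ∀ z ∈ V, ¬ R x y z) :
    c3 R (V \ K) + 3 * ∑ x ∈ K, (e3 R V x).card = c3 R V := by
  unfold c3
  simp only [card_e3]
  set r : α → α → α → ℕ := fun x y z => if R x y z then 1 else 0 with hr
  have rs1 : ∀ x y z, r x y z = r y x z := by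
    intro x y z
    have : R x y z ↔ R y x z := ⟨fun H => h.swap _ _ _ H, fun H => h.swap _ _ _ H⟩
    simp only [hr, this]
  have rs2 : ∀ x y z, r x y z = r z y x := by
    intro x y z
    have : R x y z ↔ R z y x := ⟨fun H => h.swap3 H, fun H => h.swap3 H⟩
    simp only [hr, this]
  change ∑ x ∈ V \ K, ∑ y ∈ V \ K, ∑ z ∈ V \ K, r x y z + 3 * ∑ x ∈ K, ∑ y ∈ V, ∑ z ∈ V, r x y z
    = ∑ x ∈ V, ∑ y ∈ V, ∑ z ∈ V, r x y z
  have e1 : ∑ x ∈ V \ K, ∑ y ∈ V \ K, ∑ z ∈ V \ K, r x y z =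
      ∑ x ∈ V, ∑ y ∈ V, ∑ z ∈ V, if x ∈ K then 0 else (if y ∈ K then 0 else
        (if z ∈ K then 0 else r x y z)) := by
    rw [sum_sdiff_ind]
    refine sum_congr rfl fun x _ => ?_
    by_cases hx : x ∈ K
    · simp [hx]
    · simp only [hx, if_false]
      rw [sum_sdiff_ind]
      refine sum_congr rfl fun y _ => ?_
      by_cases hy : y ∈ K
      · simp [hy]
      · simp only [hy, if_false]
        rw [sum_sdiff_ind]
  have e2 : ∑ x ∈ K, ∑ y ∈ V, ∑ z ∈ V, r x y z = ∑ x ∈ V, ∑ y ∈ V, ∑ z ∈ V,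
      if x ∈ K then r x y z else 0 := by
    rw [sum_sub_ind hK]
    refine sum_congr rfl fun u _ => ?_
    by_cases hu : u ∈ K <;> simp [hu]
  have e3 : ∑ x ∈ K, ∑ y ∈ V, ∑ z ∈ V, r x y z = ∑ x ∈ V, ∑ y ∈ V, ∑ z ∈ V,
      if y ∈ K then r x y z else 0 := by
    rw [e2, sum_comm]
    refine sum_congr rfl fun x _ => sum_congr rfl fun y _ => sum_congr rfl fun z _ => ?_
    rw [rs1]
  have e4 : ∑ x ∈ K, ∑ y ∈ V, ∑ z ∈ V, r x y z = ∑ x ∈ V, ∑ y ∈ V, ∑ z ∈ V,
      if z ∈ K then r x y z else 0 := by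
    rw [e2]
    have : ∀ x ∈ V, ∑ y ∈ V, ∑ z ∈ V, (if x ∈ K then r x y z else 0) =
        ∑ z ∈ V, ∑ y ∈ V, (if x ∈ K then r x y z else 0) := fun x _ => sum_comm
    rw [sum_congr rfl this, sum_comm]
    refine sum_congr rfl fun x _ => ?_
    rw [sum_comm]
    refine sum_congr rfl fun y _ => sum_congr rfl fun z _ => ?_
    rw [rs2]
  have e5 : 3 * ∑ x ∈ K, ∑ y ∈ V, ∑ z ∈ V, r x y z =
      ∑ x ∈ V, ∑ y ∈ V, ∑ z ∈ V, ((if x ∈ K then r x y z else 0) + (if y ∈ K then r x y z else 0)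
        + (if z ∈ K then r x y z else 0)) := by
    simp only [sum_add_distrib]
    rw [← e2, ← e3, ← e4]
    ring
  rw [e5, e1, ← sum_add_distrib]
  refine sum_congr rfl fun x hx => ?_
  rw [← sum_add_distrib]
  refine sum_congr rfl fun y hy => ?_
  rw [← sum_add_distrib]
  refine sum_congr rfl fun z hz => ?_
  by_cases hR : R x y z
  · have n1 : x ∈ K → y ∉ K := fun a b => hno x a y b z hz hR
    have n2 : x ∈ K → z ∉ K := fun a b => hno x a z b y hy (h.swap2 hR)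
    have n3 : y ∈ K → z ∉ K := fun a b => hno y a z b x hx (h.rot _ _ _ hR)
    by_cases kx : x ∈ K <;> by_cases ky : y ∈ K <;> by_cases kz : z ∈ K <;>
      simp_all
  · have : r x y z = 0 := by simp only [hr, hR, if_false]
    rw [this]
    simp

end Run7.h435
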