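import Mathlib.Probability.Distributions.Gaussian.Multivariate
import Mathlib.MeasureTheory.Measure.Portmanteau
import Mathlib.MeasureTheory.Measure.Lebesgue.VolumeOfBalls
import Mathlib.Probability.Distributions.Gaussian.Real

/-! # A nondegenerate Gaussian measure is absolutely continuous; positive definiteness is open -/

set_option autoImplicit false

namespace Run7.h435.GL

open MeasureTheory ProbabilityTheory Filter Topology
open scoped Matrix MatrixOrder Matrix.Norms.L2Operator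

lemma pi_ac {ν μ : Measure ℝ} [SigmaFinite ν] [SigmaFinite μ] (h : ν ≪ μ) (n : ℕ) :
    Measure.pi (fun _ : Fin n => ν) ≪ Measure.pi (fun _ : Fin n => μ) := by
  induction n with
  | zero =>
    rw [Measure.pi_of_empty, Measure.pi_of_empty]
  | succ n ih =>
    have h1 := (measurePreserving_piFinSuccAbove (fun _ : Fin (n + 1) => ν) 0).symm
    have h2 := (measurePreserving_piFinSuccAbove (fun _ : Fin (n + 1) => μ) 0).symm
    rw [← h1.map_eq, ← h2.map_eq]
    exact (h.prod ih).map (MeasurableEquiv.measurable _)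

lemma mg_ac {m : ℕ} {S : Matrix (Fin m) (Fin m) ℝ} (hS : S.PosDef) :
    multivariateGaussian 0 S ≪ (volume : Measure (EuclideanSpace ℝ (Fin m))) := by
  obtain ⟨M, hM⟩ : ∃ M : Matrix (Fin m) (Fin m) ℝ, M = CFC.sqrt S := ⟨_, rfl⟩
  have hMM : M * M = S := by
    rw [hM]
    exact CFC.sqrt_mul_sqrt_self S hS.posSemidef.nonneg
  have hdet : S.det ≠ 0 := hS.det_pos.ne'
  have hMdet : M.det ≠ 0 := by
    intro h0
    apply hdet
    rw [← hMM, Matrix.det_mul, h0, zero_mul]
  have hg : Measure.pi (fun _ : Fin m => gaussianReal 0 1) ≪ (volume : Measure (Fin m → ℝ)) :=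
    pi_ac (gaussianReal_absolutelyContinuous 0 one_ne_zero) m
  refine Measure.AbsolutelyContinuous.mk fun s hs h0 => ?_
  unfold multivariateGaussian
  rw [← map_pi_eq_stdGaussian, Measure.map_map (by fun_prop) (by fun_prop),
    Measure.map_apply (by fun_prop) hs]
  apply hg
  have hset : ((fun x => (0 : EuclideanSpace ℝ (Fin m)) + Matrix.toEuclideanCLM (𝕜 := ℝ) (CFC.sqrt S) x) ∘
      WithLp.toLp 2) ⁻¹' s = (Matrix.toLin' M) ⁻¹' (WithLp.toLp 2 ⁻¹' s) := by
    ext z
    rw [Set.mem_preimage, Set.mem_preimage, Set.mem_preimage, ← hM]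
    simp [Matrix.toEuclideanCLM_toLp]
  rw [hset]
  have h1 : volume (WithLp.toLp 2 ⁻¹' s : Set (Fin m → ℝ)) = 0 := by
    rw [(PiLp.volume_preserving_toLp (Fin m)).measure_preimage hs.nullMeasurableSet]
    exact h0
  have h2 := Real.map_matrix_volume_pi_eq_smul_volume_pi hMdet
  have h3 : Measure.map (Matrix.toLin' M) volume (WithLp.toLp 2 ⁻¹' s : Set (Fin m → ℝ)) = 0 := by
    rw [h2, Measure.smul_apply, h1, smul_zero]
  rw [Measure.map_apply (by fun_prop) (by
    exact (by fun_prop : Measurable (WithLp.toLp 2 : (Fin m → ℝ) → EuclideanSpace ℝ (Fin m))) hs)] at h3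
  exact h3

lemma pos_ev {m : ℕ} {S : Matrix (Fin m) (Fin m) ℝ} (hS : S.PosDef)
    {s : ℕ → Matrix (Fin m) (Fin m) ℝ} (hs : ∀ j, (s j).IsHermitian)
    (ht : ∀ p q, Tendsto (fun j => s j p q) atTop (𝓝 (S p q))) : ∀ᶠ j in atTop, (s j).PosDef := by
  have hK : IsCompact (Metric.sphere (0 : EuclideanSpace ℝ (Fin m)) 1) := isCompact_sphere _ _
  have hcont : Continuous fun z : (Fin m → Fin m → ℝ) × EuclideanSpace ℝ (Fin m) =>
      ∑ p, ∑ q, z.2 p * (z.1 p q * z.2 q) := by fun_prop
  have h1 : ∀ᶠ z : Fin m → Fin m → ℝ in 𝓝 (fun p q => S p q),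
      ∀ x ∈ Metric.sphere (0 : EuclideanSpace ℝ (Fin m)) 1, 0 < ∑ p, ∑ q, x p * (z p q * x q) := by
    refine hK.eventually_forall_of_forall_eventually fun x hx => ?_
    have hx0 : (fun p => x p) ≠ (0 : Fin m → ℝ) := by
      intro h0
      have : x = 0 := by
        ext p
        exact congrFun h0 p
      rw [mem_sphere_zero_iff_norm, this, norm_zero] at hx
      norm_num at hx
    have h2 := hS.dotProduct_mulVec_pos hx0
    rw [star_trivial] at h2
    have h3 : 0 < ∑ p, ∑ q, x p * (S p q * x q) := by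
      refine lt_of_lt_of_le h2 (le_of_eq ?_)
      simp only [dotProduct, Matrix.mulVec, Finset.mul_sum]
    exact hcont.continuousAt.eventually (lt_mem_nhds h3)
  have h2 : Tendsto (fun j => fun p q => s j p q) atTop (𝓝 (fun p q => S p q)) := by
    rw [tendsto_pi_nhds]
    intro p
    rw [tendsto_pi_nhds]
    intro q
    exact ht p q
  filter_upwards [h2.eventually h1] with j hj
  refine Matrix.PosDef.of_dotProduct_mulVec_pos (hs j) fun b hb => ?_
  have hb' : WithLp.toLp 2 b ≠ (0 : EuclideanSpace ℝ (Fin m)) := by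
    intro h0
    apply hb
    have := congrArg WithLp.ofLp h0
    simpa using this
  have hn : 0 < ‖(WithLp.toLp 2 b : EuclideanSpace ℝ (Fin m))‖ := norm_pos_iff.2 hb'
  have h3 := hj ((‖(WithLp.toLp 2 b : EuclideanSpace ℝ (Fin m))‖)⁻¹ • WithLp.toLp 2 b) (by
    rw [mem_sphere_zero_iff_norm, norm_smul, norm_inv, norm_norm, inv_mul_cancel₀ hn.ne'])
  obtain ⟨c, hc⟩ : ∃ c : ℝ, c = (‖(WithLp.toLp 2 b : EuclideanSpace ℝ (Fin m))‖)⁻¹ := ⟨_, rfl⟩
  rw [← hc] at h3
  have e : ∑ p, ∑ q, (c • WithLp.toLp 2 b : EuclideanSpace ℝ (Fin m)) p *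
      (s j p q * (c • WithLp.toLp 2 b : EuclideanSpace ℝ (Fin m)) q) = c ^ 2 * (star b ⬝ᵥ s j *ᵥ b) := by
    simp only [dotProduct, Matrix.mulVec, Finset.mul_sum, star_trivial, PiLp.smul_apply, smul_eq_mul]
    refine Finset.sum_congr rfl fun p _ => Finset.sum_congr rfl fun q _ => ?_
    ring
  rw [e] at h3
  have hc0 : 0 < c ^ 2 := by rw [hc]; positivity
  exact (mul_pos_iff_of_pos_left hc0).1 h3

end Run7.h435.GL
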