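import Pool.Agent.X112.LF.SB
import Pool.Agent.Run7.h435.GLa

/-! # The law of the vector of the windows is close to a Gaussian law, uniformly in the pattern -/

set_option autoImplicit false

namespace Run7.h435.GL

open Complex Filter Topology MeasureTheory Set ProbabilityTheory
open Pool.Agent.X112.LF (xi Pm nuT nuT_prob Cov Pat Pt joint_lim xi_meas)
open scoped Matrix RealInnerProductSpace

/-- the covariance matrix of a pattern -/
noncomputable def Kov {m : ℕ} (h : ℝ) (k : Fin (m + 1) → ℝ) : Matrix (Fin m) (Fin m) ℝ :=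
  Cov (fun i j => Real.log |k i - k j| / Real.log h)

lemma Kov_herm {m : ℕ} (h : ℝ) (k : Fin (m + 1) → ℝ) : (Kov h k).IsHermitian := by
  refine Matrix.IsHermitian.ext fun p q => ?_
  simp only [Kov, Cov, Matrix.of_apply, star_trivial]
  rw [abs_sub_comm (k q.succ) (k p.succ)]
  ring

/-- the Gaussian law as a probability measure -/
noncomputable def pmG {m : ℕ} (M : Matrix (Fin m) (Fin m) ℝ) : ProbabilityMeasure (EuclideanSpace ℝ (Fin m)) :=
  ⟨multivariateGaussian 0 M, inferInstance⟩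

lemma wc_mg {m : ℕ} {S : Matrix (Fin m) (Fin m) ℝ} (hS : S.PosDef)
    {s : ℕ → Matrix (Fin m) (Fin m) ℝ} (hs : ∀ᶠ j in atTop, (s j).PosDef)
    (ht : ∀ p q, Tendsto (fun j => s j p q) atTop (𝓝 (S p q))) :
    Tendsto (fun j => pmG (s j)) atTop (𝓝 (pmG S)) := by
  rw [ProbabilityMeasure.tendsto_iff_tendsto_charFun]
  intro b
  have h2 : ∀ M : Matrix (Fin m) (Fin m) ℝ, M.PosDef → charFun (multivariateGaussian 0 M) b =
      cexp ((-((fun p => b p) ⬝ᵥ M *ᵥ (fun p => b p)) / 2 : ℝ) : ℂ) := by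
    intro M hM
    rw [charFun_multivariateGaussian hM.posSemidef]
    congr 1
    rw [inner_zero_right]
    push_cast
    ring
  show Tendsto (fun j => charFun (multivariateGaussian 0 (s j)) b) atTop
    (𝓝 (charFun (multivariateGaussian 0 S) b))
  rw [h2 S hS]
  have h3 : Tendsto (fun j => cexp ((-((fun p => b p) ⬝ᵥ s j *ᵥ (fun p => b p)) / 2 : ℝ) : ℂ)) atTop
      (𝓝 (cexp ((-((fun p => b p) ⬝ᵥ S *ᵥ (fun p => b p)) / 2 : ℝ) : ℂ))) := by
    refine (Complex.continuous_exp.tendsto _).comp ?_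
    refine (Complex.continuous_ofReal.tendsto _).comp ?_
    refine Tendsto.div_const (Tendsto.neg ?_) _
    simp only [dotProduct, Matrix.mulVec]
    refine tendsto_finsetSum _ fun p _ => ?_
    refine Tendsto.const_mul _ ?_
    refine tendsto_finsetSum _ fun q _ => ?_
    exact (ht p q).mul_const _
  refine h3.congr' ?_
  filter_upwards [hs] with j hj
  rw [h2 _ hj]

theorem law_gen (A : ℕ) (B : ℝ) (hB : 1 ≤ B) (m : ℕ) (S : Set (EuclideanSpace ℝ (Fin m)))
    (hS : volume (frontier S) = 0) (ε : ℝ) (hε : 0 < ε) :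
    ∃ R q : ℝ, 3 ≤ R ∧ 0 < q ∧ ∀ (h K T : ℝ) (k : Fin (m + 1) → ℝ), R ≤ h → Pt A B h K T k →
      (Kov h k).PosDef ∧
      volume.real ((xi k h T) ⁻¹' (Metric.cthickening q S) ∩ Icc T (2 * T)) ≤
        ((multivariateGaussian 0 (Kov h k)).real (interior S) + ε) * T := by
  obtain ⟨A0, hA0, hj⟩ := joint_lim B hB m
  by_contra hcon
  push Not at hcon
  have hch : ∀ j : ℕ, ∃ p : ℝ × ℝ × ℝ × (Fin (m + 1) → ℝ),
      A0 + j ≤ p.1 ∧ Pt A B p.1 p.2.1 p.2.2.1 p.2.2.2 ∧
      ((Kov p.1 p.2.2.2).PosDef → ((multivariateGaussian 0 (Kov p.1 p.2.2.2)).real (interior S) + ε) * p.2.2.1 <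
        volume.real ((xi p.2.2.2 p.1 p.2.2.1) ⁻¹' (Metric.cthickening (1 / ((j : ℝ) + 1)) S) ∩
          Icc p.2.2.1 (2 * p.2.2.1))) := by
    intro j
    have hj0 : (0 : ℝ) ≤ j := Nat.cast_nonneg j
    obtain ⟨h, K, T, k, h1, h2, h3⟩ := hcon (A0 + j) (1 / ((j : ℝ) + 1)) (by linarith) (by positivity)
    exact ⟨(h, K, T, k), h1, h2, h3⟩
  choose p hp using hch
  obtain ⟨h, hh⟩ : ∃ h : ℕ → ℝ, h = fun j => (p j).1 := ⟨_, rfl⟩
  obtain ⟨K, hK⟩ : ∃ K : ℕ → ℝ, K = fun j => (p j).2.1 := ⟨_, rfl⟩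
  obtain ⟨T, hT⟩ : ∃ T : ℕ → ℝ, T = fun j => (p j).2.2.1 := ⟨_, rfl⟩
  obtain ⟨k, hk⟩ : ∃ k : ℕ → Fin (m + 1) → ℝ, k = fun j => (p j).2.2.2 := ⟨_, rfl⟩
  have q1 : ∀ j : ℕ, A0 + j ≤ h j := fun j => by rw [hh]; exact (hp j).1
  have q2 : ∀ j, Pt A B (h j) (K j) (T j) (k j) := fun j => by rw [hh, hK, hT, hk]; exact (hp j).2.1
  have q4 : ∀ j : ℕ, (Kov (h j) (k j)).PosDef →
      ((multivariateGaussian 0 (Kov (h j) (k j))).real (interior S) + ε) * T j <
      volume.real ((xi (k j) (h j) (T j)) ⁻¹' (Metric.cthickening (1 / ((j : ℝ) + 1)) S) ∩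
          Icc (T j) (2 * T j)) := fun j => by
    rw [hh, hT, hk]; exact (hp j).2.2
  have hT0 : ∀ j, 0 < T j := fun j => by linarith [(q2 j).T1]
  have hh3 : ∀ j, 3 ≤ h j := fun j => by
    have : (0 : ℝ) ≤ j := Nat.cast_nonneg j
    linarith [q1 j]
  have hlh : ∀ j, 0 < Real.log (h j) := fun j => Real.log_pos (by linarith [hh3 j])
  obtain ⟨lam, hlam⟩ : ∃ lam : ℕ → Fin (m + 1) → Fin (m + 1) → ℝ,
    lam = fun j i i' => Real.log |k j i - k j i'| / Real.log (h j) := ⟨_, rfl⟩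
  have hlb : ∀ j i i', |lam j i i'| ≤ A := by
    intro j i i'
    rw [hlam]
    simp only
    by_cases hii : i = i'
    · rw [hii, sub_self, abs_zero, Real.log_zero, zero_div, abs_zero]
      exact Nat.cast_nonneg A
    · have g1 := (q2 j).gap i i' hii
      have g2 := ((q2 j).wid i i').trans (q2 j).KA
      have g3 := hh3 j
      have g4 : 0 ≤ Real.log |k j i - k j i'| := Real.log_nonneg (by linarith)
      rw [abs_of_nonneg (div_nonneg g4 (hlh j).le), div_le_iff₀ (hlh j), ← Real.log_pow]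
      exact Real.log_le_log (by linarith) g2
  have hz : ∀ j, lam j ∈ Metric.closedBall (0 : Fin (m + 1) → Fin (m + 1) → ℝ) A := by
    intro j
    rw [mem_closedBall_zero_iff, pi_norm_le_iff_of_nonneg (Nat.cast_nonneg A)]
    intro i
    rw [pi_norm_le_iff_of_nonneg (Nat.cast_nonneg A)]
    intro i'
    exact hlb j i i'
  obtain ⟨ll, -, φ, hφ, hzl⟩ := (isCompact_closedBall _ _).tendsto_subseq hz
  have r2 : ∀ i i', Tendsto (fun j => Real.log |k (φ j) i - k (φ j) i'| / Real.log (h (φ j))) atTop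
      (𝓝 (ll i i')) := by
    intro i i'
    have h1 := (tendsto_pi_nhds.1 ((tendsto_pi_nhds.1 hzl) i)) i'
    rw [hlam] at h1
    exact h1
  have hφt : Tendsto (fun j => (φ j : ℝ)) atTop atTop := tendsto_natCast_atTop_atTop.comp hφ.tendsto_atTop
  have hpat : Pat B A0 (fun j => h (φ j)) (fun j => K (φ j)) (fun j => T (φ j)) (fun j => k (φ j)) := by
    refine ⟨fun j => ?_, fun j => (q2 _).hK, fun j => (q2 _).T1, ?_, fun j => (q2 _).KT,
      fun j => (q2 _).gap, fun j => (q2 _).wid, fun j => (q2 _).k0, fun j => (q2 _).kn⟩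
    · have : (0 : ℝ) ≤ φ j := Nat.cast_nonneg _
      linarith [q1 (φ j)]
    · refine tendsto_atTop_mono (fun j => ?_) hφt
      linarith [q1 (φ j)]
  obtain ⟨hpd, hchf⟩ := hj _ _ _ _ hpat ll r2
  -- the covariance matrices
  have hcov : ∀ p q, Tendsto (fun j => Kov (h (φ j)) (k (φ j)) p q) atTop (𝓝 (Cov ll p q)) := by
    intro p q
    simp only [Kov, Cov, Matrix.of_apply]
    exact (((r2 _ _).add (r2 _ _)).sub (r2 _ _)).div_const _
  have hpos := pos_ev hpd (fun j => Kov_herm (h (φ j)) (k (φ j))) hcov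
  have hwg := wc_mg hpd hpos hcov
  -- weak convergence
  have hprob : ∀ j, IsProbabilityMeasure (nuT (k (φ j)) (h (φ j)) (T (φ j))) := fun j => nuT_prob _ _ (hT0 _)
  obtain ⟨ν, hν⟩ : ∃ ν : ℕ → ProbabilityMeasure (EuclideanSpace ℝ (Fin m)),
    ν = fun j => ⟨nuT (k (φ j)) (h (φ j)) (T (φ j)), hprob j⟩ := ⟨_, rfl⟩
  obtain ⟨γ, hγ⟩ : ∃ γ : ProbabilityMeasure (EuclideanSpace ℝ (Fin m)), γ = pmG (Cov ll) := ⟨_, rfl⟩
  rw [← hγ] at hwg
  have hwc : Tendsto ν atTop (𝓝 γ) := by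
    rw [ProbabilityMeasure.tendsto_iff_tendsto_charFun]
    intro b
    have h1 := hchf b
    have h2 : charFun (γ : Measure (EuclideanSpace ℝ (Fin m))) b =
        cexp ((-((fun p => b p) ⬝ᵥ Cov ll *ᵥ (fun p => b p)) / 2 : ℝ) : ℂ) := by
      rw [hγ]
      show charFun (multivariateGaussian 0 (Cov ll)) b = _
      rw [charFun_multivariateGaussian hpd.posSemidef]
      congr 1
      rw [inner_zero_right]
      push_cast
      ring
    rw [h2]
    refine h1.congr fun j => ?_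
    rw [hν]
    rfl
  -- the boundary is null
  have hγcl : (γ : Measure (EuclideanSpace ℝ (Fin m))) (closure S) =
      (γ : Measure (EuclideanSpace ℝ (Fin m))) (interior S) := by
    refine le_antisymm ?_ (measure_mono (interior_subset.trans subset_closure))
    have h1 : (γ : Measure (EuclideanSpace ℝ (Fin m))) (frontier S) = 0 := by
      rw [hγ]
      exact mg_ac hpd hS
    rw [closure_eq_interior_union_frontier]
    refine (measure_union_le _ _).trans ?_
    rw [h1, add_zero]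
  obtain ⟨g, hg⟩ : ∃ g : ℝ, g = (γ : Measure (EuclideanSpace ℝ (Fin m))).real (interior S) := ⟨_, rfl⟩
  have hgO : (γ : Measure (EuclideanSpace ℝ (Fin m))) (interior S) = ENNReal.ofReal g := by
    rw [hg, ofReal_measureReal]
  have hg0 : 0 ≤ g := by rw [hg]; exact measureReal_nonneg
  -- the thickening
  have ht1 := tendsto_measure_cthickening (μ := (γ : Measure (EuclideanSpace ℝ (Fin m)))) (s := S)
    ⟨1, one_pos, measure_ne_top _ _⟩
  have ht2 : Tendsto (fun n : ℕ => 1 / ((n : ℝ) + 1)) atTop (𝓝 0) := tendsto_one_div_add_atTop_nhds_zero_nat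
  have ht3 := (ht1.comp ht2).eventually (gt_mem_nhds (show (γ : Measure (EuclideanSpace ℝ (Fin m))) (closure S) <
      ENNReal.ofReal (g + ε / 4) by
    rw [hγcl, hgO]
    exact (ENNReal.ofReal_lt_ofReal_iff (by linarith)).2 (by linarith)))
  obtain ⟨n, hn⟩ := ht3.exists
  have hn' : (γ : Measure (EuclideanSpace ℝ (Fin m))) (Metric.cthickening (1 / ((n : ℝ) + 1)) S) <
    ENNReal.ofReal (g + ε / 4) := hn
  have hlim := eventually_lt_of_limsup_lt
    (lt_of_le_of_lt (ProbabilityMeasure.limsup_measure_closed_le_of_tendsto hwc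
      (Metric.isClosed_cthickening (δ := 1 / ((n : ℝ) + 1)) (E := S))) hn')
  have hlim2 : ∀ᶠ j in atTop, g - ε / 4 <
      (multivariateGaussian 0 (Kov (h (φ j)) (k (φ j)))).real (interior S) := by
    have a1 := ProbabilityMeasure.le_liminf_measure_open_of_tendsto hwg (isOpen_interior (s := S))
    by_cases hgε : g - ε / 4 < 0
    · exact Eventually.of_forall fun j => lt_of_lt_of_le hgε measureReal_nonneg
    push Not at hgε
    have a2 : ENNReal.ofReal (g - ε / 4) < (γ : Measure (EuclideanSpace ℝ (Fin m))) (interior S) := by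
      rw [hgO]
      exact (ENNReal.ofReal_lt_ofReal_iff_of_nonneg hgε).2 (by linarith)
    have a3 := eventually_lt_of_lt_liminf (lt_of_lt_of_le a2 a1)
    filter_upwards [a3] with j hj
    have hj' : ENNReal.ofReal (g - ε / 4) < multivariateGaussian 0 (Kov (h (φ j)) (k (φ j))) (interior S) := hj
    rw [measureReal_def]
    exact (ENNReal.ofReal_lt_iff_lt_toReal hgε (measure_ne_top _ _)).1 hj'
  have e2 : ∀ᶠ j : ℕ in atTop, n ≤ φ j := hφ.tendsto_atTop.eventually_ge_atTop n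
  obtain ⟨j, g1, g2, g3, g4⟩ := (hlim.and (hlim2.and (hpos.and e2))).exists
  have hTj := hT0 (φ j)
  have g5 := q4 (φ j) g3
  have hsub : (xi (k (φ j)) (h (φ j)) (T (φ j))) ⁻¹' (Metric.cthickening (1 / ((φ j : ℝ) + 1)) S) ∩
      Icc (T (φ j)) (2 * T (φ j)) ⊆ (xi (k (φ j)) (h (φ j)) (T (φ j))) ⁻¹' (Metric.cthickening (1 / ((n : ℝ) + 1)) S) ∩
      Icc (T (φ j)) (2 * T (φ j)) := by
    refine inter_subset_inter_left _ (preimage_mono ?_)
    apply Metric.cthickening_mono
    have : (n : ℝ) ≤ φ j := by exact_mod_cast g4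
    exact one_div_le_one_div_of_le (by positivity) (by linarith)
  have g6 : volume ((xi (k (φ j)) (h (φ j)) (T (φ j))) ⁻¹' (Metric.cthickening (1 / ((n : ℝ) + 1)) S) ∩
      Icc (T (φ j)) (2 * T (φ j))) < ENNReal.ofReal ((g + ε / 4) * T (φ j)) := by
    rw [hν] at g1
    have h1 : nuT (k (φ j)) (h (φ j)) (T (φ j)) (Metric.cthickening (1 / ((n : ℝ) + 1)) S) <
      ENNReal.ofReal (g + ε / 4) := g1
    unfold nuT Pm at h1
    rw [Measure.map_apply (xi_meas _ _ _) Metric.isClosed_cthickening.measurableSet, Measure.smul_apply, smul_eq_mul,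
      Measure.restrict_apply ((xi_meas _ _ _) Metric.isClosed_cthickening.measurableSet)] at h1
    have h2 : ENNReal.ofReal (T (φ j)) * ENNReal.ofReal (1 / T (φ j)) = 1 := by
      rw [← ENNReal.ofReal_mul hTj.le, mul_one_div_cancel hTj.ne', ENNReal.ofReal_one]
    have h3 := ENNReal.mul_lt_mul_right (a := ENNReal.ofReal (T (φ j))) (by
      rw [ne_eq, ENNReal.ofReal_eq_zero, not_le]; exact hTj) ENNReal.ofReal_ne_top h1
    rw [← mul_assoc, h2, one_mul, ← ENNReal.ofReal_mul hTj.le, mul_comm (T (φ j)) (g + ε / 4)] at h3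
    exact h3
  have g7 := measureReal_mono hsub g6.ne_top
  have g8 : volume.real ((xi (k (φ j)) (h (φ j)) (T (φ j))) ⁻¹' (Metric.cthickening (1 / ((n : ℝ) + 1)) S) ∩
      Icc (T (φ j)) (2 * T (φ j))) ≤ (g + ε / 4) * T (φ j) := by
    rw [measureReal_def]
    refine (ENNReal.toReal_mono ENNReal.ofReal_ne_top g6.le).trans (le_of_eq ?_)
    exact ENNReal.toReal_ofReal (by positivity)
  have g9 : (g + ε / 4) * T (φ j) ≤
      ((multivariateGaussian 0 (Kov (h (φ j)) (k (φ j)))).real (interior S) + ε) * T (φ j) :=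
    mul_le_mul_of_nonneg_right (by linarith) hTj.le
  linarith

end Run7.h435.GL
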