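import Pool.Agent.X112.GS.Conc

/-! # From the dyadic blocks to all indices, with the sharp constant -/

set_option autoImplicit false

namespace Run7.h435.GL

open Filter Finset
open SG (ord NZ)

lemma X_ord (η : ℝ) (hη : 0 < η) (hη1 : η ≤ 1 / 2) : ∀ᶠ N : ℕ in atTop,
    ord N * Real.log (ord N) / (2 * Real.pi) ≤ (1 + 8 * η) * N := by
  have hpi := Real.pi_pos
  obtain ⟨T1, hT1⟩ := W200.HW.NZ_lower η hη
  have hord : Tendsto ord atTop atTop := Pool.Agent.Y743.LR.ord_tendsto
  filter_upwards [hord.eventually_ge_atTop (max (2 * T1) (2 * Real.exp (1 / η) + 4)), eventually_ge_atTop 1]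
    with N h1 h3
  obtain ⟨T, hT⟩ : ∃ T : ℝ, T = ord N := ⟨_, rfl⟩
  rw [← hT] at h1 ⊢
  obtain ⟨T', hT'⟩ : ∃ T' : ℝ, T' = T / (1 + η) := ⟨_, rfl⟩
  have hTT : T = (1 + η) * T' := by rw [hT']; field_simp
  have a1 : 2 * T1 ≤ T := (le_max_left _ _).trans h1
  have a2 : 2 * Real.exp (1 / η) + 4 ≤ T := (le_max_right _ _).trans h1
  have hT0 : 0 < T := by linarith [Real.exp_pos (1 / η)]
  have a3 : T / 2 ≤ T' := by
    rw [hT']
    exact div_le_div_of_nonneg_left hT0.le (by linarith) (by linarith)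
  have hT'0 : 0 < T' := by linarith
  have a4 : T' < T := by rw [hTT]; nlinarith
  have a5 : Real.exp (1 / η) ≤ T' := by linarith
  have a6 : 1 / η ≤ Real.log T' := by
    rw [Real.le_log_iff_exp_le hT'0]
    exact a5
  have hN2 : NZ T' < N := by
    by_contra hcon
    push Not at hcon
    have := (SG.ord_le_iff h3 _).mpr hcon
    rw [← hT] at this
    linarith
  have h7 : (NZ T' : ℝ) ≤ N := by exact_mod_cast hN2.le
  have h6 := hT1 T' (by linarith)
  have hlog : Real.log T ≤ (1 + η) * Real.log T' := by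
    rw [hTT, Real.log_mul (by positivity) (by positivity)]
    have b1 : Real.log (1 + η) ≤ η := by
      have := Real.log_le_sub_one_of_pos (show (0 : ℝ) < 1 + η by linarith)
      linarith
    have b2 : 1 ≤ η * Real.log T' := by
      rw [div_le_iff₀ hη] at a6
      linarith
    nlinarith
  obtain ⟨X, hX⟩ : ∃ X : ℝ, X = T' / (2 * Real.pi) * Real.log T' := ⟨_, rfl⟩
  have hX0 : 0 ≤ X := by
    rw [hX]
    have : 0 ≤ Real.log T' := le_trans (by positivity) a6
    positivity
  have b3 : T * Real.log T / (2 * Real.pi) ≤ (1 + η) ^ 2 * X := by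
    have e : (1 + η) ^ 2 * X = ((1 + η) * T') * ((1 + η) * Real.log T') / (2 * Real.pi) := by
      rw [hX]; ring
    rw [e, ← hTT]
    apply div_le_div_of_nonneg_right _ (by positivity)
    exact mul_le_mul_of_nonneg_left hlog hT0.le
  rw [← hX] at h6
  have b4 : (1 + η) ^ 2 * X ≤ (1 + 8 * η) * ((1 - η) * X) := by
    have e1 : (1 + η) ^ 2 ≤ (1 + 8 * η) * (1 - η) := by nlinarith
    have := mul_le_mul_of_nonneg_right e1 hX0
    linarith
  have b5 : (1 + 8 * η) * ((1 - η) * X) ≤ (1 + 8 * η) * N :=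
    mul_le_mul_of_nonneg_left (h6.trans h7) (by linarith)
  linarith

/-- from the dyadic blocks to all indices, uniformly in the property -/
lemma dyadicS (c ε T0 : ℝ) (hc : 0 ≤ c) (hc2 : c ≤ 2) (hε : 0 < ε) (hT0 : 1 ≤ T0) :
    ∀ᶠ N : ℕ in atTop, ∀ P : ℕ → Prop, ∀ _ : DecidablePred P,
    (∀ T : ℝ, T0 ≤ T → (((Finset.Ioc (NZ T) (NZ (2 * T))).filter P).card : ℝ) ≤
      c * (T * Real.log T / (2 * Real.pi))) →
    (((Icc 1 N).filter P).card : ℝ) ≤ (c + ε) * N := by
  have hpi := Real.pi_pos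
  obtain ⟨X, hX⟩ : ∃ X : ℝ → ℝ, X = fun T => T * Real.log T / (2 * Real.pi) := ⟨_, rfl⟩
  obtain ⟨η, hη⟩ : ∃ η : ℝ, η = min (1 / 2) (ε / 32) := ⟨_, rfl⟩
  have hη0 : 0 < η := by rw [hη]; exact lt_min (by norm_num) (by positivity)
  have hη1 : η ≤ 1 / 2 := by rw [hη]; exact min_le_left _ _
  have hη2 : η ≤ ε / 32 := by rw [hη]; exact min_le_right _ _
  -- the sizes
  have hord : Tendsto ord atTop atTop := Pool.Agent.Y743.LR.ord_tendsto
  have hbig : ∀ᶠ N : ℕ in atTop, (NZ (2 * T0) : ℝ) ≤ ε / 2 * N :=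
    (tendsto_natCast_atTop_atTop.const_mul_atTop (by positivity : (0 : ℝ) < ε / 2)).eventually_ge_atTop _
  filter_upwards [hord.eventually_ge_atTop T0, hbig, eventually_ge_atTop 1, X_ord η hη0 hη1]
    with N h1 h2 h3 hXN P _ h
  have key : ∀ k : ℕ, ∀ T : ℝ, T0 ≤ T → T < T0 * 2 ^ (k + 1) →
      (((Icc 1 (NZ T)).filter P).card : ℝ) ≤ NZ (2 * T0) + c * X T := by
    intro k
    induction k with
    | zero =>
      intro T hT hT2
      have hX0 : 0 ≤ X T := by
        rw [hX]
        have := Real.log_nonneg (hT0.trans hT)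
        have : 0 ≤ T := by linarith
        positivity
      have h1 : ((Icc 1 (NZ T)).filter P).card ≤ NZ (2 * T0) := by
        refine (Finset.card_filter_le _ _).trans ?_
        rw [Nat.card_Icc, Nat.add_sub_cancel]
        apply SG.NZ_mono
        rw [zero_add, pow_one] at hT2
        linarith
      have h2 : (((Icc 1 (NZ T)).filter P).card : ℝ) ≤ NZ (2 * T0) := by exact_mod_cast h1
      have : 0 ≤ c * X T := by positivity
      linarith
    | succ k ih =>
      intro T hT hT2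
      by_cases hT3 : T < T0 * 2 ^ (k + 1)
      · exact ih T hT hT3
      push Not at hT3
      have hpow : (1 : ℝ) ≤ 2 ^ k := one_le_pow₀ (by norm_num)
      have hT4 : T0 ≤ T / 2 := by
        rw [pow_succ] at hT3
        nlinarith
      have h1 := ih (T / 2) hT4 (by
        rw [pow_succ] at hT2
        linarith)
      have h2 := h (T / 2) hT4
      rw [show 2 * (T / 2) = T by ring] at h2
      have h3 : (Icc 1 (NZ T)).filter P ⊆ (Icc 1 (NZ (T / 2))).filter P ∪
          (Finset.Ioc (NZ (T / 2)) (NZ T)).filter P := by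
        intro n hn
        rw [Finset.mem_filter, Finset.mem_Icc] at hn
        rw [Finset.mem_union, Finset.mem_filter, Finset.mem_filter, Finset.mem_Icc,
          Finset.mem_Ioc]
        by_cases hh : n ≤ NZ (T / 2)
        · exact Or.inl ⟨⟨hn.1.1, hh⟩, hn.2⟩
        · exact Or.inr ⟨⟨by omega, hn.1.2⟩, hn.2⟩
      have h4 := (Finset.card_le_card h3).trans (Finset.card_union_le _ _)
      have h5 : (((Icc 1 (NZ T)).filter P).card : ℝ) ≤ ((Icc 1 (NZ (T / 2))).filter P).card +
          ((Finset.Ioc (NZ (T / 2)) (NZ T)).filter P).card := by exact_mod_cast h4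
      have hT1 : 1 ≤ T / 2 := hT0.trans hT4
      have h6 : X (T / 2) ≤ X T / 2 := by
        rw [hX]
        dsimp only
        rw [div_div, mul_comm (2 * Real.pi) 2, ← div_div (T * Real.log T) 2]
        apply div_le_div_of_nonneg_right _ (by positivity)
        have h7 : Real.log (T / 2) ≤ Real.log T := Real.log_le_log (by linarith) (by linarith)
        have h8 : T / 2 * Real.log (T / 2) ≤ T / 2 * Real.log T :=
          mul_le_mul_of_nonneg_left h7 (by linarith)
        linarith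
      have h10 : c * (T / 2 * Real.log (T / 2) / (2 * Real.pi)) = c * X (T / 2) := by rw [hX]
      rw [h10] at h2
      have h11 : c * X (T / 2) ≤ c * (X T / 2) := mul_le_mul_of_nonneg_left h6 hc
      linarith
  obtain ⟨T, hT⟩ : ∃ T : ℝ, T = ord N := ⟨_, rfl⟩
  rw [← hT] at h1 hXN
  have hN1 : N ≤ NZ T := by
    rw [hT]
    exact (SG.ord_le_iff h3 _).mp le_rfl
  obtain ⟨k, hk⟩ : ∃ k : ℕ, T < T0 * 2 ^ (k + 1) := by
    obtain ⟨k, hk⟩ := pow_unbounded_of_one_lt (T / T0) (show (1 : ℝ) < 2 by norm_num)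
    refine ⟨k, ?_⟩
    rw [div_lt_iff₀ (by linarith)] at hk
    have : (2 : ℝ) ^ k ≤ 2 ^ (k + 1) := pow_le_pow_right₀ (by norm_num) (by omega)
    nlinarith
  have h4 := key k T h1 hk
  have h5 : ((Icc 1 N).filter P).card ≤ ((Icc 1 (NZ T)).filter P).card := by
    apply Finset.card_le_card
    intro n hn
    rw [Finset.mem_filter, Finset.mem_Icc] at hn ⊢
    exact ⟨⟨hn.1.1, hn.1.2.trans hN1⟩, hn.2⟩
  have h5' : (((Icc 1 N).filter P).card : ℝ) ≤ ((Icc 1 (NZ T)).filter P).card := by exact_mod_cast h5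
  have hXT : X T = T * Real.log T / (2 * Real.pi) := by rw [hX]
  rw [← hXT] at hXN
  have hN0 : (0 : ℝ) ≤ N := Nat.cast_nonneg _
  have h10 : c * X T ≤ c * ((1 + 8 * η) * N) := mul_le_mul_of_nonneg_left hXN hc
  have h11 : c * (8 * η) ≤ ε / 2 := by nlinarith
  have h12 : c * (8 * η) * N ≤ ε / 2 * N := mul_le_mul_of_nonneg_right h11 hN0
  have h13 : c * ((1 + 8 * η) * N) = c * N + c * (8 * η) * N := by ring
  linarith

end Run7.h435.GL
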