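import Pool.Agent.X112.LF.Fin
import Pool.Agent.X112.LF.Blk2
import Pool.Agent.Run7.h435.GLb
import Pool.Agent.Run7.h435.GLc

/-! # Sums of consecutive gaps: the upper bound for the frequencies -/

set_option autoImplicit false

namespace Run7.h435.GL

open Filter Finset MeasureTheory ProbabilityTheory
open SG (ord NZ)
open Pool.Agent.X112.GS (yy inc few_wide gap_close)
open Pool.Agent.X112.LF (Tup xi xi_meas Pt block_gen)

/-- the unfolded gap -/
noncomputable def dd (n : ℕ) : ℝ := (ord (n + 1) - ord n) / (2 * Real.pi) * Real.log (ord n / (2 * Real.pi))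

/-- the vector of the normalised sums of consecutive gaps -/
noncomputable def vn {m : ℕ} (h : ℕ) (k : Fin (m + 1) → ℕ) (n : ℕ) : EuclideanSpace ℝ (Fin m) :=
  WithLp.toLp 2 (fun i : Fin m =>
    (∑ l ∈ range (k i.succ), dd (n + l) - k i.succ) / Real.sqrt (Real.log h))

lemma log_two_pi : Real.log (2 * Real.pi) ≤ 2 ∧ 1 ≤ Real.log (2 * Real.pi) := by
  have hpi := Real.pi_pos
  have h1 := Real.pi_lt_d2
  have h2 := Real.pi_gt_three
  constructor
  · rw [Real.log_le_iff_le_exp (by positivity)]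
    have h3 : (2.7 : ℝ) ≤ Real.exp 1 := by linarith [Real.exp_one_gt_d9]
    have h4 : Real.exp 2 = Real.exp 1 * Real.exp 1 := by rw [← Real.exp_add]; norm_num
    rw [h4]
    nlinarith
  · rw [Real.le_log_iff_exp_le (by positivity)]
    linarith [Real.exp_one_lt_d9]

lemma sum_close (L : ℕ) (K η : ℝ) (hK : 0 < K) (hη : 0 < η) : ∃ n1 : ℕ, 1 ≤ n1 ∧ ∀ n, n1 ≤ n →
    (∀ l < L, |inc yy (n + l)| ≤ K) → ∀ T : ℝ, T ≤ ord n → ord n ≤ 2 * T → ∀ k ≤ L,
    |∑ l ∈ range k, dd (n + l) - (ord (n + k) - ord n) / (2 * Real.pi / Real.log T)| ≤ η := by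
  have hpi := Real.pi_pos
  have hord : Tendsto ord atTop atTop := Pool.Agent.Y743.LR.ord_tendsto
  have hlog : Tendsto (fun n => Real.log (ord n)) atTop atTop := Real.tendsto_log_atTop.comp hord
  obtain ⟨n1, hn11, hn1⟩ := gap_close K 1 hK one_pos L
  obtain ⟨n2, hn2⟩ := ((hlog.eventually_ge_atTop (2 * Real.pi * (K + 1) * (L + 1) / η)).and
    (hord.eventually_ge_atTop (2 * (L + 1)))).exists_forall_of_atTop
  refine ⟨max n1 n2, hn11.trans (le_max_left _ _), fun n hn hw T hT1 hT2 k hk => ?_⟩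
  obtain ⟨a1, a2⟩ := hn1 n ((le_max_left _ _).trans hn)
  obtain ⟨a3, a4⟩ := a2 hw
  obtain ⟨b1, b2⟩ := hn2 n ((le_max_right _ _).trans hn)
  have hL0 : (0 : ℝ) ≤ L := Nat.cast_nonneg _
  have hT0 : (L : ℝ) + 1 ≤ T := by linarith
  have hTpos : 0 < T := by linarith
  have hlT : 0 ≤ Real.log T := Real.log_nonneg (by linarith)
  have hlo : 0 < Real.log (ord n) := Real.log_pos (by linarith)
  -- the single gaps
  have hg : ∀ l < L, 0 ≤ ord (n + l + 1) - ord (n + l) ∧
      ord (n + l + 1) - ord (n + l) ≤ η / (L + 1) := by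
    intro l hl
    have c1 := a4 0 (by omega) l hl (by omega)
    have c2 := hw l hl
    rw [add_zero] at c1
    have c3 := (abs_le.1 c1).2
    have c4 := (abs_le.1 c2).2
    have c5 : (ord (n + l + 1) - ord (n + l)) * Real.log (ord n) / (2 * Real.pi) ≤ K + 1 := by linarith
    rw [div_le_iff₀ (by positivity)] at c5
    refine ⟨?_, ?_⟩
    · rw [sub_nonneg]
      exact SG.ord_mono (by omega) (by omega)
    · rw [div_le_iff₀ hη] at b1
      rw [le_div_iff₀ (by positivity)]
      by_contra hcon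
      push Not at hcon
      have hg0 : 0 ≤ ord (n + l + 1) - ord (n + l) := by
        rw [sub_nonneg]
        exact SG.ord_mono (by omega) (by omega)
      have d1 : η * Real.log (ord n) < (ord (n + l + 1) - ord (n + l)) * (L + 1) * Real.log (ord n) :=
        mul_lt_mul_of_pos_right hcon hlo
      have d2 : (ord (n + l + 1) - ord (n + l)) * (L + 1) * Real.log (ord n) ≤
          (K + 1) * (2 * Real.pi) * (L + 1) := by
        have := mul_le_mul_of_nonneg_right c5 (by positivity : (0 : ℝ) ≤ L + 1)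
        linarith
      linarith
  have hterm : ∀ l < L, |dd (n + l) - (ord (n + l + 1) - ord (n + l)) * Real.log T / (2 * Real.pi)| ≤
      η / (L + 1) := by
    intro l hl
    obtain ⟨g0, g1⟩ := hg l hl
    obtain ⟨p1, p2⟩ := a3 l hl.le
    have hol : 0 < ord (n + l) := by linarith
    have e : dd (n + l) - (ord (n + l + 1) - ord (n + l)) * Real.log T / (2 * Real.pi) =
        (ord (n + l + 1) - ord (n + l)) *
          ((Real.log (ord (n + l)) - Real.log T - Real.log (2 * Real.pi)) / (2 * Real.pi)) := by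
      unfold dd
      rw [Real.log_div hol.ne' (by positivity)]
      ring
    rw [e, abs_mul, abs_of_nonneg g0]
    refine le_trans ?_ g1
    apply mul_le_of_le_one_right g0
    obtain ⟨q1, q2⟩ := log_two_pi
    have r1 : 0 ≤ Real.log (ord (n + l)) - Real.log T := by
      rw [sub_nonneg]
      exact Real.log_le_log hTpos (by linarith)
    have r2 : Real.log (ord (n + l)) - Real.log T ≤ 2 := by
      rw [← Real.log_div hol.ne' hTpos.ne']
      refine (Real.log_le_sub_one_of_pos (by positivity)).trans ?_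
      rw [sub_le_iff_le_add, div_le_iff₀ hTpos]
      have : (l : ℝ) ≤ L := by exact_mod_cast hl.le
      linarith
    rw [abs_div, abs_of_pos (by positivity : 0 < 2 * Real.pi), div_le_one (by positivity), abs_le]
    have := Real.pi_gt_three
    constructor <;> linarith
  have htel : (ord (n + k) - ord n) / (2 * Real.pi / Real.log T) =
      ∑ l ∈ range k, (ord (n + l + 1) - ord (n + l)) * Real.log T / (2 * Real.pi) := by
    have h1 : ord (n + k) - ord n = ∑ l ∈ range k, (ord (n + l + 1) - ord (n + l)) := by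
      have := Finset.sum_range_sub (fun l => ord (n + l)) k
      simp only [add_zero] at this
      rw [← this]
      rfl
    rw [h1, div_div_eq_mul_div, Finset.sum_mul, Finset.sum_div]
  rw [htel, ← Finset.sum_sub_distrib]
  refine (Finset.abs_sum_le_sum_abs _ _).trans ?_
  have h2 : ∑ l ∈ range k, |dd (n + l) - (ord (n + l + 1) - ord (n + l)) * Real.log T / (2 * Real.pi)| ≤
      ∑ l ∈ range k, η / (L + 1) :=
    Finset.sum_le_sum fun l hl => hterm l (by rw [Finset.mem_range] at hl; omega)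
  refine h2.trans ?_
  rw [Finset.sum_const, Finset.card_range, nsmul_eq_mul]
  have hkL : (k : ℝ) ≤ L := by exact_mod_cast hk
  rw [← mul_div_assoc, div_le_iff₀ (by positivity)]
  nlinarith

lemma dist_le_of {m : ℕ} (x y : EuclideanSpace ℝ (Fin m)) (c : ℝ) (hc : 0 ≤ c) (h : ∀ i, |x i - y i| ≤ c) :
    dist x y ≤ (m + 1) * c := by
  rw [EuclideanSpace.dist_eq, Real.sqrt_le_left (by positivity)]
  have h1 : ∑ i : Fin m, dist (x i) (y i) ^ 2 ≤ ∑ i : Fin m, c ^ 2 := by
    refine Finset.sum_le_sum fun i _ => ?_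
    rw [Real.dist_eq]
    exact pow_le_pow_left₀ (abs_nonneg _) (h i) 2
  refine h1.trans ?_
  rw [Finset.sum_const, Finset.card_univ, Fintype.card_fin, nsmul_eq_mul, mul_pow]
  have hm : (0 : ℝ) ≤ m := Nat.cast_nonneg _
  apply mul_le_mul_of_nonneg_right _ (sq_nonneg c)
  nlinarith

theorem upper (A m : ℕ) (hA : 1 ≤ A) (S : Set (EuclideanSpace ℝ (Fin m))) (hS : volume (frontier S) = 0)
    (ε : ℝ) (hε : 0 < ε) : ∀ᶠ h : ℕ in atTop, ∀ k : Fin (m + 1) → ℕ, Tup A h k →
      (Kov (h : ℝ) (fun i => (k i : ℝ))).PosDef ∧ ∀ᶠ N : ℕ in atTop,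
      ({n : ℕ | 1 ≤ n ∧ n ≤ N ∧ vn h k n ∈ S}.ncard : ℝ) ≤
        ((multivariateGaussian 0 (Kov (h : ℝ) (fun i => (k i : ℝ)))).real (interior S) + ε) * N := by
  classical
  have hpi := Real.pi_pos
  obtain ⟨e, he⟩ : ∃ e : ℝ, e = min ε 1 / 4 := ⟨_, rfl⟩
  have he0 : 0 < e := by rw [he]; have := lt_min hε one_pos; positivity
  have he1 : 4 * e ≤ ε := by rw [he]; have := min_le_left ε 1; linarith
  have he2 : 4 * e ≤ 1 := by rw [he]; have := min_le_right ε 1; linarith
  obtain ⟨R, q, hR3, hq, hlaw⟩ := law_gen A 1 le_rfl m S hS e he0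
  obtain ⟨q0, hq0⟩ : ∃ q0 : ℝ, q0 = q / (2 * (m + 1)) := ⟨_, rfl⟩
  have hq00 : 0 < q0 := by rw [hq0]; positivity
  have hsq : Tendsto (fun h : ℕ => Real.sqrt (Real.log h)) atTop atTop :=
    Real.tendsto_sqrt_atTop.comp (Real.tendsto_log_atTop.comp tendsto_natCast_atTop_atTop)
  filter_upwards [block_gen A m hA q0 e hq00 he0, tendsto_natCast_atTop_atTop.eventually_ge_atTop R,
    hsq.eventually_ge_atTop 1] with h hblk hhR hs1 k hk
  obtain ⟨hk0, hk1, hk2⟩ := hk
  obtain ⟨T0, hT01, hT0⟩ := hblk k hk0 hk2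
  set sk := Real.sqrt (Real.log h) with hsk
  have hsk0 : 0 < sk := by linarith
  have hh3 : (3 : ℝ) ≤ h := by linarith
  obtain ⟨K', hK'⟩ : ∃ K' : ℝ, K' = (h : ℝ) ^ A := ⟨_, rfl⟩
  have hhK : (h : ℝ) ≤ K' := by
    rw [hK']
    calc (h : ℝ) = (h : ℝ) ^ 1 := (pow_one _).symm
      _ ≤ (h : ℝ) ^ A := pow_le_pow_right₀ (by linarith) hA
  have hkK : ∀ i, (k i : ℝ) ≤ K' := fun i => by rw [hK']; exact_mod_cast hk2 i
  obtain ⟨T2, hT2⟩ := (Real.tendsto_log_atTop.eventually_ge_atTop (K' * Real.log K')).exists_forall_of_atTop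
  have hpt : ∀ T : ℝ, max T0 T2 ≤ T → Pt A 1 (h : ℝ) K' T (fun i => (k i : ℝ)) := by
    intro T hT
    refine ⟨hhK, le_of_eq hK', hT01.trans ((le_max_left _ _).trans hT), ?_, hk1, ?_, by simp [hk0], ?_⟩
    · rw [one_mul]
      exact hT2 T ((le_max_right _ _).trans hT)
    · intro i j
      have h1 := hkK i
      have h2 := hkK j
      have h3 : (0 : ℝ) ≤ k i := Nat.cast_nonneg _
      have h4 : (0 : ℝ) ≤ k j := Nat.cast_nonneg _
      rw [abs_le]
      constructor <;> linarith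
    · intro i
      exact Nat.cast_nonneg _
  refine ⟨(hlaw _ _ _ _ hhR (hpt (max T0 T2) le_rfl)).1, ?_⟩
  obtain ⟨g, hg⟩ : ∃ g : ℝ, g = (multivariateGaussian 0 (Kov (h : ℝ) (fun i => (k i : ℝ)))).real (interior S) :=
    ⟨_, rfl⟩
  have hg0 : 0 ≤ g := by rw [hg]; exact measureReal_nonneg
  have hg1 : g ≤ 1 := by rw [hg]; exact measureReal_le_one
  obtain ⟨L, hL⟩ : ∃ L : ℕ, L = h ^ A := ⟨_, rfl⟩
  obtain ⟨K, hK, hwide⟩ := few_wide e he0 L
  obtain ⟨n1, hn11, hn1⟩ := sum_close L K (q0 * sk) hK (by positivity)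
  have hbig : ∀ᶠ N : ℕ in atTop, (n1 : ℝ) ≤ e / 2 * N :=
    (tendsto_natCast_atTop_atTop.const_mul_atTop (show (0 : ℝ) < e / 2 by positivity)).eventually_ge_atTop _
  filter_upwards [hwide, hbig, dyadicS (g + 2 * e) (e / 2) (max (max T0 T2) 2) (by positivity) (by linarith)
    (by positivity) ((by norm_num : (1 : ℝ) ≤ 2).trans (le_max_right _ _))] with N h2 h3 hdy
  have hdy' := hdy (fun n => vn h k n ∈ S ∧ (∀ l < L, |inc yy (n + l)| ≤ K) ∧ n1 ≤ n) (Classical.decPred _) (by
    intro T hT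
    have hTT : max T0 T2 ≤ T := (le_max_left _ _).trans hT
    have hT2' : 2 ≤ T := (le_max_right _ _).trans hT
    have hlT : 0 < Real.log T := Real.log_pos (by linarith)
    obtain ⟨u, hu⟩ : ∃ u : ℝ, u = 2 * Real.pi / Real.log T := ⟨_, rfl⟩
    have hu0 : 0 < u := by rw [hu]; positivity
    have hvol := (hlaw _ _ _ _ hhR (hpt T hTT)).2
    rw [← hg] at hvol
    have hF := hT0 T ((le_max_left _ _).trans hTT)
      ((Finset.Ioc (NZ T) (NZ (2 * T))).filter
        (fun n => vn h k n ∈ S ∧ (∀ l < L, |inc yy (n + l)| ≤ K) ∧ n1 ≤ n))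
      ((xi (fun i => (k i : ℝ)) h T) ⁻¹' (Metric.cthickening q S) ∩ Set.Icc T (2 * T))
      (((xi_meas _ _ _) Metric.isClosed_cthickening.measurableSet).inter measurableSet_Icc)
      Set.inter_subset_right (Finset.filter_subset _ _) (by
        intro n hn t ht hj
        rw [Finset.mem_filter, Finset.mem_Ioc] at hn
        obtain ⟨⟨m1, m2⟩, m3, m4, m5⟩ := hn
        have hn0 : 1 ≤ n := by omega
        have ho1 : T ≤ ord n := by
          by_contra hcon
          push Not at hcon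
          have := (SG.ord_le_iff hn0 T).mp hcon.le
          omega
        have ho2 : ord n ≤ 2 * T := (SG.ord_le_iff hn0 _).mpr m2
        refine ⟨?_, ht⟩
        rw [Set.mem_preimage]
        refine Metric.mem_cthickening_of_dist_le _ (vn h k n) q S m3 ?_
        refine (dist_le_of _ _ (2 * q0) (by positivity) fun i => ?_).trans (le_of_eq ?_)
        · have j1 := hj i.succ
          have j2 := hn1 n m5 m4 T ho1 ho2 (k i.succ) (by rw [hL]; exact hk2 _)
          have e1 : xi (fun i => (k i : ℝ)) h T t i - vn h k n i =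
              (-((ord (n + k i.succ) - ord n) / (2 * Real.pi / Real.log T) - k i.succ +
              ((NZ (t + k i.succ * (2 * Real.pi / Real.log T)) : ℝ) - NZ t - k i.succ)) -
              (∑ l ∈ range (k i.succ), dd (n + l) - (ord (n + k i.succ) - ord n) / (2 * Real.pi / Real.log T))) /
              sk := by
            simp only [xi, vn, ← hsk]
            ring
          rw [e1, abs_div, abs_of_pos hsk0, div_le_iff₀ hsk0]
          have j3 := abs_le.1 j1
          have j4 := abs_le.1 j2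
          rw [abs_le]
          constructor <;> linarith [j3.1, j3.2, j4.1, j4.2]
        · rw [hq0]; field_simp)
    refine le_trans (le_of_eq ?_) (hF.trans ?_)
    · congr!
    · have : (g + 2 * e) * (T * Real.log T / (2 * Real.pi)) =
        ((g + e) * T + e * T) * (Real.log T / (2 * Real.pi)) := by ring
      rw [this]
      apply mul_le_mul_of_nonneg_right _ (by positivity)
      linarith)
  have hsub : {n : ℕ | 1 ≤ n ∧ n ≤ N ∧ vn h k n ∈ S} ⊆
      (((Icc 1 N).filter (fun n => vn h k n ∈ S ∧ (∀ l < L, |inc yy (n + l)| ≤ K) ∧ n1 ≤ n) ∪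
        ((Icc 1 N).filter (fun n => ¬ ∀ l < L, |inc yy (n + l)| ≤ K) ∪ Icc 1 n1) : Finset ℕ) : Set ℕ) := by
    rintro n ⟨b1, b2, b3⟩
    rw [Finset.coe_union, Finset.coe_union, Set.mem_union, Set.mem_union]
    by_contra hcon
    rw [not_or, not_or] at hcon
    obtain ⟨c1, c2, c3⟩ := hcon
    have hnI : n ∈ Icc 1 N := Finset.mem_Icc.2 ⟨b1, b2⟩
    have hnn : n1 ≤ n := by
      by_contra hc
      exact c3 (by rw [Finset.mem_coe]; exact Finset.mem_Icc.mpr ⟨b1, by omega⟩)
    have hw : ∀ l < L, |inc yy (n + l)| ≤ K := by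
      by_contra hc
      exact c2 (by rw [Finset.mem_coe]; exact Finset.mem_filter.mpr ⟨hnI, hc⟩)
    exact c1 (by rw [Finset.mem_coe]; exact Finset.mem_filter.mpr ⟨hnI, b3, hw, hnn⟩)
  have h4 := Set.ncard_le_ncard hsub (Finset.finite_toSet _)
  rw [Set.ncard_coe_finset] at h4
  have h5 := Finset.card_union_le
    ((Icc 1 N).filter (fun n => vn h k n ∈ S ∧ (∀ l < L, |inc yy (n + l)| ≤ K) ∧ n1 ≤ n))
    ((Icc 1 N).filter (fun n => ¬ ∀ l < L, |inc yy (n + l)| ≤ K) ∪ Icc 1 n1)
  have h6 := Finset.card_union_le ((Icc 1 N).filter (fun n => ¬ ∀ l < L, |inc yy (n + l)| ≤ K)) (Icc 1 n1)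
  rw [Nat.card_Icc, Nat.add_sub_cancel] at h6
  have h7 : ({n : ℕ | 1 ≤ n ∧ n ≤ N ∧ vn h k n ∈ S}.ncard : ℝ) ≤
      (((Icc 1 N).filter (fun n => vn h k n ∈ S ∧ (∀ l < L, |inc yy (n + l)| ≤ K) ∧ n1 ≤ n)).card : ℝ) +
      ((((Icc 1 N).filter (fun n => ¬ ∀ l < L, |inc yy (n + l)| ≤ K)).card : ℝ) + n1) := by
    exact_mod_cast h4.trans (h5.trans (Nat.add_le_add_left h6 _))
  have h8 : (((Icc 1 N).filter (fun n => vn h k n ∈ S ∧ (∀ l < L, |inc yy (n + l)| ≤ K) ∧ n1 ≤ n)).card : ℝ) ≤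
      (g + 2 * e + e / 2) * N := by
    refine le_trans (le_of_eq ?_) hdy'
    congr!
  have h9 : (((Icc 1 N).filter (fun n => ¬ ∀ l < L, |inc yy (n + l)| ≤ K)).card : ℝ) ≤ e * N := by
    refine le_trans (le_of_eq ?_) h2
    congr!
  have hN0 : (0 : ℝ) ≤ N := Nat.cast_nonneg _
  rw [← hg]
  have h10 : 4 * e * N ≤ ε * N := mul_le_mul_of_nonneg_right he1 hN0
  linarith

end Run7.h435.GL
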