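import Pool.Agent.Run7.h435.GLa

/-! # Linear images of Gaussian measures; differences of consecutive coordinates -/

set_option autoImplicit false

namespace Run7.h435.GL

open MeasureTheory ProbabilityTheory Filter Topology Complex
open scoped Matrix MatrixOrder RealInnerProductSpace

lemma inner_mv {m : ℕ} (D : Matrix (Fin m) (Fin m) ℝ) (x t : EuclideanSpace ℝ (Fin m)) :
    ⟪Matrix.toEuclideanCLM (𝕜 := ℝ) D x, t⟫ = ⟪x, Matrix.toEuclideanCLM (𝕜 := ℝ) Dᵀ t⟫ := by
  have h1 : ∀ M : Matrix (Fin m) (Fin m) ℝ, ∀ y : EuclideanSpace ℝ (Fin m), ∀ i,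
      Matrix.toEuclideanCLM (𝕜 := ℝ) M y i = ∑ j, M i j * y j := by
    intro M y i
    rw [Matrix.ofLp_toEuclideanCLM]
    rfl
  rw [PiLp.inner_apply, PiLp.inner_apply]
  simp only [h1, Matrix.transpose_apply, RCLike.inner_apply, conj_trivial]
  simp only [Finset.mul_sum, Finset.sum_mul]
  rw [Finset.sum_comm]
  refine Finset.sum_congr rfl fun i _ => Finset.sum_congr rfl fun j _ => ?_
  ring

lemma mg_map {m : ℕ} {S : Matrix (Fin m) (Fin m) ℝ} (hS : S.PosSemidef) (D : Matrix (Fin m) (Fin m) ℝ) :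
    (multivariateGaussian 0 S).map (Matrix.toEuclideanCLM (𝕜 := ℝ) D) = multivariateGaussian 0 (D * S * Dᵀ) := by
  have : IsProbabilityMeasure ((multivariateGaussian 0 S).map (Matrix.toEuclideanCLM (𝕜 := ℝ) D)) :=
    Measure.isProbabilityMeasure_map (by fun_prop)
  have hS' : (D * S * Dᵀ).PosSemidef := by
    have := hS.mul_mul_conjTranspose_same D
    rwa [Matrix.conjTranspose_eq_transpose_of_trivial] at this
  apply Measure.ext_of_charFun
  ext t
  have h1 : charFun ((multivariateGaussian 0 S).map (Matrix.toEuclideanCLM (𝕜 := ℝ) D)) t =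
      charFun (multivariateGaussian 0 S) (Matrix.toEuclideanCLM (𝕜 := ℝ) Dᵀ t) := by
    rw [charFun_apply, charFun_apply, integral_map (by fun_prop) (by fun_prop)]
    simp only [inner_mv]
  rw [h1, charFun_multivariateGaussian hS, charFun_multivariateGaussian hS', inner_zero_right,
    inner_zero_right]
  congr 3
  rw [Matrix.ofLp_toEuclideanCLM, ← Matrix.mulVec_mulVec, ← Matrix.mulVec_mulVec, Matrix.dotProduct_mulVec t.ofLp D,
    ← Matrix.mulVec_transpose]

/-- the matrix of the differences of consecutive coordinates -/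
def Dm (m : ℕ) : Matrix (Fin m) (Fin m) ℝ :=
  Matrix.of fun i j => if j = i then 1 else if (j : ℕ) + 1 = i then -1 else 0

lemma Dsum {m : ℕ} (g : ℕ → ℝ) (i : Fin m) :
    ∑ a : Fin m, Dm m i a * g a = g i - (if 0 < (i : ℕ) then g ((i : ℕ) - 1) else 0) := by
  by_cases hi : 0 < (i : ℕ)
  · rw [if_pos hi]
    obtain ⟨b, hb⟩ : ∃ b : Fin m, b = ⟨(i : ℕ) - 1, by omega⟩ := ⟨_, rfl⟩
    have hbv : (b : ℕ) = (i : ℕ) - 1 := by rw [hb]
    have hbi : b ≠ i := fun h => by
      have := congrArg Fin.val h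
      omega
    have h1 : ∀ a : Fin m, Dm m i a * g a = (if a = i then g i else 0) + (if a = b then -g b else 0) := by
      intro a
      simp only [Dm, Matrix.of_apply]
      by_cases h2 : a = i
      · rw [if_pos h2, if_pos h2, if_neg (by rw [h2]; exact hbi.symm), h2]
        ring
      · rw [if_neg h2, if_neg h2]
        by_cases h3 : a = b
        · rw [if_pos h3, if_pos (by rw [h3]; omega), h3]
          ring
        · rw [if_neg h3, if_neg (fun h4 => h3 (Fin.ext (by omega)))]
          ring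
    simp only [h1]
    rw [Finset.sum_add_distrib, Finset.sum_ite_eq' Finset.univ i, Finset.sum_ite_eq' Finset.univ b,
      if_pos (Finset.mem_univ _), if_pos (Finset.mem_univ _), hbv]
    ring
  · rw [if_neg hi]
    have h1 : ∀ a : Fin m, Dm m i a * g a = (if a = i then g i else 0) := by
      intro a
      simp only [Dm, Matrix.of_apply]
      by_cases h2 : a = i
      · rw [if_pos h2, if_pos h2, h2]
        ring
      · rw [if_neg h2, if_neg h2, if_neg (by omega)]
        ring
    simp only [h1]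
    rw [Finset.sum_ite_eq' Finset.univ i, if_pos (Finset.mem_univ _)]
    ring

/-- the limit covariance of the sums from the origin -/
noncomputable def Sinf (m : ℕ) : Matrix (Fin m) (Fin m) ℝ :=
  Matrix.of fun i j => if i = j then 1 / Real.pi ^ 2 else 1 / (2 * Real.pi ^ 2)

/-- the limit covariance of the blocks -/
noncomputable def Tri (m : ℕ) : Matrix (Fin m) (Fin m) ℝ :=
  Matrix.of fun i j => if i = j then 1 / Real.pi ^ 2 else
    if (i : ℕ) + 1 = j ∨ (j : ℕ) + 1 = i then -(1 / (2 * Real.pi ^ 2)) else 0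

lemma Sinf_pos (m : ℕ) : (Sinf m).PosDef := by
  have hpi := Real.pi_pos
  refine Matrix.PosDef.of_dotProduct_mulVec_pos ?_ fun b hb => ?_
  · refine Matrix.IsHermitian.ext fun p q => ?_
    simp only [Sinf, Matrix.of_apply, star_trivial]
    by_cases h : p = q
    · rw [if_pos h, if_pos h.symm]
    · rw [if_neg h, if_neg (fun h' => h h'.symm)]
  · have h1 : star b ⬝ᵥ Sinf m *ᵥ b = (∑ p, b p ^ 2 + (∑ p, b p) ^ 2) / (2 * Real.pi ^ 2) := by
      simp only [dotProduct, Matrix.mulVec, star_trivial, Sinf, Matrix.of_apply]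
      have h2 : ∀ p q : Fin m, (if p = q then 1 / Real.pi ^ 2 else 1 / (2 * Real.pi ^ 2)) * b q =
          (b q + (if p = q then b q else 0)) / (2 * Real.pi ^ 2) := by
        intro p q
        by_cases h : p = q
        · rw [if_pos h, if_pos h]; ring
        · rw [if_neg h, if_neg h]; ring
      simp only [h2]
      simp only [← Finset.sum_div, Finset.sum_add_distrib, Finset.sum_ite_eq, Finset.mem_univ, if_true]
      simp only [← mul_div_assoc, ← Finset.sum_div, mul_add, Finset.sum_add_distrib]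
      rw [← Finset.sum_mul]
      congr 1
      have h3 : ∑ p, b p ^ 2 = ∑ p, b p * b p := Finset.sum_congr rfl fun p _ => sq _
      rw [h3]
      ring
    rw [h1]
    obtain ⟨p, hp⟩ : ∃ p, b p ≠ 0 := by
      by_contra hc
      push Not at hc
      exact hb (funext hc)
    have h4 : 0 < ∑ p, b p ^ 2 := lt_of_lt_of_le (by positivity : 0 < b p ^ 2)
      (Finset.single_le_sum (f := fun p => b p ^ 2) (fun _ _ => sq_nonneg _) (Finset.mem_univ p))
    positivity

lemma Tri_eq (m : ℕ) : Dm m * Sinf m * (Dm m)ᵀ = Tri m := by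
  obtain ⟨g, hg⟩ : ∃ g : ℕ → ℕ → ℝ, g = fun a b => if a = b then 1 / Real.pi ^ 2 else 1 / (2 * Real.pi ^ 2) :=
    ⟨_, rfl⟩
  ext i j
  have h1 : ∀ b : Fin m, (Dm m * Sinf m) i b = g i b - (if 0 < (i : ℕ) then g ((i : ℕ) - 1) b else 0) := by
    intro b
    rw [Matrix.mul_apply, ← Dsum (fun a => g a b) i]
    refine Finset.sum_congr rfl fun a _ => ?_
    congr 1
    simp only [Sinf, Matrix.of_apply, hg, Fin.ext_iff]
  rw [Matrix.mul_apply]
  have h2 : ∀ b : Fin m, (Dm m * Sinf m) i b * (Dm m)ᵀ b j =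
      Dm m j b * (fun b : ℕ => g i b - (if 0 < (i : ℕ) then g ((i : ℕ) - 1) b else 0)) (b : ℕ) := by
    intro b
    rw [h1, Matrix.transpose_apply, mul_comm]
  simp only [h2]
  rw [Dsum (fun b : ℕ => g i b - (if 0 < (i : ℕ) then g ((i : ℕ) - 1) b else 0)) j]
  simp only [Tri, Matrix.of_apply, hg, Fin.ext_iff]
  obtain ⟨a, ha⟩ : ∃ a : ℕ, a = (i : ℕ) := ⟨_, rfl⟩
  obtain ⟨b, hb⟩ : ∃ b : ℕ, b = (j : ℕ) := ⟨_, rfl⟩
  rw [← ha, ← hb]
  rcases Nat.eq_zero_or_pos a with h3 | h3 <;> rcases Nat.eq_zero_or_pos b with h4 | h4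
  · subst h3; subst h4
    simp
  · subst h3
    by_cases h5 : b = 1
    · subst h5
      simp
      ring
    · rw [if_neg (show ¬ (0 = b) by omega), if_neg (lt_irrefl 0), if_pos h4, if_neg (show ¬ (0 = b - 1) by omega),
        if_neg (lt_irrefl 0), if_neg (show ¬ (0 = b) by omega), if_neg (show ¬ (0 + 1 = b ∨ b + 1 = 0) by omega)]
      ring
  · subst h4
    by_cases h5 : a = 1
    · subst h5
      simp
      ring
    · rw [if_neg (show ¬ (a = 0) by omega), if_pos h3, if_neg (show ¬ (a - 1 = 0) by omega),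
        if_neg (lt_irrefl 0), if_neg (show ¬ (a = 0) by omega), if_neg (show ¬ (a + 1 = 0 ∨ 0 + 1 = a) by omega)]
      ring
  · rw [if_pos h3, if_pos h3, if_pos h4]
    by_cases h5 : a = b
    · subst h5
      rw [if_pos rfl, if_neg (show ¬ (a - 1 = a) by omega), if_neg (show ¬ (a = a - 1) by omega), if_pos rfl,
        if_pos rfl]
      ring
    · rw [if_neg h5, if_neg (show ¬ (a - 1 = b - 1) by omega), if_neg h5]
      by_cases h6 : a + 1 = b
      · rw [if_neg (show ¬ (a - 1 = b) by omega), if_pos (show a = b - 1 by omega),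
          if_pos (show a + 1 = b ∨ b + 1 = a from Or.inl h6)]
        ring
      · by_cases h7 : b + 1 = a
        · rw [if_pos (show a - 1 = b by omega), if_neg (show ¬ (a = b - 1) by omega),
            if_pos (show a + 1 = b ∨ b + 1 = a from Or.inr h7)]
          ring
        · rw [if_neg (show ¬ (a - 1 = b) by omega), if_neg (show ¬ (a = b - 1) by omega),
            if_neg (show ¬ (a + 1 = b ∨ b + 1 = a) by omega)]
          ring

lemma Dm_inj {m : ℕ} (x : EuclideanSpace ℝ (Fin m)) (h : Matrix.toEuclideanCLM (𝕜 := ℝ) (Dm m) x = 0) : x = 0 := by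
  have h1 : ∀ i : Fin m, x i - (if 0 < (i : ℕ) then (fun a : ℕ => if ha : a < m then x ⟨a, ha⟩ else 0) ((i : ℕ) - 1)
      else 0) = 0 := by
    intro i
    have h2 := congrArg (fun y : EuclideanSpace ℝ (Fin m) => y i) h
    simp only [Matrix.ofLp_toEuclideanCLM, Matrix.mulVec, dotProduct] at h2
    have h3 := Dsum (fun a : ℕ => if ha : a < m then x ⟨a, ha⟩ else 0) i
    have h4 : (fun a : ℕ => if ha : a < m then x ⟨a, ha⟩ else 0) (i : ℕ) = x i := by
      simp only [Fin.is_lt, dif_pos]
    rw [← h4, ← h3]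
    refine Eq.trans ?_ h2
    refine Finset.sum_congr rfl fun a _ => ?_
    simp only [Fin.is_lt, dif_pos]
  have h2 : ∀ a : ℕ, ∀ ha : a < m, x ⟨a, ha⟩ = 0 := by
    intro a
    induction a with
    | zero =>
      intro ha
      have := h1 ⟨0, ha⟩
      simpa using this
    | succ a ih =>
      intro ha
      have h3 := h1 ⟨a + 1, ha⟩
      have h4 := ih (by omega)
      simp only [Nat.succ_pos, if_true, Nat.add_sub_cancel] at h3
      rw [dif_pos (show a < m by omega), h4, sub_zero] at h3
      exact h3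
  ext i
  exact h2 i i.2

end Run7.h435.GL
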