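import Pool.Agent.Run7.h435.GLd
import Pool.Agent.Run7.h435.GLf

/-! # Sums of consecutive gaps: the two-sided statements -/

set_option autoImplicit false

namespace Run7.h435.GL

open Filter Finset MeasureTheory ProbabilityTheory Topology
open SG (ord NZ)
open Pool.Agent.X112.LF (Tup Cov)
open scoped Matrix

theorem two_sided (A m : ℕ) (hA : 1 ≤ A) (S : Set (EuclideanSpace ℝ (Fin m))) (hS : volume (frontier S) = 0)
    (ε : ℝ) (hε : 0 < ε) : ∀ᶠ h : ℕ in atTop, ∀ k : Fin (m + 1) → ℕ, Tup A h k →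
      (Kov (h : ℝ) (fun i => (k i : ℝ))).PosDef ∧ ∀ᶠ N : ℕ in atTop,
      |(1 / N : ℝ) * ({n : ℕ | 1 ≤ n ∧ n ≤ N ∧ vn h k n ∈ S}.ncard : ℝ) -
        (multivariateGaussian 0 (Kov (h : ℝ) (fun i => (k i : ℝ)))).real S| ≤ ε := by
  filter_upwards [upper A m hA S hS ε hε, upper A m hA Sᶜ (by rw [frontier_compl]; exact hS) ε hε]
    with h h1 h2 k hk
  obtain ⟨hpd, h1⟩ := h1 k hk
  obtain ⟨-, h2⟩ := h2 k hk
  refine ⟨hpd, ?_⟩
  filter_upwards [h1, h2, eventually_ge_atTop 1] with N h3 h4 hN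
  obtain ⟨γ, hγ⟩ : ∃ γ : Measure (EuclideanSpace ℝ (Fin m)),
    γ = multivariateGaussian 0 (Kov (h : ℝ) (fun i => (k i : ℝ))) := ⟨_, rfl⟩
  have hprob : IsProbabilityMeasure γ := by rw [hγ]; infer_instance
  rw [← hγ] at h3 h4 ⊢
  have hN0 : (0 : ℝ) < N := by exact_mod_cast hN
  have e1 : γ.real (interior S) ≤ γ.real S := measureReal_mono interior_subset
  have e2 : γ.real (interior Sᶜ) ≤ 1 - γ.real S := by
    rw [interior_compl, measureReal_compl isClosed_closure.measurableSet, probReal_univ]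
    have : γ.real S ≤ γ.real (closure S) := measureReal_mono subset_closure
    linarith
  have hsplit : {n : ℕ | 1 ≤ n ∧ n ≤ N ∧ vn h k n ∈ S} ∪ {n : ℕ | 1 ≤ n ∧ n ≤ N ∧ vn h k n ∈ Sᶜ} =
      ((Icc 1 N : Finset ℕ) : Set ℕ) := by
    ext n
    simp only [Set.mem_union, Set.mem_ofPred_eq, Set.mem_compl_iff, Finset.coe_Icc, Set.mem_Icc]
    tauto
  have hfin : ∀ P : ℕ → Prop, {n : ℕ | 1 ≤ n ∧ n ≤ N ∧ P n}.Finite := fun P =>
    (Finset.finite_toSet (Icc 1 N)).subset fun n hn => by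
      rw [Finset.mem_coe, Finset.mem_Icc]; exact ⟨hn.1, hn.2.1⟩
  have hcard := Set.ncard_union_le {n : ℕ | 1 ≤ n ∧ n ≤ N ∧ vn h k n ∈ S}
    {n : ℕ | 1 ≤ n ∧ n ≤ N ∧ vn h k n ∈ Sᶜ}
  rw [hsplit, Set.ncard_coe_finset, Nat.card_Icc, Nat.add_sub_cancel] at hcard
  have hcard' : (N : ℝ) ≤ ({n : ℕ | 1 ≤ n ∧ n ≤ N ∧ vn h k n ∈ S}.ncard : ℝ) +
      ({n : ℕ | 1 ≤ n ∧ n ≤ N ∧ vn h k n ∈ Sᶜ}.ncard : ℝ) := by exact_mod_cast hcard
  have h5 : ({n : ℕ | 1 ≤ n ∧ n ≤ N ∧ vn h k n ∈ S}.ncard : ℝ) ≤ (γ.real S + ε) * N :=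
    h3.trans (mul_le_mul_of_nonneg_right (by linarith) hN0.le)
  have h6 : ({n : ℕ | 1 ≤ n ∧ n ≤ N ∧ vn h k n ∈ Sᶜ}.ncard : ℝ) ≤ (1 - γ.real S + ε) * N :=
    h4.trans (mul_le_mul_of_nonneg_right (by linarith) hN0.le)
  have h7 : (γ.real S - ε) * N ≤ ({n : ℕ | 1 ≤ n ∧ n ≤ N ∧ vn h k n ∈ S}.ncard : ℝ) := by linarith
  rw [one_div, inv_mul_eq_div, abs_le]
  constructor
  · rw [neg_le_sub_iff_le_add, ← sub_le_iff_le_add, le_div_iff₀ hN0]
    linarith
  · rw [sub_le_iff_le_add, div_le_iff₀ hN0]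
    linarith

/-- the normalised sums over consecutive blocks of `r` gaps -/
noncomputable def bl (m r n : ℕ) : EuclideanSpace ℝ (Fin m) :=
  WithLp.toLp 2 (fun i : Fin m => (∑ l ∈ range r, dd (n + i * r + l) - r) / Real.sqrt (Real.log r))

/-- the pattern of the blocks -/
def pb (m r : ℕ) : Fin (m + 1) → ℕ := fun i => i * r

lemma bl_eq (m r n : ℕ) : Matrix.toEuclideanCLM (𝕜 := ℝ) (Dm m) (vn r (pb m r) n) = bl m r n := by
  obtain ⟨s, hs⟩ : ∃ s : ℝ, s = Real.sqrt (Real.log r) := ⟨_, rfl⟩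
  obtain ⟨G, hG⟩ : ∃ G : ℕ → ℝ, G = fun a => ∑ l ∈ range (a * r), dd (n + l) := ⟨_, rfl⟩
  have hG1 : ∀ a, G (a + 1) = G a + ∑ l ∈ range r, dd (n + a * r + l) := by
    intro a
    rw [hG]
    simp only
    rw [add_mul, one_mul, Finset.sum_range_add]
    congr 1
    exact Finset.sum_congr rfl fun l _ => by rw [add_assoc]
  have hG0 : G 0 = 0 := by rw [hG]; simp
  ext i
  rw [Matrix.ofLp_toEuclideanCLM]
  simp only [Matrix.mulVec, dotProduct]
  have h1 : ∀ a : Fin m, Dm m i a * vn r (pb m r) n a =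
      Dm m i a * (fun b : ℕ => (G (b + 1) - ((b + 1 : ℕ) * r : ℝ)) / s) (a : ℕ) := by
    intro a
    congr 1
    simp only [vn, pb, hG, hs, Fin.val_succ]
    push_cast
    ring
  rw [Finset.sum_congr rfl fun a _ => h1 a, Dsum (fun b : ℕ => (G (b + 1) - ((b + 1 : ℕ) * r : ℝ)) / s) i]
  have h2 : bl m r n i = (∑ l ∈ range r, dd (n + i * r + l) - r) / s := by rw [hs]; rfl
  rw [h2]
  rcases Nat.eq_zero_or_pos (i : ℕ) with h3 | h3
  · rw [if_neg (by omega), h3, hG1, hG0]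
    push_cast
    ring
  · rw [if_pos h3]
    obtain ⟨c, hc⟩ : ∃ c : ℕ, (i : ℕ) = c + 1 := ⟨(i : ℕ) - 1, by omega⟩
    rw [hc, Nat.add_sub_cancel, hG1 (c + 1)]
    push_cast
    ring

theorem blocks (m : ℕ) (S : Set (EuclideanSpace ℝ (Fin m))) (hS : volume (frontier S) = 0)
    (ε : ℝ) (hε : 0 < ε) : ∀ᶠ r : ℕ in atTop, ∀ᶠ N : ℕ in atTop,
      |(1 / N : ℝ) * ({n : ℕ | 1 ≤ n ∧ n ≤ N ∧ bl m r n ∈ S}.ncard : ℝ) -
        (multivariateGaussian 0 (Tri m)).real S| ≤ ε := by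
  obtain ⟨e, he⟩ : ∃ e : EuclideanSpace ℝ (Fin m) ≃ₗ[ℝ] EuclideanSpace ℝ (Fin m),
      ∀ x, e x = Matrix.toEuclideanCLM (𝕜 := ℝ) (Dm m) x := by
    refine ⟨LinearEquiv.ofInjectiveEndo (Matrix.toEuclideanCLM (𝕜 := ℝ) (Dm m) :
      EuclideanSpace ℝ (Fin m) →ₗ[ℝ] EuclideanSpace ℝ (Fin m)) ?_, fun x => rfl⟩
    rw [injective_iff_map_eq_zero]
    intro x hx
    exact Dm_inj x hx
  obtain ⟨S', hS'⟩ : ∃ S' : Set (EuclideanSpace ℝ (Fin m)), S' = e ⁻¹' S := ⟨_, rfl⟩
  have hfr : frontier S' = e ⁻¹' (frontier S) := by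
    rw [hS']
    exact (e.toContinuousLinearEquiv.toHomeomorph.preimage_frontier S).symm
  have hnull : volume (frontier S') = 0 := by
    rw [hfr]
    have h1 := Measure.addHaar_preimage_linearMap (volume : Measure (EuclideanSpace ℝ (Fin m)))
      (f := (e : EuclideanSpace ℝ (Fin m) →ₗ[ℝ] EuclideanSpace ℝ (Fin m))) (LinearEquiv.isUnit_det' e).ne_zero
      (frontier S)
    rw [hS, mul_zero] at h1
    exact h1
  have hmem : ∀ r n, vn r (pb m r) n ∈ S' ↔ bl m r n ∈ S := by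
    intro r n
    rw [hS', Set.mem_preimage, he, bl_eq]
  -- the covariances
  have hKov : ∀ p q, Tendsto (fun r : ℕ => Kov (r : ℝ) (fun i => (pb m r i : ℝ)) p q) atTop (𝓝 (Sinf m p q)) := by
    intro p q
    have hlog : Tendsto (fun r : ℕ => Real.log r) atTop atTop :=
      Real.tendsto_log_atTop.comp tendsto_natCast_atTop_atTop
    have hl : ∀ c : ℝ, 0 < c → Tendsto (fun r : ℕ => Real.log (c * r) / Real.log r) atTop (𝓝 1) := by
      intro c hc
      have h1 : Tendsto (fun r : ℕ => Real.log c / Real.log r + 1) atTop (𝓝 (0 + 1)) :=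
        (tendsto_const_nhds.div_atTop hlog).add tendsto_const_nhds
      rw [zero_add] at h1
      refine h1.congr' ?_
      filter_upwards [hlog.eventually_gt_atTop 0, eventually_gt_atTop 0] with r hr hr0
      have hr0' : (0 : ℝ) < r := by exact_mod_cast hr0
      rw [Real.log_mul hc.ne' hr0'.ne']
      field_simp
    have e1 : ∀ r : ℕ, Kov (r : ℝ) (fun i => (pb m r i : ℝ)) p q =
        (Real.log (((p : ℕ) + 1 : ℕ) * r) / Real.log r + Real.log (((q : ℕ) + 1 : ℕ) * r) / Real.log r -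
          Real.log (|((p : ℕ) : ℝ) - (q : ℕ)| * r) / Real.log r) / (2 * Real.pi ^ 2) := by
      intro r
      have hr : (0 : ℝ) ≤ r := Nat.cast_nonneg _
      simp only [Kov, Cov, Matrix.of_apply, pb, Fin.val_succ, Fin.val_zero]
      push_cast
      have a1 : |(0 : ℝ) * r - ((p : ℕ) + 1) * r| = ((p : ℕ) + 1) * r := by
        rw [zero_mul, zero_sub, abs_neg, abs_of_nonneg (by positivity)]
      have a2 : |(0 : ℝ) * r - ((q : ℕ) + 1) * r| = ((q : ℕ) + 1) * r := by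
        rw [zero_mul, zero_sub, abs_neg, abs_of_nonneg (by positivity)]
      have a3 : |(((p : ℕ) : ℝ) + 1) * r - ((q : ℕ) + 1) * r| = |((p : ℕ) : ℝ) - (q : ℕ)| * r := by
        rw [← sub_mul, abs_mul, abs_of_nonneg hr]
        congr 2
        ring
      rw [a1, a2, a3]
    have h1 := hl (((p : ℕ) + 1 : ℕ) : ℝ) (by positivity)
    have h2 := hl (((q : ℕ) + 1 : ℕ) : ℝ) (by positivity)
    by_cases hpq : p = q
    · subst hpq
      have h3 : Tendsto (fun r : ℕ => (Real.log (((p : ℕ) + 1 : ℕ) * r) / Real.log r +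
          Real.log (((p : ℕ) + 1 : ℕ) * r) / Real.log r - 0) / (2 * Real.pi ^ 2)) atTop
          (𝓝 ((1 + 1 - 0) / (2 * Real.pi ^ 2))) :=
        ((h1.add h1).sub tendsto_const_nhds).div_const _
      have h4 : Sinf m p p = (1 + 1 - 0) / (2 * Real.pi ^ 2) := by
        simp only [Sinf, Matrix.of_apply, if_true]
        have := Real.pi_pos
        field_simp
        norm_num
      rw [h4]
      refine h3.congr fun r => ?_
      rw [e1, sub_self ((p : ℕ) : ℝ), abs_zero, zero_mul, Real.log_zero, zero_div]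
    · have hne : ((p : ℕ) : ℝ) - (q : ℕ) ≠ 0 := by
        intro h0
        apply hpq
        have : ((p : ℕ) : ℝ) = (q : ℕ) := by linarith
        exact Fin.ext (by exact_mod_cast this)
      have h3 := hl |((p : ℕ) : ℝ) - (q : ℕ)| (abs_pos.2 hne)
      have h5 := ((h1.add h2).sub h3).div_const (2 * Real.pi ^ 2)
      have h4 : Sinf m p q = (1 + 1 - 1) / (2 * Real.pi ^ 2) := by
        simp only [Sinf, Matrix.of_apply, if_neg hpq]
        norm_num
      rw [h4]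
      exact h5.congr fun r => (e1 r).symm
  have hpos := pos_ev (Sinf_pos m) (fun r => Kov_herm (r : ℝ) (fun i => (pb m r i : ℝ))) hKov
  have hw := wc_mg (Sinf_pos m) hpos hKov
  have hlim := ProbabilityMeasure.tendsto_measure_of_null_frontier_of_tendsto' hw (E := S')
    (mg_ac (Sinf_pos m) hnull)
  have hlim' : Tendsto (fun r : ℕ => (multivariateGaussian 0 (Kov (r : ℝ) (fun i => (pb m r i : ℝ)))).real S') atTop
      (𝓝 ((multivariateGaussian 0 (Sinf m)).real S')) :=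
    (ENNReal.tendsto_toReal (measure_ne_top _ _)).comp hlim
  have hTri : (multivariateGaussian 0 (Sinf m)).real S' = (multivariateGaussian 0 (Tri m)).real S := by
    rw [← Tri_eq, ← mg_map (Sinf_pos m).posSemidef, measureReal_def, measureReal_def,
      Measure.map_apply₀ (by fun_prop)]
    · have : S' = ⇑(Matrix.toEuclideanCLM (𝕜 := ℝ) (Dm m)) ⁻¹' S := by
        rw [hS']
        ext x
        rw [Set.mem_preimage, Set.mem_preimage, he]
      rw [this]
    · refine nullMeasurableSet_of_null_frontier ?_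
      have hTp : ((multivariateGaussian 0 (Sinf m)).map (Matrix.toEuclideanCLM (𝕜 := ℝ) (Dm m))) (frontier S) =
          (multivariateGaussian 0 (Sinf m)) (frontier S') := by
        rw [Measure.map_apply (by fun_prop) isClosed_frontier.measurableSet, hfr]
        congr 1
        ext x
        rw [Set.mem_preimage, Set.mem_preimage, he]
      rw [hTp]
      exact mg_ac (Sinf_pos m) hnull
  rw [hTri] at hlim'
  have hev := (Metric.tendsto_nhds.1 hlim') (ε / 2) (by positivity)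
  filter_upwards [two_sided 2 m (by norm_num) S' hnull (ε / 2) (by positivity), hev, eventually_ge_atTop (m + 1)]
    with r h1 h2 h3
  obtain ⟨-, h1⟩ := h1 (pb m r) ⟨by simp [pb], fun i j hij => by
    have hij' : (i : ℕ) ≠ j := fun h => hij (Fin.ext h)
    have h4 : (1 : ℝ) ≤ |((i : ℕ) : ℝ) - (j : ℕ)| := by
      have : (1 : ℤ) ≤ |((i : ℕ) : ℤ) - (j : ℕ)| := Int.one_le_abs (by omega)
      have h5 : ((1 : ℤ) : ℝ) ≤ ((|((i : ℕ) : ℤ) - (j : ℕ)| : ℤ) : ℝ) := by exact_mod_cast this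
      push_cast at h5
      exact h5
    have h5 : (pb m r i : ℝ) - pb m r j = (((i : ℕ) : ℝ) - (j : ℕ)) * r := by
      simp only [pb]; push_cast; ring
    rw [h5, abs_mul, abs_of_nonneg (Nat.cast_nonneg r : (0 : ℝ) ≤ r)]
    exact le_mul_of_one_le_left (Nat.cast_nonneg _) h4, fun i => by
    simp only [pb]
    have : (i : ℕ) ≤ r := by have := i.2; omega
    rw [pow_two]
    exact Nat.mul_le_mul_right _ this⟩
  filter_upwards [h1] with N h4
  simp only [hmem] at h4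
  rw [Real.dist_eq] at h2
  have h5 := abs_le.1 h4
  have h6 := abs_lt.1 h2
  rw [abs_le]
  constructor <;> linarith

end Run7.h435.GL
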