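import Pool.Agent.X112.LF.Zn
import Pool.Agent.Run7.h435.GLf

/-! # The probability of a quadrant for the law of two adjacent blocks -/

set_option autoImplicit false

namespace Run7.h435.GL

open MeasureTheory ProbabilityTheory Filter Topology
open scoped Matrix

lemma Tri2_pos : (Tri 2).PosDef := by
  have hpi := Real.pi_pos
  refine Matrix.PosDef.of_dotProduct_mulVec_pos ?_ fun b hb => ?_
  · refine Matrix.IsHermitian.ext fun p q => ?_
    fin_cases p <;> fin_cases q <;> simp [Tri]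
  · have h1 : star b ⬝ᵥ Tri 2 *ᵥ b = (b 0 ^ 2 + b 1 ^ 2 + (b 0 - b 1) ^ 2) / (2 * Real.pi ^ 2) := by
      simp [dotProduct, Matrix.mulVec, Fin.sum_univ_two, Tri]
      field_simp
      ring
    rw [h1]
    have h2 : b 0 ≠ 0 ∨ b 1 ≠ 0 := by
      by_contra hc
      push Not at hc
      apply hb
      funext i
      fin_cases i
      · exact hc.1
      · exact hc.2
    have h3 : 0 < b 0 ^ 2 + b 1 ^ 2 + (b 0 - b 1) ^ 2 := by
      rcases h2 with h2 | h2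
      · have : 0 < b 0 ^ 2 := by positivity
        nlinarith [sq_nonneg (b 1), sq_nonneg (b 0 - b 1)]
      · have : 0 < b 1 ^ 2 := by positivity
        nlinarith [sq_nonneg (b 0), sq_nonneg (b 0 - b 1)]
    positivity

lemma Tri2_eq : Tri 2 = !![1 / Real.pi ^ 2, -(1 / (2 * Real.pi ^ 2)); -(1 / (2 * Real.pi ^ 2)), 1 / Real.pi ^ 2] := by
  ext i j
  fin_cases i <;> fin_cases j <;> simp [Tri]

lemma inv_of (D : Matrix (Fin 2) (Fin 2) ℝ) (hD : D * Tri 2 * Dᵀ = Tri 2)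
    (S : Set (EuclideanSpace ℝ (Fin 2))) (hS : MeasurableSet S) :
    (multivariateGaussian 0 (Tri 2)).real ((Matrix.toEuclideanCLM (𝕜 := ℝ) D) ⁻¹' S) =
      (multivariateGaussian 0 (Tri 2)).real S := by
  have h1 := mg_map Tri2_pos.posSemidef D
  rw [hD] at h1
  have h2 : ((multivariateGaussian 0 (Tri 2)).map (Matrix.toEuclideanCLM (𝕜 := ℝ) D)) S =
      multivariateGaussian 0 (Tri 2) S := by rw [h1]
  rw [Measure.map_apply (by fun_prop) hS] at h2
  rw [measureReal_def, measureReal_def, h2]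

lemma D_apply (a b c d : ℝ) (x : EuclideanSpace ℝ (Fin 2)) :
    Matrix.toEuclideanCLM (𝕜 := ℝ) !![a, b; c, d] x 0 = a * x 0 + b * x 1 ∧
    Matrix.toEuclideanCLM (𝕜 := ℝ) !![a, b; c, d] x 1 = c * x 0 + d * x 1 := by
  constructor <;>
  · rw [Matrix.ofLp_toEuclideanCLM]
    simp [Matrix.mulVec, dotProduct, Fin.sum_univ_two]

lemma null0 : multivariateGaussian 0 (Tri 2) {x : EuclideanSpace ℝ (Fin 2) | x 0 = 0} = 0 := by
  have h := Pool.Agent.X112.LF.gauss_null Tri2_pos (MvPolynomial.X 0) (MvPolynomial.X_ne_zero 0)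
  simpa using h

lemma null1 : multivariateGaussian 0 (Tri 2) {x : EuclideanSpace ℝ (Fin 2) | x 1 = 0} = 0 := by
  have h := Pool.Agent.X112.LF.gauss_null Tri2_pos (MvPolynomial.X 1) (MvPolynomial.X_ne_zero 1)
  simpa using h

lemma null2 : multivariateGaussian 0 (Tri 2) {x : EuclideanSpace ℝ (Fin 2) | x 0 + x 1 = 0} = 0 := by
  have h := Pool.Agent.X112.LF.gauss_null Tri2_pos (MvPolynomial.X 0 + MvPolynomial.X 1) (by
    intro h0
    have := congrArg (MvPolynomial.eval (fun _ => (1 : ℝ))) h0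
    simp at this)
  simpa using h

theorem quad : (multivariateGaussian 0 (Tri 2)).real {x : EuclideanSpace ℝ (Fin 2) | 0 < x 0 ∧ 0 < x 1} = 1 / 6 := by
  obtain ⟨γ, hγ⟩ : ∃ γ : Measure (EuclideanSpace ℝ (Fin 2)), γ = multivariateGaussian 0 (Tri 2) := ⟨_, rfl⟩
  have hprob : IsProbabilityMeasure γ := by rw [hγ]; infer_instance
  obtain ⟨Q, hQ⟩ : ∃ Q : Set (EuclideanSpace ℝ (Fin 2)), Q = {x | 0 < x 0 ∧ 0 < x 1} := ⟨_, rfl⟩
  have hm : ∀ a b c d : ℝ, MeasurableSet {x : EuclideanSpace ℝ (Fin 2) | 0 < a * x 0 + b * x 1 ∧ 0 < c * x 0 + d * x 1} := by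
    intro a b c d
    apply IsOpen.measurableSet
    have h1 : IsOpen {x : EuclideanSpace ℝ (Fin 2) | 0 < a * x 0 + b * x 1} :=
      isOpen_lt (f := fun _ => (0 : ℝ)) (g := fun x : EuclideanSpace ℝ (Fin 2) => a * x 0 + b * x 1)
        continuous_const (by fun_prop)
    have h2 : IsOpen {x : EuclideanSpace ℝ (Fin 2) | 0 < c * x 0 + d * x 1} :=
      isOpen_lt (f := fun _ => (0 : ℝ)) (g := fun x : EuclideanSpace ℝ (Fin 2) => c * x 0 + d * x 1)
        continuous_const (by fun_prop)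
    exact h1.inter h2
  have hQm : MeasurableSet Q := by
    have := hm 1 0 0 1
    simp only [one_mul, zero_mul, add_zero, zero_add] at this
    rw [hQ]; exact this
  have hinv : ∀ a b c d : ℝ, !![a, b; c, d] * Tri 2 * !![a, b; c, d]ᵀ = Tri 2 →
      γ.real {x : EuclideanSpace ℝ (Fin 2) | 0 < a * x 0 + b * x 1 ∧ 0 < c * x 0 + d * x 1} = γ.real Q := by
    intro a b c d h
    have h1 := inv_of _ h Q hQm
    rw [← hγ] at h1
    rw [← h1, hQ]
    congr 1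
    ext x
    obtain ⟨e1, e2⟩ := D_apply a b c d x
    rw [Set.mem_preimage, Set.mem_ofPred_eq, Set.mem_ofPred_eq, e1, e2]
  have hT : ∀ a b c d : ℝ, a ^ 2 - a * b + b ^ 2 = 1 → c ^ 2 - c * d + d ^ 2 = 1 →
      2 * (a * c + b * d) - (a * d + b * c) = -1 → !![a, b; c, d] * Tri 2 * !![a, b; c, d]ᵀ = Tri 2 := by
    intro a b c d h1 h2 h3
    have hpi := Real.pi_pos
    rw [Tri2_eq]
    obtain ⟨u, hu⟩ : ∃ u : ℝ, u = 1 / (2 * Real.pi ^ 2) := ⟨_, rfl⟩
    have hu2 : 1 / Real.pi ^ 2 = 2 * u := by rw [hu]; field_simp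
    rw [← hu, hu2]
    have e1 : (a ^ 2 - a * b + b ^ 2) * u = u := by rw [h1, one_mul]
    have e2 : (c ^ 2 - c * d + d ^ 2) * u = u := by rw [h2, one_mul]
    have e3 : (2 * (a * c + b * d) - (a * d + b * c)) * u = -1 * u := by rw [h3]
    ext i j
    fin_cases i <;> fin_cases j
    · simp [Matrix.mul_apply, Fin.sum_univ_two]
      linarith
    · simp [Matrix.mul_apply, Fin.sum_univ_two]
      linarith
    · simp [Matrix.mul_apply, Fin.sum_univ_two]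
      linarith
    · simp [Matrix.mul_apply, Fin.sum_univ_two]
      linarith
  -- the six cones
  have c2 := hinv 1 0 (-1) (-1) (hT _ _ _ _ (by norm_num) (by norm_num) (by norm_num))
  have c3 := hinv 0 1 (-1) (-1) (hT _ _ _ _ (by norm_num) (by norm_num) (by norm_num))
  have c4 := hinv (-1) 0 0 (-1) (hT _ _ _ _ (by norm_num) (by norm_num) (by norm_num))
  have c5 := hinv (-1) 0 1 1 (hT _ _ _ _ (by norm_num) (by norm_num) (by norm_num))
  have c6 := hinv 0 (-1) 1 1 (hT _ _ _ _ (by norm_num) (by norm_num) (by norm_num))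
  obtain ⟨C2, hC2⟩ : ∃ C : Set (EuclideanSpace ℝ (Fin 2)), C = {x | 0 < 1 * x 0 + 0 * x 1 ∧ 0 < -1 * x 0 + -1 * x 1} := ⟨_, rfl⟩
  obtain ⟨C3, hC3⟩ : ∃ C : Set (EuclideanSpace ℝ (Fin 2)), C = {x | 0 < 0 * x 0 + 1 * x 1 ∧ 0 < -1 * x 0 + -1 * x 1} := ⟨_, rfl⟩
  obtain ⟨C4, hC4⟩ : ∃ C : Set (EuclideanSpace ℝ (Fin 2)), C = {x | 0 < -1 * x 0 + 0 * x 1 ∧ 0 < 0 * x 0 + -1 * x 1} := ⟨_, rfl⟩
  obtain ⟨C5, hC5⟩ : ∃ C : Set (EuclideanSpace ℝ (Fin 2)), C = {x | 0 < -1 * x 0 + 0 * x 1 ∧ 0 < 1 * x 0 + 1 * x 1} := ⟨_, rfl⟩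
  obtain ⟨C6, hC6⟩ : ∃ C : Set (EuclideanSpace ℝ (Fin 2)), C = {x | 0 < 0 * x 0 + -1 * x 1 ∧ 0 < 1 * x 0 + 1 * x 1} := ⟨_, rfl⟩
  rw [← hC2] at c2
  rw [← hC3] at c3
  rw [← hC4] at c4
  rw [← hC5] at c5
  rw [← hC6] at c6
  have m2 : MeasurableSet C2 := by rw [hC2]; exact hm _ _ _ _
  have m3 : MeasurableSet C3 := by rw [hC3]; exact hm _ _ _ _
  have m4 : MeasurableSet C4 := by rw [hC4]; exact hm _ _ _ _
  have m5 : MeasurableSet C5 := by rw [hC5]; exact hm _ _ _ _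
  have m6 : MeasurableSet C6 := by rw [hC6]; exact hm _ _ _ _
  have d6 : Disjoint C5 C6 := by
    rw [Set.disjoint_left, hC5, hC6]
    rintro x ⟨a1, a2⟩ ⟨b1, b2⟩
    linarith
  have d5 : Disjoint C4 (C5 ∪ C6) := by
    rw [Set.disjoint_left, hC4, hC5, hC6]
    rintro x ⟨a1, a2⟩ (⟨b1, b2⟩ | ⟨b1, b2⟩) <;> linarith
  have d4 : Disjoint C3 (C4 ∪ (C5 ∪ C6)) := by
    rw [Set.disjoint_left, hC3, hC4, hC5, hC6]
    rintro x ⟨a1, a2⟩ (⟨b1, b2⟩ | ⟨b1, b2⟩ | ⟨b1, b2⟩) <;> linarith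
  have d3 : Disjoint C2 (C3 ∪ (C4 ∪ (C5 ∪ C6))) := by
    rw [Set.disjoint_left, hC2, hC3, hC4, hC5, hC6]
    rintro x ⟨a1, a2⟩ (⟨b1, b2⟩ | ⟨b1, b2⟩ | ⟨b1, b2⟩ | ⟨b1, b2⟩) <;> linarith
  have d2 : Disjoint Q (C2 ∪ (C3 ∪ (C4 ∪ (C5 ∪ C6)))) := by
    rw [Set.disjoint_left, hQ, hC2, hC3, hC4, hC5, hC6]
    rintro x ⟨a1, a2⟩ (⟨b1, b2⟩ | ⟨b1, b2⟩ | ⟨b1, b2⟩ | ⟨b1, b2⟩ | ⟨b1, b2⟩) <;> linarith
  have s1 : γ.real (Q ∪ (C2 ∪ (C3 ∪ (C4 ∪ (C5 ∪ C6))))) = 6 * γ.real Q := by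
    rw [measureReal_union d2 (m2.union (m3.union (m4.union (m5.union m6)))),
      measureReal_union d3 (m3.union (m4.union (m5.union m6))),
      measureReal_union d4 (m4.union (m5.union m6)), measureReal_union d5 (m5.union m6),
      measureReal_union d6 m6, c2, c3, c4, c5, c6]
    ring
  have s2 : γ.real (Q ∪ (C2 ∪ (C3 ∪ (C4 ∪ (C5 ∪ C6))))) = 1 := by
    have h1 : γ ((Q ∪ (C2 ∪ (C3 ∪ (C4 ∪ (C5 ∪ C6)))))ᶜ) = 0 := by
      refine measure_mono_null (t := {x | x 0 = 0} ∪ ({x | x 1 = 0} ∪ {x | x 0 + x 1 = 0})) ?_ ?_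
      · intro x hx
        by_contra hcon
        rw [Set.mem_union, Set.mem_union, not_or, not_or] at hcon
        obtain ⟨n1, n2, n3⟩ := hcon
        simp only [Set.mem_ofPred_eq] at n1 n2 n3
        apply hx
        rw [hQ, hC2, hC3, hC4, hC5, hC6]
        simp only [Set.mem_union, Set.mem_ofPred_eq]
        rcases lt_or_gt_of_ne n1 with p1 | p1 <;> rcases lt_or_gt_of_ne n2 with p2 | p2 <;>
          rcases lt_or_gt_of_ne n3 with p3 | p3
        · exact Or.inr (Or.inr (Or.inr (Or.inl ⟨by linarith, by linarith⟩)))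
        · linarith
        · exact Or.inr (Or.inr (Or.inl ⟨by linarith, by linarith⟩))
        · exact Or.inr (Or.inr (Or.inr (Or.inr (Or.inl ⟨by linarith, by linarith⟩))))
        · exact Or.inr (Or.inl ⟨by linarith, by linarith⟩)
        · exact Or.inr (Or.inr (Or.inr (Or.inr (Or.inr ⟨by linarith, by linarith⟩))))
        · linarith
        · exact Or.inl ⟨p1, p2⟩
      · rw [hγ]
        exact measure_union_null null0 (measure_union_null null1 null2)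
    have h2 := measureReal_compl (μ := γ) (hQm.union (m2.union (m3.union (m4.union (m5.union m6)))))
    rw [measureReal_def, h1, probReal_univ] at h2
    simp only [ENNReal.toReal_zero] at h2
    linarith
  rw [← hγ, ← hQ]
  linarith

end Run7.h435.GL
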