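import Pool.Agent.Run7.h435.GLe
import Pool.Agent.Run7.h435.GLg

/-! # The sequence of the gaps is not strongly mixing -/

set_option autoImplicit false

namespace Run7.h435.GL

open Filter Finset MeasureTheory ProbabilityTheory Topology
open SG (ord NZ)
open Pool.Agent.X112.GS (yy inc few_wide gap_close)

lemma fin_set (N : ℕ) (P : ℕ → Prop) : {n : ℕ | 1 ≤ n ∧ n ≤ N ∧ P n}.Finite :=
  (Finset.finite_toSet (Icc 1 N)).subset fun n hn => by
    rw [Finset.mem_coe, Finset.mem_Icc]; exact ⟨hn.1, hn.2.1⟩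

lemma ncard_le {N : ℕ} {P Q R : ℕ → Prop} (h : ∀ n, P n → Q n ∨ R n) :
    ({n : ℕ | 1 ≤ n ∧ n ≤ N ∧ P n}.ncard : ℝ) ≤ ({n : ℕ | 1 ≤ n ∧ n ≤ N ∧ Q n}.ncard : ℝ) +
      ({n : ℕ | 1 ≤ n ∧ n ≤ N ∧ R n}.ncard : ℝ) := by
  have h1 : {n : ℕ | 1 ≤ n ∧ n ≤ N ∧ P n} ⊆ {n : ℕ | 1 ≤ n ∧ n ≤ N ∧ Q n} ∪ {n : ℕ | 1 ≤ n ∧ n ≤ N ∧ R n} := by
    rintro n ⟨a, b, c⟩
    rcases h n c with d | d
    · exact Or.inl ⟨a, b, d⟩
    · exact Or.inr ⟨a, b, d⟩
  have h2 := (Set.ncard_le_ncard h1 ((fin_set N Q).union (fin_set N R))).trans (Set.ncard_union_le _ _)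
  exact_mod_cast h2

lemma shift_le (N c : ℕ) (P : ℕ → Prop) :
    ({n : ℕ | 1 ≤ n ∧ n ≤ N ∧ P (n + c)}.ncard : ℝ) ≤ ({n : ℕ | 1 ≤ n ∧ n ≤ N + c ∧ P n}.ncard : ℝ) := by
  have h1 : (fun n => n + c) '' {n : ℕ | 1 ≤ n ∧ n ≤ N ∧ P (n + c)} ⊆ {n : ℕ | 1 ≤ n ∧ n ≤ N + c ∧ P n} := by
    rintro m ⟨n, ⟨a, b, d⟩, rfl⟩
    exact ⟨by show 1 ≤ n + c; omega, by show n + c ≤ N + c; omega, d⟩
  have h2 := Set.ncard_le_ncard h1 (fin_set _ _)
  rw [Set.ncard_image_of_injective _ (add_left_injective c)] at h2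
  exact_mod_cast h2

lemma shift_ge (N c : ℕ) (P : ℕ → Prop) :
    ({n : ℕ | 1 ≤ n ∧ n ≤ N ∧ P n}.ncard : ℝ) ≤ ({n : ℕ | 1 ≤ n ∧ n ≤ N ∧ P (n + c)}.ncard : ℝ) + c := by
  have h1 : {n : ℕ | 1 ≤ n ∧ n ≤ N ∧ P n} ⊆ ((Icc 1 c : Finset ℕ) : Set ℕ) ∪
      (fun n => n + c) '' {n : ℕ | 1 ≤ n ∧ n ≤ N ∧ P (n + c)} := by
    rintro n ⟨a, b, d⟩
    by_cases h : n ≤ c
    · left
      rw [Finset.mem_coe, Finset.mem_Icc]
      exact ⟨a, h⟩
    · right
      refine ⟨n - c, ⟨by omega, by omega, ?_⟩, by show n - c + c = n; omega⟩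
      rw [show n - c + c = n by omega]
      exact d
  have h2 := (Set.ncard_le_ncard h1 ((Finset.finite_toSet _).union ((fin_set _ _).image _))).trans
    (Set.ncard_union_le _ _)
  rw [Set.ncard_image_of_injective _ (add_left_injective c), Set.ncard_coe_finset, Nat.card_Icc,
    Nat.add_sub_cancel] at h2
  have h3 : ({n : ℕ | 1 ≤ n ∧ n ≤ N ∧ P n}.ncard : ℝ) ≤ c + ({n : ℕ | 1 ≤ n ∧ n ≤ N ∧ P (n + c)}.ncard : ℝ) := by
    exact_mod_cast h2
  linarith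

lemma tight_dd (η : ℝ) (hη : 0 < η) : ∃ K : ℝ, 0 < K ∧ ∀ᶠ N : ℕ in atTop,
    ({n : ℕ | 1 ≤ n ∧ n ≤ N ∧ K < |dd n|}.ncard : ℝ) ≤ η * N := by
  classical
  obtain ⟨K, hK, hw⟩ := few_wide (η / 2) (by positivity) 1
  obtain ⟨n1, hn11, hn1⟩ := sum_close 1 K 1 hK one_pos
  obtain ⟨n2, hn21, hn2⟩ := gap_close K 1 hK one_pos 1
  refine ⟨K + 2, by positivity, ?_⟩
  have hbig : ∀ᶠ N : ℕ in atTop, ((n1 + n2 : ℕ) : ℝ) ≤ η / 2 * N :=
    (tendsto_natCast_atTop_atTop.const_mul_atTop (show (0 : ℝ) < η / 2 by positivity)).eventually_ge_atTop _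
  filter_upwards [hw, hbig] with N h1 h2
  obtain ⟨P, hP⟩ : ∃ P : ℕ → Prop, P = fun n => ¬ ∀ l < 1, |inc yy (n + l)| ≤ K := ⟨_, rfl⟩
  have hsub : {n : ℕ | 1 ≤ n ∧ n ≤ N ∧ K + 2 < |dd n|} ⊆
      (((Icc 1 N).filter P ∪ Icc 1 (n1 + n2) : Finset ℕ) : Set ℕ) := by
    rintro n ⟨a, b, c⟩
    rw [Finset.coe_union, Set.mem_union]
    by_contra hcon
    rw [not_or] at hcon
    obtain ⟨c1, c2⟩ := hcon
    have hn : n1 + n2 < n := by
      by_contra hc
      exact c2 (by rw [Finset.mem_coe, Finset.mem_Icc]; exact ⟨a, by omega⟩)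
    have hwn : ∀ l < 1, |inc yy (n + l)| ≤ K := by
      by_contra hc
      exact c1 (Finset.mem_coe.2 (Finset.mem_filter.2 ⟨Finset.mem_Icc.2 ⟨a, b⟩, by rw [hP]; exact hc⟩))
    obtain ⟨p1, p2⟩ := hn2 n (by omega)
    obtain ⟨-, p3⟩ := p2 hwn
    have p4 := p3 0 (by omega) 0 (by omega) le_rfl
    have p5 := hwn 0 (by omega)
    have p6 := hn1 n (by omega) hwn (ord n) le_rfl (by linarith) 1 le_rfl
    simp only [add_zero, Finset.range_one, Finset.sum_singleton] at p4 p5 p6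
    have p7 : (ord (n + 1) - ord n) / (2 * Real.pi / Real.log (ord n)) =
      (ord (n + 1) - ord n) * Real.log (ord n) / (2 * Real.pi) := by rw [div_div_eq_mul_div]
    rw [p7] at p6
    have q1 := abs_le.1 p4
    have q2 := abs_le.1 p5
    have q3 := abs_le.1 p6
    have : |dd n| ≤ K + 2 := by
      rw [abs_le]
      constructor <;> linarith [q1.1, q1.2, q2.1, q2.2, q3.1, q3.2]
    linarith
  have h3 := Set.ncard_le_ncard hsub (Finset.finite_toSet _)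
  rw [Set.ncard_coe_finset] at h3
  have h4 := h3.trans (Finset.card_union_le _ _)
  rw [Nat.card_Icc, Nat.add_sub_cancel] at h4
  have h5 : ({n : ℕ | 1 ≤ n ∧ n ≤ N ∧ K + 2 < |dd n|}.ncard : ℝ) ≤
      ((Icc 1 N).filter P).card + ((n1 + n2 : ℕ) : ℝ) := by
    exact_mod_cast h4
  have h6 : (((Icc 1 N).filter P).card : ℝ) ≤ η / 2 * N := by
    refine le_trans (le_of_eq ?_) h1
    rw [hP]
    congr!
  linarith

lemma small_sum (g : ℕ) (η : ℝ) (hη : 0 < η) : ∀ᶠ r : ℕ in atTop, ∀ b : ℕ, ∀ᶠ N : ℕ in atTop,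
    ({n : ℕ | 1 ≤ n ∧ n ≤ N ∧ η * Real.sqrt (Real.log r) < |∑ l ∈ range g, dd (n + b + l)|}.ncard : ℝ) ≤ η * N := by
  classical
  obtain ⟨η', hη'⟩ : ∃ η' : ℝ, η' = η / (2 * (g + 1)) := ⟨_, rfl⟩
  have hη'0 : 0 < η' := by rw [hη']; positivity
  obtain ⟨K, hK, hT⟩ := tight_dd η' hη'0
  have hs : Tendsto (fun k : ℕ => Real.sqrt (Real.log k)) atTop atTop :=
    Real.tendsto_sqrt_atTop.comp (Real.tendsto_log_atTop.comp tendsto_natCast_atTop_atTop)
  filter_upwards [(hs.const_mul_atTop hη).eventually_ge_atTop (g * K)] with r hr b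
  obtain ⟨N0, hN0⟩ := hT.exists_forall_of_atTop
  filter_upwards [eventually_ge_atTop N0, eventually_ge_atTop (b + g)] with N h1 h2
  have hsub : {n : ℕ | 1 ≤ n ∧ n ≤ N ∧ η * Real.sqrt (Real.log r) < |∑ l ∈ range g, dd (n + b + l)|} ⊆
      ⋃ l ∈ range g, {n : ℕ | 1 ≤ n ∧ n ≤ N ∧ K < |dd (n + (b + l))|} := by
    rintro n ⟨a, d, e⟩
    by_contra hcon
    simp only [Set.mem_iUnion, not_exists, Set.mem_ofPred_eq, not_and, not_lt] at hcon
    have h3 : |∑ l ∈ range g, dd (n + b + l)| ≤ g * K := by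
      refine (Finset.abs_sum_le_sum_abs _ _).trans ?_
      have h4 : ∑ l ∈ range g, |dd (n + b + l)| ≤ ∑ l ∈ range g, K :=
        Finset.sum_le_sum fun l hl => by
          have := hcon l hl a d
          rwa [← add_assoc] at this
      refine h4.trans (le_of_eq ?_)
      rw [Finset.sum_const, Finset.card_range, nsmul_eq_mul]
    linarith
  have hfin : (⋃ l ∈ range g, {n : ℕ | 1 ≤ n ∧ n ≤ N ∧ K < |dd (n + (b + l))|}).Finite :=
    (Finset.finite_toSet (Icc 1 N)).subset fun n hn => by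
      simp only [Set.mem_iUnion] at hn
      obtain ⟨l, -, hn⟩ := hn
      rw [Finset.mem_coe, Finset.mem_Icc]
      exact ⟨hn.1, hn.2.1⟩
  have h3 := Set.ncard_le_ncard hsub hfin
  have h4 : (⋃ l ∈ range g, {n : ℕ | 1 ≤ n ∧ n ≤ N ∧ K < |dd (n + (b + l))|}).ncard ≤
      ∑ l ∈ range g, {n : ℕ | 1 ≤ n ∧ n ≤ N ∧ K < |dd (n + (b + l))|}.ncard :=
    Finset.set_ncard_biUnion_le _ _
  have h5 : ({n : ℕ | 1 ≤ n ∧ n ≤ N ∧ η * Real.sqrt (Real.log r) < |∑ l ∈ range g, dd (n + b + l)|}.ncard : ℝ) ≤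
      ∑ l ∈ range g, ({n : ℕ | 1 ≤ n ∧ n ≤ N ∧ K < |dd (n + (b + l))|}.ncard : ℝ) := by
    exact_mod_cast h3.trans h4
  have hNp : (0 : ℝ) ≤ N := Nat.cast_nonneg _
  have h6 : ∀ l ∈ range g, ({n : ℕ | 1 ≤ n ∧ n ≤ N ∧ K < |dd (n + (b + l))|}.ncard : ℝ) ≤ η' * (2 * N) := by
    intro l hl
    rw [Finset.mem_range] at hl
    have h7 := (shift_le N (b + l) (fun n => K < |dd n|)).trans (hN0 (N + (b + l)) (by omega))
    refine h7.trans (mul_le_mul_of_nonneg_left ?_ hη'0.le)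
    have : ((N + (b + l) : ℕ) : ℝ) ≤ ((2 * N : ℕ) : ℝ) := by exact_mod_cast (by omega : N + (b + l) ≤ 2 * N)
    push_cast at this ⊢
    linarith
  refine h5.trans ((Finset.sum_le_sum h6).trans ?_)
  rw [Finset.sum_const, Finset.card_range, nsmul_eq_mul]
  have h7 : (g : ℝ) * (η' * (2 * N)) = η * N * (g / (g + 1)) := by
    rw [hη']; field_simp
  rw [h7]
  apply mul_le_of_le_one_right (by positivity)
  rw [div_le_one (by positivity)]
  linarith

lemma half : (multivariateGaussian 0 (Tri 2)).real {x : EuclideanSpace ℝ (Fin 2) | 0 < x 0} = 1 / 2 := by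
  obtain ⟨γ, hγ⟩ : ∃ γ : Measure (EuclideanSpace ℝ (Fin 2)), γ = multivariateGaussian 0 (Tri 2) := ⟨_, rfl⟩
  have hprob : IsProbabilityMeasure γ := by rw [hγ]; infer_instance
  have m1 : MeasurableSet {x : EuclideanSpace ℝ (Fin 2) | 0 < x 0} :=
    (isOpen_lt (f := fun _ => (0 : ℝ)) (g := fun x : EuclideanSpace ℝ (Fin 2) => x 0) continuous_const
      (by fun_prop)).measurableSet
  have m2 : MeasurableSet {x : EuclideanSpace ℝ (Fin 2) | x 0 < 0} :=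
    (isOpen_lt (g := fun _ => (0 : ℝ)) (f := fun x : EuclideanSpace ℝ (Fin 2) => x 0) (by fun_prop)
      continuous_const).measurableSet
  have h1 := inv_of !![-1, 0; 0, -1] (by
    rw [Tri2_eq]
    ext i j
    fin_cases i <;> fin_cases j <;> simp [Matrix.mul_apply, Fin.sum_univ_two]) _ m1
  rw [← hγ] at h1 ⊢
  have h2 : (Matrix.toEuclideanCLM (𝕜 := ℝ) !![-1, 0; 0, -1]) ⁻¹' {x : EuclideanSpace ℝ (Fin 2) | 0 < x 0} =
      {x : EuclideanSpace ℝ (Fin 2) | x 0 < 0} := by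
    ext x
    obtain ⟨e1, e2⟩ := D_apply (-1) 0 0 (-1) x
    rw [Set.mem_preimage, Set.mem_ofPred_eq, Set.mem_ofPred_eq, e1]
    constructor <;> intro h <;> linarith
  rw [h2] at h1
  have h3 : γ.real ({x : EuclideanSpace ℝ (Fin 2) | 0 < x 0} ∪ {x : EuclideanSpace ℝ (Fin 2) | x 0 < 0}) =
      γ.real {x : EuclideanSpace ℝ (Fin 2) | 0 < x 0} + γ.real {x : EuclideanSpace ℝ (Fin 2) | x 0 < 0} := by
    refine measureReal_union ?_ m2
    rw [Set.disjoint_left]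
    intro x hx hx'
    simp only [Set.mem_ofPred_eq] at hx hx'
    linarith
  have h4 : γ (({x : EuclideanSpace ℝ (Fin 2) | 0 < x 0} ∪ {x : EuclideanSpace ℝ (Fin 2) | x 0 < 0})ᶜ) = 0 := by
    refine measure_mono_null (t := {x | x 0 = 0}) ?_ (by rw [hγ]; exact null0)
    intro x hx
    rw [Set.mem_compl_iff, Set.mem_union, not_or] at hx
    obtain ⟨a, b⟩ := hx
    simp only [Set.mem_ofPred_eq, not_lt] at a b ⊢
    linarith
  have h5 := measureReal_compl (μ := γ) (m1.union m2)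
  rw [measureReal_def, h4, probReal_univ, h3] at h5
  simp only [ENNReal.toReal_zero] at h5
  linarith

theorem nonmix (g : ℕ) (ε : ℝ) (hε : 0 < ε) : ∀ᶠ r : ℕ in atTop, ∀ᶠ N : ℕ in atTop,
    |(1 / N : ℝ) * ({n : ℕ | 1 ≤ n ∧ n ≤ N ∧ ((r : ℝ) < ∑ l ∈ range r, dd (n + l) ∧
      (r : ℝ) < ∑ l ∈ range r, dd (n + (r + g) + l))}.ncard : ℝ) - 1 / 6| ≤ ε ∧
    |(1 / N : ℝ) * ({n : ℕ | 1 ≤ n ∧ n ≤ N ∧ (r : ℝ) < ∑ l ∈ range r, dd (n + l)}.ncard : ℝ) - 1 / 2| ≤ ε ∧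
    |(1 / N : ℝ) * ({n : ℕ | 1 ≤ n ∧ n ≤ N ∧ (r : ℝ) < ∑ l ∈ range r, dd (n + (r + g) + l)}.ncard : ℝ) -
      1 / 2| ≤ ε := by
  obtain ⟨γ, hγ⟩ : ∃ γ : Measure (EuclideanSpace ℝ (Fin 2)), γ = multivariateGaussian 0 (Tri 2) := ⟨_, rfl⟩
  have hprob : IsProbabilityMeasure γ := by rw [hγ]; infer_instance
  -- the strip
  have hstrip : ∃ n : ℕ, γ {x : EuclideanSpace ℝ (Fin 2) | |x 1| ≤ 1 / ((n : ℝ) + 1)} < ENNReal.ofReal (ε / 4) := by
    have h1 := tendsto_measure_iInter_atTop (μ := γ)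
      (s := fun n : ℕ => {x : EuclideanSpace ℝ (Fin 2) | |x 1| ≤ 1 / ((n : ℝ) + 1)})
      (fun n => (isClosed_le (f := fun x : EuclideanSpace ℝ (Fin 2) => |x 1|) (g := fun _ => 1 / ((n : ℝ) + 1))
        (by fun_prop) continuous_const).measurableSet.nullMeasurableSet)
      (fun a b hab x hx => by
        simp only [Set.mem_ofPred_eq] at hx ⊢
        refine hx.trans (one_div_le_one_div_of_le (by positivity) ?_)
        have : (a : ℝ) ≤ b := by exact_mod_cast hab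
        linarith)
      ⟨0, measure_ne_top _ _⟩
    have h3 : γ (⋂ n : ℕ, {x : EuclideanSpace ℝ (Fin 2) | |x 1| ≤ 1 / ((n : ℝ) + 1)}) = 0 := by
      refine measure_mono_null (t := {x | x 1 = 0}) ?_ (by rw [hγ]; exact null1)
      intro x hx
      simp only [Set.mem_ofPred_eq]
      by_contra hne
      obtain ⟨n, hn⟩ := exists_nat_one_div_lt (abs_pos.2 hne)
      have := Set.mem_iInter.1 hx n
      simp only [Set.mem_ofPred_eq] at this
      linarith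
    rw [h3] at h1
    exact (h1.eventually (gt_mem_nhds (show (0 : ENNReal) < ENNReal.ofReal (ε / 4) by
      rw [ENNReal.ofReal_pos]; positivity))).exists
  obtain ⟨n0, hn0⟩ := hstrip
  obtain ⟨c, hc⟩ : ∃ c : ℝ, c = 1 / ((n0 : ℝ) + 1) := ⟨_, rfl⟩
  have hc0 : 0 < c := by rw [hc]; positivity
  rw [← hc] at hn0
  have hst : γ.real {x : EuclideanSpace ℝ (Fin 2) | |x 1| ≤ c} ≤ ε / 4 := by
    rw [measureReal_def]
    refine (ENNReal.toReal_mono ENNReal.ofReal_ne_top hn0.le).trans (le_of_eq ?_)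
    exact ENNReal.toReal_ofReal (by positivity)
  -- the sets
  have hlin : ∀ i : Fin 2, IsLinearMap ℝ (fun x : EuclideanSpace ℝ (Fin 2) => x i) := fun i =>
    ⟨fun x y => rfl, fun a x => rfl⟩
  have hconv : ∀ a : ℝ, Convex ℝ {x : EuclideanSpace ℝ (Fin 2) | 0 < x 0 ∧ a < x 1} := fun a =>
    (convex_halfSpace_gt (hlin 0) 0).inter (convex_halfSpace_gt (hlin 1) a)
  have hq : γ.real {x : EuclideanSpace ℝ (Fin 2) | 0 < x 0 ∧ 0 < x 1} = 1 / 6 := by rw [hγ]; exact quad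
  have hup : γ.real {x : EuclideanSpace ℝ (Fin 2) | 0 < x 0 ∧ -c < x 1} ≤ 1 / 6 + ε / 4 := by
    refine (measureReal_mono (h₂ := measure_ne_top _ _) (s₂ := {x : EuclideanSpace ℝ (Fin 2) | 0 < x 0 ∧ 0 < x 1} ∪
      {x : EuclideanSpace ℝ (Fin 2) | |x 1| ≤ c}) ?_).trans ((measureReal_union_le _ _).trans (by linarith))
    rintro x ⟨a1, a2⟩
    by_cases a3 : 0 < x 1
    · exact Or.inl ⟨a1, a3⟩
    · right
      push Not at a3
      simp only [Set.mem_ofPred_eq, abs_le]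
      exact ⟨a2.le, by linarith⟩
  have hlow : 1 / 6 ≤ γ.real {x : EuclideanSpace ℝ (Fin 2) | 0 < x 0 ∧ c < x 1} + ε / 4 := by
    rw [← hq]
    refine (measureReal_mono (h₂ := measure_ne_top _ _) (s₂ := {x : EuclideanSpace ℝ (Fin 2) | 0 < x 0 ∧ c < x 1} ∪
      {x : EuclideanSpace ℝ (Fin 2) | |x 1| ≤ c}) ?_).trans ((measureReal_union_le _ _).trans (by linarith))
    rintro x ⟨a1, a2⟩
    by_cases a3 : c < x 1
    · exact Or.inl ⟨a1, a3⟩
    · right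
      push Not at a3
      simp only [Set.mem_ofPred_eq, abs_le]
      exact ⟨by linarith, a3⟩
  have hh : γ.real {x : EuclideanSpace ℝ (Fin 2) | 0 < x 0} = 1 / 2 := by rw [hγ]; exact half
  obtain ⟨η, hη⟩ : ∃ η : ℝ, η = min (ε / 8) (c / 2) := ⟨_, rfl⟩
  have hη0 : 0 < η := by rw [hη]; exact lt_min (by positivity) (by positivity)
  have hη1 : η ≤ ε / 8 := by rw [hη]; exact min_le_left _ _
  have hη2 : η ≤ c / 2 := by rw [hη]; exact min_le_right _ _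
  have hs : Tendsto (fun k : ℕ => Real.sqrt (Real.log k)) atTop atTop :=
    Real.tendsto_sqrt_atTop.comp (Real.tendsto_log_atTop.comp tendsto_natCast_atTop_atTop)
  filter_upwards [blocks 2 _ ((hconv (-c)).addHaar_frontier _) (ε / 4) (by positivity),
    blocks 2 _ ((hconv c).addHaar_frontier _) (ε / 4) (by positivity),
    blocks 2 _ ((convex_halfSpace_gt (hlin 0) 0).addHaar_frontier _) (ε / 4) (by positivity),
    small_sum g η hη0, hs.eventually_gt_atTop 0] with r hA hB hC hD hsr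
  have hNs : ∀ᶠ N : ℕ in atTop, ((r + g : ℕ) : ℝ) ≤ ε / 4 * N :=
    (tendsto_natCast_atTop_atTop.const_mul_atTop (show (0 : ℝ) < ε / 4 by positivity)).eventually_ge_atTop _
  obtain ⟨N1, hN1⟩ := hC.exists_forall_of_atTop
  filter_upwards [hA, hB, eventually_ge_atTop N1, hD (2 * r), hD r, hNs, eventually_ge_atTop 1]
    with N h1 h2 h3' h4 h5 h6 h7
  have h3 := hN1 N h3'
  have hN0 : (0 : ℝ) < N := by exact_mod_cast h7
  rw [← hγ] at h1 h2 h3
  obtain ⟨s, hsd⟩ : ∃ s : ℝ, s = Real.sqrt (Real.log r) := ⟨_, rfl⟩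
  rw [← hsd] at hsr h4 h5
  have hb0 : ∀ n, bl 2 r n 0 = (∑ l ∈ range r, dd (n + l) - r) / s := by
    intro n
    simp [bl, hsd]
  have hb1 : ∀ n, bl 2 r n 1 = (∑ l ∈ range r, dd (n + r + l) - r) / s := by
    intro n
    simp [bl, hsd]
  have hpos0 : ∀ n, 0 < bl 2 r n 0 ↔ (r : ℝ) < ∑ l ∈ range r, dd (n + l) := by
    intro n
    rw [hb0, lt_div_iff₀ hsr, zero_mul, sub_pos]
  -- the shift of the second block
  have hshift : ∀ n, ∑ l ∈ range r, dd (n + (r + g) + l) = ∑ l ∈ range r, dd (n + r + l) +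
      ∑ l ∈ range g, dd (n + 2 * r + l) - ∑ l ∈ range g, dd (n + r + l) := by
    intro n
    have e1 := Finset.sum_range_add (fun l => dd (n + r + l)) g r
    have e2 := Finset.sum_range_add (fun l => dd (n + r + l)) r g
    rw [add_comm g r, e2] at e1
    have e3 : ∑ l ∈ range r, dd (n + (r + g) + l) = ∑ l ∈ range r, dd (n + r + (g + l)) :=
      Finset.sum_congr rfl fun l _ => by congr 1; ring
    have e4 : ∑ l ∈ range g, dd (n + 2 * r + l) = ∑ l ∈ range g, dd (n + r + (r + l)) :=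
      Finset.sum_congr rfl fun l _ => by congr 1; ring
    rw [e3, e4]
    linarith
  refine ⟨?_, ?_, ?_⟩
  · -- the joint frequency
    have k1 := (ncard_le (N := N) (P := fun n => (r : ℝ) < ∑ l ∈ range r, dd (n + l) ∧
        (r : ℝ) < ∑ l ∈ range r, dd (n + (r + g) + l))
      (Q := fun n => 0 < bl 2 r n 0 ∧ -c < bl 2 r n 1)
      (R := fun n => η * s < |∑ l ∈ range g, dd (n + 2 * r + l)| ∨ η * s < |∑ l ∈ range g, dd (n + r + l)|)
      (by
        rintro n ⟨a1, a2⟩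
        by_cases a3 : η * s < |∑ l ∈ range g, dd (n + 2 * r + l)| ∨ η * s < |∑ l ∈ range g, dd (n + r + l)|
        · exact Or.inr a3
        · left
          push Not at a3
          obtain ⟨a3, a4⟩ := a3
          refine ⟨(hpos0 n).2 a1, ?_⟩
          rw [hb1, lt_div_iff₀ hsr]
          rw [hshift] at a2
          have b1 := (abs_le.1 a3).2
          have b2 := (abs_le.1 a4).1
          nlinarith)).trans (add_le_add le_rfl (ncard_le (N := N) fun n h => h))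
    have k2 := (ncard_le (N := N) (P := fun n => 0 < bl 2 r n 0 ∧ c < bl 2 r n 1)
      (Q := fun n => (r : ℝ) < ∑ l ∈ range r, dd (n + l) ∧
        (r : ℝ) < ∑ l ∈ range r, dd (n + (r + g) + l))
      (R := fun n => η * s < |∑ l ∈ range g, dd (n + 2 * r + l)| ∨ η * s < |∑ l ∈ range g, dd (n + r + l)|)
      (by
        rintro n ⟨a1, a2⟩
        by_cases a3 : η * s < |∑ l ∈ range g, dd (n + 2 * r + l)| ∨ η * s < |∑ l ∈ range g, dd (n + r + l)|
        · exact Or.inr a3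
        · left
          push Not at a3
          obtain ⟨a3, a4⟩ := a3
          refine ⟨(hpos0 n).1 a1, ?_⟩
          rw [hb1, lt_div_iff₀ hsr] at a2
          rw [hshift]
          have b1 := (abs_le.1 a3).1
          have b2 := (abs_le.1 a4).2
          nlinarith)).trans (add_le_add le_rfl (ncard_le (N := N) fun n h => h))
    beta_reduce at k1 k2
    have k3 := abs_le.1 h1
    have k4 := abs_le.1 h2
    rw [one_div, inv_mul_eq_div] at k3 k4 ⊢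
    have k5 : ({n : ℕ | 1 ≤ n ∧ n ≤ N ∧ (0 < bl 2 r n 0 ∧ -c < bl 2 r n 1)}.ncard : ℝ) ≤
        (1 / 6 + ε / 2) * N := by
      rw [← div_le_iff₀ hN0]
      linarith [k3.2]
    have k6 : (1 / 6 - ε / 2) * N ≤
        ({n : ℕ | 1 ≤ n ∧ n ≤ N ∧ (0 < bl 2 r n 0 ∧ c < bl 2 r n 1)}.ncard : ℝ) := by
      rw [← le_div_iff₀ hN0]
      linarith [k4.1]
    have k7 : η * (N : ℝ) ≤ ε / 8 * N := mul_le_mul_of_nonneg_right hη1 hN0.le
    have k8 : 0 ≤ ε * N := mul_nonneg hε.le hN0.le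
    rw [abs_le]
    constructor
    · rw [neg_le_sub_iff_le_add, ← sub_le_iff_le_add, le_div_iff₀ hN0]
      linarith
    · rw [sub_le_iff_le_add, div_le_iff₀ hN0]
      linarith
  · have k3 := abs_le.1 h3
    have e : {n : ℕ | 1 ≤ n ∧ n ≤ N ∧ 0 < bl 2 r n 0} =
        {n : ℕ | 1 ≤ n ∧ n ≤ N ∧ (r : ℝ) < ∑ l ∈ range r, dd (n + l)} := by
      ext n
      simp only [Set.mem_ofPred_eq, hpos0]
    rw [e, hh] at k3
    rw [abs_le]
    constructor <;> linarith [k3.1, k3.2]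
  · have e : ∀ M : ℕ, {n : ℕ | 1 ≤ n ∧ n ≤ M ∧ 0 < bl 2 r n 0} =
        {n : ℕ | 1 ≤ n ∧ n ≤ M ∧ (r : ℝ) < ∑ l ∈ range r, dd (n + l)} := by
      intro M
      ext n
      simp only [Set.mem_ofPred_eq, hpos0]
    have k3 := abs_le.1 h3
    have k8 := abs_le.1 (hN1 (N + (r + g)) (by omega))
    rw [← hγ, e, hh] at k8
    rw [e, hh] at k3
    have k4 := shift_le N (r + g) (fun n => (r : ℝ) < ∑ l ∈ range r, dd (n + l))
    have k5 := shift_ge N (r + g) (fun n => (r : ℝ) < ∑ l ∈ range r, dd (n + l))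
    rw [one_div, inv_mul_eq_div] at k3 k8 ⊢
    have hN0' : (0 : ℝ) < ((N + (r + g) : ℕ) : ℝ) := by exact_mod_cast (by omega : 0 < N + (r + g))
    have k6 : ({n : ℕ | 1 ≤ n ∧ n ≤ N + (r + g) ∧ (r : ℝ) < ∑ l ∈ range r, dd (n + l)}.ncard : ℝ) ≤
        (1 / 2 + ε / 4) * ((N + (r + g) : ℕ) : ℝ) := by
      rw [← div_le_iff₀ hN0']
      linarith [k8.2]
    have k7 : (1 / 2 - ε / 4) * N ≤
        ({n : ℕ | 1 ≤ n ∧ n ≤ N ∧ (r : ℝ) < ∑ l ∈ range r, dd (n + l)}.ncard : ℝ) := by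
      rw [← le_div_iff₀ hN0]
      linarith [k3.1]
    rw [Nat.cast_add] at k6
    have k9 : 0 ≤ ε * N := mul_nonneg hε.le hN0.le
    rw [abs_le]
    by_cases hε2 : ε ≤ 2
    · constructor
      · rw [neg_le_sub_iff_le_add, ← sub_le_iff_le_add, le_div_iff₀ hN0]
        linarith only [k5, k7, h6, k9]
      · rw [sub_le_iff_le_add, div_le_iff₀ hN0]
        have : (1 / 2 + ε / 4) * ((r + g : ℕ) : ℝ) ≤ 1 * ((r + g : ℕ) : ℝ) :=
          mul_le_mul_of_nonneg_right (by linarith) (Nat.cast_nonneg _)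
        linarith only [k4, k6, this, h6, k9]
    · push Not at hε2
      have hle : ({n : ℕ | 1 ≤ n ∧ n ≤ N ∧ (r : ℝ) < ∑ l ∈ range r, dd (n + (r + g) + l)}.ncard : ℝ) ≤ N := by
        have h8 : {n : ℕ | 1 ≤ n ∧ n ≤ N ∧ (r : ℝ) < ∑ l ∈ range r, dd (n + (r + g) + l)} ⊆
            ((Icc 1 N : Finset ℕ) : Set ℕ) := fun n hn => by
          rw [Finset.mem_coe, Finset.mem_Icc]; exact ⟨hn.1, hn.2.1⟩
        have h9 := Set.ncard_le_ncard h8 (Finset.finite_toSet _)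
        rw [Set.ncard_coe_finset, Nat.card_Icc, Nat.add_sub_cancel] at h9
        exact_mod_cast h9
      constructor
      · have : (0 : ℝ) ≤ ({n : ℕ | 1 ≤ n ∧ n ≤ N ∧ (r : ℝ) < ∑ l ∈ range r, dd (n + (r + g) + l)}.ncard : ℝ) / N := by
          positivity
        linarith
      · rw [sub_le_iff_le_add, div_le_iff₀ hN0]
        have : 2 * (N : ℝ) ≤ ε * N := mul_le_mul_of_nonneg_right hε2.le hN0.le
        linarith only [hle, this, hN0]

end Run7.h435.GL
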