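import Pool.Agent.Run7.h435.MDj

/-! # The law of one increment of the main part -/

set_option autoImplicit false

namespace Run7.h435.MD

open Filter Topology MeasureTheory Set Complex
open Pool.Agent.Y743.CL (Pr mem_Pr)

noncomputable section

/-- the increment of the main part -/
def Qn (δ L d T t : ℝ) : ℝ := Pm δ L T (t + 2 * Real.pi * d / Real.log T) - Pm δ L T t

/-- the covariance -/
def rr (δ L d : ℝ) : ℝ := rh (am δ L) (tm δ L 1) d 0

/-- the variance of the increment -/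
def vq (δ L d : ℝ) : ℝ := (1 - 2 * δ) * L - 2 * rr δ L d

lemma Pm_cont (δ L T : ℝ) : Continuous (Pm δ L T) := Yl_cont _ _ _ _

lemma Qn_cont (δ L d T : ℝ) : Continuous (Qn δ L d T) :=
  ((Pm_cont δ L T).comp (by fun_prop)).sub (Pm_cont δ L T)

lemma ue_one (δ L : ℝ) : ue (am δ L) (tm δ L 1) 1 = bm δ L := ue_top (K := 1) le_rfl

lemma lf_Q (δ L d T t u : ℝ) : lf (K := 1) (fun _ => 1) (fun _ => (u, -u)) (Wf 1 (am δ L) (tm δ L 1) d 0 T t) =
    u * Qn δ L d T t := by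
  unfold lf Wf Qn Pm
  rw [Fin.sum_univ_one]
  have e0 : ((0 : Fin 1) : ℕ) = 0 := rfl
  rw [e0, zero_add, ue_one, ue_zero]
  have e1 : t + 2 * Real.pi * 0 / Real.log T = t := by ring
  rw [e1]
  ring

lemma qf_Q (δ L d u : ℝ) : qf (K := 1) (tm δ L 1) (fun i : Fin 1 => rh (am δ L) (tm δ L 1) (d - 0) i) (fun _ => 1)
    (fun _ => (u, -u)) = vq δ L d * u ^ 2 := by
  unfold qf bq vq rr
  rw [Fin.sum_univ_one]
  beta_reduce
  have e0 : ((0 : Fin 1) : ℕ) = 0 := rfl
  rw [e0, sub_zero]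
  have e1 : tm δ L 1 = (1 - 2 * δ) * L / 2 := by unfold tm; norm_num
  rw [e1]
  ring

/-- **the characteristic function of the increment** -/
lemma char_Q {δ L d : ℝ} (hδ : 0 < δ) (hδ1 : δ < 1 / 2) (hL : 0 < L) (n : ℕ) (hn : 4 * n * bm δ L ≤ 1) (u η : ℝ)
    (hη : 0 < η) : ∀ᶠ T in atTop, ‖av T (fun t => cexp (I * ((u * Qn δ L d T t : ℝ) : ℂ))) -
      cexp ((-(vq δ L d * u ^ 2 / 2) : ℝ) : ℂ)‖ ≤ 2 * (vq δ L d * u ^ 2 / 2) ^ n / n.factorial + η := by
  have ha : 0 < am δ L := Real.exp_pos _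
  have hτ : 0 ≤ tm δ L 1 := by
    unfold tm
    have : 0 ≤ (1 - 2 * δ) * L := mul_nonneg (by linarith) hL.le
    positivity
  have hb : ue (am δ L) (tm δ L 1) 1 < 1 := by
    rw [ue_one]
    unfold bm
    rw [Real.exp_lt_one_iff]
    have : 0 < δ * L := by positivity
    linarith
  have h := char_lev (K := 1) ha hτ hb n (by rw [ue_one]; exact hn) d 0 (fun _ => 1) (fun _ => Or.inr rfl)
    (fun _ => (u, -u)) η hη
  rw [qf_Q] at h
  filter_upwards [h] with T hT
  simp only [lf_Q] at hT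
  exact hT

/-- **the mean of a bump** -/
theorem bump_Q {δ L d : ℝ} (hδ : 0 < δ) (hδ1 : δ < 1 / 2) (hL : 0 < L) (hv : 0 < vq δ L d) (n : ℕ)
    (hn : 4 * n * bm δ L ≤ 1) (x η : ℝ) (hη : 0 < η) : ∀ᶠ T : ℝ in atTop,
    |1 / T * (∫ t in T..(2 * T), Real.exp (-(Qn δ L d T t - x) ^ 2 / 2)) -
      1 / Real.sqrt (1 + vq δ L d) * Real.exp (-(x ^ 2 / (2 * (1 + vq δ L d))))| ≤
      2 * (1 / 4) ^ n + 4 * Real.exp (-(n / (48 * vq δ L d))) + η := by
  have h := transfer (K := 1) hv (fun _ => 0) (fun _ => 0) (fun _ => by rw [abs_zero]; exact hv.le)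
    (fun _ => Or.inl rfl) x n (fun T t _ => (Qn δ L d T t, 0)) (fun T => continuous_pi fun _ =>
      (Qn_cont δ L d T).prodMk continuous_const) (by
      intro ξ η' hη'
      have e1 : ∀ T t, lf (K := 1) (fun _ => 0) ξ (fun _ => (Qn δ L d T t, 0)) = (ξ 0).1 * Qn δ L d T t := by
        intro T t
        unfold lf
        rw [Fin.sum_univ_one]
        ring
      have e2 : qf (K := 1) (vq δ L d) (fun _ => 0) (fun _ => 0) ξ = vq δ L d * (ξ 0).1 ^ 2 := by
        unfold qf bq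
        rw [Fin.sum_univ_one]
        ring
      simp only [e1, e2]
      exact char_Q hδ hδ1 hL n hn (ξ 0).1 η' hη') η hη
  filter_upwards [h] with T hT
  have e3 : ∀ t, ∏ _i : Fin 1, bump x 0 (Qn δ L d T t, 0) = Real.exp (-(Qn δ L d T t - x) ^ 2 / 2) := by
    intro t
    rw [Fin.prod_univ_one]
    unfold bump
    simp
  have e4 : ∏ _i : Fin 1, bv (vq δ L d) 0 0 x = 1 / Real.sqrt (1 + vq δ L d) * Real.exp (-(x ^ 2 / (2 * (1 + vq δ L d)))) := by
    rw [Fin.prod_univ_one]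
    unfold bv
    rw [if_pos rfl]
  simp only [e3, e4] at hT
  refine hT.trans (le_of_eq ?_)
  norm_num

/-- the integral of a function which is small outside of a set -/
lemma int_le_PT {T κ : ℝ} (hT : 0 ≤ T) {f : ℝ → ℝ} (hf : Continuous f) {S : Set ℝ}
    (hS : MeasurableSet S) (hκ : 0 ≤ κ) (h1 : ∀ t, f t ≤ 1) (h2 : ∀ t, t ∉ S → f t ≤ κ) :
    ∫ t in T..(2 * T), f t ≤ PT T S + κ * T := by
  have hTT : T ≤ 2 * T := by linarith
  rw [intervalIntegral.integral_of_le hTT]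
  have hi1 : IntegrableOn f (Ioc T (2 * T)) := (intervalIntegrable_iff_integrableOn_Ioc_of_le hTT).1 (hf.intervalIntegrable _ _)
  have hi2 : IntegrableOn (fun t => S.indicator (fun _ => (1 : ℝ)) t) (Ioc T (2 * T)) :=
    Integrable.indicator (integrableOn_const (by simp)) hS
  have hi3 : IntegrableOn (fun _ : ℝ => κ) (Ioc T (2 * T)) := integrableOn_const (by simp)
  have h3 : ∫ t in Ioc T (2 * T), f t ≤ ∫ t in Ioc T (2 * T), (S.indicator (fun _ => (1 : ℝ)) t + κ) := by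
    refine integral_mono hi1 (hi2.add hi3) fun t => ?_
    by_cases ht : t ∈ S
    · have := h1 t
      simp only [indicator_of_mem ht]
      linarith
    · have := h2 t ht
      simp only [indicator_of_notMem ht]
      linarith
  refine h3.trans (le_of_eq ?_)
  rw [integral_add hi2 hi3]
  congr 1
  · rw [integral_indicator hS]
    unfold PT
    rw [Measure.restrict_restrict hS]
    rw [setIntegral_const, smul_eq_mul, mul_one, inter_comm]
    rfl
  · rw [setIntegral_const, smul_eq_mul, mul_comm]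
    congr 1
    rw [Measure.real, Real.volume_Ioc, ENNReal.toReal_ofReal (by linarith)]
    ring

lemma rr_le {δ L : ℝ} (hδ1 : δ < 1 / 2) (hL : 0 < L) (h1 : 1 ≤ δ * L) : |rr δ L (Real.exp L)| ≤ 1 / 2 := by
  have ha : 0 < am δ L := Real.exp_pos _
  have hτ : 0 ≤ tm δ L 1 := by
    unfold tm
    have : 0 ≤ (1 - 2 * δ) * L := mul_nonneg (by linarith) hL.le
    positivity
  have h := rh_decay ha hτ (d := Real.exp L) (Real.exp_pos _).ne' 0
  unfold rr
  refine h.trans ?_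
  rw [ue_zero, abs_of_pos (Real.exp_pos _)]
  unfold am
  rw [← Real.exp_add]
  have e : L + -((1 - δ) * L) = δ * L := by ring
  rw [e]
  apply one_div_le_one_div_of_le (by norm_num)
  have := Real.add_one_le_exp (δ * L)
  linarith

/-- **lower bound for the probabilities of the increment** -/
theorem inc_low {δ c η : ℝ} (hδ : 0 < δ) (hδ1 : δ ≤ 1 / 4) (hη : 0 < η) (hη1 : η ≤ 1) :
    ∀ᶠ m : ℕ in atTop, ∀ᶠ T : ℝ in atTop,
      Real.exp (-((c ^ 2 / (2 * (1 - 2 * δ)) + η) * Real.log m)) * T ≤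
        PT T {t | |Qn δ (Real.log m) m T t - c * Real.log m| ≤ η * Real.log m} := by
  obtain ⟨A, hA⟩ : ∃ A : ℝ, A = 96 * (c ^ 2 + 2) := ⟨_, rfl⟩
  have hc2 : 0 ≤ c ^ 2 := sq_nonneg c
  have hA0 : 0 < A := by rw [hA]; positivity
  have p1 := poly_exp (4 * (A + 1)) 2 hδ
  have p2 := poly_exp 2 1 (κ := η / 2) (by positivity)
  have hev := p1.and (p2.and ((eventually_ge_atTop (4 : ℝ)).and ((eventually_ge_atTop (1 / δ)).and
    ((eventually_ge_atTop (2 * (c ^ 2 + 2) / η ^ 2)).and (eventually_ge_atTop (16 / η))))))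
  filter_upwards [log_nat_atTop.eventually hev, eventually_ge_atTop 1] with m hm hm1
  obtain ⟨d1, d2, d3, d4, d5, d6⟩ := hm
  have hm0 : (0 : ℝ) < m := by exact_mod_cast hm1
  have hmL : (m : ℝ) = Real.exp (Real.log m) := (Real.exp_log hm0).symm
  rw [hmL, Real.log_exp]
  obtain ⟨L, hLd⟩ : ∃ L : ℝ, L = Real.log m := ⟨_, rfl⟩
  rw [← hLd] at d1 d2 d3 d4 d5 d6 ⊢
  rw [div_le_iff₀ hδ] at d4
  rw [div_le_iff₀ (by positivity)] at d5
  rw [div_le_iff₀ hη] at d6
  have hL0 : 0 < L := by linarith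
  have hrr := abs_le.1 (rr_le (by linarith) hL0 (by linarith : 1 ≤ δ * L))
  obtain ⟨v, hv⟩ : ∃ v : ℝ, v = vq δ L (Real.exp L) := ⟨_, rfl⟩
  have hv1 : (1 - 2 * δ) * L - 1 ≤ v := by rw [hv]; unfold vq; linarith [hrr.2]
  have hv2 : v ≤ (1 - 2 * δ) * L + 1 := by rw [hv]; unfold vq; linarith [hrr.1]
  have hδL : 1 / 2 * L ≤ (1 - 2 * δ) * L := mul_le_mul_of_nonneg_right (by linarith) hL0.le
  have hδL2 : (1 - 2 * δ) * L ≤ L := by
    have : 0 ≤ δ * L := by positivity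
    linarith
  have hv0 : 0 < v := by linarith
  obtain ⟨n, hn⟩ : ∃ n : ℕ, n = ⌈A * L ^ 2⌉₊ := ⟨_, rfl⟩
  have hn1 : A * L ^ 2 ≤ n := by rw [hn]; exact Nat.le_ceil _
  have hn2 : (n : ℝ) ≤ A * L ^ 2 + 1 := by rw [hn]; exact (Nat.ceil_lt_add_one (by positivity)).le
  have hnb : 4 * n * bm δ L ≤ 1 := by
    have h1 : 4 * (n : ℝ) ≤ Real.exp (δ * L) := by
      refine le_trans ?_ d1
      have h2 : L ^ 2 ≤ (1 + L) ^ 2 := by gcongr; linarith
      have h3 : 1 ≤ (1 + L) ^ 2 := by nlinarith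
      have h4 : A * L ^ 2 ≤ A * (1 + L) ^ 2 := mul_le_mul_of_nonneg_left h2 hA0.le
      linarith
    unfold bm
    calc 4 * n * Real.exp (-(δ * L)) ≤ Real.exp (δ * L) * Real.exp (-(δ * L)) := by gcongr
      _ = 1 := by rw [← Real.exp_add]; simp
  obtain ⟨E, hE⟩ : ∃ E : ℝ, E = Real.exp (-((c ^ 2 + 2) * L)) := ⟨_, rfl⟩
  have hE0 : 0 < E := by rw [hE]; exact Real.exp_pos _
  have hb := bump_Q (d := Real.exp L) hδ (by linarith) hL0 (by rw [← hv]; exact hv0) n hnb (c * L) E hE0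
  rw [← hv] at hb
  filter_upwards [hb, eventually_gt_atTop (0 : ℝ)] with T hT hT0
  -- the errors
  have g1 : 2 * (1 / 4 : ℝ) ^ n ≤ 2 * E := by
    have h1 : (1 / 4 : ℝ) ≤ Real.exp (-1) := by
      rw [Real.exp_neg, one_div]
      apply inv_anti₀ (Real.exp_pos _)
      linarith [Real.exp_one_lt_d9]
    have h2 : (1 / 4 : ℝ) ^ n ≤ Real.exp (-n) := by
      calc (1 / 4 : ℝ) ^ n ≤ Real.exp (-1) ^ n := pow_le_pow_left₀ (by norm_num) h1 n
        _ = Real.exp (-n) := by rw [← Real.exp_nat_mul]; congr 1; ring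
    have h3 : Real.exp (-(n : ℝ)) ≤ E := by
      rw [hE]
      apply Real.exp_le_exp.2
      have h4 : (c ^ 2 + 2) * L ≤ A * L ^ 2 := by
        rw [hA]
        have h5 : L ≤ L ^ 2 := by nlinarith
        have h6 : (c ^ 2 + 2) * L ≤ (c ^ 2 + 2) * L ^ 2 := mul_le_mul_of_nonneg_left h5 (by positivity)
        have h7 : 0 ≤ (c ^ 2 + 2) * L ^ 2 := by positivity
        linarith
      linarith
    linarith
  have g2 : 4 * Real.exp (-(n / (48 * v))) ≤ 4 * E := by
    have h1 : (c ^ 2 + 2) * L ≤ n / (48 * v) := by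
      rw [le_div_iff₀ (by positivity)]
      refine le_trans ?_ hn1
      have h2 : v ≤ 2 * L := by linarith
      calc (c ^ 2 + 2) * L * (48 * v) ≤ (c ^ 2 + 2) * L * (48 * (2 * L)) := by gcongr
        _ = A * L ^ 2 := by rw [hA]; ring
    rw [hE]
    have := Real.exp_le_exp.2 (by linarith : -((n : ℝ) / (48 * v)) ≤ -((c ^ 2 + 2) * L))
    linarith
  have g3 : Real.exp (-(η * L) ^ 2 / 2) ≤ E := by
    rw [hE]
    apply Real.exp_le_exp.2
    have h1 : 2 * (c ^ 2 + 2) * L ≤ L * η ^ 2 * L := mul_le_mul_of_nonneg_right d5 hL0.le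
    have h2 : (η * L) ^ 2 = L * η ^ 2 * L := by ring
    linarith
  -- the main term
  obtain ⟨B, hB⟩ : ∃ B : ℝ, B = c ^ 2 / (2 * (1 - 2 * δ)) := ⟨_, rfl⟩
  rw [← hB]
  have hB1 : B ≤ c ^ 2 := by
    rw [hB, div_le_iff₀ (by linarith)]
    have : c ^ 2 * 1 ≤ c ^ 2 * (2 * (1 - 2 * δ)) := mul_le_mul_of_nonneg_left (by linarith) hc2
    linarith
  have g4 : Real.exp (-((B + η / 2) * L)) ≤ 1 / Real.sqrt (1 + v) * Real.exp (-((c * L) ^ 2 / (2 * (1 + v)))) := by
    have h1 : (c * L) ^ 2 / (2 * (1 + v)) ≤ B * L := by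
      have h2 : (c * L) ^ 2 / (2 * (1 + v)) ≤ (c * L) ^ 2 / (2 * ((1 - 2 * δ) * L)) := by
        apply div_le_div_of_nonneg_left (sq_nonneg _) _ (by linarith)
        have : 0 < (1 - 2 * δ) * L := by linarith
        positivity
      have hδn : (1 - 2 * δ) ≠ 0 := by
        intro h
        linarith
      have e : (c * L) ^ 2 / (2 * ((1 - 2 * δ) * L)) = B * L := by
        rw [hB]
        field_simp
      linarith
    have h2 : Real.exp (-(η / 2 * L)) ≤ 1 / Real.sqrt (1 + v) := by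
      rw [Real.exp_neg, ← one_div]
      apply one_div_le_one_div_of_le (Real.sqrt_pos.2 (by linarith))
      refine le_trans ?_ d2
      rw [pow_one]
      have h3 : Real.sqrt (1 + v) ≤ 1 + v := by
        rw [Real.sqrt_le_left (by linarith)]
        nlinarith
      linarith
    calc Real.exp (-((B + η / 2) * L)) = Real.exp (-(η / 2 * L)) * Real.exp (-(B * L)) := by
          rw [← Real.exp_add]; congr 1; ring
      _ ≤ _ := by gcongr
  have g5 : 9 * Real.exp (-((B + η) * L)) ≤ Real.exp (-((B + η / 2) * L)) := by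
    have h1 : (9 : ℝ) ≤ Real.exp (η / 2 * L) := by
      have := Real.add_one_le_exp (η / 2 * L)
      linarith
    calc 9 * Real.exp (-((B + η) * L)) ≤ Real.exp (η / 2 * L) * Real.exp (-((B + η) * L)) := by gcongr
      _ = _ := by rw [← Real.exp_add]; congr 1; ring
  have g6 : 8 * E ≤ 8 * Real.exp (-((B + η) * L)) := by
    rw [hE]
    have : Real.exp (-((c ^ 2 + 2) * L)) ≤ Real.exp (-((B + η) * L)) := by
      apply Real.exp_le_exp.2
      have : (B + η) * L ≤ (c ^ 2 + 2) * L := mul_le_mul_of_nonneg_right (by linarith) hL0.le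
      linarith
    linarith
  have h1 := int_le_PT (T := T) (κ := Real.exp (-(η * L) ^ 2 / 2)) hT0.le
    (f := fun t => Real.exp (-(Qn δ L (Real.exp L) T t - c * L) ^ 2 / 2)) (by
      have := Qn_cont δ L (Real.exp L) T
      fun_prop) (S := {t | |Qn δ L (Real.exp L) T t - c * L| ≤ η * L})
    (measurableSet_le (((Qn_cont δ L (Real.exp L) T).sub continuous_const).abs.measurable) measurable_const)
    (Real.exp_pos _).le (fun t => by
      rw [Real.exp_le_one_iff]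
      have := sq_nonneg (Qn δ L (Real.exp L) T t - c * L)
      linarith) (fun t ht => by
      apply Real.exp_le_exp.2
      have ht' : ¬ |Qn δ L (Real.exp L) T t - c * L| ≤ η * L := ht
      push Not at ht'
      have h2 : (η * L) ^ 2 ≤ |Qn δ L (Real.exp L) T t - c * L| ^ 2 := pow_le_pow_left₀ (by positivity) ht'.le 2
      rw [sq_abs] at h2
      linarith)
  have h2 := (abs_le.1 hT).1
  obtain ⟨J, hJ⟩ : ∃ J : ℝ, J = ∫ t in T..(2 * T), Real.exp (-(Qn δ L (Real.exp L) T t - c * L) ^ 2 / 2) := ⟨_, rfl⟩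
  rw [← hJ] at h1 h2
  have h3 : Real.exp (-((B + η) * L)) + Real.exp (-(η * L) ^ 2 / 2) ≤ 1 / T * J := by linarith
  rw [one_div, inv_mul_eq_div, le_div_iff₀ hT0] at h3
  linarith

/-- **upper bound for the probabilities of the increment** -/
theorem inc_up {δ c η : ℝ} (hδ : 0 < δ) (hδ1 : δ < 1 / 2) (hc : 0 ≤ c) (hη : 0 < η) :
    ∀ᶠ m : ℕ in atTop, ∀ᶠ T : ℝ in atTop,
      PT T {t | c * Real.log m ≤ |Qn δ (Real.log m) m T t|} ≤
        Real.exp (-((c ^ 2 / 2 - η) * Real.log m)) * T := by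
  rcases hc.eq_or_lt with hc | hc
  · filter_upwards [eventually_ge_atTop 1] with m hm1
    filter_upwards [eventually_ge_atTop 0] with T hT
    have h1 := PT_Ioc T T (2 * T) (by linarith) (S := {t | c * Real.log m ≤ |Qn δ (Real.log m) m T t|}) (fun t ht _ => ht)
    have hl : 0 ≤ Real.log m := Real.log_nonneg (by exact_mod_cast hm1)
    have h2 : 1 ≤ Real.exp (-((c ^ 2 / 2 - η) * Real.log m)) := by
      apply Real.one_le_exp
      rw [← hc]
      have : 0 ≤ η * Real.log m := by positivity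
      linarith
    have h3 : 1 * T ≤ Real.exp (-((c ^ 2 / 2 - η) * Real.log m)) * T := mul_le_mul_of_nonneg_right h2 hT
    linarith
  have c1 := poly_exp (2 * Real.exp 4 * (c ^ 2 + 1)) 1 hη
  have c2 := poly_exp (4 * (c ^ 2 + 1)) 1 hδ
  have hev := c1.and (c2.and ((eventually_ge_atTop (1 : ℝ)).and ((eventually_ge_atTop (2 / c ^ 2)).and
    (eventually_ge_atTop (1 / δ)))))
  filter_upwards [log_nat_atTop.eventually hev, eventually_ge_atTop 1] with m hm hm1
  obtain ⟨d1, d2, d3, d4, d5⟩ := hm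
  have hm0 : (0 : ℝ) < m := by exact_mod_cast hm1
  have hmL : (m : ℝ) = Real.exp (Real.log m) := (Real.exp_log hm0).symm
  rw [hmL, Real.log_exp]
  obtain ⟨L, hLd⟩ : ∃ L : ℝ, L = Real.log m := ⟨_, rfl⟩
  rw [← hLd] at d1 d2 d3 d4 d5 ⊢
  rw [div_le_iff₀ hδ] at d5
  rw [div_le_iff₀ (by positivity)] at d4
  have hL0 : 0 < L := by linarith
  have hrr := abs_le.1 (rr_le (by linarith) hL0 (by linarith : 1 ≤ δ * L))
  obtain ⟨y, hyd⟩ : ∃ y : ℝ, y = c ^ 2 / 2 * L := ⟨_, rfl⟩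
  have hy1 : 1 ≤ y := by rw [hyd]; linarith
  obtain ⟨k, hkd⟩ : ∃ k : ℕ, k = ⌈y⌉₊ := ⟨_, rfl⟩
  have hk1 : y ≤ k := by rw [hkd]; exact Nat.le_ceil y
  have hk2 : (k : ℝ) ≤ y + 1 := by rw [hkd]; exact (Nat.ceil_lt_add_one (by linarith)).le
  have hyc : y + 1 ≤ (c ^ 2 + 1) * (1 + L) := by
    rw [hyd]
    nlinarith [sq_nonneg c]
  have hkb : 2 * k * bm δ L ≤ 1 / 2 := by
    have h1 : 4 * (k : ℝ) ≤ Real.exp (δ * L) := by
      refine le_trans ?_ d2
      rw [pow_one]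
      linarith
    unfold bm
    calc 2 * k * Real.exp (-(δ * L)) = (4 * k) * Real.exp (-(δ * L)) / 2 := by ring
      _ ≤ Real.exp (δ * L) * Real.exp (-(δ * L)) / 2 := by gcongr
      _ = 1 / 2 := by rw [← Real.exp_add]; simp
  have ha : 0 < am δ L := Real.exp_pos _
  have hτ : 0 ≤ tm δ L 1 := by
    unfold tm
    have : 0 ≤ (1 - 2 * δ) * L := mul_nonneg (by linarith) hL0.le
    positivity
  have hb : ue (am δ L) (tm δ L 1) 1 < 1 := by
    rw [ue_one]
    unfold bm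
    rw [Real.exp_lt_one_iff]
    linarith
  obtain ⟨d, hd⟩ : ∃ d : ℝ, d = Real.exp L := ⟨_, rfl⟩
  rw [← hd] at hrr ⊢
  -- the variance
  have hV : ∀ᶠ T : ℝ in atTop, VB (bt (K := 1) (am δ L) (tm δ L 1) d 0 (fun _ => 1) (fun _ => (1, -1)) T) (XX (bm δ L) T) ≤ 2 * L := by
    have h1 : Tendsto (fun T => ∑ i : Fin 1,
        ((((1 : ℝ)) ^ 2 + (1 * (-1 : ℝ)) ^ 2) * sm (fun v => Real.cos (2 * Real.pi * 0 * v)) (ue (am δ L) (tm δ L 1) i) (ue (am δ L) (tm δ L 1) (i + 1)) T +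
        2 * ((1 : ℝ) * (1 * (-1 : ℝ))) * sm (fun v => Real.cos (2 * Real.pi * (d - 0) * v)) (ue (am δ L) (tm δ L 1) i)
          (ue (am δ L) (tm δ L 1) (i + 1)) T)) atTop (𝓝 (∑ i : Fin 1,
        ((((1 : ℝ)) ^ 2 + (1 * (-1 : ℝ)) ^ 2) * cc (ue (am δ L) (tm δ L 1) i) (ue (am δ L) (tm δ L 1) (i + 1)) 0 +
        2 * ((1 : ℝ) * (1 * (-1 : ℝ))) * cc (ue (am δ L) (tm δ L 1) i) (ue (am δ L) (tm δ L 1) (i + 1)) (d - 0)))) := by
      refine tendsto_finsetSum _ fun i _ => ?_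
      have hi : ue (am δ L) (tm δ L 1) (i + 1) < 1 := lt_of_le_of_lt (ue_mono ha hτ (Nat.succ_le_of_lt i.2)) hb
      exact ((sm_cos (ue_pos ha _ i) (ue_mono ha hτ (Nat.le_succ i)) hi 0).const_mul _).add
        ((sm_cos (ue_pos ha _ i) (ue_mono ha hτ (Nat.le_succ i)) hi (d - 0)).const_mul _)
    have h2 : (∑ i : Fin 1,
        ((((1 : ℝ)) ^ 2 + (1 * (-1 : ℝ)) ^ 2) * cc (ue (am δ L) (tm δ L 1) i) (ue (am δ L) (tm δ L 1) (i + 1)) 0 +
        2 * ((1 : ℝ) * (1 * (-1 : ℝ))) * cc (ue (am δ L) (tm δ L 1) i) (ue (am δ L) (tm δ L 1) (i + 1)) (d - 0))) < 2 * L := by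
      rw [Fin.sum_univ_one]
      have e0 : ((0 : Fin 1) : ℕ) = 0 := rfl
      rw [e0, zero_add, sub_zero, cc_zero (ue_pos ha _ 0) (ue_mono ha hτ (Nat.zero_le 1))]
      have e1 : Real.log (ue (am δ L) (tm δ L 1) 1 / ue (am δ L) (tm δ L 1) 0) = (1 - 2 * δ) * L := by
        have := ue_ratio ha (τ := tm δ L 1) 0
        rw [zero_add] at this
        rw [this]
        unfold tm
        push_cast
        ring
      have e2 : cc (ue (am δ L) (tm δ L 1) 0) (ue (am δ L) (tm δ L 1) 1) d = 2 * rr δ L d := by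
        unfold rr rh
        rw [zero_add]
        ring
      rw [e1, e2]
      have := hrr.1
      linarith
    filter_upwards [h1.eventually_lt_const h2, eventually_gt_atTop (1 : ℝ)] with T h3 h4
    have h5 := VB_bt (K := 1) ha hτ hb.le d 0 (fun _ => 1) (fun _ => (1, -1)) h4
    rw [ue_one] at h5
    rw [h5]
    exact h3.le
  have hmom := mom_up (fun T => bt (K := 1) (am δ L) (tm δ L 1) d 0 (fun _ => 1) (fun _ => (1, -1)) T)
    (fun T => XX (bm δ L) T) (2 * L) hV (fun T => XX_pos _ T) k (by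
      filter_upwards [eventually_ge_atTop (1 : ℝ)] with T hT
      refine XX_pow (Real.exp_pos _).le (k + k) ?_ hT
      push_cast
      unfold bm at hkb
      linarith) (k.factorial * (2 * L) ^ k) (by positivity)
  filter_upwards [hmom, eventually_gt_atTop (0 : ℝ)] with T hT hT0
  obtain ⟨g, hg⟩ : ∃ g : ℝ → ℝ, g = fun t => ‖Gp (bt (K := 1) (am δ L) (tm δ L 1) d 0 (fun _ => 1) (fun _ => (1, -1)) T) (XX (bm δ L) T) t‖ ^ (2 * k) := ⟨_, rfl⟩
  have hgc : Continuous g := by rw [hg]; exact (Gp_cont _ _).norm.pow _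
  have hcL : 0 < c * L := by positivity
  have h1 := PT_markov hT0.le (f := g) (c := (c * L) ^ (2 * k)) (S := {t | c * L ≤ |Qn δ L d T t|})
    (hgc.intervalIntegrable _ _) (fun t => by rw [hg]; positivity) (by positivity) (by
      intro t _ ht
      have ht' : c * L ≤ |Qn δ L d T t| := ht
      have h2 : |Qn δ L d T t| ≤ ‖Gp (bt (K := 1) (am δ L) (tm δ L 1) d 0 (fun _ => 1) (fun _ => (1, -1)) T) (XX (bm δ L) T) t‖ := by
        have h3 := lf_Q δ L d T t 1
        rw [lf_eq, ue_one, one_mul] at h3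
        rw [← h3]
        exact Complex.abs_re_le_norm _
      rw [hg]
      exact pow_le_pow_left₀ hcL.le (ht'.trans h2) _)
  refine h1.trans ?_
  rw [hg]
  rw [div_le_iff₀ (by positivity)]
  refine hT.trans ?_
  have h3 := tail_le (by linarith : 0 < y) hk1 hk2
  have h4 : Real.exp (3 + 1 / y) ≤ Real.exp 4 := by
    apply Real.exp_le_exp.2
    have : 1 / y ≤ 1 := by rw [div_le_one (by linarith)]; exact hy1
    linarith
  have e2 : (k.factorial * (2 * L) ^ k + k.factorial * (2 * L) ^ k) * T = 2 * (k.factorial / y ^ k) * T * (c * L) ^ (2 * k) := by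
    have e3 : (c * L) ^ (2 * k) = y ^ k * (2 * L) ^ k := by
      rw [pow_mul, ← mul_pow]
      congr 1
      rw [hyd]
      ring
    rw [e3]
    field_simp
    ring
  rw [e2]
  apply mul_le_mul_of_nonneg_right _ (by positivity)
  apply mul_le_mul_of_nonneg_right _ hT0.le
  calc 2 * (k.factorial / y ^ k) ≤ 2 * (Real.exp (3 + 1 / y) * (y + 1) * Real.exp (-y)) := by gcongr
    _ ≤ 2 * (Real.exp 4 * ((c ^ 2 + 1) * (1 + L)) * Real.exp (-y)) := by gcongr
    _ = (2 * Real.exp 4 * (c ^ 2 + 1) * (1 + L) ^ 1) * Real.exp (-y) := by ring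
    _ ≤ Real.exp (η * L) * Real.exp (-y) := by gcongr
    _ = Real.exp (-((c ^ 2 / 2 - η) * L)) := by
        rw [← Real.exp_add, hyd]
        congr 1
        ring

end

end Run7.h435.MD
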