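import Pool.Agent.Run7.h435.MDr

/-! # The count and the main part of the prime sum -/

set_option autoImplicit false

namespace Run7.h435.MD

open Complex Filter Topology MeasureTheory Set
open Pool.Agent.TH850.UV
open H370.A2 (lamC)
open SP (RHs)
open SG (NZ)
open Pool.Agent.Y743.CL (Pr mem_Pr XK pp_sum kap_bd)
open Pool.Agent.R320.VQ (far_sum)

noncomputable section

lemma Gp_bj (a b T l h : ℝ) (X : ℕ) (t : ℝ) : Gp (bj a b T l h) X t =
    (Real.pi : ℂ) * Gp (kap l h) X t + (-I) * (Gp (lv a b T) X (t + h) - Gp (lv a b T) X t) := by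
  rw [Gp_shift]
  unfold Gp bj
  rw [Finset.mul_sum, ← Finset.sum_sub_distrib, Finset.mul_sum, ← Finset.sum_add_distrib]
  refine Finset.sum_congr rfl fun p _ => ?_
  ring

lemma negI_re (z : ℂ) : ((-I) * z).re = z.im := by
  simp

/-- **the prime side** -/
theorem prime_side {δ L lam : ℝ} {m k : ℕ} (hδ : 0 < δ) (hδ1 : δ < 1 / 2) (hL : 0 < L) (hm : 1 ≤ m)
    (hmL : (m : ℝ) = Real.exp L) (hlam : 16 ≤ lam) (hb1 : 2 * bm δ L ≤ 1 / lam)
    (hb2 : 2048 * (bm δ L / (1 / lam)) ^ 2 * L ≤ 1) (hk : 1 ≤ k) (hk4 : 4 * (k : ℝ) ≤ lam) (y : ℝ) (hy : 0 < y)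
    (ε : ℝ) (hε : 0 < ε) : ∀ᶠ T : ℝ in atTop,
    PT T {t | ∃ j ∈ Finset.Icc 1 m, y + 7 < |Real.pi * Db (Real.log T / lam) (2 * Real.pi * j / Real.log T) (XT T) t +
      (Pm δ L T (t + 2 * Real.pi * j / Real.log T) - Pm δ L T t)|} ≤
      (2 * m * (k * (8 * δ * L + 50) / y ^ 2) ^ k + ε) * T := by
  obtain ⟨V, hV⟩ : ∃ V : ℝ, V = 8 * δ * L + 50 := ⟨_, rfl⟩
  have hV0 : 0 < V := by rw [hV]; positivity
  have hlam0 : 0 < lam := by linarith
  have hm0 : (0 : ℝ) < m := by exact_mod_cast hm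
  have hk0 : (1 : ℝ) ≤ k := by exact_mod_cast hk
  have hκ0 : 0 < 1 / lam := by positivity
  have hκ8 : 1 / lam ≤ 1 / 8 := one_div_le_one_div_of_le (by norm_num) (by linarith)
  rw [← hV]
  obtain ⟨T0, hT0, hfar⟩ := far_sum (1 / lam) lam hκ0 (by rw [one_div_one_div])
  have hmom : ∀ᶠ T : ℝ in atTop, ∀ j ∈ Finset.Icc 1 m, ∫ t in T..(2 * T),
      ‖Gp (bj (am δ L) (bm δ L) T (Real.log T / lam) (2 * Real.pi * j / Real.log T)) (XX (1 / lam) T) t‖ ^ (2 * k) ≤
      (k.factorial * V ^ k + V ^ k) * T := by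
    rw [Filter.eventually_all_finset]
    intro j hj
    have hvb := VB_up (j := j) hδ hδ1 hL hm hmL (Finset.mem_Icc.1 hj).2 hlam hb1 hb2
    rw [← hV] at hvb
    exact mom_up (fun T => bj (am δ L) (bm δ L) T (Real.log T / lam) (2 * Real.pi * j / Real.log T))
      (fun T => XX (1 / lam) T) V hvb (fun T => XX_pos _ T) k (by
        filter_upwards [eventually_ge_atTop (1 : ℝ)] with T hT
        refine XX_pow hκ0.le (k + k) ?_ hT
        push_cast
        rw [mul_one_div, div_le_div_iff₀ hlam0 (by norm_num)]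
        linarith) (V ^ k) (by positivity)
  have hpp : ∀ᶠ T : ℝ in atTop, ∀ j ∈ Finset.Icc 1 m, ∫ t in T..(2 * T),
      PPf (1 / lam) (Real.log T / lam) (2 * Real.pi * j / Real.log T) T t ^ 2 ≤ ε / m * T := by
    rw [Filter.eventually_all_finset]
    intro j _
    exact PP_small hlam j _ (by positivity)
  filter_upwards [hmom, hpp, eventually_ge_atTop T0, eventually_gt_atTop (1 : ℝ)] with T h1 h2 h3 h4
  have hT0' : 0 < T := by linarith
  obtain ⟨l, hl⟩ : ∃ l : ℝ, l = Real.log T / lam := ⟨_, rfl⟩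
  rw [← hl] at h1 h2 ⊢
  have hbκ : bm δ L ≤ 1 / lam := by
    have : 0 < bm δ L := Real.exp_pos _
    linarith
  have hinc : ∀ t ∈ Ioc T (2 * T), t ∈ {t | ∃ j ∈ Finset.Icc 1 m, y + 7 < |Real.pi * Db l (2 * Real.pi * j / Real.log T) (XT T) t +
      (Pm δ L T (t + 2 * Real.pi * j / Real.log T) - Pm δ L T t)|} →
      t ∈ {t | ∃ j ∈ Finset.Icc 1 m, t ∈ {t | y ≤ ‖Gp (bj (am δ L) (bm δ L) T l (2 * Real.pi * j / Real.log T)) (XX (1 / lam) T) t‖}} ∪
      {t | ∃ j ∈ Finset.Icc 1 m, t ∈ {t | 1 ≤ |PPf (1 / lam) l (2 * Real.pi * j / Real.log T) T t|}} := by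
    rintro t ht ⟨j, hj, hjt⟩
    by_contra hcon
    simp only [Set.mem_union, Set.mem_ofPred_eq, not_or, not_exists, not_and, not_le] at hcon
    obtain ⟨n1, n2⟩ := hcon
    have a1 := n1 j hj
    have a2 := n2 j hj
    obtain ⟨h, hh⟩ : ∃ h : ℝ, h = 2 * Real.pi * j / Real.log T := ⟨_, rfl⟩
    have a3 := hfar T h3 h t
    rw [← hl] at a3
    rw [← hh] at a1 a2 hjt
    have e1 : Real.pi * Db l h (XT T) t + (Pm δ L T (t + h) - Pm δ L T t) =
        (Gp (bj (am δ L) (bm δ L) T l h) (XX (1 / lam) T) t).re + Real.pi * PPf (1 / lam) l h T t +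
        Real.pi * (∑ n ∈ Finset.Ioc (XK (1 / lam) T) (XT T), kap l h n * (n : ℂ) ^ (-(t : ℂ) * I)).re := by
      rw [Db_split hκ8 hκ0.le h4.le t, Gp_bj, Complex.add_re, Complex.re_ofReal_mul, negI_re, Complex.sub_im]
      unfold Pm Yl
      rw [Gp_range h4 hbκ, Gp_range h4 hbκ]
      ring
    rw [e1] at hjt
    have a4 : |(Gp (bj (am δ L) (bm δ L) T l h) (XX (1 / lam) T) t).re| < y := (Complex.abs_re_le_norm _).trans_lt a1
    have a5 : |(∑ n ∈ Finset.Ioc (XK (1 / lam) T) (XT T), kap l h n * (n : ℂ) ^ (-(t : ℂ) * I)).re| ≤ 1 :=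
      (Complex.abs_re_le_norm _).trans a3
    have a6 : |Real.pi * PPf (1 / lam) l h T t| ≤ 3.15 := by
      rw [abs_mul, abs_of_pos Real.pi_pos]
      nlinarith [Real.pi_lt_d2, Real.pi_pos, abs_nonneg (PPf (1 / lam) l h T t)]
    have a7 : |Real.pi * (∑ n ∈ Finset.Ioc (XK (1 / lam) T) (XT T), kap l h n * (n : ℂ) ^ (-(t : ℂ) * I)).re| ≤ 3.15 := by
      rw [abs_mul, abs_of_pos Real.pi_pos]
      nlinarith [Real.pi_lt_d2, Real.pi_pos, abs_nonneg (∑ n ∈ Finset.Ioc (XK (1 / lam) T) (XT T), kap l h n * (n : ℂ) ^ (-(t : ℂ) * I)).re]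
    have a8 := (abs_add_le ((Gp (bj (am δ L) (bm δ L) T l h) (XX (1 / lam) T) t).re + Real.pi * PPf (1 / lam) l h T t)
      (Real.pi * (∑ n ∈ Finset.Ioc (XK (1 / lam) T) (XT T), kap l h n * (n : ℂ) ^ (-(t : ℂ) * I)).re)).trans
      (add_le_add (abs_add_le _ _) le_rfl)
    linarith
  refine (PT_mono hinc).trans ((PT_union _ _ _).trans ((add_le_add (PT_biUnion _ _ _) (PT_biUnion _ _ _)).trans ?_))
  have p1 : ∀ j ∈ Finset.Icc 1 m, PT T {t | y ≤ ‖Gp (bj (am δ L) (bm δ L) T l (2 * Real.pi * j / Real.log T)) (XX (1 / lam) T) t‖} ≤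
      2 * (k * V / y ^ 2) ^ k * T := by
    intro j hj
    have hc : Continuous fun t => ‖Gp (bj (am δ L) (bm δ L) T l (2 * Real.pi * j / Real.log T)) (XX (1 / lam) T) t‖ ^ (2 * k) :=
      (Gp_cont _ _).norm.pow _
    have h5 := PT_markov hT0'.le (hc.intervalIntegrable _ _) (fun t => by positivity) (c := y ^ (2 * k)) (by positivity)
      (S := {t | y ≤ ‖Gp (bj (am δ L) (bm δ L) T l (2 * Real.pi * j / Real.log T)) (XX (1 / lam) T) t‖})
      (fun t _ ht => pow_le_pow_left₀ hy.le ht _)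
    refine h5.trans ?_
    rw [div_le_iff₀ (by positivity)]
    refine (h1 j hj).trans ?_
    have hf : (k.factorial : ℝ) ≤ (k : ℝ) ^ k := by exact_mod_cast Nat.factorial_le_pow k
    have hk1 : (1 : ℝ) ≤ (k : ℝ) ^ k := one_le_pow₀ hk0
    have e2 : 2 * (k * V / y ^ 2) ^ k * T * y ^ (2 * k) = 2 * ((k : ℝ) ^ k * V ^ k) * T := by
      rw [div_pow, mul_pow, ← pow_mul]
      field_simp
    rw [e2]
    have hVk : 0 < V ^ k := by positivity
    have : (k.factorial : ℝ) * V ^ k + V ^ k ≤ 2 * ((k : ℝ) ^ k * V ^ k) := by nlinarith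
    exact mul_le_mul_of_nonneg_right this hT0'.le
  have p2 : ∀ j ∈ Finset.Icc 1 m, PT T {t | 1 ≤ |PPf (1 / lam) l (2 * Real.pi * j / Real.log T) T t|} ≤ ε / m * T := by
    intro j hj
    have hc := PPf_cont (1 / lam) l (2 * Real.pi * j / Real.log T) T
    have h5 := PT_markov hT0'.le (f := fun t => PPf (1 / lam) l (2 * Real.pi * j / Real.log T) T t ^ 2)
      (Continuous.intervalIntegrable (by fun_prop) _ _) (fun t => by positivity) (c := 1) one_pos
      (S := {t | 1 ≤ |PPf (1 / lam) l (2 * Real.pi * j / Real.log T) T t|})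
      (fun t _ ht => by rw [← sq_abs]; exact one_le_pow₀ ht)
    rw [div_one] at h5
    exact h5.trans (h2 j hj)
  have p3 := Finset.sum_le_sum p1
  have p4 := Finset.sum_le_sum p2
  rw [Finset.sum_const, Nat.card_Icc, Nat.add_sub_cancel, nsmul_eq_mul] at p3 p4
  have e5 : (m : ℝ) * (ε / m * T) = ε * T := by field_simp
  rw [e5] at p4
  calc _ ≤ (m : ℝ) * (2 * (k * V / y ^ 2) ^ k * T) + ε * T := add_le_add p3 p4
    _ = _ := by ring

end

end Run7.h435.MD
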