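import Pool.Agent.X112.SD.Palm

/-! # The deviation at a random height -/

set_option autoImplicit false

namespace Run7.h435.MD

open Filter Topology MeasureTheory Set
open SP (RHs)
open SG (NZ)

noncomputable section

/-- the deviation of the count -/
def Dv (T t : ℝ) (j : ℕ) : ℝ := Real.pi * (((NZ (t + 2 * Real.pi * j / Real.log T) : ℝ) - NZ t) - j)

/-- the good heights -/
def GT (ε : ℝ) (m : ℕ) (T t : ℝ) : Prop :=
  (∀ j ∈ Finset.Icc 1 m, |Dv T t j| ≤ (1 + ε) * Real.log m) ∧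
  (∀ σ : ℝ, (σ = 1 ∨ σ = -1) → ∀ a : ℝ, 0 ≤ a → a ≤ 1 - ε → Real.exp ((1 - a ^ 2 - ε) * Real.log m) ≤
    (((Finset.Icc 1 m).filter (fun j : ℕ => a * Real.log m ≤ σ * Dv T t j)).card : ℝ)) ∧
  (∀ a : ℝ, 0 ≤ a → a ≤ 1 → (((Finset.Icc 1 m).filter (fun j : ℕ => a * Real.log m ≤ |Dv T t j|)).card : ℝ) ≤
    Real.exp ((1 - a ^ 2 + ε) * Real.log m))

end

end Run7.h435.MD
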