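import Pool.Agent.Run7.h435.LDa
import Pool.Agent.Run7.h435.LDs
import Pool.Agent.Run7.h435.MDta

/-! # The large deviations of the count: fixed multiples of the logarithm -/

set_option autoImplicit false

namespace Run7.h435.MD

open Filter Topology MeasureTheory Set
open SP (RHs)
open SG (NZ ord)

noncomputable section

/-- **upper bound** -/
theorem D_up (hRH : RHs) {c η : ℝ} (hc : 0 ≤ c) (hη : 0 < η) : ∀ᶠ m : ℕ in atTop, ∀ᶠ T : ℝ in atTop,
    PT T {t | c * Real.log m ≤ |Dv T t m|} ≤ Real.exp (-((c ^ 2 / 2 - η) * Real.log m)) * T := by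
  obtain ⟨η1, hη1⟩ : ∃ η1 : ℝ, η1 = η / (3 * (c + 1)) := ⟨_, rfl⟩
  have hη10 : 0 < η1 := by rw [hη1]; positivity
  have hcη : c * η1 ≤ η / 3 := by
    rw [hη1, mul_div_assoc']
    rw [div_le_div_iff₀ (by positivity) (by norm_num)]
    nlinarith
  obtain ⟨δ0, hδ0, hapx⟩ := apx_K hRH (η := η1) (K := c ^ 2 / 2) hη10 (by positivity)
  obtain ⟨δ, hδd⟩ : ∃ δ : ℝ, δ = min δ0 (1 / 2) / 2 := ⟨_, rfl⟩
  have hmin : 0 < min δ0 (1 / 2) := lt_min hδ0 (by norm_num)
  have hδ : 0 < δ := by rw [hδd]; positivity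
  have hδ1 : δ < δ0 := by
    rw [hδd]
    have := min_le_left δ0 (1 / 2)
    linarith
  have hδ2 : δ < 1 / 2 := by
    rw [hδd]
    have := min_le_right δ0 (1 / 2)
    linarith
  obtain ⟨c', hc'⟩ : ∃ c' : ℝ, c' = max 0 (c - η1) := ⟨_, rfl⟩
  have hc'0 : 0 ≤ c' := by rw [hc']; exact le_max_left _ _
  have hc'1 : c - η1 ≤ c' := by rw [hc']; exact le_max_right _ _
  have hc'2 : c ^ 2 / 2 - η / 3 ≤ c' ^ 2 / 2 := by
    rcases le_or_gt c η1 with h | h
    · have h1 : c ^ 2 ≤ c * η1 := by rw [sq]; exact mul_le_mul_of_nonneg_left h hc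
      have h2 := sq_nonneg c'
      linarith
    · have h1 : (c - η1) ^ 2 ≤ c' ^ 2 := pow_le_pow_left₀ (by linarith) hc'1 2
      have h2 := sq_nonneg η1
      nlinarith
  have hlog : ∀ᶠ m : ℕ in atTop, 2 ≤ Real.exp (η / 3 * Real.log m) ∧ 0 < Real.log m := by
    have h1 := log_nat_atTop.eventually ((poly_exp 2 0 (κ := η / 3) (by positivity)).and (eventually_gt_atTop 0))
    filter_upwards [h1] with m hm
    refine ⟨?_, hm.2⟩
    have := hm.1
    rwa [pow_zero, mul_one] at this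
  filter_upwards [hapx δ hδ hδ1 hδ2, inc_up hδ hδ2 hc'0 (η := η / 3) (by positivity), hlog, eventually_ge_atTop 1]
    with m h1 h2 h3 hm1
  filter_upwards [h1, h2, eventually_ge_atTop 0] with T g1 g2 hT0
  obtain ⟨h3, hL0⟩ := h3
  obtain ⟨L, hL⟩ : ∃ L : ℝ, L = Real.log m := ⟨_, rfl⟩
  rw [← hL] at g1 g2 h3 hL0 ⊢
  have hinc : ∀ t ∈ Ioc T (2 * T), t ∈ {t | c * L ≤ |Dv T t m|} → t ∈ {t | ∃ j ∈ Finset.Icc 1 m, η1 * L <
      |Real.pi * (((NZ (t + 2 * Real.pi * j / Real.log T) : ℝ) - NZ t) - j) -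
        (Pm δ L T (t + 2 * Real.pi * j / Real.log T) - Pm δ L T t)|} ∪ {t | c' * L ≤ |Qn δ L m T t|} := by
    intro t _ ht
    have ht' : c * L ≤ |Dv T t m| := ht
    by_contra hcon
    simp only [Set.mem_union, Set.mem_ofPred_eq, not_or, not_exists, not_and, not_lt, not_le] at hcon
    have a1 := hcon.1 m (Finset.mem_Icc.2 ⟨hm1, le_rfl⟩)
    have a2 := hcon.2
    have e : Real.pi * (((NZ (t + 2 * Real.pi * m / Real.log T) : ℝ) - NZ t) - m) -
        (Pm δ L T (t + 2 * Real.pi * m / Real.log T) - Pm δ L T t) = Dv T t m - Qn δ L m T t := rfl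
    rw [e] at a1
    have a3 := abs_sub_abs_le_abs_sub (Dv T t m) (Qn δ L m T t)
    have a4 : c' * L ≤ |Qn δ L m T t| := by
      rcases le_or_gt c η1 with h | h
      · have : c' = 0 := by rw [hc']; exact max_eq_left (by linarith)
        rw [this, zero_mul]
        exact abs_nonneg _
      · have : c' = c - η1 := by rw [hc']; exact max_eq_right (by linarith)
        rw [this]
        linarith
    linarith
  refine (PT_mono hinc).trans ((PT_union _ _ _).trans ((add_le_add g1 g2).trans ?_))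
  rw [← add_mul]
  apply mul_le_mul_of_nonneg_right _ hT0
  have b1 : Real.exp (-(c ^ 2 / 2 * L)) ≤ Real.exp (-((c ^ 2 / 2 - 2 * η / 3) * L)) := by
    apply Real.exp_le_exp.2
    have : 0 ≤ 2 * η / 3 * L := by positivity
    linarith
  have b2 : Real.exp (-((c' ^ 2 / 2 - η / 3) * L)) ≤ Real.exp (-((c ^ 2 / 2 - 2 * η / 3) * L)) := by
    apply Real.exp_le_exp.2
    have : (c ^ 2 / 2 - η / 3) * L ≤ c' ^ 2 / 2 * L := mul_le_mul_of_nonneg_right hc'2 hL0.le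
    linarith
  calc Real.exp (-(c ^ 2 / 2 * L)) + Real.exp (-((c' ^ 2 / 2 - η / 3) * L)) ≤ 2 * Real.exp (-((c ^ 2 / 2 - 2 * η / 3) * L)) := by linarith
    _ ≤ Real.exp (η / 3 * L) * Real.exp (-((c ^ 2 / 2 - 2 * η / 3) * L)) := by gcongr
    _ = _ := by rw [← Real.exp_add]; congr 1; ring

/-- **lower bound** -/
theorem D_low (hRH : RHs) (c : ℝ) {η : ℝ} (hη : 0 < η) : ∀ᶠ m : ℕ in atTop, ∀ᶠ T : ℝ in atTop,
    Real.exp (-((c ^ 2 / 2 + η) * Real.log m)) * T ≤ PT T {t | |Dv T t m - c * Real.log m| ≤ η * Real.log m} := by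
  obtain ⟨η1, hη1⟩ : ∃ η1 : ℝ, η1 = min 1 η / 4 := ⟨_, rfl⟩
  have hmin1 : 0 < min 1 η := lt_min one_pos hη
  have hη10 : 0 < η1 := by rw [hη1]; positivity
  have hη11 : η1 ≤ 1 / 4 := by rw [hη1]; have := min_le_left 1 η; linarith
  have hη12 : 4 * η1 ≤ η := by rw [hη1]; have := min_le_right 1 η; linarith
  have hc2 : 0 ≤ c ^ 2 := sq_nonneg c
  obtain ⟨δ0, hδ0, hapx⟩ := apx_K hRH (η := η1) (K := c ^ 2 / 2 + 2) hη10 (by positivity)
  obtain ⟨δ, hδd⟩ : ∃ δ : ℝ, δ = min (δ0 / 2) (min (1 / 4) (η1 / (2 * (c ^ 2 + 1)))) := ⟨_, rfl⟩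
  have hδ : 0 < δ := by rw [hδd]; exact lt_min (by positivity) (lt_min (by norm_num) (by positivity))
  have hδ1 : δ < δ0 := by
    have : δ ≤ δ0 / 2 := by rw [hδd]; exact min_le_left _ _
    linarith
  have hδ2 : δ ≤ 1 / 4 := by rw [hδd]; exact (min_le_right _ _).trans (min_le_left _ _)
  have hδ3 : 2 * δ * c ^ 2 ≤ η1 := by
    have h1 : δ ≤ η1 / (2 * (c ^ 2 + 1)) := by rw [hδd]; exact (min_le_right _ _).trans (min_le_right _ _)
    rw [le_div_iff₀ (by positivity)] at h1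
    nlinarith
  have hlog : ∀ᶠ m : ℕ in atTop, 2 ≤ Real.exp (η1 * Real.log m) ∧ 1 ≤ Real.log m := by
    have h1 := log_nat_atTop.eventually ((poly_exp 2 0 (κ := η1) (by positivity)).and (eventually_ge_atTop 1))
    filter_upwards [h1] with m hm
    refine ⟨?_, hm.2⟩
    have := hm.1
    rwa [pow_zero, mul_one] at this
  filter_upwards [hapx δ hδ hδ1 (by linarith), inc_low (c := c) hδ hδ2 (η := η1) hη10 (by linarith), hlog, eventually_ge_atTop 1]
    with m h1 h2 h3 hm1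
  filter_upwards [h1, h2, eventually_ge_atTop 0] with T g1 g2 hT0
  obtain ⟨h3, hL1⟩ := h3
  obtain ⟨L, hL⟩ : ∃ L : ℝ, L = Real.log m := ⟨_, rfl⟩
  rw [← hL] at g1 g2 h3 hL1 ⊢
  have hL0 : 0 < L := by linarith
  have hinc : ∀ t ∈ Ioc T (2 * T), t ∈ {t | |Qn δ L m T t - c * L| ≤ η1 * L} → t ∈ {t | |Dv T t m - c * L| ≤ η * L} ∪
      {t | ∃ j ∈ Finset.Icc 1 m, η1 * L <
      |Real.pi * (((NZ (t + 2 * Real.pi * j / Real.log T) : ℝ) - NZ t) - j) -
        (Pm δ L T (t + 2 * Real.pi * j / Real.log T) - Pm δ L T t)|} := by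
    intro t _ ht
    have ht' : |Qn δ L m T t - c * L| ≤ η1 * L := ht
    by_contra hcon
    simp only [Set.mem_union, Set.mem_ofPred_eq, not_or, not_exists, not_and, not_lt, not_le] at hcon
    have a1 := hcon.2 m (Finset.mem_Icc.2 ⟨hm1, le_rfl⟩)
    have a2 := hcon.1
    have e : Real.pi * (((NZ (t + 2 * Real.pi * m / Real.log T) : ℝ) - NZ t) - m) -
        (Pm δ L T (t + 2 * Real.pi * m / Real.log T) - Pm δ L T t) = Dv T t m - Qn δ L m T t := rfl
    rw [e] at a1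
    have a3 : |Dv T t m - c * L| ≤ 2 * η1 * L := by
      have b1 := abs_le.1 a1
      have b2 := abs_le.1 ht'
      rw [abs_le]
      constructor <;> linarith
    have a4 : 2 * η1 * L ≤ η * L := mul_le_mul_of_nonneg_right (by linarith) hL0.le
    linarith
  have h4 := (PT_mono hinc).trans (PT_union _ _ _)
  have h5 : Real.exp (-((c ^ 2 / (2 * (1 - 2 * δ)) + η1) * L)) * T ≤
      PT T {t | |Dv T t m - c * L| ≤ η * L} + Real.exp (-((c ^ 2 / 2 + 2) * L)) * T := by linarith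
  have b1 : Real.exp (-((c ^ 2 / 2 + 2 * η1) * L)) ≤ Real.exp (-((c ^ 2 / (2 * (1 - 2 * δ)) + η1) * L)) := by
    apply Real.exp_le_exp.2
    have h6 : c ^ 2 / (2 * (1 - 2 * δ)) ≤ c ^ 2 / 2 + η1 := by
      rw [div_le_iff₀ (by linarith)]
      have h7 : 0 ≤ c ^ 2 * (δ * (1 - 4 * δ)) := mul_nonneg hc2 (mul_nonneg hδ.le (by linarith))
      nlinarith
    have := mul_le_mul_of_nonneg_right h6 hL0.le
    linarith
  have b2 : 2 * Real.exp (-((c ^ 2 / 2 + 3 * η1) * L)) ≤ Real.exp (-((c ^ 2 / 2 + 2 * η1) * L)) := by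
    calc 2 * Real.exp (-((c ^ 2 / 2 + 3 * η1) * L)) ≤ Real.exp (η1 * L) * Real.exp (-((c ^ 2 / 2 + 3 * η1) * L)) := by gcongr
      _ = _ := by rw [← Real.exp_add]; congr 1; ring
  have b3 : Real.exp (-((c ^ 2 / 2 + 2) * L)) ≤ Real.exp (-((c ^ 2 / 2 + 3 * η1) * L)) := by
    apply Real.exp_le_exp.2
    have : (c ^ 2 / 2 + 3 * η1) * L ≤ (c ^ 2 / 2 + 2) * L := mul_le_mul_of_nonneg_right (by linarith) hL0.le
    linarith
  have b4 : Real.exp (-((c ^ 2 / 2 + η) * L)) ≤ Real.exp (-((c ^ 2 / 2 + 3 * η1) * L)) := by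
    apply Real.exp_le_exp.2
    have : (c ^ 2 / 2 + 3 * η1) * L ≤ (c ^ 2 / 2 + η) * L := mul_le_mul_of_nonneg_right (by linarith) hL0.le
    linarith
  have b5 : (Real.exp (-((c ^ 2 / 2 + η) * L)) + Real.exp (-((c ^ 2 / 2 + 2) * L))) * T ≤
      Real.exp (-((c ^ 2 / (2 * (1 - 2 * δ)) + η1) * L)) * T := mul_le_mul_of_nonneg_right (by linarith) hT0
  linarith

end

end Run7.h435.MD
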