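import Pool.Agent.Run7.h435.MDf

/-! # The number of high points of the prime sum: upper bound -/

set_option autoImplicit false

namespace Run7.h435.MD

open Filter Topology MeasureTheory Set Complex
open Pool.Agent.Y743.CL (Pr mem_Pr)

noncomputable section

lemma lv_sq (a b T : ℝ) {p : ℕ} (hp : p ≠ 0) (h : ℝ) : ‖lv a b T p * (p : ℂ) ^ (-(h : ℂ) * I)‖ ^ 2 =
    if a < Real.log p / Real.log T ∧ Real.log p / Real.log T ≤ b then 1 / (p : ℝ) else 0 := by
  have hp0 : (0 : ℝ) < p := by exact_mod_cast Nat.pos_of_ne_zero hp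
  rw [norm_mul, npow_norm hp, mul_one]
  unfold lv
  split_ifs
  · rw [Complex.norm_real, Real.norm_of_nonneg (by positivity), inv_pow, Real.sq_sqrt hp0.le, one_div]
  · simp

lemma VB_lv {a b T : ℝ} (hT : 1 < T) (hb : b ≤ 1) (h : ℝ) :
    VB (fun p => lv a b T p * (p : ℂ) ^ (-(h : ℂ) * I)) (XX b T) =
      sm (fun v => Real.cos (2 * Real.pi * 0 * v)) a b T := by
  unfold VB sm
  have h1 : ∑ p ∈ Pr (XX b T), ‖lv a b T p * (p : ℂ) ^ (-(h : ℂ) * I)‖ ^ 2 =
      ∑ p ∈ Pr (XX b T), (if a < Real.log p / Real.log T ∧ Real.log p / Real.log T ≤ b then 1 / (p : ℝ) else 0) :=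
    Finset.sum_congr rfl fun p hp => lv_sq a b T (mem_Pr.1 hp).1.ne_zero h
  rw [h1, sum_range_eq hT le_rfl hb (fun p => if a < Real.log p / Real.log T ∧ Real.log p / Real.log T ≤ b then 1 / (p : ℝ) else 0)
    (fun p hp => if_neg fun h => absurd h.2 (not_le.2 hp)), ← Finset.sum_filter]
  refine Finset.sum_congr rfl fun p _ => ?_
  show 1 / (p : ℝ) = Real.cos (2 * Real.pi * 0 * (Real.log p / Real.log T)) / p
  rw [mul_zero, zero_mul, Real.cos_zero]

/-- moments of the main part -/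
lemma Pm_mom {δ L : ℝ} (hδ : 0 < δ) (hδ1 : δ < 1 / 2) (hL : 0 < L) (k : ℕ) (hk : 2 * k * bm δ L ≤ 1 / 2) (j : ℕ)
    (η : ℝ) (hη : 0 < η) : ∀ᶠ T : ℝ in atTop, ∫ t in T..(2 * T),
      ‖Gp (lv (am δ L) (bm δ L) T) (XX (bm δ L) T) (t + 2 * Real.pi * j / Real.log T)‖ ^ (2 * k) ≤
      (k.factorial * L ^ k + η) * T := by
  have ha : 0 < am δ L := Real.exp_pos _
  have hab : am δ L ≤ bm δ L := by
    unfold am bm
    apply Real.exp_le_exp.2
    nlinarith
  have hb : bm δ L < 1 := by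
    unfold bm
    rw [Real.exp_lt_one_iff]
    have : 0 < δ * L := by positivity
    linarith
  have hlim := sm_cos ha hab hb 0
  rw [cc_zero ha hab] at hlim
  have hlog : Real.log (bm δ L / am δ L) = (1 - 2 * δ) * L := by
    unfold am bm
    rw [← Real.exp_sub, Real.log_exp]
    ring
  rw [hlog] at hlim
  have hV : ∀ᶠ T : ℝ in atTop, sm (fun v => Real.cos (2 * Real.pi * 0 * v)) (am δ L) (bm δ L) T ≤ L :=
    hlim.eventually_le_const (by nlinarith)
  have h := mom_up (fun T p => lv (am δ L) (bm δ L) T p * (p : ℂ) ^ (-((2 * Real.pi * j / Real.log T : ℝ) : ℂ) * I))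
    (fun T => XX (bm δ L) T) L (by
      filter_upwards [hV, eventually_gt_atTop (1 : ℝ)] with T h1 h2
      rw [VB_lv h2 hb.le]
      exact h1) (fun T => XX_pos _ T) k (by
      filter_upwards [eventually_ge_atTop (1 : ℝ)] with T hT
      refine XX_pow (Real.exp_pos _).le (k + k) ?_ hT
      push_cast
      unfold bm at hk
      linarith) η hη
  filter_upwards [h] with T hT
  simp_rw [Gp_shift]
  exact hT

/-- **upper bound for the number of high points** -/
theorem up_pt {δ α η : ℝ} (hδ : 0 < δ) (hδ1 : δ < 1 / 2) (hα : 0 ≤ α) (hη : 0 < η) :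
    ∀ᶠ m : ℕ in atTop, ∀ᶠ T : ℝ in atTop,
      PT T {t | Real.exp ((1 - α ^ 2 + η) * Real.log m) < (((Finset.Icc 1 m).filter (fun j : ℕ => α * Real.log m ≤
        |Pm δ (Real.log m) T (t + 2 * Real.pi * j / Real.log T)|)).card : ℝ)} ≤ η * T := by
  rcases hα.eq_or_lt with hα | hα
  · -- trivial case
    filter_upwards [eventually_ge_atTop 1] with m hm1
    filter_upwards [eventually_ge_atTop 0] with T hT
    have hm0 : (0 : ℝ) < m := by exact_mod_cast hm1
    have h1 : PT T {t | Real.exp ((1 - α ^ 2 + η) * Real.log m) < (((Finset.Icc 1 m).filter (fun j : ℕ => α * Real.log m ≤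
        |Pm δ (Real.log m) T (t + 2 * Real.pi * j / Real.log T)|)).card : ℝ)} ≤ PT T ∅ := by
      refine PT_mono fun t _ ht => ?_
      exfalso
      have ht' : Real.exp ((1 - α ^ 2 + η) * Real.log m) < (((Finset.Icc 1 m).filter (fun j : ℕ => α * Real.log m ≤
        |Pm δ (Real.log m) T (t + 2 * Real.pi * j / Real.log T)|)).card : ℝ) := ht
      have h2 : (((Finset.Icc 1 m).filter (fun j : ℕ => α * Real.log m ≤
        |Pm δ (Real.log m) T (t + 2 * Real.pi * j / Real.log T)|)).card : ℝ) ≤ m := by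
        have := Finset.card_filter_le (Finset.Icc 1 m) (fun j : ℕ => α * Real.log m ≤
          |Pm δ (Real.log m) T (t + 2 * Real.pi * j / Real.log T)|)
        rw [Nat.card_Icc, Nat.add_sub_cancel] at this
        exact_mod_cast this
      have h3 : (m : ℝ) ≤ Real.exp ((1 - α ^ 2 + η) * Real.log m) := by
        rw [← hα]
        have hl : 0 ≤ Real.log m := Real.log_nonneg (by exact_mod_cast hm1)
        calc (m : ℝ) = Real.exp (Real.log m) := (Real.exp_log hm0).symm
          _ ≤ _ := Real.exp_le_exp.2 (by nlinarith)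
      linarith
    refine h1.trans ?_
    simp only [PT, inter_empty, measure_empty, ENNReal.toReal_zero]
    positivity
  have c1 := poly_exp (2 * Real.exp 4 * (α ^ 2 + 1) / η) 1 hη
  have c2 := poly_exp (4 * (α ^ 2 + 1)) 1 hδ
  have hev := c1.and (c2.and ((eventually_ge_atTop (1 : ℝ)).and (eventually_ge_atTop (1 / α ^ 2))))
  filter_upwards [log_nat_atTop.eventually hev, eventually_ge_atTop 1] with m hm hm1
  obtain ⟨d1, d2, d3, d4⟩ := hm
  obtain ⟨L, hLd⟩ : ∃ L : ℝ, L = Real.log m := ⟨_, rfl⟩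
  rw [← hLd] at d1 d2 d3 d4 ⊢
  have hm0 : (0 : ℝ) < m := by exact_mod_cast hm1
  have hmL : (m : ℝ) = Real.exp L := by rw [hLd, Real.exp_log hm0]
  have hL0 : 0 < L := by linarith
  obtain ⟨y, hyd⟩ : ∃ y : ℝ, y = α ^ 2 * L := ⟨_, rfl⟩
  have hy1 : 1 ≤ y := by
    rw [hyd]
    rw [div_le_iff₀ (by positivity)] at d4
    linarith
  obtain ⟨k, hkd⟩ : ∃ k : ℕ, k = ⌈y⌉₊ := ⟨_, rfl⟩
  have hk1 : y ≤ k := by rw [hkd]; exact Nat.le_ceil y
  have hk2 : (k : ℝ) ≤ y + 1 := by rw [hkd]; exact (Nat.ceil_lt_add_one (by linarith)).le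
  have hkb : 2 * k * bm δ L ≤ 1 / 2 := by
    have h1 : 4 * (k : ℝ) ≤ Real.exp (δ * L) := by
      refine le_trans ?_ d2
      rw [pow_one]
      have : (k : ℝ) ≤ (α ^ 2 + 1) * (1 + L) := by
        rw [hyd] at hk2
        nlinarith [sq_nonneg α]
      linarith
    unfold bm
    calc 2 * k * Real.exp (-(δ * L)) = (4 * k) * Real.exp (-(δ * L)) / 2 := by ring
      _ ≤ Real.exp (δ * L) * Real.exp (-(δ * L)) / 2 := by gcongr
      _ = 1 / 2 := by rw [← Real.exp_add]; simp
  have hkf : (0 : ℝ) < k.factorial * L ^ k := by positivity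
  have hmom : ∀ᶠ T : ℝ in atTop, ∀ j ∈ Finset.Icc 1 m, ∫ t in T..(2 * T),
      ‖Gp (lv (am δ L) (bm δ L) T) (XX (bm δ L) T) (t + 2 * Real.pi * j / Real.log T)‖ ^ (2 * k) ≤
      (k.factorial * L ^ k + k.factorial * L ^ k) * T := by
    rw [Filter.eventually_all_finset]
    intro j _
    exact Pm_mom hδ hδ1 hL0 k hkb j _ hkf
  filter_upwards [hmom, eventually_ge_atTop 0] with T hT hT0
  obtain ⟨g, hg⟩ : ∃ g : ℕ → ℝ → ℝ, g = fun (j : ℕ) (t : ℝ) => ‖Gp (lv (am δ L) (bm δ L) T) (XX (bm δ L) T)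
      (t + 2 * Real.pi * j / Real.log T)‖ ^ (2 * k) / (α * L) ^ (2 * k) := ⟨_, rfl⟩
  have hgc : ∀ j, Continuous (g j) := by
    intro j
    rw [hg]
    have h1 : Continuous fun t : ℝ => Gp (lv (am δ L) (bm δ L) T) (XX (bm δ L) T) (t + 2 * Real.pi * j / Real.log T) :=
      (Gp_cont _ _).comp (by fun_prop)
    exact (h1.norm.pow _).div_const _
  have hg0 : ∀ j t, 0 ≤ g j t := by
    intro j t
    rw [hg]
    positivity
  have hαL : 0 < α * L := by positivity
  have h1 := PT_markov hT0 (f := fun t => ∑ j ∈ Finset.Icc 1 m, g j t)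
    (c := Real.exp ((1 - α ^ 2 + η) * L)) (S := {t | Real.exp ((1 - α ^ 2 + η) * L) <
      (((Finset.Icc 1 m).filter (fun j : ℕ => α * L ≤
        |Pm δ L T (t + 2 * Real.pi * j / Real.log T)|)).card : ℝ)})
    ((continuous_finsetSum _ fun j _ => hgc j).intervalIntegrable _ _)
    (fun t => Finset.sum_nonneg fun j _ => hg0 j t) (Real.exp_pos _) (by
      intro t _ ht
      have ht' : Real.exp ((1 - α ^ 2 + η) * L) < (((Finset.Icc 1 m).filter (fun j : ℕ => α * L ≤
        |Pm δ L T (t + 2 * Real.pi * j / Real.log T)|)).card : ℝ) := ht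
      refine ht'.le.trans ?_
      have h2 : (((Finset.Icc 1 m).filter (fun j : ℕ => α * L ≤
        |Pm δ L T (t + 2 * Real.pi * j / Real.log T)|)).card : ℝ) = ∑ j ∈ (Finset.Icc 1 m).filter (fun j : ℕ => α * L ≤
        |Pm δ L T (t + 2 * Real.pi * j / Real.log T)|), (1 : ℝ) := by simp
      rw [h2]
      refine le_trans (Finset.sum_le_sum (g := fun j => g j t) fun j hj => ?_)
        (Finset.sum_le_sum_of_subset_of_nonneg (Finset.filter_subset _ _) fun j _ _ => hg0 j t)
      have h3 := (Finset.mem_filter.1 hj).2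
      have h4 : |Pm δ L T (t + 2 * Real.pi * j / Real.log T)| ≤
          ‖Gp (lv (am δ L) (bm δ L) T) (XX (bm δ L) T) (t + 2 * Real.pi * j / Real.log T)‖ :=
        Complex.abs_im_le_norm _
      rw [hg]
      rw [le_div_iff₀ (by positivity), one_mul]
      exact pow_le_pow_left₀ hαL.le (h3.trans h4) _)
  refine h1.trans ?_
  rw [intervalIntegral.integral_finsetSum (fun j _ => (hgc j).intervalIntegrable _ _), div_le_iff₀ (Real.exp_pos _)]
  have h2 : ∀ j ∈ Finset.Icc 1 m, ∫ t in T..(2 * T), g j t ≤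
      2 * (Real.exp 4 * (y + 1) * Real.exp (-y)) * T := by
    intro j hj
    have e1 : ∫ t in T..(2 * T), g j t = (∫ t in T..(2 * T),
      ‖Gp (lv (am δ L) (bm δ L) T) (XX (bm δ L) T) (t + 2 * Real.pi * j / Real.log T)‖ ^ (2 * k)) / (α * L) ^ (2 * k) := by
      rw [hg, intervalIntegral.integral_div]
    rw [e1]
    have h3 := tail_le (by linarith : 0 < y) hk1 hk2
    have h4 : Real.exp (3 + 1 / y) ≤ Real.exp 4 := by
      apply Real.exp_le_exp.2
      have : 1 / y ≤ 1 := by rw [div_le_one (by linarith)]; exact hy1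
      linarith
    have e2 : (k.factorial * L ^ k + k.factorial * L ^ k) * T / (α * L) ^ (2 * k) = 2 * (k.factorial / y ^ k) * T := by
      rw [hyd, mul_pow (α ^ 2) L k, ← pow_mul, mul_pow α L (2 * k), pow_mul L 2 k]
      have : (L ^ 2) ^ k = L ^ k * L ^ k := by rw [← pow_mul, ← pow_add]; congr 1; ring
      rw [this]
      field_simp
      ring
    calc _ ≤ (k.factorial * L ^ k + k.factorial * L ^ k) * T / (α * L) ^ (2 * k) := by
          gcongr
          exact hT j hj
      _ = 2 * (k.factorial / y ^ k) * T := e2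
      _ ≤ 2 * (Real.exp (3 + 1 / y) * (y + 1) * Real.exp (-y)) * T := by gcongr
      _ ≤ _ := by gcongr
  refine (Finset.sum_le_sum h2).trans ?_
  rw [Finset.sum_const, Nat.card_Icc, Nat.add_sub_cancel, nsmul_eq_mul, hmL]
  have h3 : y + 1 ≤ (α ^ 2 + 1) * (1 + L) := by
    rw [hyd]
    nlinarith [sq_nonneg α]
  have h4 : 2 * Real.exp 4 * (α ^ 2 + 1) * (1 + L) ≤ η * Real.exp (η * L) := by
    calc 2 * Real.exp 4 * (α ^ 2 + 1) * (1 + L) = η * (2 * Real.exp 4 * (α ^ 2 + 1) / η * (1 + L) ^ 1) := by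
          field_simp
      _ ≤ _ := by gcongr
  calc Real.exp L * (2 * (Real.exp 4 * (y + 1) * Real.exp (-y)) * T) ≤
      Real.exp L * (2 * (Real.exp 4 * ((α ^ 2 + 1) * (1 + L)) * Real.exp (-y)) * T) := by gcongr
    _ = (2 * Real.exp 4 * (α ^ 2 + 1) * (1 + L)) * (Real.exp L * Real.exp (-y)) * T := by ring
    _ ≤ (η * Real.exp (η * L)) * (Real.exp L * Real.exp (-y)) * T := by gcongr
    _ = η * T * (Real.exp (η * L) * (Real.exp L * Real.exp (-y))) := by ring
    _ = η * T * Real.exp ((1 - α ^ 2 + η) * L) := by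
        rw [← Real.exp_add, ← Real.exp_add, hyd]
        congr 2
        ring

end

end Run7.h435.MD
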