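import Pool.Agent.Run7.h435.MDo
import Pool.Agent.Run7.h435.MDs
import Pool.Agent.Run7.h435.MDl
import Pool.Agent.Run7.h435.MDta

/-! # The tails of the count beyond the logarithmic scale -/

set_option autoImplicit false

namespace Run7.h435.MD

open Complex Filter Topology MeasureTheory Set
open Pool.Agent.TH850.UV
open H370.A2 (lamC)
open SP (RHs)
open SG (NZ)
open Pool.Agent.Y743.CL (Pr mem_Pr XK pp_sum kap_bd)
open Pool.Agent.R320.VQ (far_sum)

noncomputable section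

/-- the tails of the main part -/
lemma Pm_tail {δ L y : ℝ} (hδ : 0 < δ) (hδ1 : δ < 1 / 2) (hL : 0 < L) {k : ℕ} (hk1 : 1 ≤ k) (hk : 2 * k * bm δ L ≤ 1 / 2)
    (hy : 0 < y) (j : ℕ) : ∀ᶠ T : ℝ in atTop,
    PT T {t | y ≤ |Pm δ L T (t + 2 * Real.pi * j / Real.log T)|} ≤ 2 * (k * L / y ^ 2) ^ k * T := by
  have hk0 : (0 : ℝ) < k := by exact_mod_cast hk1
  filter_upwards [Pm_mom hδ hδ1 hL k hk j ((k : ℝ) ^ k * L ^ k) (by positivity), eventually_ge_atTop (0 : ℝ)] with T h1 hT0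
  have hc : Continuous fun t : ℝ => ‖Gp (lv (am δ L) (bm δ L) T) (XX (bm δ L) T) (t + 2 * Real.pi * j / Real.log T)‖ ^ (2 * k) := by
    have h1 : Continuous fun t : ℝ => Gp (lv (am δ L) (bm δ L) T) (XX (bm δ L) T) (t + 2 * Real.pi * j / Real.log T) :=
      (Gp_cont _ _).comp (by fun_prop)
    exact h1.norm.pow _
  have h2 := PT_markov hT0 (hc.intervalIntegrable _ _) (fun t => by positivity) (c := y ^ (2 * k)) (by positivity)
    (S := {t | y ≤ |Pm δ L T (t + 2 * Real.pi * j / Real.log T)|}) (fun t _ ht => by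
      have ht' : y ≤ |Pm δ L T (t + 2 * Real.pi * j / Real.log T)| := ht
      exact pow_le_pow_left₀ hy.le (ht'.trans (Complex.abs_im_le_norm _)) _)
  refine h2.trans ?_
  rw [div_le_iff₀ (by positivity)]
  refine h1.trans ?_
  have hf : (k.factorial : ℝ) ≤ (k : ℝ) ^ k := by exact_mod_cast Nat.factorial_le_pow k
  have e2 : 2 * (k * L / y ^ 2) ^ k * T * y ^ (2 * k) = 2 * ((k : ℝ) ^ k * L ^ k) * T := by
    rw [div_pow, mul_pow, ← pow_mul]
    field_simp
  rw [e2]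
  have hLk : 0 < L ^ k := by positivity
  have : (k.factorial : ℝ) * L ^ k + (k : ℝ) ^ k * L ^ k ≤ 2 * ((k : ℝ) ^ k * L ^ k) := by nlinarith
  exact mul_le_mul_of_nonneg_right this hT0

/-- a small base gives an exponential bound -/
lemma base_pow {x A y c S : ℝ} {k : ℕ} (hx0 : 0 ≤ x) (hx : x ≤ Real.exp (-A)) (hk : c * y ≤ k)
    (hA : 0 ≤ A) (hAc : c * A = S) : x ^ k ≤ Real.exp (-(S * y)) := by
  calc x ^ k ≤ Real.exp (-A) ^ k := pow_le_pow_left₀ hx0 hx _
    _ = Real.exp (-(k * A)) := by rw [← Real.exp_nat_mul]; congr 1; ring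
    _ ≤ Real.exp (-(S * y)) := by
        apply Real.exp_le_exp.2
        have h1 : c * y * A ≤ k * A := mul_le_mul_of_nonneg_right hk hA
        have h2 : S * y = c * y * A := by rw [← hAc]; ring
        linarith

/-- **the tails beyond the logarithmic scale** -/
theorem tail_D (hRH : RHs) {s : ℝ} (hs : 0 < s) : ∃ C Y0 : ℝ, 1 ≤ C ∧ ∀ y : ℝ, Y0 ≤ y → ∀ m : ℕ, 1 ≤ m →
    Real.log m ≤ y / C → ∀ᶠ T : ℝ in atTop, PT T {t | y ≤ |Dv T t m|} ≤ Real.exp (-(s * y)) * T := by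
  obtain ⟨C0, hC0, hz⟩ := zero_side hRH
  have hpi := Real.pi_pos
  have hpi4 : Real.pi < 3.15 := Real.pi_lt_d2
  obtain ⟨c1, hc1⟩ : ∃ c1 : ℝ, c1 = 1 / (16 * C0) := ⟨_, rfl⟩
  have hc10 : 0 < c1 := by rw [hc1]; positivity
  have hc1C : 16 * C0 * c1 = 1 := by rw [hc1]; field_simp
  obtain ⟨c2, hc2⟩ : ∃ c2 : ℝ, c2 = c1 / 112 := ⟨_, rfl⟩
  have hc20 : 0 < c2 := by rw [hc2]; positivity
  obtain ⟨A1, hA1⟩ : ∃ A1 : ℝ, A1 = (s + 4) / (c1 / 2) := ⟨_, rfl⟩
  have hA10 : 0 < A1 := by rw [hA1]; positivity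
  obtain ⟨A2, hA2⟩ : ∃ A2 : ℝ, A2 = (s + 4) / c2 := ⟨_, rfl⟩
  have hA20 : 0 < A2 := by rw [hA2]; positivity
  obtain ⟨C1, hC1⟩ : ∃ C1 : ℝ, C1 = max 1 (192 * c1 * Real.exp A2) := ⟨_, rfl⟩
  have hC11 : 1 ≤ C1 := by rw [hC1]; exact le_max_left _ _
  have hC12 : 192 * c1 * Real.exp A2 ≤ C1 := by rw [hC1]; exact le_max_right _ _
  have hC10 : 0 < C1 := by linarith
  have q1 := poly_exp (6 * c1) 1 (κ := 1 / (4 * C1)) (by positivity)
  have q2 := poly_exp (6144 * c1 ^ 2) 3 (κ := 1 / (2 * C1)) (by positivity)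
  have hev := q1.and (q2.and ((eventually_ge_atTop (228 / c1)).and ((eventually_ge_atTop (2 * C0 * Real.exp A1 / c1)).and
    ((eventually_ge_atTop (50 * C1)).and (eventually_ge_atTop (100 : ℝ))))))
  obtain ⟨Y0, hY0⟩ := hev.exists_forall_of_atTop
  refine ⟨C1, Y0, hC11, fun y hy m hm hml => ?_⟩
  obtain ⟨d1, d2, d3, d4, d5, d6⟩ := hY0 y hy
  rw [div_le_iff₀ hc10] at d3 d4
  have hy0 : 0 < y := by linarith
  have hyC : 50 ≤ y / C1 := by rw [le_div_iff₀ hC10]; linarith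
  have hyCy : y / C1 ≤ y := by rw [div_le_iff₀ hC10]; nlinarith
  -- the parameters
  obtain ⟨kJ, hkJ⟩ : ∃ kJ : ℕ, kJ = ⌊c1 * y⌋₊ := ⟨_, rfl⟩
  have hk1 : (kJ : ℝ) ≤ c1 * y := by rw [hkJ]; exact Nat.floor_le (by positivity)
  have hk2 : c1 * y - 1 ≤ kJ := by rw [hkJ]; exact (Nat.sub_one_lt_floor _).le
  have hk3 : c1 / 2 * y ≤ kJ := by linarith
  obtain ⟨lam, hlam⟩ : ∃ lam : ℝ, lam = kJ / 7 := ⟨_, rfl⟩
  have hlam16 : 16 ≤ lam := by rw [hlam, le_div_iff₀ (by norm_num)]; linarith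
  have hlk : 2 * Real.pi * lam ≤ kJ := by
    rw [hlam]
    have h0 : (0 : ℝ) ≤ kJ := Nat.cast_nonneg _
    have : 2 * Real.pi * ((kJ : ℝ) / 7) = (kJ : ℝ) * (2 * Real.pi / 7) := by ring
    rw [this]
    apply mul_le_of_le_one_right h0
    rw [div_le_one (by norm_num)]
    linarith
  have hlamL : lam ≤ c1 * y := by
    rw [hlam]
    have h0 : (0 : ℝ) ≤ kJ := Nat.cast_nonneg _
    linarith
  have hlam0 : 0 < lam := by linarith
  obtain ⟨kD, hkD⟩ : ∃ kD : ℕ, kD = ⌊lam / 4⌋₊ := ⟨_, rfl⟩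
  have hd1 : (kD : ℝ) ≤ lam / 4 := by rw [hkD]; exact Nat.floor_le (by positivity)
  have hd2 : lam / 4 - 1 ≤ kD := by rw [hkD]; exact (Nat.sub_one_lt_floor _).le
  have hd3 : c2 * y ≤ kD := by
    rw [hc2]
    have : c1 * y / 112 ≤ lam / 8 := by rw [hlam]; linarith
    linarith
  have hkD1 : 1 ≤ kD := by
    have : (1 : ℝ) ≤ kD := by linarith
    exact_mod_cast this
  have hkDy : (kD : ℝ) ≤ c1 * y := by linarith
  have hkD0 : (0 : ℝ) ≤ kD := Nat.cast_nonneg _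
  obtain ⟨m', hm'⟩ : ∃ m' : ℕ, m' = ⌊Real.exp (y / C1)⌋₊ := ⟨_, rfl⟩
  have hm'1 : (m' : ℝ) ≤ Real.exp (y / C1) := by rw [hm']; exact Nat.floor_le (Real.exp_pos _).le
  have hm'2 : Real.exp (y / C1) - 1 ≤ m' := by rw [hm']; exact (Nat.sub_one_lt_floor _).le
  have hexp50 : 51 ≤ Real.exp (y / C1) := by
    have := Real.add_one_le_exp (y / C1)
    linarith
  have hm'0 : (0 : ℝ) < m' := by linarith
  have hm'N : 1 ≤ m' := by
    have : 0 < m' := by exact_mod_cast hm'0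
    omega
  obtain ⟨L, hL⟩ : ∃ L : ℝ, L = Real.log m' := ⟨_, rfl⟩
  have hmL : (m' : ℝ) = Real.exp L := by rw [hL, Real.exp_log hm'0]
  have hL1 : L ≤ y / C1 := by
    rw [hL, Real.log_le_iff_le_exp hm'0]
    exact hm'1
  have hL2 : y / C1 - 1 ≤ L := by
    rw [hL, Real.le_log_iff_exp_le hm'0, Real.exp_sub]
    rw [div_le_iff₀ (Real.exp_pos _)]
    have h1 : Real.exp (y / C1) ≤ m' * 2 := by linarith
    have h2 : (m' : ℝ) * 2 ≤ m' * Real.exp 1 := mul_le_mul_of_nonneg_left (by linarith [Real.exp_one_gt_d9]) hm'0.le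
    linarith
  have hL0 : 0 < L := by linarith
  have hmm' : m ≤ m' := by
    rw [hm']
    apply Nat.le_floor
    have hm0 : (0 : ℝ) < m := by exact_mod_cast hm
    rw [← Real.log_le_iff_le_exp hm0]
    exact hml
  -- the conditions on the lengths
  have he1 : Real.exp (1 / 4 : ℝ) ≤ 3 := by
    have h1 : Real.exp (1 / 4 : ℝ) ≤ Real.exp 1 := Real.exp_le_exp.2 (by norm_num)
    linarith [Real.exp_one_lt_d9]
  have he2 : Real.exp (1 / 2 : ℝ) ≤ 3 := by
    have h1 : Real.exp (1 / 2 : ℝ) ≤ Real.exp 1 := Real.exp_le_exp.2 (by norm_num)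
    linarith [Real.exp_one_lt_d9]
  have hb1 : 2 * bm (1 / 4) L ≤ 1 / lam := by
    rw [le_div_iff₀ hlam0]
    unfold bm
    have h1 : 2 * lam ≤ Real.exp (1 / 4 * L) := by
      have h2 : 6 * c1 * (1 + y) ≤ Real.exp (1 / (4 * C1) * y) := by rw [pow_one] at d1; exact d1
      have h3 : Real.exp (1 / (4 * C1) * y) ≤ 3 * Real.exp (1 / 4 * L) := by
        calc Real.exp (1 / (4 * C1) * y) ≤ Real.exp (1 / 4 + 1 / 4 * L) := by
              apply Real.exp_le_exp.2
              have e : 1 / (4 * C1) * y = 1 / 4 * (y / C1) := by field_simp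
              rw [e]
              linarith
          _ = Real.exp (1 / 4) * Real.exp (1 / 4 * L) := Real.exp_add _ _
          _ ≤ 3 * Real.exp (1 / 4 * L) := by gcongr
      have h4 : 0 ≤ c1 * 1 := by positivity
      linarith
    calc 2 * Real.exp (-(1 / 4 * L)) * lam = (2 * lam) * Real.exp (-(1 / 4 * L)) := by ring
      _ ≤ Real.exp (1 / 4 * L) * Real.exp (-(1 / 4 * L)) := by gcongr
      _ = 1 := by rw [← Real.exp_add]; simp
  have hb2 : 2048 * (bm (1 / 4) L / (1 / lam)) ^ 2 * L ≤ 1 := by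
    unfold bm
    have h1 : 2048 * lam ^ 2 * L ≤ Real.exp (1 / 2 * L) := by
      have h3 : Real.exp (1 / (2 * C1) * y) ≤ 3 * Real.exp (1 / 2 * L) := by
        calc Real.exp (1 / (2 * C1) * y) ≤ Real.exp (1 / 2 + 1 / 2 * L) := by
              apply Real.exp_le_exp.2
              have e : 1 / (2 * C1) * y = 1 / 2 * (y / C1) := by field_simp
              rw [e]
              linarith
          _ = Real.exp (1 / 2) * Real.exp (1 / 2 * L) := Real.exp_add _ _
          _ ≤ 3 * Real.exp (1 / 2 * L) := by gcongr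
      have h4 : 2048 * lam ^ 2 * L ≤ 2048 * (c1 * y) ^ 2 * y := by
        have : L ≤ y := by linarith
        gcongr
      have h5 : 3 * (2048 * (c1 * y) ^ 2 * y) ≤ 6144 * c1 ^ 2 * (1 + y) ^ 3 := by
        have h6 : y ^ 3 ≤ (1 + y) ^ 3 := by gcongr; linarith
        have h7 : 6144 * c1 ^ 2 * y ^ 3 ≤ 6144 * c1 ^ 2 * (1 + y) ^ 3 := by gcongr
        have e : 3 * (2048 * (c1 * y) ^ 2 * y) = 6144 * c1 ^ 2 * y ^ 3 := by ring
        linarith
      linarith
    have e1 : 2048 * (Real.exp (-(1 / 4 * L)) / (1 / lam)) ^ 2 * L = (2048 * lam ^ 2 * L) * Real.exp (-(1 / 2 * L)) := by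
      have : Real.exp (-(1 / 2 * L)) = Real.exp (-(1 / 4 * L)) ^ 2 := by
        rw [← Real.exp_nat_mul]; congr 1; push_cast; ring
      rw [this, div_div_eq_mul_div, div_one]
      ring
    rw [e1]
    calc (2048 * lam ^ 2 * L) * Real.exp (-(1 / 2 * L)) ≤ Real.exp (1 / 2 * L) * Real.exp (-(1 / 2 * L)) := by gcongr
      _ = 1 := by rw [← Real.exp_add]; simp
  have hkb : 2 * kD * bm (1 / 4) L ≤ 1 / 2 := by
    rw [le_div_iff₀ hlam0] at hb1
    have hbm : 0 < bm (1 / 4) L := Real.exp_pos _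
    have : kD * bm (1 / 4) L ≤ lam / 4 * bm (1 / 4) L := mul_le_mul_of_nonneg_right hd1 hbm.le
    linarith
  -- the four events
  obtain ⟨E, hE⟩ : ∃ E : ℝ, E = Real.exp (-((s + 2) * y)) := ⟨_, rfl⟩
  have hE0 : 0 < E := by rw [hE]; exact Real.exp_pos _
  have hzs := hz lam kJ hlam16 hlk m E hE0
  have hps := prime_side (k := kD) (δ := 1 / 4) (by norm_num) (by norm_num) hL0 hm'N hmL hlam16 hb1 hb2 hkD1 (by linarith)
    (y / 8) (by positivity) E hE0
  have hp1 := Pm_tail (δ := 1 / 4) (by norm_num) (by norm_num) hL0 hkD1 hkb (y := y / 8) (by positivity) m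
  have hp2 := Pm_tail (δ := 1 / 4) (by norm_num) (by norm_num) hL0 hkD1 hkb (y := y / 8) (by positivity) 0
  filter_upwards [hzs, hps, hp1, hp2, eventually_ge_atTop (0 : ℝ)] with T h1 h2 h3 h4 hT0
  have hinc : ∀ t ∈ Ioc T (2 * T), t ∈ {t | y ≤ |Dv T t m|} → t ∈
      ({t | ∃ j ∈ Finset.Icc 1 m, C0 * kJ < |((NZ (t + 2 * Real.pi * j / Real.log T) : ℝ) - NZ t) - j +
      Db (Real.log T / lam) (2 * Real.pi * j / Real.log T) (XT T) t|} ∪
      {t | ∃ j ∈ Finset.Icc 1 m', y / 8 + 7 < |Real.pi * Db (Real.log T / lam) (2 * Real.pi * j / Real.log T) (XT T) t +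
      (Pm (1 / 4) L T (t + 2 * Real.pi * j / Real.log T) - Pm (1 / 4) L T t)|}) ∪
      ({t | y / 8 ≤ |Pm (1 / 4) L T (t + 2 * Real.pi * m / Real.log T)|} ∪
      {t | y / 8 ≤ |Pm (1 / 4) L T (t + 2 * Real.pi * (0 : ℕ) / Real.log T)|}) := by
    intro t _ ht
    have ht' : y ≤ |Dv T t m| := ht
    by_contra hcon
    simp only [Set.mem_union, Set.mem_ofPred_eq, not_or, not_exists, not_and, not_lt, not_le] at hcon
    obtain ⟨⟨n1, n2⟩, n3, n4⟩ := hcon
    have a1 := n1 m (Finset.mem_Icc.2 ⟨hm, le_rfl⟩)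
    have a2 := n2 m (Finset.mem_Icc.2 ⟨hm, hmm'⟩)
    have e0 : t + 2 * Real.pi * ((0 : ℕ) : ℝ) / Real.log T = t := by push_cast; ring
    rw [e0] at n4
    unfold Dv at ht'
    obtain ⟨D, hD⟩ : ∃ D : ℝ, D = Db (Real.log T / lam) (2 * Real.pi * m / Real.log T) (XT T) t := ⟨_, rfl⟩
    obtain ⟨M, hM⟩ : ∃ M : ℝ, M = ((NZ (t + 2 * Real.pi * m / Real.log T) : ℝ) - NZ t) - m := ⟨_, rfl⟩
    obtain ⟨P, hP⟩ : ∃ P : ℝ, P = Pm (1 / 4) L T (t + 2 * Real.pi * m / Real.log T) := ⟨_, rfl⟩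
    obtain ⟨Q, hQ⟩ : ∃ Q : ℝ, Q = Pm (1 / 4) L T t := ⟨_, rfl⟩
    rw [← hM, ← hD] at a1
    rw [← hP, ← hQ, ← hD] at a2
    rw [← hM] at ht'
    rw [← hP] at n3
    rw [← hQ] at n4
    have e1 : Real.pi * M = Real.pi * (M + D) - (Real.pi * D + (P - Q)) + (P - Q) := by ring
    rw [e1] at ht'
    have a3 := (abs_add_le (Real.pi * (M + D) - (Real.pi * D + (P - Q))) (P - Q)).trans
      (add_le_add (abs_sub (Real.pi * (M + D)) (Real.pi * D + (P - Q))) (abs_sub P Q))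
    rw [abs_mul, abs_of_pos hpi] at a3
    have a4 : Real.pi * |M + D| ≤ y / 4 := by
      calc Real.pi * |M + D| ≤ 4 * (C0 * kJ) := by
            apply mul_le_mul _ a1 (abs_nonneg _) (by norm_num)
            linarith
        _ ≤ 4 * (C0 * (c1 * y)) := by gcongr
        _ = (16 * C0 * c1) * (y / 4) := by ring
        _ = y / 4 := by rw [hc1C, one_mul]
    linarith
  refine (PT_mono hinc).trans ((PT_union _ _ _).trans ((add_le_add ((PT_union _ _ _).trans (add_le_add h1 h2))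
    ((PT_union _ _ _).trans (add_le_add h3 h4))).trans ?_))
  have hmy : (m : ℝ) ≤ Real.exp y := by
    have : (m : ℝ) ≤ m' := by exact_mod_cast hmm'
    exact this.trans (hm'1.trans (Real.exp_le_exp.2 hyCy))
  have hm'y : (m' : ℝ) ≤ Real.exp y := hm'1.trans (Real.exp_le_exp.2 hyCy)
  have hmr1 : (1 : ℝ) ≤ m := by exact_mod_cast hm
  have b1 : 6 * ((m : ℝ) + 1) * (C0 / kJ) ^ kJ ≤ 12 * E := by
    have hkJ0 : (0 : ℝ) < kJ := by
      have : 0 < c1 / 2 * y := by positivity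
      linarith
    have g1 : C0 / kJ ≤ Real.exp (-A1) := by
      rw [div_le_iff₀ hkJ0]
      have g2 : C0 * Real.exp A1 ≤ kJ := by linarith
      calc C0 = Real.exp (-A1) * (C0 * Real.exp A1) := by
            rw [mul_comm C0, ← mul_assoc, ← Real.exp_add]; simp
        _ ≤ _ := by gcongr
    have g3 := base_pow (y := y) (c := c1 / 2) (S := s + 4) (k := kJ) (by positivity) g1 hk3 hA10.le (by rw [hA1]; field_simp)
    calc 6 * ((m : ℝ) + 1) * (C0 / kJ) ^ kJ ≤ 6 * (m + m) * Real.exp (-((s + 4) * y)) := by gcongr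
      _ = 12 * (m * Real.exp (-((s + 4) * y))) := by ring
      _ ≤ 12 * (Real.exp y * Real.exp (-((s + 4) * y))) := by gcongr
      _ ≤ 12 * E := by
          rw [← Real.exp_add, hE]
          have : Real.exp (y + -((s + 4) * y)) ≤ Real.exp (-((s + 2) * y)) := by
            apply Real.exp_le_exp.2
            linarith
          linarith
  have hxC : (192 * c1) / C1 ≤ Real.exp (-A2) := by
    rw [div_le_iff₀ hC10]
    calc 192 * c1 = Real.exp (-A2) * (192 * c1 * Real.exp A2) := by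
          rw [mul_comm (192 * c1), ← mul_assoc, ← Real.exp_add]; simp
      _ ≤ _ := by gcongr
  have b2 : 2 * (m' : ℝ) * (kD * (8 * (1 / 4) * L + 50) / (y / 8) ^ 2) ^ kD ≤ 2 * E := by
    have g1 : kD * (8 * (1 / 4) * L + 50) / (y / 8) ^ 2 ≤ Real.exp (-A2) := by
      refine le_trans ?_ hxC
      rw [div_le_div_iff₀ (by positivity) hC10]
      have g2 : 8 * (1 / 4) * L + 50 ≤ 3 * (y / C1) := by linarith
      calc kD * (8 * (1 / 4) * L + 50) * C1 ≤ (c1 * y) * (3 * (y / C1)) * C1 := by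
            apply mul_le_mul_of_nonneg_right _ hC10.le
            apply mul_le_mul hkDy g2 (by positivity) (by positivity)
        _ = 192 * c1 * (y / 8) ^ 2 := by field_simp; ring
    have g3 := base_pow (y := y) (c := c2) (S := s + 4) (k := kD) (by positivity) g1 hd3 hA20.le (by rw [hA2]; field_simp)
    calc 2 * (m' : ℝ) * (kD * (8 * (1 / 4) * L + 50) / (y / 8) ^ 2) ^ kD ≤ 2 * Real.exp y * Real.exp (-((s + 4) * y)) := by gcongr
      _ = 2 * Real.exp (y + -((s + 4) * y)) := by rw [Real.exp_add]; ring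
      _ ≤ 2 * E := by
          rw [hE]
          have : Real.exp (y + -((s + 4) * y)) ≤ Real.exp (-((s + 2) * y)) := by
            apply Real.exp_le_exp.2
            linarith
          linarith
  have b3 : 2 * (kD * L / (y / 8) ^ 2) ^ kD ≤ 2 * E := by
    have g1 : kD * L / (y / 8) ^ 2 ≤ Real.exp (-A2) := by
      refine le_trans ?_ hxC
      rw [div_le_div_iff₀ (by positivity) hC10]
      calc kD * L * C1 ≤ (c1 * y) * (3 * (y / C1)) * C1 := by
            apply mul_le_mul_of_nonneg_right _ hC10.le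
            have : 0 < y / C1 := by positivity
            apply mul_le_mul hkDy (by linarith) hL0.le (by positivity)
        _ = 192 * c1 * (y / 8) ^ 2 := by field_simp; ring
    have g3 := base_pow (y := y) (c := c2) (S := s + 4) (k := kD) (by positivity) g1 hd3 hA20.le (by rw [hA2]; field_simp)
    have g4 : Real.exp (-((s + 4) * y)) ≤ E := by
      rw [hE]
      apply Real.exp_le_exp.2
      linarith
    linarith
  have b4 : 20 * E ≤ Real.exp (-(s * y)) := by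
    have h20 : (20 : ℝ) ≤ Real.exp (2 * y) := by
      have := Real.add_one_le_exp (2 * y)
      linarith
    calc 20 * E ≤ Real.exp (2 * y) * E := by gcongr
      _ = Real.exp (-(s * y)) := by rw [hE, ← Real.exp_add]; congr 1; ring
  calc (6 * ((m : ℝ) + 1) * (C0 / kJ) ^ kJ + E) * T + (2 * (m' : ℝ) * (kD * (8 * (1 / 4) * L + 50) / (y / 8) ^ 2) ^ kD + E) * T +
      (2 * (kD * L / (y / 8) ^ 2) ^ kD * T + 2 * (kD * L / (y / 8) ^ 2) ^ kD * T) =
      (6 * ((m : ℝ) + 1) * (C0 / kJ) ^ kJ + E + (2 * (m' : ℝ) * (kD * (8 * (1 / 4) * L + 50) / (y / 8) ^ 2) ^ kD + E) +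
      (2 * (kD * L / (y / 8) ^ 2) ^ kD + 2 * (kD * L / (y / 8) ^ 2) ^ kD)) * T := by ring
    _ ≤ (20 * E) * T := by
        apply mul_le_mul_of_nonneg_right _ hT0
        linarith
    _ ≤ Real.exp (-(s * y)) * T := mul_le_mul_of_nonneg_right b4 hT0

end

end Run7.h435.MD
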