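import Mathlib

/-! # Basic tools -/

set_option autoImplicit false

namespace Run7.h435.MD

open Filter Topology MeasureTheory Set

noncomputable section

/-- the measure of a set of points of `(T, 2T]` -/
def PT (T : ℝ) (S : Set ℝ) : ℝ := (volume (Set.Ioc T (2 * T) ∩ S)).toReal

lemma PT_nonneg (T : ℝ) (S : Set ℝ) : 0 ≤ PT T S := ENNReal.toReal_nonneg

lemma PT_fin (T : ℝ) (S : Set ℝ) : volume (Set.Ioc T (2 * T) ∩ S) ≠ ⊤ :=
  ((measure_mono inter_subset_left).trans_lt measure_Ioc_lt_top).ne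

lemma PT_mono {T : ℝ} {S S' : Set ℝ} (h : ∀ t ∈ Ioc T (2 * T), t ∈ S → t ∈ S') : PT T S ≤ PT T S' :=
  ENNReal.toReal_mono (PT_fin T S') (measure_mono fun t ht => ⟨ht.1, h t ht.1 ht.2⟩)

lemma PT_union (T : ℝ) (S S' : Set ℝ) : PT T (S ∪ S') ≤ PT T S + PT T S' := by
  unfold PT
  rw [← ENNReal.toReal_add (PT_fin T S) (PT_fin T S')]
  refine ENNReal.toReal_mono (ENNReal.add_ne_top.2 ⟨PT_fin T S, PT_fin T S'⟩) ?_
  rw [inter_union_distrib_left]
  exact measure_union_le _ _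

lemma PT_biUnion {ι : Type*} (T : ℝ) (s : Finset ι) (S : ι → Set ℝ) :
    PT T {t | ∃ i ∈ s, t ∈ S i} ≤ ∑ i ∈ s, PT T (S i) := by
  classical
  induction s using Finset.induction_on with
  | empty => simp [PT]
  | insert i s hi ih =>
    rw [Finset.sum_insert hi]
    have e : {t | ∃ i' ∈ insert i s, t ∈ S i'} = S i ∪ {t | ∃ i' ∈ s, t ∈ S i'} := by
      ext t
      simp
    rw [e]
    exact (PT_union T _ _).trans (add_le_add le_rfl ih)

lemma PT_markov {T : ℝ} (hT : 0 ≤ T) {f : ℝ → ℝ} (hf : IntervalIntegrable f volume T (2 * T))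
    (h0 : ∀ t, 0 ≤ f t) {c : ℝ} (hc : 0 < c) {S : Set ℝ} (hS : ∀ t ∈ Ioc T (2 * T), t ∈ S → c ≤ f t) :
    PT T S ≤ (∫ t in T..(2 * T), f t) / c := by
  have hTT : T ≤ 2 * T := by linarith
  have h1 : PT T S ≤ PT T {t | c ≤ f t} := PT_mono hS
  have h2 := mul_meas_ge_le_integral_of_nonneg (μ := volume.restrict (Ioc T (2 * T))) (f := f)
    (Eventually.of_forall h0) ((intervalIntegrable_iff_integrableOn_Ioc_of_le hTT).1 hf) c
  rw [← intervalIntegral.integral_of_le hTT] at h2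
  have h3 : (volume.restrict (Ioc T (2 * T))).real {t | c ≤ f t} = PT T {t | c ≤ f t} := by
    unfold PT Measure.real
    rw [Measure.restrict_apply' measurableSet_Ioc, inter_comm]
  rw [h3] at h2
  rw [le_div_iff₀ hc]
  nlinarith

lemma PT_markov2 {T A B : ℝ} (hAB : A ≤ B) {f : ℝ → ℝ} (hf : IntervalIntegrable f volume A B)
    (h0 : ∀ t, 0 ≤ f t) {c : ℝ} (hc : 0 < c) {S : Set ℝ}
    (hS : ∀ t ∈ Ioc T (2 * T), t ∈ S → t ∈ Ioc A B ∧ c ≤ f t) : PT T S ≤ (∫ t in A..B, f t) / c := by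
  have h2 := mul_meas_ge_le_integral_of_nonneg (μ := volume.restrict (Ioc A B)) (f := f)
    (Eventually.of_forall h0) ((intervalIntegrable_iff_integrableOn_Ioc_of_le hAB).1 hf) c
  rw [← intervalIntegral.integral_of_le hAB] at h2
  have h3 : PT T S ≤ (volume.restrict (Ioc A B)).real {t | c ≤ f t} := by
    unfold PT Measure.real
    rw [Measure.restrict_apply' measurableSet_Ioc]
    refine ENNReal.toReal_mono ?_ (measure_mono fun t ht => ?_)
    · exact ((measure_mono inter_subset_right).trans_lt measure_Ioc_lt_top).ne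
    · have := hS t ht.1 ht.2
      exact ⟨this.2, this.1⟩
  rw [le_div_iff₀ hc]
  nlinarith

lemma PT_Ioc (T A B : ℝ) (hAB : A ≤ B) {S : Set ℝ} (hS : ∀ t ∈ Ioc T (2 * T), t ∈ S → t ∈ Ioc A B) :
    PT T S ≤ B - A := by
  have h := PT_markov2 (T := T) (S := S) hAB (f := fun _ => 1) intervalIntegrable_const (fun _ => zero_le_one)
    (c := 1) one_pos (fun t ht hts => ⟨hS t ht hts, le_rfl⟩)
  rw [intervalIntegral.integral_const, smul_eq_mul, mul_one, div_one] at h
  exact h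

lemma poly_exp (C : ℝ) (K : ℕ) {κ : ℝ} (hκ : 0 < κ) : ∀ᶠ L : ℝ in atTop, C * (1 + L) ^ K ≤ Real.exp (κ * L) := by
  have h1 := (isLittleO_pow_exp_pos_mul_atTop (k := K) hκ).bound (c := 1 / ((|C| + 1) * 2 ^ K)) (by positivity)
  filter_upwards [h1, eventually_ge_atTop 1] with L h2 hL
  rw [Real.norm_of_nonneg (by positivity), Real.norm_of_nonneg (Real.exp_pos _).le] at h2
  have h3 : (1 + L) ^ K ≤ 2 ^ K * L ^ K := by
    rw [← mul_pow]
    exact pow_le_pow_left₀ (by linarith) (by linarith) K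
  have h4 : C ≤ |C| + 1 := by linarith [le_abs_self C]
  calc C * (1 + L) ^ K ≤ (|C| + 1) * (1 + L) ^ K := by gcongr
    _ ≤ (|C| + 1) * (2 ^ K * L ^ K) := by gcongr
    _ = ((|C| + 1) * 2 ^ K) * L ^ K := by ring
    _ ≤ ((|C| + 1) * 2 ^ K) * (1 / ((|C| + 1) * 2 ^ K) * Real.exp (κ * L)) := by gcongr
    _ = Real.exp (κ * L) := by field_simp

lemma log_nat_atTop : Tendsto (fun m : ℕ => Real.log m) atTop atTop :=
  Real.tendsto_log_atTop.comp tendsto_natCast_atTop_atTop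

/-- the factorial -/
lemma fac_le (k : ℕ) (hk : 1 ≤ k) : (k.factorial : ℝ) * Real.exp k ≤ Real.exp 1 * (k : ℝ) ^ (k + 1) := by
  induction k, hk using Nat.le_induction with
  | base => simp
  | succ k hk ih =>
    have hk0 : (0 : ℝ) < k := by exact_mod_cast hk
    have h1 : Real.exp 1 * (k : ℝ) ^ (k + 1) ≤ ((k : ℝ) + 1) ^ (k + 1) := by
      have h2 : Real.exp 1 ≤ (((k : ℝ) + 1) / k) ^ (k + 1) := by
        have h3 : 1 / ((k : ℝ) + 1) ≤ Real.log (((k : ℝ) + 1) / k) := by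
          have h4 := Real.one_sub_inv_le_log_of_pos (x := ((k : ℝ) + 1) / k) (by positivity)
          have h5 : 1 - (((k : ℝ) + 1) / k)⁻¹ = 1 / ((k : ℝ) + 1) := by
            field_simp
            ring
          linarith
        rw [← Real.exp_log (x := (((k : ℝ) + 1) / k) ^ (k + 1)) (by positivity)]
        apply Real.exp_le_exp.2
        rw [Real.log_pow]
        push_cast
        calc (1 : ℝ) = ((k : ℝ) + 1) * (1 / ((k : ℝ) + 1)) := by field_simp
          _ ≤ _ := by gcongr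
      calc Real.exp 1 * (k : ℝ) ^ (k + 1) ≤ (((k : ℝ) + 1) / k) ^ (k + 1) * (k : ℝ) ^ (k + 1) := by gcongr
        _ = _ := by rw [← mul_pow]; congr 1; field_simp
    rw [Nat.factorial_succ]
    push_cast
    rw [Real.exp_add]
    calc ((k : ℝ) + 1) * k.factorial * (Real.exp k * Real.exp 1) =
        ((k : ℝ) + 1) * Real.exp 1 * (k.factorial * Real.exp k) := by ring
      _ ≤ ((k : ℝ) + 1) * Real.exp 1 * (Real.exp 1 * (k : ℝ) ^ (k + 1)) := by gcongr
      _ ≤ ((k : ℝ) + 1) * Real.exp 1 * (((k : ℝ) + 1) ^ (k + 1)) := by gcongr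
      _ = Real.exp 1 * ((k : ℝ) + 1) ^ (k + 1 + 1) := by ring

/-- the tail -/
lemma tail_le {k : ℕ} {y : ℝ} (hy : 0 < y) (hk1 : y ≤ k) (hk2 : (k : ℝ) ≤ y + 1) :
    (k.factorial : ℝ) / y ^ k ≤ Real.exp (3 + 1 / y) * (y + 1) * Real.exp (-y) := by
  have hk0 : (0 : ℝ) < k := lt_of_lt_of_le hy hk1
  have hk : 1 ≤ k := by
    have : 0 < k := by exact_mod_cast hk0
    omega
  have h1 := fac_le k hk
  have h2 : (k : ℝ) ^ k / y ^ k ≤ Real.exp (1 + 1 / y) := by
    rw [← div_pow]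
    have h3 : (k : ℝ) / y ≤ Real.exp (1 / y) := by
      have h4 := Real.add_one_le_exp (1 / y)
      have h5 : (k : ℝ) / y ≤ 1 / y + 1 := by
        rw [div_le_iff₀ hy]
        have : (1 / y + 1) * y = 1 + y := by field_simp
        linarith
      linarith
    calc ((k : ℝ) / y) ^ k ≤ Real.exp (1 / y) ^ k := pow_le_pow_left₀ (by positivity) h3 k
      _ = Real.exp (k * (1 / y)) := by rw [← Real.exp_nat_mul]
      _ ≤ Real.exp ((y + 1) * (1 / y)) := by gcongr
      _ = Real.exp (1 + 1 / y) := by congr 1; field_simp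
  have h3 : (k.factorial : ℝ) ≤ Real.exp 1 * (k : ℝ) ^ (k + 1) * Real.exp (-k) := by
    calc (k.factorial : ℝ) = (k.factorial * Real.exp k) * Real.exp (-k) := by
          rw [mul_assoc, ← Real.exp_add]; simp
      _ ≤ _ := by gcongr
  calc (k.factorial : ℝ) / y ^ k ≤ (Real.exp 1 * (k : ℝ) ^ (k + 1) * Real.exp (-k)) / y ^ k := by gcongr
    _ = Real.exp 1 * k * ((k : ℝ) ^ k / y ^ k) * Real.exp (-k) := by ring
    _ ≤ Real.exp 1 * (y + 1) * Real.exp (1 + 1 / y) * Real.exp (-y) := by gcongr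
    _ = (Real.exp 1 * Real.exp (1 + 1 / y)) * (y + 1) * Real.exp (-y) := by ring
    _ = Real.exp (2 + 1 / y) * (y + 1) * Real.exp (-y) := by
        rw [← Real.exp_add]
        congr 3
        ring
    _ ≤ _ := by
        gcongr
        norm_num

end

end Run7.h435.MD
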