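import Pool.Agent.H345R2.CT.B
import Pool.Agent.H382P.ExpMom
import Pool.Agent.Run7.h435.MDba

/-! # Exponential moments of the count, for a fixed window -/

set_option autoImplicit false

namespace Run7.h435.MD

open Filter Topology MeasureTheory Set
open SP (RHs Mk Ya wt)
open SG (NZ ord)

noncomputable section

/-- exponential moments of the weighted count -/
theorem exp_leb (hRH : RHs) {q : ℝ} (hq : 0 < q) : ∃ C T0 : ℝ, 0 < C ∧ 10 ≤ T0 ∧ ∀ T : ℝ, T0 ≤ T → ∀ V1 V2 : ℝ,
    T + Real.log T ≤ V1 → V1 ≤ V2 → V2 ≤ 2 * T - Real.log T → ∫ t in V1..V2, Real.exp (q * Mk T 1 t) ≤ C * T := by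
  obtain ⟨C, T0, hC, h10, h⟩ := SP.exp_main hRH (1 / 4) 1 q (by norm_num) (by norm_num) one_pos hq
  refine ⟨6 * C, T0, by positivity, h10, fun T hT V1 V2 hV1 hV hV2 => ?_⟩
  have hT10 : 10 ≤ T := h10.trans hT
  have hTpos : 0 < T := by linarith
  have hlog : 0 ≤ Real.log T := Real.log_nonneg (by linarith)
  obtain ⟨D, hDdef⟩ : ∃ D : ℝ, D = SG.dd (1 / 4) T := ⟨_, rfl⟩
  have hD : 0 < D := by rw [hDdef]; exact SP.Mom2.dd_pos _ T hTpos
  have hDT : D ≤ T := by
    calc D = SG.dd (1 / 4) T := hDdef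
      _ ≤ T ^ (1 : ℝ) := Real.rpow_le_rpow_of_exponent_le (by linarith) (by norm_num)
      _ = T := Real.rpow_one T
  obtain ⟨J, hJ⟩ : ∃ J : ℕ, J = ⌈T / D⌉₊ := ⟨_, rfl⟩
  obtain ⟨F, hF⟩ : ∃ F : ℝ → ℝ, F = fun t => Real.exp (q * (‖Ya T 1 t‖ + Mk T 1 t)) := ⟨_, rfl⟩
  have hT1 : 1 ≤ T := by linarith
  have hFc : Continuous F := by
    rw [hF]
    have h1 := SP.ExpAux.Ya_cont hT1 (a := 1) one_pos
    have h2 := SP.ExpAux.Mk_cont hT1 1
    fun_prop
  have hF0 : ∀ t, 0 ≤ F t := fun t => by rw [hF]; positivity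
  have hwc : ∀ t0, Continuous (fun t => wt t0 D t) := fun t0 => SP.Mom2.wt_continuous t0 D
  have hw0 : ∀ t0 t, 0 ≤ wt t0 D t := fun t0 t => SP.Mom2.wt_nonneg t0 D t
  have hpt : ∀ t ∈ Set.Icc V1 V2, Real.exp (q * Mk T 1 t) ≤
      ∑ j ∈ Finset.range (J + 1), 2 * (wt (T + j * D) D t * F t) := by
    intro t ht
    have hFt : Real.exp (q * Mk T 1 t) ≤ F t := by
      rw [hF]
      apply Real.exp_le_exp.2
      apply mul_le_mul_of_nonneg_left _ hq.le
      have := norm_nonneg (Ya T 1 t)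
      linarith
    refine hFt.trans ?_
    obtain ⟨j, hj⟩ : ∃ j : ℕ, j = ⌊(t - T) / D⌋₊ := ⟨_, rfl⟩
    have hx0 : 0 ≤ (t - T) / D := div_nonneg (by linarith [ht.1]) hD.le
    have hj1 : (j : ℝ) ≤ (t - T) / D := by rw [hj]; exact Nat.floor_le hx0
    have hj2 : (t - T) / D < j + 1 := by rw [hj]; exact Nat.lt_floor_add_one _
    have hjJ : j ∈ Finset.range (J + 1) := by
      rw [Finset.mem_range, Nat.lt_succ_iff]
      have h1 : (t - T) / D ≤ T / D := by
        apply div_le_div_of_nonneg_right _ hD.le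
        linarith [ht.2]
      have h2 : (j : ℝ) ≤ J := by
        rw [hJ]
        exact hj1.trans (h1.trans (Nat.le_ceil _))
      exact_mod_cast h2
    rw [le_div_iff₀ hD] at hj1
    rw [div_lt_iff₀ hD] at hj2
    have hw : 1 / 2 ≤ wt (T + j * D) D t := by
      unfold wt
      have h1 : (t - (T + j * D)) ^ 2 ≤ D ^ 2 := by
        apply pow_le_pow_left₀ <;> linarith
      have h2 : -(1 / 2 : ℝ) ≤ -(t - (T + j * D)) ^ 2 / (2 * D ^ 2) := by
        rw [le_div_iff₀ (by positivity)]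
        linarith
      have h3 := Real.exp_le_exp.mpr h2
      have h4 : 1 - 1 / 2 ≤ Real.exp (-(1 / 2)) := by
        have := Real.add_one_le_exp (-(1 / 2 : ℝ))
        linarith
      linarith
    have h1 : F t ≤ 2 * (wt (T + j * D) D t * F t) := by
      have := mul_le_mul_of_nonneg_right hw (hF0 t)
      linarith
    exact h1.trans (Finset.single_le_sum (f := fun j : ℕ => 2 * (wt (T + j * D) D t * F t))
      (fun i _ => mul_nonneg (by norm_num) (mul_nonneg (hw0 _ _) (hF0 t))) hjJ)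
  have hci : ∀ j : ℕ, Continuous (fun t => 2 * (wt (T + j * D) D t * F t)) := fun j =>
    continuous_const.mul ((hwc _).mul hFc)
  have hc0 : Continuous (fun t => Real.exp (q * Mk T 1 t)) := by
    have h2 := SP.ExpAux.Mk_cont hT1 1
    fun_prop
  have h1 : ∫ t in V1..V2, Real.exp (q * Mk T 1 t) ≤ ∫ t in V1..V2,
      ∑ j ∈ Finset.range (J + 1), 2 * (wt (T + j * D) D t * F t) := by
    apply intervalIntegral.integral_mono_on hV (hc0.intervalIntegrable _ _)
    · exact (continuous_finsetSum _ fun j _ => hci j).intervalIntegrable _ _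
    · exact hpt
  have h2 : ∀ j : ℕ, ∫ t in V1..V2, 2 * (wt (T + j * D) D t * F t) ≤ 2 * (C * D) := by
    intro j
    have hi := h T hT (T + j * D) V1 V2 hV hV1 hV2
    rw [← hDdef] at hi
    rw [intervalIntegral.integral_const_mul]
    apply mul_le_mul_of_nonneg_left _ (by norm_num)
    rw [hF]
    exact hi
  rw [intervalIntegral.integral_finsetSum
    (fun j _ => (hci j).intervalIntegrable _ _)] at h1
  have h3 : ∑ j ∈ Finset.range (J + 1), ∫ t in V1..V2, 2 * (wt (T + j * D) D t * F t) ≤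
      ∑ j ∈ Finset.range (J + 1), 2 * (C * D) := Finset.sum_le_sum fun j _ => h2 j
  rw [Finset.sum_const, Finset.card_range, nsmul_eq_mul] at h3
  have hJ1 : (J : ℝ) ≤ T / D + 1 := by rw [hJ]; exact (Nat.ceil_lt_add_one (by positivity)).le
  have hJD : ((J + 1 : ℕ) : ℝ) * D ≤ 3 * T := by
    push_cast
    have : (J : ℝ) * D ≤ (T / D + 1) * D := mul_le_mul_of_nonneg_right hJ1 hD.le
    have e : (T / D + 1) * D = T + D := by field_simp
    rw [e] at this
    linarith
  calc ∫ t in V1..V2, Real.exp (q * Mk T 1 t) ≤ _ := h1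
    _ ≤ ((J + 1 : ℕ) : ℝ) * (2 * (C * D)) := h3
    _ = 2 * C * (((J + 1 : ℕ) : ℝ) * D) := by ring
    _ ≤ 2 * C * (3 * T) := by gcongr
    _ = 6 * C * T := by ring

lemma NZr_meas (h : ℝ) : Measurable (fun t : ℝ => (NZ (t + h) : ℝ)) := by
  have h1 : Monotone (fun t : ℝ => (NZ t : ℝ)) := fun a b hab => by
    have h2 : NZ a ≤ NZ b := SG.NZ_mono hab
    show (NZ a : ℝ) ≤ (NZ b : ℝ)
    exact_mod_cast h2
  exact h1.measurable.comp (measurable_id.add_const h)

lemma ee_meas (s h x : ℝ) : Measurable (fun t => Real.exp (s * (((NZ (t + h) : ℝ) - NZ t) - x))) := by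
  have h1 := NZr_meas h
  have h2 := NZr_meas 0
  simp only [add_zero] at h2
  exact Real.measurable_exp.comp ((((h1.sub h2).sub_const x)).const_mul s)

lemma ee_int (s h x A B : ℝ) : IntervalIntegrable (fun t => Real.exp (s * (((NZ (t + h) : ℝ) - NZ t) - x))) volume A B := by
  rw [intervalIntegrable_iff]
  refine Measure.integrableOn_of_bounded (M := Real.exp (|s| * ((NZ (max A B + |h|) : ℝ) + |x|))) (by simp)
    (ee_meas s h x).aestronglyMeasurable ?_
  rw [ae_restrict_iff' measurableSet_uIoc]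
  refine Eventually.of_forall fun t ht => ?_
  rw [Real.norm_of_nonneg (Real.exp_pos _).le]
  apply Real.exp_le_exp.2
  have ht2 : t ≤ max A B := (uIoc_subset_uIcc ht).2.trans (by simp)
  have hh := le_abs_self h
  have hh0 := abs_nonneg h
  have h1 : (NZ (t + h) : ℝ) ≤ NZ (max A B + |h|) := by exact_mod_cast SG.NZ_mono (by linarith)
  have h2 : (NZ t : ℝ) ≤ NZ (max A B + |h|) := by exact_mod_cast SG.NZ_mono (by linarith)
  have h3 : (0 : ℝ) ≤ NZ (t + h) := Nat.cast_nonneg _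
  have h4 : (0 : ℝ) ≤ NZ t := Nat.cast_nonneg _
  have h5 := le_abs_self x
  have h6 := neg_abs_le x
  calc s * (((NZ (t + h) : ℝ) - NZ t) - x) ≤ |s| * |((NZ (t + h) : ℝ) - NZ t) - x| := by
        rw [← abs_mul]; exact le_abs_self _
    _ ≤ |s| * ((NZ (max A B + |h|) : ℝ) + |x|) := by
        apply mul_le_mul_of_nonneg_left _ (abs_nonneg s)
        rw [abs_le]
        constructor <;> linarith

/-- the count against the weighted count -/
lemma cnt_Mk {T t h r : ℝ} (hT : 1 ≤ T) (hL : 1 ≤ Real.log T) (ht : T < t) (h0 : 0 ≤ h) (hr : h ≤ r / Real.log T)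
    (h2 : t + h ≤ 2 * T) : (NZ (t + h) : ℝ) - NZ t ≤ (1 + r ^ 2) * Real.exp (r ^ 2 / 2) * Mk T 1 t := by
  have hmono : NZ t ≤ NZ (t + h) := SG.NZ_mono (by linarith)
  rcases hmono.eq_or_lt with he | hlt
  · rw [he, sub_self]
    have := SP.ExpAux.Mk_nonneg hT 1 t
    positivity
  · have ha : t < ord (NZ t + 1) := by
      by_contra hc
      push Not at hc
      have := (SG.ord_le_iff (by omega) t).1 hc
      omega
    have hb : ord (NZ (t + h)) ≤ t + h := (SG.ord_le_iff (by omega) _).2 le_rfl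
    have hr0 : 0 ≤ r / Real.log T := h0.trans hr
    have h3 := LG.CTAux.Mk_count (T := T) (t := t) (r := r) hT hL (a := NZ t + 1) (b := NZ (t + h)) (by omega) (by omega)
      (by linarith) (by linarith) (by linarith) (by linarith)
    push_cast at h3
    linarith

/-- **exponential moments of the count, for a fixed window** -/
theorem cnt_exp (hRH : RHs) {s : ℝ} (hs : 0 < s) (m : ℕ) : ∃ B : ℝ, 0 < B ∧ ∀ᶠ T : ℝ in atTop,
    ∫ t in T..(2 * T), Real.exp (s * (((NZ (t + 2 * Real.pi * m / Real.log T) : ℝ) - NZ t) - 0)) ≤ B * T := by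
  obtain ⟨r, hr⟩ : ∃ r : ℝ, r = 7 * m := ⟨_, rfl⟩
  obtain ⟨R, hR⟩ : ∃ R : ℝ, R = (1 + r ^ 2) * Real.exp (r ^ 2 / 2) := ⟨_, rfl⟩
  have hR0 : 0 < R := by rw [hR]; positivity
  obtain ⟨C, T0, hC, hT0, hE⟩ := exp_leb hRH (q := s * R) (by positivity)
  refine ⟨2 * C, by positivity, ?_⟩
  have hlin : ∀ᶠ T : ℝ in atTop, 10 * Real.log T + 100 * m + 100 ≤ T := by
    have h1 : (fun T : ℝ => 10 * Real.log T + (100 * m + 100)) =o[atTop] fun T : ℝ => T :=
      (Real.isLittleO_log_id_atTop.const_mul_left 10).add (Asymptotics.isLittleO_const_id_atTop _)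
    filter_upwards [h1.bound (c := 1) one_pos, eventually_ge_atTop (1 : ℝ)] with T hT hT1
    rw [Real.norm_of_nonneg (by linarith : (0 : ℝ) ≤ T), one_mul] at hT
    have := (le_abs_self _).trans hT
    linarith
  filter_upwards [hlin, eventually_ge_atTop (2 * T0), Real.tendsto_log_atTop.eventually_ge_atTop 4] with T h1 h2 h3
  have hpi := Real.pi_pos
  have hpi3 := Real.pi_gt_three
  have hpi4 : Real.pi < 3.15 := Real.pi_lt_d2
  have hm0 : (0 : ℝ) ≤ m := Nat.cast_nonneg m
  have hT0' : 0 < T := by linarith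
  obtain ⟨h, hh⟩ : ∃ h : ℝ, h = 2 * Real.pi * m / Real.log T := ⟨_, rfl⟩
  rw [← hh]
  have hh0 : 0 ≤ h := by rw [hh]; positivity
  have hhm : h ≤ 2 * m := by
    rw [hh, div_le_iff₀ (by linarith)]
    nlinarith
  -- the logarithms
  have l1 : Real.log (4 / 5 * T) ≤ Real.log T := Real.log_le_log (by linarith) (by linarith)
  have l2 : Real.log (6 / 5 * T) ≤ Real.log T + 1 / 5 := by
    rw [Real.log_mul (by norm_num) hT0'.ne']
    have := Real.log_le_sub_one_of_pos (show (0 : ℝ) < 6 / 5 by norm_num)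
    linarith
  have l3 : 1 ≤ Real.log (4 / 5 * T) := by
    rw [Real.log_mul (by norm_num) hT0'.ne']
    have h4 : -1 ≤ Real.log (4 / 5 : ℝ) := by
      rw [Real.le_log_iff_exp_le (by norm_num), Real.exp_neg]
      rw [inv_le_comm₀ (Real.exp_pos _) (by norm_num)]
      linarith [Real.exp_one_gt_d9]
    linarith
  have l4 : Real.log T ≤ Real.log (6 / 5 * T) := Real.log_le_log (by linarith) (by linarith)
  have key : ∀ T' V1 V2 : ℝ, T0 ≤ T' → 1 ≤ Real.log T' → T' + Real.log T' ≤ V1 → V1 ≤ V2 → V2 ≤ 2 * T' - Real.log T' →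
      V2 + h ≤ 2 * T' → h ≤ r / Real.log T' →
      ∫ t in V1..V2, Real.exp (s * (((NZ (t + h) : ℝ) - NZ t) - 0)) ≤ C * T' := by
    intro T' V1 V2 k1 k2 k3 k4 k5 k6 k7
    refine le_trans ?_ (hE T' k1 V1 V2 k3 k4 k5)
    have hT'1 : 1 ≤ T' := by linarith
    apply intervalIntegral.integral_mono_on k4 (ee_int _ _ _ _ _)
    · have h5 := SP.ExpAux.Mk_cont hT'1 1
      exact Continuous.intervalIntegrable (by fun_prop) _ _
    · intro t ht
      apply Real.exp_le_exp.2
      have h6 := cnt_Mk (T := T') (t := t) (h := h) (r := r) hT'1 k2 (by linarith [ht.1]) hh0 k7 (by linarith [ht.2])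
      rw [← hR] at h6
      have h7 := mul_le_mul_of_nonneg_left h6 hs.le
      rw [sub_zero]
      linarith
  have i1 := key (4 / 5 * T) T (3 / 2 * T) (by linarith) l3 (by linarith) (by linarith) (by linarith) (by linarith) (by
    rw [hh, hr, div_le_div_iff₀ (by linarith) (by linarith)]
    have h4 : 2 * Real.pi * m * Real.log (4 / 5 * T) ≤ 2 * Real.pi * m * Real.log T := by gcongr
    have h5 : 2 * Real.pi * m ≤ 7 * m := by nlinarith
    have h6 : 2 * Real.pi * m * Real.log T ≤ 7 * m * Real.log T := mul_le_mul_of_nonneg_right h5 (by linarith)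
    linarith)
  have i2 := key (6 / 5 * T) (3 / 2 * T) (2 * T) (by linarith) (by linarith) (by linarith) (by linarith) (by linarith) (by linarith) (by
    rw [hh, hr, div_le_div_iff₀ (by linarith) (by linarith)]
    have h4 : 2 * Real.pi * m * Real.log (6 / 5 * T) ≤ 2 * Real.pi * m * (Real.log T + 1 / 5) := by gcongr
    have h5 : 2 * Real.pi * (Real.log T + 1 / 5) ≤ 7 * Real.log T := by nlinarith
    have h6 : m * (2 * Real.pi * (Real.log T + 1 / 5)) ≤ m * (7 * Real.log T) := mul_le_mul_of_nonneg_left h5 hm0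
    linarith)
  have i3 := intervalIntegral.integral_add_adjacent_intervals (ee_int s h 0 T (3 / 2 * T)) (ee_int s h 0 (3 / 2 * T) (2 * T))
  rw [← i3]
  linarith

end

end Run7.h435.MD
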