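import Pool.Agent.Run7.h435.LDb
import Pool.Agent.Run7.h435.LDc
import Pool.Agent.Run7.h435.LDd

/-! # The exponential moments of the count -/

set_option autoImplicit false

namespace Run7.h435.MD

open Filter Topology MeasureTheory Set
open SP (RHs)
open SG (NZ)

noncomputable section

/-- the layers, pointwise -/
lemma pw_layer {S h D : ℝ} (hS : 0 ≤ S) (hh : 0 < h) (hD : 0 ≤ D) (I n : ℕ) :
    Real.exp (S * D) ≤ ∑ i ∈ Finset.range I, Real.exp (S * ((i + 1) * h)) * (if i * h ≤ D then 1 else 0) +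
      ∑ i ∈ Finset.range n, Real.exp (S * (I * h + i + 1)) * (if I * h + i ≤ D then 1 else 0) +
      Real.exp (-(I * h + n)) * Real.exp ((S + 1) * D) := by
  have p1 : ∀ i ∈ Finset.range I, 0 ≤ Real.exp (S * (((i : ℕ) + 1) * h)) * (if (i : ℝ) * h ≤ D then (1 : ℝ) else 0) := by
    intro i _
    split_ifs
    · positivity
    · simp
  have p2 : ∀ i ∈ Finset.range n, 0 ≤ Real.exp (S * (I * h + (i : ℕ) + 1)) * (if I * h + (i : ℝ) ≤ D then (1 : ℝ) else 0) := by
    intro i _
    split_ifs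
    · positivity
    · simp
  have s1 := Finset.sum_nonneg p1
  have s2 := Finset.sum_nonneg p2
  have s3 : 0 ≤ Real.exp (-(I * h + n)) * Real.exp ((S + 1) * D) := by positivity
  rcases lt_or_ge D (I * h) with h1 | h1
  · obtain ⟨i, hi⟩ : ∃ i : ℕ, i = ⌊D / h⌋₊ := ⟨_, rfl⟩
    have a1 : (i : ℝ) ≤ D / h := by rw [hi]; exact Nat.floor_le (by positivity)
    have a2 : D / h < i + 1 := by rw [hi]; exact Nat.lt_floor_add_one _
    rw [le_div_iff₀ hh] at a1
    rw [div_lt_iff₀ hh] at a2
    have a3 : i ∈ Finset.range I := by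
      rw [Finset.mem_range]
      have : (i : ℝ) * h < I * h := by linarith
      exact_mod_cast lt_of_mul_lt_mul_right this hh.le
    have a4 := Finset.single_le_sum p1 a3
    rw [if_pos a1, mul_one] at a4
    have a5 : Real.exp (S * D) ≤ Real.exp (S * ((i + 1) * h)) := by
      apply Real.exp_le_exp.2
      exact mul_le_mul_of_nonneg_left a2.le hS
    linarith
  · rcases lt_or_ge D (I * h + n) with h2 | h2
    · obtain ⟨i, hi⟩ : ∃ i : ℕ, i = ⌊D - I * h⌋₊ := ⟨_, rfl⟩
      have a1 : (i : ℝ) ≤ D - I * h := by rw [hi]; exact Nat.floor_le (by linarith)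
      have a2 : D - I * h < i + 1 := by rw [hi]; exact Nat.lt_floor_add_one _
      have a3 : i ∈ Finset.range n := by
        rw [Finset.mem_range]
        have : (i : ℝ) < n := by linarith
        exact_mod_cast this
      have a4 := Finset.single_le_sum p2 a3
      rw [if_pos (by linarith), mul_one] at a4
      have a5 : Real.exp (S * D) ≤ Real.exp (S * (I * h + i + 1)) := by
        apply Real.exp_le_exp.2
        exact mul_le_mul_of_nonneg_left (by linarith) hS
      linarith
    · have a1 : Real.exp (S * D) ≤ Real.exp (-(I * h + n)) * Real.exp ((S + 1) * D) := by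
        rw [← Real.exp_add]
        apply Real.exp_le_exp.2
        linarith
      linarith

lemma int_ind {T c : ℝ} (hT : 0 ≤ T) {D : ℝ → ℝ} (hD : Measurable D) :
    IntegrableOn (fun t => if c ≤ D t then (1 : ℝ) else 0) (Ioc T (2 * T)) ∧
    ∫ t in Ioc T (2 * T), (if c ≤ D t then (1 : ℝ) else 0) = PT T {t | c ≤ D t} := by
  have hS : MeasurableSet {t | c ≤ D t} := measurableSet_le measurable_const hD
  have e : (fun t => if c ≤ D t then (1 : ℝ) else 0) = fun t => ({t | c ≤ D t}).indicator (fun _ => (1 : ℝ)) t := by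
    funext t
    by_cases h : c ≤ D t
    · rw [if_pos h, indicator_of_mem (by exact h)]
    · rw [if_neg h, indicator_of_notMem (by exact h)]
  rw [e]
  refine ⟨Integrable.indicator (integrableOn_const (by simp)) hS, ?_⟩
  rw [integral_indicator hS, Measure.restrict_restrict hS, setIntegral_const, smul_eq_mul, mul_one, inter_comm]
  rfl

/-- the layers, integrated -/
lemma int_layer {T S h : ℝ} (hT : 0 ≤ T) (hS : 0 ≤ S) (hh : 0 < h) {D : ℝ → ℝ} (hDm : Measurable D) (hD : ∀ t, 0 ≤ D t)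
    (hi : IntervalIntegrable (fun t => Real.exp ((S + 1) * D t)) volume T (2 * T)) (I n : ℕ) :
    ∫ t in T..(2 * T), Real.exp (S * D t) ≤
      ∑ i ∈ Finset.range I, Real.exp (S * ((i + 1) * h)) * PT T {t | i * h ≤ D t} +
      ∑ i ∈ Finset.range n, Real.exp (S * (I * h + i + 1)) * PT T {t | I * h + i ≤ D t} +
      Real.exp (-(I * h + n)) * ∫ t in T..(2 * T), Real.exp ((S + 1) * D t) := by
  have hTT : T ≤ 2 * T := by linarith
  rw [intervalIntegral.integral_of_le hTT, intervalIntegral.integral_of_le hTT]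
  have hi' := (intervalIntegrable_iff_integrableOn_Ioc_of_le hTT).1 hi
  have i1 : ∀ i ∈ Finset.range I, Integrable (fun t => Real.exp (S * ((i + 1) * h)) * (if i * h ≤ D t then (1 : ℝ) else 0))
      (volume.restrict (Ioc T (2 * T))) := fun i _ => (int_ind hT hDm).1.const_mul _
  have i2 : ∀ i ∈ Finset.range n, Integrable (fun t => Real.exp (S * (I * h + i + 1)) * (if I * h + i ≤ D t then (1 : ℝ) else 0))
      (volume.restrict (Ioc T (2 * T))) := fun i _ => (int_ind hT hDm).1.const_mul _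
  have j1 := integrable_finsetSum _ i1
  have j2 := integrable_finsetSum _ i2
  have j3 := hi'.const_mul (Real.exp (-(I * h + n)))
  have h1 := integral_mono_of_nonneg (μ := volume.restrict (Ioc T (2 * T))) (f := fun t => Real.exp (S * D t))
    (Eventually.of_forall fun t => (Real.exp_pos _).le) ((j1.add j2).add j3)
    (Eventually.of_forall fun t => pw_layer hS hh (hD t) I n)
  refine h1.trans (le_of_eq ?_)
  simp only [Pi.add_apply]
  rw [integral_add (by exact j1.add j2) j3, integral_add j1 j2, integral_finsetSum _ i1, integral_finsetSum _ i2, integral_const_mul]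
  congr 1
  congr 1
  · refine Finset.sum_congr rfl fun i _ => ?_
    rw [integral_const_mul, (int_ind hT hDm).2]
  · refine Finset.sum_congr rfl fun i _ => ?_
    rw [integral_const_mul, (int_ind hT hDm).2]

lemma geo_sum (n : ℕ) : ∑ i ∈ Finset.range n, Real.exp (-(i : ℝ)) ≤ 2 := by
  have h1 : ∀ i : ℕ, Real.exp (-(i : ℝ)) ≤ (1 / 2) ^ i := by
    intro i
    have e : Real.exp (-(i : ℝ)) = Real.exp (-1) ^ i := by
      rw [← Real.exp_nat_mul]; congr 1; ring
    rw [e]
    apply pow_le_pow_left₀ (Real.exp_pos _).le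
    rw [Real.exp_neg, ← one_div]
    apply one_div_le_one_div_of_le (by norm_num)
    linarith [Real.exp_one_gt_d9]
  have h2 : ∀ n : ℕ, ∑ i ∈ Finset.range n, ((1 : ℝ) / 2) ^ i = 2 - 2 * (1 / 2) ^ n := by
    intro n
    induction n with
    | zero => simp
    | succ n ih => rw [Finset.sum_range_succ, ih]; ring
  have h3 := Finset.sum_le_sum fun i (_ : i ∈ Finset.range n) => h1 i
  rw [h2] at h3
  have h4 : (0 : ℝ) ≤ 2 * (1 / 2) ^ n := by positivity
  linarith

lemma Dv_meas (T : ℝ) (m : ℕ) : Measurable (fun t => Dv T t m) := by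
  have h1 := NZr_meas (2 * Real.pi * m / Real.log T)
  have h2 := NZr_meas 0
  simp only [add_zero] at h2
  exact ((h1.sub h2).sub_const _).const_mul _

lemma exp_Dv (s T t : ℝ) (m : ℕ) : Real.exp (s * Dv T t m) =
    Real.exp ((s * Real.pi) * (((NZ (t + 2 * Real.pi * m / Real.log T) : ℝ) - NZ t) - m)) := by
  unfold Dv
  congr 1
  ring

lemma exp_Dv_int (s T A B : ℝ) (m : ℕ) : IntervalIntegrable (fun t => Real.exp (s * Dv T t m)) volume A B := by
  simp only [exp_Dv]
  exact ee_int _ _ _ _ _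

lemma exp_abs_int {S : ℝ} (T A B : ℝ) (m : ℕ) :
    IntervalIntegrable (fun t => Real.exp (S * |Dv T t m|)) volume A B := by
  refine IntervalIntegrable.mono_fun ((exp_Dv_int S T A B m).add (exp_Dv_int (-S) T A B m)) ?_ ?_
  · have h := Dv_meas T m
    exact (Real.measurable_exp.comp ((h.abs).const_mul S)).aestronglyMeasurable
  · refine Eventually.of_forall fun t => ?_
    simp only [Pi.add_apply]
    rw [Real.norm_of_nonneg (Real.exp_pos _).le, Real.norm_of_nonneg (by positivity)]
    rcases abs_cases (Dv T t m) with ⟨h, _⟩ | ⟨h, _⟩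
    · rw [h]
      linarith [Real.exp_pos (-S * Dv T t m)]
    · rw [h]
      have e : S * -Dv T t m = -S * Dv T t m := by ring
      rw [e]
      linarith [Real.exp_pos (S * Dv T t m)]

/-- **the exponential moments, upper bound** -/
theorem exp_up (hRH : RHs) {S ε : ℝ} (hS : 0 ≤ S) (hε : 0 < ε) : ∀ᶠ m : ℕ in atTop, ∀ᶠ T : ℝ in atTop,
    ∫ t in T..(2 * T), Real.exp (S * |Dv T t m|) ≤ Real.exp ((S ^ 2 / 2 + ε) * Real.log m) * T := by
  obtain ⟨C, Y0, hC1, htail⟩ := tail_D hRH (s := S + 1) (by linarith)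
  obtain ⟨η, hηd⟩ : ∃ η : ℝ, η = ε / (2 * (S + 1)) := ⟨_, rfl⟩
  have hη : 0 < η := by rw [hηd]; positivity
  have hηε : (S + 1) * η = ε / 2 := by rw [hηd]; field_simp
  obtain ⟨I, hI⟩ : ∃ I : ℕ, I = ⌈C / η⌉₊ := ⟨_, rfl⟩
  have hIC : C ≤ I * η := by
    rw [← div_le_iff₀ hη, hI]
    exact Nat.le_ceil _
  have hDup : ∀ᶠ m : ℕ in atTop, ∀ i ∈ Finset.range I, ∀ᶠ T : ℝ in atTop,
      PT T {t | (i * η) * Real.log m ≤ |Dv T t m|} ≤ Real.exp (-(((i * η) ^ 2 / 2 - η) * Real.log m)) * T := by
    rw [Filter.eventually_all_finset]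
    intro i _
    exact D_up hRH (by positivity) hη
  have hlog : ∀ᶠ m : ℕ in atTop, (I : ℝ) + 2 * Real.exp S + 1 ≤ Real.exp (ε / 2 * Real.log m) ∧ |Y0| + 1 ≤ Real.log m := by
    have h1 := log_nat_atTop.eventually ((poly_exp ((I : ℝ) + 2 * Real.exp S + 1) 0 (κ := ε / 2) (by positivity)).and
      (eventually_ge_atTop (|Y0| + 1)))
    filter_upwards [h1] with m hm
    refine ⟨?_, hm.2⟩
    have := hm.1
    rwa [pow_zero, mul_one] at this
  filter_upwards [hDup, hlog, eventually_ge_atTop 1] with m g1 g2 hm1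
  obtain ⟨g2, g3⟩ := g2
  obtain ⟨L, hL⟩ : ∃ L : ℝ, L = Real.log m := ⟨_, rfl⟩
  have hg1 := g1
  rw [← hL] at g2 g3 ⊢
  simp only [← hL] at hg1
  have hL1 : 1 ≤ L := by linarith [abs_nonneg Y0]
  have hL0 : 0 < L := by linarith
  have hLY : Y0 ≤ L := by linarith [le_abs_self Y0]
  obtain ⟨B, hB0, hB⟩ := cnt_exp hRH (s := (S + 1) * Real.pi) (mul_pos (by linarith) Real.pi_pos) m
  obtain ⟨n, hn⟩ : ∃ n : ℕ, n = ⌈(S + 1) * Real.pi * m + Real.log B⌉₊ := ⟨_, rfl⟩
  have hn1 : (S + 1) * Real.pi * m + Real.log B ≤ n := by rw [hn]; exact Nat.le_ceil _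
  obtain ⟨y0, hy0⟩ : ∃ y0 : ℝ, y0 = I * (η * L) := ⟨_, rfl⟩
  have hCy : C * L ≤ y0 := by
    rw [hy0]
    have := mul_le_mul_of_nonneg_right hIC hL0.le
    linarith
  have hLy : L ≤ y0 := by nlinarith
  have hy00 : 0 ≤ y0 := by linarith
  have htl : ∀ i ∈ Finset.range n, ∀ᶠ T : ℝ in atTop, PT T {t | y0 + i ≤ |Dv T t m|} ≤ Real.exp (-((S + 1) * (y0 + i))) * T := by
    intro i _
    have hi0 : (0 : ℝ) ≤ i := Nat.cast_nonneg i
    apply htail (y0 + i) (by linarith) m hm1
    rw [← hL, le_div_iff₀ (by linarith)]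
    linarith
  have hg2 := (Filter.eventually_all_finset (Finset.range I)).2 hg1
  have hg3 := (Filter.eventually_all_finset (Finset.range n)).2 htl
  filter_upwards [hg2, hg3, hB, eventually_ge_atTop (0 : ℝ), Real.tendsto_log_atTop.eventually_ge_atTop 1]
    with T k1 k2 k3 hT0 hT1
  have hlay := int_layer (T := T) (S := S) (h := η * L) hT0 hS (by positivity) (D := fun t => |Dv T t m|) (Dv_meas T m).abs
    (fun t => abs_nonneg _) (exp_abs_int T _ _ m) I n
  simp only [← hy0] at hlay
  refine hlay.trans ?_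
  -- the first sum
  have b1 : ∑ i ∈ Finset.range I, Real.exp (S * ((i + 1) * (η * L))) * PT T {t | i * (η * L) ≤ |Dv T t m|} ≤
      I * Real.exp ((S ^ 2 / 2 + ε / 2) * L) * T := by
    have : ∀ i ∈ Finset.range I, Real.exp (S * ((i + 1) * (η * L))) * PT T {t | i * (η * L) ≤ |Dv T t m|} ≤
        Real.exp ((S ^ 2 / 2 + ε / 2) * L) * T := by
      intro i hi
      have h1 := k1 i hi
      have e : {t | i * (η * L) ≤ |Dv T t m|} = {t | (i * η) * L ≤ |Dv T t m|} := by
        ext t
        simp only [mem_ofPred_eq]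
        rw [mul_assoc]
      rw [e]
      calc Real.exp (S * ((i + 1) * (η * L))) * PT T {t | (i * η) * L ≤ |Dv T t m|} ≤
          Real.exp (S * ((i + 1) * (η * L))) * (Real.exp (-(((i * η) ^ 2 / 2 - η) * L)) * T) := by gcongr
        _ = Real.exp (S * ((i + 1) * (η * L)) + -(((i * η) ^ 2 / 2 - η) * L)) * T := by rw [Real.exp_add]; ring
        _ ≤ Real.exp ((S ^ 2 / 2 + ε / 2) * L) * T := by
            apply mul_le_mul_of_nonneg_right _ hT0
            apply Real.exp_le_exp.2
            have h2 : S * ((i + 1) * η) - ((i * η) ^ 2 / 2 - η) ≤ S ^ 2 / 2 + ε / 2 := by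
              have := sq_nonneg (S - i * η)
              nlinarith
            have h3 := mul_le_mul_of_nonneg_right h2 hL0.le
            linarith
    refine (Finset.sum_le_sum this).trans (le_of_eq ?_)
    rw [Finset.sum_const, Finset.card_range, nsmul_eq_mul]
    ring
  -- the second sum
  have b2 : ∑ i ∈ Finset.range n, Real.exp (S * (y0 + i + 1)) * PT T {t | y0 + i ≤ |Dv T t m|} ≤ 2 * Real.exp S * T := by
    have : ∀ i ∈ Finset.range n, Real.exp (S * (y0 + i + 1)) * PT T {t | y0 + i ≤ |Dv T t m|} ≤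
        Real.exp (-(i : ℝ)) * (Real.exp S * T) := by
      intro i hi
      have h1 := k2 i hi
      calc Real.exp (S * (y0 + i + 1)) * PT T {t | y0 + i ≤ |Dv T t m|} ≤
          Real.exp (S * (y0 + i + 1)) * (Real.exp (-((S + 1) * (y0 + i))) * T) := by gcongr
        _ = Real.exp (S * (y0 + i + 1) + -((S + 1) * (y0 + i))) * T := by rw [Real.exp_add]; ring
        _ ≤ Real.exp (-(i : ℝ) + S) * T := by
            apply mul_le_mul_of_nonneg_right _ hT0
            apply Real.exp_le_exp.2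
            linarith
        _ = _ := by rw [Real.exp_add]; ring
    refine (Finset.sum_le_sum this).trans ?_
    rw [← Finset.sum_mul]
    calc (∑ i ∈ Finset.range n, Real.exp (-(i : ℝ))) * (Real.exp S * T) ≤ 2 * (Real.exp S * T) := by
          apply mul_le_mul_of_nonneg_right (geo_sum n)
          positivity
      _ = _ := by ring
  -- the last term
  have b3 : Real.exp (-(y0 + n)) * ∫ t in T..(2 * T), Real.exp ((S + 1) * |Dv T t m|) ≤ T := by
    have h1 : ∫ t in T..(2 * T), Real.exp ((S + 1) * |Dv T t m|) ≤ Real.exp ((S + 1) * Real.pi * m) * (B * T) := by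
      refine le_trans ?_ (mul_le_mul_of_nonneg_left k3 (Real.exp_pos _).le)
      rw [← intervalIntegral.integral_const_mul]
      apply intervalIntegral.integral_mono_on (by linarith) (exp_abs_int T _ _ m) ((ee_int _ _ _ _ _).const_mul _)
      intro t _
      rw [← Real.exp_add]
      apply Real.exp_le_exp.2
      have h2 : NZ t ≤ NZ (t + 2 * Real.pi * m / Real.log T) := by
        apply SG.NZ_mono
        have : 0 ≤ 2 * Real.pi * m / Real.log T := by positivity
        linarith
      have h3 : (NZ t : ℝ) ≤ NZ (t + 2 * Real.pi * m / Real.log T) := by exact_mod_cast h2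
      have hm0 : (0 : ℝ) ≤ m := Nat.cast_nonneg m
      have h4 : |Dv T t m| ≤ Real.pi * (((NZ (t + 2 * Real.pi * m / Real.log T) : ℝ) - NZ t) + m) := by
        unfold Dv
        rw [abs_mul, abs_of_pos Real.pi_pos]
        apply mul_le_mul_of_nonneg_left _ Real.pi_pos.le
        rw [abs_le]
        constructor <;> linarith
      have h5 := mul_le_mul_of_nonneg_left h4 (by linarith : (0 : ℝ) ≤ S + 1)
      rw [sub_zero]
      linarith
    calc Real.exp (-(y0 + n)) * ∫ t in T..(2 * T), Real.exp ((S + 1) * |Dv T t m|) ≤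
        Real.exp (-(y0 + n)) * (Real.exp ((S + 1) * Real.pi * m) * (B * T)) := by gcongr
      _ = (Real.exp (-(y0 + n)) * Real.exp ((S + 1) * Real.pi * m) * Real.exp (Real.log B)) * T := by
          rw [Real.exp_log hB0]; ring
      _ = Real.exp (-(y0 + n) + (S + 1) * Real.pi * m + Real.log B) * T := by rw [Real.exp_add, Real.exp_add]
      _ ≤ 1 * T := by
          apply mul_le_mul_of_nonneg_right _ hT0
          rw [Real.exp_le_one_iff]
          linarith
      _ = T := one_mul T
  have b4 : (I : ℝ) * Real.exp ((S ^ 2 / 2 + ε / 2) * L) * T + 2 * Real.exp S * T + T ≤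
      Real.exp ((S ^ 2 / 2 + ε) * L) * T := by
    have h1 : 1 ≤ Real.exp ((S ^ 2 / 2 + ε / 2) * L) := by
      rw [Real.one_le_exp_iff]
      positivity
    have h2 : (I : ℝ) * Real.exp ((S ^ 2 / 2 + ε / 2) * L) + 2 * Real.exp S + 1 ≤
        ((I : ℝ) + 2 * Real.exp S + 1) * Real.exp ((S ^ 2 / 2 + ε / 2) * L) := by
      have h3 : 2 * Real.exp S ≤ 2 * Real.exp S * Real.exp ((S ^ 2 / 2 + ε / 2) * L) :=
        le_mul_of_one_le_right (by positivity) h1
      linarith
    have h4 : ((I : ℝ) + 2 * Real.exp S + 1) * Real.exp ((S ^ 2 / 2 + ε / 2) * L) ≤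
        Real.exp ((S ^ 2 / 2 + ε) * L) := by
      calc ((I : ℝ) + 2 * Real.exp S + 1) * Real.exp ((S ^ 2 / 2 + ε / 2) * L) ≤
          Real.exp (ε / 2 * L) * Real.exp ((S ^ 2 / 2 + ε / 2) * L) := by gcongr
        _ = _ := by rw [← Real.exp_add]; congr 1; ring
    have h5 := mul_le_mul_of_nonneg_right (h2.trans h4) hT0
    linarith
  linarith

/-- **the exponential moments, lower bound** -/
theorem exp_low (hRH : RHs) (s : ℝ) {ε : ℝ} (hε : 0 < ε) : ∀ᶠ m : ℕ in atTop, ∀ᶠ T : ℝ in atTop,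
    Real.exp ((s ^ 2 / 2 - ε) * Real.log m) * T ≤ ∫ t in T..(2 * T), Real.exp (s * Dv T t m) := by
  obtain ⟨η, hηd⟩ : ∃ η : ℝ, η = ε / (|s| + 1) := ⟨_, rfl⟩
  have hs0 := abs_nonneg s
  have hη : 0 < η := by rw [hηd]; positivity
  have hηε : (|s| + 1) * η = ε := by rw [hηd]; field_simp
  filter_upwards [D_low hRH s hη, log_nat_atTop.eventually_ge_atTop 1] with m h1 hL1
  filter_upwards [h1, eventually_ge_atTop (0 : ℝ)] with T h2 hT0
  obtain ⟨L, hL⟩ : ∃ L : ℝ, L = Real.log m := ⟨_, rfl⟩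
  rw [← hL] at h2 hL1 ⊢
  have hL0 : 0 < L := by linarith
  have h3 := PT_markov (T := T) hT0 (f := fun t => Real.exp (s * Dv T t m)) (exp_Dv_int _ _ _ _ _)
    (fun t => (Real.exp_pos _).le) (c := Real.exp ((s ^ 2 - |s| * η) * L)) (Real.exp_pos _)
    (S := {t | |Dv T t m - s * L| ≤ η * L}) (fun t _ ht => by
      have ht' : |Dv T t m - s * L| ≤ η * L := ht
      apply Real.exp_le_exp.2
      have h4 : -(|s| * (η * L)) ≤ s * (Dv T t m - s * L) := by
        have h5 : |s * (Dv T t m - s * L)| ≤ |s| * (η * L) := by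
          rw [abs_mul]
          exact mul_le_mul_of_nonneg_left ht' hs0
        exact (abs_le.1 h5).1
      nlinarith)
  rw [le_div_iff₀ (Real.exp_pos _)] at h3
  refine le_trans ?_ h3
  refine le_trans ?_ (mul_le_mul_of_nonneg_right h2 (Real.exp_pos _).le)
  calc Real.exp ((s ^ 2 / 2 - ε) * L) * T = Real.exp (-((s ^ 2 / 2 + η) * L) + (s ^ 2 - |s| * η) * L) * T := by
        congr 2
        rw [← hηε]
        ring
    _ = Real.exp (-((s ^ 2 / 2 + η) * L)) * T * Real.exp ((s ^ 2 - |s| * η) * L) := by rw [Real.exp_add]; ring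
    _ ≤ _ := le_rfl

end

end Run7.h435.MD
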