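import Pool.Agent.Run7.h435.LDe

/-! # Windows of real length -/

set_option autoImplicit false

namespace Run7.h435.MD

open Filter Topology MeasureTheory Set
open SP (RHs)
open SG (NZ)

noncomputable section

/-- the deviation of the count in a window of real length -/
def Dx (T t x : ℝ) : ℝ := Real.pi * (((NZ (t + 2 * Real.pi * x / Real.log T) : ℝ) - NZ t) - x)

lemma Dx_nat (T t : ℝ) (m : ℕ) : Dx T t m = Dv T t m := rfl

lemma Dx_le {T t x y : ℝ} (hT : 0 < Real.log T) (h : x ≤ y) : Dx T t x ≤ Dx T t y + Real.pi * (y - x) := by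
  unfold Dx
  have h1 : NZ (t + 2 * Real.pi * x / Real.log T) ≤ NZ (t + 2 * Real.pi * y / Real.log T) := by
    apply SG.NZ_mono
    have h2 := Real.pi_pos
    have : 2 * Real.pi * x / Real.log T ≤ 2 * Real.pi * y / Real.log T := by gcongr
    linarith
  have h3 : (NZ (t + 2 * Real.pi * x / Real.log T) : ℝ) ≤ NZ (t + 2 * Real.pi * y / Real.log T) := by exact_mod_cast h1
  have h4 := mul_le_mul_of_nonneg_left h3 Real.pi_pos.le
  linarith

lemma Dx_meas (T x : ℝ) : Measurable (fun t => Dx T t x) := by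
  have h1 := NZr_meas (2 * Real.pi * x / Real.log T)
  have h2 := NZr_meas 0
  simp only [add_zero] at h2
  exact ((h1.sub h2).sub_const _).const_mul _

lemma exp_Dx (s T t x : ℝ) : Real.exp (s * Dx T t x) =
    Real.exp ((s * Real.pi) * (((NZ (t + 2 * Real.pi * x / Real.log T) : ℝ) - NZ t) - x)) := by
  unfold Dx
  congr 1
  ring

lemma exp_Dx_int (s T x A B : ℝ) : IntervalIntegrable (fun t => Real.exp (s * Dx T t x)) volume A B := by
  simp only [exp_Dx]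
  exact ee_int _ _ _ _ _

lemma exp_Dxabs_int (S T x A B : ℝ) :
    IntervalIntegrable (fun t => Real.exp (S * |Dx T t x|)) volume A B := by
  refine IntervalIntegrable.mono_fun ((exp_Dx_int S T x A B).add (exp_Dx_int (-S) T x A B)) ?_ ?_
  · have h := Dx_meas T x
    exact (Real.measurable_exp.comp ((h.abs).const_mul S)).aestronglyMeasurable
  · refine Eventually.of_forall fun t => ?_
    simp only [Pi.add_apply]
    rw [Real.norm_of_nonneg (Real.exp_pos _).le, Real.norm_of_nonneg (by positivity)]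
    rcases abs_cases (Dx T t x) with ⟨h, _⟩ | ⟨h, _⟩
    · rw [h]
      linarith [Real.exp_pos (-S * Dx T t x)]
    · rw [h]
      have e : S * -Dx T t x = -S * Dx T t x := by ring
      rw [e]
      linarith [Real.exp_pos (S * Dx T t x)]

/-- the sandwich -/
lemma Dx_abs {T t x : ℝ} (hT : 0 < Real.log T) (hx : 0 ≤ x) :
    |Dx T t x| ≤ max |Dv T t ⌊x⌋₊| |Dv T t (⌊x⌋₊ + 1)| + Real.pi := by
  have h1 : (⌊x⌋₊ : ℝ) ≤ x := Nat.floor_le hx
  have h2 : x < ⌊x⌋₊ + 1 := Nat.lt_floor_add_one _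
  have hpi := Real.pi_pos
  have h3 := Dx_le (T := T) (t := t) hT h1
  have h4 := Dx_le (T := T) (t := t) (x := x) (y := ((⌊x⌋₊ + 1 : ℕ) : ℝ)) hT (by push_cast; exact h2.le)
  rw [Dx_nat] at h3 h4
  push_cast at h4
  have h5 : Real.pi * (x - ⌊x⌋₊) ≤ Real.pi * 1 := mul_le_mul_of_nonneg_left (by linarith) hpi.le
  have h6 : Real.pi * ((⌊x⌋₊ : ℝ) + 1 - x) ≤ Real.pi * 1 := mul_le_mul_of_nonneg_left (by linarith) hpi.le
  have h7 := le_max_left |Dv T t ⌊x⌋₊| |Dv T t (⌊x⌋₊ + 1)|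
  have h8 := le_max_right |Dv T t ⌊x⌋₊| |Dv T t (⌊x⌋₊ + 1)|
  have h9 := neg_abs_le (Dv T t ⌊x⌋₊)
  have h10 := le_abs_self (Dv T t (⌊x⌋₊ + 1))
  rw [abs_le]
  constructor <;> linarith

lemma log_floor {x : ℝ} (hx : 1 ≤ x) : |Real.log (⌊x⌋₊ : ℕ) - Real.log x| ≤ 1 ∧ |Real.log ((⌊x⌋₊ + 1 : ℕ) : ℝ) - Real.log x| ≤ 1 := by
  have hx0 : 0 < x := by linarith
  have h1 : (⌊x⌋₊ : ℝ) ≤ x := Nat.floor_le hx0.le
  have h2 : x < ⌊x⌋₊ + 1 := Nat.lt_floor_add_one _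
  have h3 : (1 : ℝ) ≤ ⌊x⌋₊ := by
    have : 1 ≤ ⌊x⌋₊ := Nat.le_floor (by simpa using hx)
    exact_mod_cast this
  have hl2 : Real.log 2 ≤ 1 := by
    have := Real.log_two_lt_d9
    linarith
  have h4 : Real.log (⌊x⌋₊ : ℝ) ≤ Real.log x := Real.log_le_log (by linarith) h1
  have h5 : Real.log x ≤ Real.log (⌊x⌋₊ + 1) := Real.log_le_log hx0 h2.le
  have h6 : Real.log ((⌊x⌋₊ : ℝ) + 1) ≤ Real.log 2 + Real.log (⌊x⌋₊ : ℝ) := by
    rw [← Real.log_mul (by norm_num) (by linarith)]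
    exact Real.log_le_log (by linarith) (by linarith)
  push_cast
  constructor
  · rw [abs_le]
    constructor <;> linarith
  · rw [abs_le]
    constructor <;> linarith

lemma ev_floor {P : ℕ → Prop} (h : ∀ᶠ m : ℕ in atTop, P m) : ∀ᶠ x : ℝ in atTop, P ⌊x⌋₊ ∧ P (⌊x⌋₊ + 1) := by
  have h1 : Tendsto (fun x : ℝ => ⌊x⌋₊) atTop atTop := tendsto_nat_floor_atTop
  exact (h1.eventually h).and (((tendsto_add_atTop_nat 1).comp h1).eventually h)

/-- **deviations, upper bound** -/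
theorem xD_up (hRH : RHs) {c ε : ℝ} (hc : 0 ≤ c) (hε : 0 < ε) : ∀ᶠ x : ℝ in atTop, ∀ᶠ T : ℝ in atTop,
    PT T {t | c * Real.log x ≤ |Dx T t x|} ≤ Real.exp (-((c ^ 2 / 2 - ε) * Real.log x)) * T := by
  obtain ⟨η, hηd⟩ : ∃ η : ℝ, η = ε / (4 * (c + 1)) := ⟨_, rfl⟩
  have hη : 0 < η := by rw [hηd]; positivity
  have hcη : (c + 1) * η = ε / 4 := by rw [hηd]; field_simp
  obtain ⟨c', hc'⟩ : ∃ c' : ℝ, c' = max 0 (c - η) := ⟨_, rfl⟩
  have hc'0 : 0 ≤ c' := by rw [hc']; exact le_max_left _ _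
  have hc'c : c' ≤ c := by rw [hc']; exact max_le hc (by linarith)
  have hc'2 : c ^ 2 / 2 - ε / 4 ≤ c' ^ 2 / 2 := by
    rcases le_or_gt c η with h | h
    · have h1 : c ^ 2 ≤ c * η := by rw [sq]; exact mul_le_mul_of_nonneg_left h hc
      have h2 := sq_nonneg c'
      nlinarith
    · have h1 : c' = c - η := by rw [hc']; exact max_eq_right (by linarith)
      rw [h1]
      have h2 := sq_nonneg η
      nlinarith
  obtain ⟨A, hA⟩ : ∃ A : ℝ, A = |c' ^ 2 / 2 - η| := ⟨_, rfl⟩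
  have hA0 : 0 ≤ A := by rw [hA]; exact abs_nonneg _
  filter_upwards [ev_floor (D_up hRH hc'0 hη), eventually_ge_atTop (1 : ℝ),
    Real.tendsto_log_atTop.eventually ((poly_exp (2 * Real.exp A) 0 (κ := ε / 2) (by positivity)).and
      ((eventually_ge_atTop ((Real.pi + c) / η)).and (eventually_ge_atTop (1 : ℝ))))] with x h1 hx1 h2
  obtain ⟨h2, h3, hL1⟩ := h2
  rw [pow_zero, mul_one] at h2
  rw [div_le_iff₀ hη] at h3
  obtain ⟨l1, l2⟩ := log_floor hx1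
  filter_upwards [h1.1, h1.2, eventually_ge_atTop (0 : ℝ), Real.tendsto_log_atTop.eventually_ge_atTop 1] with T g1 g2 hT0 hT1
  obtain ⟨L, hL⟩ : ∃ L : ℝ, L = Real.log x := ⟨_, rfl⟩
  rw [← hL] at h2 h3 hL1 l1 l2 ⊢
  have hsub : ∀ l : ℝ, |l - L| ≤ 1 → c' * l ≤ c * L - Real.pi ∨ c' = 0 := by
    intro l hl
    rcases le_or_gt c η with h | h
    · right
      rw [hc']; exact max_eq_left (by linarith)
    · left
      have h4 : c' = c - η := by rw [hc']; exact max_eq_right (by linarith)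
      have h5 : l ≤ L + 1 := by linarith [(abs_le.1 hl).2]
      calc c' * l ≤ c' * (L + 1) := mul_le_mul_of_nonneg_left h5 hc'0
        _ ≤ c * L - Real.pi := by rw [h4]; linarith
  have hinc : ∀ t ∈ Ioc T (2 * T), t ∈ {t | c * L ≤ |Dx T t x|} → t ∈ {t | c' * Real.log (⌊x⌋₊ : ℕ) ≤ |Dv T t ⌊x⌋₊|} ∪
      {t | c' * Real.log ((⌊x⌋₊ + 1 : ℕ) : ℝ) ≤ |Dv T t (⌊x⌋₊ + 1)|} := by
    intro t _ ht
    have ht' : c * L ≤ |Dx T t x| := ht
    have h4 := Dx_abs (T := T) (t := t) (x := x) (by linarith) (by linarith)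
    rcases le_total |Dv T t ⌊x⌋₊| |Dv T t (⌊x⌋₊ + 1)| with h5 | h5
    · right
      rw [max_eq_right h5] at h4
      show c' * Real.log ((⌊x⌋₊ + 1 : ℕ) : ℝ) ≤ |Dv T t (⌊x⌋₊ + 1)|
      rcases hsub _ l2 with h6 | h6
      · linarith
      · rw [h6, zero_mul]; exact abs_nonneg _
    · left
      rw [max_eq_left h5] at h4
      show c' * Real.log (⌊x⌋₊ : ℕ) ≤ |Dv T t ⌊x⌋₊|
      rcases hsub _ l1 with h6 | h6
      · linarith
      · rw [h6, zero_mul]; exact abs_nonneg _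
  refine (PT_mono hinc).trans ((PT_union _ _ _).trans ((add_le_add g1 g2).trans ?_))
  rw [← add_mul]
  apply mul_le_mul_of_nonneg_right _ hT0
  have hb : ∀ l : ℝ, |l - L| ≤ 1 → Real.exp (-((c' ^ 2 / 2 - η) * l)) ≤ Real.exp A * Real.exp (-((c ^ 2 / 2 - ε / 2) * L)) := by
    intro l hl
    rw [← Real.exp_add]
    apply Real.exp_le_exp.2
    have h4 : |(c' ^ 2 / 2 - η) * (l - L)| ≤ A * 1 := by
      rw [abs_mul, ← hA]
      exact mul_le_mul_of_nonneg_left hl hA0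
    have h5 := (abs_le.1 h4).1
    have h6 : (c ^ 2 / 2 - ε / 2) ≤ c' ^ 2 / 2 - η := by
      have : η ≤ ε / 4 := by nlinarith
      linarith
    have h7 := mul_le_mul_of_nonneg_right h6 (by linarith : (0 : ℝ) ≤ L)
    linarith
  calc Real.exp (-((c' ^ 2 / 2 - η) * Real.log (⌊x⌋₊ : ℕ))) + Real.exp (-((c' ^ 2 / 2 - η) * Real.log ((⌊x⌋₊ + 1 : ℕ) : ℝ))) ≤
      Real.exp A * Real.exp (-((c ^ 2 / 2 - ε / 2) * L)) + Real.exp A * Real.exp (-((c ^ 2 / 2 - ε / 2) * L)) :=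
        add_le_add (hb _ l1) (hb _ l2)
    _ = (2 * Real.exp A) * Real.exp (-((c ^ 2 / 2 - ε / 2) * L)) := by ring
    _ ≤ Real.exp (ε / 2 * L) * Real.exp (-((c ^ 2 / 2 - ε / 2) * L)) := by gcongr
    _ = _ := by rw [← Real.exp_add]; congr 1; ring

/-- the common part of the lower bounds -/
lemma low_aux {c ε : ℝ} (hc : 0 ≤ c) (hε : 0 < ε) : ∃ η : ℝ, 0 < η ∧ ∀ᶠ x : ℝ in atTop, ∀ l : ℝ, |l - Real.log x| ≤ 1 →
    c * Real.log x + Real.pi ≤ (c + 2 * η) * l - η * l ∧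
    Real.exp (-((c ^ 2 / 2 + ε) * Real.log x)) ≤ Real.exp (-(((c + 2 * η) ^ 2 / 2 + η) * l)) := by
  obtain ⟨η, hηd⟩ : ∃ η : ℝ, η = min 1 (ε / (2 * (2 * c + 3))) := ⟨_, rfl⟩
  have hη : 0 < η := by rw [hηd]; exact lt_min one_pos (by positivity)
  have hη1 : η ≤ 1 := by rw [hηd]; exact min_le_left _ _
  have hη2 : (2 * c + 3) * η ≤ ε / 2 := by
    have : η ≤ ε / (2 * (2 * c + 3)) := by rw [hηd]; exact min_le_right _ _
    rw [le_div_iff₀ (by positivity)] at this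
    linarith
  refine ⟨η, hη, ?_⟩
  filter_upwards [Real.tendsto_log_atTop.eventually ((eventually_ge_atTop ((Real.pi + c + 2) / η)).and
    ((eventually_ge_atTop (2 * (c ^ 2 / 2 + ε) / ε)).and (eventually_ge_atTop (1 : ℝ))))] with x hx l hl
  obtain ⟨h1, h2, h3⟩ := hx
  obtain ⟨L, hL⟩ : ∃ L : ℝ, L = Real.log x := ⟨_, rfl⟩
  rw [← hL] at h1 h2 h3 hl ⊢
  rw [div_le_iff₀ hη] at h1
  rw [div_le_iff₀ hε] at h2
  have h4 := (abs_le.1 hl).1
  have h5 := (abs_le.1 hl).2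
  constructor
  · have h6 : (c + η) * (L - 1) ≤ (c + η) * l := mul_le_mul_of_nonneg_left (by linarith) (by linarith)
    nlinarith
  · apply Real.exp_le_exp.2
    have h6 : (c + 2 * η) ^ 2 / 2 + η ≤ c ^ 2 / 2 + ε / 2 := by nlinarith
    have h7 : ((c + 2 * η) ^ 2 / 2 + η) * l ≤ (c ^ 2 / 2 + ε / 2) * (L + 1) := by
      calc ((c + 2 * η) ^ 2 / 2 + η) * l ≤ ((c + 2 * η) ^ 2 / 2 + η) * (L + 1) :=
            mul_le_mul_of_nonneg_left (by linarith) (by positivity)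
        _ ≤ _ := mul_le_mul_of_nonneg_right h6 (by linarith)
    have hc2 := sq_nonneg c
    nlinarith

/-- **deviations upwards, lower bound** -/
theorem xD_lowp (hRH : RHs) {c ε : ℝ} (hc : 0 ≤ c) (hε : 0 < ε) : ∀ᶠ x : ℝ in atTop, ∀ᶠ T : ℝ in atTop,
    Real.exp (-((c ^ 2 / 2 + ε) * Real.log x)) * T ≤ PT T {t | c * Real.log x ≤ Dx T t x} := by
  obtain ⟨η, hη, hev⟩ := low_aux hc hε
  filter_upwards [ev_floor (D_low hRH (c + 2 * η) hη), hev, eventually_ge_atTop (1 : ℝ)] with x h1 h2 hx1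
  obtain ⟨a1, a2⟩ := h2 _ (log_floor hx1).1
  filter_upwards [h1.1, eventually_ge_atTop (0 : ℝ), Real.tendsto_log_atTop.eventually_ge_atTop 1] with T g1 hT0 hT1
  refine (mul_le_mul_of_nonneg_right a2 hT0).trans (g1.trans (PT_mono fun t _ ht => ?_))
  have ht' : |Dv T t ⌊x⌋₊ - (c + 2 * η) * Real.log (⌊x⌋₊ : ℕ)| ≤ η * Real.log (⌊x⌋₊ : ℕ) := ht
  have h3 := (abs_le.1 ht').1
  have h4 := Dx_le (T := T) (t := t) (by linarith) (Nat.floor_le (by linarith : (0 : ℝ) ≤ x))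
  rw [Dx_nat] at h4
  have h5 : Real.pi * (x - ⌊x⌋₊) ≤ Real.pi * 1 :=
    mul_le_mul_of_nonneg_left (by linarith [Nat.lt_floor_add_one x]) Real.pi_pos.le
  show c * Real.log x ≤ Dx T t x
  linarith

/-- **deviations downwards, lower bound** -/
theorem xD_lown (hRH : RHs) {c ε : ℝ} (hc : 0 ≤ c) (hε : 0 < ε) : ∀ᶠ x : ℝ in atTop, ∀ᶠ T : ℝ in atTop,
    Real.exp (-((c ^ 2 / 2 + ε) * Real.log x)) * T ≤ PT T {t | Dx T t x ≤ -(c * Real.log x)} := by
  obtain ⟨η, hη, hev⟩ := low_aux hc hε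
  filter_upwards [ev_floor (D_low hRH (-(c + 2 * η)) hη), hev, eventually_ge_atTop (1 : ℝ)] with x h1 h2 hx1
  obtain ⟨a1, a2⟩ := h2 _ (log_floor hx1).2
  filter_upwards [h1.2, eventually_ge_atTop (0 : ℝ), Real.tendsto_log_atTop.eventually_ge_atTop 1] with T g1 hT0 hT1
  rw [neg_sq] at g1
  refine (mul_le_mul_of_nonneg_right a2 hT0).trans (g1.trans (PT_mono fun t _ ht => ?_))
  have ht' : |Dv T t (⌊x⌋₊ + 1) - -(c + 2 * η) * Real.log ((⌊x⌋₊ + 1 : ℕ) : ℝ)| ≤ η * Real.log ((⌊x⌋₊ + 1 : ℕ) : ℝ) := ht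
  have h3 := (abs_le.1 ht').2
  have h4 := Dx_le (T := T) (t := t) (x := x) (y := ((⌊x⌋₊ + 1 : ℕ) : ℝ)) (by linarith)
    (by push_cast; exact (Nat.lt_floor_add_one x).le)
  rw [Dx_nat] at h4
  have h5 : Real.pi * (((⌊x⌋₊ + 1 : ℕ) : ℝ) - x) ≤ Real.pi * 1 := by
    apply mul_le_mul_of_nonneg_left _ Real.pi_pos.le
    push_cast
    linarith [Nat.floor_le (by linarith : (0 : ℝ) ≤ x)]
  show Dx T t x ≤ -(c * Real.log x)
  linarith

/-- **exponential moments, upper bound** -/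
theorem xexp_up (hRH : RHs) {S ε : ℝ} (hS : 0 ≤ S) (hε : 0 < ε) : ∀ᶠ x : ℝ in atTop, ∀ᶠ T : ℝ in atTop,
    ∫ t in T..(2 * T), Real.exp (S * |Dx T t x|) ≤ Real.exp ((S ^ 2 / 2 + ε) * Real.log x) * T := by
  obtain ⟨A, hA⟩ : ∃ A : ℝ, A = S ^ 2 / 2 + ε / 2 := ⟨_, rfl⟩
  have hA0 : 0 ≤ A := by rw [hA]; positivity
  filter_upwards [ev_floor (exp_up hRH hS (ε := ε / 2) (by positivity)), eventually_ge_atTop (1 : ℝ),
    Real.tendsto_log_atTop.eventually ((poly_exp (2 * Real.exp (S * Real.pi + A)) 0 (κ := ε / 2) (by positivity)).and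
      (eventually_ge_atTop (1 : ℝ)))] with x h1 hx1 h2
  obtain ⟨h2, hL1⟩ := h2
  rw [pow_zero, mul_one] at h2
  obtain ⟨l1, l2⟩ := log_floor hx1
  filter_upwards [h1.1, h1.2, eventually_ge_atTop (0 : ℝ), Real.tendsto_log_atTop.eventually_ge_atTop 1] with T g1 g2 hT0 hT1
  obtain ⟨L, hL⟩ : ∃ L : ℝ, L = Real.log x := ⟨_, rfl⟩
  rw [← hL] at h2 hL1 l1 l2 ⊢
  rw [← hA] at g1 g2
  have hp : ∀ t ∈ Icc T (2 * T), Real.exp (S * |Dx T t x|) ≤
      Real.exp (S * Real.pi) * (Real.exp (S * |Dv T t ⌊x⌋₊|) + Real.exp (S * |Dv T t (⌊x⌋₊ + 1)|)) := by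
    intro t _
    have h4 := Dx_abs (T := T) (t := t) (x := x) (by linarith) (by linarith)
    have h5 := mul_le_mul_of_nonneg_left h4 hS
    have h6 : Real.exp (S * |Dx T t x|) ≤ Real.exp (S * Real.pi) * Real.exp (S * max |Dv T t ⌊x⌋₊| |Dv T t (⌊x⌋₊ + 1)|) := by
      rw [← Real.exp_add]
      apply Real.exp_le_exp.2
      linarith
    refine h6.trans (mul_le_mul_of_nonneg_left ?_ (Real.exp_pos _).le)
    rcases le_total |Dv T t ⌊x⌋₊| |Dv T t (⌊x⌋₊ + 1)| with h7 | h7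
    · rw [max_eq_right h7]
      linarith [Real.exp_pos (S * |Dv T t ⌊x⌋₊|)]
    · rw [max_eq_left h7]
      linarith [Real.exp_pos (S * |Dv T t (⌊x⌋₊ + 1)|)]
  have i1 := exp_abs_int (S := S) T T (2 * T) ⌊x⌋₊
  have i2 := exp_abs_int (S := S) T T (2 * T) (⌊x⌋₊ + 1)
  have h7 := intervalIntegral.integral_mono_on (by linarith) (exp_Dxabs_int S T x T (2 * T)) ((i1.add i2).const_mul _) hp
  refine h7.trans ?_
  rw [intervalIntegral.integral_const_mul, intervalIntegral.integral_add i1 i2]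
  have hb : ∀ l : ℝ, |l - L| ≤ 1 → Real.exp (A * l) ≤ Real.exp A * Real.exp (A * L) := by
    intro l hl
    rw [← Real.exp_add]
    apply Real.exp_le_exp.2
    have := mul_le_mul_of_nonneg_left (show l ≤ L + 1 by linarith [(abs_le.1 hl).2]) hA0
    linarith
  calc Real.exp (S * Real.pi) * ((∫ t in T..(2 * T), Real.exp (S * |Dv T t ⌊x⌋₊|)) +
      ∫ t in T..(2 * T), Real.exp (S * |Dv T t (⌊x⌋₊ + 1)|)) ≤
      Real.exp (S * Real.pi) * (Real.exp A * Real.exp (A * L) * T + Real.exp A * Real.exp (A * L) * T) := by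
        apply mul_le_mul_of_nonneg_left _ (Real.exp_pos _).le
        exact add_le_add (g1.trans (mul_le_mul_of_nonneg_right (hb _ l1) hT0)) (g2.trans (mul_le_mul_of_nonneg_right (hb _ l2) hT0))
    _ = (2 * Real.exp (S * Real.pi + A)) * (Real.exp (A * L) * T) := by rw [Real.exp_add]; ring
    _ ≤ Real.exp (ε / 2 * L) * (Real.exp (A * L) * T) := by gcongr
    _ = Real.exp ((S ^ 2 / 2 + ε) * L) * T := by
        rw [← mul_assoc, ← Real.exp_add, hA]
        congr 2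
        ring

/-- **exponential moments, lower bound** -/
theorem xexp_low (hRH : RHs) (s : ℝ) {ε : ℝ} (hε : 0 < ε) : ∀ᶠ x : ℝ in atTop, ∀ᶠ T : ℝ in atTop,
    Real.exp ((s ^ 2 / 2 - ε) * Real.log x) * T ≤ ∫ t in T..(2 * T), Real.exp (s * Dx T t x) := by
  rcases le_total 0 s with hs | hs
  · filter_upwards [xD_lowp hRH hs hε] with x h1
    filter_upwards [h1, eventually_ge_atTop (0 : ℝ)] with T g1 hT0
    have h3 := PT_markov (T := T) hT0 (f := fun t => Real.exp (s * Dx T t x)) (exp_Dx_int _ _ _ _ _)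
      (fun t => (Real.exp_pos _).le) (c := Real.exp (s * (s * Real.log x))) (Real.exp_pos _)
      (S := {t | s * Real.log x ≤ Dx T t x}) (fun t _ ht => Real.exp_le_exp.2 (mul_le_mul_of_nonneg_left ht hs))
    rw [le_div_iff₀ (Real.exp_pos _)] at h3
    refine le_trans (le_of_eq ?_) ((mul_le_mul_of_nonneg_right g1 (Real.exp_pos _).le).trans h3)
    calc Real.exp ((s ^ 2 / 2 - ε) * Real.log x) * T = Real.exp (-((s ^ 2 / 2 + ε) * Real.log x) + s * (s * Real.log x)) * T := by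
          congr 2; ring
      _ = _ := by rw [Real.exp_add]; ring
  · filter_upwards [xD_lown hRH (c := -s) (by linarith) hε] with x h1
    filter_upwards [h1, eventually_ge_atTop (0 : ℝ)] with T g1 hT0
    rw [neg_sq] at g1
    have h3 := PT_markov (T := T) hT0 (f := fun t => Real.exp (s * Dx T t x)) (exp_Dx_int _ _ _ _ _)
      (fun t => (Real.exp_pos _).le) (c := Real.exp (s * (s * Real.log x))) (Real.exp_pos _)
      (S := {t | Dx T t x ≤ -(-s * Real.log x)}) (fun t _ ht => Real.exp_le_exp.2 (by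
        have ht' : Dx T t x ≤ -(-s * Real.log x) := ht
        have : Dx T t x ≤ s * Real.log x := by linarith
        exact mul_le_mul_of_nonpos_left this hs))
    rw [le_div_iff₀ (Real.exp_pos _)] at h3
    refine le_trans (le_of_eq ?_) ((mul_le_mul_of_nonneg_right g1 (Real.exp_pos _).le).trans h3)
    calc Real.exp ((s ^ 2 / 2 - ε) * Real.log x) * T = Real.exp (-((s ^ 2 / 2 + ε) * Real.log x) + s * (s * Real.log x)) * T := by
          congr 2; ring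
      _ = _ := by rw [Real.exp_add]; ring

end

end Run7.h435.MD
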