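import Pool.Agent.Run7.h435.LDf

/-! # The exponential moments and the large deviations, in terms of powers -/

set_option autoImplicit false

namespace Run7.h435.MD

open Filter Topology MeasureTheory Set
open SP (RHs)
open SG (NZ)

noncomputable section

lemma rhs_of_rh (RH : RiemannHypothesis) : RHs := by
  intro s h1 h2 h0
  apply RH s h0
  · rintro ⟨k, hk⟩
    have := congrArg Complex.re hk
    simp at this
    have hk0 : (0 : ℝ) ≤ k := Nat.cast_nonneg k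
    linarith
  · intro h
    rw [h] at h2
    simp at h2

/-- the deviation of the count -/
def Wx (T t x : ℝ) : ℝ := (NZ (t + 2 * Real.pi * x / Real.log T) : ℝ) - NZ t - x

lemma Dx_Wx (T t x : ℝ) : Dx T t x = Real.pi * Wx T t x := rfl

lemma exp_Wx (l T t x : ℝ) : Real.exp (l * Wx T t x) = Real.exp (l / Real.pi * Dx T t x) := by
  rw [Dx_Wx]
  congr 1
  field_simp

/-- **exponential moments** -/
theorem moments_W (hRH : RHs) (l : ℝ) {ε : ℝ} (hε : 0 < ε) : ∀ᶠ x : ℝ in atTop, ∀ᶠ T : ℝ in atTop,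
    x ^ (l ^ 2 / (2 * Real.pi ^ 2) - ε) ≤ 1 / T * ∫ t in T..(2 * T), Real.exp (l * Wx T t x) ∧
    1 / T * ∫ t in T..(2 * T), Real.exp (l * Wx T t x) ≤ x ^ (l ^ 2 / (2 * Real.pi ^ 2) + ε) := by
  have hpi := Real.pi_pos
  have e2 : (l / Real.pi) ^ 2 / 2 = l ^ 2 / (2 * Real.pi ^ 2) := by field_simp
  have e3 : (|l| / Real.pi) ^ 2 / 2 = l ^ 2 / (2 * Real.pi ^ 2) := by
    rw [div_pow, sq_abs]; field_simp
  filter_upwards [xexp_low hRH (l / Real.pi) hε, xexp_up hRH (S := |l| / Real.pi) (by positivity) hε,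
    eventually_gt_atTop (0 : ℝ)] with x h1 h2 hx0
  filter_upwards [h1, h2, eventually_gt_atTop (0 : ℝ)] with T g1 g2 hT0
  rw [e2] at g1
  rw [e3] at g2
  simp only [exp_Wx]
  rw [Real.rpow_def_of_pos hx0, Real.rpow_def_of_pos hx0]
  rw [mul_comm _ (Real.log x)] at g1 g2
  constructor
  · rw [one_div, inv_mul_eq_div, le_div_iff₀ hT0]
    exact g1
  · rw [one_div, inv_mul_eq_div, div_le_iff₀ hT0]
    refine le_trans ?_ g2
    apply intervalIntegral.integral_mono_on (by linarith) (exp_Dx_int _ _ _ _ _) (exp_Dxabs_int _ _ _ _ _)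
    intro t _
    apply Real.exp_le_exp.2
    calc l / Real.pi * Dx T t x ≤ |l / Real.pi * Dx T t x| := le_abs_self _
      _ = |l| / Real.pi * |Dx T t x| := by rw [abs_mul, abs_div, abs_of_pos hpi]

/-- **large deviations** -/
theorem deviations_W (hRH : RHs) {y ε : ℝ} (hy : 0 ≤ y) (hε : 0 < ε) : ∀ᶠ x : ℝ in atTop, ∀ᶠ T : ℝ in atTop,
    (x ^ (-(Real.pi ^ 2 * y ^ 2 / 2) - ε) ≤ 1 / T * (volume {t : ℝ | T < t ∧ t ≤ 2 * T ∧ y * Real.log x ≤ Wx T t x}).toReal ∧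
    1 / T * (volume {t : ℝ | T < t ∧ t ≤ 2 * T ∧ y * Real.log x ≤ Wx T t x}).toReal ≤ x ^ (-(Real.pi ^ 2 * y ^ 2 / 2) + ε)) ∧
    (x ^ (-(Real.pi ^ 2 * y ^ 2 / 2) - ε) ≤ 1 / T * (volume {t : ℝ | T < t ∧ t ≤ 2 * T ∧ y * Real.log x ≤ -Wx T t x}).toReal ∧
    1 / T * (volume {t : ℝ | T < t ∧ t ≤ 2 * T ∧ y * Real.log x ≤ -Wx T t x}).toReal ≤ x ^ (-(Real.pi ^ 2 * y ^ 2 / 2) + ε)) := by
  have hpi := Real.pi_pos
  have e1 : (Real.pi * y) ^ 2 / 2 = Real.pi ^ 2 * y ^ 2 / 2 := by ring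
  filter_upwards [xD_lowp hRH (c := Real.pi * y) (by positivity) hε, xD_lown hRH (c := Real.pi * y) (by positivity) hε,
    xD_up hRH (c := Real.pi * y) (by positivity) hε, eventually_gt_atTop (0 : ℝ)] with x h1 h2 h3 hx0
  filter_upwards [h1, h2, h3, eventually_gt_atTop (0 : ℝ)] with T g1 g2 g3 hT0
  rw [e1] at g1 g2 g3
  have s1 : {t : ℝ | T < t ∧ t ≤ 2 * T ∧ y * Real.log x ≤ Wx T t x} = Ioc T (2 * T) ∩ {t | Real.pi * y * Real.log x ≤ Dx T t x} := by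
    ext t
    simp only [Set.mem_ofPred_eq, Set.mem_inter_iff, Set.mem_Ioc, Dx_Wx, and_assoc]
    rw [mul_assoc, mul_le_mul_iff_right₀ hpi]
  have s2 : {t : ℝ | T < t ∧ t ≤ 2 * T ∧ y * Real.log x ≤ -Wx T t x} = Ioc T (2 * T) ∩ {t | Dx T t x ≤ -(Real.pi * y * Real.log x)} := by
    ext t
    simp only [Set.mem_ofPred_eq, Set.mem_inter_iff, Set.mem_Ioc, Dx_Wx, and_assoc]
    rw [mul_assoc, ← mul_neg, mul_le_mul_iff_right₀ hpi, le_neg]
  rw [s1, s2]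
  have k1 : PT T {t | Real.pi * y * Real.log x ≤ Dx T t x} ≤ PT T {t | Real.pi * y * Real.log x ≤ |Dx T t x|} :=
    PT_mono fun t _ ht => le_trans (show Real.pi * y * Real.log x ≤ Dx T t x from ht) (le_abs_self _)
  have k2 : PT T {t | Dx T t x ≤ -(Real.pi * y * Real.log x)} ≤ PT T {t | Real.pi * y * Real.log x ≤ |Dx T t x|} :=
    PT_mono fun t _ ht => by
      have ht' : Dx T t x ≤ -(Real.pi * y * Real.log x) := ht
      show Real.pi * y * Real.log x ≤ |Dx T t x|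
      linarith [neg_abs_le (Dx T t x)]
  have f1 : Real.exp (-((Real.pi ^ 2 * y ^ 2 / 2 + ε) * Real.log x)) = x ^ (-(Real.pi ^ 2 * y ^ 2 / 2) - ε) := by
    rw [Real.rpow_def_of_pos hx0]; congr 1; ring
  have f2 : Real.exp (-((Real.pi ^ 2 * y ^ 2 / 2 - ε) * Real.log x)) = x ^ (-(Real.pi ^ 2 * y ^ 2 / 2) + ε) := by
    rw [Real.rpow_def_of_pos hx0]; congr 1; ring
  rw [f1] at g1 g2
  rw [f2] at g3
  simp only [one_div, inv_mul_eq_div]
  rw [le_div_iff₀ hT0, div_le_iff₀ hT0, le_div_iff₀ hT0, div_le_iff₀ hT0]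
  exact ⟨⟨g1, k1.trans g3⟩, ⟨g2, k2.trans g3⟩⟩

end

end Run7.h435.MD
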