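import Pool.Agent.Run7.h435.LDf

/-! # From heights to zeros: the upper bound -/

set_option autoImplicit false

namespace Run7.h435.MD

open Filter Topology MeasureTheory Set
open SP (RHs)
open SG (NZ ord)

noncomputable section

/-- weighted count -/
lemma wcount {A B ℓ : ℝ} (hℓ : 0 ≤ ℓ) (S : Finset ℕ) (c F : ℕ → ℝ) {g : ℝ → ℝ}
    (hg : IntegrableOn g (Icc A B)) (hin : ∀ n ∈ S, A ≤ c n ∧ c n + ℓ ≤ B)
    (hpt : ∀ t ∈ Icc A B, ∑ n ∈ S, (if c n ≤ t ∧ t < c n + ℓ then F n else 0) ≤ g t) :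
    ℓ * ∑ n ∈ S, F n ≤ ∫ t in Icc A B, g t := by
  have hint : ∀ n ∈ S, IntegrableOn
      ((Ico (c n) (c n + ℓ)).indicator fun _ : ℝ => F n) (Icc A B) := fun n _ =>
    (integrableOn_const (by rw [Real.volume_Icc]; exact ENNReal.ofReal_ne_top)).indicator
      measurableSet_Ico
  have h1 : ∀ n ∈ S, ∫ t in Icc A B, (Ico (c n) (c n + ℓ)).indicator (fun _ : ℝ => F n) t
      = ℓ * F n := by
    intro n hn
    obtain ⟨a1, a2⟩ := hin n hn
    rw [integral_indicator measurableSet_Ico, Measure.restrict_restrict measurableSet_Ico,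
      setIntegral_const, smul_eq_mul]
    have : Ico (c n) (c n + ℓ) ∩ Icc A B = Ico (c n) (c n + ℓ) := by
      apply inter_eq_left.mpr
      intro t ht
      exact ⟨a1.trans ht.1, ht.2.le.trans a2⟩
    rw [this, Measure.real, Real.volume_Ico, ENNReal.toReal_ofReal (by linarith)]
    ring
  calc ℓ * ∑ n ∈ S, F n = ∑ n ∈ S, ∫ t in Icc A B,
        (Ico (c n) (c n + ℓ)).indicator (fun _ : ℝ => F n) t := by
        rw [Finset.sum_congr rfl h1, Finset.mul_sum]
    _ = ∫ t in Icc A B, ∑ n ∈ S, (Ico (c n) (c n + ℓ)).indicator (fun _ : ℝ => F n) t :=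
        (integral_finsetSum _ hint).symm
    _ ≤ _ := by
        refine setIntegral_mono_on (integrable_finsetSum _ hint) hg measurableSet_Icc
          fun t ht => ?_
        refine le_trans (le_of_eq ?_) (hpt t ht)
        refine Finset.sum_congr rfl fun n _ => ?_
        by_cases h : c n ≤ t ∧ t < c n + ℓ
        · rw [indicator_of_mem (by exact h), if_pos h]
        · rw [indicator_of_notMem (by exact h), if_neg h]

/-- from zeros to heights, with weights -/
lemma palmW {V h : ℝ} (hh : 0 < h) (Z : Finset ℕ) (F : ℕ → ℝ) {G g : ℝ → ℝ} (hG0 : ∀ t, 0 ≤ G t)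
    (hgi : IntegrableOn g (Icc V (2 * V)))
    (hg : ∀ t ∈ Icc V (2 * V), ((NZ (t + h) : ℝ) - NZ t) * G t ≤ g t)
    (h1 : ∀ n ∈ Z, 1 ≤ n) (h2 : ∀ n ∈ Z, V + h ≤ ord n) (h3 : ∀ n ∈ Z, ord n ≤ 2 * V)
    (hF : ∀ n ∈ Z, ∀ t : ℝ, ord n ≤ t + h → t < ord n → F n ≤ G t) :
    h * ∑ n ∈ Z, F n ≤ ∫ t in Icc V (2 * V), g t := by
  refine wcount (A := V) (B := 2 * V) hh.le Z (fun n => ord n - h) F hgi
    (fun n hn => ⟨by have := h2 n hn; linarith, by have := h3 n hn; linarith⟩) (fun t ht => ?_)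
  refine le_trans ?_ (hg t ht)
  rw [← Finset.sum_filter]
  have hle : ∀ n ∈ Z.filter (fun n => ord n - h ≤ t ∧ t < ord n - h + h), F n ≤ G t := by
    intro n hn
    rw [Finset.mem_filter] at hn
    exact hF n hn.1 t (by linarith [hn.2.1]) (by linarith [hn.2.2])
  refine (Finset.sum_le_sum hle).trans ?_
  rw [Finset.sum_const, nsmul_eq_mul]
  apply mul_le_mul_of_nonneg_right _ (hG0 t)
  have hsub : (Z.filter fun n => ord n - h ≤ t ∧ t < ord n - h + h) ⊆ Finset.Ioc (NZ t) (NZ (t + h)) := by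
    intro n hn
    rw [Finset.mem_filter] at hn
    obtain ⟨c1, c2, c3⟩ := hn
    rw [Finset.mem_Ioc]
    refine ⟨?_, (SG.ord_le_iff (h1 n c1) _).mp (by linarith)⟩
    by_contra hcon
    push Not at hcon
    have := (SG.ord_le_iff (h1 n c1) _).mpr hcon
    linarith
  have hcard := Finset.card_le_card hsub
  rw [Nat.card_Ioc] at hcard
  have hmono : NZ t ≤ NZ (t + h) := SG.NZ_mono (by linarith)
  have : ((Z.filter fun n => ord n - h ≤ t ∧ t < ord n - h + h).card : ℝ) ≤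
    ((NZ (t + h) - NZ t : ℕ) : ℝ) := by exact_mod_cast hcard
  rwa [Nat.cast_sub hmono] at this

lemma amgm {κ η θ L c E : ℝ} (hκ : 0 ≤ κ) (hη : 0 < η) (hθ : 0 ≤ θ) (hE : 0 ≤ E) :
    Real.exp (κ * c) * E ≤ Real.exp (κ * η * L) * E + Real.exp ((2 * κ + θ / η) * c) / 2 +
      E ^ 2 * Real.exp (-(θ * L)) / 2 := by
  have p1 : 0 ≤ Real.exp (κ * η * L) * E := by positivity
  have p2 : 0 ≤ Real.exp ((2 * κ + θ / η) * c) / 2 := by positivity
  have p3 : 0 ≤ E ^ 2 * Real.exp (-(θ * L)) / 2 := by positivity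
  rcases le_or_gt c (η * L) with h | h
  · have h1 : Real.exp (κ * c) ≤ Real.exp (κ * η * L) := by
      apply Real.exp_le_exp.2
      have := mul_le_mul_of_nonneg_left h hκ
      linarith
    have h2 := mul_le_mul_of_nonneg_right h1 hE
    linarith
  · obtain ⟨a, ha⟩ : ∃ a : ℝ, a = Real.exp (κ * c) := ⟨_, rfl⟩
    obtain ⟨u, hu⟩ : ∃ u : ℝ, u = Real.exp (θ * L / 2) := ⟨_, rfl⟩
    have hu0 : 0 < u := by rw [hu]; exact Real.exp_pos _
    have e1 : a ^ 2 * u ^ 2 = Real.exp (2 * (κ * c) + θ * L) := by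
      rw [ha, hu, ← Real.exp_nat_mul, ← Real.exp_nat_mul, ← Real.exp_add]
      congr 1
      push_cast
      ring
    have e2 : Real.exp (2 * (κ * c) + θ * L) ≤ Real.exp ((2 * κ + θ / η) * c) := by
      apply Real.exp_le_exp.2
      have h1 : L ≤ c / η := by
        rw [le_div_iff₀ hη]
        linarith
      have h2 := mul_le_mul_of_nonneg_left h1 hθ
      have e3 : θ * (c / η) = θ / η * c := by ring
      linarith
    have e4 : Real.exp (-(θ * L)) = (u ^ 2)⁻¹ := by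
      rw [hu, ← Real.exp_nat_mul, ← Real.exp_neg]
      congr 1
      push_cast
      ring
    have h3 : a * E ≤ (a ^ 2 * u ^ 2 + E ^ 2 * (u ^ 2)⁻¹) / 2 := by
      have h4 : 0 ≤ (a * u - E * u⁻¹) ^ 2 := sq_nonneg _
      have h5 : (a * u - E * u⁻¹) ^ 2 = a ^ 2 * u ^ 2 - 2 * (a * E) + E ^ 2 * (u ^ 2)⁻¹ := by
        field_simp
        ring
      linarith
    rw [← ha, e4]
    linarith

/-- the deviation of the count after a zero, window of length `H` -/
def Yz (H x : ℝ) (n : ℕ) : ℝ := Real.pi * (((NZ (ord n + H) : ℝ) - NZ (ord n)) - x)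

/-- comparison of a zero with the heights just before it -/
lemma Yz_comp {V t x H : ℝ} {n : ℕ} (hV : 0 < Real.log V)
    (hH1 : (x - 1) * (2 * Real.pi / Real.log V) ≤ H) (hH2 : H ≤ (x + 1) * (2 * Real.pi / Real.log V))
    (h1 : ord n ≤ t + 2 * Real.pi / Real.log V) (h2 : t < ord n) :
    Yz H x n ≤ Dx V t (x + 2) + 2 * Real.pi ∧
    Dx V t (x - 1) - Real.pi * ((NZ (t + 2 * Real.pi / Real.log V) : ℝ) - NZ t) - Real.pi ≤ Yz H x n := by
  obtain ⟨h, hh⟩ : ∃ h : ℝ, h = 2 * Real.pi / Real.log V := ⟨_, rfl⟩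
  have hpi := Real.pi_pos
  have hh0 : 0 < h := by rw [hh]; positivity
  have e1 : 2 * Real.pi * (x + 2) / Real.log V = (x + 2) * h := by rw [hh]; ring
  have e2 : 2 * Real.pi * (x - 1) / Real.log V = (x - 1) * h := by rw [hh]; ring
  unfold Yz Dx
  rw [e1, e2]
  rw [← hh] at hH1 hH2 h1 ⊢
  have a1 : (NZ (ord n + H) : ℝ) ≤ NZ (t + (x + 2) * h) := by exact_mod_cast SG.NZ_mono (by linarith)
  have a2 : (NZ t : ℝ) ≤ NZ (ord n) := by exact_mod_cast SG.NZ_mono h2.le
  have a3 : (NZ (t + (x - 1) * h) : ℝ) ≤ NZ (ord n + H) := by exact_mod_cast SG.NZ_mono (by linarith)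
  have a4 : (NZ (ord n) : ℝ) ≤ NZ (t + h) := by exact_mod_cast SG.NZ_mono h1
  constructor
  · have : Real.pi * (((NZ (ord n + H) : ℝ) - NZ (ord n)) - x) ≤ Real.pi * (((NZ (t + (x + 2) * h) : ℝ) - NZ t) - x) :=
      mul_le_mul_of_nonneg_left (by linarith) hpi.le
    linarith
  · have : Real.pi * (((NZ (t + (x - 1) * h) : ℝ) - NZ (t + h)) - x) ≤ Real.pi * (((NZ (ord n + H) : ℝ) - NZ (ord n)) - x) :=
      mul_le_mul_of_nonneg_left (by linarith) hpi.le
    linarith

/-- **the exponential moments at the zeros** -/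
theorem zexp_up (hRH : RHs) {S ε : ℝ} (hS : 0 ≤ S) (hε : 0 < ε) : ∀ᶠ x : ℝ in atTop, ∀ᶠ V : ℝ in atTop, ∀ H : ℝ,
    (x - 1) * (2 * Real.pi / Real.log V) ≤ H → H ≤ (x + 1) * (2 * Real.pi / Real.log V) → ∀ Z : Finset ℕ,
    (∀ n ∈ Z, 1 ≤ n ∧ V + 1 ≤ ord n ∧ ord n ≤ 2 * V) →
    ∑ n ∈ Z, Real.exp (S * |Yz H x n|) ≤ Real.exp ((S ^ 2 / 2 + ε) * Real.log x) * (V * Real.log V) := by
  have hpi := Real.pi_pos
  have hpi3 := Real.pi_gt_three
  have hpi4 : Real.pi < 3.15 := Real.pi_lt_d2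
  obtain ⟨κ, hκ⟩ : ∃ κ : ℝ, κ = Real.pi * S + 1 := ⟨_, rfl⟩
  have hκ0 : 0 < κ := by rw [hκ]; positivity
  obtain ⟨η, hη⟩ : ∃ η : ℝ, η = ε / (4 * κ) := ⟨_, rfl⟩
  have hη0 : 0 < η := by rw [hη]; positivity
  have hκη : κ * η = ε / 4 := by rw [hη]; field_simp
  obtain ⟨θ, hθ⟩ : ∃ θ : ℝ, θ = 3 * S ^ 2 / 2 := ⟨_, rfl⟩
  have hθ0 : 0 ≤ θ := by rw [hθ]; positivity
  obtain ⟨K, hK⟩ : ∃ K : ℝ, K = 2 * κ + θ / η := ⟨_, rfl⟩
  have hK0 : 0 < K := by rw [hK]; positivity
  obtain ⟨B, hB0, hB⟩ := cnt_exp hRH hK0 1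
  obtain ⟨ε1, hε1⟩ : ∃ ε1 : ℝ, ε1 = ε / 4 := ⟨_, rfl⟩
  have hε10 : 0 < ε1 := by rw [hε1]; positivity
  obtain ⟨C, hC⟩ : ∃ C : ℝ, C = Real.exp (2 * Real.pi * S) * (2 * Real.exp (S ^ 2 / 2 + ε1) + B + 2 * Real.exp (2 * S ^ 2 + ε1)) :=
    ⟨_, rfl⟩
  have hC0 : 0 < C := by rw [hC]; positivity
  have u1 := xexp_up hRH hS hε10
  have u2 := xexp_up hRH (S := 2 * S) (by positivity) hε10
  have t1 : Tendsto (fun x : ℝ => x + 2) atTop atTop := tendsto_atTop_add_const_right _ _ tendsto_id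
  have t2 : Tendsto (fun x : ℝ => x - 1) atTop atTop := tendsto_atTop_add_const_right _ _ tendsto_id
  filter_upwards [t1.eventually u1, t2.eventually u1, t1.eventually u2, t2.eventually u2, eventually_ge_atTop (2 : ℝ),
    Real.tendsto_log_atTop.eventually ((poly_exp C 0 (κ := ε / 2) (by positivity)).and (eventually_ge_atTop (1 : ℝ)))]
    with x g1 g2 g3 g4 hx2 g5
  obtain ⟨g5, hL1⟩ := g5
  rw [pow_zero, mul_one] at g5
  have l1 : Real.log (x + 2) ≤ Real.log x + 1 := by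
    have h1 : Real.log (x + 2) ≤ Real.log (2 * x) := Real.log_le_log (by linarith) (by linarith)
    rw [Real.log_mul (by norm_num) (by linarith)] at h1
    have := Real.log_two_lt_d9
    linarith
  have l2 : Real.log (x - 1) ≤ Real.log x + 1 := by
    have h1 : Real.log (x - 1) ≤ Real.log x := Real.log_le_log (by linarith) (by linarith)
    linarith
  filter_upwards [g1, g2, g3, g4, hB, eventually_ge_atTop (10 : ℝ), Real.tendsto_log_atTop.eventually_ge_atTop 7]
    with V k1 k2 k3 k4 k5 hV10 hV7 H hH1 hH2 Z hZ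
  obtain ⟨L, hL⟩ : ∃ L : ℝ, L = Real.log x := ⟨_, rfl⟩
  rw [← hL] at l1 l2 g5 hL1 ⊢
  have hL0 : 0 < L := by linarith
  have hlV : 0 < Real.log V := by linarith
  have hV0 : 0 ≤ V := by linarith
  obtain ⟨h, hh⟩ : ∃ h : ℝ, h = 2 * Real.pi / Real.log V := ⟨_, rfl⟩
  have hh0 : 0 < h := by rw [hh]; positivity
  have hh1 : h ≤ 1 := by
    rw [hh, div_le_one hlV]
    linarith
  -- the functions
  obtain ⟨c, hc⟩ : ∃ c : ℝ → ℝ, c = fun t => (NZ (t + h) : ℝ) - NZ t := ⟨_, rfl⟩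
  have hc0 : ∀ t, 0 ≤ c t := by
    intro t
    have : NZ t ≤ NZ (t + h) := SG.NZ_mono (by linarith)
    have h2 : (NZ t : ℝ) ≤ NZ (t + h) := by exact_mod_cast this
    rw [hc]
    show 0 ≤ (NZ (t + h) : ℝ) - NZ t
    linarith
  have hce : ∀ t, Real.exp (K * (((NZ (t + 2 * Real.pi * (1 : ℕ) / Real.log V) : ℝ) - NZ t) - 0)) = Real.exp (K * c t) := by
    intro t
    have e : 2 * Real.pi * ((1 : ℕ) : ℝ) / Real.log V = h := by rw [hh]; push_cast; ring
    rw [e, hc, sub_zero]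
  simp only [hce] at k5
  have ic : IntervalIntegrable (fun t => Real.exp (K * c t)) volume V (2 * V) := by
    have := ee_int K h 0 V (2 * V)
    simp only [sub_zero] at this
    rw [hc]
    exact this
  have i1 := exp_Dxabs_int S V (x + 2) V (2 * V)
  have i2 := exp_Dxabs_int S V (x - 1) V (2 * V)
  have i3 := exp_Dxabs_int (2 * S) V (x + 2) V (2 * V)
  have i4 := exp_Dxabs_int (2 * S) V (x - 1) V (2 * V)
  have hint : IntervalIntegrable (fun t => Real.exp (2 * Real.pi * S) * (Real.exp (κ * η * L) *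
      (Real.exp (S * |Dx V t (x + 2)|) + Real.exp (S * |Dx V t (x - 1)|)) + Real.exp (K * c t) +
      Real.exp (-(θ * L)) * (Real.exp (2 * S * |Dx V t (x + 2)|) + Real.exp (2 * S * |Dx V t (x - 1)|)))) volume V (2 * V) :=
    ((((i1.add i2).const_mul _).add ic).add ((i3.add i4).const_mul _)).const_mul _
  have hVV : V ≤ 2 * V := by linarith
  have hpalm := palmW (V := V) (h := h) hh0 Z (fun n => Real.exp (S * |Yz H x n|))
    (G := fun t => Real.exp (2 * Real.pi * S) * (Real.exp (Real.pi * S * c t) *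
      (Real.exp (S * |Dx V t (x + 2)|) + Real.exp (S * |Dx V t (x - 1)|))))
    (fun t => by positivity) ((intervalIntegrable_iff_integrableOn_Icc_of_le hVV).1 hint) (by
      intro t _
      have hct := hc0 t
      have e1 : (NZ (t + h) : ℝ) - NZ t = c t := by rw [hc]
      rw [e1]
      obtain ⟨E1, hE1⟩ : ∃ E1 : ℝ, E1 = Real.exp (S * |Dx V t (x + 2)|) := ⟨_, rfl⟩
      obtain ⟨E2, hE2⟩ : ∃ E2 : ℝ, E2 = Real.exp (S * |Dx V t (x - 1)|) := ⟨_, rfl⟩
      have hE10 : 0 < E1 := by rw [hE1]; exact Real.exp_pos _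
      have hE20 : 0 < E2 := by rw [hE2]; exact Real.exp_pos _
      have q1 : Real.exp (2 * S * |Dx V t (x + 2)|) = E1 ^ 2 := by
        rw [hE1, ← Real.exp_nat_mul]; congr 1; push_cast; ring
      have q2 : Real.exp (2 * S * |Dx V t (x - 1)|) = E2 ^ 2 := by
        rw [hE2, ← Real.exp_nat_mul]; congr 1; push_cast; ring
      rw [← hE1, ← hE2, q1, q2]
      have h1 : c t * Real.exp (Real.pi * S * c t) ≤ Real.exp (κ * c t) := by
        have h2 : c t ≤ Real.exp (c t) := by linarith [Real.add_one_le_exp (c t)]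
        calc c t * Real.exp (Real.pi * S * c t) ≤ Real.exp (c t) * Real.exp (Real.pi * S * c t) := by gcongr
          _ = Real.exp (κ * c t) := by rw [← Real.exp_add, hκ]; congr 1; ring
      have h3 := amgm (κ := κ) (η := η) (θ := θ) (L := L) (c := c t) (E := E1 + E2) hκ0.le hη0 hθ0 (by positivity)
      rw [← hK] at h3
      have h4 : (E1 + E2) ^ 2 / 2 ≤ E1 ^ 2 + E2 ^ 2 := by
        have := sq_nonneg (E1 - E2)
        linarith
      have h5 : (E1 + E2) ^ 2 * Real.exp (-(θ * L)) / 2 ≤ Real.exp (-(θ * L)) * (E1 ^ 2 + E2 ^ 2) := by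
        have := mul_le_mul_of_nonneg_left h4 (Real.exp_pos (-(θ * L))).le
        linarith
      have h6 : 0 ≤ Real.exp (K * c t) := (Real.exp_pos _).le
      calc c t * (Real.exp (2 * Real.pi * S) * (Real.exp (Real.pi * S * c t) * (E1 + E2))) =
          Real.exp (2 * Real.pi * S) * ((c t * Real.exp (Real.pi * S * c t)) * (E1 + E2)) := by ring
        _ ≤ Real.exp (2 * Real.pi * S) * (Real.exp (κ * c t) * (E1 + E2)) := by gcongr
        _ ≤ Real.exp (2 * Real.pi * S) * (Real.exp (κ * η * L) * (E1 + E2) + Real.exp (K * c t) +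
            Real.exp (-(θ * L)) * (E1 ^ 2 + E2 ^ 2)) := by
            apply mul_le_mul_of_nonneg_left _ (Real.exp_pos _).le
            linarith)
    (fun n hn => (hZ n hn).1) (fun n hn => by have := (hZ n hn).2.1; linarith) (fun n hn => (hZ n hn).2.2) (by
      intro n hn t ht1 ht2
      rw [hh] at ht1
      obtain ⟨y1, y2⟩ := Yz_comp (V := V) (t := t) (x := x) (H := H) (n := n) hlV hH1 hH2 ht1 ht2
      rw [← hh] at y2
      have e1 : (NZ (t + h) : ℝ) - NZ t = c t := by rw [hc]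
      rw [e1] at y2
      have hct := hc0 t
      have hpc : 0 ≤ Real.pi * c t := by positivity
      have h1 : |Yz H x n| ≤ max |Dx V t (x + 2)| |Dx V t (x - 1)| + 2 * Real.pi + Real.pi * c t := by
        have b1 := le_max_left |Dx V t (x + 2)| |Dx V t (x - 1)|
        have b2 := le_max_right |Dx V t (x + 2)| |Dx V t (x - 1)|
        have b3 := le_abs_self (Dx V t (x + 2))
        have b4 := neg_abs_le (Dx V t (x - 1))
        rw [abs_le]
        constructor <;> linarith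
      have h2 : Real.exp (S * |Yz H x n|) ≤ Real.exp (2 * Real.pi * S) * (Real.exp (Real.pi * S * c t) *
          Real.exp (S * max |Dx V t (x + 2)| |Dx V t (x - 1)|)) := by
        rw [← Real.exp_add, ← Real.exp_add]
        apply Real.exp_le_exp.2
        have := mul_le_mul_of_nonneg_left h1 hS
        linarith
      refine h2.trans ?_
      apply mul_le_mul_of_nonneg_left _ (Real.exp_pos _).le
      apply mul_le_mul_of_nonneg_left _ (Real.exp_pos _).le
      rcases le_total |Dx V t (x + 2)| |Dx V t (x - 1)| with h7 | h7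
      · rw [max_eq_right h7]
        linarith [Real.exp_pos (S * |Dx V t (x + 2)|)]
      · rw [max_eq_left h7]
        linarith [Real.exp_pos (S * |Dx V t (x - 1)|)])
  rw [integral_Icc_eq_integral_Ioc, ← intervalIntegral.integral_of_le hVV] at hpalm
  rw [intervalIntegral.integral_const_mul, intervalIntegral.integral_add (((i1.add i2).const_mul _).add ic) ((i3.add i4).const_mul _),
    intervalIntegral.integral_add ((i1.add i2).const_mul _) ic, intervalIntegral.integral_const_mul,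
    intervalIntegral.integral_const_mul, intervalIntegral.integral_add i1 i2, intervalIntegral.integral_add i3 i4] at hpalm
  have f1 : ∀ {a l : ℝ}, 0 ≤ a → l ≤ L + 1 → Real.exp (a * l) ≤ Real.exp a * Real.exp (a * L) := by
    intro a l ha hl
    rw [← Real.exp_add]
    apply Real.exp_le_exp.2
    have := mul_le_mul_of_nonneg_left hl ha
    linarith
  have ha1 : 0 ≤ S ^ 2 / 2 + ε1 := by positivity
  have ha2 : 0 ≤ (2 * S) ^ 2 / 2 + ε1 := by positivity
  have k1' := k1.trans (mul_le_mul_of_nonneg_right (f1 ha1 l1) hV0)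
  have k2' := k2.trans (mul_le_mul_of_nonneg_right (f1 ha1 l2) hV0)
  have k3' := k3.trans (mul_le_mul_of_nonneg_right (f1 ha2 l1) hV0)
  have k4' := k4.trans (mul_le_mul_of_nonneg_right (f1 ha2 l2) hV0)
  obtain ⟨P, hP⟩ : ∃ P : ℝ, P = Real.exp ((S ^ 2 / 2 + ε / 2) * L) := ⟨_, rfl⟩
  have hP1 : 1 ≤ P := by
    rw [hP, Real.one_le_exp_iff]
    positivity
  have r1 : Real.exp (κ * η * L) * (Real.exp (S ^ 2 / 2 + ε1) * Real.exp ((S ^ 2 / 2 + ε1) * L) * V +
      Real.exp (S ^ 2 / 2 + ε1) * Real.exp ((S ^ 2 / 2 + ε1) * L) * V) = 2 * Real.exp (S ^ 2 / 2 + ε1) * P * V := by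
    have : P = Real.exp (κ * η * L) * Real.exp ((S ^ 2 / 2 + ε1) * L) := by
      rw [hP, ← Real.exp_add, hκη, hε1]
      congr 1
      ring
    rw [this]
    ring
  have r2 : Real.exp (-(θ * L)) * (Real.exp ((2 * S) ^ 2 / 2 + ε1) * Real.exp (((2 * S) ^ 2 / 2 + ε1) * L) * V +
      Real.exp ((2 * S) ^ 2 / 2 + ε1) * Real.exp (((2 * S) ^ 2 / 2 + ε1) * L) * V) ≤ 2 * Real.exp (2 * S ^ 2 + ε1) * P * V := by
    have e1 : (2 * S) ^ 2 / 2 + ε1 = 2 * S ^ 2 + ε1 := by ring
    rw [e1]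
    have e2 : Real.exp (-(θ * L)) * Real.exp ((2 * S ^ 2 + ε1) * L) ≤ P := by
      rw [← Real.exp_add, hP]
      apply Real.exp_le_exp.2
      rw [hθ, hε1]
      have : 0 ≤ ε * L := by positivity
      linarith
    calc Real.exp (-(θ * L)) * (Real.exp (2 * S ^ 2 + ε1) * Real.exp ((2 * S ^ 2 + ε1) * L) * V +
        Real.exp (2 * S ^ 2 + ε1) * Real.exp ((2 * S ^ 2 + ε1) * L) * V) =
        2 * Real.exp (2 * S ^ 2 + ε1) * (Real.exp (-(θ * L)) * Real.exp ((2 * S ^ 2 + ε1) * L)) * V := by ring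
      _ ≤ _ := by gcongr
  have r3 : h * ∑ n ∈ Z, Real.exp (S * |Yz H x n|) ≤ C * P * V := by
    refine hpalm.trans ?_
    have m1 : Real.exp (κ * η * L) * ((∫ t in V..(2 * V), Real.exp (S * |Dx V t (x + 2)|)) +
        ∫ t in V..(2 * V), Real.exp (S * |Dx V t (x - 1)|)) ≤ 2 * Real.exp (S ^ 2 / 2 + ε1) * P * V := by
      rw [← r1]
      exact mul_le_mul_of_nonneg_left (add_le_add k1' k2') (Real.exp_pos _).le
    have m2 : Real.exp (-(θ * L)) * ((∫ t in V..(2 * V), Real.exp (2 * S * |Dx V t (x + 2)|)) +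
        ∫ t in V..(2 * V), Real.exp (2 * S * |Dx V t (x - 1)|)) ≤ 2 * Real.exp (2 * S ^ 2 + ε1) * P * V :=
      le_trans (mul_le_mul_of_nonneg_left (add_le_add k3' k4') (Real.exp_pos _).le) r2
    have m3 : B * V ≤ B * P * V := by
      have : B * 1 ≤ B * P := mul_le_mul_of_nonneg_left hP1 hB0.le
      have := mul_le_mul_of_nonneg_right this hV0
      linarith
    calc Real.exp (2 * Real.pi * S) * (Real.exp (κ * η * L) * ((∫ t in V..(2 * V), Real.exp (S * |Dx V t (x + 2)|)) +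
        ∫ t in V..(2 * V), Real.exp (S * |Dx V t (x - 1)|)) + (∫ t in V..(2 * V), Real.exp (K * c t)) +
        Real.exp (-(θ * L)) * ((∫ t in V..(2 * V), Real.exp (2 * S * |Dx V t (x + 2)|)) +
        ∫ t in V..(2 * V), Real.exp (2 * S * |Dx V t (x - 1)|))) ≤
        Real.exp (2 * Real.pi * S) * (2 * Real.exp (S ^ 2 / 2 + ε1) * P * V + B * P * V + 2 * Real.exp (2 * S ^ 2 + ε1) * P * V) := by
          apply mul_le_mul_of_nonneg_left _ (Real.exp_pos _).le
          linarith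
      _ = C * P * V := by rw [hC]; ring
  have hPf : C * P ≤ Real.exp ((S ^ 2 / 2 + ε) * L) := by
    calc C * P ≤ Real.exp (ε / 2 * L) * P := mul_le_mul_of_nonneg_right g5 (by linarith)
      _ = _ := by rw [hP, ← Real.exp_add]; congr 1; ring
  have hsum0 : 0 ≤ ∑ n ∈ Z, Real.exp (S * |Yz H x n|) := Finset.sum_nonneg fun n _ => (Real.exp_pos _).le
  have r4 : ∑ n ∈ Z, Real.exp (S * |Yz H x n|) ≤ h * Real.log V * ∑ n ∈ Z, Real.exp (S * |Yz H x n|) := by
    apply le_mul_of_one_le_left hsum0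
    rw [hh, div_mul_cancel₀ _ hlV.ne']
    linarith
  calc ∑ n ∈ Z, Real.exp (S * |Yz H x n|) ≤ h * Real.log V * ∑ n ∈ Z, Real.exp (S * |Yz H x n|) := r4
    _ = (h * ∑ n ∈ Z, Real.exp (S * |Yz H x n|)) * Real.log V := by ring
    _ ≤ (C * P * V) * Real.log V := mul_le_mul_of_nonneg_right r3 hlV.le
    _ ≤ (Real.exp ((S ^ 2 / 2 + ε) * L) * V) * Real.log V := by
        apply mul_le_mul_of_nonneg_right _ hlV.le
        exact mul_le_mul_of_nonneg_right hPf hV0
    _ = _ := by ring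

end

end Run7.h435.MD
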