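import Pool.Agent.Run7.h435.LDh

/-! # From heights to zeros: the lower bounds -/

set_option autoImplicit false

namespace Run7.h435.MD

open Filter Topology MeasureTheory Set
open SP (RHs)
open SG (NZ ord)

noncomputable section

/-- many heights, many zeros -/
theorem zlow_core (hRH : RHs) {q κ ε : ℝ} (hq : 0 ≤ q) (hκ : 0 < κ) (hε : 0 < ε) : ∀ᶠ x : ℝ in atTop, ∀ᶠ V : ℝ in atTop,
    ∀ E : Set ℝ, ∀ P : ℕ → Prop, Real.exp (-(q * Real.log x)) * V ≤ PT V E →
    (∀ t ∈ E, ∀ n : ℕ, t < ord n → ord n ≤ t + ⌈κ * Real.log x⌉₊ * (2 * Real.pi / Real.log V) →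
      (NZ (t + ⌈κ * Real.log x⌉₊ * (2 * Real.pi / Real.log V)) : ℝ) - NZ t ≤ 2 * ⌈κ * Real.log x⌉₊ → P n) →
    Real.exp (-((q + ε) * Real.log x)) * (V * Real.log V) ≤ ({n : ℕ | NZ V < n ∧ n ≤ NZ (2 * V) ∧ P n}.ncard : ℝ) := by
  have hpi := Real.pi_pos
  have hpi3 := Real.pi_gt_three
  have hpi4 : Real.pi < 3.15 := Real.pi_lt_d2
  obtain ⟨s, hs⟩ : ∃ s : ℝ, s = 2 * (q + 1) / (Real.pi * κ) := ⟨_, rfl⟩
  have hs0 : 0 < s := by rw [hs]; positivity
  obtain ⟨C, Y0, hC, htail⟩ := tail_D hRH hs0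
  have hC0 : 0 < C := by linarith
  -- the logarithm of an integer against the integer
  have hlog : ∀ᶠ k : ℕ in atTop, Real.log k ≤ Real.pi * k / 2 / C ∧ Y0 ≤ Real.pi * k / 2 := by
    have h1 : ∀ᶠ y : ℝ in atTop, Real.log y ≤ Real.pi * y / 2 / C ∧ Y0 ≤ Real.pi * y / 2 := by
      have h2 : (fun y : ℝ => Real.log y) =o[atTop] fun y : ℝ => y := Real.isLittleO_log_id_atTop
      filter_upwards [h2.bound (c := 1 / C) (by positivity), eventually_ge_atTop (|Y0| + 1)] with y h3 h4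
      have hy0 : 0 < y := by linarith [abs_nonneg Y0]
      rw [Real.norm_of_nonneg hy0.le] at h3
      have h5 := (le_abs_self _).trans h3
      constructor
      · refine h5.trans ?_
        rw [one_div, inv_mul_eq_div]
        apply div_le_div_of_nonneg_right _ hC0.le
        nlinarith
      · have := le_abs_self Y0
        nlinarith
    exact tendsto_natCast_atTop_atTop.eventually h1
  have hKt : Tendsto (fun x : ℝ => ⌈κ * Real.log x⌉₊) atTop atTop := by
    refine tendsto_nat_ceil_atTop.comp ?_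
    exact Real.tendsto_log_atTop.const_mul_atTop hκ
  filter_upwards [hKt.eventually hlog, hKt.eventually_ge_atTop 1,
    Real.tendsto_log_atTop.eventually ((poly_exp (8 * Real.pi * (κ + 1)) 1 hε).and (eventually_ge_atTop (2 : ℝ)))]
    with x hx1 hx2 hx3
  obtain ⟨hx3, hL2⟩ := hx3
  obtain ⟨K, hK⟩ : ∃ K : ℕ, K = ⌈κ * Real.log x⌉₊ := ⟨_, rfl⟩
  obtain ⟨L, hL⟩ : ∃ L : ℝ, L = Real.log x := ⟨_, rfl⟩
  rw [← hK] at hx1 hx2
  simp only [← hK]
  have hK1 : κ * L ≤ K := by rw [hK, hL]; exact Nat.le_ceil _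
  have hK2 : (K : ℝ) ≤ κ * L + 1 := by
    rw [hK, hL]
    have h0 : 0 ≤ κ * Real.log x := by
      have : 0 ≤ Real.log x := by linarith
      positivity
    exact (Nat.ceil_lt_add_one h0).le
  rw [← hL] at hx3 hL2 ⊢
  rw [pow_one] at hx3
  have hK0 : (1 : ℝ) ≤ K := by exact_mod_cast hx2
  have htl := htail (Real.pi * K / 2) hx1.2 K hx2 hx1.1
  obtain ⟨Q, hQ⟩ : ∃ Q : ℝ, Q = Real.exp (-(q * L)) := ⟨_, rfl⟩
  have hQ0 : 0 < Q := by rw [hQ]; exact Real.exp_pos _
  rw [← hQ]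
  filter_upwards [htl, eventually_ge_atTop (8 * Real.pi * K / Q), eventually_ge_atTop (1 : ℝ),
    Real.tendsto_log_atTop.eventually_ge_atTop 1] with V hV1 hV2 hV3 hV4 E P hE hP
  have hlV : 0 < Real.log V := by linarith
  obtain ⟨h, hh⟩ : ∃ h : ℝ, h = 2 * Real.pi / Real.log V := ⟨_, rfl⟩
  have hh0 : 0 < h := by rw [hh]; positivity
  have hh1 : h ≤ 2 * Real.pi := by rw [hh]; exact div_le_self (by positivity) hV4
  rw [← hh] at hP
  rw [div_le_iff₀ hQ0] at hV2
  classical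
  obtain ⟨Z, hZ⟩ : ∃ Z : Finset ℕ, Z = (Finset.Ioc (NZ V) (NZ (2 * V))).filter P := ⟨_, rfl⟩
  have hZc : {n : ℕ | NZ V < n ∧ n ≤ NZ (2 * V) ∧ P n} = (Z : Set ℕ) := by
    ext n
    rw [hZ]
    simp only [Set.mem_ofPred_eq, Finset.coe_filter, Finset.mem_Ioc, and_assoc]
  rw [hZc, Set.ncard_coe_finset]
  have hinc : ∀ t ∈ Ioc V (2 * V), t ∈ E → t ∈ {t | Real.pi * K / 2 ≤ |Dv V t K|} ∪
      ({t | 2 * V - K * h < t} ∪ {t | ∃ n ∈ Z, t ∈ (fun n : ℕ => {t : ℝ | ord n - 2 * (K * h) < t ∧ t ≤ ord n}) n}) := by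
    intro t ht htE
    by_contra hcon
    simp only [Set.mem_union, Set.mem_ofPred_eq, not_or, not_le, not_lt, not_exists, not_and] at hcon
    obtain ⟨n1, n2, n3⟩ := hcon
    have e1 : Dv V t K = Real.pi * (((NZ (t + K * h) : ℝ) - NZ t) - K) := by
      unfold Dv
      have : 2 * Real.pi * (K : ℝ) / Real.log V = K * h := by rw [hh]; ring
      rw [this]
    rw [e1, abs_mul, abs_of_pos hpi] at n1
    have n1' : |((NZ (t + K * h) : ℝ) - NZ t) - K| < K / 2 := by
      have : Real.pi * |((NZ (t + K * h) : ℝ) - NZ t) - K| < Real.pi * (K / 2) := by linarith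
      exact lt_of_mul_lt_mul_left this hpi.le
    obtain ⟨m1, m2⟩ := abs_lt.1 n1'
    have m3 : (NZ t : ℝ) < NZ (t + K * h) := by linarith
    have m4 : NZ t < NZ (t + K * h) := by exact_mod_cast m3
    have c1 : t < ord (NZ t + 1) := by
      by_contra hc
      push Not at hc
      have := (SG.ord_le_iff (by omega) t).1 hc
      omega
    have c2 : ord (NZ t + 1) ≤ t + K * h := (SG.ord_le_iff (by omega) _).2 (by omega)
    have c3 := hP t htE (NZ t + 1) c1 c2 (by linarith)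
    have c4 : NZ t + 1 ∈ Z := by
      rw [hZ, Finset.mem_filter, Finset.mem_Ioc]
      refine ⟨⟨?_, ?_⟩, c3⟩
      · have := SG.NZ_mono ht.1.le
        omega
      · exact (SG.ord_le_iff (by omega) _).1 (by linarith)
    have c5 := n3 (NZ t + 1) c4 (by
      have : 0 < K * h := by positivity
      linarith)
    linarith
  have hKh : 0 < K * h := by positivity
  have b1 : PT V {t | 2 * V - K * h < t} ≤ K * h := by
    have := PT_Ioc V (2 * V - K * h) (2 * V) (by linarith) (S := {t | 2 * V - K * h < t}) (fun t ht ht' => ⟨ht', ht.2⟩)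
    linarith
  have b2 : PT V {t | ∃ n ∈ Z, t ∈ (fun n : ℕ => {t : ℝ | ord n - 2 * (K * h) < t ∧ t ≤ ord n}) n} ≤ Z.card * (2 * (K * h)) := by
    refine (PT_biUnion _ _ _).trans ?_
    refine (Finset.sum_le_sum (g := fun _ => 2 * (K * h)) fun n _ => ?_).trans (le_of_eq ?_)
    · have := PT_Ioc V (ord n - 2 * (K * h)) (ord n) (by linarith) (S := {t : ℝ | ord n - 2 * (K * h) < t ∧ t ≤ ord n})
        (fun t _ ht' => ⟨ht'.1, ht'.2⟩)
      linarith
    · rw [Finset.sum_const, nsmul_eq_mul]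
  have b3 := hE.trans ((PT_mono hinc).trans ((PT_union _ _ _).trans (add_le_add hV1 ((PT_union _ _ _).trans (add_le_add b1 b2)))))
  have b4 : Real.exp (-(s * (Real.pi * K / 2))) ≤ Q / 4 := by
    have h1 : (q + 1) * L ≤ s * (Real.pi * K / 2) := by
      have h2 : s * (Real.pi * K / 2) = (q + 1) * (K / κ) := by rw [hs]; field_simp
      rw [h2]
      apply mul_le_mul_of_nonneg_left _ (by linarith)
      rw [le_div_iff₀ hκ]
      linarith
    calc Real.exp (-(s * (Real.pi * K / 2))) ≤ Real.exp (-((q + 1) * L)) := Real.exp_le_exp.2 (by linarith)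
      _ = Real.exp (-L) * Q := by rw [hQ, ← Real.exp_add]; congr 1; ring
      _ ≤ (1 / 4) * Q := by
          apply mul_le_mul_of_nonneg_right _ hQ0.le
          calc Real.exp (-L) ≤ Real.exp (-2) := Real.exp_le_exp.2 (by linarith)
            _ = (Real.exp 1)⁻¹ ^ 2 := by rw [← Real.exp_neg, ← Real.exp_nat_mul]; norm_num
            _ ≤ (1 / 2) ^ 2 := by
                apply pow_le_pow_left₀ (by positivity)
                rw [← one_div]
                apply one_div_le_one_div_of_le (by norm_num)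
                linarith [Real.exp_one_gt_d9]
            _ = 1 / 4 := by norm_num
      _ = Q / 4 := by ring
  have b5 : K * h ≤ Q / 4 * V := by
    have : K * h ≤ K * (2 * Real.pi) := mul_le_mul_of_nonneg_left hh1 (by linarith)
    linarith
  have b6 := mul_le_mul_of_nonneg_right b4 (by linarith : (0 : ℝ) ≤ V)
  have b7 : Q / 2 * V ≤ Z.card * (2 * (K * h)) := by linarith
  -- conclusion
  have b8 : Q * (V * Real.log V) ≤ (8 * Real.pi * K) * Z.card := by
    have h1 := mul_le_mul_of_nonneg_right b7 hlV.le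
    have h2 : (Z.card : ℝ) * (2 * (K * h)) * Real.log V = Z.card * (4 * Real.pi * K) := by
      rw [hh]
      field_simp
      ring
    rw [h2] at h1
    linarith
  have b9 : 8 * Real.pi * K ≤ Real.exp (ε * L) := by
    refine le_trans ?_ hx3
    have : (K : ℝ) ≤ (κ + 1) * (1 + L) := by nlinarith
    have := mul_le_mul_of_nonneg_left this (by positivity : (0 : ℝ) ≤ 8 * Real.pi)
    linarith
  have b10 : Real.exp (-((q + ε) * L)) = Q * Real.exp (-(ε * L)) := by
    rw [hQ, ← Real.exp_add]; congr 1; ring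
  rw [b10]
  calc Q * Real.exp (-(ε * L)) * (V * Real.log V) = Real.exp (-(ε * L)) * (Q * (V * Real.log V)) := by ring
    _ ≤ Real.exp (-(ε * L)) * ((8 * Real.pi * K) * Z.card) := mul_le_mul_of_nonneg_left b8 (Real.exp_pos _).le
    _ ≤ Real.exp (-(ε * L)) * (Real.exp (ε * L) * Z.card) := by
        apply mul_le_mul_of_nonneg_left _ (Real.exp_pos _).le
        exact mul_le_mul_of_nonneg_right b9 (Nat.cast_nonneg _)
    _ = Z.card := by rw [← mul_assoc, ← Real.exp_add]; simp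

/-- **deviations upwards at the zeros, lower bound** -/
theorem zlow_up (hRH : RHs) {c ε : ℝ} (hc : 0 ≤ c) (hε : 0 < ε) : ∀ᶠ x : ℝ in atTop, ∀ᶠ V : ℝ in atTop, ∀ H : ℝ,
    (x - 1) * (2 * Real.pi / Real.log V) ≤ H → H ≤ (x + 1) * (2 * Real.pi / Real.log V) →
    Real.exp (-((c ^ 2 / 2 + ε) * Real.log x)) * (V * Real.log V) ≤
      ({n : ℕ | NZ V < n ∧ n ≤ NZ (2 * V) ∧ c * Real.log x ≤ Yz H x n}.ncard : ℝ) := by
  have hpi := Real.pi_pos
  obtain ⟨η, hηd⟩ : ∃ η : ℝ, η = min 1 (ε / (4 * (c + 1))) := ⟨_, rfl⟩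
  have hη : 0 < η := by rw [hηd]; exact lt_min one_pos (by positivity)
  have hη1 : η ≤ 1 := by rw [hηd]; exact min_le_left _ _
  have hη2 : (c + 1) * η ≤ ε / 4 := by
    have : η ≤ ε / (4 * (c + 1)) := by rw [hηd]; exact min_le_right _ _
    rw [le_div_iff₀ (by positivity)] at this
    linarith
  obtain ⟨κ, hκd⟩ : ∃ κ : ℝ, κ = η / (4 * Real.pi) := ⟨_, rfl⟩
  have hκ : 0 < κ := by rw [hκd]; positivity
  have hκ1 : 2 * Real.pi * κ = η / 2 := by rw [hκd]; field_simp; ring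
  obtain ⟨q, hq⟩ : ∃ q : ℝ, q = (c + η) ^ 2 / 2 + ε / 4 := ⟨_, rfl⟩
  have hq0 : 0 ≤ q := by rw [hq]; positivity
  have hqe : q + ε / 2 ≤ c ^ 2 / 2 + ε := by rw [hq]; nlinarith
  have t2 : Tendsto (fun x : ℝ => x - 1) atTop atTop := tendsto_atTop_add_const_right _ _ tendsto_id
  filter_upwards [zlow_core hRH hq0 hκ (ε := ε / 2) (by positivity),
    t2.eventually (xD_lowp hRH (c := c + η) (ε := ε / 4) (by positivity) (by positivity)), eventually_ge_atTop (2 : ℝ),
    Real.tendsto_log_atTop.eventually ((eventually_ge_atTop (2 * (c + η + 3 * Real.pi) / η)).and (eventually_ge_atTop (1 : ℝ)))]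
    with x g1 g2 hx2 g3
  obtain ⟨g3, hL1⟩ := g3
  rw [div_le_iff₀ hη] at g3
  have l2 : Real.log (x - 1) ≤ Real.log x := Real.log_le_log (by linarith) (by linarith)
  have l3 : Real.log x - 1 ≤ Real.log (x - 1) := by
    have h1 : Real.log x ≤ Real.log (2 * (x - 1)) := Real.log_le_log (by linarith) (by linarith)
    rw [Real.log_mul (by norm_num) (by linarith)] at h1
    have := Real.log_two_lt_d9
    linarith
  filter_upwards [g1, g2, eventually_ge_atTop (1 : ℝ), Real.tendsto_log_atTop.eventually_ge_atTop 1] with V k1 k2 hV1 hV2 H hH1 hH2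
  obtain ⟨L, hL⟩ : ∃ L : ℝ, L = Real.log x := ⟨_, rfl⟩
  obtain ⟨K, hK⟩ : ∃ K : ℕ, K = ⌈κ * Real.log x⌉₊ := ⟨_, rfl⟩
  have hK2 : (K : ℝ) ≤ κ * Real.log x + 1 := by
    rw [hK]
    have h0 : 0 ≤ κ * Real.log x := by
      have : 0 ≤ Real.log x := by linarith
      positivity
    exact (Nat.ceil_lt_add_one h0).le
  rw [← hK] at k1
  rw [← hL] at l2 l3 g3 hL1 hK2 k1 ⊢
  have hL0 : 0 < L := by linarith
  have hlV : 0 < Real.log V := by linarith
  have h1 := k1 {t | (c + η) * Real.log (x - 1) ≤ Dx V t (x - 1)} (fun n => c * L ≤ Yz H x n) (by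
    refine le_trans ?_ k2
    apply mul_le_mul_of_nonneg_right _ (by linarith)
    apply Real.exp_le_exp.2
    have := mul_le_mul_of_nonneg_left l2 hq0
    rw [hq] at this
    rw [hq]
    linarith) (by
    intro t ht n c1 c2 c3
    have ht' : (c + η) * Real.log (x - 1) ≤ Dx V t (x - 1) := ht
    obtain ⟨h, hh⟩ : ∃ h : ℝ, h = 2 * Real.pi / Real.log V := ⟨_, rfl⟩
    rw [← hh] at c2 c3 hH1 hH2
    have e2 : 2 * Real.pi * (x - 1) / Real.log V = (x - 1) * h := by rw [hh]; ring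
    unfold Dx at ht'
    rw [e2] at ht'
    unfold Yz
    have a3 : (NZ (t + (x - 1) * h) : ℝ) ≤ NZ (ord n + H) := by exact_mod_cast SG.NZ_mono (by linarith)
    have a4 : (NZ (ord n) : ℝ) ≤ NZ (t + K * h) := by exact_mod_cast SG.NZ_mono c2
    have a5 : Real.pi * (((NZ (t + (x - 1) * h) : ℝ) - NZ t) - 2 * K - x) ≤ Real.pi * (((NZ (ord n + H) : ℝ) - NZ (ord n)) - x) :=
      mul_le_mul_of_nonneg_left (by linarith) hpi.le
    have a6 : (c + η) * (L - 1) ≤ (c + η) * Real.log (x - 1) := mul_le_mul_of_nonneg_left l3 (by linarith)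
    have a7 : 2 * Real.pi * K ≤ η / 2 * L + 2 * Real.pi := by
      have := mul_le_mul_of_nonneg_left hK2 (by positivity : (0 : ℝ) ≤ 2 * Real.pi)
      have e : 2 * Real.pi * (κ * L + 1) = (2 * Real.pi * κ) * L + 2 * Real.pi := by ring
      rw [e, hκ1] at this
      exact this
    linarith)
  refine le_trans ?_ h1
  apply mul_le_mul_of_nonneg_right _ (by positivity)
  apply Real.exp_le_exp.2
  have := mul_le_mul_of_nonneg_right hqe hL0.le
  linarith

/-- **deviations downwards at the zeros, lower bound** -/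
theorem zlow_down (hRH : RHs) {c ε : ℝ} (hc : 0 ≤ c) (hε : 0 < ε) : ∀ᶠ x : ℝ in atTop, ∀ᶠ V : ℝ in atTop, ∀ H : ℝ,
    (x - 1) * (2 * Real.pi / Real.log V) ≤ H → H ≤ (x + 1) * (2 * Real.pi / Real.log V) →
    Real.exp (-((c ^ 2 / 2 + ε) * Real.log x)) * (V * Real.log V) ≤
      ({n : ℕ | NZ V < n ∧ n ≤ NZ (2 * V) ∧ Yz H x n ≤ -(c * Real.log x)}.ncard : ℝ) := by
  have hpi := Real.pi_pos
  obtain ⟨η, hηd⟩ : ∃ η : ℝ, η = min 1 (ε / (4 * (c + 1))) := ⟨_, rfl⟩
  have hη : 0 < η := by rw [hηd]; exact lt_min one_pos (by positivity)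
  have hη1 : η ≤ 1 := by rw [hηd]; exact min_le_left _ _
  have hη2 : (c + 1) * η ≤ ε / 4 := by
    have : η ≤ ε / (4 * (c + 1)) := by rw [hηd]; exact min_le_right _ _
    rw [le_div_iff₀ (by positivity)] at this
    linarith
  obtain ⟨κ, hκd⟩ : ∃ κ : ℝ, κ = η / (4 * Real.pi) := ⟨_, rfl⟩
  have hκ : 0 < κ := by rw [hκd]; positivity
  have hκ1 : 2 * Real.pi * κ = η / 2 := by rw [hκd]; field_simp; ring
  obtain ⟨q0, hq0d⟩ : ∃ q0 : ℝ, q0 = (c + η) ^ 2 / 2 + ε / 4 := ⟨_, rfl⟩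
  have hq00 : 0 ≤ q0 := by rw [hq0d]; positivity
  obtain ⟨q, hq⟩ : ∃ q : ℝ, q = q0 + ε / 4 := ⟨_, rfl⟩
  have hq0 : 0 ≤ q := by rw [hq]; positivity
  have hqe : q + ε / 4 ≤ c ^ 2 / 2 + ε := by rw [hq, hq0d]; nlinarith
  have t2 : Tendsto (fun x : ℝ => x + 1 + (⌈κ * Real.log x⌉₊ : ℝ)) atTop atTop := by
    refine tendsto_atTop_mono (fun x => ?_) tendsto_id
    have : (0 : ℝ) ≤ (⌈κ * Real.log x⌉₊ : ℝ) := Nat.cast_nonneg _
    show x ≤ x + 1 + (⌈κ * Real.log x⌉₊ : ℝ)
    linarith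
  have hlin : ∀ᶠ x : ℝ in atTop, κ * Real.log x + 2 ≤ x := by
    have h1 : (fun x : ℝ => κ * Real.log x + 2) =o[atTop] fun x : ℝ => x :=
      (Real.isLittleO_log_id_atTop.const_mul_left κ).add (Asymptotics.isLittleO_const_id_atTop _)
    filter_upwards [h1.bound (c := 1) one_pos, eventually_ge_atTop (1 : ℝ)] with T hT hT1
    rw [Real.norm_of_nonneg (by linarith : (0 : ℝ) ≤ T), one_mul] at hT
    exact (le_abs_self _).trans hT
  filter_upwards [zlow_core hRH hq0 hκ (ε := ε / 4) (by positivity),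
    t2.eventually (xD_lown hRH (c := c + η) (ε := ε / 4) (by positivity) (by positivity)), eventually_ge_atTop (2 : ℝ), hlin,
    Real.tendsto_log_atTop.eventually ((eventually_ge_atTop (4 * Real.pi / η)).and ((eventually_ge_atTop (q0 * 4 / ε)).and
      (eventually_ge_atTop (1 : ℝ))))]
    with x g1 g2 hx2 hxl g3
  obtain ⟨g3, g4, hL1⟩ := g3
  rw [div_le_iff₀ hη] at g3
  rw [div_le_iff₀ hε] at g4
  filter_upwards [g1, g2, eventually_ge_atTop (1 : ℝ), Real.tendsto_log_atTop.eventually_ge_atTop 1] with V k1 k2 hV1 hV2 H hH1 hH2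
  obtain ⟨L, hL⟩ : ∃ L : ℝ, L = Real.log x := ⟨_, rfl⟩
  obtain ⟨K, hK⟩ : ∃ K : ℕ, K = ⌈κ * Real.log x⌉₊ := ⟨_, rfl⟩
  have hK2 : (K : ℝ) ≤ κ * Real.log x + 1 := by
    rw [hK]
    have h0 : 0 ≤ κ * Real.log x := by
      have : 0 ≤ Real.log x := by linarith
      positivity
    exact (Nat.ceil_lt_add_one h0).le
  rw [← hK] at k1 k2
  obtain ⟨x', hx'⟩ : ∃ x' : ℝ, x' = x + 1 + K := ⟨_, rfl⟩
  rw [← hx'] at k2
  have hK0 : (0 : ℝ) ≤ K := Nat.cast_nonneg _
  have l2 : Real.log x' ≤ Real.log x + 1 := by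
    have h1 : Real.log x' ≤ Real.log (2 * x) := Real.log_le_log (by linarith) (by linarith)
    rw [Real.log_mul (by norm_num) (by linarith)] at h1
    have := Real.log_two_lt_d9
    linarith
  have l3 : Real.log x ≤ Real.log x' := Real.log_le_log (by linarith) (by linarith)
  rw [← hL] at l2 l3 g3 g4 hL1 hK2 k1 ⊢
  have hL0 : 0 < L := by linarith
  have hlV : 0 < Real.log V := by linarith
  have h1 := k1 {t | Dx V t x' ≤ -((c + η) * Real.log x')} (fun n => Yz H x n ≤ -(c * L)) (by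
    refine le_trans ?_ k2
    apply mul_le_mul_of_nonneg_right _ (by linarith)
    apply Real.exp_le_exp.2
    have := mul_le_mul_of_nonneg_left l2 hq00
    rw [← hq0d, hq]
    linarith) (by
    intro t ht n c1 c2 c3
    have ht' : Dx V t x' ≤ -((c + η) * Real.log x') := ht
    obtain ⟨h, hh⟩ : ∃ h : ℝ, h = 2 * Real.pi / Real.log V := ⟨_, rfl⟩
    rw [← hh] at c2 c3 hH1 hH2
    have e2 : 2 * Real.pi * x' / Real.log V = x' * h := by rw [hh]; ring
    unfold Dx at ht'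
    rw [e2] at ht'
    unfold Yz
    have a3 : (NZ (ord n + H) : ℝ) ≤ NZ (t + x' * h) := by
      have : NZ (ord n + H) ≤ NZ (t + x' * h) := SG.NZ_mono (by rw [hx']; linarith)
      exact_mod_cast this
    have a4 : (NZ t : ℝ) ≤ NZ (ord n) := by exact_mod_cast SG.NZ_mono c1.le
    have a5 : Real.pi * (((NZ (ord n + H) : ℝ) - NZ (ord n)) - x) ≤ Real.pi * (((NZ (t + x' * h) : ℝ) - NZ t) - x' + (K + 1)) := by
      apply mul_le_mul_of_nonneg_left _ hpi.le
      rw [hx'] at a3 ⊢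
      linarith
    have a6 : (c + η) * L ≤ (c + η) * Real.log x' := mul_le_mul_of_nonneg_left l3 (by linarith)
    have a7 : Real.pi * K ≤ η / 4 * L + Real.pi := by
      have := mul_le_mul_of_nonneg_left hK2 (by positivity : (0 : ℝ) ≤ 2 * Real.pi)
      have e : 2 * Real.pi * (κ * L + 1) = (2 * Real.pi * κ) * L + 2 * Real.pi := by ring
      rw [e, hκ1] at this
      linarith
    have a8 : 0 < η * L := by positivity
    linarith)
  refine le_trans ?_ h1
  apply mul_le_mul_of_nonneg_right _ (by positivity)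
  apply Real.exp_le_exp.2
  have := mul_le_mul_of_nonneg_right hqe hL0.le
  linarith

end

end Run7.h435.MD
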