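import Pool.Agent.Run7.h435.LDi

/-! # All zeros up to a height -/

set_option autoImplicit false

namespace Run7.h435.MD

open Filter Topology MeasureTheory Set
open SP (RHs)
open SG (NZ ord)

noncomputable section

/-- **crude bound in a block** -/
theorem zcrude (hRH : RHs) {s : ℝ} (hs : 0 < s) (m : ℕ) : ∃ B : ℝ, 0 < B ∧ ∀ᶠ V : ℝ in atTop, ∀ H : ℝ,
    H ≤ m * (2 * Real.pi / Real.log V) → ∀ Z : Finset ℕ, (∀ n ∈ Z, 1 ≤ n ∧ V + 1 ≤ ord n ∧ ord n ≤ 2 * V) →
    ∑ n ∈ Z, Real.exp (s * ((NZ (ord n + H) : ℝ) - NZ (ord n))) ≤ B * (V * Real.log V) := by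
  have hpi := Real.pi_pos
  have hpi3 := Real.pi_gt_three
  have hpi4 : Real.pi < 3.15 := Real.pi_lt_d2
  obtain ⟨B, hB0, hB⟩ := cnt_exp hRH (s := s + 1) (by positivity) (m + 1)
  refine ⟨B, hB0, ?_⟩
  filter_upwards [hB, eventually_ge_atTop (10 : ℝ), Real.tendsto_log_atTop.eventually_ge_atTop 7] with V k5 hV10 hV7 H hH Z hZ
  have hlV : 0 < Real.log V := by linarith
  have hV0 : 0 ≤ V := by linarith
  obtain ⟨h, hh⟩ : ∃ h : ℝ, h = 2 * Real.pi / Real.log V := ⟨_, rfl⟩
  have hh0 : 0 < h := by rw [hh]; positivity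
  have hh1 : h ≤ 1 := by
    rw [hh, div_le_one hlV]
    linarith
  rw [← hh] at hH
  have hm0 : (0 : ℝ) ≤ m := Nat.cast_nonneg _
  have hVV : V ≤ 2 * V := by linarith
  have e1 : 2 * Real.pi * ((m + 1 : ℕ) : ℝ) / Real.log V = (m + 1) * h := by rw [hh]; push_cast; ring
  have hint := ee_int (s + 1) (2 * Real.pi * ((m + 1 : ℕ) : ℝ) / Real.log V) 0 V (2 * V)
  have hpalm := palmW (V := V) (h := h) hh0 Z (fun n => Real.exp (s * ((NZ (ord n + H) : ℝ) - NZ (ord n))))
    (G := fun t => Real.exp (s * ((NZ (t + (m + 1) * h) : ℝ) - NZ t))) (fun t => (Real.exp_pos _).le)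
    ((intervalIntegrable_iff_integrableOn_Icc_of_le hVV).1 hint) (by
      intro t _
      rw [e1, sub_zero]
      have a1 : (NZ (t + h) : ℝ) ≤ NZ (t + (m + 1) * h) := by
        have : NZ (t + h) ≤ NZ (t + (m + 1) * h) := SG.NZ_mono (by nlinarith)
        exact_mod_cast this
      have a2 : (NZ (t + h) : ℝ) - NZ t ≤ Real.exp ((NZ (t + (m + 1) * h) : ℝ) - NZ t) := by
        linarith [Real.add_one_le_exp ((NZ (t + (m + 1) * h) : ℝ) - NZ t)]
      calc ((NZ (t + h) : ℝ) - NZ t) * Real.exp (s * ((NZ (t + (m + 1) * h) : ℝ) - NZ t)) ≤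
          Real.exp ((NZ (t + (m + 1) * h) : ℝ) - NZ t) * Real.exp (s * ((NZ (t + (m + 1) * h) : ℝ) - NZ t)) := by gcongr
        _ = _ := by rw [← Real.exp_add]; congr 1; ring)
    (fun n hn => (hZ n hn).1) (fun n hn => by have := (hZ n hn).2.1; linarith) (fun n hn => (hZ n hn).2.2) (by
      intro n hn t ht1 ht2
      apply Real.exp_le_exp.2
      apply mul_le_mul_of_nonneg_left _ hs.le
      have a1 : (NZ (ord n + H) : ℝ) ≤ NZ (t + (m + 1) * h) := by
        have : NZ (ord n + H) ≤ NZ (t + (m + 1) * h) := SG.NZ_mono (by linarith)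
        exact_mod_cast this
      have a2 : (NZ t : ℝ) ≤ NZ (ord n) := by exact_mod_cast SG.NZ_mono ht2.le
      linarith)
  rw [integral_Icc_eq_integral_Ioc, ← intervalIntegral.integral_of_le hVV] at hpalm
  have r3 := hpalm.trans k5
  have hsum0 : 0 ≤ ∑ n ∈ Z, Real.exp (s * ((NZ (ord n + H) : ℝ) - NZ (ord n))) := Finset.sum_nonneg fun n _ => (Real.exp_pos _).le
  have r4 : ∑ n ∈ Z, Real.exp (s * ((NZ (ord n + H) : ℝ) - NZ (ord n))) ≤
      h * Real.log V * ∑ n ∈ Z, Real.exp (s * ((NZ (ord n + H) : ℝ) - NZ (ord n))) := by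
    apply le_mul_of_one_le_left hsum0
    rw [hh, div_mul_cancel₀ _ hlV.ne']
    linarith
  calc ∑ n ∈ Z, Real.exp (s * ((NZ (ord n + H) : ℝ) - NZ (ord n))) ≤
      h * Real.log V * ∑ n ∈ Z, Real.exp (s * ((NZ (ord n + H) : ℝ) - NZ (ord n))) := r4
    _ = (h * ∑ n ∈ Z, Real.exp (s * ((NZ (ord n + H) : ℝ) - NZ (ord n)))) * Real.log V := by ring
    _ ≤ (B * V) * Real.log V := mul_le_mul_of_nonneg_right r3 hlV.le
    _ = _ := by ring

/-- a sum over the zeros of a longer interval -/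
lemma sum_Ioc_split {A B C : ℝ} (hAB : A ≤ B) (hBC : B ≤ C) (f : ℕ → ℝ) :
    ∑ n ∈ Finset.Ioc (NZ A) (NZ C), f n = ∑ n ∈ Finset.Ioc (NZ A) (NZ B), f n + ∑ n ∈ Finset.Ioc (NZ B) (NZ C), f n := by
  have h1 : NZ A ≤ NZ B := SG.NZ_mono hAB
  have h2 : NZ B ≤ NZ C := SG.NZ_mono hBC
  rw [← Finset.Ioc_union_Ioc_eq_Ioc h1 h2, Finset.sum_union]
  exact Finset.Ioc_disjoint_Ioc_of_le le_rfl

lemma mem_block {A B : ℝ} {n : ℕ} (h : n ∈ Finset.Ioc (NZ A) (NZ B)) : 1 ≤ n ∧ A < ord n ∧ ord n ≤ B := by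
  rw [Finset.mem_Ioc] at h
  have h1 : 1 ≤ n := by omega
  refine ⟨h1, ?_, (SG.ord_le_iff h1 _).2 h.2⟩
  by_contra hc
  push Not at hc
  have := (SG.ord_le_iff h1 _).1 hc
  omega

/-- **crude bound for all zeros** -/
theorem zcrude_all (hRH : RHs) {s : ℝ} (hs : 0 < s) (m : ℕ) : ∃ B : ℝ, 0 < B ∧ ∀ᶠ U : ℝ in atTop, ∀ H : ℝ, 0 ≤ H →
    H ≤ m * (2 * Real.pi / Real.log U) →
    ∑ n ∈ Finset.Ioc 0 (NZ U), Real.exp (s * ((NZ (ord n + H) : ℝ) - NZ (ord n))) ≤ B * (U * Real.log U) := by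
  have hpi := Real.pi_pos
  have hpi4 : Real.pi < 3.15 := Real.pi_lt_d2
  obtain ⟨B, hB0, hB⟩ := zcrude hRH hs m
  have hcomp : Tendsto (fun U : ℝ => 4 / 5 * U) atTop atTop := tendsto_id.const_mul_atTop (by norm_num)
  have hev := (hcomp.eventually hB).and ((eventually_ge_atTop (10 : ℝ)).and (hcomp.eventually
    (Real.tendsto_log_atTop.eventually_ge_atTop 1)))
  obtain ⟨T1, hT1⟩ := hev.exists_forall_of_atTop
  have hm0 : (0 : ℝ) ≤ m := Nat.cast_nonneg _
  -- a block
  have hblk : ∀ U W H : ℝ, T1 ≤ U → U ≤ W → W ≤ 3 / 2 * U → H ≤ m * (2 * Real.pi / Real.log W) →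
      ∑ n ∈ Finset.Ioc (NZ U) (NZ W), Real.exp (s * ((NZ (ord n + H) : ℝ) - NZ (ord n))) ≤ B * (U * Real.log U) := by
    intro U W H h1 h2 h3 h4
    obtain ⟨g1, g2, g3⟩ := hT1 U h1
    have hl1 : Real.log (4 / 5 * U) ≤ Real.log U := Real.log_le_log (by linarith) (by linarith)
    have hl2 : Real.log U ≤ Real.log W := Real.log_le_log (by linarith) h2
    have h5 := g1 H (h4.trans (by
      apply mul_le_mul_of_nonneg_left _ hm0
      apply div_le_div_of_nonneg_left (by positivity) (by linarith) (by linarith))) (Finset.Ioc (NZ U) (NZ W)) (fun n hn => by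
        obtain ⟨a1, a2, a3⟩ := mem_block hn
        exact ⟨a1, by linarith, by linarith⟩)
    refine h5.trans (mul_le_mul_of_nonneg_left ?_ hB0.le)
    apply mul_le_mul (by linarith) hl1 (by linarith) (by linarith)
  have hind : ∀ k : ℕ, ∀ U H : ℝ, T1 ≤ U → U ≤ T1 * (3 / 2) ^ k → H ≤ m * (2 * Real.pi / Real.log U) →
      ∑ n ∈ Finset.Ioc (NZ T1) (NZ U), Real.exp (s * ((NZ (ord n + H) : ℝ) - NZ (ord n))) ≤ 3 * B * (U * Real.log U) := by
    intro k
    induction k with
    | zero =>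
      intro U H h1 h2 h3
      have h4 : U = T1 := by
        rw [pow_zero, mul_one] at h2
        exact le_antisymm h2 h1
      rw [h4, Finset.Ioc_self, Finset.sum_empty]
      obtain ⟨g1, g2, g3⟩ := hT1 T1 le_rfl
      have hl1 : Real.log (4 / 5 * T1) ≤ Real.log T1 := Real.log_le_log (by linarith) (by linarith)
      have : 0 ≤ T1 * Real.log T1 := mul_nonneg (by linarith) (by linarith)
      positivity
    | succ k ih =>
      intro U H h1 h2 h3
      obtain ⟨g1, g2, g3⟩ := hT1 T1 le_rfl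
      have hU0 : 0 < U := by linarith
      have hlT : 1 ≤ Real.log T1 := by
        have : Real.log (4 / 5 * T1) ≤ Real.log T1 := Real.log_le_log (by linarith) (by linarith)
        linarith
      have hlU : 1 ≤ Real.log U := by
        have : Real.log T1 ≤ Real.log U := Real.log_le_log (by linarith) h1
        linarith
      rcases le_or_gt U (3 / 2 * T1) with h4 | h4
      · refine (hblk T1 U H le_rfl h1 h4 h3).trans ?_
        have h5 : T1 * Real.log T1 ≤ U * Real.log U := by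
          apply mul_le_mul h1 (Real.log_le_log (by linarith) h1) (by linarith) hU0.le
        have h6 : 0 ≤ T1 * Real.log T1 := mul_nonneg (by linarith) (by linarith)
        nlinarith
      · obtain ⟨U', hU'⟩ : ∃ U' : ℝ, U' = 2 / 3 * U := ⟨_, rfl⟩
        have h5 : T1 ≤ U' := by linarith
        have h6 : U' ≤ U := by linarith
        have hlU' : 1 ≤ Real.log U' := by
          have : Real.log T1 ≤ Real.log U' := Real.log_le_log (by linarith) h5
          linarith
        have hll : Real.log U' ≤ Real.log U := Real.log_le_log (by linarith) h6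
        have h7 : H ≤ m * (2 * Real.pi / Real.log U') := by
          refine h3.trans ?_
          apply mul_le_mul_of_nonneg_left _ hm0
          apply div_le_div_of_nonneg_left (by positivity) (by linarith) hll
        have h8 := ih U' H h5 (by
          rw [pow_succ] at h2
          linarith) h7
        have h9 := hblk U' U H h5 h6 (by linarith) h3
        rw [sum_Ioc_split h5 h6]
        have h10 : U' * Real.log U' ≤ 2 / 3 * (U * Real.log U) := by
          rw [hU']
          have : 2 / 3 * U * Real.log (2 / 3 * U) ≤ 2 / 3 * U * Real.log U := by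
            apply mul_le_mul_of_nonneg_left _ (by linarith)
            rw [← hU']; exact hll
          linarith
        have h11 : 4 * B * (U' * Real.log U') ≤ 4 * B * (2 / 3 * (U * Real.log U)) :=
          mul_le_mul_of_nonneg_left h10 (by positivity)
        have h12 : 0 ≤ B * (U * Real.log U) := by positivity
        linarith
  obtain ⟨C1, hC1⟩ : ∃ C1 : ℝ, C1 = (NZ T1 : ℝ) * Real.exp (s * NZ (T1 + 7 * m)) := ⟨_, rfl⟩
  have hC10 : 0 ≤ C1 := by rw [hC1]; positivity
  refine ⟨3 * B + 1, by positivity, ?_⟩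
  filter_upwards [eventually_ge_atTop (max T1 (max C1 1)), Real.tendsto_log_atTop.eventually_ge_atTop 1] with U hU hlU H hH0 hH
  have hUT : T1 ≤ U := (le_max_left _ _).trans hU
  have hUC : C1 ≤ U := (le_max_left _ _).trans ((le_max_right _ _).trans hU)
  have hU1 : 1 ≤ U := (le_max_right _ _).trans ((le_max_right _ _).trans hU)
  have hT1U : NZ T1 ≤ NZ U := SG.NZ_mono hUT
  rw [← Finset.Ioc_union_Ioc_eq_Ioc (Nat.zero_le _) hT1U, Finset.sum_union (Finset.Ioc_disjoint_Ioc_of_le le_rfl)]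
  obtain ⟨k, hk⟩ : ∃ k : ℕ, U ≤ T1 * (3 / 2) ^ k := by
    obtain ⟨g1, g2, g3⟩ := hT1 T1 le_rfl
    obtain ⟨k, hk⟩ := pow_unbounded_of_one_lt (U / T1) (show (1 : ℝ) < 3 / 2 by norm_num)
    rw [div_lt_iff₀ (by linarith)] at hk
    exact ⟨k, by linarith⟩
  have h1 := hind k U H hUT hk hH
  have h2 : ∑ n ∈ Finset.Ioc 0 (NZ T1), Real.exp (s * ((NZ (ord n + H) : ℝ) - NZ (ord n))) ≤ C1 := by
    have h3 : ∀ n ∈ Finset.Ioc 0 (NZ T1), Real.exp (s * ((NZ (ord n + H) : ℝ) - NZ (ord n))) ≤ Real.exp (s * NZ (T1 + 7 * m)) := by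
      intro n hn
      rw [Finset.mem_Ioc] at hn
      apply Real.exp_le_exp.2
      apply mul_le_mul_of_nonneg_left _ hs.le
      have h4 : ord n ≤ T1 := (SG.ord_le_iff (by omega) _).2 hn.2
      have h5 : H ≤ 7 * m := by
        refine hH.trans ?_
        rw [mul_comm]
        apply mul_le_mul_of_nonneg_right _ hm0
        rw [div_le_iff₀ (by linarith)]
        linarith
      have h6 : (NZ (ord n + H) : ℝ) ≤ NZ (T1 + 7 * m) := by
        have : NZ (ord n + H) ≤ NZ (T1 + 7 * m) := SG.NZ_mono (by linarith)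
        exact_mod_cast this
      have h7 : (0 : ℝ) ≤ NZ (ord n) := Nat.cast_nonneg _
      linarith
    refine (Finset.sum_le_sum h3).trans (le_of_eq ?_)
    rw [Finset.sum_const, Nat.card_Ioc, Nat.sub_zero, nsmul_eq_mul, hC1]
  have h8 : U ≤ U * Real.log U := le_mul_of_one_le_right (by linarith) hlU
  linarith

/-- **the exponential moments for all zeros up to a height** -/
theorem zall_up (hRH : RHs) {S ε : ℝ} (hS : 0 ≤ S) (hε : 0 < ε) : ∀ᶠ x : ℝ in atTop, ∀ᶠ T : ℝ in atTop,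
    ∑ n ∈ Finset.Ioc 0 (NZ T), Real.exp (S * |Yz (2 * Real.pi * x / Real.log T) x n|) ≤
      Real.exp ((S ^ 2 / 2 + ε) * Real.log x) * (T * Real.log T / (2 * Real.pi)) := by
  have hpi := Real.pi_pos
  have hpi4 : Real.pi < 3.15 := Real.pi_lt_d2
  filter_upwards [zexp_up hRH hS (ε := ε / 2) (by positivity), eventually_ge_atTop (2 : ℝ),
    Real.tendsto_log_atTop.eventually ((poly_exp 28 0 (κ := ε / 2) (by positivity)).and (eventually_ge_atTop (1 : ℝ)))]
    with x g1 hx2 g2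
  obtain ⟨g2, hL1⟩ := g2
  rw [pow_zero, mul_one] at g2
  obtain ⟨L, hL⟩ : ∃ L : ℝ, L = Real.log x := ⟨_, rfl⟩
  rw [← hL] at g1 g2 hL1 ⊢
  obtain ⟨Q, hQ⟩ : ∃ Q : ℝ, Q = Real.exp ((S ^ 2 / 2 + ε / 2) * L) := ⟨_, rfl⟩
  have hQ1 : 1 ≤ Q := by rw [hQ, Real.one_le_exp_iff]; positivity
  rw [← hQ] at g1
  -- one block
  have hblk : ∀ r : ℝ, 0 < r → r ≤ 1 → ∀ᶠ T : ℝ in atTop,
      ∑ n ∈ Finset.Ioc (NZ (2 / 3 * (r * T))) (NZ (r * T)), Real.exp (S * |Yz (2 * Real.pi * x / Real.log T) x n|) ≤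
        Q * (r * (T * Real.log T)) := by
    intro r hr hr1
    have hcomp : Tendsto (fun T : ℝ => 8 / 15 * r * T) atTop atTop := tendsto_id.const_mul_atTop (by positivity)
    filter_upwards [hcomp.eventually g1, eventually_ge_atTop (15 / (2 * r)), eventually_ge_atTop (1 : ℝ),
      hcomp.eventually (Real.tendsto_log_atTop.eventually_ge_atTop (1 : ℝ)),
      Real.tendsto_log_atTop.eventually_ge_atTop (x * -Real.log (8 / 15 * r))] with T k1 k2 k3 k4 k5
    rw [div_le_iff₀ (by positivity)] at k2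
    obtain ⟨V, hV⟩ : ∃ V : ℝ, V = 8 / 15 * r * T := ⟨_, rfl⟩
    rw [← hV] at k1 k4
    have hV0 : 0 < V := by rw [hV]; positivity
    have hVT : V ≤ T := by
      rw [hV]
      have : r * T ≤ 1 * T := mul_le_mul_of_nonneg_right hr1 (by linarith)
      have h2 : 0 ≤ r * T := by positivity
      linarith
    have hlV : Real.log V = Real.log (8 / 15 * r) + Real.log T := by
      rw [hV, Real.log_mul (by positivity) (by positivity)]
    have hlVT : Real.log V ≤ Real.log T := Real.log_le_log hV0 hVT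
    have hlT : 0 < Real.log T := by linarith
    have c1 : (x - 1) * (2 * Real.pi / Real.log V) ≤ 2 * Real.pi * x / Real.log T := by
      rw [mul_div_assoc', div_le_div_iff₀ (by linarith) hlT]
      have h1 : (x - 1) * Real.log T ≤ x * Real.log V := by rw [hlV]; linarith
      have := mul_le_mul_of_nonneg_left h1 (by positivity : (0 : ℝ) ≤ 2 * Real.pi)
      linarith
    have c2 : 2 * Real.pi * x / Real.log T ≤ (x + 1) * (2 * Real.pi / Real.log V) := by
      rw [mul_div_assoc', div_le_div_iff₀ hlT (by linarith)]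
      have h1 : x * Real.log V ≤ (x + 1) * Real.log T := by nlinarith
      have := mul_le_mul_of_nonneg_left h1 (by positivity : (0 : ℝ) ≤ 2 * Real.pi)
      linarith
    have h1 := k1 _ c1 c2 (Finset.Ioc (NZ (2 / 3 * (r * T))) (NZ (r * T))) (fun n hn => by
      obtain ⟨a1, a2, a3⟩ := mem_block hn
      refine ⟨a1, ?_, ?_⟩
      · rw [hV]; linarith
      · rw [hV]
        have : 0 ≤ r * T := by positivity
        linarith)
    refine h1.trans (mul_le_mul_of_nonneg_left ?_ (by linarith))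
    have h2 : V * Real.log V ≤ (r * T) * Real.log T := by
      apply mul_le_mul _ hlVT (by linarith) (by positivity)
      rw [hV]
      have : 0 ≤ r * T := by positivity
      linarith
    linarith
  -- several blocks
  have hind : ∀ J : ℕ, ∀ᶠ T : ℝ in atTop, ∑ n ∈ Finset.Ioc (NZ ((2 / 3) ^ J * T)) (NZ T),
      Real.exp (S * |Yz (2 * Real.pi * x / Real.log T) x n|) ≤ Q * (3 * (1 - (2 / 3) ^ J) * (T * Real.log T)) := by
    intro J
    induction J with
    | zero =>
      filter_upwards with T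
      rw [pow_zero, one_mul, Finset.Ioc_self, Finset.sum_empty]
      have : Q * (3 * (1 - 1) * (T * Real.log T)) = 0 := by ring
      rw [this]
    | succ J ih =>
      filter_upwards [ih, hblk ((2 / 3) ^ J) (by positivity) (pow_le_one₀ (by norm_num) (by norm_num)),
        eventually_ge_atTop (0 : ℝ)] with T k1 k2 k3
      have e : ((2 : ℝ) / 3) ^ (J + 1) * T = 2 / 3 * ((2 / 3) ^ J * T) := by rw [pow_succ]; ring
      have h0 : 0 ≤ ((2 : ℝ) / 3) ^ J * T := by positivity
      have h1 : ((2 : ℝ) / 3) ^ J ≤ 1 := pow_le_one₀ (by norm_num) (by norm_num)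
      have h2 : ((2 : ℝ) / 3) ^ J * T ≤ T := by
        have := mul_le_mul_of_nonneg_right h1 k3
        linarith
      rw [e, sum_Ioc_split (A := 2 / 3 * ((2 / 3) ^ J * T)) (B := (2 / 3) ^ J * T) (C := T) (by linarith) h2]
      refine (add_le_add k2 k1).trans (le_of_eq ?_)
      rw [pow_succ]
      ring
  -- the tail
  obtain ⟨m, hm⟩ : ∃ m : ℕ, m = ⌈x⌉₊ := ⟨_, rfl⟩
  have hmx : x ≤ m := by rw [hm]; exact Nat.le_ceil x
  obtain ⟨B, hB0, hB⟩ := zcrude_all hRH (s := Real.pi * S + 1) (by positivity) m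
  obtain ⟨J, hJ⟩ : ∃ J : ℕ, Real.exp (Real.pi * S * x) * B * (2 / 3) ^ J ≤ 1 := by
    obtain ⟨J, hJ⟩ := exists_pow_lt_of_lt_one (show (0 : ℝ) < 1 / (Real.exp (Real.pi * S * x) * B) by positivity)
      (show (2 : ℝ) / 3 < 1 by norm_num)
    refine ⟨J, ?_⟩
    rw [lt_div_iff₀ (by positivity)] at hJ
    linarith
  have hcomp : Tendsto (fun T : ℝ => (2 / 3 : ℝ) ^ J * T) atTop atTop := tendsto_id.const_mul_atTop (by positivity)
  filter_upwards [hind J, hcomp.eventually hB, hcomp.eventually (Real.tendsto_log_atTop.eventually_ge_atTop (1 : ℝ)),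
    eventually_ge_atTop (1 : ℝ)] with T k1 k2 k3 k4
  obtain ⟨U, hU⟩ : ∃ U : ℝ, U = (2 / 3) ^ J * T := ⟨_, rfl⟩
  rw [← hU] at k1 k2 k3
  have hU0 : 0 < U := by rw [hU]; positivity
  have hUT : U ≤ T := by
    rw [hU]
    have h1 : ((2 : ℝ) / 3) ^ J ≤ 1 := pow_le_one₀ (by norm_num) (by norm_num)
    have := mul_le_mul_of_nonneg_right h1 (by linarith : (0 : ℝ) ≤ T)
    linarith
  have hlUT : Real.log U ≤ Real.log T := Real.log_le_log hU0 hUT
  have hlT : 0 < Real.log T := by linarith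
  have hH0 : 0 ≤ 2 * Real.pi * x / Real.log T := by positivity
  have h1 := k2 (2 * Real.pi * x / Real.log T) hH0 (by
    rw [mul_div_assoc', div_le_div_iff₀ hlT (by linarith)]
    have h3 : x * Real.log U ≤ m * Real.log T := mul_le_mul hmx hlUT (by linarith) (Nat.cast_nonneg _)
    have := mul_le_mul_of_nonneg_left h3 (by positivity : (0 : ℝ) ≤ 2 * Real.pi)
    linarith)
  have h2 : ∑ n ∈ Finset.Ioc 0 (NZ U), Real.exp (S * |Yz (2 * Real.pi * x / Real.log T) x n|) ≤ T * Real.log T := by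
    have h3 : ∀ n ∈ Finset.Ioc 0 (NZ U), Real.exp (S * |Yz (2 * Real.pi * x / Real.log T) x n|) ≤
        Real.exp (Real.pi * S * x) * Real.exp ((Real.pi * S + 1) * ((NZ (ord n + 2 * Real.pi * x / Real.log T) : ℝ) - NZ (ord n))) := by
      intro n _
      rw [← Real.exp_add]
      apply Real.exp_le_exp.2
      have a1 : (NZ (ord n) : ℝ) ≤ NZ (ord n + 2 * Real.pi * x / Real.log T) := by
        have : NZ (ord n) ≤ NZ (ord n + 2 * Real.pi * x / Real.log T) := SG.NZ_mono (by linarith)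
        exact_mod_cast this
      obtain ⟨c, hc⟩ : ∃ c : ℝ, c = (NZ (ord n + 2 * Real.pi * x / Real.log T) : ℝ) - NZ (ord n) := ⟨_, rfl⟩
      have hc0 : 0 ≤ c := by rw [hc]; linarith
      have a2 : |Yz (2 * Real.pi * x / Real.log T) x n| ≤ Real.pi * (c + x) := by
        unfold Yz
        rw [abs_mul, abs_of_pos hpi, ← hc]
        apply mul_le_mul_of_nonneg_left _ hpi.le
        rw [abs_le]
        constructor <;> linarith
      rw [← hc]
      have a3 := mul_le_mul_of_nonneg_left a2 hS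
      linarith
    refine (Finset.sum_le_sum h3).trans ?_
    rw [← Finset.mul_sum]
    calc Real.exp (Real.pi * S * x) * ∑ n ∈ Finset.Ioc 0 (NZ U), Real.exp ((Real.pi * S + 1) *
        ((NZ (ord n + 2 * Real.pi * x / Real.log T) : ℝ) - NZ (ord n))) ≤
        Real.exp (Real.pi * S * x) * (B * (U * Real.log U)) := mul_le_mul_of_nonneg_left h1 (Real.exp_pos _).le
      _ ≤ Real.exp (Real.pi * S * x) * (B * (U * Real.log T)) := by gcongr
      _ = (Real.exp (Real.pi * S * x) * B * (2 / 3) ^ J) * (T * Real.log T) := by rw [hU]; ring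
      _ ≤ 1 * (T * Real.log T) := mul_le_mul_of_nonneg_right hJ (by positivity)
      _ = T * Real.log T := one_mul _
  have hNU : NZ U ≤ NZ T := SG.NZ_mono hUT
  rw [← Finset.Ioc_union_Ioc_eq_Ioc (Nat.zero_le _) hNU, Finset.sum_union (Finset.Ioc_disjoint_Ioc_of_le le_rfl)]
  refine (add_le_add h2 k1).trans ?_
  have hTT : 0 ≤ T * Real.log T := by positivity
  have h4 : Q * (3 * (1 - (2 / 3) ^ J) * (T * Real.log T)) ≤ Q * (3 * (T * Real.log T)) := by
    apply mul_le_mul_of_nonneg_left _ (by linarith)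
    have : (0 : ℝ) ≤ (2 / 3) ^ J := by positivity
    have := mul_nonneg this hTT
    linarith
  have h5 : T * Real.log T ≤ Q * (T * Real.log T) := le_mul_of_one_le_left hTT hQ1
  have h6 : Q * 28 ≤ Real.exp ((S ^ 2 / 2 + ε) * L) := by
    calc Q * 28 ≤ Q * Real.exp (ε / 2 * L) := mul_le_mul_of_nonneg_left g2 (by linarith)
      _ = _ := by rw [hQ, ← Real.exp_add]; congr 1; ring
  have h7 : 4 * Q * (T * Real.log T) ≤ (Q * 28) * (T * Real.log T / (2 * Real.pi)) := by
    rw [mul_div_assoc', le_div_iff₀ (by positivity)]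
    have h8 : 0 ≤ Q * (T * Real.log T) := by positivity
    nlinarith
  have h9 := mul_le_mul_of_nonneg_right h6 (by positivity : (0 : ℝ) ≤ T * Real.log T / (2 * Real.pi))
  linarith

end

end Run7.h435.MD
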