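import Pool.Agent.Run7.h435.LDj

/-! # The number of zeros following a zero: exponential moments and large deviations -/

set_option autoImplicit false

namespace Run7.h435.MD

open Filter Topology MeasureTheory Set
open SP (RHs)
open SG (NZ ord)

noncomputable section

lemma rhs_of_rhz (RH : RiemannHypothesis) : RHs := by
  intro s h1 h2 h0
  apply RH s h0
  · rintro ⟨k, hk⟩
    have := congrArg Complex.re hk
    simp at this
    have hk0 : (0 : ℝ) ≤ k := Nat.cast_nonneg k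
    linarith
  · intro h
    rw [h] at h2
    simp at h2

/-- the number of zeros following a zero within `x` mean spacings, minus `x` -/
def Wz (T : ℝ) (n : ℕ) (x : ℝ) : ℝ := (NZ (ord n + 2 * Real.pi * x / Real.log T) : ℝ) - NZ (ord n) - x

lemma Yz_Wz (T x : ℝ) (n : ℕ) : Yz (2 * Real.pi * x / Real.log T) x n = Real.pi * Wz T n x := rfl

lemma fin_le (T : ℝ) (P : ℕ → Prop) : {n : ℕ | 1 ≤ n ∧ ord n ≤ T ∧ P n}.Finite := by
  refine (Set.finite_Icc 1 (NZ T)).subset ?_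
  rintro n ⟨h1, h2, _⟩
  exact ⟨h1, (SG.ord_le_iff h1 _).1 h2⟩

/-- the zeros up to a height contain those of the upper half -/
lemma ncard_half {T A : ℝ} (hT : 0 ≤ T) {P : ℕ → Prop}
    (h : A ≤ ({n : ℕ | NZ (T / 2) < n ∧ n ≤ NZ (2 * (T / 2)) ∧ P n}.ncard : ℝ)) :
    A ≤ ({n : ℕ | 1 ≤ n ∧ ord n ≤ T ∧ P n}.ncard : ℝ) := by
  refine h.trans ?_
  have h1 : {n : ℕ | NZ (T / 2) < n ∧ n ≤ NZ (2 * (T / 2)) ∧ P n} ⊆ {n : ℕ | 1 ≤ n ∧ ord n ≤ T ∧ P n} := by
    rintro n ⟨a1, a2, a3⟩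
    have e : 2 * (T / 2) = T := by ring
    rw [e] at a2
    have a4 : 1 ≤ n := by omega
    exact ⟨a4, (SG.ord_le_iff a4 _).2 a2, a3⟩
  exact_mod_cast Set.ncard_le_ncard h1 (fin_le T P)

/-- the window at half the height -/
lemma half_window (x : ℝ) (hx : 0 ≤ x) : ∀ᶠ T : ℝ in atTop,
    (x - 1) * (2 * Real.pi / Real.log (T / 2)) ≤ 2 * Real.pi * x / Real.log T ∧
    2 * Real.pi * x / Real.log T ≤ (x + 1) * (2 * Real.pi / Real.log (T / 2)) ∧
    T * Real.log T / (2 * Real.pi) ≤ T / 2 * Real.log (T / 2) ∧ 0 < T * Real.log T / (2 * Real.pi) := by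
  have hpi := Real.pi_pos
  have hpi3 := Real.pi_gt_three
  filter_upwards [Real.tendsto_log_atTop.eventually_ge_atTop (x + 5), eventually_ge_atTop (4 : ℝ)] with T h1 h2
  have hl2 := Real.log_two_lt_d9
  have hl20 : 0 < Real.log 2 := Real.log_pos (by norm_num)
  have e : Real.log (T / 2) = Real.log T - Real.log 2 := Real.log_div (by linarith) (by norm_num)
  have hlT : 0 < Real.log T := by linarith
  have hlT2 : 0 < Real.log (T / 2) := by rw [e]; linarith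
  refine ⟨?_, ?_, ?_, by positivity⟩
  · rw [mul_div_assoc', div_le_div_iff₀ hlT2 hlT]
    have h3 : (x - 1) * Real.log T ≤ x * Real.log (T / 2) := by rw [e]; nlinarith
    have := mul_le_mul_of_nonneg_left h3 (by positivity : (0 : ℝ) ≤ 2 * Real.pi)
    linarith
  · rw [mul_div_assoc', div_le_div_iff₀ hlT hlT2]
    have h3 : x * Real.log (T / 2) ≤ (x + 1) * Real.log T := by rw [e]; nlinarith
    have := mul_le_mul_of_nonneg_left h3 (by positivity : (0 : ℝ) ≤ 2 * Real.pi)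
    linarith
  · rw [div_le_iff₀ (by positivity), e]
    have h3 : Real.log T ≤ 2 * (Real.log T - Real.log 2) := by linarith
    have h4 : T * Real.log T ≤ T * (2 * (Real.log T - Real.log 2)) := mul_le_mul_of_nonneg_left h3 (by linarith)
    have h5 : 0 ≤ T * (Real.log T - Real.log 2) := mul_nonneg (by linarith) (by linarith)
    nlinarith

/-- **upwards, lower bound** -/
theorem z_up (hRH : RHs) {c ε : ℝ} (hc : 0 ≤ c) (hε : 0 < ε) : ∀ᶠ x : ℝ in atTop, ∀ᶠ T : ℝ in atTop,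
    Real.exp (-((c ^ 2 / 2 + ε) * Real.log x)) * (T * Real.log T / (2 * Real.pi)) ≤
      ({n : ℕ | 1 ≤ n ∧ ord n ≤ T ∧ c * Real.log x ≤ Yz (2 * Real.pi * x / Real.log T) x n}.ncard : ℝ) := by
  filter_upwards [zlow_up hRH hc hε, eventually_ge_atTop (0 : ℝ)] with x g1 hx0
  have t2 : Tendsto (fun T : ℝ => T / 2) atTop atTop := tendsto_id.atTop_div_const (by norm_num)
  filter_upwards [t2.eventually g1, half_window x hx0, eventually_ge_atTop (0 : ℝ)] with T k1 k2 k3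
  obtain ⟨w1, w2, w3, w4⟩ := k2
  refine ncard_half k3 (le_trans ?_ (k1 _ w1 w2))
  exact mul_le_mul_of_nonneg_left w3 (Real.exp_pos _).le

/-- **downwards, lower bound** -/
theorem z_down (hRH : RHs) {c ε : ℝ} (hc : 0 ≤ c) (hε : 0 < ε) : ∀ᶠ x : ℝ in atTop, ∀ᶠ T : ℝ in atTop,
    Real.exp (-((c ^ 2 / 2 + ε) * Real.log x)) * (T * Real.log T / (2 * Real.pi)) ≤
      ({n : ℕ | 1 ≤ n ∧ ord n ≤ T ∧ Yz (2 * Real.pi * x / Real.log T) x n ≤ -(c * Real.log x)}.ncard : ℝ) := by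
  filter_upwards [zlow_down hRH hc hε, eventually_ge_atTop (0 : ℝ)] with x g1 hx0
  have t2 : Tendsto (fun T : ℝ => T / 2) atTop atTop := tendsto_id.atTop_div_const (by norm_num)
  filter_upwards [t2.eventually g1, half_window x hx0, eventually_ge_atTop (0 : ℝ)] with T k1 k2 k3
  obtain ⟨w1, w2, w3, w4⟩ := k2
  refine ncard_half k3 (le_trans ?_ (k1 _ w1 w2))
  exact mul_le_mul_of_nonneg_left w3 (Real.exp_pos _).le

/-- a sum over the zeros up to a height bounds the number of those in a set -/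
lemma chebz {T c : ℝ} (F : ℕ → ℝ) (hF : ∀ n, 0 ≤ F n) (P : ℕ → Prop) (hP : ∀ n, P n → c ≤ F n) :
    c * ({n : ℕ | 1 ≤ n ∧ ord n ≤ T ∧ P n}.ncard : ℝ) ≤ ∑ n ∈ Finset.Ioc 0 (NZ T), F n := by
  classical
  have e : {n : ℕ | 1 ≤ n ∧ ord n ≤ T ∧ P n} = (((Finset.Ioc 0 (NZ T)).filter P : Finset ℕ) : Set ℕ) := by
    ext n
    simp only [Set.mem_ofPred_eq, Finset.coe_filter, Finset.mem_Ioc]
    constructor
    · rintro ⟨h1, h2, h3⟩
      exact ⟨⟨by omega, (SG.ord_le_iff h1 _).1 h2⟩, h3⟩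
    · rintro ⟨⟨h1, h2⟩, h3⟩
      have h4 : 1 ≤ n := by omega
      exact ⟨h4, (SG.ord_le_iff h4 _).2 h2, h3⟩
  rw [e, Set.ncard_coe_finset]
  calc c * (((Finset.Ioc 0 (NZ T)).filter P).card : ℝ) = ∑ n ∈ (Finset.Ioc 0 (NZ T)).filter P, c := by
        rw [Finset.sum_const, nsmul_eq_mul]; ring
    _ ≤ ∑ n ∈ (Finset.Ioc 0 (NZ T)).filter P, F n := Finset.sum_le_sum fun n hn => hP n (Finset.mem_filter.1 hn).2
    _ ≤ ∑ n ∈ Finset.Ioc 0 (NZ T), F n := Finset.sum_le_sum_of_subset_of_nonneg (Finset.filter_subset _ _) fun n _ _ => hF n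

/-- **upper bound for the deviations** -/
theorem z_few (hRH : RHs) {c ε : ℝ} (hc : 0 ≤ c) (hε : 0 < ε) : ∀ᶠ x : ℝ in atTop, ∀ᶠ T : ℝ in atTop,
    ({n : ℕ | 1 ≤ n ∧ ord n ≤ T ∧ c * Real.log x ≤ |Yz (2 * Real.pi * x / Real.log T) x n|}.ncard : ℝ) ≤
      Real.exp (-((c ^ 2 / 2 - ε) * Real.log x)) * (T * Real.log T / (2 * Real.pi)) := by
  filter_upwards [zall_up hRH hc hε] with x g1
  filter_upwards [g1] with T k1
  have h1 := (chebz (T := T) (c := Real.exp (c * (c * Real.log x))) (fun n => Real.exp (c * |Yz (2 * Real.pi * x / Real.log T) x n|))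
    (fun n => (Real.exp_pos _).le) (fun n => c * Real.log x ≤ |Yz (2 * Real.pi * x / Real.log T) x n|) (fun n hn =>
      Real.exp_le_exp.2 (mul_le_mul_of_nonneg_left hn hc))).trans k1
  have e : Real.exp (-((c ^ 2 / 2 - ε) * Real.log x)) = (Real.exp (c * (c * Real.log x)))⁻¹ * Real.exp ((c ^ 2 / 2 + ε) * Real.log x) := by
    rw [← Real.exp_neg, ← Real.exp_add]; congr 1; ring
  have h2 := mul_le_mul_of_nonneg_left h1 (inv_nonneg.2 (Real.exp_pos (c * (c * Real.log x))).le)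
  rw [← mul_assoc, inv_mul_cancel₀ (Real.exp_pos _).ne', one_mul, ← mul_assoc, ← e] at h2
  exact h2

/-- **exponential moments at the zeros** -/
theorem moments_Z (hRH : RHs) (l : ℝ) {ε : ℝ} (hε : 0 < ε) : ∀ᶠ x : ℝ in atTop, ∀ᶠ T : ℝ in atTop,
    x ^ (l ^ 2 / (2 * Real.pi ^ 2) - ε) ≤
      (T / (2 * Real.pi) * Real.log T)⁻¹ * ∑ n ∈ Finset.Icc 1 (NZ T), Real.exp (l * Wz T n x) ∧
    (T / (2 * Real.pi) * Real.log T)⁻¹ * ∑ n ∈ Finset.Icc 1 (NZ T), Real.exp (l * Wz T n x) ≤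
      x ^ (l ^ 2 / (2 * Real.pi ^ 2) + ε) := by
  have hpi := Real.pi_pos
  have e2 : (|l| / Real.pi) ^ 2 / 2 = l ^ 2 / (2 * Real.pi ^ 2) := by
    rw [div_pow, sq_abs]; field_simp
  have hc : 0 ≤ |l| / Real.pi := by positivity
  filter_upwards [z_up hRH hc hε, z_down hRH hc hε, zall_up hRH hc hε, eventually_gt_atTop (0 : ℝ)]
    with x h1 h2 h3 hx0
  filter_upwards [h1, h2, h3, eventually_gt_atTop (0 : ℝ), Real.tendsto_log_atTop.eventually_gt_atTop (0 : ℝ)]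
    with T g1 g2 g3 hT0 hlT
  have hN : 0 < T * Real.log T / (2 * Real.pi) := by positivity
  have eN : T / (2 * Real.pi) * Real.log T = T * Real.log T / (2 * Real.pi) := by ring
  have eI : Finset.Icc 1 (NZ T) = Finset.Ioc 0 (NZ T) := by
    ext n
    simp only [Finset.mem_Icc, Finset.mem_Ioc]
    omega
  rw [eN, eI, inv_mul_eq_div, le_div_iff₀ hN, div_le_iff₀ hN]
  rw [e2] at g1 g2 g3
  have f1 : x ^ (l ^ 2 / (2 * Real.pi ^ 2) - ε) = Real.exp (-((l ^ 2 / (2 * Real.pi ^ 2) + ε) * Real.log x)) *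
      Real.exp (|l| / Real.pi * (|l| / Real.pi * Real.log x)) := by
    rw [Real.rpow_def_of_pos hx0, ← Real.exp_add]
    congr 1
    have : |l| / Real.pi * (|l| / Real.pi * Real.log x) = 2 * ((|l| / Real.pi) ^ 2 / 2) * Real.log x := by ring
    rw [this, e2]
    ring
  have f2 : x ^ (l ^ 2 / (2 * Real.pi ^ 2) + ε) = Real.exp ((l ^ 2 / (2 * Real.pi ^ 2) + ε) * Real.log x) := by
    rw [Real.rpow_def_of_pos hx0]; congr 1; ring
  have f3 : ∀ n, l * Wz T n x = l / Real.pi * Yz (2 * Real.pi * x / Real.log T) x n := by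
    intro n
    rw [Yz_Wz]
    field_simp
  constructor
  · rw [f1]
    rcases le_total 0 l with hl | hl
    · have h5 := chebz (T := T) (c := Real.exp (|l| / Real.pi * (|l| / Real.pi * Real.log x))) (fun n => Real.exp (l * Wz T n x))
        (fun n => (Real.exp_pos _).le) (fun n => |l| / Real.pi * Real.log x ≤ Yz (2 * Real.pi * x / Real.log T) x n) (fun n hn => by
          apply Real.exp_le_exp.2
          rw [f3, ← abs_of_nonneg hl, abs_abs]
          exact mul_le_mul_of_nonneg_left hn hc)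
      refine le_trans ?_ h5
      calc Real.exp (-((l ^ 2 / (2 * Real.pi ^ 2) + ε) * Real.log x)) * Real.exp (|l| / Real.pi * (|l| / Real.pi * Real.log x)) *
          (T * Real.log T / (2 * Real.pi)) = Real.exp (|l| / Real.pi * (|l| / Real.pi * Real.log x)) *
          (Real.exp (-((l ^ 2 / (2 * Real.pi ^ 2) + ε) * Real.log x)) * (T * Real.log T / (2 * Real.pi))) := by ring
        _ ≤ _ := mul_le_mul_of_nonneg_left g1 (Real.exp_pos _).le
    · have h5 := chebz (T := T) (c := Real.exp (|l| / Real.pi * (|l| / Real.pi * Real.log x))) (fun n => Real.exp (l * Wz T n x))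
        (fun n => (Real.exp_pos _).le) (fun n => Yz (2 * Real.pi * x / Real.log T) x n ≤ -(|l| / Real.pi * Real.log x)) (fun n hn => by
          apply Real.exp_le_exp.2
          rw [f3]
          have h6 : l = -|l| := by rw [abs_of_nonpos hl]; ring
          have h7 : l / Real.pi = -(|l| / Real.pi) := by rw [← neg_div, ← h6]
          rw [h7]
          have := mul_le_mul_of_nonneg_left hn hc
          linarith)
      refine le_trans ?_ h5
      calc Real.exp (-((l ^ 2 / (2 * Real.pi ^ 2) + ε) * Real.log x)) * Real.exp (|l| / Real.pi * (|l| / Real.pi * Real.log x)) *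
          (T * Real.log T / (2 * Real.pi)) = Real.exp (|l| / Real.pi * (|l| / Real.pi * Real.log x)) *
          (Real.exp (-((l ^ 2 / (2 * Real.pi ^ 2) + ε) * Real.log x)) * (T * Real.log T / (2 * Real.pi))) := by ring
        _ ≤ _ := mul_le_mul_of_nonneg_left g2 (Real.exp_pos _).le
  · rw [f2]
    refine le_trans (Finset.sum_le_sum fun n _ => ?_) g3
    apply Real.exp_le_exp.2
    rw [f3]
    calc l / Real.pi * Yz (2 * Real.pi * x / Real.log T) x n ≤ |l / Real.pi * Yz (2 * Real.pi * x / Real.log T) x n| := le_abs_self _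
      _ = |l| / Real.pi * |Yz (2 * Real.pi * x / Real.log T) x n| := by rw [abs_mul, abs_div, abs_of_pos hpi]

/-- **large deviations at the zeros** -/
theorem deviations_Z (hRH : RHs) {y ε : ℝ} (hy : 0 ≤ y) (hε : 0 < ε) : ∀ᶠ x : ℝ in atTop, ∀ᶠ T : ℝ in atTop,
    (x ^ (-(Real.pi ^ 2 * y ^ 2 / 2) - ε) ≤
      (T / (2 * Real.pi) * Real.log T)⁻¹ * ({n : ℕ | 1 ≤ n ∧ ord n ≤ T ∧ y * Real.log x ≤ Wz T n x}.ncard : ℝ) ∧
    (T / (2 * Real.pi) * Real.log T)⁻¹ * ({n : ℕ | 1 ≤ n ∧ ord n ≤ T ∧ y * Real.log x ≤ Wz T n x}.ncard : ℝ) ≤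
      x ^ (-(Real.pi ^ 2 * y ^ 2 / 2) + ε)) ∧
    (x ^ (-(Real.pi ^ 2 * y ^ 2 / 2) - ε) ≤
      (T / (2 * Real.pi) * Real.log T)⁻¹ * ({n : ℕ | 1 ≤ n ∧ ord n ≤ T ∧ y * Real.log x ≤ -Wz T n x}.ncard : ℝ) ∧
    (T / (2 * Real.pi) * Real.log T)⁻¹ * ({n : ℕ | 1 ≤ n ∧ ord n ≤ T ∧ y * Real.log x ≤ -Wz T n x}.ncard : ℝ) ≤
      x ^ (-(Real.pi ^ 2 * y ^ 2 / 2) + ε)) := by
  have hpi := Real.pi_pos
  have e1 : (Real.pi * y) ^ 2 / 2 = Real.pi ^ 2 * y ^ 2 / 2 := by ring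
  filter_upwards [z_up hRH (c := Real.pi * y) (by positivity) hε, z_down hRH (c := Real.pi * y) (by positivity) hε,
    z_few hRH (c := Real.pi * y) (by positivity) hε, eventually_gt_atTop (0 : ℝ)] with x h1 h2 h3 hx0
  filter_upwards [h1, h2, h3, eventually_gt_atTop (0 : ℝ), Real.tendsto_log_atTop.eventually_gt_atTop (0 : ℝ)]
    with T g1 g2 g3 hT0 hlT
  rw [e1] at g1 g2 g3
  have hN : 0 < T * Real.log T / (2 * Real.pi) := by positivity
  have eN : T / (2 * Real.pi) * Real.log T = T * Real.log T / (2 * Real.pi) := by ring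
  have s1 : {n : ℕ | 1 ≤ n ∧ ord n ≤ T ∧ y * Real.log x ≤ Wz T n x} =
      {n : ℕ | 1 ≤ n ∧ ord n ≤ T ∧ Real.pi * y * Real.log x ≤ Yz (2 * Real.pi * x / Real.log T) x n} := by
    ext n
    simp only [Set.mem_ofPred_eq, Yz_Wz]
    rw [mul_assoc, mul_le_mul_iff_right₀ hpi]
  have s2 : {n : ℕ | 1 ≤ n ∧ ord n ≤ T ∧ y * Real.log x ≤ -Wz T n x} =
      {n : ℕ | 1 ≤ n ∧ ord n ≤ T ∧ Yz (2 * Real.pi * x / Real.log T) x n ≤ -(Real.pi * y * Real.log x)} := by
    ext n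
    simp only [Set.mem_ofPred_eq, Yz_Wz]
    rw [mul_assoc, ← mul_neg, mul_le_mul_iff_right₀ hpi, le_neg]
  rw [s1, s2, eN]
  have k1 : ({n : ℕ | 1 ≤ n ∧ ord n ≤ T ∧ Real.pi * y * Real.log x ≤ Yz (2 * Real.pi * x / Real.log T) x n}.ncard : ℝ) ≤
      ({n : ℕ | 1 ≤ n ∧ ord n ≤ T ∧ Real.pi * y * Real.log x ≤ |Yz (2 * Real.pi * x / Real.log T) x n|}.ncard : ℝ) := by
    have hs : {n : ℕ | 1 ≤ n ∧ ord n ≤ T ∧ Real.pi * y * Real.log x ≤ Yz (2 * Real.pi * x / Real.log T) x n} ⊆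
        {n : ℕ | 1 ≤ n ∧ ord n ≤ T ∧ Real.pi * y * Real.log x ≤ |Yz (2 * Real.pi * x / Real.log T) x n|} :=
      fun n hn => ⟨hn.1, hn.2.1, hn.2.2.trans (le_abs_self _)⟩
    exact_mod_cast Set.ncard_le_ncard hs (fin_le T _)
  have k2 : ({n : ℕ | 1 ≤ n ∧ ord n ≤ T ∧ Yz (2 * Real.pi * x / Real.log T) x n ≤ -(Real.pi * y * Real.log x)}.ncard : ℝ) ≤
      ({n : ℕ | 1 ≤ n ∧ ord n ≤ T ∧ Real.pi * y * Real.log x ≤ |Yz (2 * Real.pi * x / Real.log T) x n|}.ncard : ℝ) := by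
    have hs : {n : ℕ | 1 ≤ n ∧ ord n ≤ T ∧ Yz (2 * Real.pi * x / Real.log T) x n ≤ -(Real.pi * y * Real.log x)} ⊆
        {n : ℕ | 1 ≤ n ∧ ord n ≤ T ∧ Real.pi * y * Real.log x ≤ |Yz (2 * Real.pi * x / Real.log T) x n|} :=
      fun n hn => ⟨hn.1, hn.2.1, by
        have := hn.2.2
        linarith [neg_abs_le (Yz (2 * Real.pi * x / Real.log T) x n)]⟩
    exact_mod_cast Set.ncard_le_ncard hs (fin_le T _)
  have f1 : Real.exp (-((Real.pi ^ 2 * y ^ 2 / 2 + ε) * Real.log x)) = x ^ (-(Real.pi ^ 2 * y ^ 2 / 2) - ε) := by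
    rw [Real.rpow_def_of_pos hx0]; congr 1; ring
  have f2 : Real.exp (-((Real.pi ^ 2 * y ^ 2 / 2 - ε) * Real.log x)) = x ^ (-(Real.pi ^ 2 * y ^ 2 / 2) + ε) := by
    rw [Real.rpow_def_of_pos hx0]; congr 1; ring
  rw [f1] at g1 g2
  rw [f2] at g3
  simp only [inv_mul_eq_div]
  rw [le_div_iff₀ hN, div_le_iff₀ hN, le_div_iff₀ hN, div_le_iff₀ hN]
  exact ⟨⟨g1, k1.trans g3⟩, ⟨g2, k2.trans g3⟩⟩

end

end Run7.h435.MD
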