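import Pool.Agent.Run7.h435.Step

/-!
# The greedy process on lists
-/

set_option linter.unusedSectionVars false

namespace Run7.h435

open Finset

/-! ### Best candidate -/

section

variable {σ : Type*}

/-- An element of largest score. -/
def best (f : σ → ℕ) (d : σ) (l : List σ) : σ := l.foldl (fun s x => if f s < f x then x else s) d

theorem best_cons (f : σ → ℕ) (d x : σ) (l : List σ) :
    best f d (x :: l) = best f (if f d < f x then x else d) l := rfl

theorem best_ge_d (f : σ → ℕ) : ∀ (l : List σ) (d : σ), f d ≤ f (best f d l)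
  | [], d => le_rfl
  | x :: l, d => by
    rw [best_cons]
    refine le_trans ?_ (best_ge_d f l _)
    split_ifs with h
    · exact h.le
    · exact le_rfl

theorem best_mem (f : σ → ℕ) : ∀ (l : List σ) (d : σ), best f d l = d ∨ best f d l ∈ l
  | [], d => Or.inl rfl
  | x :: l, d => by
    rw [best_cons]
    rcases best_mem f l (if f d < f x then x else d) with h | h
    · rw [h]
      split_ifs with h'
      · right; simp
      · left; rfl
    · right
      exact List.mem_cons_of_mem _ h

theorem best_ge (f : σ → ℕ) : ∀ (l : List σ) (d x : σ), x ∈ l → f x ≤ f (best f d l)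
  | [], d, x, h => by simp at h
  | y :: l, d, x, h => by
    rw [best_cons]
    rcases List.mem_cons.1 h with h | h
    · subst h
      refine le_trans ?_ (best_ge_d f l _)
      split_ifs with h'
      · exact le_rfl
      · omega
    · exact best_ge f l _ x h

end

variable {α : Type} [DecidableEq α] (r : α → α → α → Bool)

/-- The relation given by a boolean test. -/
abbrev rel : α → α → α → Prop := fun a b c => r a b c = true

def nbL (I V : List α) (u : α) : List α := V.filter fun x => I.any fun w => r w u x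

def s2L (I V : List α) : ℕ := (V.map fun u => (nbL r I V u).length).sum

def c3L (V : List α) : ℕ :=
  (V.map fun x => (V.map fun y => (V.filter fun z => r x y z).length).sum).sum

def Fh (A L lam N S2 C3 : ℕ) : ℕ :=
  ((List.range L).map fun j => (A * lam * (N * N)) /
    ((2 ^ j + lam) * lam * N + lam * S2 + L * C3)).sum

def mxF (A L Lam N S2 C3 : ℕ) : ℕ :=
  best (fun x => x) 0 ((List.range Lam).map fun i => Fh A L (i + 1) N S2 C3)

def score (A L Lam : ℕ) (s : List α × List α) : ℕ :=
  27 * A * s.1.length + mxF A L Lam s.2.length (s2L r s.1 s.2) (c3L r s.2)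

def delL (V : List α) (v : α) : List α := V.filter fun x => !(decide (x = v))

def selL (I V : List α) (v : α) : List α :=
  V.filter fun x => !(decide (x = v)) && !(I.any fun w => r w v x)

def cands (s : List α × List α) : List (List α × List α) :=
  (s.2.map fun v => (s.1, delL s.2 v)) ++ (s.2.map fun v => (v :: s.1, selL r s.1 s.2 v))

def stepL (A L Lam : ℕ) (s : List α × List α) : List α × List α :=
  bif s.2.isEmpty then s else best (score r A L Lam) ([], []) (cands r s)

/-- The greedy process guided by the potential. -/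
def potL (L : ℕ) (V : List α) : List α :=
  ((stepL r ((V.length + 1) * (V.length + 1)) L (V.length + 1))^[V.length] ([], V)).1

/-! ### From lists to finite sets -/

theorem sum_map_toFinset {V : List α} (hV : V.Nodup) (f : α → ℕ) :
    (V.map f).sum = ∑ x ∈ V.toFinset, f x := (List.sum_toFinset f hV).symm

theorem nbL_toFinset (I V : List α) (u : α) :
    (nbL r I V u).toFinset = nb (rel r) I.toFinset V.toFinset u := by
  ext x
  simp only [nbL, List.mem_toFinset, List.mem_filter, List.any_eq_true, mem_nb]

theorem nbL_length {I V : List α} (hV : V.Nodup) (u : α) :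
    (nbL r I V u).length = (nb (rel r) I.toFinset V.toFinset u).card := by
  rw [← nbL_toFinset]
  exact (List.toFinset_card_of_nodup (hV.filter _)).symm

theorem s2L_eq {I V : List α} (hV : V.Nodup) :
    s2L r I V = s2 (rel r) I.toFinset V.toFinset := by
  unfold s2L s2
  rw [sum_map_toFinset hV]
  exact sum_congr rfl fun u _ => nbL_length r hV u

theorem c3L_eq {V : List α} (hV : V.Nodup) : c3L r V = c3 (rel r) V.toFinset := by
  unfold c3L c3
  rw [sum_map_toFinset hV]
  refine sum_congr rfl fun x _ => ?_
  rw [sum_map_toFinset hV, card_e3]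
  refine sum_congr rfl fun y _ => ?_
  rw [← card_filter, ← List.toFinset_card_of_nodup (hV.filter _), List.toFinset_filter]

theorem delL_toFinset (V : List α) (v : α) : (delL V v).toFinset = V.toFinset \ {v} := by
  ext x
  simp [delL]

theorem selL_toFinset (I V : List α) (v : α) :
    (selL r I V v).toFinset = selV (rel r) I.toFinset V.toFinset v := by
  ext x
  unfold selL selV
  simp only [List.mem_toFinset, List.mem_filter, Finset.mem_sdiff, Finset.mem_insert, mem_nb,
    Bool.and_eq_true, Bool.not_eq_true', decide_eq_false_iff_not, List.any_eq_false]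
  constructor
  · rintro ⟨h1, h2, h3⟩
    refine ⟨h1, ?_⟩
    rintro (h4 | ⟨_, w, hw, hR⟩)
    · exact h2 h4
    · exact h3 w hw hR
  · rintro ⟨h1, h2⟩
    refine ⟨h1, fun h4 => h2 (Or.inl h4), fun w hw hR => h2 (Or.inr ⟨h1, w, hw, hR⟩)⟩

/-! ### Rounding -/

theorem FF_nat (L lam N S2 C3 : ℕ) (hlam : 1 ≤ lam) :
    FF L lam N S2 C3 = ∑ j ∈ range L, ((lam * (N * N) : ℕ) : ℝ) /
      (((2 ^ j + lam) * lam * N + lam * S2 + L * C3 : ℕ) : ℝ) := by
  unfold FF
  refine sum_congr rfl fun j _ => ?_
  unfold yy
  have h0 : (0 : ℝ) < lam := by exact_mod_cast hlam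
  have e : (((2 ^ j + lam) * lam * N + lam * S2 + L * C3 : ℕ) : ℝ) =
      lam * ((2 ^ j + lam) * N + S2 + (L / lam) * C3) := by
    push_cast
    field_simp
  rw [e]
  push_cast
  rw [show (lam : ℝ) * (N * N) = lam * (N ^ 2 : ℝ) by ring, mul_div_mul_left _ _ h0.ne']

theorem Fh_eq (A L lam N S2 C3 : ℕ) : Fh A L lam N S2 C3 = ∑ j ∈ range L, (A * (lam * (N * N))) /
    ((2 ^ j + lam) * lam * N + lam * S2 + L * C3) := by
  unfold Fh
  rw [← List.sum_toFinset _ (List.nodup_range)]
  rw [List.toFinset_range]
  refine sum_congr rfl fun j _ => ?_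
  rw [mul_assoc]

theorem Fh_le (A L lam N S2 C3 : ℕ) (hlam : 1 ≤ lam) :
    (Fh A L lam N S2 C3 : ℝ) ≤ A * FF L lam N S2 C3 := by
  rw [Fh_eq, FF_nat _ _ _ _ _ hlam, mul_sum]
  push_cast
  refine sum_le_sum fun j _ => ?_
  refine Nat.cast_div_le.trans (le_of_eq ?_)
  push_cast
  ring

theorem div_le_floor_add (X D : ℕ) : (X : ℝ) / D ≤ ((X / D : ℕ) : ℝ) + 1 := by
  rcases Nat.eq_zero_or_pos D with h0 | h0
  · rw [h0]; simp
  · rw [div_le_iff₀ (by exact_mod_cast h0)]
    have h := Nat.lt_mul_div_succ X h0
    have h2 : (X : ℝ) ≤ ((D * (X / D + 1) : ℕ) : ℝ) := by exact_mod_cast h.le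
    push_cast at h2 ⊢
    linarith

theorem Fh_ge (A L lam N S2 C3 : ℕ) (hlam : 1 ≤ lam) :
    A * FF L lam N S2 C3 - L ≤ (Fh A L lam N S2 C3 : ℝ) := by
  rw [Fh_eq, FF_nat _ _ _ _ _ hlam, mul_sum]
  have e : (L : ℝ) = ∑ _j ∈ range L, (1 : ℝ) := by simp
  rw [e, ← sum_sub_distrib]
  push_cast
  refine sum_le_sum fun j _ => ?_
  have h2 := div_le_floor_add (A * (lam * (N * N)))
    ((2 ^ j + lam) * lam * N + lam * S2 + L * C3)
  push_cast at h2
  rw [mul_div_assoc] at h2
  linarith

end Run7.h435
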