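import Pool.Agent.H382P.Mert
import Pool.Agent.Y743.CL.Mc

/-! # Sums over primes in power ranges -/

set_option autoImplicit false

namespace Run7.h435.MD

open Filter Topology MeasureTheory Set
open Pool.Agent.Y743.CL (Pr mem_Pr)

noncomputable section

/-- the weighted sum over the primes up to `T` -/
def ms (H : ℝ → ℝ) (T : ℝ) : ℝ :=
  ∑ p ∈ Pr ⌊T⌋₊, Real.log p / (p * Real.log T) * H (Real.log p / Real.log T)

lemma ms_lip (H : ℝ → ℝ) (K : NNReal) (hH : LipschitzWith K H) (h1 : ∀ u : ℝ, 1 ≤ u → H u = 0) :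
    Tendsto (ms H) atTop (𝓝 (∫ u in (0 : ℝ)..1, H u)) := by
  have hL : LipschitzWith K (fun u => (H u : ℂ)) := by
    refine LipschitzWith.of_dist_le_mul fun x y => ?_
    rw [dist_eq_norm, ← Complex.ofReal_sub, Complex.norm_real, ← dist_eq_norm]
    exact hH.dist_le_mul x y
  obtain ⟨C, hC, h⟩ := SP.mert (fun u => (H u : ℂ)) K hL (fun u hu => by rw [h1 u hu]; simp)
  rw [Metric.tendsto_atTop]
  intro ε hε
  have h2 : Tendsto (fun T : ℝ => C / Real.log T) atTop (𝓝 0) :=
    Real.tendsto_log_atTop.const_div_atTop C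
  obtain ⟨T0, hT0⟩ := ((h2.eventually_lt_const hε).and (eventually_ge_atTop (10 : ℝ))).exists_forall_of_atTop
  refine ⟨T0, fun T hT => ?_⟩
  obtain ⟨h3, h4⟩ := hT0 T hT
  refine lt_of_le_of_lt ?_ h3
  have h5 := h T h4
  have e : ((1 / Real.log T : ℝ) : ℂ) * ∑ p ∈ (Finset.Icc 1 ⌊T⌋₊).filter Nat.Prime,
      ((Real.log p / p : ℝ) : ℂ) * ((H (Real.log p / Real.log T) : ℝ) : ℂ) - ∫ u in (0 : ℝ)..1, ((H u : ℝ) : ℂ) =
      ((ms H T - ∫ u in (0 : ℝ)..1, H u : ℝ) : ℂ) := by
    rw [intervalIntegral.integral_ofReal]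
    unfold ms
    push_cast
    rw [Finset.mul_sum]
    congr 1
    refine Finset.sum_congr rfl fun p _ => ?_
    field_simp
  rw [e, Complex.norm_real] at h5
  rw [Real.dist_eq]
  exact h5

/-- a tent -/
def tent (c κ v : ℝ) : ℝ := max 0 (1 - |v - c| / κ)

/-- a ramp -/
def ramp (c κ v : ℝ) : ℝ := max 0 (min 1 ((v - c) / κ))

lemma tent_lip (c : ℝ) {κ : ℝ} (hκ : 0 < κ) : LipschitzWith (Real.toNNReal (1 / κ)) (tent c κ) := by
  refine LipschitzWith.of_dist_le_mul fun x y => ?_
  rw [Real.coe_toNNReal _ (by positivity), Real.dist_eq, Real.dist_eq]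
  unfold tent
  refine (abs_max_sub_max_le_max _ _ _ _).trans ?_
  rw [sub_self, abs_zero, max_le_iff]
  refine ⟨by positivity, ?_⟩
  have h : 1 - |x - c| / κ - (1 - |y - c| / κ) = (|y - c| - |x - c|) / κ := by ring
  rw [h, abs_div, abs_of_pos hκ, div_eq_inv_mul, one_div]
  refine mul_le_mul_of_nonneg_left ?_ (by positivity)
  refine (abs_abs_sub_abs_le _ _).trans ?_
  rw [abs_sub_comm]
  apply le_of_eq
  congr 1
  ring

lemma ramp_lip (c : ℝ) {κ : ℝ} (hκ : 0 < κ) : LipschitzWith (Real.toNNReal (1 / κ)) (ramp c κ) := by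
  refine LipschitzWith.of_dist_le_mul fun x y => ?_
  rw [Real.coe_toNNReal _ (by positivity), Real.dist_eq, Real.dist_eq]
  unfold ramp
  refine (abs_max_sub_max_le_max _ _ _ _).trans ?_
  rw [sub_self, abs_zero, max_le_iff]
  refine ⟨by positivity, ?_⟩
  refine (abs_min_sub_min_le_max _ _ _ _).trans ?_
  rw [sub_self, abs_zero, max_le_iff]
  refine ⟨by positivity, ?_⟩
  have h : (x - c) / κ - (y - c) / κ = (x - y) / κ := by ring
  rw [h, abs_div, abs_of_pos hκ, div_eq_inv_mul, one_div]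

lemma tent_nonneg (c κ v : ℝ) : 0 ≤ tent c κ v := le_max_left _ _

lemma ramp_bd (c κ v : ℝ) : 0 ≤ ramp c κ v ∧ ramp c κ v ≤ 1 :=
  ⟨le_max_left _ _, max_le zero_le_one (min_le_left _ _)⟩

/-- the ramp is close to the indicator of `v > c` -/
lemma ramp_ind (c : ℝ) {κ : ℝ} (hκ : 0 < κ) (v : ℝ) :
    |(if c < v then (1 : ℝ) else 0) - ramp c κ v| ≤ tent c κ v := by
  unfold ramp tent
  split_ifs with h
  · by_cases h1 : v - c ≤ κ
    · have h2 : (v - c) / κ ≤ 1 := (div_le_one hκ).2 h1
      have h3 : 0 < (v - c) / κ := div_pos (by linarith) hκ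
      rw [min_eq_right h2, max_eq_right h3.le, abs_of_nonneg (by linarith), abs_of_pos (by linarith : 0 < v - c)]
      exact le_max_right _ _
    · push Not at h1
      have h2 : 1 ≤ (v - c) / κ := by rw [le_div_iff₀ hκ]; linarith
      rw [min_eq_left h2, max_eq_right zero_le_one, sub_self, abs_zero]
      exact le_max_left _ _
  · push Not at h
    have h2 : (v - c) / κ ≤ 0 := div_nonpos_of_nonpos_of_nonneg (by linarith) hκ.le
    rw [min_eq_right (by linarith), max_eq_left h2, sub_self, abs_zero]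
    exact le_max_left _ _

lemma tent_int (c : ℝ) {κ : ℝ} (hκ : 0 < κ) (x y : ℝ) (hxy : x ≤ y) :
    ∫ v in x..y, tent c κ v ≤ 2 * κ := by
  have hc : Continuous (tent c κ) := (tent_lip c hκ).continuous
  have h0 : ∀ v, v ∉ Icc (c - κ) (c + κ) → tent c κ v = 0 := by
    intro v hv
    unfold tent
    apply max_eq_left
    rw [sub_nonpos, le_div_iff₀ hκ, one_mul]
    by_contra hcon
    push Not at hcon
    rw [abs_lt] at hcon
    exact hv ⟨by linarith [hcon.1], by linarith [hcon.2]⟩
  have h1 : ∀ v, tent c κ v ≤ (Icc (c - κ) (c + κ)).indicator (fun _ => (1 : ℝ)) v := by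
    intro v
    by_cases hv : v ∈ Icc (c - κ) (c + κ)
    · rw [indicator_of_mem hv]
      unfold tent
      apply max_le zero_le_one
      have : 0 ≤ |v - c| / κ := by positivity
      linarith
    · rw [indicator_of_notMem hv, h0 v hv]
  have h2 : Integrable ((Icc (c - κ) (c + κ)).indicator (fun _ => (1 : ℝ))) := by
    rw [integrable_indicator_iff measurableSet_Icc]
    exact integrableOn_const (by rw [Real.volume_Icc]; exact ENNReal.ofReal_ne_top)
  have h3 : Integrable (tent c κ) := h2.mono' hc.aestronglyMeasurable (Eventually.of_forall fun v => by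
    rw [Real.norm_of_nonneg (tent_nonneg c κ v)]
    exact h1 v)
  calc ∫ v in x..y, tent c κ v ≤ ∫ v, tent c κ v := by
        rw [intervalIntegral.integral_of_le hxy]
        exact setIntegral_le_integral h3 (Eventually.of_forall (tent_nonneg c κ))
    _ ≤ ∫ v, (Icc (c - κ) (c + κ)).indicator (fun _ => (1 : ℝ)) v :=
        integral_mono h3 h2 h1
    _ = 2 * κ := by
        rw [integral_indicator measurableSet_Icc, setIntegral_const, smul_eq_mul, mul_one]
        rw [measureReal_def, Real.volume_Icc, ENNReal.toReal_ofReal (by linarith)]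
        ring

lemma ms_mono {H H' : ℝ → ℝ} (h : ∀ u, H u ≤ H' u) {T : ℝ} (hT : 1 ≤ T) : ms H T ≤ ms H' T := by
  unfold ms
  refine Finset.sum_le_sum fun p hp => mul_le_mul_of_nonneg_left (h _) ?_
  have h1 := (mem_Pr.1 hp).1.one_le
  have h2 : 0 ≤ Real.log p := Real.log_nonneg (by exact_mod_cast h1)
  have h3 : 0 ≤ Real.log T := Real.log_nonneg hT
  positivity

lemma ms_sub (H H' : ℝ → ℝ) (T : ℝ) : ms (fun u => H u - H' u) T = ms H T - ms H' T := by
  unfold ms
  rw [← Finset.sum_sub_distrib]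
  exact Finset.sum_congr rfl fun p _ => by ring

lemma ms_abs (H : ℝ → ℝ) {T : ℝ} (hT : 1 ≤ T) : |ms H T| ≤ ms (fun u => |H u|) T := by
  unfold ms
  refine (Finset.abs_sum_le_sum_abs _ _).trans (Finset.sum_le_sum fun p hp => ?_)
  have h1 := (mem_Pr.1 hp).1.one_le
  have h2 : 0 ≤ Real.log p := Real.log_nonneg (by exact_mod_cast h1)
  have h3 : 0 ≤ Real.log T := Real.log_nonneg hT
  rw [abs_mul, abs_of_nonneg (by positivity : 0 ≤ Real.log p / (p * Real.log T))]

/-- the sum over the primes in a power range -/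
theorem ms_range (ψ : ℝ → ℝ) (K : NNReal) (hψ : LipschitzWith K ψ) (M : ℝ) (hM : ∀ u, |ψ u| ≤ M)
    {a b : ℝ} (ha : 0 ≤ a) (hab : a ≤ b) (hb : b < 1) :
    Tendsto (ms (fun u => if a < u ∧ u ≤ b then ψ u else 0)) atTop (𝓝 (∫ u in a..b, ψ u)) := by
  have hM0 : 0 ≤ M := (abs_nonneg _).trans (hM 0)
  rw [Metric.tendsto_atTop]
  intro ε hε
  obtain ⟨κ, hκd⟩ : ∃ κ : ℝ, κ = min ((1 - b) / 2) (ε / (16 * (M + 1))) := ⟨_, rfl⟩
  have hκ : 0 < κ := by rw [hκd]; exact lt_min (by linarith) (by positivity)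
  have hκ1 : κ ≤ (1 - b) / 2 := by rw [hκd]; exact min_le_left _ _
  have hκ2 : κ ≤ ε / (16 * (M + 1)) := by rw [hκd]; exact min_le_right _ _
  have hκM : M * κ ≤ ε / 16 := by
    have h1 : (M + 1) * κ ≤ ε / 16 := by
      rw [le_div_iff₀ (by positivity)] at hκ2
      linarith
    nlinarith
  have hψc := hψ.continuous
  -- the continuous majorants
  obtain ⟨H, hH⟩ : ∃ H : ℝ → ℝ, H = fun u => (ramp a κ u - ramp b κ u) * ψ u := ⟨_, rfl⟩
  obtain ⟨E, hE⟩ : ∃ E : ℝ → ℝ, E = fun u => tent a κ u + tent b κ u := ⟨_, rfl⟩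
  have hr0 : ∀ u, |ramp a κ u - ramp b κ u| ≤ 1 := by
    intro u
    have h1 := ramp_bd a κ u
    have h2 := ramp_bd b κ u
    rw [abs_le]
    constructor <;> linarith [h1.1, h1.2, h2.1, h2.2]
  have hHl : ∃ K' : NNReal, LipschitzWith K' H := by
    refine ⟨Real.toNNReal (2 / κ * M + K), LipschitzWith.of_dist_le_mul fun x y => ?_⟩
    have hK0 : (0 : ℝ) ≤ K := K.2
    rw [Real.coe_toNNReal _ (by positivity), Real.dist_eq, Real.dist_eq, hH]
    have e : (ramp a κ x - ramp b κ x) * ψ x - (ramp a κ y - ramp b κ y) * ψ y =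
        ((ramp a κ x - ramp a κ y) - (ramp b κ x - ramp b κ y)) * ψ x +
        (ramp a κ y - ramp b κ y) * (ψ x - ψ y) := by ring
    simp only
    rw [e]
    have h1 := (ramp_lip a hκ).dist_le_mul x y
    have h2 := (ramp_lip b hκ).dist_le_mul x y
    have h3 := hψ.dist_le_mul x y
    rw [Real.coe_toNNReal _ (by positivity), Real.dist_eq, Real.dist_eq] at h1 h2
    rw [Real.dist_eq, Real.dist_eq] at h3
    have h4 : |(ramp a κ x - ramp a κ y) - (ramp b κ x - ramp b κ y)| ≤ 2 / κ * |x - y| := by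
      refine (abs_sub _ _).trans ?_
      calc _ ≤ 1 / κ * |x - y| + 1 / κ * |x - y| := add_le_add h1 h2
        _ = _ := by ring
    refine (abs_add_le _ _).trans ?_
    rw [abs_mul, abs_mul]
    have h5 : |(ramp a κ x - ramp a κ y) - (ramp b κ x - ramp b κ y)| * |ψ x| ≤ 2 / κ * |x - y| * M :=
      mul_le_mul h4 (hM x) (abs_nonneg _) (by positivity)
    have h6 : |ramp a κ y - ramp b κ y| * |ψ x - ψ y| ≤ 1 * (K * |x - y|) :=
      mul_le_mul (hr0 y) h3 (abs_nonneg _) zero_le_one
    calc _ ≤ 2 / κ * |x - y| * M + 1 * (K * |x - y|) := add_le_add h5 h6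
      _ = _ := by ring
  obtain ⟨K', hK'⟩ := hHl
  have hrb : ∀ c : ℝ, c + κ ≤ 1 → ∀ u : ℝ, 1 ≤ u → ramp c κ u = 1 := by
    intro c hc u hu
    unfold ramp
    have h2 : 1 ≤ (u - c) / κ := by rw [le_div_iff₀ hκ]; linarith
    rw [min_eq_left h2, max_eq_right zero_le_one]
  have htb : ∀ c : ℝ, c + κ ≤ 1 → ∀ u : ℝ, 1 ≤ u → tent c κ u = 0 := by
    intro c hc u hu
    unfold tent
    apply max_eq_left
    rw [sub_nonpos, le_div_iff₀ hκ, one_mul]
    exact le_trans (by linarith) (le_abs_self _)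
  have hH1 : ∀ u : ℝ, 1 ≤ u → H u = 0 := by
    intro u hu
    rw [hH]
    simp only
    rw [hrb a (by linarith) u hu, hrb b (by linarith) u hu, sub_self, zero_mul]
  have hE1 : ∀ u : ℝ, 1 ≤ u → E u = 0 := by
    intro u hu
    rw [hE]
    simp only
    rw [htb a (by linarith) u hu, htb b (by linarith) u hu, add_zero]
  have hEl : LipschitzWith (Real.toNNReal (1 / κ) + Real.toNNReal (1 / κ)) E := by
    rw [hE]
    exact (tent_lip a hκ).add (tent_lip b hκ)
  have hEc : Continuous E := hEl.continuous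
  have hHc : Continuous H := hK'.continuous
  -- the comparison
  have hcmp : ∀ u, |(if a < u ∧ u ≤ b then ψ u else 0) - H u| ≤ M * E u := by
    intro u
    have h1 := ramp_ind a hκ u
    have h2 := ramp_ind b hκ u
    have e : (if a < u ∧ u ≤ b then ψ u else 0) =
        ((if a < u then (1 : ℝ) else 0) - (if b < u then (1 : ℝ) else 0)) * ψ u := by
      by_cases h3 : a < u
      · by_cases h4 : u ≤ b
        · rw [if_pos ⟨h3, h4⟩, if_pos h3, if_neg (not_lt.2 h4)]; ring
        · rw [if_neg (fun h => h4 h.2), if_pos h3, if_pos (not_le.1 h4)]; ring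
      · rw [if_neg (fun h => h3 h.1), if_neg h3, if_neg (fun h => h3 (lt_of_le_of_lt hab h))]; ring
    rw [e, hH, hE]
    simp only
    have e2 : ((if a < u then (1 : ℝ) else 0) - (if b < u then (1 : ℝ) else 0)) * ψ u -
        (ramp a κ u - ramp b κ u) * ψ u = (((if a < u then (1 : ℝ) else 0) - ramp a κ u) -
        ((if b < u then (1 : ℝ) else 0) - ramp b κ u)) * ψ u := by ring
    rw [e2, abs_mul, mul_comm]
    refine mul_le_mul (hM u) ((abs_sub _ _).trans (add_le_add h1 h2)) (abs_nonneg _) hM0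
  have hI1 : |(∫ u in a..b, ψ u) - ∫ u in (0 : ℝ)..1, H u| ≤ M * (4 * κ) := by
    have e1 : ∫ u in a..b, ψ u = ∫ u in (0 : ℝ)..1, (if a < u ∧ u ≤ b then ψ u else 0) := by
      rw [intervalIntegral.integral_of_le hab, intervalIntegral.integral_of_le zero_le_one]
      have e2 : (fun u => if a < u ∧ u ≤ b then ψ u else 0) = (Ioc a b).indicator ψ := by
        funext u
        rw [indicator_apply]
        rfl
      rw [e2, setIntegral_indicator measurableSet_Ioc]
      congr 2
      ext u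
      simp only [mem_inter_iff, mem_Ioc]
      constructor
      · rintro ⟨h1, h2⟩
        exact ⟨⟨lt_of_le_of_lt ha h1, by linarith⟩, h1, h2⟩
      · rintro ⟨_, h⟩
        exact h
    have hii : IntervalIntegrable (fun u => if a < u ∧ u ≤ b then ψ u else 0) volume 0 1 := by
      refine (intervalIntegrable_const (c := M)).mono_fun ?_ (Eventually.of_forall fun u => ?_)
      · refine Measurable.aestronglyMeasurable ?_
        exact Measurable.ite (measurableSet_Ioc (a := a) (b := b)) hψc.measurable measurable_const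
      · show |_| ≤ |M|
        split_ifs
        · exact (hM u).trans (le_abs_self _)
        · rw [abs_zero]; positivity
    rw [e1, ← intervalIntegral.integral_sub hii (hHc.intervalIntegrable _ _)]
    refine (intervalIntegral.abs_integral_le_integral_abs zero_le_one).trans ?_
    have h1 : ∫ u in (0 : ℝ)..1, |(if a < u ∧ u ≤ b then ψ u else 0) - H u| ≤ ∫ u in (0 : ℝ)..1, M * E u :=
      intervalIntegral.integral_mono_on zero_le_one (hii.sub (hHc.intervalIntegrable _ _)).abs
        ((hEc.const_mul M).intervalIntegrable _ _) fun u _ => hcmp u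
    refine h1.trans ?_
    rw [intervalIntegral.integral_const_mul]
    refine mul_le_mul_of_nonneg_left ?_ hM0
    rw [hE]
    rw [intervalIntegral.integral_add ((tent_lip a hκ).continuous.intervalIntegrable _ _)
      ((tent_lip b hκ).continuous.intervalIntegrable _ _)]
    have h2 := tent_int a hκ 0 1 zero_le_one
    have h3 := tent_int b hκ 0 1 zero_le_one
    linarith
  have hIE : ∫ u in (0 : ℝ)..1, E u ≤ 4 * κ := by
    rw [hE]
    rw [intervalIntegral.integral_add ((tent_lip a hκ).continuous.intervalIntegrable _ _)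
      ((tent_lip b hκ).continuous.intervalIntegrable _ _)]
    have h2 := tent_int a hκ 0 1 zero_le_one
    have h3 := tent_int b hκ 0 1 zero_le_one
    linarith
  have hl1 := ms_lip H K' hK' hH1
  have hl2 := ms_lip E _ hEl hE1
  obtain ⟨T1, hT1⟩ := (Metric.tendsto_atTop.1 hl1) (ε / 8) (by positivity)
  obtain ⟨T2, hT2⟩ := (Metric.tendsto_atTop.1 hl2) κ hκ
  refine ⟨max (max T1 T2) 1, fun T hT => ?_⟩
  have h1 := hT1 T (((le_max_left _ _).trans (le_max_left _ _)).trans hT)
  have h2 := hT2 T (((le_max_right _ _).trans (le_max_left _ _)).trans hT)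
  have h3 : (1 : ℝ) ≤ T := (le_max_right _ _).trans hT
  rw [Real.dist_eq] at h1 h2 ⊢
  have h4 : |ms (fun u => if a < u ∧ u ≤ b then ψ u else 0) T - ms H T| ≤ M * ms E T := by
    rw [← ms_sub]
    refine (ms_abs _ h3).trans ?_
    refine (ms_mono hcmp h3).trans (le_of_eq ?_)
    unfold ms
    rw [Finset.mul_sum]
    exact Finset.sum_congr rfl fun p _ => by ring
  have h5 : ms E T ≤ 5 * κ := by
    have := (abs_lt.1 h2).2
    linarith
  have h6 : M * ms E T ≤ M * (5 * κ) := mul_le_mul_of_nonneg_left h5 hM0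
  have h7 : ms (fun u => if a < u ∧ u ≤ b then ψ u else 0) T - ∫ u in a..b, ψ u =
      (ms (fun u => if a < u ∧ u ≤ b then ψ u else 0) T - ms H T) + (ms H T - ∫ u in (0 : ℝ)..1, H u) -
      ((∫ u in a..b, ψ u) - ∫ u in (0 : ℝ)..1, H u) := by ring
  rw [h7]
  refine lt_of_le_of_lt ((abs_sub _ _).trans (add_le_add_left (abs_add_le _ _) _)) ?_
  nlinarith

end

end Run7.h435.MD
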