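import Pool.Agent.Run7.h435.MDa

/-! # Sums over primes in power ranges, continued: the covariances -/

set_option autoImplicit false

namespace Run7.h435.MD

open Filter Topology MeasureTheory Set
open Pool.Agent.Y743.CL (Pr mem_Pr)

noncomputable section

/-- the sum over the primes `p` with `a < log p / log T ≤ b` -/
def sm (φ : ℝ → ℝ) (a b T : ℝ) : ℝ :=
  ∑ p ∈ (Pr ⌊T⌋₊).filter (fun p : ℕ => a < Real.log p / Real.log T ∧ Real.log p / Real.log T ≤ b),
    φ (Real.log p / Real.log T) / p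

/-- the covariance -/
def cc (a b d : ℝ) : ℝ := ∫ v in a..b, Real.cos (2 * Real.pi * d * v) / v

lemma inv_lip {a : ℝ} (ha : 0 < a) (x y : ℝ) : |1 / max x a - 1 / max y a| ≤ 1 / a ^ 2 * |x - y| := by
  have h1 : a ≤ max x a := le_max_right _ _
  have h2 : a ≤ max y a := le_max_right _ _
  have h1' : 0 < max x a := ha.trans_le h1
  have h2' : 0 < max y a := ha.trans_le h2
  have e : 1 / max x a - 1 / max y a = (max y a - max x a) / (max x a * max y a) := by
    field_simp
  rw [e, abs_div, abs_of_pos (mul_pos h1' h2'), div_eq_inv_mul, ← one_div]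
  have h3 : |max y a - max x a| ≤ |x - y| := by
    refine (abs_max_sub_max_le_max _ _ _ _).trans ?_
    rw [sub_self, abs_zero, max_eq_left (abs_nonneg _), abs_sub_comm]
  refine mul_le_mul ?_ h3 (abs_nonneg _) (by positivity)
  apply one_div_le_one_div_of_le (by positivity)
  nlinarith

lemma cos_lip (c x y : ℝ) : |Real.cos (c * x) - Real.cos (c * y)| ≤ |c| * |x - y| := by
  have h := Real.abs_cos_sub_cos_le (c * x) (c * y)
  have e : c * x - c * y = c * (x - y) := by ring
  rw [e, abs_mul] at h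
  exact h

theorem sm_cos {a b : ℝ} (ha : 0 < a) (hab : a ≤ b) (hb : b < 1) (d : ℝ) :
    Tendsto (sm (fun v => Real.cos (2 * Real.pi * d * v)) a b) atTop (𝓝 (cc a b d)) := by
  obtain ⟨ψ, hψ⟩ : ∃ ψ : ℝ → ℝ, ψ = fun v => Real.cos (2 * Real.pi * d * v) * (1 / max v a) := ⟨_, rfl⟩
  have hb0 : ∀ v : ℝ, |1 / max v a| ≤ 1 / a := by
    intro v
    have h1 : a ≤ max v a := le_max_right _ _
    rw [abs_of_pos (by positivity)]
    exact one_div_le_one_div_of_le ha h1
  have hl : LipschitzWith (Real.toNNReal (|2 * Real.pi * d| * (1 / a) + 1 / a ^ 2)) ψ := by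
    refine LipschitzWith.of_dist_le_mul fun x y => ?_
    rw [Real.coe_toNNReal _ (by positivity), Real.dist_eq, Real.dist_eq, hψ]
    simp only
    have e : Real.cos (2 * Real.pi * d * x) * (1 / max x a) - Real.cos (2 * Real.pi * d * y) * (1 / max y a) =
        (Real.cos (2 * Real.pi * d * x) - Real.cos (2 * Real.pi * d * y)) * (1 / max x a) +
        Real.cos (2 * Real.pi * d * y) * (1 / max x a - 1 / max y a) := by ring
    rw [e]
    refine (abs_add_le _ _).trans ?_
    rw [abs_mul, abs_mul]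
    have h1 := mul_le_mul (cos_lip (2 * Real.pi * d) x y) (hb0 x) (abs_nonneg _) (by positivity)
    have h2 := mul_le_mul (Real.abs_cos_le_one (2 * Real.pi * d * y)) (inv_lip ha x y) (abs_nonneg _) zero_le_one
    calc _ ≤ _ := add_le_add h1 h2
      _ = _ := by ring
  have hM : ∀ u, |ψ u| ≤ 1 / a := by
    intro u
    rw [hψ]
    simp only
    rw [abs_mul]
    calc _ ≤ 1 * (1 / a) := mul_le_mul (Real.abs_cos_le_one _) (hb0 u) (abs_nonneg _) zero_le_one
      _ = _ := one_mul _
  have h := ms_range ψ _ hl (1 / a) hM ha.le hab hb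
  have e1 : ∫ u in a..b, ψ u = cc a b d := by
    unfold cc
    refine intervalIntegral.integral_congr fun v hv => ?_
    rw [uIcc_of_le hab] at hv
    rw [hψ]
    simp only
    rw [max_eq_left hv.1]
    ring
  rw [e1] at h
  refine h.congr' ?_
  filter_upwards [eventually_gt_atTop 1] with T hT
  have hL : 0 < Real.log T := Real.log_pos hT
  unfold ms sm
  conv_rhs => rw [Finset.sum_filter]
  refine Finset.sum_congr rfl fun p hp => ?_
  beta_reduce
  split_ifs with h1
  · have hp0 : (0 : ℝ) < p := by exact_mod_cast (mem_Pr.1 hp).1.pos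
    rw [hψ]
    simp only
    rw [max_eq_left h1.1.le]
    have hlp : 0 < Real.log p := by
      have := ha.trans h1.1
      exact (div_pos_iff_of_pos_right hL).1 this
    field_simp
  · rw [mul_zero]

lemma cc_zero {a b : ℝ} (ha : 0 < a) (hab : a ≤ b) : cc a b 0 = Real.log (b / a) := by
  unfold cc
  have e : ∀ v : ℝ, Real.cos (2 * Real.pi * 0 * v) / v = v⁻¹ := fun v => by
    rw [mul_zero, zero_mul, Real.cos_zero, one_div]
  simp_rw [e]
  exact integral_inv_of_pos ha (by linarith)

lemma cc_int {a b : ℝ} (ha : 0 < a) (hab : a ≤ b) (f : ℝ → ℝ) (hf : Continuous f) :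
    IntervalIntegrable (fun v => f v / v) volume a b := by
  refine ContinuousOn.intervalIntegrable ?_
  rw [uIcc_of_le hab]
  exact hf.continuousOn.div continuousOn_id fun v hv => (ha.trans_le hv.1).ne'

lemma cc_le {a b : ℝ} (ha : 0 < a) (hab : a ≤ b) (d : ℝ) : |cc a b d| ≤ Real.log (b / a) := by
  rw [← cc_zero ha hab]
  unfold cc
  refine (intervalIntegral.abs_integral_le_integral_abs hab).trans ?_
  refine intervalIntegral.integral_mono_on hab (cc_int ha hab _ (by fun_prop)).abs
    (cc_int ha hab _ (by fun_prop)) fun v hv => ?_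
  have hv0 : 0 < v := ha.trans_le hv.1
  rw [abs_div, abs_of_pos hv0, mul_zero, zero_mul, Real.cos_zero]
  exact div_le_div_of_nonneg_right (Real.abs_cos_le_one _) hv0.le

lemma cc_decay {a b : ℝ} (ha : 0 < a) (hab : a ≤ b) {d : ℝ} (hd : d ≠ 0) :
    |cc a b d| ≤ 1 / (Real.pi * |d| * a) := by
  have hpi := Real.pi_pos
  have hb : 0 < b := ha.trans_le hab
  have hc0 : 2 * Real.pi * d ≠ 0 := by positivity
  obtain ⟨c, hc⟩ : ∃ c : ℝ, c = 2 * Real.pi * d := ⟨_, rfl⟩
  have hcn : c ≠ 0 := by rw [hc]; exact hc0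
  have h1 : ∫ v in a..b, v⁻¹ * Real.cos (c * v) =
      b⁻¹ * (Real.sin (c * b) / c) - a⁻¹ * (Real.sin (c * a) / c) -
        ∫ v in a..b, (-(v ^ 2)⁻¹) * (Real.sin (c * v) / c) := by
    refine intervalIntegral.integral_mul_deriv_eq_deriv_mul (u := fun v => v⁻¹) (v := fun v => Real.sin (c * v) / c)
      (u' := fun v => -(v ^ 2)⁻¹) (v' := fun v => Real.cos (c * v)) ?_ ?_ ?_ ?_
    · intro v hv
      rw [uIcc_of_le hab] at hv
      exact hasDerivAt_inv (ha.trans_le hv.1).ne'
    · intro v hv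
      have h2 : HasDerivAt (fun v => Real.sin (c * v)) (Real.cos (c * v) * (c * 1)) v :=
        ((hasDerivAt_id v).const_mul c).sin
      have h3 := h2.div_const c
      refine h3.congr_deriv ?_
      field_simp
    · refine ContinuousOn.intervalIntegrable ?_
      rw [uIcc_of_le hab]
      exact ((continuousOn_id.pow 2).inv₀ fun v hv => pow_ne_zero 2 (ha.trans_le hv.1).ne').neg
    · exact Continuous.intervalIntegrable (by fun_prop) _ _
  have e0 : cc a b d = ∫ v in a..b, v⁻¹ * Real.cos (c * v) := by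
    unfold cc
    rw [hc]
    exact intervalIntegral.integral_congr fun v _ => div_eq_inv_mul _ _
  rw [e0, h1]
  have hac : 0 < |c| := abs_pos.2 hcn
  have hs : ∀ x : ℝ, |Real.sin x / c| ≤ 1 / |c| := fun x => by
    rw [abs_div]
    exact div_le_div_of_nonneg_right (Real.abs_sin_le_one x) hac.le
  have h2 : |b⁻¹ * (Real.sin (c * b) / c)| ≤ b⁻¹ * (1 / |c|) := by
    rw [abs_mul, abs_of_pos (inv_pos.2 hb)]
    exact mul_le_mul_of_nonneg_left (hs _) (inv_pos.2 hb).le
  have h3 : |a⁻¹ * (Real.sin (c * a) / c)| ≤ a⁻¹ * (1 / |c|) := by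
    rw [abs_mul, abs_of_pos (inv_pos.2 ha)]
    exact mul_le_mul_of_nonneg_left (hs _) (inv_pos.2 ha).le
  have h4 : |∫ v in a..b, (-(v ^ 2)⁻¹) * (Real.sin (c * v) / c)| ≤ (a⁻¹ - b⁻¹) * (1 / |c|) := by
    have hci : ContinuousOn (fun v : ℝ => (v ^ 2)⁻¹) (Icc a b) :=
      (continuousOn_id.pow 2).inv₀ fun v hv => pow_ne_zero 2 (ha.trans_le hv.1).ne'
    refine (intervalIntegral.abs_integral_le_integral_abs hab).trans ?_
    have h5 : ∫ v in a..b, |(-(v ^ 2)⁻¹) * (Real.sin (c * v) / c)| ≤ ∫ v in a..b, (v ^ 2)⁻¹ * (1 / |c|) := by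
      refine intervalIntegral.integral_mono_on hab ?_ ?_ fun v hv => ?_
      · refine (ContinuousOn.intervalIntegrable ?_).abs
        rw [uIcc_of_le hab]
        exact hci.neg.mul (by fun_prop)
      · refine ContinuousOn.intervalIntegrable ?_
        rw [uIcc_of_le hab]
        exact hci.mul continuousOn_const
      · have hv0 : 0 < v := ha.trans_le hv.1
        rw [abs_mul, abs_neg, abs_of_pos (by positivity : 0 < (v ^ 2)⁻¹)]
        exact mul_le_mul_of_nonneg_left (hs _) (by positivity)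
    refine h5.trans ?_
    rw [intervalIntegral.integral_mul_const]
    refine mul_le_mul_of_nonneg_right (le_of_eq ?_) (by positivity)
    have h6 : ∀ v ∈ uIcc a b, HasDerivAt (fun v : ℝ => -v⁻¹) ((v ^ 2)⁻¹) v := by
      intro v hv
      rw [uIcc_of_le hab] at hv
      have := (hasDerivAt_inv (ha.trans_le hv.1).ne').neg
      rwa [neg_neg] at this
    rw [intervalIntegral.integral_eq_sub_of_hasDerivAt h6]
    · ring
    · refine ContinuousOn.intervalIntegrable ?_
      rw [uIcc_of_le hab]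
      exact hci
  have h5 : |b⁻¹ * (Real.sin (c * b) / c) - a⁻¹ * (Real.sin (c * a) / c) -
      ∫ v in a..b, (-(v ^ 2)⁻¹) * (Real.sin (c * v) / c)| ≤
      b⁻¹ * (1 / |c|) + a⁻¹ * (1 / |c|) + (a⁻¹ - b⁻¹) * (1 / |c|) :=
    (abs_sub _ _).trans (add_le_add ((abs_sub _ _).trans (add_le_add h2 h3)) h4)
  refine h5.trans (le_of_eq ?_)
  have e1 : |c| = 2 * Real.pi * |d| := by
    rw [hc, abs_mul, abs_mul, abs_of_pos hpi, abs_of_pos (by norm_num : (0 : ℝ) < 2)]
  have hd0 : 0 < |d| := abs_pos.2 hd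
  rw [e1]
  field_simp
  ring

end

end Run7.h435.MD
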