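import Pool.Agent.X112.LF.Va

/-! # Moments and characteristic functions of prime polynomials, finite order -/

set_option autoImplicit false

namespace Run7.h435.MD

open Filter Topology MeasureTheory Set Complex
open Pool.Agent.Y743.CL (Pr mem_Pr pr pr_apply VS SS SS_le SS_zero SS_upper SS_lower SS_nonneg VS_nonneg)
open Pool.Agent.X112.LF (Gw wn wn_cm wn_norm wn_prime mom_bdw CM DZ zt)

noncomputable section

/-- prime polynomial with complex coefficients -/
def Gp (β : ℕ → ℂ) (X : ℕ) (t : ℝ) : ℂ := ∑ p ∈ Pr X, β p * (p : ℂ) ^ (-(t : ℂ) * I)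

/-- the variance -/
def VB (β : ℕ → ℂ) (X : ℕ) : ℝ := ∑ p ∈ Pr X, ‖β p‖ ^ 2

/-- the phase -/
def fz (β : ℕ → ℂ) (p : ℕ) : ℂ := if β p = 0 then 1 else β p / (‖β p‖ : ℂ)

lemma fz_norm (β : ℕ → ℂ) (p : ℕ) : ‖fz β p‖ = 1 := by
  unfold fz
  split_ifs with h0
  · simp
  · rw [norm_div, Complex.norm_real, norm_norm, div_self (norm_ne_zero_iff.2 h0)]

lemma fz_mul (β : ℕ → ℂ) (p : ℕ) : (‖β p‖ : ℂ) * fz β p = β p := by
  unfold fz
  split_ifs with h0
  · rw [h0]; simp
  · rw [mul_div_cancel₀]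
    exact_mod_cast norm_ne_zero_iff.2 h0

lemma VB_nonneg (β : ℕ → ℂ) (X : ℕ) : 0 ≤ VB β X := Finset.sum_nonneg fun _ _ => sq_nonneg _

lemma VB_VS (β : ℕ → ℂ) (X : ℕ) : VS (fun p => ‖β p‖) X = VB β X := rfl

lemma Gp_eq (β : ℕ → ℂ) (X : ℕ) (t : ℝ) : Gp β X t = Gw (fun p => ‖β p‖) (wn (fz β)) X t := by
  unfold Gp Gw DZ zt
  have e : Pr X = (Finset.Icc 1 X).filter Nat.Prime := rfl
  rw [e, Finset.sum_filter]
  refine Finset.sum_congr rfl fun n hn => ?_
  rw [pr_apply]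
  have hn' := (Finset.mem_Icc.1 hn).2
  by_cases hp : n.Prime
  · rw [if_pos hp, if_pos ⟨hp, hn'⟩, wn_prime _ hp, ← mul_assoc, fz_mul]
  · rw [if_neg hp, if_neg (fun h => hp h.1)]
    simp

lemma Gp_cont (β : ℕ → ℂ) (X : ℕ) : Continuous (Gp β X) := by
  unfold Gp
  refine continuous_finsetSum _ fun p hp => ?_
  have hp0 : (p : ℂ) ≠ 0 := by exact_mod_cast (mem_Pr.1 hp).1.ne_zero
  exact continuous_const.mul (Continuous.const_cpow (by fun_prop) (Or.inl hp0))

/-- the average over a dyadic interval -/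
def av (T : ℝ) (f : ℝ → ℂ) : ℂ := ((1 / T : ℝ) : ℂ) * ∫ t in T..(2 * T), f t

lemma err_tendsto (C : ℝ) : Tendsto (fun T : ℝ => 1 / T * (8 * (Real.sqrt T * (1 + Real.log T)) * C)) atTop (𝓝 0) := by
  have h1 : Tendsto (fun T : ℝ => (1 + Real.log T) / Real.sqrt T) atTop (𝓝 0) := by
    have h2 : (fun T : ℝ => Real.log T) =o[atTop] fun T : ℝ => T ^ (1 / 2 : ℝ) :=
      isLittleO_log_rpow_atTop (by norm_num)
    have h3 : (fun _ : ℝ => (1 : ℝ)) =o[atTop] fun T : ℝ => T ^ (1 / 2 : ℝ) :=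
      Asymptotics.isLittleO_const_left.2 (Or.inr (by
        have := tendsto_rpow_atTop (show (0 : ℝ) < 1 / 2 by norm_num)
        exact tendsto_norm_atTop_atTop.comp this))
    have h4 := (h3.add h2).tendsto_div_nhds_zero
    refine h4.congr fun T => ?_
    rw [Real.sqrt_eq_rpow]
  have h5 := h1.const_mul (8 * C)
  rw [mul_zero] at h5
  refine h5.congr' ?_
  filter_upwards [eventually_gt_atTop 0] with T hT
  have hs : Real.sqrt T * Real.sqrt T = T := Real.mul_self_sqrt hT.le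
  have hs0 : Real.sqrt T ≠ 0 := (Real.sqrt_pos.2 hT).ne'
  field_simp
  rw [pow_two, hs]

/-- one height -/
lemma av_bd (β : ℕ → ℂ) (X : ℕ) (hX : 1 ≤ X) (T : ℝ) (hT : 1 ≤ T) (k l : ℕ)
    (hXT : ((X ^ (k + l) : ℕ) : ℝ) ≤ Real.sqrt T) :
    ‖av T (fun t => Gp β X t ^ k * (starRingEnd ℂ) (Gp β X t) ^ l) -
      (if k = l then (SS (fun p => ‖β p‖) X k : ℂ) else 0)‖ ≤
      1 / T * (8 * (Real.sqrt T * (1 + Real.log T)) *
        (Real.sqrt (k.factorial * VB β X ^ k) * Real.sqrt (l.factorial * VB β X ^ l))) := by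
  have h := mom_bdw (fun p => ‖β p‖) (wn_cm (fz β)) (fun n _ => wn_norm (fz_norm β) n) X hX T T (2 * T) hT
    (by linarith) k l hXT
  rw [VB_VS] at h
  have hT0 : T ≠ 0 := by linarith
  have e : av T (fun t => Gp β X t ^ k * (starRingEnd ℂ) (Gp β X t) ^ l) -
      (if k = l then (SS (fun p => ‖β p‖) X k : ℂ) else 0) = ((1 / T : ℝ) : ℂ) *
      ((∫ t in T..(2 * T), Gw (fun p => ‖β p‖) (wn (fz β)) X t ^ k *
        (starRingEnd ℂ) (Gw (fun p => ‖β p‖) (wn (fz β)) X t) ^ l) -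
      ((2 * T - T : ℝ) : ℂ) * (if k = l then (SS (fun p => ‖β p‖) X k : ℂ) else 0)) := by
    unfold av
    simp only [Gp_eq]
    rw [mul_sub, ← mul_assoc]
    have e2 : ((1 / T : ℝ) : ℂ) * ((2 * T - T : ℝ) : ℂ) = 1 := by
      rw [← Complex.ofReal_mul]
      have : 1 / T * (2 * T - T) = 1 := by field_simp; ring
      rw [this, Complex.ofReal_one]
    rw [e2, one_mul]
  rw [e, norm_mul, Complex.norm_real, Real.norm_of_nonneg (by positivity)]
  exact mul_le_mul_of_nonneg_left h (by positivity)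

/-- convergence of the diagonal -/
lemma SS_lim (c : ℝ → ℕ → ℝ) (X : ℝ → ℕ) (M : ℝ → ℝ) (hM : Tendsto M atTop (𝓝 0))
    (hb : ∀ᶠ T in atTop, ∀ p, c T p ^ 2 ≤ M T) (V : ℝ)
    (hV : Tendsto (fun T => VS (c T) (X T)) atTop (𝓝 V)) (k : ℕ) :
    Tendsto (fun T => SS (c T) (X T) k) atTop (𝓝 (k.factorial * V ^ k)) := by
  induction k with
  | zero => simp [SS_zero]
  | succ k ih =>
    have h1 : Tendsto (fun T => ((k : ℝ) + 1) * (VS (c T) (X T) * SS (c T) (X T) k)) atTop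
        (𝓝 (((k : ℝ) + 1) * (V * (k.factorial * V ^ k)))) := (hV.mul ih).const_mul _
    have h2 : Tendsto (fun T => ((k : ℝ) + 1) * ((VS (c T) (X T) - k * M T) * SS (c T) (X T) k)) atTop
        (𝓝 (((k : ℝ) + 1) * ((V - k * 0) * (k.factorial * V ^ k)))) :=
      ((hV.sub (hM.const_mul _)).mul ih).const_mul _
    rw [mul_zero, sub_zero] at h2
    have e : (((k + 1).factorial : ℕ) : ℝ) * V ^ (k + 1) = ((k : ℝ) + 1) * (V * (k.factorial * V ^ k)) := by
      rw [Nat.factorial_succ]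
      push_cast
      ring
    rw [e]
    exact tendsto_of_tendsto_of_tendsto_of_le_of_le' h2 h1 (hb.mono fun T hT => SS_lower hT k)
      (Eventually.of_forall fun T => SS_upper _ _ k)

/-- **mixed moments** -/
theorem mom_lim (β : ℝ → ℕ → ℂ) (X : ℝ → ℕ) (M : ℝ → ℝ) (hM : Tendsto M atTop (𝓝 0))
    (hb : ∀ᶠ T in atTop, ∀ p, ‖β T p‖ ^ 2 ≤ M T) (V : ℝ) (hV : Tendsto (fun T => VB (β T) (X T)) atTop (𝓝 V))
    (hX1 : ∀ T, 1 ≤ X T) (k l : ℕ) (hX : ∀ᶠ T in atTop, ((X T ^ (k + l) : ℕ) : ℝ) ≤ Real.sqrt T) :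
    Tendsto (fun T => av T (fun t => Gp (β T) (X T) t ^ k * (starRingEnd ℂ) (Gp (β T) (X T) t) ^ l)) atTop
      (𝓝 (if k = l then ((k.factorial * V ^ k : ℝ) : ℂ) else 0)) := by
  obtain ⟨C, hC⟩ : ∃ C : ℝ, C = Real.sqrt (k.factorial * (V + 1) ^ k) * Real.sqrt (l.factorial * (V + 1) ^ l) :=
    ⟨_, rfl⟩
  have h1 : Tendsto (fun T => (if k = l then (SS (fun p => ‖β T p‖) (X T) k : ℂ) else 0)) atTop
      (𝓝 (if k = l then ((k.factorial * V ^ k : ℝ) : ℂ) else 0)) := by
    split_ifs with h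
    · exact (Complex.continuous_ofReal.tendsto _).comp (SS_lim (fun T p => ‖β T p‖) X M hM hb V hV k)
    · exact tendsto_const_nhds
  have h2 : Tendsto (fun T => av T (fun t => Gp (β T) (X T) t ^ k * (starRingEnd ℂ) (Gp (β T) (X T) t) ^ l) -
      (if k = l then (SS (fun p => ‖β T p‖) (X T) k : ℂ) else 0)) atTop (𝓝 0) := by
    refine squeeze_zero_norm' ?_ (err_tendsto C)
    filter_upwards [hX, eventually_ge_atTop (1 : ℝ), hV.eventually_lt_const (by linarith : V < V + 1)] with T h3 h4 h5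
    refine (av_bd (β T) (X T) (hX1 T) T h4 k l h3).trans ?_
    have hV0 := VB_nonneg (β T) (X T)
    have hlog : 0 ≤ Real.log T := Real.log_nonneg h4
    rw [hC]
    have hk : (0 : ℝ) ≤ (k.factorial : ℝ) := Nat.cast_nonneg _
    have hl : (0 : ℝ) ≤ (l.factorial : ℝ) := Nat.cast_nonneg _
    gcongr
  have h3 := h2.add h1
  rw [zero_add] at h3
  refine h3.congr fun T => ?_
  ring

/-- an upper bound for the even moments -/
theorem mom_up (β : ℝ → ℕ → ℂ) (X : ℝ → ℕ) (V : ℝ) (hV : ∀ᶠ T in atTop, VB (β T) (X T) ≤ V)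
    (hX1 : ∀ T, 1 ≤ X T) (k : ℕ) (hX : ∀ᶠ T in atTop, ((X T ^ (k + k) : ℕ) : ℝ) ≤ Real.sqrt T) (η : ℝ)
    (hη : 0 < η) : ∀ᶠ T : ℝ in atTop, ∫ t in T..(2 * T), ‖Gp (β T) (X T) t‖ ^ (2 * k) ≤
      (k.factorial * V ^ k + η) * T := by
  have h0 := err_tendsto (Real.sqrt (k.factorial * V ^ k) * Real.sqrt (k.factorial * V ^ k))
  filter_upwards [hX, eventually_ge_atTop (1 : ℝ), hV, h0.eventually_lt_const hη] with T h3 h4 h5 h6
  have h7 := av_bd (β T) (X T) (hX1 T) T h4 k k h3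
  rw [if_pos rfl] at h7
  have hV0 := VB_nonneg (β T) (X T)
  have hlog : 0 ≤ Real.log T := Real.log_nonneg h4
  have hk : (0 : ℝ) ≤ (k.factorial : ℝ) := Nat.cast_nonneg _
  have h8 : 1 / T * (8 * (Real.sqrt T * (1 + Real.log T)) *
        (Real.sqrt (k.factorial * VB (β T) (X T) ^ k) * Real.sqrt (k.factorial * VB (β T) (X T) ^ k))) ≤
      1 / T * (8 * (Real.sqrt T * (1 + Real.log T)) *
        (Real.sqrt (k.factorial * V ^ k) * Real.sqrt (k.factorial * V ^ k))) := by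
    gcongr
  have h9 := SS_le (fun p => ‖β T p‖) (X T) k
  rw [VB_VS] at h9
  have h10 : (k.factorial : ℝ) * VB (β T) (X T) ^ k ≤ k.factorial * V ^ k := by gcongr
  have e : av T (fun t => Gp (β T) (X T) t ^ k * (starRingEnd ℂ) (Gp (β T) (X T) t) ^ k) =
      ((1 / T * ∫ t in T..(2 * T), ‖Gp (β T) (X T) t‖ ^ (2 * k) : ℝ) : ℂ) := by
    unfold av
    rw [Complex.ofReal_mul, ← intervalIntegral.integral_ofReal]
    congr 1
    refine intervalIntegral.integral_congr fun t _ => ?_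
    rw [← mul_pow, Complex.mul_conj, Complex.normSq_eq_norm_sq, pow_mul]
    push_cast
    rfl
  rw [e, ← Complex.ofReal_sub, Complex.norm_real] at h7
  have h11 := (abs_le.1 (h7.trans h8)).2
  have h12 : 1 / T * ∫ t in T..(2 * T), ‖Gp (β T) (X T) t‖ ^ (2 * k) ≤ k.factorial * V ^ k + η := by
    linarith
  have hT0 : 0 < T := by linarith
  rw [one_div, inv_mul_le_iff₀ hT0] at h12
  linarith

/-- the Taylor polynomial of the exponential in a direction of the left half-plane -/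
lemma taylor_dir {u : ℂ} (hu : ‖u‖ = 1) (hre : u.re ≤ 0) (n : ℕ) : ∀ y : ℝ, 0 ≤ y →
    ‖cexp (u * (y : ℂ)) - ∑ j ∈ Finset.range n, (u * (y : ℂ)) ^ j / (j.factorial : ℂ)‖ ≤ y ^ n / n.factorial := by
  induction n with
  | zero =>
    intro y hy
    simp only [Finset.range_zero, Finset.sum_empty, sub_zero, pow_zero, Nat.factorial_zero, Nat.cast_one, div_one]
    rw [Complex.norm_exp, Real.exp_le_one_iff, Complex.re_mul_ofReal]
    exact mul_nonpos_of_nonpos_of_nonneg hre hy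
  | succ n ih =>
    intro y hy
    obtain ⟨R, hR⟩ : ∃ R : ℕ → ℝ → ℂ, R = fun (n : ℕ) (y : ℝ) => cexp (u * (y : ℂ)) -
      ∑ j ∈ Finset.range n, (u * (y : ℂ)) ^ j / (j.factorial : ℂ) := ⟨_, rfl⟩
    have hRc : ∀ n, Continuous (R n) := by
      intro n
      rw [hR]
      fun_prop
    have hder : ∀ s : ℝ, HasDerivAt (R (n + 1)) (u * R n s) s := by
      intro s
      have hid : HasDerivAt (fun s : ℝ => u * (s : ℂ)) u s := by
        simpa using ((hasDerivAt_id s).ofReal_comp).const_mul u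
      have h1 : HasDerivAt (fun s : ℝ => cexp (u * (s : ℂ))) (cexp (u * (s : ℂ)) * u) s := hid.cexp
      have h2 : ∀ j ∈ Finset.range (n + 1), HasDerivAt (fun s : ℝ => (u * (s : ℂ)) ^ j / (j.factorial : ℂ))
          (((j : ℂ) * (u * (s : ℂ)) ^ (j - 1) * u) / (j.factorial : ℂ)) s := fun j _ => (hid.pow j).div_const _
      have h3 := h1.sub (HasDerivAt.fun_sum h2)
      have e : R (n + 1) = fun s : ℝ => cexp (u * (s : ℂ)) -
        ∑ j ∈ Finset.range (n + 1), (u * (s : ℂ)) ^ j / (j.factorial : ℂ) := by rw [hR]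
      rw [e]
      refine h3.congr_deriv ?_
      rw [hR, Finset.sum_range_succ']
      simp only [Nat.cast_zero, zero_mul, zero_div, add_zero]
      have h4 : ∑ j ∈ Finset.range n, (((j + 1 : ℕ) : ℂ) * (u * (s : ℂ)) ^ (j + 1 - 1) * u) / ((j + 1).factorial : ℂ) =
          u * ∑ j ∈ Finset.range n, (u * (s : ℂ)) ^ j / (j.factorial : ℂ) := by
        rw [Finset.mul_sum]
        refine Finset.sum_congr rfl fun j _ => ?_
        rw [Nat.add_sub_cancel, Nat.factorial_succ]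
        have hj : ((j : ℂ) + 1) ≠ 0 := by exact_mod_cast Nat.succ_ne_zero j
        have hj2 : ((j.factorial : ℕ) : ℂ) ≠ 0 := by exact_mod_cast Nat.factorial_ne_zero j
        push_cast
        field_simp
      rw [h4]
      ring
    have h5 : R (n + 1) y = ∫ s in (0 : ℝ)..y, u * R n s := by
      rw [intervalIntegral.integral_eq_sub_of_hasDerivAt (fun s _ => hder s)
        (((continuous_const).mul (hRc n)).intervalIntegrable _ _)]
      have h6 : R (n + 1) 0 = 0 := by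
        rw [hR]
        beta_reduce
        rw [Finset.sum_range_succ']
        simp
      rw [h6, sub_zero]
    have e6 : cexp (u * (y : ℂ)) - ∑ j ∈ Finset.range (n + 1), (u * (y : ℂ)) ^ j / (j.factorial : ℂ) = R (n + 1) y := by
      rw [hR]
    rw [e6, h5]
    have h7 : ‖∫ s in (0 : ℝ)..y, u * R n s‖ ≤ ∫ s in (0 : ℝ)..y, s ^ n / n.factorial := by
      refine (intervalIntegral.norm_integral_le_integral_norm hy).trans ?_
      refine intervalIntegral.integral_mono_on hy (Continuous.intervalIntegrable (by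
        exact (continuous_const.mul (hRc n)).norm) _ _) (Continuous.intervalIntegrable (by fun_prop) _ _) fun s hs => ?_
      rw [norm_mul, hu, one_mul]
      have := ih s hs.1
      rw [hR]
      exact this
    refine h7.trans (le_of_eq ?_)
    rw [intervalIntegral.integral_div, integral_pow, Nat.factorial_succ]
    have hn : ((n : ℝ) + 1) ≠ 0 := by positivity
    have hn2 : ((n.factorial : ℕ) : ℝ) ≠ 0 := by exact_mod_cast Nat.factorial_ne_zero n
    push_cast
    field_simp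
    simp

lemma taylor (n : ℕ) (y : ℝ) :
    ‖cexp (I * (y : ℂ)) - ∑ j ∈ Finset.range n, (I * (y : ℂ)) ^ j / (j.factorial : ℂ)‖ ≤ |y| ^ n / n.factorial := by
  rcases le_total 0 y with hy | hy
  · rw [abs_of_nonneg hy]
    exact taylor_dir (by simp) (by simp) n y hy
  · have h := taylor_dir (u := -I) (by simp) (by simp) n (-y) (by linarith)
    rw [abs_of_nonpos hy]
    have e : -I * ((-y : ℝ) : ℂ) = I * (y : ℂ) := by
      push_cast
      ring
    rw [e] at h
    exact h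

/-- the limit of the moments of the real part -/
def mj (V : ℝ) (j : ℕ) : ℂ := ∑ a ∈ Finset.range (j + 1), ((j.choose a : ℂ) / 2 ^ j) *
  (if a = j - a then ((a.factorial * V ^ a : ℝ) : ℂ) else 0)

lemma mj_odd (V : ℝ) (i : ℕ) : mj V (2 * i + 1) = 0 := by
  unfold mj
  refine Finset.sum_eq_zero fun a ha => ?_
  rw [Finset.mem_range] at ha
  rw [if_neg (by omega), mul_zero]

lemma mj_even (V : ℝ) (i : ℕ) : mj V (2 * i) = (((2 * i).factorial : ℂ) / (i.factorial : ℂ)) * ((V / 4 : ℝ) : ℂ) ^ i := by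
  unfold mj
  rw [Finset.sum_eq_single i]
  · rw [if_pos (by omega)]
    have h1 : (2 * i).choose i * i.factorial * (2 * i - i).factorial = (2 * i).factorial :=
      Nat.choose_mul_factorial_mul_factorial (by omega)
    have e : 2 * i - i = i := by omega
    rw [e] at h1
    have h2 : (((2 * i).choose i : ℕ) : ℂ) * (i.factorial : ℂ) * (i.factorial : ℂ) = ((2 * i).factorial : ℂ) := by
      exact_mod_cast h1
    have hi : ((i.factorial : ℕ) : ℂ) ≠ 0 := by exact_mod_cast Nat.factorial_ne_zero i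
    rw [← h2, pow_mul]
    push_cast
    rw [div_pow]
    field_simp
    norm_num
    ring
  · intro a ha hne
    rw [Finset.mem_range] at ha
    rw [if_neg (by omega), mul_zero]
  · intro h
    exfalso
    apply h
    rw [Finset.mem_range]
    omega

lemma sum_two (f : ℕ → ℂ) (n : ℕ) : ∑ j ∈ Finset.range (2 * n), f j = ∑ i ∈ Finset.range n, (f (2 * i) + f (2 * i + 1)) := by
  induction n with
  | zero => simp
  | succ n ih =>
    rw [Finset.sum_range_succ, ← ih]
    have e : 2 * (n + 1) = 2 * n + 1 + 1 := by ring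
    rw [e, Finset.sum_range_succ, Finset.sum_range_succ]
    ring

lemma av_sum {ι : Type*} (T : ℝ) (s : Finset ι) (c : ι → ℂ) (f : ι → ℝ → ℂ) (hf : ∀ i, Continuous (f i)) :
    av T (fun t => ∑ i ∈ s, c i * f i t) = ∑ i ∈ s, c i * av T (f i) := by
  unfold av
  have h : ∫ t in T..(2 * T), ∑ i ∈ s, c i * f i t = ∑ i ∈ s, ∫ t in T..(2 * T), c i * f i t :=
    intervalIntegral.integral_finsetSum fun i _ => ((continuous_const.mul (hf i)).intervalIntegrable _ _)
  rw [h, Finset.mul_sum]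
  refine Finset.sum_congr rfl fun i _ => ?_
  rw [intervalIntegral.integral_const_mul]
  ring

/-- moments of the real part -/
lemma re_mom (β : ℝ → ℕ → ℂ) (X : ℝ → ℕ) (M : ℝ → ℝ) (hM : Tendsto M atTop (𝓝 0))
    (hb : ∀ᶠ T in atTop, ∀ p, ‖β T p‖ ^ 2 ≤ M T) (V : ℝ) (hV : Tendsto (fun T => VB (β T) (X T)) atTop (𝓝 V))
    (hX1 : ∀ T, 1 ≤ X T) (j : ℕ) (hX : ∀ᶠ T in atTop, ((X T ^ j : ℕ) : ℝ) ≤ Real.sqrt T) :
    Tendsto (fun T => av T (fun t => (((Gp (β T) (X T) t).re : ℝ) : ℂ) ^ j)) atTop (𝓝 (mj V j)) := by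
  have e : ∀ T, av T (fun t => (((Gp (β T) (X T) t).re : ℝ) : ℂ) ^ j) = ∑ a ∈ Finset.range (j + 1),
      ((j.choose a : ℂ) / 2 ^ j) * av T (fun t => Gp (β T) (X T) t ^ a *
        (starRingEnd ℂ) (Gp (β T) (X T) t) ^ (j - a)) := by
    intro T
    rw [← av_sum]
    · congr 1
      funext t
      rw [Complex.re_eq_add_conj, div_pow, add_pow, Finset.sum_div]
      refine Finset.sum_congr rfl fun a _ => ?_
      ring
    · intro a
      exact ((Gp_cont _ _).pow a).mul ((Complex.continuous_conj.comp (Gp_cont _ _)).pow _)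
  simp only [e]
  unfold mj
  refine tendsto_finsetSum _ fun a ha => ?_
  rw [Finset.mem_range] at ha
  refine (mom_lim β X M hM hb V hV hX1 a (j - a) ?_).const_mul _
  have : a + (j - a) = j := by omega
  rw [this]
  exact hX

/-- **the characteristic function, finite order** -/
theorem charb (β : ℝ → ℕ → ℂ) (X : ℝ → ℕ) (M : ℝ → ℝ) (hM : Tendsto M atTop (𝓝 0))
    (hb : ∀ᶠ T in atTop, ∀ p, ‖β T p‖ ^ 2 ≤ M T) (V : ℝ) (hV : Tendsto (fun T => VB (β T) (X T)) atTop (𝓝 V))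
    (hX1 : ∀ T, 1 ≤ X T) (n : ℕ) (hX : ∀ᶠ T in atTop, ((X T ^ (2 * n) : ℕ) : ℝ) ≤ Real.sqrt T) (η : ℝ)
    (hη : 0 < η) : ∀ᶠ T in atTop, ‖av T (fun t => cexp (I * (((Gp (β T) (X T) t).re : ℝ) : ℂ))) -
      cexp (-((V / 4 : ℝ) : ℂ))‖ ≤ 2 * (V / 4) ^ n / n.factorial + η := by
  have hV0 : 0 ≤ V := ge_of_tendsto' hV fun T => VB_nonneg _ _
  -- the Taylor sum
  have h1 : Tendsto (fun T => ∑ j ∈ Finset.range (2 * n), (I ^ j / (j.factorial : ℂ)) *
      av T (fun t => (((Gp (β T) (X T) t).re : ℝ) : ℂ) ^ j)) atTop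
      (𝓝 (∑ j ∈ Finset.range (2 * n), (I ^ j / (j.factorial : ℂ)) * mj V j)) := by
    refine tendsto_finsetSum _ fun j hj => ?_
    rw [Finset.mem_range] at hj
    refine (re_mom β X M hM hb V hV hX1 j ?_).const_mul _
    filter_upwards [hX] with T hT
    refine le_trans ?_ hT
    exact_mod_cast Nat.pow_le_pow_right (hX1 T) hj.le
  have h2 : ∑ j ∈ Finset.range (2 * n), (I ^ j / (j.factorial : ℂ)) * mj V j =
      ∑ i ∈ Finset.range n, (-1 * ((V / 4 : ℝ) : ℂ)) ^ i / (i.factorial : ℂ) := by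
    rw [sum_two]
    refine Finset.sum_congr rfl fun i _ => ?_
    rw [mj_odd, mul_zero, add_zero, mj_even, pow_mul, Complex.I_sq, mul_pow]
    have hi : (((2 * i).factorial : ℕ) : ℂ) ≠ 0 := by exact_mod_cast Nat.factorial_ne_zero _
    have hi' : ((i.factorial : ℕ) : ℂ) ≠ 0 := by exact_mod_cast Nat.factorial_ne_zero _
    field_simp
  have h3 := taylor_dir (u := -1) (by simp) (by simp) n (V / 4) (by positivity)
  -- the remainder
  have h4 := re_mom β X M hM hb V hV hX1 (2 * n) hX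
  rw [mj_even] at h4
  have h5 : Tendsto (fun T => (av T (fun t => (((Gp (β T) (X T) t).re : ℝ) : ℂ) ^ (2 * n))).re / (2 * n).factorial)
      atTop (𝓝 ((V / 4) ^ n / n.factorial)) := by
    have h6 := ((Complex.continuous_re.tendsto _).comp h4).div_const ((2 * n).factorial : ℝ)
    have e : ((((2 * n).factorial : ℂ) / (n.factorial : ℂ)) * ((V / 4 : ℝ) : ℂ) ^ n).re / ((2 * n).factorial : ℝ) =
        (V / 4) ^ n / n.factorial := by
      have e2 : ((((2 * n).factorial : ℂ) / (n.factorial : ℂ)) * ((V / 4 : ℝ) : ℂ) ^ n) =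
          ((((2 * n).factorial : ℝ) / (n.factorial : ℝ) * (V / 4) ^ n : ℝ) : ℂ) := by push_cast; ring
      rw [e2, Complex.ofReal_re]
      have hi : (((2 * n).factorial : ℕ) : ℝ) ≠ 0 := by exact_mod_cast Nat.factorial_ne_zero _
      field_simp
    rw [e] at h6
    exact h6
  have h6 := (tendsto_iff_norm_sub_tendsto_zero.1 h1).eventually_lt_const (show (0 : ℝ) < η / 2 by positivity)
  have h7 := h5.eventually_lt_const (show (V / 4) ^ n / n.factorial < (V / 4) ^ n / n.factorial + η / 2 by linarith)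
  filter_upwards [h6, h7, eventually_gt_atTop 0] with T h8 h9 hT0
  rw [h2] at h8
  have h10 : ‖av T (fun t => cexp (I * (((Gp (β T) (X T) t).re : ℝ) : ℂ))) - ∑ j ∈ Finset.range (2 * n),
      (I ^ j / (j.factorial : ℂ)) * av T (fun t => (((Gp (β T) (X T) t).re : ℝ) : ℂ) ^ j)‖ ≤
      (av T (fun t => (((Gp (β T) (X T) t).re : ℝ) : ℂ) ^ (2 * n))).re / (2 * n).factorial := by
    have hrc : Continuous fun t => (Gp (β T) (X T) t).re := Complex.continuous_re.comp (Gp_cont _ _)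
    have hav := av_sum T (Finset.range (2 * n)) (fun j => I ^ j / (j.factorial : ℂ))
      (fun j t => (((Gp (β T) (X T) t).re : ℝ) : ℂ) ^ j) (fun j => (Complex.continuous_ofReal.comp hrc).pow j)
    rw [← hav]
    have e1 : (av T (fun t => (((Gp (β T) (X T) t).re : ℝ) : ℂ) ^ (2 * n))).re =
        1 / T * ∫ t in T..(2 * T), (Gp (β T) (X T) t).re ^ (2 * n) := by
      unfold av
      rw [Complex.re_ofReal_mul]
      congr 1
      have : (fun t => (((Gp (β T) (X T) t).re : ℝ) : ℂ) ^ (2 * n)) =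
          fun t => (((Gp (β T) (X T) t).re ^ (2 * n) : ℝ) : ℂ) := by funext t; push_cast; rfl
      rw [this, intervalIntegral.integral_ofReal, Complex.ofReal_re]
    rw [e1]
    unfold av
    rw [← mul_sub, ← intervalIntegral.integral_sub (Continuous.intervalIntegrable (by fun_prop) _ _)
      (Continuous.intervalIntegrable (by fun_prop) _ _), norm_mul, Complex.norm_real,
      Real.norm_of_nonneg (by positivity), mul_div_assoc]
    refine mul_le_mul_of_nonneg_left ?_ (by positivity)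
    refine (intervalIntegral.norm_integral_le_integral_norm (by linarith)).trans ?_
    rw [← intervalIntegral.integral_div]
    refine intervalIntegral.integral_mono_on (by linarith) (Continuous.intervalIntegrable (by fun_prop) _ _)
      (Continuous.intervalIntegrable (by fun_prop) _ _) fun t _ => ?_
    have h11 := taylor (2 * n) (Gp (β T) (X T) t).re
    rw [(even_two_mul n).pow_abs] at h11
    refine le_trans (le_of_eq ?_) h11
    congr 2
    refine Finset.sum_congr rfl fun j _ => ?_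
    rw [mul_pow]
    ring
  obtain ⟨A, hA⟩ : ∃ A : ℂ, A = av T (fun t => cexp (I * (((Gp (β T) (X T) t).re : ℝ) : ℂ))) := ⟨_, rfl⟩
  obtain ⟨S, hS⟩ : ∃ S : ℂ, S = ∑ j ∈ Finset.range (2 * n),
      (I ^ j / (j.factorial : ℂ)) * av T (fun t => (((Gp (β T) (X T) t).re : ℝ) : ℂ) ^ j) := ⟨_, rfl⟩
  obtain ⟨Q, hQ⟩ : ∃ Q : ℂ, Q = ∑ i ∈ Finset.range n, (-1 * ((V / 4 : ℝ) : ℂ)) ^ i / (i.factorial : ℂ) := ⟨_, rfl⟩
  rw [← hA, ← hS] at h10
  rw [← hS, ← hQ] at h8
  rw [← hQ, neg_one_mul] at h3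
  rw [← hA]
  have e2 : A - cexp (-((V / 4 : ℝ) : ℂ)) = (A - S) + (S - Q) - (cexp (-((V / 4 : ℝ) : ℂ)) - Q) := by ring
  rw [e2]
  have h12 := norm_sub_le ((A - S) + (S - Q)) (cexp (-((V / 4 : ℝ) : ℂ)) - Q)
  have h13 := norm_add_le (A - S) (S - Q)
  have e3 : 2 * (V / 4) ^ n / n.factorial = (V / 4) ^ n / n.factorial + (V / 4) ^ n / n.factorial := by ring
  rw [e3]
  linarith

end

end Run7.h435.MD
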