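import Pool.Agent.Run7.h435.MDc
import Mathlib.Probability.Distributions.Gaussian.Real

/-! # Gaussian bumps -/

set_option autoImplicit false

namespace Run7.h435.MD

open Filter Topology MeasureTheory Set Complex ProbabilityTheory

noncomputable section

/-- the standard Gaussian law -/
abbrev gs : Measure ℝ := gaussianReal 0 1

/-- one dimensional Gaussian integral -/
lemma gf1 {a : ℝ} (ha : 0 ≤ a) (z : ℂ) :
    ∫ ξ : ℝ, cexp (z * ξ - (a : ℂ) * (ξ : ℂ) ^ 2 / 2) ∂gs =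
      ((1 / Real.sqrt (1 + a) : ℝ) : ℂ) * cexp (z ^ 2 / (2 * (1 + a))) := by
  rw [integral_gaussianReal_eq_integral_smul one_ne_zero]
  have hpi := Real.pi_pos
  have e : ∀ ξ : ℝ, gaussianPDFReal 0 1 ξ • cexp (z * ξ - (a : ℂ) * (ξ : ℂ) ^ 2 / 2) =
      ((1 / Real.sqrt (2 * Real.pi) : ℝ) : ℂ) * cexp ((-(1 + a) / 2 : ℂ) * (ξ : ℂ) ^ 2 + z * ξ + 0) := by
    intro ξ
    unfold gaussianPDFReal
    rw [Complex.real_smul]
    push_cast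
    rw [mul_assoc, ← Complex.exp_add]
    rw [mul_one, one_div]
    congr 2
    ring
  simp_rw [e]
  rw [MeasureTheory.integral_const_mul]
  have hb : ((-(1 + a) / 2 : ℂ)).re < 0 := by
    have : (-(1 + a) / 2 : ℂ) = ((-(1 + a) / 2 : ℝ) : ℂ) := by push_cast; ring
    rw [this, Complex.ofReal_re]
    linarith
  rw [integral_cexp_quadratic hb]
  have h1 : (Real.pi / -(-(1 + a) / 2 : ℂ)) ^ (1 / 2 : ℂ) = ((Real.sqrt (2 * Real.pi) / Real.sqrt (1 + a) : ℝ) : ℂ) := by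
    have e1 : (Real.pi / -(-(1 + a) / 2 : ℂ)) = ((2 * Real.pi / (1 + a) : ℝ) : ℂ) := by
      push_cast
      have : (1 + (a : ℂ)) ≠ 0 := by
        have h0 : (1 + a : ℝ) ≠ 0 := by linarith
        exact_mod_cast h0
      field_simp
    rw [e1, ← Real.sqrt_div (by positivity), Real.sqrt_eq_rpow]
    rw [Complex.ofReal_cpow (by positivity)]
    push_cast
    rfl
  rw [h1, ← mul_assoc, ← Complex.ofReal_mul]
  have hs : Real.sqrt (2 * Real.pi) ≠ 0 := (Real.sqrt_pos.2 (by positivity)).ne'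
  have e2 : 1 / Real.sqrt (2 * Real.pi) * (Real.sqrt (2 * Real.pi) / Real.sqrt (1 + a)) = 1 / Real.sqrt (1 + a) := by
    field_simp
  rw [e2]
  congr 2
  have : (1 + (a : ℂ)) ≠ 0 := by
    have h0 : (1 + a : ℝ) ≠ 0 := by linarith
    exact_mod_cast h0
  field_simp
  ring

lemma gexp : ∫ ξ : ℝ, Real.exp (ξ ^ 2 / 4) ∂gs = Real.sqrt 2 := by
  rw [integral_gaussianReal_eq_integral_smul one_ne_zero]
  have hpi := Real.pi_pos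
  have e : ∀ ξ : ℝ, gaussianPDFReal 0 1 ξ • Real.exp (ξ ^ 2 / 4) =
      (1 / Real.sqrt (2 * Real.pi)) * Real.exp (-(1 / 4) * ξ ^ 2) := by
    intro ξ
    unfold gaussianPDFReal
    rw [smul_eq_mul, mul_assoc, ← Real.exp_add]
    push_cast
    rw [mul_one, one_div]
    congr 2
    ring
  simp_rw [e]
  rw [MeasureTheory.integral_const_mul, integral_gaussian]
  have e2 : Real.pi / (1 / 4) = (2 * Real.pi) * 2 := by ring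
  have hs : Real.sqrt (2 * Real.pi) ≠ 0 := (Real.sqrt_pos.2 (by positivity)).ne'
  rw [e2, Real.sqrt_mul (by positivity : 0 ≤ 2 * Real.pi), one_div, ← mul_assoc, inv_mul_cancel₀ hs, one_mul]

lemma gexp_int : Integrable (fun ξ : ℝ => Real.exp (ξ ^ 2 / 4)) gs := by
  by_contra h
  have h1 := integral_undef h
  rw [gexp] at h1
  have : 0 < Real.sqrt 2 := Real.sqrt_pos.2 (by norm_num)
  linarith

/-- the bump -/
def bump (x s : ℝ) (y : ℝ × ℝ) : ℝ := Real.exp (-(y.1 - x) ^ 2 / 2) * Real.exp (-(s * (y.2 - x) ^ 2) / 2)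

/-- the phase of a block -/
def bph (x s : ℝ) (y ξ : ℝ × ℝ) : ℂ := cexp (I * ((ξ.1 * (y.1 - x) + s * (ξ.2 * (y.2 - x)) : ℝ) : ℂ))

/-- the quadratic form of a block -/
def bq (τ ρ s : ℝ) (ξ : ℝ × ℝ) : ℝ := τ * ξ.1 ^ 2 + s * (τ * ξ.2 ^ 2 + 2 * ρ * (ξ.1 * ξ.2))

lemma bump_int (x : ℝ) {s : ℝ} (hs : s ^ 2 = s) (y : ℝ × ℝ) :
    ∫ ξ : ℝ × ℝ, bph x s y ξ ∂(gs.prod gs) = ((bump x s y : ℝ) : ℂ) := by
  have e : ∀ ξ : ℝ × ℝ, bph x s y ξ =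
      cexp ((I * (y.1 - x : ℝ)) * ξ.1 - ((0 : ℝ) : ℂ) * (ξ.1 : ℂ) ^ 2 / 2) *
      cexp ((I * (s * (y.2 - x) : ℝ)) * ξ.2 - ((0 : ℝ) : ℂ) * (ξ.2 : ℂ) ^ 2 / 2) := by
    intro ξ
    unfold bph
    rw [← Complex.exp_add]
    congr 1
    push_cast
    ring
  simp_rw [e]
  rw [integral_prod_mul (fun ξ : ℝ => cexp ((I * (y.1 - x : ℝ)) * ξ - ((0 : ℝ) : ℂ) * (ξ : ℂ) ^ 2 / 2))
    (fun ξ : ℝ => cexp ((I * (s * (y.2 - x) : ℝ)) * ξ - ((0 : ℝ) : ℂ) * (ξ : ℂ) ^ 2 / 2)),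
    gf1 le_rfl, gf1 le_rfl]
  have eb : ((bump x s y : ℝ) : ℂ) = cexp ((-(y.1 - x) ^ 2 / 2 : ℝ) : ℂ) *
      cexp ((-(s * (y.2 - x) ^ 2) / 2 : ℝ) : ℂ) := by
    unfold bump
    rw [Complex.ofReal_mul, Complex.ofReal_exp, Complex.ofReal_exp]
  rw [eb, add_zero, Real.sqrt_one, div_one, Complex.ofReal_one, one_mul, one_mul]
  congr 1
  · congr 1
    push_cast
    rw [mul_pow, Complex.I_sq]
    ring
  · congr 1
    push_cast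
    rw [mul_pow, Complex.I_sq]
    have hs' : (s : ℂ) ^ 2 = s := by exact_mod_cast hs
    rw [mul_pow, hs']
    ring

/-- the Gaussian value of a block -/
def bv (τ ρ s x : ℝ) : ℝ :=
  if s = 0 then 1 / Real.sqrt (1 + τ) * Real.exp (-(x ^ 2 / (2 * (1 + τ))))
  else 1 / Real.sqrt ((1 + τ) ^ 2 - ρ ^ 2) * Real.exp (-(x ^ 2 / (1 + τ + ρ)))

lemma bq_nonneg {τ ρ s : ℝ} (hρ : |ρ| ≤ τ) (hs : 0 ≤ s) (hs1 : s ≤ 1) (ξ : ℝ × ℝ) : 0 ≤ bq τ ρ s ξ := by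
  have hτ : 0 ≤ τ := (abs_nonneg _).trans hρ
  unfold bq
  have h1 : -(τ * ξ.1 ^ 2 + τ * ξ.2 ^ 2) ≤ 2 * ρ * (ξ.1 * ξ.2) := by
    have h2 : |2 * ρ * (ξ.1 * ξ.2)| ≤ τ * (ξ.1 ^ 2 + ξ.2 ^ 2) := by
      rw [abs_mul, abs_mul, abs_of_pos (by norm_num : (0 : ℝ) < 2)]
      have h3 : 2 * |ξ.1 * ξ.2| ≤ ξ.1 ^ 2 + ξ.2 ^ 2 := by
        rw [abs_mul]
        nlinarith [sq_nonneg (|ξ.1| - |ξ.2|), sq_abs ξ.1, sq_abs ξ.2]
      calc 2 * |ρ| * |ξ.1 * ξ.2| = |ρ| * (2 * |ξ.1 * ξ.2|) := by ring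
        _ ≤ τ * (ξ.1 ^ 2 + ξ.2 ^ 2) := mul_le_mul hρ h3 (by positivity) hτ
    linarith [(abs_le.1 h2).1]
  have h2 : s * (-(τ * ξ.1 ^ 2)) ≤ s * (τ * ξ.2 ^ 2 + 2 * ρ * (ξ.1 * ξ.2)) :=
    mul_le_mul_of_nonneg_left (by linarith) hs
  have h3 : s * (τ * ξ.1 ^ 2) ≤ 1 * (τ * ξ.1 ^ 2) := mul_le_mul_of_nonneg_right hs1 (by positivity)
  linarith

lemma bq_le {τ ρ s : ℝ} (hρ : |ρ| ≤ τ) (hs : 0 ≤ s) (hs1 : s ≤ 1) (ξ : ℝ × ℝ) :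
    bq τ ρ s ξ ≤ 2 * τ * (ξ.1 ^ 2 + ξ.2 ^ 2) := by
  have hτ : 0 ≤ τ := (abs_nonneg _).trans hρ
  unfold bq
  have h1 : 2 * ρ * (ξ.1 * ξ.2) ≤ τ * (ξ.1 ^ 2 + ξ.2 ^ 2) := by
    have h2 : |2 * ρ * (ξ.1 * ξ.2)| ≤ τ * (ξ.1 ^ 2 + ξ.2 ^ 2) := by
      rw [abs_mul, abs_mul, abs_of_pos (by norm_num : (0 : ℝ) < 2)]
      have h3 : 2 * |ξ.1 * ξ.2| ≤ ξ.1 ^ 2 + ξ.2 ^ 2 := by
        rw [abs_mul]
        nlinarith [sq_nonneg (|ξ.1| - |ξ.2|), sq_abs ξ.1, sq_abs ξ.2]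
      calc 2 * |ρ| * |ξ.1 * ξ.2| = |ρ| * (2 * |ξ.1 * ξ.2|) := by ring
        _ ≤ τ * (ξ.1 ^ 2 + ξ.2 ^ 2) := mul_le_mul hρ h3 (by positivity) hτ
    exact (le_abs_self _).trans h2
  have h2 : s * (τ * ξ.2 ^ 2 + 2 * ρ * (ξ.1 * ξ.2)) ≤ s * (τ * ξ.2 ^ 2 + τ * (ξ.1 ^ 2 + ξ.2 ^ 2)) :=
    mul_le_mul_of_nonneg_left (by linarith) hs
  have h3 : s * (τ * ξ.2 ^ 2 + τ * (ξ.1 ^ 2 + ξ.2 ^ 2)) ≤ 1 * (τ * ξ.2 ^ 2 + τ * (ξ.1 ^ 2 + ξ.2 ^ 2)) :=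
    mul_le_mul_of_nonneg_right hs1 (by positivity)
  linarith

/-- the integrand of a block -/
def bi (τ ρ s x : ℝ) (ξ : ℝ × ℝ) : ℂ :=
  cexp (I * ((-(x * (ξ.1 + s * ξ.2)) : ℝ) : ℂ)) * cexp (((-(bq τ ρ s ξ / 2) : ℝ) : ℂ))

lemma bi_cont (τ ρ s x : ℝ) : Continuous (bi τ ρ s x) := by
  unfold bi bq
  fun_prop

lemma bi_norm {τ ρ s : ℝ} (hρ : |ρ| ≤ τ) (hs : 0 ≤ s) (hs1 : s ≤ 1) (x : ℝ) (ξ : ℝ × ℝ) :
    ‖bi τ ρ s x ξ‖ ≤ 1 := by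
  unfold bi
  rw [norm_mul, mul_comm I, Complex.norm_exp_ofReal_mul_I, one_mul, ← Complex.ofReal_exp, Complex.norm_real,
    Real.norm_of_nonneg (Real.exp_pos _).le, Real.exp_le_one_iff]
  linarith [bq_nonneg hρ hs hs1 ξ]

lemma bi_int {τ ρ s : ℝ} (hρ : |ρ| ≤ τ) (hs : 0 ≤ s) (hs1 : s ≤ 1) (x : ℝ) :
    Integrable (bi τ ρ s x) (gs.prod gs) :=
  Integrable.of_bound (bi_cont τ ρ s x).aestronglyMeasurable 1 (Eventually.of_forall (bi_norm hρ hs hs1 x))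

/-- the Gaussian integral of a block -/
lemma bv_int {τ ρ s : ℝ} (hρ : |ρ| ≤ τ) (hs : s = 0 ∨ s = 1) (x : ℝ) :
    ∫ ξ : ℝ × ℝ, bi τ ρ s x ξ ∂(gs.prod gs) = ((bv τ ρ s x : ℝ) : ℂ) := by
  have hτ : 0 ≤ τ := (abs_nonneg _).trans hρ
  have hτ1 : (1 + (τ : ℂ)) ≠ 0 := by
    have h0 : (1 + τ : ℝ) ≠ 0 := by linarith
    exact_mod_cast h0
  rcases hs with hs | hs
  · subst hs
    have e : ∀ ξ : ℝ × ℝ, bi τ ρ 0 x ξ =
        cexp ((-(I * x)) * ξ.1 - (τ : ℂ) * (ξ.1 : ℂ) ^ 2 / 2) * 1 := by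
      intro ξ
      unfold bi bq
      rw [← Complex.exp_add, mul_one]
      congr 1
      push_cast
      ring
    simp_rw [e]
    rw [integral_prod_mul (fun ξ : ℝ => cexp ((-(I * x)) * ξ - (τ : ℂ) * (ξ : ℂ) ^ 2 / 2)) (fun _ : ℝ => (1 : ℂ)),
      gf1 hτ]
    unfold bv
    rw [if_pos rfl, integral_const]
    simp only [probReal_univ, one_smul, mul_one]
    push_cast
    congr 2
    rw [neg_sq, mul_pow, Complex.I_sq]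
    field_simp
  · subst hs
    have hlt : 0 < (1 + τ) ^ 2 - ρ ^ 2 := by
      have h1 := abs_le.1 hρ
      nlinarith [h1.1, h1.2]
    have hp : 0 < 1 + τ + ρ := by linarith [(abs_le.1 hρ).1]
    rw [integral_prod _ (bi_int hρ zero_le_one le_rfl x)]
    have e1 : ∀ a : ℝ, ∫ b : ℝ, bi τ ρ 1 x (a, b) ∂gs =
        (((1 / Real.sqrt (1 + τ) : ℝ) : ℂ) * cexp (-((x : ℂ) ^ 2 / (2 * (1 + τ))))) *
        cexp ((-(I * x) * (1 - ρ / (1 + τ))) * a - ((τ - ρ ^ 2 / (1 + τ) : ℝ) : ℂ) * (a : ℂ) ^ 2 / 2) := by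
      intro a
      have e2 : ∀ b : ℝ, bi τ ρ 1 x (a, b) =
          cexp (-(I * x) * a - (τ : ℂ) * (a : ℂ) ^ 2 / 2) *
          cexp ((-(I * x) - ρ * a) * b - (τ : ℂ) * (b : ℂ) ^ 2 / 2) := by
        intro b
        unfold bi bq
        rw [← Complex.exp_add, ← Complex.exp_add]
        congr 1
        push_cast
        ring
      simp_rw [e2]
      rw [MeasureTheory.integral_const_mul, gf1 hτ, mul_left_comm, mul_assoc, ← Complex.exp_add, ← Complex.exp_add]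
      congr 2
      push_cast
      have e3 : (-(I * (x : ℂ)) - ρ * a) ^ 2 = -(x : ℂ) ^ 2 + 2 * I * x * ρ * a + (ρ : ℂ) ^ 2 * (a : ℂ) ^ 2 := by
        have hI := Complex.I_sq
        linear_combination (x : ℂ) ^ 2 * hI
      rw [e3]
      field_simp
      ring
    simp_rw [e1]
    rw [MeasureTheory.integral_const_mul]
    have ha' : 0 ≤ τ - ρ ^ 2 / (1 + τ) := by
      rw [sub_nonneg, div_le_iff₀ (by linarith)]
      have : ρ ^ 2 ≤ τ ^ 2 := sq_le_sq' (by linarith [(abs_le.1 hρ).1]) (abs_le.1 hρ).2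
      nlinarith
    rw [gf1 ha']
    unfold bv
    rw [if_neg one_ne_zero]
    have e4 : Real.sqrt ((1 + τ) ^ 2 - ρ ^ 2) = Real.sqrt (1 + τ) * Real.sqrt (1 + (τ - ρ ^ 2 / (1 + τ))) := by
      rw [← Real.sqrt_mul (by linarith)]
      congr 1
      have : (1 + τ) ≠ 0 := by linarith
      field_simp
      ring
    rw [e4]
    have e5 : cexp (-((x : ℂ) ^ 2 / (2 * (1 + τ)))) *
        cexp ((-(I * (x : ℂ)) * (1 - ρ / (1 + τ))) ^ 2 / (2 * (1 + ((τ - ρ ^ 2 / (1 + τ) : ℝ) : ℂ)))) =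
        ((Real.exp (-(x ^ 2 / (1 + τ + ρ))) : ℝ) : ℂ) := by
      rw [← Complex.exp_add, Complex.ofReal_exp]
      congr 1
      have h0 : (1 + τ : ℝ) ≠ 0 := by linarith
      have h2 : (1 + (τ - ρ ^ 2 / (1 + τ)) : ℝ) ≠ 0 := by linarith
      have h3 : ((1 + τ) ^ 2 - ρ ^ 2 : ℝ) ≠ 0 := hlt.ne'
      have e6 : (-(I * (x : ℂ)) * (1 - ρ / (1 + τ))) ^ 2 = ((-(x ^ 2 * (1 - ρ / (1 + τ)) ^ 2) : ℝ) : ℂ) := by
        push_cast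
        rw [mul_pow, neg_sq, mul_pow, Complex.I_sq]
        ring
      rw [e6]
      have e7 : -(x ^ 2 / (2 * (1 + τ))) + -(x ^ 2 * (1 - ρ / (1 + τ)) ^ 2) / (2 * (1 + (τ - ρ ^ 2 / (1 + τ)))) =
          -(x ^ 2 / (1 + τ + ρ)) := by
        have e8 : 1 + (τ - ρ ^ 2 / (1 + τ)) = ((1 + τ - ρ) * (1 + τ + ρ)) / (1 + τ) := by
          field_simp
          ring
        have e9 : 1 - ρ / (1 + τ) = (1 + τ - ρ) / (1 + τ) := by field_simp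
        have h4 : (1 + τ - ρ : ℝ) ≠ 0 := by linarith [(abs_le.1 hρ).2]
        have h5 : (1 + τ + ρ : ℝ) ≠ 0 := hp.ne'
        rw [e8, e9]
        field_simp
        ring
      rw [← e7]
      push_cast
      ring
    push_cast at e5 ⊢
    linear_combination (1 / (Real.sqrt (1 + τ) : ℂ)) * (1 / (Real.sqrt (1 + (τ - ρ ^ 2 / (1 + τ))) : ℂ)) * e5

end

end Run7.h435.MD
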