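import Pool.Agent.Run7.h435.MDd

/-! # From characteristic functions of finite order to Gaussian bumps -/

set_option autoImplicit false

namespace Run7.h435.MD

open Filter Topology MeasureTheory Set Complex ProbabilityTheory

noncomputable section

/-- the measure on the frequencies -/
abbrev mu (K : ℕ) : Measure (Fin K → ℝ × ℝ) := Measure.pi (fun _ => gs.prod gs)

/-- the linear form -/
def lf {K : ℕ} (s : Fin K → ℝ) (ξ w : Fin K → ℝ × ℝ) : ℝ := ∑ i, ((ξ i).1 * (w i).1 + s i * ((ξ i).2 * (w i).2))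

/-- the shift -/
def sf {K : ℕ} (x : ℝ) (s : Fin K → ℝ) (ξ : Fin K → ℝ × ℝ) : ℝ := x * ∑ i, ((ξ i).1 + s i * (ξ i).2)

/-- the quadratic form -/
def qf {K : ℕ} (τ : ℝ) (ρ s : Fin K → ℝ) (ξ : Fin K → ℝ × ℝ) : ℝ := ∑ i, bq τ (ρ i) (s i) (ξ i)

lemma lf_cont {K : ℕ} (s : Fin K → ℝ) : Continuous (fun p : (Fin K → ℝ × ℝ) × (Fin K → ℝ × ℝ) => lf s p.1 p.2) := by
  unfold lf
  fun_prop

lemma sf_cont {K : ℕ} (x : ℝ) (s : Fin K → ℝ) : Continuous (sf x s) := by
  unfold sf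
  fun_prop

lemma qf_cont {K : ℕ} (τ : ℝ) (ρ s : Fin K → ℝ) : Continuous (qf τ ρ s) := by
  unfold qf bq
  fun_prop

/-- the bumps as an integral over the frequencies -/
lemma prod_bump {K : ℕ} (s : Fin K → ℝ) (hs : ∀ i, s i ^ 2 = s i) (x : ℝ) (w : Fin K → ℝ × ℝ) :
    ((∏ i, bump x (s i) (w i) : ℝ) : ℂ) = ∫ ξ : Fin K → ℝ × ℝ, cexp (-(I * (sf x s ξ : ℂ))) *
      cexp (I * (lf s ξ w : ℂ)) ∂(mu K) := by
  have h := integral_fintype_prod_eq_prod (𝕜 := ℂ) (μ := fun _ : Fin K => gs.prod gs)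
    (fun (i : Fin K) (ξ : ℝ × ℝ) => bph x (s i) (w i) ξ)
  simp only [bump_int x (hs _)] at h
  rw [Complex.ofReal_prod, ← h]
  congr 1
  funext ξ
  unfold bph
  rw [← Complex.exp_sum, ← Complex.exp_add]
  congr 1
  unfold sf lf
  push_cast
  rw [Finset.mul_sum, Finset.mul_sum, Finset.mul_sum, ← Finset.sum_neg_distrib, ← Finset.sum_add_distrib]
  refine Finset.sum_congr rfl fun i _ => ?_
  ring

/-- the Gaussian values as an integral over the frequencies -/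
lemma prod_bv {K : ℕ} {τ : ℝ} (ρ s : Fin K → ℝ) (hρ : ∀ i, |ρ i| ≤ τ) (hs : ∀ i, s i = 0 ∨ s i = 1) (x : ℝ) :
    ((∏ i, bv τ (ρ i) (s i) x : ℝ) : ℂ) = ∫ ξ : Fin K → ℝ × ℝ, cexp (-(I * (sf x s ξ : ℂ))) *
      cexp ((-(qf τ ρ s ξ / 2) : ℝ) : ℂ) ∂(mu K) := by
  have h := integral_fintype_prod_eq_prod (𝕜 := ℂ) (μ := fun _ : Fin K => gs.prod gs)
    (fun (i : Fin K) (ξ : ℝ × ℝ) => bi τ (ρ i) (s i) x ξ)
  simp only [bv_int (hρ _) (hs _)] at h
  rw [Complex.ofReal_prod, ← h]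
  congr 1
  funext ξ
  unfold bi
  rw [Finset.prod_mul_distrib, ← Complex.exp_sum, ← Complex.exp_sum]
  congr 2
  · unfold sf
    push_cast
    rw [Finset.mul_sum, Finset.mul_sum, ← Finset.sum_neg_distrib]
    refine Finset.sum_congr rfl fun i _ => ?_
    ring
  · unfold qf
    push_cast
    rw [Finset.sum_div, ← Finset.sum_neg_distrib]

/-- the pointwise bound of the error -/
lemma min_bd {τ r : ℝ} (hτ : 0 < τ) (hr : 0 ≤ r) (n : ℕ) :
    min 2 (2 * (τ * r) ^ n / n.factorial) ≤ 2 * (1 / 4) ^ n + 2 * (Real.exp (-(n / (48 * τ))) * Real.exp (r / 4)) := by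
  rw [← Real.exp_add]
  by_cases h : r ≤ n / (12 * τ)
  · refine (min_le_right _ _).trans ?_
    have h1 : 0 ≤ 2 * Real.exp (-(n / (48 * τ)) + r / 4) := by positivity
    have h2 : τ * r ≤ n / 12 := by
      rw [le_div_iff₀ (by positivity)] at h
      linarith
    have h3 : (τ * r) ^ n ≤ ((n : ℝ) / 12) ^ n := pow_le_pow_left₀ (by positivity) h2 n
    have h4 := Real.pow_div_factorial_le_exp (n : ℝ) (Nat.cast_nonneg n) n
    have h5 : 2 * (τ * r) ^ n / n.factorial ≤ 2 * (1 / 4) ^ n := by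
      have hf : (0 : ℝ) < n.factorial := by exact_mod_cast Nat.factorial_pos n
      have e1 : ((n : ℝ) / 12) ^ n / n.factorial = (1 / 12) ^ n * ((n : ℝ) ^ n / n.factorial) := by
        rw [div_pow, div_pow, one_pow]
        ring
      have h6 : ((n : ℝ) / 12) ^ n / n.factorial ≤ (1 / 12) ^ n * Real.exp n := by
        rw [e1]
        exact mul_le_mul_of_nonneg_left h4 (by positivity)
      have e2 : Real.exp (n : ℝ) = Real.exp 1 ^ n := by rw [← Real.exp_nat_mul, mul_one]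
      have h7 : (1 / 12 : ℝ) ^ n * Real.exp 1 ^ n ≤ (1 / 4) ^ n := by
        rw [← mul_pow]
        apply pow_le_pow_left₀ (by positivity)
        have := Real.exp_one_lt_d9
        linarith
      rw [e2] at h6
      calc 2 * (τ * r) ^ n / n.factorial = 2 * ((τ * r) ^ n / n.factorial) := by ring
        _ ≤ 2 * (((n : ℝ) / 12) ^ n / n.factorial) := by gcongr
        _ ≤ 2 * (1 / 4) ^ n := by linarith
    linarith
  · push Not at h
    refine (min_le_left _ _).trans ?_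
    have h1 : 0 ≤ -(n / (48 * τ)) + r / 4 := by
      have e : (n : ℝ) / (48 * τ) = n / (12 * τ) / 4 := by rw [div_div]; congr 1; ring
      rw [e]
      linarith
    have h2 := Real.one_le_exp h1
    have h3 : (0 : ℝ) ≤ 2 * (1 / 4) ^ n := by positivity
    linarith

/-- the integral of the error -/
lemma err_int {K : ℕ} {τ : ℝ} (hτ : 0 < τ) (ρ s : Fin K → ℝ) (hρ : ∀ i, |ρ i| ≤ τ) (hs : ∀ i, s i = 0 ∨ s i = 1)
    (n : ℕ) : ∫ ξ : Fin K → ℝ × ℝ, min 2 (2 * (qf τ ρ s ξ / 2) ^ n / n.factorial) ∂(mu K) ≤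
      2 * (1 / 4) ^ n + 2 ^ (K + 1) * Real.exp (-(n / (48 * τ))) := by
  obtain ⟨G, hG⟩ : ∃ G : ℝ × ℝ → ℝ, G = fun ξ => Real.exp (ξ.1 ^ 2 / 4) * Real.exp (ξ.2 ^ 2 / 4) := ⟨_, rfl⟩
  have hGi : Integrable G (gs.prod gs) := by
    rw [hG]
    exact gexp_int.mul_prod gexp_int
  have hGv : ∫ ξ, G ξ ∂(gs.prod gs) = 2 := by
    rw [hG]
    rw [integral_prod_mul (fun ξ : ℝ => Real.exp (ξ ^ 2 / 4)) (fun ξ : ℝ => Real.exp (ξ ^ 2 / 4)), gexp]
    exact Real.mul_self_sqrt (by norm_num)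
  have hPi : Integrable (fun ξ : Fin K → ℝ × ℝ => ∏ i, G (ξ i)) (mu K) :=
    Integrable.fintype_prod (f := fun _ : Fin K => G) (fun _ => hGi)
  have hPv : ∫ ξ : Fin K → ℝ × ℝ, ∏ i, G (ξ i) ∂(mu K) = 2 ^ K := by
    have h := integral_fintype_prod_eq_prod (𝕜 := ℝ) (μ := fun _ : Fin K => gs.prod gs)
      (fun (_ : Fin K) (ξ : ℝ × ℝ) => G ξ)
    rw [h, hGv, Finset.prod_const, Finset.card_univ, Fintype.card_fin]
  have hq0 : ∀ ξ, 0 ≤ qf τ ρ s ξ := fun ξ => Finset.sum_nonneg fun i _ => by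
    rcases hs i with h | h
    · rw [h]; exact bq_nonneg (hρ i) le_rfl zero_le_one _
    · rw [h]; exact bq_nonneg (hρ i) zero_le_one le_rfl _
  have hqle : ∀ ξ, qf τ ρ s ξ / 2 ≤ τ * ∑ i, ((ξ i).1 ^ 2 + (ξ i).2 ^ 2) := by
    intro ξ
    have : qf τ ρ s ξ ≤ ∑ i, 2 * τ * ((ξ i).1 ^ 2 + (ξ i).2 ^ 2) := Finset.sum_le_sum fun i _ => by
      rcases hs i with h | h
      · rw [h]; exact bq_le (hρ i) le_rfl zero_le_one _
      · rw [h]; exact bq_le (hρ i) zero_le_one le_rfl _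
    rw [← Finset.mul_sum] at this
    linarith
  have hpt : ∀ ξ : Fin K → ℝ × ℝ, min 2 (2 * (qf τ ρ s ξ / 2) ^ n / n.factorial) ≤
      2 * (1 / 4) ^ n + 2 * (Real.exp (-(n / (48 * τ))) * ∏ i, G (ξ i)) := by
    intro ξ
    have h1 := min_bd hτ (r := ∑ i, ((ξ i).1 ^ 2 + (ξ i).2 ^ 2)) (Finset.sum_nonneg fun i _ => by positivity) n
    have e : Real.exp ((∑ i, ((ξ i).1 ^ 2 + (ξ i).2 ^ 2)) / 4) = ∏ i, G (ξ i) := by
      rw [hG, Finset.sum_div, Real.exp_sum]
      refine Finset.prod_congr rfl fun i _ => ?_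
      beta_reduce
      rw [← Real.exp_add]
      congr 1
      ring
    rw [e] at h1
    refine le_trans (min_le_min_left _ ?_) h1
    have hf : (0 : ℝ) < n.factorial := by exact_mod_cast Nat.factorial_pos n
    have := hq0 ξ
    have := hqle ξ
    gcongr
  have hint1 : Integrable (fun ξ : Fin K → ℝ × ℝ => min 2 (2 * (qf τ ρ s ξ / 2) ^ n / n.factorial)) (mu K) := by
    refine Integrable.of_bound (C := 2) ?_ (Eventually.of_forall fun ξ => ?_)
    · refine Continuous.aestronglyMeasurable ?_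
      have := qf_cont τ ρ s
      fun_prop
    · have h1 : 0 ≤ 2 * (qf τ ρ s ξ / 2) ^ n / n.factorial := by
        have := hq0 ξ
        positivity
      rw [Real.norm_of_nonneg (le_min (by norm_num) h1)]
      exact min_le_left _ _
  refine (integral_mono hint1 ((integrable_const _).add ((hPi.const_mul _).const_mul _)) hpt).trans ?_
  have e2 : ∫ ξ : Fin K → ℝ × ℝ, (2 * (1 / 4 : ℝ) ^ n + 2 * (Real.exp (-(n / (48 * τ))) * ∏ i, G (ξ i))) ∂(mu K) =
      2 * (1 / 4) ^ n + 2 * (Real.exp (-(n / (48 * τ))) * 2 ^ K) := by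
    rw [integral_add (integrable_const _) ((hPi.const_mul _).const_mul _), integral_const]
    rw [MeasureTheory.integral_const_mul, MeasureTheory.integral_const_mul, hPv]
    simp
  have e3 : (fun ξ : Fin K → ℝ × ℝ => 2 * (1 / 4 : ℝ) ^ n) + (fun ξ : Fin K → ℝ × ℝ =>
      2 * (Real.exp (-(n / (48 * τ))) * ∏ i, G (ξ i))) = fun ξ : Fin K → ℝ × ℝ => (2 * (1 / 4 : ℝ) ^ n +
      2 * (Real.exp (-(n / (48 * τ))) * ∏ i, G (ξ i))) := rfl
  refine le_trans (le_of_eq ?_) (le_of_eq (e2.trans ?_))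
  · rfl
  · rw [pow_succ]; ring

/-- **the transfer** -/
theorem transfer {K : ℕ} {τ : ℝ} (hτ : 0 < τ) (ρ s : Fin K → ℝ) (hρ : ∀ i, |ρ i| ≤ τ)
    (hs : ∀ i, s i = 0 ∨ s i = 1) (x : ℝ) (n : ℕ) (W : ℝ → ℝ → Fin K → ℝ × ℝ) (hW : ∀ T, Continuous (W T))
    (hchar : ∀ ξ : Fin K → ℝ × ℝ, ∀ η : ℝ, 0 < η → ∀ᶠ T in atTop,
      ‖av T (fun t => cexp (I * (lf s ξ (W T t) : ℂ))) - cexp ((-(qf τ ρ s ξ / 2) : ℝ) : ℂ)‖ ≤
        2 * (qf τ ρ s ξ / 2) ^ n / n.factorial + η) (η : ℝ) (hη : 0 < η) :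
    ∀ᶠ T : ℝ in atTop, |1 / T * (∫ t in T..(2 * T), ∏ i, bump x (s i) (W T t i)) - ∏ i, bv τ (ρ i) (s i) x| ≤
      2 * (1 / 4) ^ n + 2 ^ (K + 1) * Real.exp (-(n / (48 * τ))) + η := by
  have hs2 : ∀ i, s i ^ 2 = s i := fun i => by rcases hs i with h | h <;> rw [h] <;> norm_num
  have hq0 : ∀ ξ, 0 ≤ qf τ ρ s ξ := fun ξ => Finset.sum_nonneg fun i _ => by
    rcases hs i with h | h
    · rw [h]; exact bq_nonneg (hρ i) le_rfl zero_le_one _
    · rw [h]; exact bq_nonneg (hρ i) zero_le_one le_rfl _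
  obtain ⟨b, hb⟩ : ∃ b : (Fin K → ℝ × ℝ) → ℝ, b = fun ξ => min 2 (2 * (qf τ ρ s ξ / 2) ^ n / n.factorial) := ⟨_, rfl⟩
  have hb0 : ∀ ξ, 0 ≤ b ξ := fun ξ => by
    rw [hb]
    have := hq0 ξ
    exact le_min (by norm_num) (by positivity)
  have hb2 : ∀ ξ, b ξ ≤ 2 := fun ξ => by rw [hb]; exact min_le_left _ _
  have hbc : Continuous b := by
    rw [hb]
    have := qf_cont τ ρ s
    fun_prop
  obtain ⟨φ, hφ⟩ : ∃ φ : ℝ → (Fin K → ℝ × ℝ) → ℂ, φ = fun T ξ => av T (fun t => cexp (I * (lf s ξ (W T t) : ℂ))) :=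
    ⟨_, rfl⟩
  have hφc : ∀ T, Continuous (φ T) := by
    intro T
    rw [hφ]
    unfold av
    refine continuous_const.mul ?_
    refine intervalIntegral.continuous_parametric_intervalIntegral_of_continuous' ?_ _ _
    have h1 : Continuous fun p : (Fin K → ℝ × ℝ) × ℝ => lf s p.1 (W T p.2) :=
      (lf_cont s).comp (continuous_fst.prodMk ((hW T).comp continuous_snd))
    show Continuous fun p : (Fin K → ℝ × ℝ) × ℝ => cexp (I * (lf s p.1 (W T p.2) : ℂ))
    fun_prop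
  have hφ1 : ∀ T : ℝ, 0 < T → ∀ ξ, ‖φ T ξ‖ ≤ 1 := by
    intro T hT ξ
    rw [hφ]
    unfold av
    rw [norm_mul, Complex.norm_real, Real.norm_of_nonneg (by positivity)]
    have h1 : ‖∫ t in T..(2 * T), cexp (I * (lf s ξ (W T t) : ℂ))‖ ≤ 1 * |2 * T - T| :=
      intervalIntegral.norm_integral_le_of_norm_le_const fun t _ => by
        rw [mul_comm, Complex.norm_exp_ofReal_mul_I]
    rw [one_mul, abs_of_nonneg (by linarith)] at h1
    calc 1 / T * ‖∫ t in T..(2 * T), cexp (I * (lf s ξ (W T t) : ℂ))‖ ≤ 1 / T * (2 * T - T) :=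
          mul_le_mul_of_nonneg_left h1 (by positivity)
      _ = 1 := by field_simp; ring
  obtain ⟨ψ, hψ⟩ : ∃ ψ : (Fin K → ℝ × ℝ) → ℂ, ψ = fun ξ => cexp ((-(qf τ ρ s ξ / 2) : ℝ) : ℂ) := ⟨_, rfl⟩
  have hψc : Continuous ψ := by
    rw [hψ]
    have := qf_cont τ ρ s
    fun_prop
  have hψ1 : ∀ ξ, ‖ψ ξ‖ ≤ 1 := by
    intro ξ
    rw [hψ]
    simp only
    rw [← Complex.ofReal_exp, Complex.norm_real, Real.norm_of_nonneg (Real.exp_pos _).le, Real.exp_le_one_iff]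
    linarith [hq0 ξ]
  -- the defect
  obtain ⟨g, hg⟩ : ∃ g : ℝ → (Fin K → ℝ × ℝ) → ℝ, g = fun T ξ => max 0 (‖φ T ξ - ψ ξ‖ - b ξ) := ⟨_, rfl⟩
  have hgc : ∀ T, Continuous (g T) := by
    intro T
    rw [hg]
    have := hφc T
    fun_prop
  have hg0 : ∀ T ξ, 0 ≤ g T ξ := fun T ξ => by rw [hg]; exact le_max_left _ _
  have hD2 : ∀ T : ℝ, 0 < T → ∀ ξ, ‖φ T ξ - ψ ξ‖ ≤ 2 := fun T hT ξ => by
    have := norm_sub_le (φ T ξ) (ψ ξ)
    linarith [hφ1 T hT ξ, hψ1 ξ]
  have hg2 : ∀ T : ℝ, 0 < T → ∀ ξ, g T ξ ≤ 2 := fun T hT ξ => by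
    rw [hg]
    apply max_le (by norm_num)
    linarith [hD2 T hT ξ, hb0 ξ]
  have hlim : Tendsto (fun T => ∫ ξ, g T ξ ∂(mu K)) atTop (𝓝 (∫ _ : Fin K → ℝ × ℝ, (0 : ℝ) ∂(mu K))) := by
    refine tendsto_integral_filter_of_dominated_convergence (fun _ => 2) ?_ ?_ (integrable_const _) ?_
    · exact Eventually.of_forall fun T => (hgc T).aestronglyMeasurable
    · filter_upwards [eventually_gt_atTop (0 : ℝ)] with T hT
      refine Eventually.of_forall fun ξ => ?_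
      rw [Real.norm_of_nonneg (hg0 T ξ)]
      exact hg2 T hT ξ
    · refine Eventually.of_forall fun ξ => ?_
      rw [Metric.tendsto_nhds]
      intro ε hε
      filter_upwards [hchar ξ (ε / 2) (by positivity), eventually_gt_atTop (0 : ℝ)] with T h1 hT
      rw [Real.dist_eq, sub_zero, abs_of_nonneg (hg0 T ξ), hg]
      simp only
      rw [max_lt_iff]
      refine ⟨hε, ?_⟩
      have h2 : ‖φ T ξ - ψ ξ‖ ≤ 2 * (qf τ ρ s ξ / 2) ^ n / n.factorial + ε / 2 := by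
        rw [hφ, hψ]
        exact h1
      have h3 := hD2 T hT ξ
      rw [hb]
      simp only
      rcases min_choice (2 : ℝ) (2 * (qf τ ρ s ξ / 2) ^ n / n.factorial) with h4 | h4
      · rw [h4]; linarith
      · rw [h4]; linarith
  rw [integral_zero] at hlim
  filter_upwards [hlim.eventually_lt_const hη, eventually_gt_atTop (0 : ℝ)] with T h1 hT
  -- the two sides as integrals over the frequencies
  have hA : ((1 / T * (∫ t in T..(2 * T), ∏ i, bump x (s i) (W T t i)) : ℝ) : ℂ) =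
      ∫ ξ, cexp (-(I * (sf x s ξ : ℂ))) * φ T ξ ∂(mu K) := by
    rw [Complex.ofReal_mul, ← intervalIntegral.integral_ofReal]
    simp only [prod_bump s hs2 x]
    rw [intervalIntegral.integral_of_le (by linarith)]
    have hsw := integral_integral_swap (μ := volume.restrict (Ioc T (2 * T))) (ν := mu K)
      (f := fun t ξ => cexp (-(I * (sf x s ξ : ℂ))) * cexp (I * (lf s ξ (W T t) : ℂ))) (by
        refine Integrable.of_bound (C := 1) ?_ (Eventually.of_forall fun p => ?_)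
        · refine Continuous.aestronglyMeasurable ?_
          have h2 : Continuous fun p : ℝ × (Fin K → ℝ × ℝ) => lf s p.2 (W T p.1) :=
            (lf_cont s).comp (continuous_snd.prodMk ((hW T).comp continuous_fst))
          have h3 := sf_cont x s
          show Continuous fun p : ℝ × (Fin K → ℝ × ℝ) => cexp (-(I * (sf x s p.2 : ℂ))) *
            cexp (I * (lf s p.2 (W T p.1) : ℂ))
          fun_prop
        · show ‖cexp (-(I * (sf x s p.2 : ℂ))) * cexp (I * (lf s p.2 (W T p.1) : ℂ))‖ ≤ 1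
          have e : -(I * (sf x s p.2 : ℂ)) = ((-(sf x s p.2) : ℝ) : ℂ) * I := by push_cast; ring
          rw [norm_mul, e, Complex.norm_exp_ofReal_mul_I, mul_comm I, Complex.norm_exp_ofReal_mul_I, one_mul])
    rw [hsw, ← MeasureTheory.integral_const_mul]
    congr 1
    funext ξ
    rw [hφ]
    unfold av
    beta_reduce
    rw [intervalIntegral.integral_of_le (by linarith), MeasureTheory.integral_const_mul]
    ring
  have hB := prod_bv ρ s hρ hs x
  have e1 : |1 / T * (∫ t in T..(2 * T), ∏ i, bump x (s i) (W T t i)) - ∏ i, bv τ (ρ i) (s i) x| =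
      ‖∫ ξ, cexp (-(I * (sf x s ξ : ℂ))) * (φ T ξ - ψ ξ) ∂(mu K)‖ := by
    rw [← Real.norm_eq_abs, ← Complex.norm_real, Complex.ofReal_sub, hA, hB, ← integral_sub]
    · congr 2
      funext ξ
      rw [hψ]
      ring
    · refine Integrable.of_bound (C := 1) ?_ (Eventually.of_forall fun ξ => ?_)
      · have h2 := hφc T
        have h3 := sf_cont x s
        exact Continuous.aestronglyMeasurable (by fun_prop)
      · have e : -(I * (sf x s ξ : ℂ)) = ((-(sf x s ξ) : ℝ) : ℂ) * I := by push_cast; ring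
        rw [norm_mul, e, Complex.norm_exp_ofReal_mul_I, one_mul]
        exact hφ1 T hT ξ
    · refine Integrable.of_bound (C := 1) ?_ (Eventually.of_forall fun ξ => ?_)
      · have h2 := qf_cont τ ρ s
        have h3 := sf_cont x s
        exact Continuous.aestronglyMeasurable (by fun_prop)
      · have e : -(I * (sf x s ξ : ℂ)) = ((-(sf x s ξ) : ℝ) : ℂ) * I := by push_cast; ring
        rw [norm_mul, e, Complex.norm_exp_ofReal_mul_I, one_mul]
        have := hψ1 ξ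
        rw [hψ] at this
        exact this
  rw [e1]
  have hgi : Integrable (g T) (mu K) := Integrable.of_bound (hgc T).aestronglyMeasurable 2
    (Eventually.of_forall fun ξ => by rw [Real.norm_of_nonneg (hg0 T ξ)]; exact hg2 T hT ξ)
  have hbi : Integrable b (mu K) := Integrable.of_bound hbc.aestronglyMeasurable 2
    (Eventually.of_forall fun ξ => by rw [Real.norm_of_nonneg (hb0 ξ)]; exact hb2 ξ)
  have h2 : ‖∫ ξ, cexp (-(I * (sf x s ξ : ℂ))) * (φ T ξ - ψ ξ) ∂(mu K)‖ ≤ ∫ ξ, (g T ξ + b ξ) ∂(mu K) := by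
    refine norm_integral_le_of_norm_le (hgi.add hbi) (Eventually.of_forall fun ξ => ?_)
    have e : -(I * (sf x s ξ : ℂ)) = ((-(sf x s ξ) : ℝ) : ℂ) * I := by push_cast; ring
    rw [norm_mul, e, Complex.norm_exp_ofReal_mul_I, one_mul, hg]
    have := le_max_right 0 (‖φ T ξ - ψ ξ‖ - b ξ)
    linarith
  have h3 := err_int hτ ρ s hρ hs n
  rw [integral_add hgi hbi] at h2
  have h4 : ∫ ξ, b ξ ∂(mu K) ≤ 2 * (1 / 4) ^ n + 2 ^ (K + 1) * Real.exp (-(n / (48 * τ))) := by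
    rw [hb]
    exact h3
  linarith

end

end Run7.h435.MD
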