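import Pool.Agent.Run7.h435.MDba
import Pool.Agent.Run7.h435.MDb
import Pool.Agent.Run7.h435.MDc

/-! # The levels of the prime sum -/

set_option autoImplicit false

namespace Run7.h435.MD

open Filter Topology MeasureTheory Set Complex
open Pool.Agent.Y743.CL (Pr mem_Pr)

noncomputable section
/-- the length -/
def XX (b T : ℝ) : ℕ := max 1 ⌊T ^ b⌋₊

/-- the coefficients of a level -/
def lv (a b T : ℝ) (p : ℕ) : ℂ :=
  if a < Real.log p / Real.log T ∧ Real.log p / Real.log T ≤ b then (((Real.sqrt p)⁻¹ : ℝ) : ℂ) else 0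

/-- the endpoints of the levels -/
def ue (a τ : ℝ) (i : ℕ) : ℝ := a * Real.exp (2 * τ * i)

/-- the value of a level -/
def Yl (b0 a b T t : ℝ) : ℝ := (Gp (lv a b T) (XX b0 T) t).im

lemma XX_pos (b T : ℝ) : 1 ≤ XX b T := le_max_left _ _

lemma XX_pow {b : ℝ} (hb : 0 ≤ b) (k : ℕ) (hk : k * b ≤ 1 / 2) {T : ℝ} (hT : 1 ≤ T) :
    (((XX b T) ^ k : ℕ) : ℝ) ≤ Real.sqrt T := by
  have h1 : (XX b T : ℝ) ≤ T ^ b := by
    unfold XX
    rw [Nat.cast_max, Nat.cast_one]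
    exact max_le (Real.one_le_rpow hT hb) (Nat.floor_le (by positivity))
  have hT0 : 0 ≤ T := by linarith
  calc (((XX b T) ^ k : ℕ) : ℝ) = (XX b T : ℝ) ^ k := by push_cast; ring
    _ ≤ (T ^ b) ^ k := pow_le_pow_left₀ (Nat.cast_nonneg _) h1 k
    _ = T ^ (b * k) := by rw [← Real.rpow_natCast, ← Real.rpow_mul hT0]
    _ ≤ T ^ (1 / 2 : ℝ) := Real.rpow_le_rpow_of_exponent_le hT (by linarith)
    _ = Real.sqrt T := (Real.sqrt_eq_rpow T).symm

/-- primes up to `T ^ b` -/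
lemma mem_range {b T : ℝ} (hT : 1 < T) {p : ℕ} (hp : p.Prime) (h : Real.log p / Real.log T ≤ b) :
    p ∈ Pr (XX b T) := by
  have hL : 0 < Real.log T := Real.log_pos hT
  have hp0 : (0 : ℝ) < p := by exact_mod_cast hp.pos
  rw [mem_Pr]
  refine ⟨hp, ?_⟩
  unfold XX
  refine le_trans ?_ (le_max_right _ _)
  apply Nat.le_floor
  rw [Real.rpow_def_of_pos (by linarith), ← Real.log_le_iff_le_exp hp0]
  rw [div_le_iff₀ hL] at h
  linarith

lemma mem_rangeT {T : ℝ} (hT : 1 < T) {p : ℕ} (hp : p.Prime) (h : Real.log p / Real.log T ≤ 1) :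
    p ∈ Pr ⌊T⌋₊ := by
  have hL : 0 < Real.log T := Real.log_pos hT
  have hp0 : (0 : ℝ) < p := by exact_mod_cast hp.pos
  rw [mem_Pr]
  refine ⟨hp, ?_⟩
  apply Nat.le_floor
  rw [div_le_one hL] at h
  exact (Real.log_le_log_iff hp0 (by linarith)).1 h

/-- change of the range of summation -/
lemma sum_range_eq {b b0 T : ℝ} (hT : 1 < T) (hbb : b ≤ b0) (hb1 : b ≤ 1) (f : ℕ → ℝ)
    (hf : ∀ p : ℕ, b < Real.log p / Real.log T → f p = 0) :
    ∑ p ∈ Pr (XX b0 T), f p = ∑ p ∈ Pr ⌊T⌋₊, f p := by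
  have e : ∀ S : Finset ℕ, (∀ p ∈ S, p.Prime) → ∑ p ∈ S, f p =
      ∑ p ∈ S.filter (fun p : ℕ => Real.log p / Real.log T ≤ b), f p := by
    intro S hS
    symm
    refine Finset.sum_subset (Finset.filter_subset _ _) fun p hp hn => ?_
    apply hf
    rw [Finset.mem_filter, not_and] at hn
    exact not_le.1 (hn hp)
  rw [e _ (fun p hp => (mem_Pr.1 hp).1), e (Pr ⌊T⌋₊) (fun p hp => (mem_Pr.1 hp).1)]
  congr 1
  refine Finset.Subset.antisymm (fun p h => ?_) (fun p h => ?_)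
  · have h' := Finset.mem_filter.1 h
    exact Finset.mem_filter.2 ⟨mem_rangeT hT (mem_Pr.1 h'.1).1 (h'.2.trans hb1), h'.2⟩
  · have h' := Finset.mem_filter.1 h
    exact Finset.mem_filter.2 ⟨mem_range hT (mem_Pr.1 h'.1).1 (h'.2.trans hbb), h'.2⟩

/-- shifts -/
lemma Gp_shift (β : ℕ → ℂ) (X : ℕ) (t h : ℝ) :
    Gp β X (t + h) = Gp (fun p => β p * (p : ℂ) ^ (-(h : ℂ) * I)) X t := by
  unfold Gp
  refine Finset.sum_congr rfl fun p hp => ?_
  have hp0 : (p : ℂ) ≠ 0 := by exact_mod_cast (mem_Pr.1 hp).1.ne_zero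
  have e : -((t + h : ℝ) : ℂ) * I = -(h : ℂ) * I + -(t : ℂ) * I := by push_cast; ring
  rw [e, Complex.cpow_add _ _ hp0, mul_assoc]

lemma Gp_sum {ι : Type*} (s : Finset ι) (c : ι → ℂ) (β : ι → ℕ → ℂ) (X : ℕ) (t : ℝ) :
    ∑ i ∈ s, c i * Gp (β i) X t = Gp (fun p => ∑ i ∈ s, c i * β i p) X t := by
  unfold Gp
  simp only [Finset.mul_sum]
  rw [Finset.sum_comm]
  refine Finset.sum_congr rfl fun p _ => ?_
  rw [Finset.sum_mul]
  refine Finset.sum_congr rfl fun i _ => ?_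
  ring

lemma npow_exp {p : ℕ} (hp : p ≠ 0) (h : ℝ) : (p : ℂ) ^ (-(h : ℂ) * I) = cexp (((-(h * Real.log p) : ℝ) : ℂ) * I) := by
  have hp0 : (p : ℂ) ≠ 0 := by exact_mod_cast hp
  rw [Complex.cpow_def_of_ne_zero hp0, ← Complex.natCast_log]
  congr 1
  push_cast
  ring

lemma npow_norm {p : ℕ} (hp : p ≠ 0) (h : ℝ) : ‖(p : ℂ) ^ (-(h : ℂ) * I)‖ = 1 := by
  rw [npow_exp hp, Complex.norm_exp_ofReal_mul_I]

/-- the square of a combination of two shifts -/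
lemma two_sq {p : ℕ} (hp : p ≠ 0) (h1 h2 x y : ℝ) :
    ‖(x : ℂ) * (p : ℂ) ^ (-(h1 : ℂ) * I) + (y : ℂ) * (p : ℂ) ^ (-(h2 : ℂ) * I)‖ ^ 2 =
      x ^ 2 + y ^ 2 + 2 * (x * y) * Real.cos ((h1 - h2) * Real.log p) := by
  rw [npow_exp hp, npow_exp hp, ← Complex.normSq_eq_norm_sq, Complex.normSq_apply]
  rw [Complex.exp_ofReal_mul_I, Complex.exp_ofReal_mul_I]
  simp only [Complex.add_re, Complex.add_im, Complex.mul_re, Complex.mul_im, Complex.ofReal_re, Complex.ofReal_im,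
    Complex.I_re, Complex.I_im, zero_mul, sub_zero, add_zero, mul_zero, mul_one, zero_add]
  have e : (h1 - h2) * Real.log p = h1 * Real.log p - h2 * Real.log p := by ring
  rw [e, Real.cos_sub, Real.cos_neg, Real.cos_neg, Real.sin_neg, Real.sin_neg]
  have c1 := Real.sin_sq_add_cos_sq (h1 * Real.log p)
  have c2 := Real.sin_sq_add_cos_sq (h2 * Real.log p)
  linear_combination x ^ 2 * c1 + y ^ 2 * c2

/-- lower end -/
def am (δ L : ℝ) : ℝ := Real.exp (-((1 - δ) * L))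

/-- upper end -/
def bm (δ L : ℝ) : ℝ := Real.exp (-(δ * L))

/-- the main part of the prime sum -/
def Pm (δ L T t : ℝ) : ℝ := Yl (bm δ L) (am δ L) (bm δ L) T t

end

end Run7.h435.MD
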