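import Pool.Agent.Run7.h435.MDe
import Pool.Agent.Run7.h435.MDf

/-! # The characteristic function of the levels at two points -/

set_option autoImplicit false

namespace Run7.h435.MD

open Filter Topology MeasureTheory Set Complex
open Pool.Agent.Y743.CL (Pr mem_Pr)

noncomputable section

lemma ue_pos {a : ℝ} (ha : 0 < a) (τ : ℝ) (i : ℕ) : 0 < ue a τ i := mul_pos ha (Real.exp_pos _)

lemma ue_mono {a τ : ℝ} (ha : 0 < a) (hτ : 0 ≤ τ) {i j : ℕ} (h : i ≤ j) : ue a τ i ≤ ue a τ j := by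
  unfold ue
  have : (i : ℝ) ≤ j := by exact_mod_cast h
  gcongr

lemma ue_zero (a τ : ℝ) : ue a τ 0 = a := by unfold ue; simp

lemma ue_ratio {a : ℝ} (ha : 0 < a) (τ : ℝ) (i : ℕ) : Real.log (ue a τ (i + 1) / ue a τ i) = 2 * τ := by
  have e : ue a τ (i + 1) / ue a τ i = Real.exp (2 * τ) := by
    unfold ue
    rw [mul_div_mul_left _ _ ha.ne', ← Real.exp_sub]
    congr 1
    push_cast
    ring
  rw [e, Real.log_exp]

/-- the covariance of a level at distance `d` -/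
def rh (a τ d : ℝ) (i : ℕ) : ℝ := cc (ue a τ i) (ue a τ (i + 1)) d / 2

lemma rh_le {a τ : ℝ} (ha : 0 < a) (hτ : 0 ≤ τ) (d : ℝ) (i : ℕ) : |rh a τ d i| ≤ τ := by
  have h := cc_le (ue_pos ha τ i) (ue_mono ha hτ (Nat.le_succ i)) d
  rw [ue_ratio ha] at h
  unfold rh
  rw [abs_div, abs_of_pos (by norm_num : (0 : ℝ) < 2)]
  linarith

lemma rh_decay {a τ : ℝ} (ha : 0 < a) (hτ : 0 ≤ τ) {d : ℝ} (hd : d ≠ 0) (i : ℕ) :
    |rh a τ d i| ≤ 1 / (|d| * ue a τ i) := by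
  have h := cc_decay (ue_pos ha τ i) (ue_mono ha hτ (Nat.le_succ i)) hd
  have hu := ue_pos ha τ i
  have hd0 : 0 < |d| := abs_pos.2 hd
  unfold rh
  rw [abs_div, abs_of_pos (by norm_num : (0 : ℝ) < 2)]
  have h2 : 1 / (Real.pi * |d| * ue a τ i) ≤ 1 / (|d| * ue a τ i) := by
    apply one_div_le_one_div_of_le (by positivity)
    have : 1 ≤ Real.pi := by linarith [Real.pi_gt_three]
    have h3 : 0 < |d| * ue a τ i := by positivity
    nlinarith
  have h3 : 0 ≤ 1 / (|d| * ue a τ i) := by positivity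
  linarith

lemma Gp_lin (β : ℕ → ℂ) (X : ℕ) (t h1 h2 : ℝ) (x y : ℂ) :
    x * Gp β X (t + h1) + y * Gp β X (t + h2) =
      Gp (fun p => β p * (x * (p : ℂ) ^ (-(h1 : ℂ) * I) + y * (p : ℂ) ^ (-(h2 : ℂ) * I))) X t := by
  rw [Gp_shift, Gp_shift]
  unfold Gp
  rw [Finset.mul_sum, Finset.mul_sum, ← Finset.sum_add_distrib]
  refine Finset.sum_congr rfl fun p _ => ?_
  ring

/-- the fields of the levels at two points -/
def Wf (K : ℕ) (a τ j1 j2 T t : ℝ) (i : Fin K) : ℝ × ℝ :=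
  (Yl (ue a τ K) (ue a τ i) (ue a τ (i + 1)) T (t + 2 * Real.pi * j1 / Real.log T),
    Yl (ue a τ K) (ue a τ i) (ue a τ (i + 1)) T (t + 2 * Real.pi * j2 / Real.log T))

lemma Yl_cont (b0 a b T : ℝ) : Continuous (Yl b0 a b T) := Complex.continuous_im.comp (Gp_cont _ _)

lemma Wf_cont (K : ℕ) (a τ j1 j2 T : ℝ) : Continuous (Wf K a τ j1 j2 T) := by
  refine continuous_pi fun i => ?_
  unfold Wf
  exact ((Yl_cont _ _ _ _).comp (by fun_prop)).prodMk ((Yl_cont _ _ _ _).comp (by fun_prop))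

/-- the coefficients of the linear form -/
def bt {K : ℕ} (a τ j1 j2 : ℝ) (s : Fin K → ℝ) (ξ : Fin K → ℝ × ℝ) (T : ℝ) (p : ℕ) : ℂ :=
  ∑ i : Fin K, (-I) * (lv (ue a τ i) (ue a τ (i + 1)) T p *
    (((ξ i).1 : ℂ) * (p : ℂ) ^ (-((2 * Real.pi * j1 / Real.log T : ℝ) : ℂ) * I) +
      ((s i * (ξ i).2 : ℝ) : ℂ) * (p : ℂ) ^ (-((2 * Real.pi * j2 / Real.log T : ℝ) : ℂ) * I)))

lemma lf_eq {K : ℕ} (a τ j1 j2 : ℝ) (s : Fin K → ℝ) (ξ : Fin K → ℝ × ℝ) (T t : ℝ) :
    lf s ξ (Wf K a τ j1 j2 T t) = (Gp (bt a τ j1 j2 s ξ T) (XX (ue a τ K) T) t).re := by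
  have h := Gp_sum (Finset.univ : Finset (Fin K)) (fun _ => -I) (fun i p => lv (ue a τ i) (ue a τ (i + 1)) T p *
    (((ξ i).1 : ℂ) * (p : ℂ) ^ (-((2 * Real.pi * j1 / Real.log T : ℝ) : ℂ) * I) +
      ((s i * (ξ i).2 : ℝ) : ℂ) * (p : ℂ) ^ (-((2 * Real.pi * j2 / Real.log T : ℝ) : ℂ) * I))) (XX (ue a τ K) T) t
  have e : Gp (bt a τ j1 j2 s ξ T) (XX (ue a τ K) T) t = Gp (fun p => ∑ i : Fin K, (-I) *
    (lv (ue a τ i) (ue a τ (i + 1)) T p *
    (((ξ i).1 : ℂ) * (p : ℂ) ^ (-((2 * Real.pi * j1 / Real.log T : ℝ) : ℂ) * I) +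
      ((s i * (ξ i).2 : ℝ) : ℂ) * (p : ℂ) ^ (-((2 * Real.pi * j2 / Real.log T : ℝ) : ℂ) * I)))) (XX (ue a τ K) T) t := rfl
  rw [e, ← h, Complex.re_sum]
  unfold lf Wf Yl
  refine Finset.sum_congr rfl fun i _ => ?_
  rw [← Gp_lin]
  simp only [neg_mul, Complex.neg_re, Complex.I_mul_re, neg_neg, Complex.add_im, Complex.mul_im,
    Complex.ofReal_re, Complex.ofReal_im, zero_mul, add_zero]
  ring

lemma sq_single {K : ℕ} (z : Fin K → ℂ) (hz : ∀ i j, i ≠ j → z i = 0 ∨ z j = 0) :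
    ‖∑ i, z i‖ ^ 2 = ∑ i, ‖z i‖ ^ 2 := by
  by_cases h : ∃ i, z i ≠ 0
  · obtain ⟨i, hi⟩ := h
    have h0 : ∀ j, j ≠ i → z j = 0 := fun j hj => by
      rcases hz i j (Ne.symm hj) with h1 | h1
      · exact absurd h1 hi
      · exact h1
    rw [Finset.sum_eq_single i (fun j _ hj => h0 j hj) (fun h => absurd (Finset.mem_univ i) h),
      Finset.sum_eq_single i (fun j _ hj => by rw [h0 j hj]; simp) (fun h => absurd (Finset.mem_univ i) h)]
  · push Not at h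
    simp [h]

lemma lv_disj {K : ℕ} {a τ : ℝ} (ha : 0 < a) (hτ : 0 ≤ τ) (T : ℝ) (p : ℕ) (i j : Fin K) (hij : i ≠ j) :
    lv (ue a τ i) (ue a τ (i + 1)) T p = 0 ∨ lv (ue a τ j) (ue a τ (j + 1)) T p = 0 := by
  have key : ∀ i j : ℕ, i < j → lv (ue a τ i) (ue a τ (i + 1)) T p = 0 ∨ lv (ue a τ j) (ue a τ (j + 1)) T p = 0 := by
    intro i j h
    by_cases h1 : ue a τ j < Real.log p / Real.log T
    · left
      unfold lv
      rw [if_neg]
      rintro ⟨_, h2⟩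
      have := ue_mono ha hτ (Nat.succ_le_of_lt h)
      exact absurd (lt_of_lt_of_le h1 (h2.trans this)) (lt_irrefl _)
    · right
      unfold lv
      rw [if_neg]
      rintro ⟨h2, _⟩
      exact h1 h2
  rcases lt_or_gt_of_ne (fun h => hij (Fin.ext h) : (i : ℕ) ≠ j) with h | h
  · exact key i j h
  · exact (key j i h).symm

lemma sm_if (φ : ℝ → ℝ) (a b T : ℝ) : sm φ a b T = ∑ p ∈ Pr ⌊T⌋₊,
    (if a < Real.log p / Real.log T ∧ Real.log p / Real.log T ≤ b then φ (Real.log p / Real.log T) / p else 0) :=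
  Finset.sum_filter _ _

/-- the variance of the linear form -/
lemma VB_bt {K : ℕ} {a τ : ℝ} (ha : 0 < a) (hτ : 0 ≤ τ) (hb : ue a τ K ≤ 1) (j1 j2 : ℝ) (s : Fin K → ℝ)
    (ξ : Fin K → ℝ × ℝ) {T : ℝ} (hT : 1 < T) :
    VB (bt a τ j1 j2 s ξ T) (XX (ue a τ K) T) = ∑ i : Fin K,
      (((ξ i).1 ^ 2 + (s i * (ξ i).2) ^ 2) * sm (fun v => Real.cos (2 * Real.pi * 0 * v)) (ue a τ i) (ue a τ (i + 1)) T +
        2 * ((ξ i).1 * (s i * (ξ i).2)) * sm (fun v => Real.cos (2 * Real.pi * (j1 - j2) * v)) (ue a τ i)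
          (ue a τ (i + 1)) T) := by
  have hL : 0 < Real.log T := Real.log_pos hT
  have e1 : ∀ p ∈ Pr (XX (ue a τ K) T), ‖bt a τ j1 j2 s ξ T p‖ ^ 2 = ∑ i : Fin K,
      (if ue a τ i < Real.log p / Real.log T ∧ Real.log p / Real.log T ≤ ue a τ (i + 1) then
        ((ξ i).1 ^ 2 + (s i * (ξ i).2) ^ 2) * (1 / p) + 2 * ((ξ i).1 * (s i * (ξ i).2)) *
        (Real.cos (2 * Real.pi * (j1 - j2) * (Real.log p / Real.log T)) / p) else 0) := by
    intro p hp
    have hp0 : p ≠ 0 := (mem_Pr.1 hp).1.ne_zero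
    have hpr : (0 : ℝ) < p := by exact_mod_cast (mem_Pr.1 hp).1.pos
    unfold bt
    rw [sq_single]
    · refine Finset.sum_congr rfl fun i _ => ?_
      rw [norm_mul, norm_mul, norm_neg, Complex.norm_I, one_mul, mul_pow, two_sq hp0]
      unfold lv
      split_ifs with h
      · rw [Complex.norm_real, Real.norm_of_nonneg (by positivity), inv_pow, Real.sq_sqrt hpr.le]
        have e2 : (2 * Real.pi * j1 / Real.log T - 2 * Real.pi * j2 / Real.log T) * Real.log p =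
            2 * Real.pi * (j1 - j2) * (Real.log p / Real.log T) := by ring
        rw [e2]
        field_simp
      · simp
    · intro i j hij
      rcases lv_disj ha hτ T p i j hij with h | h
      · left; rw [h]; ring
      · right; rw [h]; ring
  unfold VB
  rw [Finset.sum_congr rfl e1, Finset.sum_comm]
  refine Finset.sum_congr rfl fun i _ => ?_
  have hi : ue a τ (i + 1) ≤ ue a τ K := ue_mono ha hτ (Nat.succ_le_of_lt i.2)
  rw [sum_range_eq hT hi (hi.trans hb) _ (fun p hp => by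
    rw [if_neg]
    rintro ⟨_, h⟩
    exact absurd hp (not_lt.2 h))]
  rw [sm_if, sm_if, Finset.mul_sum, Finset.mul_sum, ← Finset.sum_add_distrib]
  refine Finset.sum_congr rfl fun p _ => ?_
  split_ifs with h
  · rw [mul_zero, zero_mul, Real.cos_zero]
  · ring

/-- the size of the coefficients -/
lemma bt_bd {K : ℕ} {a τ : ℝ} (ha : 0 < a) (hτ : 0 ≤ τ) (j1 j2 : ℝ) (s : Fin K → ℝ)
    (ξ : Fin K → ℝ × ℝ) {T : ℝ} (hT : 1 < T) (p : ℕ) :
    ‖bt a τ j1 j2 s ξ T p‖ ^ 2 ≤ (∑ i : Fin K, (|(ξ i).1| + |s i * (ξ i).2|) ^ 2) * T ^ (-a) := by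
  have hL : 0 < Real.log T := Real.log_pos hT
  unfold bt
  rw [sq_single]
  · rw [Finset.sum_mul]
    refine Finset.sum_le_sum fun i _ => ?_
    by_cases h : ue a τ i < Real.log p / Real.log T ∧ Real.log p / Real.log T ≤ ue a τ (i + 1)
    · have h1 : a ≤ ue a τ i := by
        have := ue_mono ha hτ (Nat.zero_le i)
        rwa [ue_zero] at this
      have h2 : a * Real.log T < Real.log p := by
        have := lt_of_le_of_lt h1 h.1
        rwa [lt_div_iff₀ hL] at this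
      have hp0 : p ≠ 0 := by
        rintro rfl
        simp at h2
        have := mul_pos ha hL
        linarith
      have hpr : (0 : ℝ) < p := by exact_mod_cast Nat.pos_of_ne_zero hp0
      have h3 : (p : ℝ)⁻¹ ≤ T ^ (-a) := by
        rw [Real.rpow_neg (by linarith)]
        apply inv_anti₀ (by positivity)
        rw [Real.rpow_def_of_pos (by linarith)]
        rw [← Real.le_log_iff_exp_le hpr]
        linarith
      rw [norm_mul, norm_mul, norm_neg, Complex.norm_I, one_mul, mul_pow]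
      unfold lv
      rw [if_pos h, Complex.norm_real, Real.norm_of_nonneg (by positivity), inv_pow, Real.sq_sqrt hpr.le, mul_comm]
      refine mul_le_mul ?_ h3 (by positivity) (by positivity)
      apply pow_le_pow_left₀ (norm_nonneg _)
      refine (norm_add_le _ _).trans ?_
      rw [norm_mul, norm_mul, npow_norm hp0, npow_norm hp0, mul_one, mul_one, Complex.norm_real, Complex.norm_real,
        Real.norm_eq_abs, Real.norm_eq_abs]
    · unfold lv
      rw [if_neg h]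
      simp only [zero_mul, mul_zero, norm_zero]
      have : 0 ≤ (|(ξ i).1| + |s i * (ξ i).2|) ^ 2 * T ^ (-a) := by positivity
      simpa using this
  · intro i j hij
    rcases lv_disj ha hτ T p i j hij with h | h
    · left; rw [h]; ring
    · right; rw [h]; ring

/-- **the characteristic function of the levels** -/
theorem char_lev {K : ℕ} {a τ : ℝ} (ha : 0 < a) (hτ : 0 ≤ τ) (hb : ue a τ K < 1) (n : ℕ)
    (hn : 4 * n * ue a τ K ≤ 1) (j1 j2 : ℝ) (s : Fin K → ℝ) (hs : ∀ i, s i = 0 ∨ s i = 1) (ξ : Fin K → ℝ × ℝ)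
    (η : ℝ) (hη : 0 < η) : ∀ᶠ T in atTop,
      ‖av T (fun t => cexp (I * (lf s ξ (Wf K a τ j1 j2 T t) : ℂ))) -
        cexp ((-(qf τ (fun i : Fin K => rh a τ (j1 - j2) i) s ξ / 2) : ℝ) : ℂ)‖ ≤
        2 * (qf τ (fun i : Fin K => rh a τ (j1 - j2) i) s ξ / 2) ^ n / n.factorial + η := by
  obtain ⟨q, hq⟩ : ∃ q : ℝ, q = qf τ (fun i : Fin K => rh a τ (j1 - j2) i) s ξ := ⟨_, rfl⟩
  have hV : Tendsto (fun T => VB (bt a τ j1 j2 s ξ T) (XX (ue a τ K) T)) atTop (𝓝 (2 * q)) := by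
    have h1 : Tendsto (fun T => ∑ i : Fin K,
        (((ξ i).1 ^ 2 + (s i * (ξ i).2) ^ 2) * sm (fun v => Real.cos (2 * Real.pi * 0 * v)) (ue a τ i) (ue a τ (i + 1)) T +
        2 * ((ξ i).1 * (s i * (ξ i).2)) * sm (fun v => Real.cos (2 * Real.pi * (j1 - j2) * v)) (ue a τ i)
          (ue a τ (i + 1)) T)) atTop (𝓝 (∑ i : Fin K,
        (((ξ i).1 ^ 2 + (s i * (ξ i).2) ^ 2) * cc (ue a τ i) (ue a τ (i + 1)) 0 +
        2 * ((ξ i).1 * (s i * (ξ i).2)) * cc (ue a τ i) (ue a τ (i + 1)) (j1 - j2)))) := by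
      refine tendsto_finsetSum _ fun i _ => ?_
      have hi : ue a τ (i + 1) < 1 := lt_of_le_of_lt (ue_mono ha hτ (Nat.succ_le_of_lt i.2)) hb
      exact ((sm_cos (ue_pos ha τ i) (ue_mono ha hτ (Nat.le_succ i)) hi 0).const_mul _).add
        ((sm_cos (ue_pos ha τ i) (ue_mono ha hτ (Nat.le_succ i)) hi (j1 - j2)).const_mul _)
    have h2 : (∑ i : Fin K, (((ξ i).1 ^ 2 + (s i * (ξ i).2) ^ 2) * cc (ue a τ i) (ue a τ (i + 1)) 0 +
        2 * ((ξ i).1 * (s i * (ξ i).2)) * cc (ue a τ i) (ue a τ (i + 1)) (j1 - j2))) = 2 * q := by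
      rw [hq]
      unfold qf
      rw [Finset.mul_sum]
      refine Finset.sum_congr rfl fun i _ => ?_
      rw [cc_zero (ue_pos ha τ i) (ue_mono ha hτ (Nat.le_succ i)), ue_ratio ha]
      unfold bq rh
      have hs2 : s i ^ 2 = s i := by rcases hs i with h | h <;> rw [h] <;> norm_num
      linear_combination (2 * τ * (ξ i).2 ^ 2) * hs2
    rw [h2] at h1
    refine h1.congr' ?_
    filter_upwards [eventually_gt_atTop (1 : ℝ)] with T hT
    exact (VB_bt ha hτ hb.le j1 j2 s ξ hT).symm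
  have hM : Tendsto (fun T : ℝ => (∑ i : Fin K, (|(ξ i).1| + |s i * (ξ i).2|) ^ 2) * T ^ (-a)) atTop (𝓝 0) := by
    have := (tendsto_rpow_neg_atTop ha).const_mul (∑ i : Fin K, (|(ξ i).1| + |s i * (ξ i).2|) ^ 2)
    rwa [mul_zero] at this
  have h := charb (bt a τ j1 j2 s ξ) (fun T => XX (ue a τ K) T) _ hM (by
    filter_upwards [eventually_gt_atTop (1 : ℝ)] with T hT
    exact fun p => bt_bd ha hτ j1 j2 s ξ hT p) (2 * q) hV (fun T => XX_pos _ T) n (by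
    filter_upwards [eventually_ge_atTop (1 : ℝ)] with T hT
    refine XX_pow (ue_pos ha τ K).le (2 * n) ?_ hT
    push_cast
    linarith) η hη
  rw [← hq]
  filter_upwards [h] with T hT
  simp only [lf_eq]
  have e1 : 2 * q / 4 = q / 2 := by ring
  rw [e1] at hT
  have e2 : ((-(q / 2) : ℝ) : ℂ) = -((q / 2 : ℝ) : ℂ) := by push_cast; ring
  rw [e2]
  exact hT

/-- **two points** -/
theorem two_pt {K : ℕ} {a τ : ℝ} (ha : 0 < a) (hτ : 0 < τ) (hb : ue a τ K < 1) (n : ℕ)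
    (hn : 4 * n * ue a τ K ≤ 1) (j1 j2 : ℝ) (s : Fin K → ℝ) (hs : ∀ i, s i = 0 ∨ s i = 1) (x : ℝ)
    (η : ℝ) (hη : 0 < η) : ∀ᶠ T : ℝ in atTop,
    |1 / T * (∫ t in T..(2 * T), ∏ i, bump x (s i) (Wf K a τ j1 j2 T t i)) -
      ∏ i : Fin K, bv τ (rh a τ (j1 - j2) i) (s i) x| ≤
      2 * (1 / 4) ^ n + 2 ^ (K + 1) * Real.exp (-(n / (48 * τ))) + η :=
  transfer hτ (fun i : Fin K => rh a τ (j1 - j2) i) s (fun i => rh_le ha hτ.le _ _) hs x n
    (fun T => Wf K a τ j1 j2 T) (fun T => Wf_cont K a τ j1 j2 T)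
    (fun ξ η hη => char_lev ha hτ.le hb n hn j1 j2 s hs ξ η hη) η hη

end

end Run7.h435.MD
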