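import Pool.Agent.Run7.h435.MDg

/-! # The second moment of the number of high points -/

set_option autoImplicit false

namespace Run7.h435.MD

open Filter Topology MeasureTheory Set

noncomputable section

/-- the mean of a bump -/
def e1 (τ x : ℝ) : ℝ := 1 / Real.sqrt (1 + τ) * Real.exp (-(x ^ 2 / (2 * (1 + τ))))

lemma e1_pos {τ : ℝ} (hτ : 0 ≤ τ) (x : ℝ) : 0 < e1 τ x := by
  unfold e1
  have : 0 < Real.sqrt (1 + τ) := Real.sqrt_pos.2 (by linarith)
  positivity

lemma e1_le {τ : ℝ} (hτ : 0 ≤ τ) (x : ℝ) : e1 τ x ≤ 1 := by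
  unfold e1
  have h1 : 1 ≤ Real.sqrt (1 + τ) := Real.one_le_sqrt.2 (by linarith)
  have h2 : 1 / Real.sqrt (1 + τ) ≤ 1 := by
    rw [div_le_one (by linarith)]
    exact h1
  have h3 : Real.exp (-(x ^ 2 / (2 * (1 + τ)))) ≤ 1 := by
    rw [Real.exp_le_one_iff]
    have : 0 ≤ x ^ 2 / (2 * (1 + τ)) := by positivity
    linarith
  calc _ ≤ 1 * 1 := mul_le_mul h2 h3 (Real.exp_pos _).le zero_le_one
    _ = 1 := one_mul 1

lemma bv_zero (τ ρ x : ℝ) : bv τ ρ 0 x = e1 τ x := by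
  unfold bv e1
  rw [if_pos rfl]

/-- two almost independent bumps -/
lemma bv_one {τ ρ x : ℝ} (hτ : 0 ≤ τ) (hρ : |ρ| ≤ 1 / 2) (hx : x ^ 2 ≤ 4 * (1 + τ) ^ 2) :
    bv τ ρ 1 x ≤ e1 τ x ^ 2 * Real.exp (9 * |ρ|) := by
  unfold bv
  rw [if_neg one_ne_zero]
  have h0 := abs_le.1 hρ
  have hτ1 : 1 ≤ 1 + τ := by linarith
  have hρ2 : ρ ^ 2 ≤ 1 / 4 := by
    rw [← sq_abs]
    nlinarith [abs_nonneg ρ]
  have e2 : e1 τ x ^ 2 = 1 / (1 + τ) * Real.exp (-(x ^ 2 / (1 + τ))) := by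
    unfold e1
    rw [mul_pow, div_pow, one_pow, Real.sq_sqrt (by linarith), ← Real.exp_nat_mul]
    congr 2
    push_cast
    field_simp
  rw [e2]
  -- the first factor
  have h1 : 1 / Real.sqrt ((1 + τ) ^ 2 - ρ ^ 2) ≤ 1 / (1 + τ) * Real.exp |ρ| := by
    have h2 : (1 + τ) * Real.exp (-|ρ|) ≤ Real.sqrt ((1 + τ) ^ 2 - ρ ^ 2) := by
      apply Real.le_sqrt_of_sq_le
      rw [mul_pow, ← Real.exp_nat_mul]
      push_cast
      have h3 : Real.exp (2 * -|ρ|) ≤ 1 - ρ ^ 2 := by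
        have h4 : Real.exp (2 * -|ρ|) ≤ Real.exp (-(2 * ρ ^ 2)) := by
          apply Real.exp_le_exp.2
          have : ρ ^ 2 ≤ |ρ| := by
            rw [← sq_abs]
            nlinarith [abs_nonneg ρ]
          linarith
        refine h4.trans ?_
        rw [Real.exp_neg, inv_le_comm₀ (Real.exp_pos _) (by nlinarith)]
        have h5 := Real.add_one_le_exp (2 * ρ ^ 2)
        refine le_trans ?_ h5
        rw [inv_le_comm₀ (by nlinarith) (by positivity), inv_eq_one_div, div_le_iff₀ (by positivity)]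
        nlinarith [sq_nonneg ρ]
      have h6 : ρ ^ 2 ≤ (1 + τ) ^ 2 * ρ ^ 2 := by
        have : 1 ≤ (1 + τ) ^ 2 := by nlinarith
        exact le_mul_of_one_le_left (sq_nonneg ρ) this
      have h7 : (1 + τ) ^ 2 * Real.exp (2 * -|ρ|) ≤ (1 + τ) ^ 2 * (1 - ρ ^ 2) :=
        mul_le_mul_of_nonneg_left h3 (by positivity)
      linarith
    have h3 : 0 < (1 + τ) * Real.exp (-|ρ|) := by positivity
    calc 1 / Real.sqrt ((1 + τ) ^ 2 - ρ ^ 2) ≤ 1 / ((1 + τ) * Real.exp (-|ρ|)) :=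
          one_div_le_one_div_of_le h3 h2
      _ = 1 / (1 + τ) * Real.exp |ρ| := by
          rw [Real.exp_neg]
          field_simp
  have h2 : Real.exp (-(x ^ 2 / (1 + τ + ρ))) ≤ Real.exp (-(x ^ 2 / (1 + τ))) * Real.exp (8 * |ρ|) := by
    rw [← Real.exp_add]
    apply Real.exp_le_exp.2
    have h3 : x ^ 2 / (1 + τ) - x ^ 2 / (1 + τ + ρ) ≤ 8 * |ρ| := by
      have hp : 0 < 1 + τ + ρ := by linarith
      have e3 : x ^ 2 / (1 + τ) - x ^ 2 / (1 + τ + ρ) = x ^ 2 * ρ / ((1 + τ) * (1 + τ + ρ)) := by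
        field_simp
        ring
      rw [e3, div_le_iff₀ (by positivity)]
      have h4 : x ^ 2 * ρ ≤ 4 * (1 + τ) ^ 2 * |ρ| :=
        (mul_le_mul_of_nonneg_left (le_abs_self ρ) (sq_nonneg x)).trans
          (mul_le_mul_of_nonneg_right hx (abs_nonneg ρ))
      have h5 : (1 + τ) / 2 ≤ 1 + τ + ρ := by linarith
      have h6 : (1 + τ) * ((1 + τ) / 2) ≤ (1 + τ) * (1 + τ + ρ) := mul_le_mul_of_nonneg_left h5 (by linarith)
      have h7 := mul_le_mul_of_nonneg_left h6 (by positivity : 0 ≤ 8 * |ρ|)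
      linarith
    linarith
  calc 1 / Real.sqrt ((1 + τ) ^ 2 - ρ ^ 2) * Real.exp (-(x ^ 2 / (1 + τ + ρ))) ≤
      (1 / (1 + τ) * Real.exp |ρ|) * (Real.exp (-(x ^ 2 / (1 + τ))) * Real.exp (8 * |ρ|)) :=
        mul_le_mul h1 h2 (Real.exp_pos _).le (by positivity)
    _ = 1 / (1 + τ) * Real.exp (-(x ^ 2 / (1 + τ))) * Real.exp (9 * |ρ|) := by
        have : Real.exp (9 * |ρ|) = Real.exp |ρ| * Real.exp (8 * |ρ|) := by
          rw [← Real.exp_add]; congr 1; ring
        rw [this]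
        ring

/-- counting -/
lemma count_near (N j : ℕ) {y : ℝ} (hy : 0 < y) :
    (((Finset.Icc 1 N).filter (fun j' : ℕ => |(j : ℝ) - j'| < y)).card : ℝ) ≤ 2 * y + 1 := by
  obtain ⟨k, hk⟩ : ∃ k : ℕ, k = ⌈y⌉₊ - 1 := ⟨_, rfl⟩
  have hc : 1 ≤ ⌈y⌉₊ := Nat.ceil_pos.2 hy
  have hky : (k : ℝ) ≤ y := by
    have h1 := Nat.ceil_lt_add_one hy.le
    have h2 : (k : ℝ) = (⌈y⌉₊ : ℝ) - 1 := by
      rw [hk, Nat.cast_sub hc, Nat.cast_one]
    linarith
  have hsub : (Finset.Icc 1 N).filter (fun j' : ℕ => |(j : ℝ) - j'| < y) ⊆ Finset.Icc (j - k) (j + k) := by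
    intro j' hj'
    rw [Finset.mem_filter] at hj'
    have h1 : ∀ d : ℕ, (d : ℝ) < y → d ≤ k := by
      intro d hd
      have := Nat.lt_ceil.2 hd
      omega
    rw [Finset.mem_Icc]
    rcases le_total j j' with h | h
    · have h2 : ((j' - j : ℕ) : ℝ) < y := by
        rw [Nat.cast_sub h]
        have := (abs_lt.1 hj'.2).1
        linarith
      have := h1 _ h2
      omega
    · have h2 : ((j - j' : ℕ) : ℝ) < y := by
        rw [Nat.cast_sub h]
        have := (abs_lt.1 hj'.2).2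
        linarith
      have := h1 _ h2
      omega
  have h2 := Finset.card_le_card hsub
  rw [Nat.card_Icc] at h2
  have h3 : ((Finset.Icc 1 N).filter (fun j' : ℕ => |(j : ℝ) - j'| < y)).card ≤ 2 * k + 1 := by omega
  have h4 : (((Finset.Icc 1 N).filter (fun j' : ℕ => |(j : ℝ) - j'| < y)).card : ℝ) ≤ 2 * k + 1 := by
    exact_mod_cast h3
  linarith

/-- the ladder inequality -/
lemma ladder {E : ℝ} (hE : 1 ≤ E) (K : ℕ) (p : ℕ → Prop) [DecidablePred p] (hp : ∀ i j, i ≤ j → p j → p i) :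
    ∏ i ∈ Finset.range K, (if p i then E else 1) ≤ 1 + ∑ i ∈ Finset.range K, (if p i then E ^ (i + 1) else 0) := by
  induction K with
  | zero => simp
  | succ K ih =>
    rw [Finset.prod_range_succ, Finset.sum_range_succ]
    by_cases h : p K
    · rw [if_pos h, if_pos h]
      have h1 : ∏ i ∈ Finset.range K, (if p i then E else 1) = E ^ K := by
        rw [Finset.prod_congr rfl (fun i hi => if_pos (hp i K (Finset.mem_range.1 hi).le h)), Finset.prod_const,
          Finset.card_range]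
      rw [h1, ← pow_succ]
      have h2 : 0 ≤ ∑ i ∈ Finset.range K, (if p i then E ^ (i + 1) else 0) :=
        Finset.sum_nonneg fun i _ => by split_ifs <;> positivity
      linarith
    · rw [if_neg h, if_neg h, mul_one, add_zero]
      exact ih

/-- the weight of a point -/
def Ph (K : ℕ) (a τ x T : ℝ) (j : ℕ) (t : ℝ) : ℝ :=
  ∏ i : Fin K, Real.exp (-(Yl (ue a τ K) (ue a τ i) (ue a τ (i + 1)) T (t + 2 * Real.pi * j / Real.log T) - x) ^ 2 / 2)

lemma Ph_cont (K : ℕ) (a τ x T : ℝ) (j : ℕ) : Continuous (Ph K a τ x T j) := by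
  unfold Ph
  refine continuous_finsetProd _ fun i _ => ?_
  have h := (Yl_cont (ue a τ K) (ue a τ i) (ue a τ (i + 1)) T)
  have h2 : Continuous fun t => Yl (ue a τ K) (ue a τ i) (ue a τ (i + 1)) T (t + 2 * Real.pi * j / Real.log T) :=
    h.comp (by fun_prop)
  fun_prop

lemma Ph_pos (K : ℕ) (a τ x T : ℝ) (j : ℕ) (t : ℝ) : 0 < Ph K a τ x T j t :=
  Finset.prod_pos fun _ _ => Real.exp_pos _

lemma Ph_one (K : ℕ) (a τ x T : ℝ) (j : ℕ) (j2 t : ℝ) :
    ∏ i : Fin K, bump x 0 (Wf K a τ j j2 T t i) = Ph K a τ x T j t := by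
  unfold Ph bump Wf
  refine Finset.prod_congr rfl fun i _ => ?_
  simp

lemma Ph_two (K : ℕ) (a τ x T : ℝ) (j j' : ℕ) (t : ℝ) (s : Fin K → ℝ) (hs : ∀ i, s i = 0 ∨ s i = 1) :
    Ph K a τ x T j t * Ph K a τ x T j' t ≤ ∏ i : Fin K, bump x (s i) (Wf K a τ j j' T t i) := by
  unfold Ph
  rw [← Finset.prod_mul_distrib]
  refine Finset.prod_le_prod (fun i _ => by positivity) fun i _ => ?_
  unfold bump Wf
  refine mul_le_mul_of_nonneg_left ?_ (Real.exp_pos _).le
  apply Real.exp_le_exp.2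
  rcases hs i with h | h
  · rw [h]
    simp only [zero_mul, neg_zero, zero_div]
    have : 0 ≤ (Yl (ue a τ K) (ue a τ i) (ue a τ (i + 1)) T (t + 2 * Real.pi * j' / Real.log T) - x) ^ 2 :=
      sq_nonneg _
    linarith
  · rw [h, one_mul]

/-- the relative variance -/
def RR (K N : ℕ) (a τ x M : ℝ) : ℝ :=
  (Real.exp (9 * K / M) - 1) + Real.exp (9 * K / 2) * ((2 * (M / a) + 1) / N +
    ∑ i ∈ Finset.range K, (2 * (2 / ue a τ i) + 1) * (e1 τ x)⁻¹ ^ (i + 1) / N)

/-- the pair bound -/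
lemma pair_bd {K : ℕ} {a τ x M : ℝ} (ha : 0 < a) (hτ : 0 ≤ τ) (hM : 2 ≤ M) (hx : x ^ 2 ≤ 4 * (1 + τ) ^ 2)
    (d : ℝ) (s : Fin K → ℝ) (hs : s = fun i : Fin K => if |d| * ue a τ i < 2 then 0 else 1) :
    ∏ i : Fin K, bv τ (rh a τ d i) (s i) x - e1 τ x ^ (2 * K) ≤
      e1 τ x ^ (2 * K) * ((Real.exp (9 * K / M) - 1) + (if |d| < M / a then Real.exp (9 * K / 2) *
        (1 + ∑ i ∈ Finset.range K, (if |d| < 2 / ue a τ i then (e1 τ x)⁻¹ ^ (i + 1) else 0)) else 0)) := by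
  have he := e1_pos hτ x
  have he1 := e1_le hτ x
  have hM0 : 0 < M := by linarith
  have hE : 1 ≤ Real.exp (9 * K / M) := Real.one_le_exp (by positivity)
  obtain ⟨E, hEd⟩ : ∃ E : ℝ, E = (e1 τ x)⁻¹ := ⟨_, rfl⟩
  have hE1 : 1 ≤ E := by rw [hEd]; exact (one_le_inv₀ he).2 he1
  rw [← hEd]
  -- each factor
  have hfac : ∀ i : Fin K, 0 ≤ bv τ (rh a τ d i) (s i) x := by
    intro i
    unfold bv
    split_ifs <;> positivity
  have hdec : ∀ i : Fin K, ¬ |d| * ue a τ i < 2 → |rh a τ d i| ≤ 1 / (|d| * ue a τ i) ∧ |rh a τ d i| ≤ 1 / 2 := by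
    intro i hi
    push Not at hi
    have hd : d ≠ 0 := by
      rintro rfl
      rw [abs_zero, zero_mul] at hi
      linarith
    have h1 := rh_decay ha hτ hd i
    exact ⟨h1, h1.trans (one_div_le_one_div_of_le (by norm_num) hi)⟩
  split_ifs with hd
  · -- near pairs
    have h1 : ∀ i : Fin K, bv τ (rh a τ d i) (s i) x ≤
        (e1 τ x ^ 2 * Real.exp (9 / 2)) * (if |d| < 2 / ue a τ i then E else 1) := by
      intro i
      have hu := ue_pos ha τ i
      rw [hs]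
      simp only
      by_cases h : |d| * ue a τ i < 2
      · rw [if_pos h, bv_zero, if_pos ((lt_div_iff₀ hu).2 h)]
        have h2 : 1 ≤ Real.exp (9 / 2) := Real.one_le_exp (by norm_num)
        have e : e1 τ x ^ 2 * Real.exp (9 / 2) * E = e1 τ x * Real.exp (9 / 2) := by
          rw [hEd]
          field_simp
        rw [e]
        nlinarith
      · rw [if_neg h, if_neg (fun h2 => h ((lt_div_iff₀ hu).1 h2)), mul_one]
        obtain ⟨h2, h3⟩ := hdec i h
        refine (bv_one hτ h3 hx).trans ?_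
        refine mul_le_mul_of_nonneg_left (Real.exp_le_exp.2 ?_) (by positivity)
        linarith
    have h2 : ∏ i : Fin K, bv τ (rh a τ d i) (s i) x ≤
        ∏ i : Fin K, ((e1 τ x ^ 2 * Real.exp (9 / 2)) * (if |d| < 2 / ue a τ i then E else 1)) :=
      Finset.prod_le_prod (fun i _ => hfac i) fun i _ => h1 i
    rw [Finset.prod_mul_distrib, Finset.prod_const, Finset.card_univ, Fintype.card_fin, mul_pow, ← pow_mul,
      ← Real.exp_nat_mul] at h2
    have h3 : ∏ i : Fin K, (if |d| < 2 / ue a τ i then E else 1) =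
        ∏ i ∈ Finset.range K, (if |d| < 2 / ue a τ i then E else 1) :=
      Fin.prod_univ_eq_prod_range (fun i : ℕ => if |d| < 2 / ue a τ i then E else 1) K
    have h4 := ladder hE1 K (fun i => |d| < 2 / ue a τ i) (fun i j hij hj => by
      refine lt_of_lt_of_le hj ?_
      exact div_le_div_of_nonneg_left (by norm_num) (ue_pos ha τ i) (ue_mono ha hτ hij))
    rw [h3] at h2
    have e2 : (K : ℝ) * (9 / 2) = 9 * K / 2 := by ring
    rw [e2] at h2
    have h5 : e1 τ x ^ (2 * K) * Real.exp (9 * K / 2) * ∏ i ∈ Finset.range K, (if |d| < 2 / ue a τ i then E else 1) ≤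
        e1 τ x ^ (2 * K) * Real.exp (9 * K / 2) * (1 + ∑ i ∈ Finset.range K, (if |d| < 2 / ue a τ i then E ^ (i + 1) else 0)) :=
      mul_le_mul_of_nonneg_left h4 (by positivity)
    have h6 : 0 ≤ e1 τ x ^ (2 * K) * (Real.exp (9 * K / M) - 1) := mul_nonneg (by positivity) (by linarith)
    have h7 : 0 ≤ e1 τ x ^ (2 * K) := by positivity
    calc _ ≤ ∏ i : Fin K, bv τ (rh a τ d i) (s i) x := by linarith
      _ ≤ _ := h2.trans h5
      _ ≤ _ := by
        have e3 : e1 τ x ^ (2 * K) * ((Real.exp (9 * K / M) - 1) + Real.exp (9 * K / 2) *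
            (1 + ∑ i ∈ Finset.range K, (if |d| < 2 / ue a τ i then E ^ (i + 1) else 0))) =
            e1 τ x ^ (2 * K) * (Real.exp (9 * K / M) - 1) + e1 τ x ^ (2 * K) * Real.exp (9 * K / 2) *
            (1 + ∑ i ∈ Finset.range K, (if |d| < 2 / ue a τ i then E ^ (i + 1) else 0)) := by ring
        rw [e3]
        linarith
  · -- distant pairs
    rw [add_zero]
    push Not at hd
    have h1 : ∀ i : Fin K, bv τ (rh a τ d i) (s i) x ≤ e1 τ x ^ 2 * Real.exp (9 / M) := by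
      intro i
      have hu := ue_pos ha τ i
      have hu0 : a ≤ ue a τ i := by
        have := ue_mono ha hτ (Nat.zero_le i)
        rwa [ue_zero] at this
      have h2 : M ≤ |d| * ue a τ i := by
        have h3 : M ≤ |d| * a := by
          exact (div_le_iff₀ ha).1 hd
        have h4 : |d| * a ≤ |d| * ue a τ i := mul_le_mul_of_nonneg_left hu0 (abs_nonneg d)
        linarith
      have h : ¬ |d| * ue a τ i < 2 := by linarith
      rw [hs]
      simp only
      rw [if_neg h]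
      obtain ⟨h3, h4⟩ := hdec i h
      refine (bv_one hτ h4 hx).trans ?_
      refine mul_le_mul_of_nonneg_left (Real.exp_le_exp.2 ?_) (by positivity)
      have h5 : 1 / (|d| * ue a τ i) ≤ 1 / M := one_div_le_one_div_of_le hM0 h2
      have h6 : |rh a τ d i| ≤ 1 / M := h3.trans h5
      calc 9 * |rh a τ d i| ≤ 9 * (1 / M) := by linarith
        _ = 9 / M := by ring
    have h2 : ∏ i : Fin K, bv τ (rh a τ d i) (s i) x ≤ ∏ i : Fin K, (e1 τ x ^ 2 * Real.exp (9 / M)) :=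
      Finset.prod_le_prod (fun i _ => hfac i) fun i _ => h1 i
    rw [Finset.prod_const, Finset.card_univ, Fintype.card_fin, mul_pow, ← pow_mul, ← Real.exp_nat_mul] at h2
    have e2 : (K : ℝ) * (9 / M) = 9 * K / M := by ring
    rw [e2] at h2
    linarith

end

end Run7.h435.MD
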