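import Pool.Agent.Run7.h435.MDba
import Pool.Agent.Run7.h435.MDh

/-! # Chebyshev's inequality for the number of high points -/

set_option autoImplicit false

namespace Run7.h435.MD

open Filter Topology MeasureTheory Set

noncomputable section
lemma Ph_le (K : ℕ) (a τ x T : ℝ) (j : ℕ) (t : ℝ) : Ph K a τ x T j t ≤ 1 := by
  unfold Ph
  refine Finset.prod_le_one (fun _ _ => (Real.exp_pos _).le) fun i _ => ?_
  rw [Real.exp_le_one_iff]
  have := sq_nonneg (Yl (ue a τ K) (ue a τ i) (ue a τ (i + 1)) T (t + 2 * Real.pi * j / Real.log T) - x)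
  linarith

/-- the sum over the pairs -/
lemma sum_pairs {K N : ℕ} {a τ x M : ℝ} (ha : 0 < a) (hM : 2 ≤ M) (hN : 1 ≤ N) :
    ∑ j ∈ Finset.Icc 1 N, ∑ j' ∈ Finset.Icc 1 N, ((Real.exp (9 * K / M) - 1) +
      (if |(j : ℝ) - j'| < M / a then Real.exp (9 * K / 2) *
        (1 + ∑ i ∈ Finset.range K, (if |(j : ℝ) - j'| < 2 / ue a τ i then (e1 τ x)⁻¹ ^ (i + 1) else 0)) else 0)) ≤
      (N : ℝ) ^ 2 * RR K N a τ x M := by
  have hN0 : (0 : ℝ) < N := by exact_mod_cast hN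
  have hE : 0 ≤ (e1 τ x)⁻¹ := inv_nonneg.2 (by unfold e1; positivity)
  have hMa : 0 < M / a := by positivity
  have hin : ∀ j ∈ Finset.Icc 1 N, ∑ j' ∈ Finset.Icc 1 N, ((Real.exp (9 * K / M) - 1) +
      (if |(j : ℝ) - j'| < M / a then Real.exp (9 * K / 2) *
        (1 + ∑ i ∈ Finset.range K, (if |(j : ℝ) - j'| < 2 / ue a τ i then (e1 τ x)⁻¹ ^ (i + 1) else 0)) else 0)) ≤
      N * (Real.exp (9 * K / M) - 1) + Real.exp (9 * K / 2) * ((2 * (M / a) + 1) +
        ∑ i ∈ Finset.range K, (2 * (2 / ue a τ i) + 1) * (e1 τ x)⁻¹ ^ (i + 1)) := by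
    intro j _
    rw [Finset.sum_add_distrib, Finset.sum_const, Nat.card_Icc, Nat.add_sub_cancel, nsmul_eq_mul]
    refine add_le_add le_rfl ?_
    have h1 : ∀ j' ∈ Finset.Icc 1 N, (if |(j : ℝ) - j'| < M / a then Real.exp (9 * K / 2) *
        (1 + ∑ i ∈ Finset.range K, (if |(j : ℝ) - j'| < 2 / ue a τ i then (e1 τ x)⁻¹ ^ (i + 1) else 0)) else 0) ≤
        Real.exp (9 * K / 2) * ((if |(j : ℝ) - j'| < M / a then 1 else 0) +
          ∑ i ∈ Finset.range K, (e1 τ x)⁻¹ ^ (i + 1) * (if |(j : ℝ) - j'| < 2 / ue a τ i then 1 else 0)) := by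
      intro j' _
      have h2 : ∀ i ∈ Finset.range K, (if |(j : ℝ) - j'| < 2 / ue a τ i then (e1 τ x)⁻¹ ^ (i + 1) else 0) =
          (e1 τ x)⁻¹ ^ (i + 1) * (if |(j : ℝ) - j'| < 2 / ue a τ i then 1 else 0) := by
        intro i _
        split_ifs <;> simp
      rw [Finset.sum_congr rfl h2]
      have h3 : 0 ≤ ∑ i ∈ Finset.range K, (e1 τ x)⁻¹ ^ (i + 1) * (if |(j : ℝ) - j'| < 2 / ue a τ i then (1 : ℝ) else 0) :=
        Finset.sum_nonneg fun i _ => mul_nonneg (pow_nonneg hE _) (by split_ifs <;> norm_num)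
      split_ifs with h
      · exact le_rfl
      · rw [zero_add]
        positivity
    refine (Finset.sum_le_sum h1).trans ?_
    rw [← Finset.mul_sum]
    refine mul_le_mul_of_nonneg_left ?_ (Real.exp_pos _).le
    rw [Finset.sum_add_distrib, Finset.sum_comm]
    refine add_le_add ?_ (Finset.sum_le_sum fun i _ => ?_)
    · have := count_near N j hMa
      rw [← Finset.sum_filter]
      simpa using this
    · rw [← Finset.mul_sum, mul_comm]
      refine mul_le_mul_of_nonneg_right ?_ (pow_nonneg hE _)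
      have := count_near N j (y := 2 / ue a τ i) (div_pos two_pos (ue_pos ha τ i))
      rw [← Finset.sum_filter]
      simpa using this
  refine (Finset.sum_le_sum hin).trans ?_
  rw [Finset.sum_const, Nat.card_Icc, Nat.add_sub_cancel, nsmul_eq_mul]
  unfold RR
  have e : ∑ i ∈ Finset.range K, (2 * (2 / ue a τ i) + 1) * (e1 τ x)⁻¹ ^ (i + 1) / N =
      (∑ i ∈ Finset.range K, (2 * (2 / ue a τ i) + 1) * (e1 τ x)⁻¹ ^ (i + 1)) / N := by
    rw [Finset.sum_div]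
  rw [e]
  apply le_of_eq
  field_simp

/-- **Chebyshev's inequality** -/
theorem cheb {K N : ℕ} {a τ x M : ℝ} (ha : 0 < a) (hτ : 0 < τ) (hb : ue a τ K < 1) (n : ℕ)
    (hn : 4 * n * ue a τ K ≤ 1) (hM : 2 ≤ M) (hx : x ^ 2 ≤ 4 * (1 + τ) ^ 2) (hN : 1 ≤ N) (η : ℝ) (hη : 0 < η) :
    ∀ᶠ T : ℝ in atTop, PT T {t | ∑ j ∈ Finset.Icc 1 N, Ph K a τ x T j t < N * e1 τ x ^ K / 2} ≤
      4 * (RR K N a τ x M + 3 * (2 * (1 / 4) ^ n + 2 ^ (K + 1) * Real.exp (-(n / (48 * τ))) + η) /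
        e1 τ x ^ (2 * K)) * T := by
  have he := e1_pos hτ.le x
  have he1 := e1_le hτ.le x
  have hN0 : (0 : ℝ) < N := by exact_mod_cast hN
  obtain ⟨er, her⟩ : ∃ er : ℝ, er = 2 * (1 / 4) ^ n + 2 ^ (K + 1) * Real.exp (-(n / (48 * τ))) + η := ⟨_, rfl⟩
  have her0 : 0 < er := by rw [her]; positivity
  rw [← her]
  obtain ⟨sg, hsg⟩ : ∃ sg : ℝ → Fin K → ℝ, sg = fun (d : ℝ) (i : Fin K) => if |d| * ue a τ i < 2 then 0 else 1 := ⟨_, rfl⟩
  have hsg01 : ∀ d i, sg d i = 0 ∨ sg d i = 1 := by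
    intro d i
    rw [hsg]
    simp only
    split_ifs
    · left; rfl
    · right; rfl
  have H1 : ∀ᶠ T : ℝ in atTop, ∀ j ∈ Finset.Icc 1 N, |1 / T * (∫ t in T..(2 * T), Ph K a τ x T j t) - e1 τ x ^ K| ≤ er := by
    rw [Filter.eventually_all_finset]
    intro j _
    have h := two_pt ha hτ hb n hn (j : ℝ) 0 (fun _ : Fin K => 0) (fun _ => Or.inl rfl) x η hη
    filter_upwards [h] with T hT
    rw [her]
    simp only [Ph_one, bv_zero] at hT
    rw [Finset.prod_const, Finset.card_univ, Fintype.card_fin] at hT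
    exact hT
  have H2 : ∀ᶠ T : ℝ in atTop, ∀ j ∈ Finset.Icc 1 N, ∀ j' ∈ Finset.Icc 1 N,
      |1 / T * (∫ t in T..(2 * T), ∏ i, bump x (sg ((j : ℝ) - j') i) (Wf K a τ j j' T t i)) -
      ∏ i : Fin K, bv τ (rh a τ ((j : ℝ) - j') i) (sg ((j : ℝ) - j') i) x| ≤ er := by
    rw [Filter.eventually_all_finset]
    intro j _
    rw [Filter.eventually_all_finset]
    intro j' _
    rw [her]
    exact two_pt ha hτ hb n hn (j : ℝ) (j' : ℝ) (sg ((j : ℝ) - j')) (hsg01 _) x η hη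
  filter_upwards [H1, H2, eventually_ge_atTop (1 : ℝ)] with T h1 h2 hT1
  have hT0 : 0 < T := by linarith
  have hTT : T ≤ 2 * T := by linarith
  -- first moment
  have f1 : ∀ j ∈ Finset.Icc 1 N, (e1 τ x ^ K - er) * T ≤ ∫ t in T..(2 * T), Ph K a τ x T j t := by
    intro j hj
    have h3 := (abs_le.1 (h1 j hj)).1
    have h4 : e1 τ x ^ K - er ≤ 1 / T * (∫ t in T..(2 * T), Ph K a τ x T j t) := by linarith
    calc (e1 τ x ^ K - er) * T ≤ (1 / T * (∫ t in T..(2 * T), Ph K a τ x T j t)) * T :=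
          mul_le_mul_of_nonneg_right h4 hT0.le
      _ = _ := by field_simp
  -- second moment
  have hbc : ∀ j j' : ℕ, Continuous fun t => ∏ i, bump x (sg ((j : ℝ) - j') i) (Wf K a τ j j' T t i) := by
    intro j j'
    have hW := Wf_cont K a τ j j' T
    refine continuous_finsetProd _ fun i _ => ?_
    have hbu : Continuous (bump x (sg ((j : ℝ) - j') i)) := by
      unfold bump
      fun_prop
    exact hbu.comp ((continuous_apply i).comp hW)
  have f2 : ∀ j ∈ Finset.Icc 1 N, ∀ j' ∈ Finset.Icc 1 N,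
      ∫ t in T..(2 * T), Ph K a τ x T j t * Ph K a τ x T j' t ≤ (e1 τ x ^ (2 * K) +
      e1 τ x ^ (2 * K) * ((Real.exp (9 * K / M) - 1) + (if |(j : ℝ) - j'| < M / a then Real.exp (9 * K / 2) *
        (1 + ∑ i ∈ Finset.range K, (if |(j : ℝ) - j'| < 2 / ue a τ i then (e1 τ x)⁻¹ ^ (i + 1) else 0)) else 0)) + er) * T := by
    intro j hj j' hj'
    have h3 := (abs_le.1 (h2 j hj j' hj')).2
    have h4 := pair_bd (K := K) ha hτ.le hM hx ((j : ℝ) - j') (sg ((j : ℝ) - j')) (by rw [hsg])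
    have h5 : ∫ t in T..(2 * T), Ph K a τ x T j t * Ph K a τ x T j' t ≤
        ∫ t in T..(2 * T), ∏ i, bump x (sg ((j : ℝ) - j') i) (Wf K a τ j j' T t i) :=
      intervalIntegral.integral_mono_on hTT
        ((((Ph_cont K a τ x T j).mul (Ph_cont K a τ x T j'))).intervalIntegrable _ _)
        ((hbc j j').intervalIntegrable _ _) fun t _ => Ph_two K a τ x T j j' t _ (hsg01 _)
    have h6 : ∫ t in T..(2 * T), ∏ i, bump x (sg ((j : ℝ) - j') i) (Wf K a τ j j' T t i) =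
        (1 / T * (∫ t in T..(2 * T), ∏ i, bump x (sg ((j : ℝ) - j') i) (Wf K a τ j j' T t i))) * T := by
      field_simp
    refine h5.trans ?_
    rw [h6]
    refine mul_le_mul_of_nonneg_right ?_ hT0.le
    linarith
  obtain ⟨Z, hZ⟩ : ∃ Z : ℝ → ℝ, Z = fun t => ∑ j ∈ Finset.Icc 1 N, Ph K a τ x T j t := ⟨_, rfl⟩
  have hZc : Continuous Z := by
    rw [hZ]
    exact continuous_finsetSum _ fun j _ => Ph_cont K a τ x T j
  have m1 : (N : ℝ) * ((e1 τ x ^ K - er) * T) ≤ ∫ t in T..(2 * T), Z t := by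
    rw [hZ, intervalIntegral.integral_finsetSum (fun j _ => (Ph_cont K a τ x T j).intervalIntegrable _ _)]
    have := Finset.card_nsmul_le_sum (Finset.Icc 1 N) (fun j => ∫ t in T..(2 * T), Ph K a τ x T j t) _ f1
    rw [Nat.card_Icc, Nat.add_sub_cancel, nsmul_eq_mul] at this
    exact this
  have m2 : ∫ t in T..(2 * T), Z t ^ 2 ≤ ((N : ℝ) ^ 2 * e1 τ x ^ (2 * K) +
      e1 τ x ^ (2 * K) * ((N : ℝ) ^ 2 * RR K N a τ x M) + (N : ℝ) ^ 2 * er) * T := by
    have e0 : ∀ t, Z t ^ 2 = ∑ j ∈ Finset.Icc 1 N, ∑ j' ∈ Finset.Icc 1 N, Ph K a τ x T j t * Ph K a τ x T j' t := by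
      intro t
      rw [hZ, sq, Finset.sum_mul_sum]
    simp_rw [e0]
    have hcc : ∀ j j' : ℕ, Continuous fun t => Ph K a τ x T j t * Ph K a τ x T j' t := fun j j' =>
      (Ph_cont K a τ x T j).mul (Ph_cont K a τ x T j')
    rw [intervalIntegral.integral_finsetSum (fun j _ =>
      (continuous_finsetSum _ fun j' _ => hcc j j').intervalIntegrable _ _)]
    have e2 : ∀ j ∈ Finset.Icc 1 N, ∫ t in T..(2 * T), ∑ j' ∈ Finset.Icc 1 N, Ph K a τ x T j t * Ph K a τ x T j' t =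
        ∑ j' ∈ Finset.Icc 1 N, ∫ t in T..(2 * T), Ph K a τ x T j t * Ph K a τ x T j' t := fun j _ =>
      intervalIntegral.integral_finsetSum (fun j' _ => (hcc j j').intervalIntegrable _ _)
    rw [Finset.sum_congr rfl e2]
    refine (Finset.sum_le_sum fun j hj => Finset.sum_le_sum fun j' hj' => f2 j hj j' hj').trans ?_
    have h3 := sum_pairs (K := K) (N := N) (τ := τ) (x := x) ha hM hN
    have e3 : ∀ j ∈ Finset.Icc 1 N, ∀ j' ∈ Finset.Icc 1 N, (e1 τ x ^ (2 * K) +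
      e1 τ x ^ (2 * K) * ((Real.exp (9 * K / M) - 1) + (if |(j : ℝ) - j'| < M / a then Real.exp (9 * K / 2) *
        (1 + ∑ i ∈ Finset.range K, (if |(j : ℝ) - j'| < 2 / ue a τ i then (e1 τ x)⁻¹ ^ (i + 1) else 0)) else 0)) + er) * T =
        (e1 τ x ^ (2 * K) + er) * T + (e1 τ x ^ (2 * K) * T) * ((Real.exp (9 * K / M) - 1) +
          (if |(j : ℝ) - j'| < M / a then Real.exp (9 * K / 2) *
        (1 + ∑ i ∈ Finset.range K, (if |(j : ℝ) - j'| < 2 / ue a τ i then (e1 τ x)⁻¹ ^ (i + 1) else 0)) else 0)) := by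
      intro j _ j' _
      ring
    rw [Finset.sum_congr rfl (fun j hj => Finset.sum_congr rfl (fun j' hj' => e3 j hj j' hj'))]
    simp only [Finset.sum_add_distrib, ← Finset.mul_sum, Finset.sum_const, Nat.card_Icc, Nat.add_sub_cancel,
      nsmul_eq_mul] at h3 ⊢
    have h4 := mul_le_mul_of_nonneg_left h3 (by positivity : 0 ≤ e1 τ x ^ (2 * K) * T)
    nlinarith [h4]
  -- Chebyshev
  have hmu0 : 0 < (N : ℝ) * e1 τ x ^ K := by positivity
  have hI : ∫ t in T..(2 * T), (Z t - N * e1 τ x ^ K) ^ 2 ≤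
      (N : ℝ) ^ 2 * (e1 τ x ^ (2 * K) * RR K N a τ x M + 3 * er) * T := by
    have e0 : ∀ t, (Z t - N * e1 τ x ^ K) ^ 2 = Z t ^ 2 - (2 * (N * e1 τ x ^ K)) * Z t + (N * e1 τ x ^ K) ^ 2 :=
      fun t => by ring
    simp_rw [e0]
    rw [intervalIntegral.integral_add (Continuous.intervalIntegrable (by fun_prop) _ _)
      (Continuous.intervalIntegrable (by fun_prop) _ _),
      intervalIntegral.integral_sub (Continuous.intervalIntegrable (by fun_prop) _ _)
      (Continuous.intervalIntegrable (by fun_prop) _ _), intervalIntegral.integral_const_mul,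
      intervalIntegral.integral_const, smul_eq_mul]
    have h3 := mul_le_mul_of_nonneg_left m1 (by positivity : 0 ≤ 2 * (N * e1 τ x ^ K))
    have e2 : e1 τ x ^ (2 * K) = (e1 τ x ^ K) ^ 2 := by rw [← pow_mul, mul_comm]
    rw [e2] at m2 ⊢
    have hK1 : e1 τ x ^ K ≤ 1 := pow_le_one₀ he.le he1
    have h4 : (N : ℝ) ^ 2 * (e1 τ x ^ K * er) * T ≤ (N : ℝ) ^ 2 * er * T := by
      have : e1 τ x ^ K * er ≤ er := mul_le_of_le_one_left her0.le hK1
      gcongr
    nlinarith [h3, m2, h4]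
  have h5 := PT_markov hT0.le (f := fun t => (Z t - N * e1 τ x ^ K) ^ 2) (c := (N * e1 τ x ^ K / 2) ^ 2)
    (S := {t | ∑ j ∈ Finset.Icc 1 N, Ph K a τ x T j t < N * e1 τ x ^ K / 2})
    (Continuous.intervalIntegrable (by fun_prop) _ _) (fun t => sq_nonneg _) (by positivity) (by
      intro t _ ht
      have ht : ∑ j ∈ Finset.Icc 1 N, Ph K a τ x T j t < N * e1 τ x ^ K / 2 := ht
      have hZt : Z t = ∑ j ∈ Finset.Icc 1 N, Ph K a τ x T j t := by rw [hZ]
      rw [← hZt] at ht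
      have h6 : N * e1 τ x ^ K / 2 ≤ N * e1 τ x ^ K - Z t := by linarith
      have h7 := pow_le_pow_left₀ (by positivity) h6 2
      calc (N * e1 τ x ^ K / 2) ^ 2 ≤ (N * e1 τ x ^ K - Z t) ^ 2 := h7
        _ = (Z t - N * e1 τ x ^ K) ^ 2 := by ring)
  refine h5.trans ?_
  rw [div_le_iff₀ (by positivity)]
  refine hI.trans (le_of_eq ?_)
  have e2 : e1 τ x ^ (2 * K) = (e1 τ x ^ K) ^ 2 := by rw [← pow_mul, mul_comm]
  rw [e2]
  field_simp
  ring

end

end Run7.h435.MD
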