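import Pool.Agent.Run7.h435.MDi

/-! # The high points of the prime sum: lower bound -/

set_option autoImplicit false

namespace Run7.h435.MD

open Filter Topology MeasureTheory Set

noncomputable section
/-- the width of the levels -/
def tm (δ L : ℝ) (K : ℕ) : ℝ := (1 - 2 * δ) * L / (2 * K)

lemma ue_top {δ L : ℝ} {K : ℕ} (hK : 1 ≤ K) : ue (am δ L) (tm δ L K) K = bm δ L := by
  unfold ue am bm tm
  rw [← Real.exp_add]
  congr 1
  have : (K : ℝ) ≠ 0 := by exact_mod_cast (by omega : K ≠ 0)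
  field_simp
  ring

lemma lv_add {a b c : ℝ} (hab : a ≤ b) (hbc : b ≤ c) (T : ℝ) (p : ℕ) : lv a b T p + lv b c T p = lv a c T p := by
  unfold lv
  by_cases h1 : a < Real.log p / Real.log T
  · by_cases h2 : Real.log p / Real.log T ≤ b
    · rw [if_pos ⟨h1, h2⟩, if_neg (fun h => absurd h.1 (not_lt.2 h2)), if_pos ⟨h1, h2.trans hbc⟩, add_zero]
    · rw [if_neg (fun h => h2 h.2), zero_add]
      by_cases h3 : Real.log p / Real.log T ≤ c
      · rw [if_pos ⟨not_le.1 h2, h3⟩, if_pos ⟨h1, h3⟩]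
      · rw [if_neg (fun h => h3 h.2), if_neg (fun h => h3 h.2)]
  · rw [if_neg (fun h => h1 h.1), if_neg (fun h => h1 (lt_of_le_of_lt hab h.1)), if_neg (fun h => h1 h.1), add_zero]

lemma Yl_add {a b c : ℝ} (hab : a ≤ b) (hbc : b ≤ c) (b0 T t : ℝ) : Yl b0 a b T t + Yl b0 b c T t = Yl b0 a c T t := by
  unfold Yl
  rw [← Complex.add_im]
  congr 1
  unfold Gp
  rw [← Finset.sum_add_distrib]
  refine Finset.sum_congr rfl fun p _ => ?_
  rw [← lv_add hab hbc]
  ring

lemma Yl_self (a b0 T t : ℝ) : Yl b0 a a T t = 0 := by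
  unfold Yl Gp
  rw [Finset.sum_eq_zero, Complex.zero_im]
  intro p _
  unfold lv
  rw [if_neg (fun h => absurd h.1 (not_lt.2 h.2)), zero_mul]

lemma Yl_tel {a τ : ℝ} (ha : 0 < a) (hτ : 0 ≤ τ) (b0 T t : ℝ) (K : ℕ) :
    ∑ i ∈ Finset.range K, Yl b0 (ue a τ i) (ue a τ (i + 1)) T t = Yl b0 (ue a τ 0) (ue a τ K) T t := by
  induction K with
  | zero => rw [Finset.sum_range_zero, Yl_self]
  | succ K ih =>
    rw [Finset.sum_range_succ, ih]
    have e : ((K + 1 : ℕ) : ℕ) = K + 1 := rfl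
    exact Yl_add (ue_mono ha hτ (Nat.zero_le K)) (ue_mono ha hτ (Nat.le_succ K)) b0 T t

/-- bounds for the mean of a bump -/
lemma e1_low {τ α L : ℝ} (hτ : 0 ≤ τ) (hτL : τ ≤ L) {x : ℝ} (hx : x ^ 2 = 4 * α ^ 2 * τ ^ 2) :
    (e1 τ x)⁻¹ ≤ (1 + L) * Real.exp (2 * α ^ 2 * τ) := by
  unfold e1
  rw [mul_inv, one_div, inv_inv, ← Real.exp_neg, neg_neg]
  have h1 : Real.sqrt (1 + τ) ≤ 1 + L := by
    rw [Real.sqrt_le_left (by linarith)]
    nlinarith
  have h2 : x ^ 2 / (2 * (1 + τ)) ≤ 2 * α ^ 2 * τ := by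
    rw [hx, div_le_iff₀ (by positivity)]
    nlinarith [mul_nonneg (sq_nonneg α) hτ]
  exact mul_le_mul h1 (Real.exp_le_exp.2 h2) (Real.exp_pos _).le (by linarith)

/-- the deterministic step -/
lemma det_low {K N : ℕ} {a τ x T t e : ℝ} (he : 0 < e) (hN : 1 ≤ N)
    (hZ : N * e / 2 ≤ ∑ j ∈ Finset.Icc 1 N, Ph K a τ x T j t) :
    N * e / 4 ≤ (((Finset.Icc 1 N).filter (fun j => e / 4 ≤ Ph K a τ x T j t)).card : ℝ) := by
  have hN0 : (0 : ℝ) < N := by exact_mod_cast hN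
  have h1 : ∑ j ∈ Finset.Icc 1 N, Ph K a τ x T j t ≤
      ∑ j ∈ Finset.Icc 1 N, ((if e / 4 ≤ Ph K a τ x T j t then 1 else 0) + e / 4) := by
    refine Finset.sum_le_sum fun j _ => ?_
    split_ifs with h
    · have := Ph_le K a τ x T j t
      linarith
    · push Not at h
      linarith
  rw [Finset.sum_add_distrib, Finset.sum_const, Nat.card_Icc, Nat.add_sub_cancel, nsmul_eq_mul,
    ← Finset.sum_filter, Finset.sum_const, nsmul_eq_mul, mul_one] at h1
  linarith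

/-- a point with a large weight is a high point -/
lemma high_of_Ph {K : ℕ} {a τ x T t e Q : ℝ} {j : ℕ} (ha : 0 < a) (hτ : 0 ≤ τ) (he : 0 < e)
    (h : e / 4 ≤ Ph K a τ x T j t) (hQ : Real.log (4 / e) ≤ Q) :
    |Yl (ue a τ K) a (ue a τ K) T (t + 2 * Real.pi * j / Real.log T) - K * x| ≤ Real.sqrt (2 * K * Q) := by
  obtain ⟨y, hy⟩ : ∃ y : ℕ → ℝ, y = fun i => Yl (ue a τ K) (ue a τ i) (ue a τ (i + 1)) T (t + 2 * Real.pi * j / Real.log T) - x := ⟨_, rfl⟩
  have h1 : Ph K a τ x T j t = Real.exp (-(∑ i ∈ Finset.range K, y i ^ 2) / 2) := by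
    unfold Ph
    rw [← Real.exp_sum]
    congr 1
    rw [Fin.sum_univ_eq_sum_range (fun i : ℕ => -(Yl (ue a τ K) (ue a τ i) (ue a τ (i + 1)) T
      (t + 2 * Real.pi * j / Real.log T) - x) ^ 2 / 2) K, hy, ← Finset.sum_neg_distrib, Finset.sum_div]
  have h2 : ∑ i ∈ Finset.range K, y i ^ 2 ≤ 2 * Q := by
    rw [h1] at h
    have h3 := Real.log_le_log (by positivity) h
    rw [Real.log_exp] at h3
    have h4 : Real.log (e / 4) = -Real.log (4 / e) := by
      rw [← Real.log_inv, inv_div]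
    rw [h4] at h3
    linarith
  have h3 : (∑ i ∈ Finset.range K, y i) ^ 2 ≤ K * ∑ i ∈ Finset.range K, y i ^ 2 := by
    have := sq_sum_le_card_mul_sum_sq (s := Finset.range K) (f := y)
    rwa [Finset.card_range] at this
  have h4 : ∑ i ∈ Finset.range K, y i = Yl (ue a τ K) a (ue a τ K) T (t + 2 * Real.pi * j / Real.log T) - K * x := by
    rw [hy, Finset.sum_sub_distrib, Yl_tel ha hτ, ue_zero, Finset.sum_const, Finset.card_range, nsmul_eq_mul]
  rw [← h4]
  apply Real.abs_le_sqrt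
  have hK : (0 : ℝ) ≤ K := Nat.cast_nonneg K
  nlinarith

/-- the relative variance is small -/
lemma RR_small {δ α L : ℝ} {K N : ℕ} (hδ : 0 < δ) (hδ1 : δ < 1 / 2) (hα : 0 ≤ α) (hα1 : α ≤ 1) (hK : 1 ≤ K)
    (hKδ : 2 ≤ K * δ) (hL : 0 < L) (hN : (N : ℝ) = Real.exp L) {x : ℝ} (hx : x ^ 2 = 4 * α ^ 2 * (tm δ L K) ^ 2) :
    RR K N (am δ L) (tm δ L K) x (Real.exp (δ / 2 * L)) ≤
      (Real.exp (9 * K / Real.exp (δ / 2 * L)) - 1) + (Real.exp (9 * K / 2) * (3 + 5 * K)) * (1 + L) ^ K *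
        Real.exp (-(δ / 2 * L)) := by
  have hK0 : (0 : ℝ) < K := by exact_mod_cast hK
  have hτ : 0 ≤ tm δ L K := by
    unfold tm
    have : 0 ≤ 1 - 2 * δ := by linarith
    positivity
  have hτ2 : 2 * tm δ L K ≤ δ / 2 * L := by
    unfold tm
    have e : 2 * ((1 - 2 * δ) * L / (2 * K)) = (1 - 2 * δ) * L / K := by field_simp
    rw [e, div_le_iff₀ hK0]
    have h1 : L ≤ δ / 2 * L * K := by nlinarith
    nlinarith
  have hτL : tm δ L K ≤ L := by nlinarith
  have ha : 0 < am δ L := Real.exp_pos _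
  have hE := e1_low (L := L) hτ hτL hx
  have he := e1_pos hτ x
  unfold RR
  rw [mul_assoc (Real.exp (9 * K / 2)), mul_assoc (Real.exp (9 * K / 2))]
  refine add_le_add le_rfl (mul_le_mul_of_nonneg_left ?_ (Real.exp_pos _).le)
  rw [hN]
  have hL1 : 1 ≤ (1 + L) ^ K := one_le_pow₀ (by linarith)
  -- first term
  have t1 : (2 * (Real.exp (δ / 2 * L) / am δ L) + 1) / Real.exp L ≤ 3 * ((1 + L) ^ K * Real.exp (-(δ / 2 * L))) := by
    rw [div_le_iff₀ (Real.exp_pos _)]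
    have e1' : Real.exp (δ / 2 * L) / am δ L = Real.exp (-(δ / 2 * L)) * Real.exp L := by
      unfold am
      rw [← Real.exp_sub, ← Real.exp_add]
      congr 1
      ring
    have e2' : (1 : ℝ) ≤ Real.exp (-(δ / 2 * L)) * Real.exp L := by
      rw [← Real.exp_add]
      apply Real.one_le_exp
      nlinarith
    rw [e1']
    have h3 : 0 < Real.exp (-(δ / 2 * L)) * Real.exp L := by positivity
    calc 2 * (Real.exp (-(δ / 2 * L)) * Real.exp L) + 1 ≤ 3 * (1 * (Real.exp (-(δ / 2 * L)) * Real.exp L)) := by linarith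
      _ ≤ 3 * ((1 + L) ^ K * (Real.exp (-(δ / 2 * L)) * Real.exp L)) := by gcongr
      _ = _ := by ring
  -- the levels
  have t2 : ∀ i ∈ Finset.range K, (2 * (2 / ue (am δ L) (tm δ L K) i) + 1) * (e1 (tm δ L K) x)⁻¹ ^ (i + 1) / Real.exp L ≤
      5 * ((1 + L) ^ K * Real.exp (-(δ / 2 * L))) := by
    intro i hi
    have hiK := Finset.mem_range.1 hi
    have hu := ue_pos ha (tm δ L K) i
    have hu1 : ue (am δ L) (tm δ L K) i ≤ 1 := by
      have h1 := ue_mono ha hτ hiK.le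
      rw [ue_top hK] at h1
      refine h1.trans ?_
      unfold bm
      rw [Real.exp_le_one_iff]
      have : 0 < δ * L := by positivity
      linarith
    have h1 : 2 * (2 / ue (am δ L) (tm δ L K) i) + 1 ≤ 5 * (ue (am δ L) (tm δ L K) i)⁻¹ := by
      have : 1 ≤ (ue (am δ L) (tm δ L K) i)⁻¹ := (one_le_inv₀ hu).2 hu1
      rw [div_eq_mul_inv]
      linarith
    have h2 : (e1 (tm δ L K) x)⁻¹ ^ (i + 1) ≤ (1 + L) ^ K * Real.exp (2 * tm δ L K * (i + 1)) := by
      calc (e1 (tm δ L K) x)⁻¹ ^ (i + 1) ≤ ((1 + L) * Real.exp (2 * α ^ 2 * tm δ L K)) ^ (i + 1) :=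
            pow_le_pow_left₀ (inv_nonneg.2 he.le) hE _
        _ = (1 + L) ^ (i + 1) * Real.exp (2 * α ^ 2 * tm δ L K * (i + 1)) := by
            rw [mul_pow, ← Real.exp_nat_mul]
            congr 2
            push_cast
            ring
        _ ≤ (1 + L) ^ K * Real.exp (2 * tm δ L K * (i + 1)) := by
            apply mul_le_mul (pow_le_pow_right₀ (by linarith) hiK) _ (Real.exp_pos _).le (by positivity)
            apply Real.exp_le_exp.2
            have : α ^ 2 ≤ 1 := pow_le_one₀ hα hα1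
            have h3 : 2 * α ^ 2 * tm δ L K ≤ 2 * tm δ L K := by nlinarith
            exact mul_le_mul_of_nonneg_right h3 (by positivity)
    rw [div_le_iff₀ (Real.exp_pos _)]
    calc (2 * (2 / ue (am δ L) (tm δ L K) i) + 1) * (e1 (tm δ L K) x)⁻¹ ^ (i + 1) ≤
        (5 * (ue (am δ L) (tm δ L K) i)⁻¹) * ((1 + L) ^ K * Real.exp (2 * tm δ L K * (i + 1))) :=
          mul_le_mul h1 h2 (by positivity) (by positivity)
      _ = 5 * ((1 + L) ^ K * Real.exp ((1 - δ) * L + 2 * tm δ L K)) := by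
          have e : (ue (am δ L) (tm δ L K) i)⁻¹ * Real.exp (2 * tm δ L K * (i + 1)) = Real.exp ((1 - δ) * L + 2 * tm δ L K) := by
            unfold ue am
            rw [← Real.exp_add, ← Real.exp_neg, ← Real.exp_add]
            congr 1
            ring
          rw [← e]
          ring
      _ ≤ 5 * ((1 + L) ^ K * Real.exp (-(δ / 2 * L) + L)) :=
          mul_le_mul_of_nonneg_left (mul_le_mul_of_nonneg_left (Real.exp_le_exp.2 (by linarith)) (by positivity))
            (by norm_num)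
      _ = _ := by rw [Real.exp_add]; ring
  have t3 := Finset.sum_le_sum t2
  rw [Finset.sum_const, Finset.card_range, nsmul_eq_mul] at t3
  calc _ ≤ 3 * ((1 + L) ^ K * Real.exp (-(δ / 2 * L))) + K * (5 * ((1 + L) ^ K * Real.exp (-(δ / 2 * L)))) :=
        add_le_add t1 t3
    _ = _ := by ring

end

end Run7.h435.MD
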