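import Pool.Agent.R320.VQ.Var

/-! # The zeros near a point, on RH -/

set_option autoImplicit false

namespace Run7.h435.MD

open Complex Filter Topology MeasureTheory Set
open Pool.Agent.TH850.UV
open Pool.Agent.TH850.UR (ew)
open H370 (Zf mult mem_Zf good_zeta zz mem_Zf good_zeta NN NN_eq zz_re zz_im)
open H370.A2 (lamC)
open SP (RHs Mk Q1)
open Pool.Agent.R320.VQ (V_q)

noncomputable section

/-- a bound for the tail of the sum over the zeros -/
lemma tail_pt : ∃ C : ℝ, 0 < C ∧ ∀ T : ℝ, 10 ≤ T → ∀ t : ℝ,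
    ∑ s ∈ Zf riemannZeta T (2 * T), (mult riemannZeta s : ℝ) / (1 + ((s.im - t) * 2) ^ 2) ≤ C * Real.log T := by
  obtain ⟨C2, hC2, hw⟩ := wcount
  refine ⟨3 / 2 * (C2 * Real.pi), by positivity, fun T hT t => ?_⟩
  have h1 := V2aux.pt (Zf riemannZeta T (2 * T)) (w := fun s => (mult riemannZeta s : ℝ))
    (fun s => Nat.cast_nonneg _) (L := 2) two_pos t
  refine h1.trans ?_
  have hL0 : 0 < Real.log T := Real.log_pos (by linarith)
  have h2 : ∫ v : ℝ, V2aux.F (Zf riemannZeta T (2 * T)) (fun s => (mult riemannZeta s : ℝ)) 2 (t + v / 2) * (1 + v ^ 2)⁻¹ ≤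
      ∫ v : ℝ, (C2 * Real.log T) * (1 + v ^ 2)⁻¹ := by
    refine integral_mono_of_nonneg (Eventually.of_forall fun v => ?_)
      (integrable_inv_one_add_sq.const_mul _) (Eventually.of_forall fun v => ?_)
    · exact mul_nonneg (V2aux.F_nonneg _ (fun s => Nat.cast_nonneg _) _ _) (by positivity)
    · refine mul_le_mul_of_nonneg_right ?_ (by positivity)
      exact hw T hT _ _ le_rfl
  rw [MeasureTheory.integral_const_mul, integral_univ_inv_one_add_sq] at h2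
  linarith

/-- the oscillating part is controlled by the local statistic -/
lemma J_pt (hRH : RHs) : ∃ C : ℝ, 0 < C ∧ ∀ (lam : ℝ) (k : ℕ), 1 ≤ lam → 2 * Real.pi * lam ≤ k → ∀ T : ℝ, 10 ≤ T →
    ∀ S ⊆ Zf riemannZeta T (2 * T), ∀ t : ℝ,
    |GS Jk S (Real.log T / lam) t| ≤ C * (Mk T k t + lam ^ 2 / Real.log T) := by
  classical
  obtain ⟨CJ, hCJ, hJ⟩ := Jk_le
  obtain ⟨C2, hC2, hw⟩ := tail_pt
  refine ⟨CJ * (2 + 20 * Real.pi ^ 2 * C2), by positivity, fun lam k hlam hk T hT S hS t => ?_⟩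
  have hpi := Real.pi_pos
  have hlam0 : 0 < lam := by linarith
  have hL0 : 0 < Real.log T := Real.log_pos (by linarith)
  obtain ⟨L, hL⟩ : ∃ L : ℝ, L = Real.log T := ⟨_, rfl⟩
  rw [← hL] at hL0
  have hk0 : (0 : ℝ) < k := lt_of_lt_of_le (by positivity) hk
  obtain ⟨c, hc⟩ : ∃ c : ℝ, c = 2 * Real.pi * lam := ⟨_, rfl⟩
  have hc0 : 0 < c := by rw [hc]; positivity
  rw [← hc] at hk
  have e1 : Mk T k t = ∑ s ∈ Zf riemannZeta T (2 * T), (mult riemannZeta s : ℝ) * Real.exp (-(s.im - t) ^ 2 / 2) /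
      (1 + (L * (s.im - t) / k) ^ 2) := by
    unfold SP.Mk
    rw [hL]
    exact H370.finsum_Zf good_zeta (by linarith) _
  have hpoint : ∀ u : ℝ, 1 / (1 + (u * (L / lam / (2 * Real.pi))) ^ 2) ≤
      2 * (Real.exp (-u ^ 2 / 2) / (1 + (L * u / k) ^ 2)) + 5 * (c ^ 2 / L ^ 2) * (1 / (1 + (u * 2) ^ 2)) := by
    intro u
    have e2 : u * (L / lam / (2 * Real.pi)) = L * u / c := by rw [hc]; field_simp
    rw [e2]
    have hp1 : 0 ≤ 2 * (Real.exp (-u ^ 2 / 2) / (1 + (L * u / k) ^ 2)) := by positivity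
    have hp2 : 0 ≤ 5 * (c ^ 2 / L ^ 2) * (1 / (1 + (u * 2) ^ 2)) := by positivity
    rcases le_total (|u|) 1 with hu | hu
    · have hu2 : u ^ 2 ≤ 1 := by rw [sq_le_one_iff_abs_le_one]; exact hu
      have hexp : 1 / 2 ≤ Real.exp (-u ^ 2 / 2) := by
        have := Real.add_one_le_exp (-u ^ 2 / 2)
        linarith
      have h3 : (L * u / k) ^ 2 ≤ (L * u / c) ^ 2 := by
        rw [div_pow, div_pow]
        exact div_le_div_of_nonneg_left (sq_nonneg _) (by positivity) (pow_le_pow_left₀ hc0.le hk 2)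
      have h4 : 1 / (1 + (L * u / c) ^ 2) ≤ 1 / (1 + (L * u / k) ^ 2) :=
        one_div_le_one_div_of_le (by positivity) (by linarith)
      have h5 : 1 / (1 + (L * u / k) ^ 2) ≤ 2 * (Real.exp (-u ^ 2 / 2) / (1 + (L * u / k) ^ 2)) := by
        rw [← mul_div_assoc]
        exact div_le_div_of_nonneg_right (by linarith) (by positivity)
      linarith
    · have hu2 : 1 ≤ u ^ 2 := by rw [← sq_abs]; nlinarith
      have hune : u ^ 2 ≠ 0 := by positivity
      have h3 : 1 / (1 + (L * u / c) ^ 2) ≤ c ^ 2 / L ^ 2 * (1 / u ^ 2) := by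
        have : c ^ 2 / L ^ 2 * (1 / u ^ 2) = 1 / (L * u / c) ^ 2 := by
          field_simp
        rw [this]
        have h0 : 0 < (L * u / c) ^ 2 := by
          have : u ≠ 0 := fun h => by rw [h] at hu2; norm_num at hu2
          positivity
        exact one_div_le_one_div_of_le h0 (by linarith)
      have h4 : 1 / u ^ 2 ≤ 5 * (1 / (1 + (u * 2) ^ 2)) := by
        rw [← mul_div_assoc, mul_one, div_le_div_iff₀ (by positivity) (by positivity)]
        nlinarith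
      have h5 : c ^ 2 / L ^ 2 * (1 / u ^ 2) ≤ c ^ 2 / L ^ 2 * (5 * (1 / (1 + (u * 2) ^ 2))) :=
        mul_le_mul_of_nonneg_left h4 (by positivity)
      linarith
  have hterm : ∀ s ∈ S, |mS s * Jk (yS (L / lam) s) (xS (L / lam) t s)| ≤
      (mult riemannZeta s : ℝ) * (CJ * (2 * (Real.exp (-(s.im - t) ^ 2 / 2) / (1 + (L * (s.im - t) / k) ^ 2)) +
        5 * (c ^ 2 / L ^ 2) * (1 / (1 + ((s.im - t) * 2) ^ 2)))) := by
    intro s hs
    have hs' := hS hs
    rw [mem_Zf good_zeta (by linarith)] at hs'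
    have hre : s.re = 1 / 2 := hRH s hs'.1 hs'.2.1 hs'.2.2.2.2
    rw [abs_mul, abs_of_nonneg (mS_nonneg s)]
    refine mul_le_mul_of_nonneg_left ?_ (Nat.cast_nonneg _)
    refine (hJ _ _).trans ?_
    have e2 : yS (L / lam) s = 0 := by unfold yS; rw [hre]; ring
    rw [e2, abs_zero, mul_zero, Real.exp_zero, mul_one]
    have := hpoint (s.im - t)
    calc CJ / (1 + xS (L / lam) t s ^ 2) = CJ * (1 / (1 + ((s.im - t) * (L / lam / (2 * Real.pi))) ^ 2)) := by
          unfold xS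
          ring
      _ ≤ _ := mul_le_mul_of_nonneg_left this hCJ.le
  rw [← hL]
  unfold GS
  refine (Finset.abs_sum_le_sum_abs _ _).trans ((Finset.sum_le_sum hterm).trans ?_)
  have hsub : ∑ s ∈ S, (mult riemannZeta s : ℝ) * (CJ * (2 * (Real.exp (-(s.im - t) ^ 2 / 2) / (1 + (L * (s.im - t) / k) ^ 2)) +
        5 * (c ^ 2 / L ^ 2) * (1 / (1 + ((s.im - t) * 2) ^ 2)))) ≤
      ∑ s ∈ Zf riemannZeta T (2 * T), (mult riemannZeta s : ℝ) * (CJ * (2 * (Real.exp (-(s.im - t) ^ 2 / 2) / (1 + (L * (s.im - t) / k) ^ 2)) +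
        5 * (c ^ 2 / L ^ 2) * (1 / (1 + ((s.im - t) * 2) ^ 2)))) :=
    Finset.sum_le_sum_of_subset_of_nonneg hS fun s _ _ => by positivity
  refine hsub.trans ?_
  have e3 : ∑ s ∈ Zf riemannZeta T (2 * T), (mult riemannZeta s : ℝ) * (CJ * (2 * (Real.exp (-(s.im - t) ^ 2 / 2) / (1 + (L * (s.im - t) / k) ^ 2)) +
        5 * (c ^ 2 / L ^ 2) * (1 / (1 + ((s.im - t) * 2) ^ 2)))) = CJ * (2 * Mk T k t + 5 * (c ^ 2 / L ^ 2) *
        ∑ s ∈ Zf riemannZeta T (2 * T), (mult riemannZeta s : ℝ) / (1 + ((s.im - t) * 2) ^ 2)) := by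
    rw [e1, Finset.mul_sum, Finset.mul_sum, ← Finset.sum_add_distrib, Finset.mul_sum]
    refine Finset.sum_congr rfl fun s _ => ?_
    ring
  rw [e3]
  have h4 := hw T hT t
  rw [← hL] at h4
  have hMk0 : 0 ≤ Mk T k t := by
    rw [e1]
    exact Finset.sum_nonneg fun s _ => by positivity
  have h5 : 5 * (c ^ 2 / L ^ 2) * ∑ s ∈ Zf riemannZeta T (2 * T), (mult riemannZeta s : ℝ) / (1 + ((s.im - t) * 2) ^ 2) ≤
      20 * Real.pi ^ 2 * C2 * (lam ^ 2 / L) := by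
    calc _ ≤ 5 * (c ^ 2 / L ^ 2) * (C2 * L) := mul_le_mul_of_nonneg_left h4 (by positivity)
      _ = _ := by rw [hc]; field_simp; ring
  rw [mul_assoc CJ (2 + 20 * Real.pi ^ 2 * C2)]
  refine mul_le_mul_of_nonneg_left ?_ hCJ.le
  have h6 : 0 ≤ lam ^ 2 / L := by positivity
  have h7 : 0 ≤ 20 * Real.pi ^ 2 * C2 := by positivity
  nlinarith [mul_nonneg h7 hMk0]

end

end Run7.h435.MD
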