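import Pool.Agent.R320.VQ.Var

/-! # The smooth remainder -/

set_option autoImplicit false

namespace Run7.h435.MD

open Complex Filter Topology MeasureTheory Set
open Pool.Agent.TH850.UV
open H370 (Zf mult mem_Zf good_zeta)
open H370.A2 (lamC)
open SP (RHs Mk Q1)
open Pool.Agent.R320.VQ (V_q)

noncomputable section

/-- the smooth remainder -/
def Rf (lam T U1 U2 : ℝ) (j : ℕ) (t : ℝ) : ℝ :=
  GS Qk (Zf riemannZeta U1 U2) (Real.log T / lam) t -
    GS Qk (Zf riemannZeta U1 U2) (Real.log T / lam) (t + 2 * Real.pi * j / Real.log T) - j +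
    Db (Real.log T / lam) (2 * Real.pi * j / Real.log T) (XT T) t

lemma Rf_cont (lam T U1 U2 : ℝ) (j : ℕ) : Continuous (Rf lam T U1 U2 j) := by
  have h1 := GSQ_cont (Zf riemannZeta U1 U2) (Real.log T / lam)
  have h2 := Db_cont (Real.log T / lam) (2 * Real.pi * j / Real.log T) (XT T)
  unfold Rf
  fun_prop

theorem R_small (hRH : RHs) {lam : ℝ} (hlam : 16 ≤ lam) (m : ℕ) (ε : ℝ) (hε : 0 < ε) :
    ∀ᶠ T : ℝ in atTop, ∃ U1 U2 : ℝ, T ≤ U1 ∧ U1 ≤ T + 1 ∧ 2 * T - 1 ≤ U2 ∧ U2 ≤ 2 * T ∧ ∀ j ∈ Finset.Icc 1 m,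
      ∫ t in (T + Real.log T)..(2 * T - Real.log T - 7), Rf lam T U1 U2 j t ^ 2 ≤ ε * T := by
  obtain ⟨CV, T1, hCV, hT1, hV⟩ := V_q hRH 0 (by linarith : 1 ≤ lam)
  norm_num at hV
  obtain ⟨CA, hCA, hA⟩ := An_Ac
  obtain ⟨CE, T2, hCE, hT2, hAc⟩ := Ac_est hlam
  have hpi := Real.pi_pos
  have hlam0 : 0 < lam := by linarith
  obtain ⟨Λ, hΛ⟩ : ∃ Λ : ℝ, Λ = (2 * Real.pi * lam) ^ 2 := ⟨_, rfl⟩
  have hΛ0 : 0 < Λ := by rw [hΛ]; positivity
  have hev : ∀ᶠ T : ℝ in atTop, 2 * Real.log T + 7 ≤ 1 * T / 2 := by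
    have h1 : (fun T : ℝ => 2 * Real.log T + 7) =o[atTop] fun T : ℝ => T :=
      (Real.isLittleO_log_id_atTop.const_mul_left 2).add (Asymptotics.isLittleO_const_id_atTop _)
    have h2 := h1.bound (c := 1 / 2) (by norm_num)
    filter_upwards [h2, eventually_ge_atTop 1] with T hT hT1
    rw [Real.norm_of_nonneg (by linarith : (0 : ℝ) ≤ T)] at hT
    have := (le_abs_self _).trans hT
    linarith
  have hsm : ∀ᶠ T : ℝ in atTop, 2 * (CE * m / Real.log T) ^ 2 +
      2 * (CA * Λ * (2 * Real.pi * lam) * (2 * Real.pi * m) / Real.log T) ^ 2 * CV ≤ ε := by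
    have h0 : ∀ c : ℝ, Tendsto (fun T : ℝ => (c / Real.log T) ^ 2) atTop (𝓝 0) := fun c => by
      have := (Real.tendsto_log_atTop.const_div_atTop c).pow 2
      rwa [zero_pow two_ne_zero] at this
    have h1 := ((h0 (CE * m)).const_mul 2).add (((h0 (CA * Λ * (2 * Real.pi * lam) * (2 * Real.pi * m))).const_mul 2).mul_const CV)
    rw [mul_zero, zero_mul, add_zero] at h1
    exact h1.eventually_le_const hε
  filter_upwards [eventually_ge_atTop T1, eventually_ge_atTop T2, hev, hsm,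
    Real.tendsto_log_atTop.eventually_ge_atTop (max 1 m)] with T hTT1 hTT2 g4 g6 g7
  have hT10 : 10 ≤ T := hT1.trans hTT1
  have hT0 : 0 < T := by linarith
  obtain ⟨hVi, hVb⟩ := hV T hTT1
  obtain ⟨U1, U2, hU1, hU1', hU2', hU2, hAct⟩ := hAc T hTT2
  have hAt := hA lam T (by linarith) hT10 U1 U2 hU1 hU2
  refine ⟨U1, U2, hU1, hU1', hU2', hU2, fun j hj => ?_⟩
  obtain ⟨L, hL⟩ : ∃ L : ℝ, L = Real.log T := ⟨_, rfl⟩
  rw [← hL] at hAct hAt g4 g6 g7 ⊢
  have hL1 : 1 ≤ L := (le_max_left _ _).trans g7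
  have hLm : (m : ℝ) ≤ L := (le_max_right _ _).trans g7
  have hL0 : 0 < L := by linarith
  have hjm : (j : ℝ) ≤ m := by exact_mod_cast (Finset.mem_Icc.1 hj).2
  have hj1 : (1 : ℝ) ≤ j := by exact_mod_cast (Finset.mem_Icc.1 hj).1
  obtain ⟨S, hS⟩ : ∃ S : Finset ℂ, S = Zf riemannZeta U1 U2 := ⟨_, rfl⟩
  obtain ⟨l, hl⟩ : ∃ l : ℝ, l = L / lam := ⟨_, rfl⟩
  have hl0 : 0 < l := by rw [hl]; positivity
  obtain ⟨W, hW⟩ : ∃ W : ℝ, W = l / (2 * Real.pi) := ⟨_, rfl⟩
  have hW0 : 0 < W := by rw [hW]; positivity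
  obtain ⟨h, hh⟩ : ∃ h : ℝ, h = 2 * Real.pi * j / L := ⟨_, rfl⟩
  have hh0 : 0 < h := by rw [hh]; positivity
  have hh7 : h ≤ 7 := by
    rw [hh, div_le_iff₀ hL0]
    nlinarith only [Real.pi_lt_d2, hLm, hjm, hL0, hj1]
  have hWh : W * lam * h = j := by
    rw [hW, hl, hh]; field_simp
  have hWh2 : W * h = j / lam := by
    rw [eq_div_iff hlam0.ne', ← hWh]; ring
  have hAB : T + L ≤ 2 * T - L - 7 := by linarith only [g4, hT0]
  have hVVc := VV_cont lam T
  have hqc := GSq_cont S l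
  have hDPc : Continuous fun τ => 2 * (1 / Real.sqrt (2 * Real.pi)) * (DDo lamC l (XT T) τ).re := by
    have := DDo_cont lamC l (XT T)
    exact continuous_const.mul (Complex.continuous_re.comp this)
  obtain ⟨DP, hDP⟩ : ∃ DP : ℝ → ℝ, DP = fun τ => 2 * (1 / Real.sqrt (2 * Real.pi)) * (DDo lamC l (XT T) τ).re := ⟨_, rfl⟩
  rw [← hDP] at hDPc
  have hRc := Rf_cont lam T U1 U2 j
  have hRint : ∀ t, Rf lam T U1 U2 j t = ∫ τ in t..(t + h), W * (GS qk S l τ - lam + DP τ) := by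
    intro t
    unfold Rf
    rw [← hL, ← hh, ← hl, ← hS]
    rw [BS_eq S l h t, Db_eq l h (XT T) t]
    have e1 : ∀ τ, W * (GS qk S l τ - lam + DP τ) = W * GS qk S l τ - W * lam + W * DP τ :=
      fun τ => by ring
    simp_rw [e1]
    rw [intervalIntegral.integral_add (Continuous.intervalIntegrable (by fun_prop) _ _)
      (Continuous.intervalIntegrable (by fun_prop) _ _),
      intervalIntegral.integral_sub (Continuous.intervalIntegrable (by fun_prop) _ _)
      (Continuous.intervalIntegrable (by fun_prop) _ _), intervalIntegral.integral_const,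
      smul_eq_mul]
    have e2 : (t + h - t) * (W * lam) = j := by rw [← hWh]; ring
    rw [e2, hW, hDP]
  have hRb : ∀ t ∈ Icc (T + L) (2 * T - L - 7), |Rf lam T U1 U2 j t| ≤ CE * j / L +
      (CA * Λ / W) * ∫ τ in t..(t + h), VV lam T τ := by
    intro t ht
    rw [hRint t]
    refine (intervalIntegral.abs_integral_le_integral_abs (by linarith only [hh0])).trans ?_
    have h1 : ∫ τ in t..(t + h), |W * (GS qk S l τ - lam + DP τ)| ≤
        ∫ τ in t..(t + h), (W * (CE / L) + CA * Λ / W * VV lam T τ) := by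
      refine intervalIntegral.integral_mono_on (by linarith only [hh0])
        (Continuous.intervalIntegrable (by fun_prop) _ _)
        (Continuous.intervalIntegrable (by fun_prop) _ _) fun τ hτ => ?_
      rw [abs_mul, abs_of_pos hW0]
      have h2 := hAct τ (by linarith only [ht.1, hτ.1]) (by linarith only [ht.2, hτ.2, hh7])
      have h3 := hAt τ
      rw [← hl] at h2 h3
      rw [← hW, ← hΛ, ← hS] at h3
      have h2' : |2 * (HTo l U1 U2 τ).re - (lam - DP τ)| ≤ CE / L := by rw [hDP]; exact h2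
      have h4 : |GS qk S l τ - lam + DP τ| ≤ CA / W ^ 2 * Λ * VV lam T τ + CE / L := by
        have e3 : GS qk S l τ - lam + DP τ = (GS qk S l τ - 2 * (HTo l U1 U2 τ).re) +
            (2 * (HTo l U1 U2 τ).re - (lam - DP τ)) := by ring
        rw [e3]
        exact (abs_add_le _ _).trans (add_le_add h3 h2')
      calc W * |GS qk S l τ - lam + DP τ| ≤ W * (CA / W ^ 2 * Λ * VV lam T τ + CE / L) :=
            mul_le_mul_of_nonneg_left h4 hW0.le
        _ = _ := by field_simp; ring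
    refine h1.trans ?_
    rw [intervalIntegral.integral_add (Continuous.intervalIntegrable (by fun_prop) _ _)
      (Continuous.intervalIntegrable (by fun_prop) _ _), intervalIntegral.integral_const,
      intervalIntegral.integral_const_mul, smul_eq_mul]
    have e4 : (t + h - t) * (W * (CE / L)) = CE * j / L / lam := by
      have : (t + h - t) * (W * (CE / L)) = (W * h) * (CE / L) := by ring
      rw [this, hWh2]; field_simp
    rw [e4]
    have e5 : CE * j / L / lam ≤ CE * j / L := div_le_self (by positivity) (by linarith only [hlam])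
    linarith only [e5]
  have hRes := R_est hAB hh0.le hRc hVVc hVi hRb
  refine hRes.trans ?_
  have hI0 : 0 ≤ ∫ t, VV lam T t ^ 2 := integral_nonneg fun t => sq_nonneg _
  have a1 : 2 * (CE * j / L) ^ 2 * (2 * T - L - 7 - (T + L)) ≤ 2 * (CE * m / L) ^ 2 * T := by
    have h1 : (CE * j / L) ^ 2 ≤ (CE * m / L) ^ 2 := by gcongr
    have h2 : 2 * T - L - 7 - (T + L) ≤ T := by linarith
    have h3 : 0 ≤ 2 * T - L - 7 - (T + L) := by linarith
    calc 2 * (CE * j / L) ^ 2 * (2 * T - L - 7 - (T + L)) ≤ 2 * (CE * m / L) ^ 2 * (2 * T - L - 7 - (T + L)) := by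
          gcongr
      _ ≤ _ := by gcongr
  have a2 : 2 * (CA * Λ / W) ^ 2 * h * (h * ∫ t, VV lam T t ^ 2) ≤
      2 * (CA * Λ * (2 * Real.pi * lam) * (2 * Real.pi * m) / L) ^ 2 * CV * T := by
    have h1 : CA * Λ / W * h ≤ CA * Λ * (2 * Real.pi * lam) * (2 * Real.pi * m) / L := by
      have e : CA * Λ / W * h = CA * Λ * (2 * Real.pi * lam) * (2 * Real.pi * j) / L / L := by
        rw [hW, hl, hh]; field_simp
      rw [e]
      calc CA * Λ * (2 * Real.pi * lam) * (2 * Real.pi * j) / L / L ≤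
          CA * Λ * (2 * Real.pi * lam) * (2 * Real.pi * j) / L := div_le_self (by positivity) hL1
        _ ≤ _ := by gcongr
    calc 2 * (CA * Λ / W) ^ 2 * h * (h * ∫ t, VV lam T t ^ 2) = 2 * (CA * Λ / W * h) ^ 2 * ∫ t, VV lam T t ^ 2 := by ring
      _ ≤ 2 * (CA * Λ * (2 * Real.pi * lam) * (2 * Real.pi * m) / L) ^ 2 * (CV * T) := by gcongr
      _ = _ := by ring
  calc _ ≤ 2 * (CE * m / L) ^ 2 * T + 2 * (CA * Λ * (2 * Real.pi * lam) * (2 * Real.pi * m) / L) ^ 2 * CV * T :=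
        add_le_add a1 a2
    _ = (2 * (CE * m / L) ^ 2 + 2 * (CA * Λ * (2 * Real.pi * lam) * (2 * Real.pi * m) / L) ^ 2 * CV) * T := by ring
    _ ≤ ε * T := by gcongr

/-- the count in terms of the pieces -/
lemma NS_pieces (lam T U1 U2 : ℝ) (hl : 0 < Real.log T / lam) (j : ℕ) (hh : 0 ≤ 2 * Real.pi * j / Real.log T) (t : ℝ) :
    NS (Zf riemannZeta U1 U2) (2 * Real.pi * j / Real.log T) t - j +
      Db (Real.log T / lam) (2 * Real.pi * j / Real.log T) (XT T) t = Rf lam T U1 U2 j t -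
      (GS Jk (Zf riemannZeta U1 U2) (Real.log T / lam) t -
        GS Jk (Zf riemannZeta U1 U2) (Real.log T / lam) (t + 2 * Real.pi * j / Real.log T)) := by
  unfold Rf
  rw [NS_eq _ hl hh t]
  ring

end

end Run7.h435.MD
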