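import Pool.Agent.Run7.h435.MDba
import Pool.Agent.Run7.h435.MDm
import Pool.Agent.Run7.h435.MDn

/-! # The zero side -/

set_option autoImplicit false

namespace Run7.h435.MD

open Complex Filter Topology MeasureTheory Set
open Pool.Agent.TH850.UV
open H370 (Zf mult mem_Zf good_zeta)
open H370.A2 (lamC)
open SP (RHs Mk Q1)
open SG (NZ)
open Pool.Agent.Y743.LR (cnt_NZ)

noncomputable section
/-- **the zero side** -/
theorem zero_side (hRH : RHs) : ∃ C : ℝ, 0 < C ∧ ∀ (lam : ℝ) (k : ℕ), 16 ≤ lam → 2 * Real.pi * lam ≤ k →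
    ∀ (m : ℕ) (ε : ℝ), 0 < ε → ∀ᶠ T : ℝ in atTop,
      PT T {t | ∃ j ∈ Finset.Icc 1 m, C * k < |((NZ (t + 2 * Real.pi * j / Real.log T) : ℝ) - NZ t) - j +
      Db (Real.log T / lam) (2 * Real.pi * j / Real.log T) (XT T) t|} ≤ (6 * (m + 1) * (C / k) ^ k + ε) * T := by
  obtain ⟨CJ, hCJ, hJ⟩ := J_pt hRH
  obtain ⟨CM, TM, hCM, hTM, hM⟩ := SP.Mk_bound hRH (1 / 4) (by norm_num) (by norm_num)
  obtain ⟨CQ, TQ, hCQ, hTQ, hQ⟩ := LG.CTAux.leb_mom (1 / 4) (by norm_num) (by norm_num)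
  refine ⟨max (2 * (CJ * (2 * CM + 1)) + 1) CQ, lt_max_of_lt_right hCQ, fun lam k hlam hk m ε hε => ?_⟩
  obtain ⟨C, hC⟩ : ∃ C : ℝ, C = max (2 * (CJ * (2 * CM + 1)) + 1) CQ := ⟨_, rfl⟩
  rw [← hC]
  have hC1 : 2 * (CJ * (2 * CM + 1)) + 1 ≤ C := by rw [hC]; exact le_max_left _ _
  have hC2 : CQ ≤ C := by rw [hC]; exact le_max_right _ _
  have hpi := Real.pi_pos
  have hpi3 := Real.pi_gt_three
  have hlam0 : 0 < lam := by linarith
  have hk96 : (96 : ℝ) ≤ k := by nlinarith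
  have hk1 : 1 ≤ k := by
    have : (1 : ℝ) ≤ k := by linarith
    exact_mod_cast this
  have hk0 : (0 : ℝ) < k := by linarith
  have hR := R_small hRH hlam m (ε / (2 * (m + 1))) (by positivity)
  have hev : ∀ᶠ T : ℝ in atTop, 2 * Real.log T + 7 ≤ min (1 / 2) (ε / 2) * T := by
    have h1 : (fun T : ℝ => 2 * Real.log T + 7) =o[atTop] fun T : ℝ => T :=
      (Real.isLittleO_log_id_atTop.const_mul_left 2).add (Asymptotics.isLittleO_const_id_atTop _)
    have h2 := h1.bound (c := min (1 / 2) (ε / 2)) (lt_min (by norm_num) (by positivity))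
    filter_upwards [h2, eventually_ge_atTop 1] with T hT hT1
    rw [Real.norm_of_nonneg (by linarith : (0 : ℝ) ≤ T)] at hT
    exact (le_abs_self _).trans hT
  filter_upwards [hR, hev, eventually_ge_atTop TM, eventually_ge_atTop TQ, eventually_ge_atTop 10,
    Real.tendsto_log_atTop.eventually_ge_atTop (max 1 (max m (lam ^ 2)))] with T hRT g4 hTTM hTTQ hT10 g7
  obtain ⟨U1, U2, hU1, hU1', hU2', hU2, hRj⟩ := hRT
  have hT0 : 0 < T := by linarith
  obtain ⟨L, hL⟩ : ∃ L : ℝ, L = Real.log T := ⟨_, rfl⟩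
  rw [← hL] at hRj g4 g7 ⊢
  have hL1 : 1 ≤ L := (le_max_left _ _).trans g7
  have hLm : (m : ℝ) ≤ L := (le_max_left _ _).trans ((le_max_right _ _).trans g7)
  have hLlam : lam ^ 2 ≤ L := (le_max_right _ _).trans ((le_max_right _ _).trans g7)
  have hL0 : 0 < L := by linarith
  have hh7 : ∀ j ≤ m, 0 ≤ 2 * Real.pi * j / L ∧ 2 * Real.pi * j / L ≤ 7 := by
    intro j hj
    have hjm : (j : ℝ) ≤ m := by exact_mod_cast hj
    refine ⟨by positivity, ?_⟩
    rw [div_le_iff₀ hL0]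
    have hj0 : (0 : ℝ) ≤ j := Nat.cast_nonneg j
    nlinarith only [Real.pi_lt_d2, hLm, hjm, hL0, hj0]
  have g4a : 2 * L + 7 ≤ 1 / 2 * T := g4.trans (mul_le_mul_of_nonneg_right (min_le_left _ _) hT0.le)
  have g4b : 2 * L + 7 ≤ ε / 2 * T := g4.trans (mul_le_mul_of_nonneg_right (min_le_right _ _) hT0.le)
  have hAB : T + L ≤ 2 * T - L - 7 := by linarith
  obtain ⟨S, hS⟩ : ∃ S : Finset ℂ, S = Zf riemannZeta U1 U2 := ⟨_, rfl⟩
  have hsub : S ⊆ Zf riemannZeta T (2 * T) := by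
    intro s hs
    rw [hS, mem_Zf good_zeta (by linarith)] at hs
    rw [mem_Zf good_zeta (by linarith)]
    exact ⟨hs.1, hs.2.1, by linarith [hs.2.2.1], by linarith [hs.2.2.2.1], hs.2.2.2.2⟩
  have hQc : Continuous fun u => ‖Q1 (1 / 4) T k u‖ := (LG.CTAux.Q1_cont (1 / 4) T k).norm
  -- inclusion
  have hinc : ∀ t ∈ Ioc T (2 * T), t ∈ {t | ∃ j ∈ Finset.Icc 1 m, C * k < |((NZ (t + 2 * Real.pi * j / L) : ℝ) - NZ t) - j +
      Db (L / lam) (2 * Real.pi * j / L) (XT T) t|} → t ∈ ({t | t ∈ Ioc T (T + L)} ∪ {t | t ∈ Ioc (2 * T - L - 7) (2 * T)}) ∪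
      ({t | ∃ i ∈ Finset.range (m + 1), t ∈ {t | t ∈ Ioc (T + L) (2 * T - L - 7) ∧ 1 ≤ ‖Q1 (1 / 4) T k (t + 2 * Real.pi * i / L)‖}} ∪
      {t | ∃ j ∈ Finset.Icc 1 m, t ∈ {t | t ∈ Ioc (T + L) (2 * T - L - 7) ∧ 1 ≤ |Rf lam T U1 U2 j t|}}) := by
    rintro t ht ⟨j, hj, hjt⟩
    by_contra hcon
    simp only [Set.mem_union, Set.mem_ofPred_eq, not_or, not_exists, not_and, not_le] at hcon
    obtain ⟨⟨n1, n2⟩, n3, n4⟩ := hcon
    have t1 : T + L < t := by
      by_contra hc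
      exact n1 ⟨ht.1, not_lt.1 hc⟩
    have t2 : t ≤ 2 * T - L - 7 := by
      by_contra hc
      exact n2 ⟨not_le.1 hc, ht.2⟩
    have hjm := (Finset.mem_Icc.1 hj).2
    obtain ⟨q1, q2⟩ := hh7 j hjm
    have b1 : ((NZ (t + 2 * Real.pi * j / L) : ℝ) - NZ t) = NS S (2 * Real.pi * j / L) t := by
      rw [hS, ← cnt_NZ (by linarith) q1]
      exact cnt_eq (by linarith) (by linarith) (by linarith)
    have b2 := NS_pieces lam T U1 U2 (by rw [← hL]; positivity) j (by rw [← hL]; exact q1) t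
    rw [← hL, ← hS] at b2
    rw [b1, b2] at hjt
    have b3 := n4 j hj ⟨t1, t2⟩
    have hJJ : ∀ i ≤ m, |GS Jk S (L / lam) (t + 2 * Real.pi * i / L)| ≤ CJ * (2 * CM + 1) * k := by
      intro i hi
      obtain ⟨r1, r2⟩ := hh7 i hi
      have c1 := hJ lam k (by linarith) hk T hT10 S hsub (t + 2 * Real.pi * i / L)
      have c2 := hM T hTTM (t + 2 * Real.pi * i / L) (by rw [← hL]; linarith) (by rw [← hL]; linarith) k hk1
      have c3 := n3 i (Finset.mem_range.2 (by omega)) ⟨t1, t2⟩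
      rw [← hL] at c1
      refine c1.trans ?_
      rw [mul_assoc CJ (2 * CM + 1)]
      refine mul_le_mul_of_nonneg_left ?_ hCJ.le
      have c4 : lam ^ 2 / L ≤ 1 := by rw [div_le_one hL0]; exact hLlam
      have c5 : CM * k * (1 + ‖Q1 (1 / 4) T k (t + 2 * Real.pi * i / L)‖) ≤ CM * k * 2 := by
        apply mul_le_mul_of_nonneg_left _ (by positivity)
        linarith
      nlinarith
    have d1 := hJJ 0 (Nat.zero_le m)
    rw [Nat.cast_zero, mul_zero, zero_div, add_zero] at d1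
    have d2 := hJJ j hjm
    have d3 : |Rf lam T U1 U2 j t - (GS Jk S (L / lam) t - GS Jk S (L / lam) (t + 2 * Real.pi * j / L))| ≤
        |Rf lam T U1 U2 j t| + (|GS Jk S (L / lam) t| + |GS Jk S (L / lam) (t + 2 * Real.pi * j / L)|) :=
      (abs_sub _ _).trans (add_le_add le_rfl (abs_sub _ _))
    have d4 : (2 * (CJ * (2 * CM + 1)) + 1) * k ≤ C * k := mul_le_mul_of_nonneg_right hC1 hk0.le
    nlinarith
  refine (PT_mono hinc).trans ((PT_union _ _ _).trans ((add_le_add (PT_union _ _ _) ((PT_union _ _ _).trans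
    (add_le_add (PT_biUnion _ _ _) (PT_biUnion _ _ _)))).trans ?_))
  have p1 := PT_Ioc T T (T + L) (by linarith) (S := {t | t ∈ Ioc T (T + L)}) (fun t _ h => h)
  have p2 := PT_Ioc T (2 * T - L - 7) (2 * T) (by linarith) (S := {t | t ∈ Ioc (2 * T - L - 7) (2 * T)}) (fun t _ h => h)
  have p3 : ∀ i ∈ Finset.range (m + 1), PT T {t | t ∈ Ioc (T + L) (2 * T - L - 7) ∧ 1 ≤ ‖Q1 (1 / 4) T k (t + 2 * Real.pi * i / L)‖} ≤
      6 * T * (C / k) ^ k := by
    intro i hi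
    have him : i ≤ m := by have := Finset.mem_range.1 hi; omega
    obtain ⟨r1, r2⟩ := hh7 i him
    have hcc : Continuous fun t => ‖Q1 (1 / 4) T k (t + 2 * Real.pi * i / L)‖ ^ (2 * k) :=
      (hQc.comp (by fun_prop : Continuous fun t : ℝ => t + 2 * Real.pi * i / L)).pow _
    have h1 := PT_markov2 (T := T) hAB (f := fun t => ‖Q1 (1 / 4) T k (t + 2 * Real.pi * i / L)‖ ^ (2 * k))
      (hcc.intervalIntegrable _ _) (fun t => by positivity) (c := 1) one_pos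
      (S := {t | t ∈ Ioc (T + L) (2 * T - L - 7) ∧ 1 ≤ ‖Q1 (1 / 4) T k (t + 2 * Real.pi * i / L)‖})
      (fun t _ ht => ⟨ht.1, one_le_pow₀ ht.2⟩)
    rw [div_one, intervalIntegral.integral_comp_add_right (fun t => ‖Q1 (1 / 4) T k t‖ ^ (2 * k))] at h1
    have h2 := hQ T hTTQ k hk1 (T + L + 2 * Real.pi * i / L) (2 * T - L - 7 + 2 * Real.pi * i / L)
      (by linarith) (by linarith) (by linarith)
    refine h1.trans (h2.trans ?_)
    gcongr
  have p4 : ∀ j ∈ Finset.Icc 1 m, PT T {t | t ∈ Ioc (T + L) (2 * T - L - 7) ∧ 1 ≤ |Rf lam T U1 U2 j t|} ≤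
      ε / (2 * (m + 1)) * T := by
    intro j hj
    have hc := Rf_cont lam T U1 U2 j
    have h1 := PT_markov2 (T := T) hAB (f := fun t => Rf lam T U1 U2 j t ^ 2)
      (Continuous.intervalIntegrable (by fun_prop) _ _) (fun t => by positivity) (c := 1) one_pos
      (S := {t | t ∈ Ioc (T + L) (2 * T - L - 7) ∧ 1 ≤ |Rf lam T U1 U2 j t|})
      (fun t _ ht => ⟨ht.1, by rw [← sq_abs]; exact one_le_pow₀ ht.2⟩)
    rw [div_one] at h1
    exact h1.trans (hRj j hj)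
  have p5 := Finset.sum_le_sum p3
  have p6 := Finset.sum_le_sum p4
  rw [Finset.sum_const, Finset.card_range, nsmul_eq_mul] at p5
  rw [Finset.sum_const, Nat.card_Icc, Nat.add_sub_cancel, nsmul_eq_mul] at p6
  push_cast at p5
  have p7 : (m : ℝ) * (ε / (2 * (m + 1)) * T) ≤ ε / 2 * T := by
    have : (m : ℝ) * (ε / (2 * (m + 1)) * T) = (ε / 2 * T) * (m / (m + 1)) := by field_simp
    rw [this]
    apply mul_le_of_le_one_right (by positivity)
    rw [div_le_one (by positivity)]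
    linarith
  calc _ ≤ ((T + L - T) + (2 * T - (2 * T - L - 7))) + (((m : ℝ) + 1) * (6 * T * (C / k) ^ k) +
        (m : ℝ) * (ε / (2 * (m + 1)) * T)) := add_le_add (add_le_add p1 p2) (add_le_add p5 p6)
    _ ≤ (6 * (m + 1) * (C / k) ^ k + ε) * T := by nlinarith

end

end Run7.h435.MD
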