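import Pool.Agent.R320.VQ.Var
import Pool.Agent.Run7.h435.MDf

/-! # The coefficients of the prime side -/

set_option autoImplicit false

namespace Run7.h435.MD

open Complex Filter Topology MeasureTheory Set
open Pool.Agent.TH850.UV
open H370.A2 (lamC)
open Pool.Agent.Y743.CL (Pr mem_Pr XK pp_sum kap_bd)
open ArithmeticFunction (vonMangoldt)

noncomputable section

/-- the weight -/
def qw (l : ℝ) (p : ℕ) : ℝ := l * ggo l p / Real.sqrt (2 * Real.pi)

lemma sq2pi : 5 / 2 ≤ Real.sqrt (2 * Real.pi) := by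
  apply Real.le_sqrt_of_sq_le
  have := Real.pi_gt_d2
  linarith

lemma qw_nonneg {l : ℝ} (hl : 0 < l) (p : ℕ) : 0 ≤ qw l p := by
  have := ggo_nonneg l p
  unfold qw
  positivity

lemma qw_le {l : ℝ} (hl : 0 < l) (p : ℕ) : qw l p ≤ 1 := by
  have h := ggo_le hl p
  have h2 := sq2pi
  unfold qw
  rw [div_le_one (by linarith)]
  rw [le_div_iff₀ hl] at h
  linarith

lemma qw_low {l : ℝ} (hl : 1 ≤ l) {p : ℕ} (hp : 1 ≤ p) (hpl : Real.log p ≤ l / 2) :
    1 - qw l p ≤ 16 * ((1 + Real.log p) / l + 1 / p) := by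
  have h := ggo_low hl p hp hpl
  have h2 := sq2pi
  have hs : 0 < Real.sqrt (2 * Real.pi) := by linarith
  have hl0 : 0 < l := by linarith
  have hp0 : (0 : ℝ) < p := by exact_mod_cast hp
  have hlog : 0 ≤ Real.log p := Real.log_nonneg (by exact_mod_cast hp)
  have h3 : 0 ≤ (1 + Real.log p) / l + 1 / p := by positivity
  have h4 : 1 - 16 * ((1 + Real.log p) / l + 1 / p) ≤ qw l p := by
    unfold qw
    rw [le_div_iff₀ hs]
    nlinarith
  linarith

lemma kap_prime {l : ℝ} (h : ℝ) {p : ℕ} (hp : p.Prime) :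
    (Real.pi : ℂ) * kap l h p = I * (((qw l p * (Real.sqrt p)⁻¹ : ℝ) : ℂ) * ((p : ℂ) ^ (-(h : ℂ) * I) - 1)) := by
  have hpi : (Real.pi : ℂ) ≠ 0 := by exact_mod_cast Real.pi_ne_zero
  have hlog : Real.log p ≠ 0 := (Real.log_pos (by exact_mod_cast hp.one_lt)).ne'
  have hlogC : (Real.log p : ℂ) ≠ 0 := by exact_mod_cast hlog
  have hs : (Real.sqrt (2 * Real.pi) : ℂ) ≠ 0 := by
    have := sq2pi
    exact_mod_cast (by linarith : Real.sqrt (2 * Real.pi) ≠ 0)
  unfold kap qw H370.A2.lamC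
  rw [ArithmeticFunction.vonMangoldt_apply_prime hp]
  generalize (p : ℂ) ^ (-(h : ℂ) * I) = z
  generalize Real.log (p : ℝ) = ℓ at hlog hlogC ⊢
  have e : (1 - z) / (I * (ℓ : ℂ)) = I * (z - 1) / (ℓ : ℂ) := by
    rw [div_eq_div_iff (mul_ne_zero I_ne_zero hlogC) hlogC]
    linear_combination (-(z - 1) * (ℓ : ℂ)) * I_sq
  rw [e]
  push_cast
  field_simp

/-- the coefficients -/
def bj (a b T l h : ℝ) (p : ℕ) : ℂ :=
  (Real.pi : ℂ) * kap l h p + (-I) * (lv a b T p * ((p : ℂ) ^ (-(h : ℂ) * I) - 1))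

lemma bj_sq (a b T l h : ℝ) {p : ℕ} (hp : p.Prime) : ‖bj a b T l h p‖ ^ 2 =
    (qw l p - (if a < Real.log p / Real.log T ∧ Real.log p / Real.log T ≤ b then 1 else 0)) ^ 2 *
      (2 * (1 - Real.cos (h * Real.log p))) / p := by
  have hp0 : (0 : ℝ) < p := by exact_mod_cast hp.pos
  obtain ⟨χ, hχ⟩ : ∃ χ : ℝ, χ = if a < Real.log p / Real.log T ∧ Real.log p / Real.log T ≤ b then 1 else 0 := ⟨_, rfl⟩
  have hlv : lv a b T p = ((χ * (Real.sqrt p)⁻¹ : ℝ) : ℂ) := by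
    unfold lv
    rw [hχ]
    split_ifs <;> simp
  have e : bj a b T l h p = (I * (((qw l p - χ) * (Real.sqrt p)⁻¹ : ℝ) : ℂ)) * ((p : ℂ) ^ (-(h : ℂ) * I) - 1) := by
    unfold bj
    rw [kap_prime h hp, hlv]
    push_cast
    ring
  rw [e, norm_mul, norm_mul, Complex.norm_I, one_mul, Complex.norm_real, mul_pow, Real.norm_eq_abs, sq_abs, ← hχ,
    norm_sub_rev, norm_one_sub_cpow p hp.one_le h, mul_pow, inv_pow, Real.sq_sqrt hp0.le]
  ring

lemma cos_bds (x : ℝ) : 0 ≤ 2 * (1 - Real.cos x) ∧ 2 * (1 - Real.cos x) ≤ 4 ∧ 2 * (1 - Real.cos x) ≤ x ^ 2 := by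
  refine ⟨?_, ?_, ?_⟩
  · linarith [Real.cos_le_one x]
  · linarith [Real.neg_one_le_cos x]
  · have := Real.one_sub_sq_div_two_le_cos (x := x)
    linarith

/-- the variance of the difference, term by term -/
lemma bj_le {a b T l κ : ℝ} {m j : ℕ} (hm : 1 ≤ m) (hj : j ≤ m) (hT : 1 < T)
    (hl : l = κ * Real.log T) (hl1 : 1 ≤ l) (hbκ : 2 * b ≤ κ) {p : ℕ} (hp : p.Prime) (hpκ : Real.log p / Real.log T ≤ κ) :
    ‖bj a b T l (2 * Real.pi * j / Real.log T) p‖ ^ 2 ≤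
      ((if 0 < Real.log p / Real.log T ∧ Real.log p / Real.log T ≤ 1 / m then
        (2 * Real.pi) ^ 2 * m * (Real.log p / Real.log T) / p else 0) +
      (if 1 / m < Real.log p / Real.log T ∧ Real.log p / Real.log T ≤ a then 4 / (p : ℝ) else 0)) +
      ((if a < Real.log p / Real.log T ∧ Real.log p / Real.log T ≤ b then
        (2048 * ((b / κ) ^ 2 + (1 / l + T ^ (-a)) ^ 2)) / (p : ℝ) else 0) +
      (if b < Real.log p / Real.log T ∧ Real.log p / Real.log T ≤ κ then 4 / (p : ℝ) else 0)) := by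
  have hL : 0 < Real.log T := Real.log_pos hT
  have hT0 : 0 < T := by linarith
  have hp0 : (0 : ℝ) < p := by exact_mod_cast hp.pos
  have hlp : 0 < Real.log p := Real.log_pos (by exact_mod_cast hp.one_lt)
  have hm0 : (0 : ℝ) < m := by exact_mod_cast hm
  have hpi := Real.pi_pos
  have hl0 : 0 < l := by linarith
  have hκ0 : 0 < κ := by
    by_contra hc
    push Not at hc
    nlinarith
  obtain ⟨v, hv⟩ : ∃ v : ℝ, v = Real.log p / Real.log T := ⟨_, rfl⟩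
  have hv0 : 0 < v := by rw [hv]; positivity
  have hlogp : Real.log p = v * Real.log T := by rw [hv]; field_simp
  rw [bj_sq a b T l _ hp, ← hv]
  rw [← hv] at hpκ
  have hq0 := qw_nonneg hl0 p
  have hq1 := qw_le hl0 p
  obtain ⟨w, hw⟩ : ∃ w : ℝ, w = 2 * (1 - Real.cos (2 * Real.pi * j / Real.log T * Real.log p)) := ⟨_, rfl⟩
  obtain ⟨w0, w4, w2⟩ := cos_bds (2 * Real.pi * j / Real.log T * Real.log p)
  rw [← hw] at w0 w4 w2 ⊢
  obtain ⟨χ, hχ⟩ : ∃ χ : ℝ, χ = if a < v ∧ v ≤ b then 1 else 0 := ⟨_, rfl⟩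
  rw [← hχ]
  have hχq : (qw l p - χ) ^ 2 ≤ 1 := by
    rw [hχ]
    split_ifs <;> nlinarith
  have t1 : 0 ≤ (if 0 < v ∧ v ≤ 1 / m then (2 * Real.pi) ^ 2 * m * v / p else 0) := by
    split_ifs
    · positivity
    · exact le_rfl
  have t2 : 0 ≤ (if 1 / m < v ∧ v ≤ a then 4 / (p : ℝ) else 0) := by
    split_ifs
    · positivity
    · exact le_rfl
  have t3 : 0 ≤ (if a < v ∧ v ≤ b then (2048 * ((b / κ) ^ 2 + (1 / l + T ^ (-a)) ^ 2)) / (p : ℝ) else 0) := by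
    split_ifs
    · positivity
    · exact le_rfl
  have t4 : 0 ≤ (if b < v ∧ v ≤ κ then 4 / (p : ℝ) else 0) := by
    split_ifs
    · positivity
    · exact le_rfl
  have hgen : (qw l p - χ) ^ 2 * w / p ≤ 4 / p := by
    apply div_le_div_of_nonneg_right _ hp0.le
    calc (qw l p - χ) ^ 2 * w ≤ 1 * 4 := mul_le_mul hχq w4 w0 zero_le_one
      _ = 4 := by norm_num
  by_cases c1 : v ≤ 1 / m
  · rw [if_pos (show 0 < v ∧ v ≤ 1 / m from ⟨hv0, c1⟩)] at t1 ⊢
    have h1 : w ≤ (2 * Real.pi) ^ 2 * m * v := by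
      refine w2.trans ?_
      have e : 2 * Real.pi * j / Real.log T * Real.log p = 2 * Real.pi * j * v := by
        rw [hlogp]; field_simp
      rw [e]
      have hjm : (j : ℝ) ≤ m := by exact_mod_cast hj
      have h2 : (2 * Real.pi * j * v) ^ 2 ≤ (2 * Real.pi * m * v) ^ 2 := by gcongr
      have h3 : (2 * Real.pi * m * v) ^ 2 = (2 * Real.pi) ^ 2 * m * v * (m * v) := by ring
      have h4 : m * v ≤ 1 := by
        rw [le_div_iff₀ hm0] at c1
        linarith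
      have h5 : (2 * Real.pi) ^ 2 * m * v * (m * v) ≤ (2 * Real.pi) ^ 2 * m * v * 1 := by gcongr
      linarith
    have h2 : (qw l p - χ) ^ 2 * w / p ≤ (2 * Real.pi) ^ 2 * m * v / p := by
      apply div_le_div_of_nonneg_right _ hp0.le
      calc (qw l p - χ) ^ 2 * w ≤ 1 * ((2 * Real.pi) ^ 2 * m * v) := mul_le_mul hχq h1 w0 zero_le_one
        _ = _ := one_mul _
    linarith
  push Not at c1
  by_cases c2 : v ≤ a
  · rw [if_pos (show 1 / (m : ℝ) < v ∧ v ≤ a from ⟨c1, c2⟩)] at t2 ⊢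
    linarith
  push Not at c2
  by_cases c3 : v ≤ b
  · rw [if_pos (show a < v ∧ v ≤ b from ⟨c2, c3⟩)] at t3 ⊢
    rw [if_pos ⟨c2, c3⟩] at hχ
    have hlow := qw_low hl1 hp.one_le (by
      rw [hlogp, hl]
      nlinarith)
    have e1 : (1 + Real.log p) / l + 1 / p = v / κ + (1 / l + 1 / p) := by
      rw [hlogp, hl]
      field_simp
      ring
    have hpT : 1 / (p : ℝ) ≤ T ^ (-a) := by
      rw [Real.rpow_neg hT0.le, one_div]
      apply inv_anti₀ (by positivity)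
      rw [Real.rpow_def_of_pos hT0, ← Real.le_log_iff_exp_le hp0, hlogp]
      nlinarith
    have h1 : 1 - qw l p ≤ 16 * (b / κ + (1 / l + T ^ (-a))) := by
      rw [e1] at hlow
      have : v / κ ≤ b / κ := by gcongr
      linarith
    have h2 : (qw l p - χ) ^ 2 ≤ 512 * ((b / κ) ^ 2 + (1 / l + T ^ (-a)) ^ 2) := by
      rw [hχ]
      have h3 : (qw l p - 1) ^ 2 = (1 - qw l p) ^ 2 := by ring
      rw [h3]
      have h4 : (1 - qw l p) ^ 2 ≤ (16 * (b / κ + (1 / l + T ^ (-a)))) ^ 2 :=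
        pow_le_pow_left₀ (by linarith) h1 2
      nlinarith [sq_nonneg (b / κ - (1 / l + T ^ (-a)))]
    have h3 : (qw l p - χ) ^ 2 * w / p ≤ (2048 * ((b / κ) ^ 2 + (1 / l + T ^ (-a)) ^ 2)) / p := by
      apply div_le_div_of_nonneg_right _ hp0.le
      have h5 : 0 ≤ (b / κ) ^ 2 + (1 / l + T ^ (-a)) ^ 2 := by positivity
      calc (qw l p - χ) ^ 2 * w ≤ (512 * ((b / κ) ^ 2 + (1 / l + T ^ (-a)) ^ 2)) * 4 :=
            mul_le_mul h2 w4 w0 (by positivity)
        _ = _ := by ring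
    linarith
  push Not at c3
  rw [if_pos (show b < v ∧ v ≤ κ from ⟨c3, hpκ⟩)] at t4 ⊢
  linarith

end

end Run7.h435.MD
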