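import Pool.Agent.R320.VQ.Var
import Pool.Agent.Run7.h435.MDf

/-! # The prime side -/

set_option autoImplicit false

namespace Run7.h435.MD

open Complex Filter Topology MeasureTheory Set
open Pool.Agent.TH850.UV
open H370.A2 (lamC)
open Pool.Agent.Y743.CL (Pr mem_Pr XK pp_sum kap_bd)
open Pool.Agent.R320.VQ (far_sum)
open ArithmeticFunction (vonMangoldt)

noncomputable section

/-- a bound for the coefficients at the proper prime powers -/
def Fp (h : ℝ) (n : ℕ) : ℝ := if IsPrimePow n ∧ ¬ n.Prime then 1 / (n : ℝ) * min 1 ((h * Real.log n) ^ 2) else 0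

lemma Fp_bd {l : ℝ} (hl : 0 < l) (h : ℝ) {n : ℕ} (hn : 2 ≤ n) :
    ‖(if n.Prime then 0 else kap l h n)‖ ^ 2 ≤ Fp h n := by
  unfold Fp
  by_cases hp : n.Prime
  · rw [if_pos hp, if_neg (fun h => h.2 hp)]
    simp
  rw [if_neg hp]
  have hn0 : (0 : ℝ) < n := by exact_mod_cast (by omega : 0 < n)
  by_cases hpp : IsPrimePow n
  · rw [if_pos ⟨hpp, hp⟩]
    have h1 := kap_bd hl h n hn
    rw [if_pos hpp] at h1
    have h2 := kap_sq hl h n hn
    have hlog : 0 < Real.log n := Real.log_pos (by exact_mod_cast (by omega : 1 < n))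
    have hpi := Real.pi_pos
    have h3 : ‖kap l h n‖ ^ 2 ≤ 1 / n * (h * Real.log n) ^ 2 := by
      rw [h2]
      have a1 : vonMangoldt n ^ 2 / (n * Real.log n ^ 2) ≤ 1 / n := by
        rw [div_le_div_iff₀ (by positivity) hn0]
        have h3 : vonMangoldt n ^ 2 ≤ Real.log n ^ 2 :=
          pow_le_pow_left₀ ArithmeticFunction.vonMangoldt_nonneg
            ArithmeticFunction.vonMangoldt_le_log 2
        nlinarith
      have a2 : 1 - Real.cos (h * Real.log n) ≤ (h * Real.log n) ^ 2 / 2 := by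
        have := Real.one_sub_sq_div_two_le_cos (x := h * Real.log n)
        linarith
      have a3 : 0 ≤ 1 - Real.cos (h * Real.log n) := by linarith [Real.cos_le_one (h * Real.log n)]
      have a4 : (l * ggo l n) ^ 2 ≤ 2 * Real.pi := by
        have h5 := ggo_le hl n
        rw [le_div_iff₀ hl] at h5
        have h6 : 0 ≤ l * ggo l n := mul_nonneg hl.le (ggo_nonneg l n)
        calc (l * ggo l n) ^ 2 ≤ Real.sqrt (2 * Real.pi) ^ 2 := pow_le_pow_left₀ h6 (by linarith) 2
          _ = 2 * Real.pi := Real.sq_sqrt (by positivity)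
      calc 1 / Real.pi ^ 3 * (vonMangoldt n ^ 2 / (n * Real.log n ^ 2) * (1 - Real.cos (h * Real.log n))) *
          (l * ggo l n) ^ 2 ≤ 1 / Real.pi ^ 3 * (1 / n * ((h * Real.log n) ^ 2 / 2)) * (2 * Real.pi) := by
            gcongr
        _ = (1 / n * (h * Real.log n) ^ 2) * (1 / Real.pi ^ 2) := by field_simp
        _ ≤ (1 / n * (h * Real.log n) ^ 2) * 1 := by
            apply mul_le_mul_of_nonneg_left _ (by positivity)
            rw [div_le_one (by positivity)]
            nlinarith [Real.pi_gt_three]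
        _ = _ := mul_one _
    rcases le_total 1 ((h * Real.log n) ^ 2) with h4 | h4
    · rw [min_eq_left h4, mul_one]
      exact h1
    · rw [min_eq_right h4]
      exact h3
  · rw [if_neg (fun h => hpp h.1)]
    have h1 := kap_bd hl h n hn
    rwa [if_neg hpp] at h1

lemma Fp_nonneg (h : ℝ) (n : ℕ) : 0 ≤ Fp h n := by
  unfold Fp
  split_ifs
  · positivity
  · exact le_rfl

lemma Fp_lim : Tendsto (fun h : ℝ => ∑' n : ℕ, Fp h n) (𝓝 0) (𝓝 0) := by
  obtain ⟨C, _, hC⟩ := pp_sum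
  obtain ⟨bd, hbd⟩ : ∃ bd : ℕ → ℝ, bd = fun (n : ℕ) => if IsPrimePow n ∧ ¬ n.Prime then 1 / (n : ℝ) else 0 := ⟨_, rfl⟩
  have hbd0 : ∀ n, 0 ≤ bd n := by
    intro n
    rw [hbd]
    simp only
    split_ifs
    · positivity
    · exact le_rfl
  have hs : Summable bd := by
    refine summable_of_sum_range_le (c := C) hbd0 fun N => ?_
    refine le_trans ?_ (hC N)
    rw [Finset.sum_filter]
    rw [hbd]
    have h1 : ∑ n ∈ Finset.range N, (if IsPrimePow n ∧ ¬ n.Prime then 1 / (n : ℝ) else 0) ≤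
        ∑ n ∈ (Finset.range N).filter (fun n => 2 ≤ n), (if IsPrimePow n ∧ ¬ n.Prime then 1 / (n : ℝ) else 0) := by
      rw [Finset.sum_filter]
      refine Finset.sum_le_sum fun n _ => ?_
      by_cases h2 : 2 ≤ n
      · rw [if_pos h2]
      · rw [if_neg h2, if_neg (fun h => h2 h.1.two_le)]
    refine h1.trans (Finset.sum_le_sum_of_subset_of_nonneg ?_ fun n _ _ => ?_)
    · intro n hn
      rw [Finset.mem_filter, Finset.mem_range] at hn
      exact Finset.mem_Icc.2 ⟨hn.2, hn.1.le⟩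
    · split_ifs
      · positivity
      · exact le_rfl
  have h := tendsto_tsum_of_dominated_convergence (𝓕 := 𝓝 (0 : ℝ)) (f := fun h n => Fp h n) (g := fun _ : ℕ => (0 : ℝ))
    (bound := bd) hs (fun n => ?_) (Eventually.of_forall fun h n => ?_)
  · simpa using h
  · have hc : Continuous fun h : ℝ => Fp h n := by
      unfold Fp
      split_ifs
      · fun_prop
      · fun_prop
    have h1 := hc.tendsto 0
    have h2 : Fp 0 n = 0 := by
      unfold Fp
      simp
    rwa [h2] at h1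
  · rw [Real.norm_of_nonneg (Fp_nonneg h n), hbd]
    unfold Fp
    simp only
    split_ifs
    · calc 1 / (n : ℝ) * min 1 ((h * Real.log n) ^ 2) ≤ 1 / (n : ℝ) * 1 :=
          mul_le_mul_of_nonneg_left (min_le_left _ _) (by positivity)
        _ = _ := mul_one _
    · exact le_rfl

lemma Fp_sum (h : ℝ) (N : ℕ) : ∑ n ∈ Finset.Icc 2 N, Fp h n ≤ ∑' n : ℕ, Fp h n := by
  obtain ⟨C, _, hC⟩ := pp_sum
  have hs : Summable (Fp h) := by
    refine summable_of_sum_range_le (c := C) (Fp_nonneg h) fun N => ?_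
    refine le_trans ?_ (hC N)
    rw [Finset.sum_filter]
    have h1 : ∑ n ∈ Finset.range N, Fp h n ≤
        ∑ n ∈ (Finset.range N).filter (fun n => 2 ≤ n), (if IsPrimePow n ∧ ¬ n.Prime then 1 / (n : ℝ) else 0) := by
      rw [Finset.sum_filter]
      refine Finset.sum_le_sum fun n _ => ?_
      unfold Fp
      by_cases h2 : 2 ≤ n
      · rw [if_pos h2]
        split_ifs
        · calc 1 / (n : ℝ) * min 1 ((h * Real.log n) ^ 2) ≤ 1 / (n : ℝ) * 1 :=
              mul_le_mul_of_nonneg_left (min_le_left _ _) (by positivity)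
            _ = _ := mul_one _
        · exact le_rfl
      · rw [if_neg h2, if_neg (fun h => h2 h.1.two_le)]
    refine h1.trans (Finset.sum_le_sum_of_subset_of_nonneg ?_ fun n _ _ => ?_)
    · intro n hn
      rw [Finset.mem_filter, Finset.mem_range] at hn
      exact Finset.mem_Icc.2 ⟨hn.2, hn.1.le⟩
    · split_ifs
      · positivity
      · exact le_rfl
  exact hs.sum_le_tsum _ fun n _ => Fp_nonneg h n

/-- the proper prime powers -/
def PPf (κ l h T t : ℝ) : ℝ :=
  (∑ n ∈ Finset.Icc 2 (XK κ T), (if n.Prime then 0 else kap l h n) * (n : ℂ) ^ (-(t : ℂ) * I)).re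

lemma PPf_cont (κ l h T : ℝ) : Continuous (PPf κ l h T) := by
  unfold PPf
  refine Complex.continuous_re.comp (continuous_finsetSum _ fun n hn => ?_)
  have hn0 : (n : ℂ) ≠ 0 := by
    exact_mod_cast (by have := (Finset.mem_Icc.1 hn).1; omega : n ≠ 0)
  exact continuous_const.mul (Continuous.const_cpow (by fun_prop) (Or.inl hn0))

/-- the proper prime powers are negligible -/
lemma PP_small {lam : ℝ} (hlam : 16 ≤ lam) (j : ℕ) (ε : ℝ) (hε : 0 < ε) : ∀ᶠ T : ℝ in atTop,
    ∫ t in T..(2 * T), PPf (1 / lam) (Real.log T / lam) (2 * Real.pi * j / Real.log T) T t ^ 2 ≤ ε * T := by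
  have hh : Tendsto (fun T : ℝ => 2 * Real.pi * j / Real.log T) atTop (𝓝 0) :=
    Real.tendsto_log_atTop.const_div_atTop _
  have h1 := (Fp_lim.comp hh).eventually_le_const hε
  have hlam0 : 0 < lam := by linarith
  have h2 : ∀ᶠ T : ℝ in atTop, 4 * (T ^ (1 / lam)) ^ 3 ≤ ε / 2 * T := by
    have h3 : Tendsto (fun T : ℝ => T ^ (-(1 / 2 : ℝ))) atTop (𝓝 0) := tendsto_rpow_neg_atTop (by norm_num)
    have h4 := (h3.const_mul 4)
    rw [mul_zero] at h4
    filter_upwards [h4.eventually_le_const (by positivity : 0 < ε / 2), eventually_ge_atTop 1] with T h5 h6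
    have hT0 : 0 < T := by linarith
    calc 4 * (T ^ (1 / lam)) ^ 3 = 4 * T ^ (3 / lam) := by
          rw [← Real.rpow_natCast, ← Real.rpow_mul hT0.le]
          congr 2
          push_cast
          ring
      _ ≤ 4 * T ^ (1 / 2 : ℝ) := by
          apply mul_le_mul_of_nonneg_left _ (by norm_num)
          apply Real.rpow_le_rpow_of_exponent_le h6
          rw [div_le_div_iff₀ hlam0 (by norm_num)]
          linarith
      _ = 4 * T ^ (-(1 / 2 : ℝ)) * T := by
          rw [mul_assoc, ← Real.rpow_add_one hT0.ne']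
          norm_num
      _ ≤ ε / 2 * T := by gcongr
  filter_upwards [h1, h2, eventually_gt_atTop 1] with T h3 h4 hT1
  have hT0 : 0 < T := by linarith
  have hL : 0 < Real.log T := Real.log_pos hT1
  obtain ⟨l, hl⟩ : ∃ l : ℝ, l = Real.log T / lam := ⟨_, rfl⟩
  obtain ⟨h, hhd⟩ : ∃ h : ℝ, h = 2 * Real.pi * j / Real.log T := ⟨_, rfl⟩
  have hl0 : 0 < l := by rw [hl]; positivity
  simp only [Function.comp_apply] at h3
  rw [← hhd] at h3
  rw [← hl, ← hhd]
  obtain ⟨X, hX⟩ : ∃ X : ℕ, X = XK (1 / lam) T := ⟨_, rfl⟩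
  have hd := dpm X (fun n => if n.Prime then 0 else kap l h n) T (2 * T) (by linarith)
  have e1 : ∀ t, PPf (1 / lam) l h T t = (∑ n ∈ Finset.Icc 2 X, (if n.Prime then 0 else kap l h n) * (n : ℂ) ^ (-(t : ℂ) * I)).re := by
    intro t
    rw [hX]
    rfl
  simp_rw [e1]
  have hXle : (X : ℝ) ≤ T ^ (1 / lam) := by rw [hX]; exact Nat.floor_le (by positivity)
  have hX0 : (0 : ℝ) ≤ X := Nat.cast_nonneg X
  have hS : ∑ n ∈ Finset.Icc 2 X, ‖(if n.Prime then 0 else kap l h n)‖ ^ 2 ≤ ε :=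
    (Finset.sum_le_sum fun n hn => Fp_bd hl0 h (Finset.mem_Icc.1 hn).1).trans ((Fp_sum h X).trans h3)
  have hS1 : ∑ n ∈ Finset.Icc 2 X, ‖(if n.Prime then 0 else kap l h n)‖ ≤ X := by
    calc ∑ n ∈ Finset.Icc 2 X, ‖(if n.Prime then 0 else kap l h n)‖ ≤ ∑ n ∈ Finset.Icc 2 X, (1 : ℝ) := by
          refine Finset.sum_le_sum fun n hn => ?_
          split_ifs
          · simp
          · exact kap_le hl0 h n (Finset.mem_Icc.1 hn).1
      _ ≤ X := by
          rw [Finset.sum_const, nsmul_eq_mul, mul_one, Nat.card_Icc]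
          exact_mod_cast (by omega : X + 1 - 2 ≤ X)
  have hS0 : 0 ≤ ∑ n ∈ Finset.Icc 2 X, ‖(if n.Prime then 0 else kap l h n)‖ :=
    Finset.sum_nonneg fun n _ => norm_nonneg _
  have hb : 4 * (X : ℝ) * (∑ n ∈ Finset.Icc 2 X, ‖(if n.Prime then 0 else kap l h n)‖) ^ 2 ≤ ε / 2 * T := by
    calc 4 * (X : ℝ) * (∑ n ∈ Finset.Icc 2 X, ‖(if n.Prime then 0 else kap l h n)‖) ^ 2 ≤
        4 * (X : ℝ) * (X : ℝ) ^ 2 := by gcongr
      _ = 4 * (X : ℝ) ^ 3 := by ring
      _ ≤ 4 * (T ^ (1 / lam)) ^ 3 := by gcongr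
      _ ≤ _ := h4
  have h5 := (abs_le.1 (hd.trans hb)).2
  have h6 : (2 * T - T) / 2 * ∑ n ∈ Finset.Icc 2 X, ‖(if n.Prime then 0 else kap l h n)‖ ^ 2 ≤ T / 2 * ε := by
    have : (2 * T - T) / 2 = T / 2 := by ring
    rw [this]
    gcongr
  linarith

end

end Run7.h435.MD
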