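import Pool.Agent.Run7.h435.MDp
import Pool.Agent.Run7.h435.MDq

/-! # The variance of the rest of the prime sum -/

set_option autoImplicit false

namespace Run7.h435.MD

open Complex Filter Topology MeasureTheory Set
open Pool.Agent.TH850.UV
open H370.A2 (lamC)
open Pool.Agent.Y743.CL (Pr mem_Pr XK pp_sum kap_bd)
open Pool.Agent.R320.VQ (far_sum)

noncomputable section

/-- the sum of the reciprocals of the primes in a range -/
def Sr (a b T : ℝ) : ℝ :=
  ∑ p ∈ Pr ⌊T⌋₊, (if a < Real.log p / Real.log T ∧ Real.log p / Real.log T ≤ b then 1 / (p : ℝ) else 0)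

lemma Sr_eq (a b T : ℝ) : Sr a b T = sm (fun v => Real.cos (2 * Real.pi * 0 * v)) a b T := by
  unfold Sr sm
  rw [← Finset.sum_filter]
  refine Finset.sum_congr rfl fun p _ => ?_
  show 1 / (p : ℝ) = Real.cos (2 * Real.pi * 0 * (Real.log p / Real.log T)) / p
  rw [mul_zero, zero_mul, Real.cos_zero]

lemma Sr_lim {a b : ℝ} (ha : 0 < a) (hab : a ≤ b) (hb : b < 1) : Tendsto (Sr a b) atTop (𝓝 (Real.log (b / a))) := by
  have h := sm_cos ha hab hb 0
  rw [cc_zero ha hab] at h
  exact h.congr fun T => (Sr_eq a b T).symm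

lemma ms_one {b : ℝ} (hb0 : 0 ≤ b) (hb : b < 1) :
    Tendsto (ms (fun u => if 0 < u ∧ u ≤ b then 1 else 0)) atTop (𝓝 b) := by
  have h := ms_range (fun _ => 1) 0 (LipschitzWith.const 1) 1 (fun _ => by norm_num) le_rfl hb0 hb
  rw [intervalIntegral.integral_const, smul_eq_mul, mul_one, sub_zero] at h
  exact h

lemma le_kap {κ T : ℝ} (hT : 1 < T) {p : ℕ} (hp : p ∈ Pr (XX κ T)) :
    Real.log p / Real.log T ≤ κ := by
  rw [mem_Pr] at hp
  have h2 := hp.1.two_le
  have hT0 : 0 < T := by linarith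
  have h3 : p ≤ ⌊T ^ κ⌋₊ := by
    rcases le_max_iff.1 hp.2 with h | h
    · omega
    · exact h
  have h4 : (p : ℝ) ≤ T ^ κ := (Nat.le_floor_iff (by positivity)).1 h3
  rw [div_le_iff₀ (Real.log_pos hT), ← Real.log_rpow hT0]
  exact Real.log_le_log (by exact_mod_cast hp.1.pos) h4

/-- **the variance of the rest** -/
lemma VB_up {δ L lam : ℝ} {m j : ℕ} (hδ : 0 < δ) (hδ1 : δ < 1 / 2) (hL : 0 < L) (hm : 1 ≤ m) (hmL : (m : ℝ) = Real.exp L)
    (hj : j ≤ m) (hlam : 16 ≤ lam) (hb1 : 2 * bm δ L ≤ 1 / lam) (hb2 : 2048 * (bm δ L / (1 / lam)) ^ 2 * L ≤ 1) :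
    ∀ᶠ T : ℝ in atTop, VB (bj (am δ L) (bm δ L) T (Real.log T / lam) (2 * Real.pi * j / Real.log T)) (XX (1 / lam) T) ≤
      8 * δ * L + 50 := by
  obtain ⟨κ, hκ⟩ : ∃ κ : ℝ, κ = 1 / lam := ⟨_, rfl⟩
  rw [← hκ] at hb1 hb2 ⊢
  have hlam0 : 0 < lam := by linarith
  have hκ0 : 0 < κ := by rw [hκ]; positivity
  have hκ1 : κ ≤ 1 / 16 := by rw [hκ]; exact one_div_le_one_div_of_le (by norm_num) hlam
  obtain ⟨a, had⟩ : ∃ a : ℝ, a = am δ L := ⟨_, rfl⟩
  obtain ⟨b, hbd⟩ : ∃ b : ℝ, b = bm δ L := ⟨_, rfl⟩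
  rw [← had, ← hbd]
  rw [← hbd] at hb1 hb2
  have ha0 : 0 < a := by rw [had]; exact Real.exp_pos _
  have hb0 : 0 < b := by rw [hbd]; exact Real.exp_pos _
  have hab : a ≤ b := by
    rw [had, hbd]
    unfold am bm
    apply Real.exp_le_exp.2
    nlinarith
  have hm0 : (0 : ℝ) < m := by rw [hmL]; exact Real.exp_pos _
  have hma : 1 / (m : ℝ) ≤ a := by
    rw [hmL, had]
    unfold am
    rw [one_div, ← Real.exp_neg]
    apply Real.exp_le_exp.2
    nlinarith
  have h1m : 1 / (m : ℝ) < 1 := by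
    rw [hmL, one_div, ← Real.exp_neg, Real.exp_lt_one_iff]
    linarith
  have hbκ : b ≤ κ := by linarith
  have l1 : Real.log (a / (1 / m)) = δ * L := by
    rw [had, hmL]
    unfold am
    rw [one_div, ← Real.exp_neg, ← Real.exp_sub, Real.log_exp]
    ring
  have l2 : Real.log (b / a) = (1 - 2 * δ) * L := by
    rw [had, hbd]
    unfold am bm
    rw [← Real.exp_sub, Real.log_exp]
    ring
  have l3 : Real.log (κ / b) ≤ δ * L := by
    rw [Real.log_div hκ0.ne' hb0.ne']
    have h1 : Real.log κ ≤ 0 := Real.log_nonpos hκ0.le (by linarith)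
    have h2 : Real.log b = -(δ * L) := by rw [hbd]; unfold bm; rw [Real.log_exp]
    linarith
  -- the limit
  have hlg : Tendsto (fun T : ℝ => 1 / (κ * Real.log T) + T ^ (-a)) atTop (𝓝 0) := by
    have h1 : Tendsto (fun T : ℝ => 1 / (κ * Real.log T)) atTop (𝓝 0) :=
      (Real.tendsto_log_atTop.const_mul_atTop hκ0).const_div_atTop _
    have := h1.add (tendsto_rpow_neg_atTop ha0)
    rwa [add_zero] at this
  have hlim := (((ms_one (b := 1 / (m : ℝ)) (by positivity) h1m).const_mul ((2 * Real.pi) ^ 2 * m)).add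
    ((Sr_lim (by positivity : 0 < 1 / (m : ℝ)) hma (by linarith)).const_mul 4)).add
    ((((hlg.pow 2).const_add ((b / κ) ^ 2)).const_mul 2048 |>.mul (Sr_lim ha0 hab (by linarith))).add
    ((Sr_lim hb0 hbκ (by linarith)).const_mul 4))
  rw [l1, l2] at hlim
  have hlt : (2 * Real.pi) ^ 2 * m * (1 / m) + 4 * (δ * L) + (2048 * ((b / κ) ^ 2 + 0 ^ 2) * ((1 - 2 * δ) * L) +
      4 * Real.log (κ / b)) < 8 * δ * L + 50 := by
    have e1 : (2 * Real.pi) ^ 2 * m * (1 / m) = 4 * Real.pi ^ 2 := by field_simp; ring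
    have e2 : Real.pi ^ 2 ≤ 10 := by nlinarith [Real.pi_lt_d2, Real.pi_pos]
    have e3 : 2048 * ((b / κ) ^ 2 + 0 ^ 2) * ((1 - 2 * δ) * L) ≤ 1 := by
      have h1 : (1 - 2 * δ) * L ≤ L := by nlinarith
      calc 2048 * ((b / κ) ^ 2 + 0 ^ 2) * ((1 - 2 * δ) * L) = 2048 * (b / κ) ^ 2 * ((1 - 2 * δ) * L) := by ring
        _ ≤ 2048 * (b / κ) ^ 2 * L := by gcongr
        _ ≤ 1 := hb2
    rw [e1]
    linarith
  filter_upwards [hlim.eventually_lt_const hlt, eventually_gt_atTop (1 : ℝ),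
    Real.tendsto_log_atTop.eventually_ge_atTop lam] with T h1 hT hTl
  have hLT : 0 < Real.log T := Real.log_pos hT
  have hl : Real.log T / lam = κ * Real.log T := by rw [hκ]; ring
  have hl1 : 1 ≤ Real.log T / lam := by rw [le_div_iff₀ hlam0]; linarith
  refine le_trans ?_ h1.le
  unfold VB
  have h2 : ∀ p ∈ Pr (XX κ T), ‖bj a b T (Real.log T / lam) (2 * Real.pi * j / Real.log T) p‖ ^ 2 ≤
      ((if 0 < Real.log p / Real.log T ∧ Real.log p / Real.log T ≤ 1 / m then
        (2 * Real.pi) ^ 2 * m * (Real.log p / Real.log T) / p else 0) +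
      (if 1 / m < Real.log p / Real.log T ∧ Real.log p / Real.log T ≤ a then 4 / (p : ℝ) else 0)) +
      ((if a < Real.log p / Real.log T ∧ Real.log p / Real.log T ≤ b then
        (2048 * ((b / κ) ^ 2 + (1 / (Real.log T / lam) + T ^ (-a)) ^ 2)) / (p : ℝ) else 0) +
      (if b < Real.log p / Real.log T ∧ Real.log p / Real.log T ≤ κ then 4 / (p : ℝ) else 0)) := by
    intro p hp
    exact bj_le hm hj hT hl hl1 hb1 (mem_Pr.1 hp).1 (le_kap hT hp)
  refine (Finset.sum_le_sum h2).trans ?_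
  have hsub : Pr (XX κ T) ⊆ Pr ⌊T⌋₊ := by
    intro p hp
    exact mem_rangeT hT (mem_Pr.1 hp).1 ((le_kap hT hp).trans (by linarith))
  refine (Finset.sum_le_sum_of_subset_of_nonneg hsub fun p hp _ => ?_).trans ?_
  · have hp1 := (mem_Pr.1 hp).1
    have hlp : 0 ≤ Real.log p := Real.log_nonneg (by exact_mod_cast hp1.one_le)
    have g1 : 0 ≤ (if 0 < Real.log p / Real.log T ∧ Real.log p / Real.log T ≤ 1 / m then
        (2 * Real.pi) ^ 2 * m * (Real.log p / Real.log T) / p else 0) := by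
      split_ifs
      · positivity
      · exact le_rfl
    have g2 : 0 ≤ (if 1 / m < Real.log p / Real.log T ∧ Real.log p / Real.log T ≤ a then 4 / (p : ℝ) else 0) := by
      split_ifs
      · positivity
      · exact le_rfl
    have g3 : 0 ≤ (if a < Real.log p / Real.log T ∧ Real.log p / Real.log T ≤ b then
        (2048 * ((b / κ) ^ 2 + (1 / (Real.log T / lam) + T ^ (-a)) ^ 2)) / (p : ℝ) else 0) := by
      split_ifs
      · positivity
      · exact le_rfl
    have g4 : 0 ≤ (if b < Real.log p / Real.log T ∧ Real.log p / Real.log T ≤ κ then 4 / (p : ℝ) else 0) := by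
      split_ifs
      · positivity
      · exact le_rfl
    linarith
  rw [Finset.sum_add_distrib, Finset.sum_add_distrib, Finset.sum_add_distrib, hl]
  apply le_of_eq
  congr 1
  · congr 1
    · unfold ms
      rw [Finset.mul_sum]
      refine Finset.sum_congr rfl fun p _ => ?_
      beta_reduce
      split_ifs
      · ring
      · ring
    · unfold Sr
      rw [Finset.mul_sum]
      refine Finset.sum_congr rfl fun p _ => ?_
      split_ifs
      · ring
      · ring
  · congr 1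
    · unfold Sr
      rw [Finset.mul_sum]
      refine Finset.sum_congr rfl fun p _ => ?_
      split_ifs
      · ring
      · ring
    · unfold Sr
      rw [Finset.mul_sum]
      refine Finset.sum_congr rfl fun p _ => ?_
      split_ifs
      · ring
      · ring

/-- the levels do not depend on the length -/
lemma Gp_range {a b κ T : ℝ} (hT : 1 < T) (hbκ : b ≤ κ) (t : ℝ) :
    Gp (lv a b T) (XX b T) t = Gp (lv a b T) (XX κ T) t := by
  unfold Gp
  have hsub : Pr (XX b T) ⊆ Pr (XX κ T) := by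
    intro p hp
    rw [mem_Pr] at hp ⊢
    refine ⟨hp.1, hp.2.trans ?_⟩
    unfold XX
    exact max_le_max le_rfl (Nat.floor_le_floor (Real.rpow_le_rpow_of_exponent_le hT.le hbκ))
  refine Finset.sum_subset hsub fun p hp hn => ?_
  have h1 : ¬ (a < Real.log p / Real.log T ∧ Real.log p / Real.log T ≤ b) := fun h =>
    hn (mem_range hT (mem_Pr.1 hp).1 h.2)
  unfold lv
  rw [if_neg h1, zero_mul]

/-- the decomposition of the prime sum -/
lemma Db_split {κ T l h : ℝ} (hκ8 : κ ≤ 1 / 8) (hκ0 : 0 ≤ κ) (hT : 1 ≤ T) (t : ℝ) :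
    Db l h (XT T) t = (Gp (kap l h) (XX κ T) t).re + PPf κ l h T t +
      (∑ n ∈ Finset.Ioc (XK κ T) (XT T), kap l h n * (n : ℂ) ^ (-(t : ℂ) * I)).re := by
  have hXle : XK κ T ≤ XT T := by
    unfold XK XT
    exact Nat.floor_le_floor (Real.rpow_le_rpow_of_exponent_le hT hκ8)
  have hX1 : 1 ≤ XK κ T := by
    unfold XK
    apply Nat.le_floor
    push_cast
    exact Real.one_le_rpow hT hκ0
  have hXX : XX κ T = XK κ T := by
    unfold XX
    exact max_eq_right hX1
  unfold Db PPf Gp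
  rw [hXX, ← Complex.add_re, ← Complex.add_re]
  congr 1
  have e : Finset.Icc 2 (XT T) = Finset.Icc 2 (XK κ T) ∪ Finset.Ioc (XK κ T) (XT T) := by
    ext n
    simp only [Finset.mem_union, Finset.mem_Icc, Finset.mem_Ioc]
    omega
  rw [e, Finset.sum_union]
  · congr 1
    have e2 : Pr (XK κ T) = (Finset.Icc 2 (XK κ T)).filter (fun n => n.Prime) := by
      ext n
      rw [mem_Pr, Finset.mem_filter, Finset.mem_Icc]
      constructor
      · rintro ⟨a1, a2⟩; exact ⟨⟨a1.two_le, a2⟩, a1⟩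
      · rintro ⟨a1, a2⟩; exact ⟨a2, a1.2⟩
    rw [e2, Finset.sum_filter, ← Finset.sum_add_distrib]
    refine Finset.sum_congr rfl fun n _ => ?_
    split_ifs <;> simp
  · rw [Finset.disjoint_left]
    intro n h1 h2
    simp only [Finset.mem_Icc, Finset.mem_Ioc] at h1 h2
    omega

end

end Run7.h435.MD
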