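import Pool.Agent.Run7.h435.MDo
import Pool.Agent.Run7.h435.MDs

/-! # The count and the main part of the prime sum -/

set_option autoImplicit false

namespace Run7.h435.MD

open Complex Filter Topology MeasureTheory Set
open Pool.Agent.TH850.UV
open H370.A2 (lamC)
open SP (RHs)
open SG (NZ)
open Pool.Agent.Y743.CL (Pr mem_Pr XK pp_sum kap_bd)
open Pool.Agent.R320.VQ (far_sum)

noncomputable section

/-- **the count of the zeros and the main part of the prime sum** -/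
theorem apx_all (hRH : RHs) {η : ℝ} (hη : 0 < η) : ∃ δ0 : ℝ, 0 < δ0 ∧ ∀ δ : ℝ, 0 < δ → δ < δ0 → δ < 1 / 2 →
    ∀ᶠ m : ℕ in atTop, ∀ᶠ T : ℝ in atTop, PT T {t | ∃ j ∈ Finset.Icc 1 m, η * Real.log m <
      |Real.pi * (((NZ (t + 2 * Real.pi * j / Real.log T) : ℝ) - NZ t) - j) -
        (Pm δ (Real.log m) T (t + 2 * Real.pi * j / Real.log T) - Pm δ (Real.log m) T t)|} ≤ η * T := by
  obtain ⟨C, hC, hz⟩ := zero_side hRH
  obtain ⟨c1, hc1⟩ : ∃ c1 : ℝ, c1 = η / (16 * C) := ⟨_, rfl⟩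
  have hc10 : 0 < c1 := by rw [hc1]; positivity
  obtain ⟨c2, hc2⟩ : ∃ c2 : ℝ, c2 = c1 / 112 := ⟨_, rfl⟩
  have hc20 : 0 < c2 := by rw [hc2]; positivity
  refine ⟨η ^ 2 / (144 * c1) * Real.exp (-(2 / c2)), by positivity, fun δ hδ hδ0 hδ1 => ?_⟩
  have q1 := poly_exp (2 * c1) 1 hδ
  have q2 := poly_exp (2048 * c1 ^ 2) 3 (κ := 2 * δ) (by positivity)
  have q3 : ∀ᶠ L : ℝ in atTop, 12 * Real.exp (-L) ≤ η / 4 := by
    have h1 : Tendsto (fun L : ℝ => 12 * Real.exp (-L)) atTop (𝓝 (12 * 0)) :=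
      (Real.tendsto_exp_neg_atTop_nhds_zero).const_mul 12
    rw [mul_zero] at h1
    exact h1.eventually_le_const (by positivity)
  have hev := q1.and (q2.and (q3.and ((eventually_ge_atTop (1 : ℝ)).and ((eventually_ge_atTop (226 / c1)).and
    ((eventually_ge_atTop (28 / η)).and ((eventually_ge_atTop (50 / δ)).and
    (eventually_ge_atTop (2 * C * Real.exp (4 / c1) / c1))))))))
  filter_upwards [log_nat_atTop.eventually hev, eventually_ge_atTop 1] with m hm hm1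
  obtain ⟨d1, d2, d3, d4, d5, d6, d7, d8⟩ := hm
  obtain ⟨L, hLd⟩ : ∃ L : ℝ, L = Real.log m := ⟨_, rfl⟩
  rw [← hLd] at d1 d2 d3 d4 d5 d6 d7 d8 ⊢
  have hm0 : (0 : ℝ) < m := by exact_mod_cast hm1
  have hmL : (m : ℝ) = Real.exp L := by rw [hLd, Real.exp_log hm0]
  have hL0 : 0 < L := by linarith
  have hpi := Real.pi_pos
  rw [div_le_iff₀ hc10] at d5 d8
  rw [div_le_iff₀ hη] at d6
  rw [div_le_iff₀ hδ] at d7
  obtain ⟨kJ, hkJ⟩ : ∃ kJ : ℕ, kJ = ⌊c1 * L⌋₊ := ⟨_, rfl⟩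
  have hk1 : (kJ : ℝ) ≤ c1 * L := by rw [hkJ]; exact Nat.floor_le (by positivity)
  have hk2 : c1 * L - 1 ≤ kJ := by rw [hkJ]; exact (Nat.sub_one_lt_floor _).le
  have hk3 : c1 * L / 2 ≤ kJ := by nlinarith
  obtain ⟨lam, hlam⟩ : ∃ lam : ℝ, lam = kJ / 7 := ⟨_, rfl⟩
  have hlam16 : 16 ≤ lam := by rw [hlam, le_div_iff₀ (by norm_num)]; linarith
  have hlk : 2 * Real.pi * lam ≤ kJ := by
    rw [hlam]
    have h0 : (0 : ℝ) ≤ kJ := Nat.cast_nonneg _
    have : 2 * Real.pi * ((kJ : ℝ) / 7) = (kJ : ℝ) * (2 * Real.pi / 7) := by ring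
    rw [this]
    apply mul_le_of_le_one_right h0
    rw [div_le_one (by norm_num)]
    linarith [Real.pi_lt_d2]
  have hlamL : lam ≤ c1 * L := by
    rw [hlam]
    have h0 : (0 : ℝ) ≤ kJ := Nat.cast_nonneg _
    linarith
  have hlam0 : 0 < lam := by linarith
  obtain ⟨kD, hkD⟩ : ∃ kD : ℕ, kD = ⌊lam / 4⌋₊ := ⟨_, rfl⟩
  have hd1 : (kD : ℝ) ≤ lam / 4 := by rw [hkD]; exact Nat.floor_le (by positivity)
  have hd2 : lam / 4 - 1 ≤ kD := by rw [hkD]; exact (Nat.sub_one_lt_floor _).le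
  have hd3 : c2 * L ≤ kD := by
    rw [hc2]
    have : c1 * L / 112 ≤ lam / 8 := by rw [hlam]; linarith
    linarith
  have hkD1 : 1 ≤ kD := by
    have : (1 : ℝ) ≤ kD := by linarith
    exact_mod_cast this
  have hb1 : 2 * bm δ L ≤ 1 / lam := by
    rw [le_div_iff₀ hlam0]
    unfold bm
    have h1 : 2 * lam ≤ Real.exp (δ * L) := by
      refine le_trans ?_ d1
      rw [pow_one]
      nlinarith
    calc 2 * Real.exp (-(δ * L)) * lam = (2 * lam) * Real.exp (-(δ * L)) := by ring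
      _ ≤ Real.exp (δ * L) * Real.exp (-(δ * L)) := by gcongr
      _ = 1 := by rw [← Real.exp_add]; simp
  have hb2 : 2048 * (bm δ L / (1 / lam)) ^ 2 * L ≤ 1 := by
    unfold bm
    have h1 : 2048 * lam ^ 2 * L ≤ Real.exp (2 * δ * L) := by
      refine le_trans ?_ d2
      calc 2048 * lam ^ 2 * L ≤ 2048 * (c1 * L) ^ 2 * L := by gcongr
        _ = 2048 * c1 ^ 2 * L ^ 3 := by ring
        _ ≤ 2048 * c1 ^ 2 * (1 + L) ^ 3 := by gcongr; linarith
    have e1 : 2048 * (Real.exp (-(δ * L)) / (1 / lam)) ^ 2 * L = (2048 * lam ^ 2 * L) * Real.exp (-(2 * δ * L)) := by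
      have : Real.exp (-(2 * δ * L)) = Real.exp (-(δ * L)) ^ 2 := by
        rw [← Real.exp_nat_mul]; congr 1; push_cast; ring
      rw [this, div_div_eq_mul_div, div_one]
      ring
    rw [e1]
    calc (2048 * lam ^ 2 * L) * Real.exp (-(2 * δ * L)) ≤ Real.exp (2 * δ * L) * Real.exp (-(2 * δ * L)) := by gcongr
      _ = 1 := by rw [← Real.exp_add]; simp
  have hzs := hz lam kJ hlam16 hlk m (η / 4) (by positivity)
  have hps := prime_side (k := kD) hδ hδ1 hL0 hm1 hmL hlam16 hb1 hb2 hkD1 (by linarith) (η * L / 4) (by positivity) (η / 4) (by positivity)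
  filter_upwards [hzs, hps, eventually_ge_atTop (0 : ℝ)] with T h1 h2 hT0
  have hinc : ∀ t ∈ Ioc T (2 * T), t ∈ {t | ∃ j ∈ Finset.Icc 1 m, η * L <
      |Real.pi * (((NZ (t + 2 * Real.pi * j / Real.log T) : ℝ) - NZ t) - j) -
        (Pm δ L T (t + 2 * Real.pi * j / Real.log T) - Pm δ L T t)|} → t ∈
      {t | ∃ j ∈ Finset.Icc 1 m, C * kJ < |((NZ (t + 2 * Real.pi * j / Real.log T) : ℝ) - NZ t) - j +
      Db (Real.log T / lam) (2 * Real.pi * j / Real.log T) (XT T) t|} ∪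
      {t | ∃ j ∈ Finset.Icc 1 m, η * L / 4 + 7 < |Real.pi * Db (Real.log T / lam) (2 * Real.pi * j / Real.log T) (XT T) t +
      (Pm δ L T (t + 2 * Real.pi * j / Real.log T) - Pm δ L T t)|} := by
    rintro t ht ⟨j, hj, hjt⟩
    by_contra hcon
    simp only [Set.mem_union, Set.mem_ofPred_eq, not_or, not_exists, not_and, not_lt] at hcon
    have a1 := hcon.1 j hj
    have a2 := hcon.2 j hj
    obtain ⟨D, hD⟩ : ∃ D : ℝ, D = Db (Real.log T / lam) (2 * Real.pi * j / Real.log T) (XT T) t := ⟨_, rfl⟩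
    obtain ⟨M, hM⟩ : ∃ M : ℝ, M = ((NZ (t + 2 * Real.pi * j / Real.log T) : ℝ) - NZ t) - j := ⟨_, rfl⟩
    obtain ⟨Q, hQ⟩ : ∃ Q : ℝ, Q = Pm δ L T (t + 2 * Real.pi * j / Real.log T) - Pm δ L T t := ⟨_, rfl⟩
    rw [← hM, ← hD] at a1
    rw [← hQ, ← hD] at a2
    rw [← hM, ← hQ] at hjt
    have e1 : Real.pi * M - Q = Real.pi * (M + D) - (Real.pi * D + Q) := by ring
    rw [e1] at hjt
    have a3 := abs_sub (Real.pi * (M + D)) (Real.pi * D + Q)
    rw [abs_mul, abs_of_pos hpi] at a3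
    have a4 : Real.pi * |M + D| ≤ η * L / 4 := by
      calc Real.pi * |M + D| ≤ 4 * (C * kJ) := by
            apply mul_le_mul _ a1 (abs_nonneg _) (by norm_num)
            linarith [Real.pi_lt_d2]
        _ ≤ 4 * (C * (c1 * L)) := by gcongr
        _ = η * L / 4 := by rw [hc1]; field_simp; norm_num
    have a5 : 7 ≤ η * L / 4 := by linarith
    have a6 : 0 < η * L := by positivity
    linarith
  refine (PT_mono hinc).trans ((PT_union _ _ _).trans ((add_le_add h1 h2).trans ?_))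
  have b1 : 6 * ((m : ℝ) + 1) * (C / kJ) ^ kJ ≤ η / 4 := by
    have hkJ0 : (0 : ℝ) < kJ := by linarith
    have h3 : C / kJ ≤ Real.exp (-(4 / c1)) := by
      rw [div_le_iff₀ hkJ0]
      have h4 : C * Real.exp (4 / c1) ≤ kJ := by nlinarith
      calc C = Real.exp (-(4 / c1)) * (C * Real.exp (4 / c1)) := by
            rw [mul_comm C, ← mul_assoc, ← Real.exp_add]; simp
        _ ≤ _ := by gcongr
    have h4 : (C / kJ) ^ kJ ≤ Real.exp (-(2 * L)) := by
      calc (C / kJ) ^ kJ ≤ Real.exp (-(4 / c1)) ^ kJ := pow_le_pow_left₀ (by positivity) h3 _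
        _ = Real.exp (-(kJ * (4 / c1))) := by rw [← Real.exp_nat_mul]; congr 1; ring
        _ ≤ Real.exp (-(2 * L)) := by
            apply Real.exp_le_exp.2
            have : c1 * L / 2 * (4 / c1) = 2 * L := by field_simp; ring
            have h5 : c1 * L / 2 * (4 / c1) ≤ kJ * (4 / c1) := by gcongr
            linarith
    have hm1' : (1 : ℝ) ≤ m := by exact_mod_cast hm1
    calc 6 * ((m : ℝ) + 1) * (C / kJ) ^ kJ ≤ 6 * (m + m) * Real.exp (-(2 * L)) := by gcongr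
      _ = 12 * (Real.exp L * Real.exp (-(2 * L))) := by rw [hmL]; ring
      _ = 12 * Real.exp (-L) := by rw [← Real.exp_add]; congr 2; ring
      _ ≤ η / 4 := d3
  have b2 : 2 * (m : ℝ) * (kD * (8 * δ * L + 50) / (η * L / 4) ^ 2) ^ kD ≤ η / 4 := by
    have h3 : kD * (8 * δ * L + 50) / (η * L / 4) ^ 2 ≤ Real.exp (-(2 / c2)) := by
      rw [div_le_iff₀ (by positivity)]
      have h4 : 8 * δ * L + 50 ≤ 9 * δ * L := by linarith
      have h5 : δ * (144 * c1) ≤ η ^ 2 * Real.exp (-(2 / c2)) := by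
        have h6 := hδ0.le
        rw [div_mul_eq_mul_div, le_div_iff₀ (by positivity)] at h6
        exact h6
      calc kD * (8 * δ * L + 50) ≤ (c1 * L) * (9 * δ * L) := by
            apply mul_le_mul _ h4 (by positivity) (by positivity)
            linarith
        _ = (δ * (144 * c1)) * (L ^ 2 / 16) := by ring
        _ ≤ (η ^ 2 * Real.exp (-(2 / c2))) * (L ^ 2 / 16) := by gcongr
        _ = _ := by ring
    have h4 : (kD * (8 * δ * L + 50) / (η * L / 4) ^ 2) ^ kD ≤ Real.exp (-(2 * L)) := by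
      calc (kD * (8 * δ * L + 50) / (η * L / 4) ^ 2) ^ kD ≤ Real.exp (-(2 / c2)) ^ kD :=
            pow_le_pow_left₀ (by positivity) h3 _
        _ = Real.exp (-(kD * (2 / c2))) := by rw [← Real.exp_nat_mul]; congr 1; ring
        _ ≤ Real.exp (-(2 * L)) := by
            apply Real.exp_le_exp.2
            have : c2 * L * (2 / c2) = 2 * L := by field_simp
            have h5 : c2 * L * (2 / c2) ≤ kD * (2 / c2) := by gcongr
            linarith
    calc 2 * (m : ℝ) * (kD * (8 * δ * L + 50) / (η * L / 4) ^ 2) ^ kD ≤ 2 * m * Real.exp (-(2 * L)) := by gcongr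
      _ = 2 * (Real.exp L * Real.exp (-(2 * L))) := by rw [hmL]; ring
      _ = 2 * Real.exp (-L) := by rw [← Real.exp_add]; congr 2; ring
      _ ≤ 12 * Real.exp (-L) := by
          have := Real.exp_pos (-L)
          linarith
      _ ≤ η / 4 := d3
  calc (6 * ((m : ℝ) + 1) * (C / kJ) ^ kJ + η / 4) * T + (2 * (m : ℝ) * (kD * (8 * δ * L + 50) / (η * L / 4) ^ 2) ^ kD + η / 4) * T =
      (6 * ((m : ℝ) + 1) * (C / kJ) ^ kJ + 2 * (m : ℝ) * (kD * (8 * δ * L + 50) / (η * L / 4) ^ 2) ^ kD + η / 2) * T := by ring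
    _ ≤ (η / 4 + η / 4 + η / 2) * T := by gcongr
    _ = η * T := by ring

end

end Run7.h435.MD
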