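import Pool.Agent.Run7.h435.MDl

/-! # The deviation at a random height -/

set_option autoImplicit false

namespace Run7.h435.MD

open Filter Topology MeasureTheory Set

noncomputable section

/-- the reference point -/
lemma ref_small {δ η : ℝ} (hδ : 0 < δ) (hδ1 : δ < 1 / 2) (hη : 0 < η) :
    ∀ᶠ m : ℕ in atTop, ∀ᶠ T : ℝ in atTop, PT T {t | η * Real.log m ≤ |Pm δ (Real.log m) T t|} ≤ η * T := by
  have q1 := poly_exp 4 0 (κ := δ) hδ
  have hev := q1.and ((eventually_ge_atTop (1 : ℝ)).and (eventually_ge_atTop (2 / η ^ 3)))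
  filter_upwards [log_nat_atTop.eventually hev] with m hm
  obtain ⟨d1, d2, d3⟩ := hm
  obtain ⟨L, hLd⟩ : ∃ L : ℝ, L = Real.log m := ⟨_, rfl⟩
  rw [← hLd] at d1 d2 d3 ⊢
  have hL0 : 0 < L := by linarith
  have hkb : 2 * ((1 : ℕ) : ℝ) * bm δ L ≤ 1 / 2 := by
    unfold bm
    rw [pow_zero, mul_one] at d1
    calc 2 * ((1 : ℕ) : ℝ) * Real.exp (-(δ * L)) = 4 * Real.exp (-(δ * L)) / 2 := by push_cast; ring
      _ ≤ Real.exp (δ * L) * Real.exp (-(δ * L)) / 2 := by gcongr
      _ = 1 / 2 := by rw [← Real.exp_add]; simp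
  have hmom := Pm_mom hδ hδ1 hL0 1 hkb 0 1 one_pos
  filter_upwards [hmom, eventually_ge_atTop 0] with T hT hT0
  have hc : Continuous fun t : ℝ => ‖Gp (lv (am δ L) (bm δ L) T) (XX (bm δ L) T)
      (t + 2 * Real.pi * (0 : ℕ) / Real.log T)‖ ^ (2 * 1) :=
    (((Gp_cont _ _).comp (by fun_prop : Continuous fun t : ℝ => t + 2 * Real.pi * (0 : ℕ) / Real.log T)).norm.pow _)
  have h1 := PT_markov hT0 (hc.intervalIntegrable _ _) (fun t => by positivity) (c := (η * L) ^ (2 * 1)) (by positivity)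
    (S := {t | η * L ≤ |Pm δ L T t|}) (fun t _ ht => by
      refine pow_le_pow_left₀ (by positivity) ?_ _
      rw [Nat.cast_zero, mul_zero, zero_div, add_zero]
      exact le_trans ht (Complex.abs_im_le_norm _))
  refine h1.trans ?_
  rw [div_le_iff₀ (by positivity)]
  refine hT.trans ?_
  rw [div_le_iff₀ (by positivity)] at d3
  rw [Nat.factorial_one, Nat.cast_one, one_mul, pow_one]
  have h2 : L + 1 ≤ 2 * L := by linarith
  have h3 : 2 * L ≤ η * (η * L) ^ (2 * 1) := by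
    calc 2 * L ≤ (L * η ^ 3) * L := by gcongr
      _ = η * (η * L) ^ (2 * 1) := by ring
  calc (L + 1) * T ≤ (η * (η * L) ^ (2 * 1)) * T := by gcongr; linarith
    _ = η * T * (η * L) ^ (2 * 1) := by ring

end

end Run7.h435.MD
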