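import Pool.Agent.Run7.h435.MDk
import Pool.Agent.Run7.h435.MDsa
import Pool.Agent.Run7.h435.MDta
import Pool.Agent.Run7.h435.MDtb

/-! # The deviation at a random height -/

set_option autoImplicit false

namespace Run7.h435.MD

open Filter Topology MeasureTheory Set
open SP (RHs)
open SG (NZ)

noncomputable section

/-- **the deviation at a random height** -/
theorem tform (hRH : RHs) {ε : ℝ} (hε : 0 < ε) (hε1 : ε ≤ 1 / 2) : ∀ᶠ m : ℕ in atTop, ∀ᶠ T : ℝ in atTop,
    PT T {t | ¬ GT ε m T t} ≤ ε * T := by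
  obtain ⟨K, hKd⟩ : ∃ K : ℕ, K = ⌈16 / ε⌉₊ := ⟨_, rfl⟩
  have hK16 : 16 / ε ≤ K := by rw [hKd]; exact Nat.le_ceil _
  have hK0 : (0 : ℝ) < K := lt_of_lt_of_le (by positivity) hK16
  have hKε : 16 ≤ K * ε := by rwa [div_le_iff₀ hε] at hK16
  obtain ⟨κ, hκ⟩ : ∃ κ : ℝ, κ = 1 / K := ⟨_, rfl⟩
  have hκ0 : 0 < κ := by rw [hκ]; positivity
  have hκε : κ ≤ ε / 16 := by
    rw [hκ, div_le_div_iff₀ hK0 (by norm_num)]
    linarith
  have hκK : κ * K = 1 := by rw [hκ]; field_simp
  obtain ⟨η, hη⟩ : ∃ η : ℝ, η = min (κ / 16) (ε / (3 * K + 8)) := ⟨_, rfl⟩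
  have hη0 : 0 < η := by rw [hη]; exact lt_min (by positivity) (by positivity)
  have hη1 : η ≤ κ / 16 := by rw [hη]; exact min_le_left _ _
  have hη2 : (3 * K + 8) * η ≤ ε := by
    have : η ≤ ε / (3 * K + 8) := by rw [hη]; exact min_le_right _ _
    rw [le_div_iff₀ (by positivity)] at this
    linarith
  obtain ⟨δ0, hδ0, hapx⟩ := apx_all hRH hη0
  obtain ⟨δ, hδd⟩ : ∃ δ : ℝ, δ = min (δ0 / 2) (κ / 16) := ⟨_, rfl⟩
  have hδ : 0 < δ := by rw [hδd]; exact lt_min (by positivity) (by positivity)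
  have hδδ0 : δ < δ0 := by
    have : δ ≤ δ0 / 2 := by rw [hδd]; exact min_le_left _ _
    linarith
  have hδκ : δ ≤ κ / 16 := by rw [hδd]; exact min_le_right _ _
  have hδ1 : δ < 1 / 2 := by linarith
  have E1 := hapx δ hδ hδδ0 hδ1
  have E2 := ref_small hδ hδ1 hη0
  have E3 := up_pt (α := 1 + η) (η := η) hδ hδ1 (by positivity) hη0
  have E4 : ∀ᶠ m : ℕ in atTop, ∀ i ∈ Finset.range (K + 1), ∀ᶠ T : ℝ in atTop,
      PT T {t | (((Finset.Icc 1 m).filter (fun j : ℕ => ((i * κ) * (1 - 2 * δ) - η) * Real.log m ≤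
        1 * Pm δ (Real.log m) T (t + 2 * Real.pi * j / Real.log T))).card : ℝ) <
        Real.exp ((1 - (i * κ) ^ 2 - η) * Real.log m)} ≤ η * T := by
    rw [Filter.eventually_all_finset]
    intro i hi
    have hi1 : (i : ℝ) * κ ≤ 1 := by
      rw [← hκK, mul_comm κ]
      have : (i : ℝ) ≤ K := by exact_mod_cast Nat.lt_succ_iff.1 (Finset.mem_range.1 hi)
      exact mul_le_mul_of_nonneg_right this hκ0.le
    exact low_pt hδ hδ1 (by positivity) hi1 hη0 1 (Or.inl rfl)
  have E5 : ∀ᶠ m : ℕ in atTop, ∀ i ∈ Finset.range (K + 1), ∀ᶠ T : ℝ in atTop,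
      PT T {t | (((Finset.Icc 1 m).filter (fun j : ℕ => ((i * κ) * (1 - 2 * δ) - η) * Real.log m ≤
        (-1) * Pm δ (Real.log m) T (t + 2 * Real.pi * j / Real.log T))).card : ℝ) <
        Real.exp ((1 - (i * κ) ^ 2 - η) * Real.log m)} ≤ η * T := by
    rw [Filter.eventually_all_finset]
    intro i hi
    have hi1 : (i : ℝ) * κ ≤ 1 := by
      rw [← hκK, mul_comm κ]
      have : (i : ℝ) ≤ K := by exact_mod_cast Nat.lt_succ_iff.1 (Finset.mem_range.1 hi)
      exact mul_le_mul_of_nonneg_right this hκ0.le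
    exact low_pt hδ hδ1 (by positivity) hi1 hη0 (-1) (Or.inr rfl)
  have E6 : ∀ᶠ m : ℕ in atTop, ∀ i ∈ Finset.range (K + 1), ∀ᶠ T : ℝ in atTop,
      PT T {t | Real.exp ((1 - (i * κ) ^ 2 + η) * Real.log m) < (((Finset.Icc 1 m).filter (fun j : ℕ => (i * κ) * Real.log m ≤
        |Pm δ (Real.log m) T (t + 2 * Real.pi * j / Real.log T)|)).card : ℝ)} ≤ η * T := by
    rw [Filter.eventually_all_finset]
    intro i hi
    exact up_pt hδ hδ1 (by positivity) hη0
  filter_upwards [E1, E2, E3, E4, E5, E6, log_nat_atTop.eventually_ge_atTop 1] with m F1 F2 F3 F4 F5 F6 hL1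
  rw [← Filter.eventually_all_finset] at F4 F5 F6
  obtain ⟨L, hLd⟩ : ∃ L : ℝ, L = Real.log m := ⟨_, rfl⟩
  rw [← hLd] at F1 F2 F3 F4 F5 F6 hL1
  have hL0 : 0 < L := by linarith
  filter_upwards [F1, F2, F3, F4, F5, F6, eventually_ge_atTop 0] with T G1 G2 G3 G4 G5 G6 hT0
  have hinc : ∀ t ∈ Ioc T (2 * T), t ∈ {t | ¬ GT ε m T t} → t ∈
      ({t | ∃ j ∈ Finset.Icc 1 m, η * L < |Real.pi * (((NZ (t + 2 * Real.pi * j / Real.log T) : ℝ) - NZ t) - j) -
        (Pm δ L T (t + 2 * Real.pi * j / Real.log T) - Pm δ L T t)|} ∪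
      ({t | η * L ≤ |Pm δ L T t|} ∪ {t | Real.exp ((1 - (1 + η) ^ 2 + η) * L) <
        (((Finset.Icc 1 m).filter (fun j : ℕ => (1 + η) * L ≤
        |Pm δ L T (t + 2 * Real.pi * j / Real.log T)|)).card : ℝ)})) ∪
      ({t | ∃ i ∈ Finset.range (K + 1), t ∈ {t | (((Finset.Icc 1 m).filter (fun j : ℕ => ((i * κ) * (1 - 2 * δ) - η) * L ≤
        1 * Pm δ L T (t + 2 * Real.pi * j / Real.log T))).card : ℝ) < Real.exp ((1 - (i * κ) ^ 2 - η) * L)}} ∪
      ({t | ∃ i ∈ Finset.range (K + 1), t ∈ {t | (((Finset.Icc 1 m).filter (fun j : ℕ => ((i * κ) * (1 - 2 * δ) - η) * L ≤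
        (-1) * Pm δ L T (t + 2 * Real.pi * j / Real.log T))).card : ℝ) < Real.exp ((1 - (i * κ) ^ 2 - η) * L)}} ∪
      {t | ∃ i ∈ Finset.range (K + 1), t ∈ {t | Real.exp ((1 - (i * κ) ^ 2 + η) * L) <
        (((Finset.Icc 1 m).filter (fun j : ℕ => (i * κ) * L ≤
        |Pm δ L T (t + 2 * Real.pi * j / Real.log T)|)).card : ℝ)}})) := by
    intro t ht hGT
    by_contra hcon
    simp only [Set.mem_union, Set.mem_ofPred_eq, not_or, not_exists, not_and, not_lt, not_le] at hcon
    obtain ⟨⟨n1, n2, n3⟩, n4, n5, n6⟩ := hcon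
    apply hGT
    have hclose : ∀ j ∈ Finset.Icc 1 m, |Dv T t j - Pm δ L T (t + 2 * Real.pi * j / Real.log T)| ≤ 2 * η * L := by
      intro j hj
      have a1 := n1 j hj
      have e1 : Dv T t j - Pm δ L T (t + 2 * Real.pi * j / Real.log T) =
          (Real.pi * (((NZ (t + 2 * Real.pi * j / Real.log T) : ℝ) - NZ t) - j) -
          (Pm δ L T (t + 2 * Real.pi * j / Real.log T) - Pm δ L T t)) + -Pm δ L T t := by
        unfold Dv; ring
      rw [e1]
      refine (abs_add_le _ _).trans ?_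
      rw [abs_neg]
      linarith
    have hmax : ∀ j ∈ Finset.Icc 1 m, |Pm δ L T (t + 2 * Real.pi * j / Real.log T)| < (1 + η) * L := by
      intro j hj
      by_contra hc
      push Not at hc
      have h1 : 1 ≤ ((Finset.Icc 1 m).filter (fun j : ℕ => (1 + η) * L ≤
        |Pm δ L T (t + 2 * Real.pi * j / Real.log T)|)).card :=
        Finset.card_pos.2 ⟨j, Finset.mem_filter.2 ⟨hj, hc⟩⟩
      have h2 : (1 : ℝ) ≤ (((Finset.Icc 1 m).filter (fun j : ℕ => (1 + η) * L ≤
        |Pm δ L T (t + 2 * Real.pi * j / Real.log T)|)).card : ℝ) := by exact_mod_cast h1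
      have h3 : Real.exp ((1 - (1 + η) ^ 2 + η) * L) < 1 := by
        rw [Real.exp_lt_one_iff]
        have : 1 - (1 + η) ^ 2 + η = -(η + η ^ 2) := by ring
        rw [this]
        have : 0 < (η + η ^ 2) * L := by positivity
        linarith
      linarith
    unfold GT
    rw [← hLd]
    refine ⟨fun j hj => ?_, fun σ hσ a ha ha1 => ?_, fun a ha ha1 => ?_⟩
    · have a1 := abs_le.1 (hclose j hj)
      have a2 := abs_lt.1 (hmax j hj)
      rw [abs_le]
      have h3 : 3 * η ≤ ε := by linarith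
      have h4 : 3 * η * L ≤ ε * L := mul_le_mul_of_nonneg_right h3 hL0.le
      constructor <;> linarith [a1.1, a1.2, a2.1, a2.2]
    · -- lower bound
      obtain ⟨i, hi⟩ : ∃ i : ℕ, i = ⌊a * K⌋₊ + 2 := ⟨_, rfl⟩
      have b1 : (⌊a * K⌋₊ : ℝ) ≤ a * K := Nat.floor_le (by positivity)
      have b2 : a * K < ⌊a * K⌋₊ + 1 := Nat.lt_floor_add_one _
      have hir : (i : ℝ) = ⌊a * K⌋₊ + 2 := by rw [hi]; push_cast; ring
      have b3 : (i : ℝ) * κ ≤ a + 2 * κ := by
        rw [hir]
        calc ((⌊a * K⌋₊ : ℝ) + 2) * κ ≤ (a * K + 2) * κ := by gcongr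
          _ = a * (κ * K) + 2 * κ := by ring
          _ = _ := by rw [hκK, mul_one]
      have b4 : a + κ ≤ (i : ℝ) * κ := by
        rw [hir]
        calc a + κ = a * (κ * K) + κ := by rw [hκK, mul_one]
          _ = (a * K + 1) * κ := by ring
          _ ≤ ((⌊a * K⌋₊ : ℝ) + 2) * κ := by
              apply mul_le_mul_of_nonneg_right _ hκ0.le
              linarith
      have b5 : (i : ℝ) * κ ≤ 1 := by linarith
      have hiK : i ∈ Finset.range (K + 1) := by
        rw [Finset.mem_range, Nat.lt_succ_iff]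
        have : (i : ℝ) ≤ K := by
          by_contra hc
          push Not at hc
          have : κ * K < i * κ := by
            rw [mul_comm κ]
            exact mul_lt_mul_of_pos_right hc hκ0
          linarith
        exact_mod_cast this
      have b6 : a + 3 * η ≤ (i * κ) * (1 - 2 * δ) := by nlinarith
      have b7 : ((i : ℝ) * κ) ^ 2 + η ≤ a ^ 2 + ε := by
        have : ((i : ℝ) * κ) ^ 2 ≤ (a + 2 * κ) ^ 2 := by
          apply pow_le_pow_left₀ (by positivity) b3
        nlinarith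
      have b8 : Real.exp ((1 - a ^ 2 - ε) * L) ≤ Real.exp ((1 - (i * κ) ^ 2 - η) * L) := by
        apply Real.exp_le_exp.2
        apply mul_le_mul_of_nonneg_right _ hL0.le
        linarith
      have b9 : Real.exp ((1 - (i * κ) ^ 2 - η) * L) ≤ (((Finset.Icc 1 m).filter (fun j : ℕ => ((i * κ) * (1 - 2 * δ) - η) * L ≤
          σ * Pm δ L T (t + 2 * Real.pi * j / Real.log T))).card : ℝ) := by
        rcases hσ with h | h
        · rw [h]; exact n4 i hiK
        · rw [h]; exact n5 i hiK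
      refine b8.trans (b9.trans ?_)
      have b10 : ((Finset.Icc 1 m).filter (fun j : ℕ => ((i * κ) * (1 - 2 * δ) - η) * L ≤
          σ * Pm δ L T (t + 2 * Real.pi * j / Real.log T))).card ≤
          ((Finset.Icc 1 m).filter (fun j : ℕ => a * L ≤ σ * Dv T t j)).card := by
        refine Finset.card_le_card fun j hj => ?_
        rw [Finset.mem_filter] at hj ⊢
        refine ⟨hj.1, ?_⟩
        have h1 := abs_le.1 (hclose j hj.1)
        have h2 : (a + 2 * η) * L ≤ ((i * κ) * (1 - 2 * δ) - η) * L := by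
          apply mul_le_mul_of_nonneg_right _ hL0.le
          linarith
        have h3 := h2.trans hj.2
        rcases hσ with h | h
        · rw [h] at h3 ⊢
          linarith [h1.1]
        · rw [h] at h3 ⊢
          linarith [h1.2]
      exact_mod_cast b10
    · -- upper bound
      obtain ⟨b, hb⟩ : ∃ b : ℝ, b = max 0 (a - 2 * η) := ⟨_, rfl⟩
      have hb0 : 0 ≤ b := by rw [hb]; exact le_max_left _ _
      have hba : b ≤ a := by rw [hb]; exact max_le ha (by linarith)
      have hab : a - 2 * η ≤ b := by rw [hb]; exact le_max_right _ _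
      obtain ⟨i, hi⟩ : ∃ i : ℕ, i = ⌊b * K⌋₊ := ⟨_, rfl⟩
      have b1 : (i : ℝ) ≤ b * K := by rw [hi]; exact Nat.floor_le (by positivity)
      have b2 : b * K < i + 1 := by rw [hi]; exact Nat.lt_floor_add_one _
      have b3 : (i : ℝ) * κ ≤ b := by
        calc (i : ℝ) * κ ≤ (b * K) * κ := by gcongr
          _ = b * (κ * K) := by ring
          _ = b := by rw [hκK, mul_one]
      have b4 : b - κ ≤ (i : ℝ) * κ := by
        have : b * (κ * K) ≤ ((i : ℝ) + 1) * κ := by
          calc b * (κ * K) = (b * K) * κ := by ring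
            _ ≤ _ := mul_le_mul_of_nonneg_right b2.le hκ0.le
        rw [hκK, mul_one] at this
        linarith
      have hiK : i ∈ Finset.range (K + 1) := by
        rw [Finset.mem_range, Nat.lt_succ_iff]
        have : (i : ℝ) ≤ K := by nlinarith
        exact_mod_cast this
      have b7 : a ^ 2 + η ≤ ((i : ℝ) * κ) ^ 2 + ε := by
        have h0 : 0 ≤ (i : ℝ) * κ := by positivity
        have h1 : a - (i : ℝ) * κ ≤ κ + 2 * η := by linarith
        have h2 : a + (i : ℝ) * κ ≤ 2 := by linarith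
        have h3 : 0 ≤ a - (i : ℝ) * κ := by linarith
        have h4 : (a - (i : ℝ) * κ) * (a + (i : ℝ) * κ) ≤ (κ + 2 * η) * 2 :=
          mul_le_mul h1 h2 (by linarith) (by positivity)
        nlinarith
      have b10 : ((Finset.Icc 1 m).filter (fun j : ℕ => a * L ≤ |Dv T t j|)).card ≤
          ((Finset.Icc 1 m).filter (fun j : ℕ => (i * κ) * L ≤
          |Pm δ L T (t + 2 * Real.pi * j / Real.log T)|)).card := by
        refine Finset.card_le_card fun j hj => ?_
        rw [Finset.mem_filter] at hj ⊢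
        refine ⟨hj.1, ?_⟩
        have h1 := hclose j hj.1
        have h2 : |Dv T t j| ≤ |Dv T t j - Pm δ L T (t + 2 * Real.pi * j / Real.log T)| +
            |Pm δ L T (t + 2 * Real.pi * j / Real.log T)| := by
          have := abs_add_le (Dv T t j - Pm δ L T (t + 2 * Real.pi * j / Real.log T))
            (Pm δ L T (t + 2 * Real.pi * j / Real.log T))
          rwa [sub_add_cancel] at this
        have h3 : (a - 2 * η) * L ≤ |Pm δ L T (t + 2 * Real.pi * j / Real.log T)| := by
          have := hj.2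
          linarith
        have h4 : b * L ≤ |Pm δ L T (t + 2 * Real.pi * j / Real.log T)| := by
          rw [hb]
          rcases le_total 0 (a - 2 * η) with h | h
          · rw [max_eq_right h]; exact h3
          · rw [max_eq_left h, zero_mul]; exact abs_nonneg _
        exact (mul_le_mul_of_nonneg_right b3 hL0.le).trans h4
      have b11 : (((Finset.Icc 1 m).filter (fun j : ℕ => a * L ≤ |Dv T t j|)).card : ℝ) ≤
          (((Finset.Icc 1 m).filter (fun j : ℕ => (i * κ) * L ≤
          |Pm δ L T (t + 2 * Real.pi * j / Real.log T)|)).card : ℝ) := by exact_mod_cast b10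
      refine b11.trans ((n6 i hiK).trans ?_)
      apply Real.exp_le_exp.2
      apply mul_le_mul_of_nonneg_right _ hL0.le
      linarith
  refine (PT_mono hinc).trans ((PT_union _ _ _).trans ((add_le_add ((PT_union _ _ _).trans (add_le_add G1
    ((PT_union _ _ _).trans (add_le_add G2 G3)))) ((PT_union _ _ _).trans (add_le_add ((PT_biUnion _ _ _).trans
    (Finset.sum_le_sum G4)) ((PT_union _ _ _).trans (add_le_add ((PT_biUnion _ _ _).trans (Finset.sum_le_sum G5))
    ((PT_biUnion _ _ _).trans (Finset.sum_le_sum G6))))))).trans ?_))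
  rw [Finset.sum_const, Finset.card_range, nsmul_eq_mul]
  push_cast
  calc η * T + (η * T + η * T) + (((K : ℝ) + 1) * (η * T) + (((K : ℝ) + 1) * (η * T) + ((K : ℝ) + 1) * (η * T))) =
      ((3 * K + 6) * η) * T := by ring
    _ ≤ ε * T := by
        apply mul_le_mul_of_nonneg_right _ hT0
        linarith

end

end Run7.h435.MD
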