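import Pool.Agent.Run7.h435.MDta

/-! # The deviation seen from a zero -/

set_option autoImplicit false

namespace Run7.h435.MD

open Filter Topology MeasureTheory Set
open SP (RHs)
open SG (NZ ord)

noncomputable section

/-- the number of zeros in a window following the `n`-th one, minus the length of the window -/
def cz (n : ℕ) (x : ℝ) : ℝ := (NZ (ord n + 2 * Real.pi * x / Real.log (ord n)) : ℝ) - NZ (ord n) - x

/-- the displacement of the `(n + j)`-th zero -/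
def dz (n j : ℕ) : ℝ := (ord (n + j) - ord n) * Real.log (ord n) / (2 * Real.pi) - j

/-- the good indices -/
def GZ (ε : ℝ) (m n : ℕ) : Prop :=
  (∀ x : ℝ, 0 ≤ x → x ≤ m → |Real.pi * cz n x| ≤ (1 + ε) * Real.log m) ∧
  (∀ σ : ℝ, (σ = 1 ∨ σ = -1) → ∀ a : ℝ, 0 ≤ a → a ≤ 1 - ε → Real.exp ((1 - a ^ 2 - ε) * Real.log m) ≤
    (((Finset.Icc 1 m).filter (fun j : ℕ => a * Real.log m ≤ σ * (Real.pi * cz n j))).card : ℝ)) ∧
  (∀ a : ℝ, 0 ≤ a → a ≤ 1 → (((Finset.Icc 1 m).filter (fun j : ℕ => a * Real.log m ≤ |Real.pi * cz n j|)).card : ℝ) ≤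
    Real.exp ((1 - a ^ 2 + ε) * Real.log m)) ∧
  (∀ j ∈ Finset.Icc 1 m, |Real.pi * dz n j| ≤ (1 + ε) * Real.log m) ∧
  (∀ σ : ℝ, (σ = 1 ∨ σ = -1) → ∃ j ∈ Finset.Icc 1 m, (1 - 2 * ε) * Real.log m ≤ σ * (Real.pi * dz n j))

lemma up_s {T t : ℝ} {n M : ℕ} (hT : 1 < T) (h1 : T ≤ t) (h2 : t < ord n)
    (h3 : ord n ≤ t + 2 * Real.pi * M / Real.log T) {x : ℝ} (hx : 0 ≤ x) {k : ℕ} (hk : x + M ≤ k) :
    NZ (ord n + 2 * Real.pi * x / Real.log (ord n)) ≤ NZ (t + 2 * Real.pi * k / Real.log T) := by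
  have hpi := Real.pi_pos
  have hL : 0 < Real.log T := Real.log_pos hT
  apply SG.NZ_mono
  have h5 : Real.log T ≤ Real.log (ord n) := Real.log_le_log (by linarith) (by linarith)
  have h6 : 2 * Real.pi * x / Real.log (ord n) ≤ 2 * Real.pi * x / Real.log T :=
    div_le_div_of_nonneg_left (by positivity) hL h5
  have h7 : 2 * Real.pi * x / Real.log T + 2 * Real.pi * M / Real.log T ≤ 2 * Real.pi * k / Real.log T := by
    rw [← add_div]
    apply div_le_div_of_nonneg_right _ hL.le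
    nlinarith
  linarith

lemma lo_s {T t : ℝ} {n : ℕ} (hT : 1 < T) (h1 : T ≤ t) (h2 : t < ord n) (h4 : ord n ≤ 2 * T)
    {x : ℝ} (hxL : x ≤ Real.log T) {k : ℕ} (hk : (k : ℝ) + 1 ≤ x) :
    NZ (t + 2 * Real.pi * k / Real.log T) ≤ NZ (ord n + 2 * Real.pi * x / Real.log (ord n)) := by
  have hpi := Real.pi_pos
  have hL : 0 < Real.log T := Real.log_pos hT
  have hk0 : (0 : ℝ) ≤ k := Nat.cast_nonneg k
  apply SG.NZ_mono
  have h5 : Real.log T ≤ Real.log (ord n) := Real.log_le_log (by linarith) (by linarith)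
  have h6 : Real.log (ord n) ≤ Real.log T + 1 := by
    have a1 : Real.log (ord n) ≤ Real.log (2 * T) := Real.log_le_log (by linarith) h4
    rw [Real.log_mul (by norm_num) (by linarith)] at a1
    have := Real.log_two_lt_d9
    linarith
  have h7 : 2 * Real.pi * k / Real.log T ≤ 2 * Real.pi * x / Real.log (ord n) := by
    rw [div_le_div_iff₀ hL (by linarith)]
    have h8 : (k : ℝ) * Real.log (ord n) ≤ x * Real.log T := by
      calc (k : ℝ) * Real.log (ord n) ≤ k * (Real.log T + 1) := by gcongr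
        _ = k * Real.log T + k := by ring
        _ ≤ k * Real.log T + Real.log T := by linarith
        _ = ((k : ℝ) + 1) * Real.log T := by ring
        _ ≤ x * Real.log T := by gcongr
    nlinarith
  linarith

/-- the discrepancy in a window -/
lemma cz_bd {ε : ℝ} {m M n : ℕ} {T t : ℝ} (hε : 0 < ε) (hε1 : ε ≤ 1 / 4) (hM : 1 ≤ M) (hT : 1 < T) (h1 : T ≤ t) (h2 : t < ord n)
    (h3 : ord n ≤ t + 2 * Real.pi * M / Real.log T) (h4 : ord n ≤ 2 * T) (hm : 2 * (m : ℝ) ≤ Real.log T) (hm1 : 1 ≤ m)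
    (hG2 : GT (ε / 8) (2 * m) T t)
    (hR : (NZ (t + 2 * Real.pi * M / Real.log T) : ℝ) - NZ t ≤ ε / 64 * Real.log m)
    (s2 : 4 * ((M : ℝ) + 2) ≤ ε / 64 * Real.log m)
    (x : ℝ) (hx0 : 0 ≤ x) (hx : x + M + 2 ≤ 2 * m) : |Real.pi * cz n x| ≤ (1 + ε / 2) * Real.log m := by
  have hpi := Real.pi_pos
  have hpi4 : Real.pi ≤ 4 := by linarith [Real.pi_lt_d2]
  obtain ⟨L, hL⟩ : ∃ L : ℝ, L = Real.log m := ⟨_, rfl⟩
  have hm0 : (0 : ℝ) < m := by exact_mod_cast hm1
  have hlog2 : Real.log ((2 * m : ℕ) : ℝ) ≤ L + 1 := by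
    push_cast
    rw [Real.log_mul (by norm_num) hm0.ne', ← hL]
    have := Real.log_two_lt_d9
    linarith
  rw [← hL] at hR s2 ⊢
  have hM0 : (1 : ℝ) ≤ M := by exact_mod_cast hM
  have hL0 : 0 < L := by
    by_contra hc
    push Not at hc
    nlinarith
  have hεL : 12 ≤ ε / 64 * L := by linarith
  have hmax : ∀ k ∈ Finset.Icc 1 (2 * m), |Dv T t k| ≤ (1 + ε / 4) * L := by
    intro k hk
    refine (hG2.1 k hk).trans ?_
    have : (1 + ε / 8) * Real.log ((2 * m : ℕ) : ℝ) ≤ (1 + ε / 8) * (L + 1) :=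
      mul_le_mul_of_nonneg_left hlog2 (by positivity)
    nlinarith
  have hNg : (NZ (ord n) : ℝ) ≤ NZ t + ε / 64 * L := by
    have : (NZ (ord n) : ℝ) ≤ NZ (t + 2 * Real.pi * M / Real.log T) := by exact_mod_cast SG.NZ_mono h3
    linarith
  have hNg2 : (NZ t : ℝ) ≤ NZ (ord n) := by exact_mod_cast SG.NZ_mono h2.le
  rw [abs_le]
  constructor
  · rcases lt_or_ge x 2 with h | h
    · have a1 : (NZ (ord n) : ℝ) ≤ NZ (ord n + 2 * Real.pi * x / Real.log (ord n)) := by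
        have hlo : 0 < Real.log (ord n) := Real.log_pos (by linarith)
        have : ord n ≤ ord n + 2 * Real.pi * x / Real.log (ord n) := by
          have : 0 ≤ 2 * Real.pi * x / Real.log (ord n) := by positivity
          linarith
        exact_mod_cast SG.NZ_mono this
      have a2 : -2 ≤ cz n x := by unfold cz; linarith
      nlinarith
    · obtain ⟨k, hk⟩ : ∃ k : ℕ, k = ⌊x⌋₊ - 1 := ⟨_, rfl⟩
      have hf2 : 2 ≤ ⌊x⌋₊ := Nat.le_floor (by exact_mod_cast h)
      have hkr : (k : ℝ) = ⌊x⌋₊ - 1 := by rw [hk, Nat.cast_sub (by omega)]; simp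
      have f1 : (⌊x⌋₊ : ℝ) ≤ x := Nat.floor_le hx0
      have f2 : x < ⌊x⌋₊ + 1 := Nat.lt_floor_add_one x
      have a1 : (NZ (t + 2 * Real.pi * k / Real.log T) : ℝ) ≤ NZ (ord n + 2 * Real.pi * x / Real.log (ord n)) := by
        exact_mod_cast lo_s hT h1 h2 h4 (by linarith) (by linarith)
      have hkm : k ∈ Finset.Icc 1 (2 * m) := by
        rw [Finset.mem_Icc]
        refine ⟨by omega, ?_⟩
        have : (k : ℝ) ≤ (2 * m : ℕ) := by push_cast; linarith
        exact_mod_cast this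
      have a2 := (abs_le.1 (hmax k hkm)).1
      have a3 : Dv T t k - Real.pi * (2 + ε / 64 * L) ≤ Real.pi * cz n x := by
        unfold Dv cz
        rw [← mul_sub]
        apply mul_le_mul_of_nonneg_left _ hpi.le
        linarith
      have a4 : Real.pi * (2 + ε / 64 * L) ≤ 4 * (2 + ε / 64 * L) := by
        apply mul_le_mul_of_nonneg_right hpi4
        linarith
      nlinarith
  · obtain ⟨k, hk⟩ : ∃ k : ℕ, k = ⌈x⌉₊ + M := ⟨_, rfl⟩
    have f1 : x ≤ ⌈x⌉₊ := Nat.le_ceil x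
    have f2 : (⌈x⌉₊ : ℝ) < x + 1 := Nat.ceil_lt_add_one hx0
    have hkr : (k : ℝ) = ⌈x⌉₊ + M := by rw [hk]; push_cast; ring
    have a1 : (NZ (ord n + 2 * Real.pi * x / Real.log (ord n)) : ℝ) ≤ NZ (t + 2 * Real.pi * k / Real.log T) := by
      exact_mod_cast up_s hT h1 h2 h3 hx0 (by linarith)
    have hkm : k ∈ Finset.Icc 1 (2 * m) := by
      rw [Finset.mem_Icc]
      refine ⟨by omega, ?_⟩
      have : (k : ℝ) ≤ (2 * m : ℕ) := by push_cast; linarith
      exact_mod_cast this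
    have a2 := (abs_le.1 (hmax k hkm)).2
    have a3 : Real.pi * cz n x ≤ Dv T t k + Real.pi * (M + 1) := by
      unfold Dv cz
      rw [← mul_add]
      apply mul_le_mul_of_nonneg_left _ hpi.le
      linarith
    have a4 : Real.pi * ((M : ℝ) + 1) ≤ 4 * (M + 1) := by
      apply mul_le_mul_of_nonneg_right hpi4
      linarith
    nlinarith

end

end Run7.h435.MD
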