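import Pool.Agent.Run7.h435.MDu

/-! # The deviation seen from a zero: the number of high points -/

set_option autoImplicit false

namespace Run7.h435.MD

open Filter Topology MeasureTheory Set
open SP (RHs)
open SG (NZ ord)

noncomputable section

/-- the good position of a zero -/
structure Pos (ε : ℝ) (m M n : ℕ) (T t : ℝ) : Prop where
  hε : 0 < ε
  hε1 : ε ≤ 1 / 4
  hM : 1 ≤ M
  hT : 1 < T
  h1 : T ≤ t
  h2 : t < ord n
  h3 : ord n ≤ t + 2 * Real.pi * M / Real.log T
  h4 : ord n ≤ 2 * T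
  hm : 2 * (m : ℝ) ≤ Real.log T
  hm1 : 1 ≤ m
  hn : 1 ≤ n
  hG1 : GT (ε / 8) m T t
  hG2 : GT (ε / 8) (2 * m) T t
  hR : (NZ (t + 2 * Real.pi * M / Real.log T) : ℝ) - NZ t ≤ ε / 64 * Real.log m
  s2 : 4 * ((M : ℝ) + 2) ≤ ε / 64 * Real.log m
  s3 : (M : ℝ) + 3 ≤ Real.exp (ε / 4 * Real.log m)
  s4 : 2 * Real.log m + M + 3 ≤ m
  s5 : 2 * Real.log m + 1 < Real.exp ((1 - (1 - ε) ^ 2 - ε) * Real.log m)

lemma Pos.L0 {ε : ℝ} {m M n : ℕ} {T t : ℝ} (h : Pos ε m M n T t) : 0 < Real.log m := by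
  have := h.s2
  have hM0 : (1 : ℝ) ≤ M := by exact_mod_cast h.hM
  have hε := h.hε
  by_contra hc
  push Not at hc
  nlinarith

/-- comparison from above -/
lemma Pos.up {ε : ℝ} {m M n : ℕ} {T t : ℝ} (h : Pos ε m M n T t) {x : ℝ} (hx : 0 ≤ x) {k : ℕ} (hk : x + M ≤ k) :
    Real.pi * cz n x ≤ Dv T t k + Real.pi * (k - x) := by
  have a1 : (NZ (ord n + 2 * Real.pi * x / Real.log (ord n)) : ℝ) ≤ NZ (t + 2 * Real.pi * k / Real.log T) := by
    exact_mod_cast up_s h.hT h.h1 h.h2 h.h3 hx hk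
  have hNg2 : (NZ t : ℝ) ≤ NZ (ord n) := by exact_mod_cast SG.NZ_mono h.h2.le
  unfold Dv cz
  rw [← mul_add]
  apply mul_le_mul_of_nonneg_left _ Real.pi_pos.le
  linarith

/-- comparison from below -/
lemma Pos.lo {ε : ℝ} {m M n : ℕ} {T t : ℝ} (h : Pos ε m M n T t) {x : ℝ} (hx : x ≤ m) {k : ℕ} (hk : (k : ℝ) + 1 ≤ x) :
    Dv T t k - Real.pi * (x - k + ε / 64 * Real.log m) ≤ Real.pi * cz n x := by
  have hm0 : (0 : ℝ) ≤ m := Nat.cast_nonneg m
  have a1 : (NZ (t + 2 * Real.pi * k / Real.log T) : ℝ) ≤ NZ (ord n + 2 * Real.pi * x / Real.log (ord n)) := by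
    exact_mod_cast lo_s h.hT h.h1 h.h2 h.h4 (by linarith [h.hm]) hk
  have hNg : (NZ (ord n) : ℝ) ≤ NZ t + ε / 64 * Real.log m := by
    have : (NZ (ord n) : ℝ) ≤ NZ (t + 2 * Real.pi * M / Real.log T) := by exact_mod_cast SG.NZ_mono h.h3
    linarith [h.hR]
  unfold Dv cz
  rw [← mul_sub]
  apply mul_le_mul_of_nonneg_left _ Real.pi_pos.le
  linarith

lemma Pos.one {ε : ℝ} {m M n : ℕ} {T t : ℝ} (h : Pos ε m M n T t) {x : ℝ} (hx0 : 0 ≤ x) (hx : x + M + 2 ≤ 2 * m) :
    |Real.pi * cz n x| ≤ (1 + ε / 2) * Real.log m :=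
  cz_bd h.hε h.hε1 h.hM h.hT h.h1 h.h2 h.h3 h.h4 h.hm h.hm1 h.hG2 h.hR h.s2 x hx0 hx

/-- many high points -/
lemma Pos.low {ε : ℝ} {m M n : ℕ} {T t : ℝ} (h : Pos ε m M n T t) (σ : ℝ) (hσ : σ = 1 ∨ σ = -1) (a : ℝ) (ha : 0 ≤ a)
    (ha1 : a ≤ 1 - ε) : Real.exp ((1 - a ^ 2 - ε) * Real.log m) ≤
    (((Finset.Icc 1 m).filter (fun j : ℕ => a * Real.log m ≤ σ * (Real.pi * cz n j))).card : ℝ) := by
  have hpi := Real.pi_pos
  have hpi4 : Real.pi ≤ 4 := by linarith [Real.pi_lt_d2]
  have hε := h.hε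
  have hε1 := h.hε1
  have hM0 : (1 : ℝ) ≤ M := by exact_mod_cast h.hM
  have hL0 := h.L0
  have s2 := h.s2
  have s3 := h.s3
  obtain ⟨L, hL⟩ : ∃ L : ℝ, L = Real.log m := ⟨_, rfl⟩
  rw [← hL] at s2 s3 hL0 ⊢
  have hcount := h.hG1.2.1 σ hσ (a + ε / 8) (by positivity) (by linarith)
  rw [← hL] at hcount
  -- the shift of the high points
  have hcard : (((Finset.Icc 1 m).filter (fun j : ℕ => (a + ε / 8) * L ≤ σ * Dv T t j)).card : ℝ) ≤
      (((Finset.Icc 1 m).filter (fun j : ℕ => a * L ≤ σ * (Real.pi * cz n j))).card : ℝ) + M := by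
    rcases hσ with hs | hs
    · -- high points
      have h5 : (Finset.Icc 1 m).filter (fun j : ℕ => (a + ε / 8) * L ≤ σ * Dv T t j) ⊆
          insert m (((Finset.Icc 1 m).filter (fun j : ℕ => a * L ≤ σ * (Real.pi * cz n j))).image (fun j => j - 1)) := by
        intro i hi
        rw [Finset.mem_filter, Finset.mem_Icc] at hi
        rw [Finset.mem_insert, Finset.mem_image]
        by_cases him : i = m
        · left; exact him
        right
        refine ⟨i + 1, ?_, rfl⟩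
        rw [Finset.mem_filter, Finset.mem_Icc]
        have hi1 : i + 1 ≤ m := by omega
        refine ⟨⟨by omega, hi1⟩, ?_⟩
        have hir : ((i + 1 : ℕ) : ℝ) ≤ m := by exact_mod_cast hi1
        have a1 := h.lo hir (k := i) (by push_cast; linarith)
        rw [← hL] at a1
        have a2 := hi.2
        rw [hs, one_mul] at a2 ⊢
        push_cast at a1 ⊢
        have a3 : Real.pi * ((i : ℝ) + 1 - i + ε / 64 * L) ≤ 4 * (1 + ε / 64 * L) := by
          have : (i : ℝ) + 1 - i + ε / 64 * L = 1 + ε / 64 * L := by ring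
          rw [this]
          apply mul_le_mul_of_nonneg_right hpi4
          positivity
        linarith
      have h6 := (Finset.card_le_card h5).trans ((Finset.card_insert_le _ _).trans
        (Nat.add_le_add_right Finset.card_image_le 1))
      have h7 : (((Finset.Icc 1 m).filter (fun j : ℕ => (a + ε / 8) * L ≤ σ * Dv T t j)).card : ℝ) ≤
        (((Finset.Icc 1 m).filter (fun j : ℕ => a * L ≤ σ * (Real.pi * cz n j))).card : ℝ) + 1 := by exact_mod_cast h6
      linarith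
    · -- low points
      have h5 : (Finset.Icc 1 m).filter (fun j : ℕ => (a + ε / 8) * L ≤ σ * Dv T t j) ⊆
          (Finset.Icc 1 M) ∪ (((Finset.Icc 1 m).filter (fun j : ℕ => a * L ≤ σ * (Real.pi * cz n j))).image (fun j => j + M)) := by
        intro i hi
        rw [Finset.mem_filter, Finset.mem_Icc] at hi
        rw [Finset.mem_union, Finset.mem_Icc, Finset.mem_image]
        by_cases hiM : i ≤ M
        · left; exact ⟨hi.1.1, hiM⟩
        right
        refine ⟨i - M, ?_, by omega⟩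
        rw [Finset.mem_filter, Finset.mem_Icc]
        refine ⟨⟨by omega, by omega⟩, ?_⟩
        have hir : ((i - M : ℕ) : ℝ) = i - M := by rw [Nat.cast_sub (by omega)]
        have a1 := h.up (x := ((i - M : ℕ) : ℝ)) (Nat.cast_nonneg _) (k := i) (by rw [hir]; linarith)
        have a2 := hi.2
        rw [hs] at a2 ⊢
        have a3 : Real.pi * ((i : ℝ) - ((i - M : ℕ) : ℝ)) ≤ 4 * M := by
          rw [hir]
          have : (i : ℝ) - ((i : ℝ) - M) = M := by ring
          rw [this]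
          apply mul_le_mul_of_nonneg_right hpi4
          positivity
        linarith
      have h6 := (Finset.card_le_card h5).trans ((Finset.card_union_le _ _).trans
        (Nat.add_le_add_left Finset.card_image_le _))
      rw [Nat.card_Icc, Nat.add_sub_cancel] at h6
      have h7 : (((Finset.Icc 1 m).filter (fun j : ℕ => (a + ε / 8) * L ≤ σ * Dv T t j)).card : ℝ) ≤
        M + (((Finset.Icc 1 m).filter (fun j : ℕ => a * L ≤ σ * (Real.pi * cz n j))).card : ℝ) := by exact_mod_cast h6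
      linarith
  -- the sizes
  obtain ⟨X, hX⟩ : ∃ X : ℝ, X = Real.exp ((1 - a ^ 2 - ε) * L) := ⟨_, rfl⟩
  have hX1 : 1 ≤ X := by
    rw [hX]
    apply Real.one_le_exp
    apply mul_nonneg _ hL0.le
    nlinarith
  have h8 : X * Real.exp (ε / 4 * L) ≤ Real.exp ((1 - (a + ε / 8) ^ 2 - ε / 8) * L) := by
    rw [hX, ← Real.exp_add]
    apply Real.exp_le_exp.2
    rw [← add_mul]
    apply mul_le_mul_of_nonneg_right _ hL0.le
    nlinarith
  rw [← hX]
  have h9 : X * (M + 3) ≤ X * Real.exp (ε / 4 * L) := mul_le_mul_of_nonneg_left s3 (by linarith)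
  nlinarith

/-- not too many high points -/
lemma Pos.upp {ε : ℝ} {m M n : ℕ} {T t : ℝ} (h : Pos ε m M n T t) (a : ℝ) (ha : 0 ≤ a)
    (ha1 : a ≤ 1) : (((Finset.Icc 1 m).filter (fun j : ℕ => a * Real.log m ≤ |Real.pi * cz n j|)).card : ℝ) ≤
    Real.exp ((1 - a ^ 2 + ε) * Real.log m) := by
  have hpi := Real.pi_pos
  have hpi4 : Real.pi ≤ 4 := by linarith [Real.pi_lt_d2]
  have hε := h.hε
  have hε1 := h.hε1
  have hM0 : (1 : ℝ) ≤ M := by exact_mod_cast h.hM
  have hL0 := h.L0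
  have s2 := h.s2
  have s3 := h.s3
  obtain ⟨L, hL⟩ : ∃ L : ℝ, L = Real.log m := ⟨_, rfl⟩
  rw [← hL] at s2 s3 hL0 ⊢
  obtain ⟨b, hb⟩ : ∃ b : ℝ, b = max 0 (a - ε / 8) := ⟨_, rfl⟩
  have hb0 : 0 ≤ b := by rw [hb]; exact le_max_left _ _
  have hba : b ≤ a := by rw [hb]; exact max_le ha (by linarith)
  have hab : a - ε / 8 ≤ b := by rw [hb]; exact le_max_right _ _
  have hcount := h.hG1.2.2 b hb0 (hba.trans ha1)
  rw [← hL] at hcount
  obtain ⟨B, hB⟩ : ∃ B : Finset ℕ, B = (Finset.Icc 1 m).filter (fun j : ℕ => b * L ≤ |Dv T t j|) := ⟨_, rfl⟩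
  rw [← hB] at hcount
  have hmem : ∀ k, 1 ≤ k → k ≤ m → (a - ε / 8) * L ≤ |Dv T t k| → k ∈ B := by
    intro k h1 h2 h3
    rw [hB, Finset.mem_filter, Finset.mem_Icc]
    refine ⟨⟨h1, h2⟩, ?_⟩
    rw [hb]
    rcases le_total 0 (a - ε / 8) with hh | hh
    · rw [max_eq_right hh]; exact h3
    · rw [max_eq_left hh, zero_mul]; exact abs_nonneg _
  have h5 : (Finset.Icc 1 m).filter (fun j : ℕ => a * L ≤ |Real.pi * cz n j|) ⊆
      (insert 1 (B.image (fun k => k + 1))) ∪ ((B.image (fun k => k - M)) ∪ Finset.Ioc (m - M) m) := by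
    intro j hj
    rw [Finset.mem_filter, Finset.mem_Icc] at hj
    rw [Finset.mem_union, Finset.mem_union, Finset.mem_insert, Finset.mem_image, Finset.mem_image, Finset.mem_Ioc]
    rcases le_abs.1 hj.2 with h6 | h6
    · -- above
      right
      by_cases hjM : j + M ≤ m
      · left
        refine ⟨j + M, hmem (j + M) (by omega) hjM ?_, by omega⟩
        have a1 := h.up (x := (j : ℝ)) (Nat.cast_nonneg _) (k := j + M) (by push_cast; linarith)
        have a3 : Real.pi * (((j + M : ℕ) : ℝ) - j) ≤ 4 * M := by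
          push_cast
          have : (j : ℝ) + M - j = M := by ring
          rw [this]
          apply mul_le_mul_of_nonneg_right hpi4
          positivity
        have a4 := le_abs_self (Dv T t (j + M))
        linarith
      · right
        exact ⟨by omega, hj.1.2⟩
    · -- below
      left
      by_cases hj1 : j = 1
      · left; exact hj1
      right
      refine ⟨j - 1, hmem (j - 1) (by omega) (by omega) ?_, by omega⟩
      have hjr : ((j - 1 : ℕ) : ℝ) = j - 1 := by rw [Nat.cast_sub (by omega)]; simp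
      have a1 := h.lo (x := (j : ℝ)) (by exact_mod_cast hj.1.2) (k := j - 1) (by rw [hjr]; linarith)
      rw [← hL, hjr] at a1
      have a3 : Real.pi * ((j : ℝ) - ((j : ℝ) - 1) + ε / 64 * L) ≤ 4 * (1 + ε / 64 * L) := by
        have : (j : ℝ) - ((j : ℝ) - 1) + ε / 64 * L = 1 + ε / 64 * L := by ring
        rw [this]
        apply mul_le_mul_of_nonneg_right hpi4
        positivity
      have a4 := neg_abs_le (Dv T t (j - 1))
      linarith
  have h6 : ((Finset.Icc 1 m).filter (fun j : ℕ => a * L ≤ |Real.pi * cz n j|)).card ≤ (B.card + 1) + (B.card + M) := by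
    refine (Finset.card_le_card h5).trans ((Finset.card_union_le _ _).trans (Nat.add_le_add
      ((Finset.card_insert_le _ _).trans (Nat.add_le_add_right Finset.card_image_le 1))
      ((Finset.card_union_le _ _).trans (Nat.add_le_add Finset.card_image_le ?_))))
    rw [Nat.card_Ioc]
    omega
  have h7 : (((Finset.Icc 1 m).filter (fun j : ℕ => a * L ≤ |Real.pi * cz n j|)).card : ℝ) ≤ 2 * B.card + (M + 1) := by
    have : (((Finset.Icc 1 m).filter (fun j : ℕ => a * L ≤ |Real.pi * cz n j|)).card : ℝ) ≤ (B.card + 1) + (B.card + M) := by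
      exact_mod_cast h6
    linarith
  refine h7.trans ?_
  obtain ⟨X, hX⟩ : ∃ X : ℝ, X = Real.exp ((1 - b ^ 2 + ε / 8) * L) := ⟨_, rfl⟩
  rw [← hX] at hcount
  have hX1 : 1 ≤ X := by
    rw [hX]
    apply Real.one_le_exp
    apply mul_nonneg _ hL0.le
    nlinarith
  have h8 : X * Real.exp (ε / 4 * L) ≤ Real.exp ((1 - a ^ 2 + ε) * L) := by
    rw [hX, ← Real.exp_add]
    apply Real.exp_le_exp.2
    rw [← add_mul]
    apply mul_le_mul_of_nonneg_right _ hL0.le
    have : a ^ 2 - b ^ 2 ≤ ε / 4 := by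
      have h9 : a ^ 2 - b ^ 2 = (a - b) * (a + b) := by ring
      rw [h9]
      calc (a - b) * (a + b) ≤ (ε / 8) * 2 := mul_le_mul (by linarith) (by linarith) (by linarith) (by positivity)
        _ = ε / 4 := by ring
    linarith
  have h9 : X * (M + 3) ≤ X * Real.exp (ε / 4 * L) := mul_le_mul_of_nonneg_left s3 (by linarith)
  nlinarith

end

end Run7.h435.MD
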