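import Pool.Agent.Run7.h435.MDv
import Pool.Agent.Run7.h435.GLc
import Pool.Agent.X112.SD.Palm

/-! # From random heights to the zeros -/

set_option autoImplicit false

namespace Run7.h435.MD

open Filter Topology MeasureTheory Set
open SP (RHs)
open SG (NZ ord)
open Pool.Agent.Y743.NC (dev dev_nonneg dev_int var_le unit_count)

noncomputable section

lemma dz_le {n j : ℕ} (hn : 1 ≤ n) (hlog : 0 < Real.log (ord n)) {x : ℝ} :
    n + j ≤ NZ (ord n + 2 * Real.pi * x / Real.log (ord n)) ↔ dz n j ≤ x - j := by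
  have hpi := Real.pi_pos
  rw [← SG.ord_le_iff (by omega : 1 ≤ n + j)]
  unfold dz
  rw [sub_le_sub_iff_right, div_le_iff₀ (by positivity)]
  constructor
  · intro h
    have h1 : ord (n + j) - ord n ≤ 2 * Real.pi * x / Real.log (ord n) := by linarith
    rw [le_div_iff₀ hlog] at h1
    linarith
  · intro h
    have h1 : ord (n + j) - ord n ≤ 2 * Real.pi * x / Real.log (ord n) := by
      rw [le_div_iff₀ hlog]
      linarith
    linarith

/-- the displacements of the zeros -/
lemma Pos.disp {ε : ℝ} {m M n : ℕ} {T t : ℝ} (h : Pos ε m M n T t) (j : ℕ) (hj : j ∈ Finset.Icc 1 m) :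
    |Real.pi * dz n j| ≤ (1 + ε) * Real.log m := by
  have hpi := Real.pi_pos
  have hpi3 := Real.pi_gt_three
  have hpi4 : Real.pi ≤ 4 := by linarith [Real.pi_lt_d2]
  have hε := h.hε
  have hε1 := h.hε1
  have hL0 := h.L0
  have s4 := h.s4
  have hlo : 0 < Real.log (ord n) := Real.log_pos (by linarith [h.hT, h.h1, h.h2])
  have hjm : (j : ℝ) ≤ m := by exact_mod_cast (Finset.mem_Icc.1 hj).2
  have hj0 : (0 : ℝ) ≤ j := Nat.cast_nonneg j
  have hN1 : (n : ℝ) ≤ NZ (ord n) := by exact_mod_cast SG.le_NZ_ord h.hn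
  have hN2 : (NZ (ord n) : ℝ) ≤ n + (ε / 64 * Real.log m - 1) := by
    have h5 : NZ t + 1 ≤ n := by
      by_contra hc
      have : n ≤ NZ t := by omega
      have := (SG.ord_le_iff h.hn t).2 this
      linarith [h.h2]
    have h5' : (NZ t : ℝ) + 1 ≤ n := by exact_mod_cast h5
    have h6 : (NZ (ord n) : ℝ) ≤ NZ (t + 2 * Real.pi * M / Real.log T) := by exact_mod_cast SG.NZ_mono h.h3
    linarith [h.hR]
  have hone : ∀ x : ℝ, 0 ≤ x → x + M + 2 ≤ 2 * m → |Real.pi * cz n x| ≤ (1 + ε / 2) * Real.log m :=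
    fun x hx0 hx => h.one hx0 hx
  obtain ⟨L, hL⟩ : ∃ L : ℝ, L = Real.log m := ⟨_, rfl⟩
  rw [← hL] at hL0 s4 hN2 hone ⊢
  obtain ⟨E, hE⟩ : ∃ E : ℝ, E = (1 + ε / 2) * L / Real.pi := ⟨_, rfl⟩
  have hE0 : 0 ≤ E := by rw [hE]; positivity
  have hpiE : Real.pi * E = (1 + ε / 2) * L := by rw [hE]; field_simp
  have hEL : E ≤ L := by
    have : (1 + ε / 2) * L ≤ Real.pi * L := by nlinarith
    nlinarith
  rw [abs_le]
  constructor
  · -- from below
    have h7 : -(E + ε / 64 * L) ≤ dz n j := by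
      by_contra hc
      push Not at hc
      obtain ⟨x, hx⟩ : ∃ x : ℝ, x = j - (E + ε / 64 * L) := ⟨_, rfl⟩
      have hx0 : 0 ≤ x := by
        by_contra hx0
        push Not at hx0
        have h8 : -(j : ℝ) ≤ dz n j := by
          unfold dz
          have h9 : ord n ≤ ord (n + j) := SG.ord_mono h.hn (by omega)
          have : 0 ≤ (ord (n + j) - ord n) * Real.log (ord n) / (2 * Real.pi) := by
            have : 0 ≤ ord (n + j) - ord n := by linarith
            positivity
          linarith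
        linarith
      have h8 := (dz_le (j := j) h.hn hlo (x := x)).2 (by rw [hx]; linarith)
      have h8' : (n : ℝ) + j ≤ NZ (ord n + 2 * Real.pi * x / Real.log (ord n)) := by exact_mod_cast h8
      have h9 := (abs_le.1 (hone x hx0 (by rw [hx]; nlinarith))).2
      have h10 : cz n x ≤ E := by
        rw [← hpiE] at h9
        exact le_of_mul_le_mul_left h9 hpi
      unfold cz at h10
      linarith
    have h8 : Real.pi * (-(E + ε / 64 * L)) ≤ Real.pi * dz n j := mul_le_mul_of_nonneg_left h7 hpi.le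
    have h9 : Real.pi * (ε / 64 * L) ≤ 4 * (ε / 64 * L) := mul_le_mul_of_nonneg_right hpi4 (by positivity)
    nlinarith
  · -- from above
    have h7 : dz n j ≤ E := by
      obtain ⟨x, hx⟩ : ∃ x : ℝ, x = j + E := ⟨_, rfl⟩
      have h9 := (abs_le.1 (hone x (by rw [hx]; positivity) (by rw [hx]; nlinarith))).1
      have h10 : -E ≤ cz n x := by
        rw [← hpiE] at h9
        have : Real.pi * (-E) ≤ Real.pi * cz n x := by linarith
        exact le_of_mul_le_mul_left this hpi
      have h11 : (n : ℝ) + j ≤ NZ (ord n + 2 * Real.pi * x / Real.log (ord n)) := by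
        unfold cz at h10
        linarith
      have h12 : n + j ≤ NZ (ord n + 2 * Real.pi * x / Real.log (ord n)) := by exact_mod_cast h11
      have h13 := (dz_le (j := j) h.hn hlo (x := x)).1 h12
      linarith
    have h8 : Real.pi * dz n j ≤ Real.pi * E := mul_le_mul_of_nonneg_left h7 hpi.le
    nlinarith

/-- a large displacement exists -/
lemma Pos.exd {ε : ℝ} {m M n : ℕ} {T t : ℝ} (h : Pos ε m M n T t) (σ : ℝ) (hσ : σ = 1 ∨ σ = -1) :
    ∃ j ∈ Finset.Icc 1 m, (1 - 2 * ε) * Real.log m ≤ σ * (Real.pi * dz n j) := by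
  have hpi := Real.pi_pos
  have hpi3 := Real.pi_gt_three
  have hpi4 : Real.pi ≤ 4 := by linarith [Real.pi_lt_d2]
  have hε := h.hε
  have hε1 := h.hε1
  have hL0 := h.L0
  have s4 := h.s4
  have s5 := h.s5
  have hlo : 0 < Real.log (ord n) := Real.log_pos (by linarith [h.hT, h.h1, h.h2])
  have hN1 : (n : ℝ) ≤ NZ (ord n) := by exact_mod_cast SG.le_NZ_ord h.hn
  have hN2 : (NZ (ord n) : ℝ) ≤ n + (ε / 64 * Real.log m - 1) := by
    have h5 : NZ t + 1 ≤ n := by
      by_contra hc
      have : n ≤ NZ t := by omega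
      have := (SG.ord_le_iff h.hn t).2 this
      linarith [h.h2]
    have h5' : (NZ t : ℝ) + 1 ≤ n := by exact_mod_cast h5
    have h6 : (NZ (ord n) : ℝ) ≤ NZ (t + 2 * Real.pi * M / Real.log T) := by exact_mod_cast SG.NZ_mono h.h3
    linarith [h.hR]
  have hmono : ∀ x : ℝ, 0 ≤ x → n ≤ NZ (ord n + 2 * Real.pi * x / Real.log (ord n)) := by
    intro x hx
    refine (SG.le_NZ_ord h.hn).trans (SG.NZ_mono ?_)
    have : 0 ≤ 2 * Real.pi * x / Real.log (ord n) := by positivity
    linarith
  rcases hσ with hs | hs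
  · -- a late zero
    have hcount := h.low (-1) (Or.inr rfl) (1 - ε) (by linarith) le_rfl
    have hpos : 0 < ((Finset.Icc 1 m).filter (fun j : ℕ => (1 - ε) * Real.log m ≤ (-1) * (Real.pi * cz n j))).card := by
      have : (0 : ℝ) < (((Finset.Icc 1 m).filter (fun j : ℕ => (1 - ε) * Real.log m ≤ (-1) * (Real.pi * cz n j))).card : ℝ) :=
        lt_of_lt_of_le (Real.exp_pos _) hcount
      exact_mod_cast this
    obtain ⟨j0, hj0⟩ := Finset.card_pos.1 hpos
    rw [Finset.mem_filter, Finset.mem_Icc] at hj0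
    obtain ⟨⟨q1, q2⟩, q3⟩ := hj0
    have q2' : (j0 : ℝ) ≤ m := by exact_mod_cast q2
    have hm1 := hmono j0 (Nat.cast_nonneg _)
    obtain ⟨j, hj⟩ : ∃ j : ℕ, j = NZ (ord n + 2 * Real.pi * j0 / Real.log (ord n)) + 1 - n := ⟨_, rfl⟩
    have hnj : n + j = NZ (ord n + 2 * Real.pi * j0 / Real.log (ord n)) + 1 := by omega
    have hnjr : (n : ℝ) + j = NZ (ord n + 2 * Real.pi * j0 / Real.log (ord n)) + 1 := by exact_mod_cast hnj
    have h1 : ¬ dz n j ≤ j0 - j := by
      rw [← dz_le h.hn hlo]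
      omega
    push Not at h1
    have hcz : cz n j0 = (n : ℝ) + j - 1 - NZ (ord n) - j0 := by
      unfold cz
      linarith
    have hczL : cz n j0 ≤ 0 := by
      have h2 : 0 ≤ (1 - ε) * Real.log m := mul_nonneg (by linarith) hL0.le
      have h3 : Real.pi * cz n j0 ≤ 0 := by linarith
      by_contra hc
      push Not at hc
      have := mul_pos hpi hc
      linarith
    refine ⟨j, ?_, ?_⟩
    · rw [Finset.mem_Icc]
      refine ⟨by omega, ?_⟩
      have h4 : (1 - ε) * Real.log m ≤ 4 * (-cz n j0) := by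
        have : Real.pi * (-cz n j0) ≤ 4 * (-cz n j0) := mul_le_mul_of_nonneg_right hpi4 (by linarith)
        linarith
      have h5 : (j : ℝ) ≤ m := by nlinarith
      exact_mod_cast h5
    · rw [hs, one_mul]
      have h4 : -cz n j0 - ε / 64 * Real.log m ≤ dz n j := by linarith
      have h5 : Real.pi * (-cz n j0 - ε / 64 * Real.log m) ≤ Real.pi * dz n j := mul_le_mul_of_nonneg_left h4 hpi.le
      have h6 : Real.pi * (ε / 64 * Real.log m) ≤ 4 * (ε / 64 * Real.log m) := mul_le_mul_of_nonneg_right hpi4 (by positivity)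
      nlinarith
  · -- an early zero
    have hcount := h.low 1 (Or.inl rfl) (1 - ε) (by linarith) le_rfl
    have hex : ∃ j0 ∈ Finset.Icc 1 m, (j0 : ℝ) ≤ m - 2 * Real.log m ∧ (1 - ε) * Real.log m ≤ Real.pi * cz n j0 := by
      by_contra hcon
      push Not at hcon
      have hsub : (Finset.Icc 1 m).filter (fun j : ℕ => (1 - ε) * Real.log m ≤ 1 * (Real.pi * cz n j)) ⊆
          Finset.Ioc (m - ⌈2 * Real.log m⌉₊) m := by
        intro i hi
        rw [Finset.mem_filter] at hi
        rw [Finset.mem_Ioc]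
        refine ⟨?_, (Finset.mem_Icc.1 hi.1).2⟩
        by_contra hc
        push Not at hc
        have h1 : ⌈2 * Real.log m⌉₊ ≤ m := by
          apply Nat.ceil_le.2
          have hM0 : (0 : ℝ) ≤ M := Nat.cast_nonneg M
          linarith
        have h2 : (i : ℝ) ≤ m - ⌈2 * Real.log m⌉₊ := by
          have : (i : ℝ) ≤ ((m - ⌈2 * Real.log m⌉₊ : ℕ) : ℝ) := by exact_mod_cast hc
          rwa [Nat.cast_sub h1] at this
        have h3 := Nat.le_ceil (2 * Real.log m)
        have h4 := hcon i hi.1 (by linarith)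
        have h5 := hi.2
        rw [one_mul] at h5
        linarith
      have h1 := Finset.card_le_card hsub
      rw [Nat.card_Ioc] at h1
      have h2 : ((Finset.Icc 1 m).filter (fun j : ℕ => (1 - ε) * Real.log m ≤ 1 * (Real.pi * cz n j))).card ≤
          ⌈2 * Real.log m⌉₊ := by omega
      have h3 : (((Finset.Icc 1 m).filter (fun j : ℕ => (1 - ε) * Real.log m ≤ 1 * (Real.pi * cz n j))).card : ℝ) ≤
          ⌈2 * Real.log m⌉₊ := by exact_mod_cast h2
      have h4 := Nat.ceil_lt_add_one (a := 2 * Real.log m) (by positivity)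
      linarith
    obtain ⟨j0, hj0, q2, q3⟩ := hex
    have q1 := (Finset.mem_Icc.1 hj0).1
    have hm1 := hmono j0 (Nat.cast_nonneg _)
    obtain ⟨j, hj⟩ : ∃ j : ℕ, j = NZ (ord n + 2 * Real.pi * j0 / Real.log (ord n)) - n := ⟨_, rfl⟩
    have hnj : n + j = NZ (ord n + 2 * Real.pi * j0 / Real.log (ord n)) := by omega
    have hnjr : (n : ℝ) + j = NZ (ord n + 2 * Real.pi * j0 / Real.log (ord n)) := by exact_mod_cast hnj
    have h1 : dz n j ≤ j0 - j := by
      rw [← dz_le h.hn hlo]
      omega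
    have hcz : cz n j0 = (n : ℝ) + j - NZ (ord n) - j0 := by
      unfold cz
      linarith
    have hcz0 : 0 ≤ cz n j0 := by
      have h2 : 0 ≤ (1 - ε) * Real.log m := mul_nonneg (by linarith) hL0.le
      by_contra hc
      push Not at hc
      have := mul_neg_of_pos_of_neg hpi hc
      linarith
    refine ⟨j, ?_, ?_⟩
    · rw [Finset.mem_Icc]
      constructor
      · have h2 : (1 : ℝ) ≤ j := by
          have : (1 : ℝ) ≤ j0 := by exact_mod_cast q1
          linarith
        exact_mod_cast h2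
      · have h2 := (abs_le.1 (h.one (x := (j0 : ℝ)) (Nat.cast_nonneg _) (by linarith [Nat.cast_nonneg (α := ℝ) M]))).2
        have h3 : cz n j0 ≤ Real.log m := by
          have h4 : (1 + ε / 2) * Real.log m ≤ Real.pi * Real.log m := by nlinarith
          exact le_of_mul_le_mul_left (h2.trans h4) hpi
        have h5 : (j : ℝ) ≤ m := by nlinarith
        exact_mod_cast h5
    · rw [hs]
      have h2 : cz n j0 ≤ -dz n j := by linarith
      have h3 : Real.pi * cz n j0 ≤ Real.pi * (-dz n j) := mul_le_mul_of_nonneg_left h2 hpi.le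
      nlinarith

end

end Run7.h435.MD
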