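import Pool.Agent.Run7.h435.MDt
import Pool.Agent.Run7.h435.MDw

/-! # The exceptional zeros are rare -/

set_option autoImplicit false

namespace Run7.h435.MD

open Filter Topology MeasureTheory Set
open SP (RHs)
open SG (NZ ord)
open Pool.Agent.Y743.NC (dev dev_nonneg dev_int var_le unit_count)

noncomputable section

lemma Pos.good {ε : ℝ} {m M n : ℕ} {T t : ℝ} (h : Pos ε m M n T t) : GZ ε m n := by
  have hL0 := h.L0
  have hε := h.hε
  have s4 := h.s4
  refine ⟨fun x hx0 hx => ?_, h.low, fun a ha ha1 => h.upp a ha ha1, h.disp, h.exd⟩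
  refine (h.one hx0 (by linarith)).trans ?_
  apply mul_le_mul_of_nonneg_right _ hL0.le
  linarith

/-- a measurable hull -/
lemma hull (T : ℝ) (S : Set ℝ) : ∃ W : Set ℝ, MeasurableSet W ∧
    (∀ t ∈ Icc T (2 * T), (t = T ∨ t ∈ S) → t ∈ W) ∧ volume.real (W ∩ Icc T (2 * T)) ≤ PT T S := by
  refine ⟨toMeasurable volume (Ioc T (2 * T) ∩ S) ∪ {T}, (measurableSet_toMeasurable _ _).union (measurableSet_singleton T),
    fun t ht h => ?_, ?_⟩
  · rcases h with h | h
    · exact Or.inr h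
    · rcases eq_or_lt_of_le ht.1 with h1 | h1
      · exact Or.inr h1.symm
      · exact Or.inl (subset_toMeasurable _ _ ⟨⟨h1, ht.2⟩, h⟩)
  · have h1 : volume (toMeasurable volume (Ioc T (2 * T) ∩ S) ∪ {T}) ≤ volume (Ioc T (2 * T) ∩ S) := by
      refine (measure_union_le _ _).trans ?_
      rw [measure_toMeasurable, Real.volume_singleton, add_zero]
    have h2 : volume ((toMeasurable volume (Ioc T (2 * T) ∩ S) ∪ {T}) ∩ Icc T (2 * T)) ≤ volume (Ioc T (2 * T) ∩ S) :=
      (measure_mono inter_subset_left).trans h1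
    unfold PT Measure.real
    exact ENNReal.toReal_mono (PT_fin T S) h2

/-- a natural width -/
lemma exMn (C ε : ℝ) (hε : 0 < ε) : ∃ M : ℕ, 1 ≤ M ∧ C + Real.log (1 + M) ≤ (ε * M) ^ 2 := by
  have h1 : Tendsto (fun x : ℝ => (C + Real.log (1 + x)) / x ^ 2) atTop (𝓝 0) := by
    have h2 : Tendsto (fun x : ℝ => C / x ^ 2) atTop (𝓝 0) :=
      tendsto_const_nhds.div_atTop (tendsto_pow_atTop (by norm_num))
    have h3 : Tendsto (fun x : ℝ => Real.log (1 + x) / x ^ 2) atTop (𝓝 0) := by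
      have h4 : Tendsto (fun x : ℝ => 1 / x) atTop (𝓝 0) := tendsto_const_nhds.div_atTop tendsto_id
      refine squeeze_zero' ?_ ?_ h4
      · filter_upwards [eventually_ge_atTop 0] with x hx
        have := Real.log_nonneg (by linarith : 1 ≤ 1 + x)
        positivity
      · filter_upwards [eventually_gt_atTop 0] with x hx
        have h5 := Real.log_le_sub_one_of_pos (by linarith : 0 < 1 + x)
        rw [div_le_div_iff₀ (by positivity) hx]
        nlinarith
    have := h2.add h3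
    rw [add_zero] at this
    refine this.congr fun x => ?_
    rw [← add_div]
  have h2 := (h1.comp (tendsto_natCast_atTop_atTop (R := ℝ))).eventually_le_const (show (0 : ℝ) < ε ^ 2 by positivity)
  obtain ⟨M, hM1, hM2⟩ := (h2.and (eventually_ge_atTop 1)).exists
  refine ⟨M, hM2, ?_⟩
  have hM0 : (0 : ℝ) < M := by exact_mod_cast hM2
  rw [Function.comp_apply, div_le_iff₀ (by positivity)] at hM1
  rw [mul_pow]
  exact hM1

/-- the size conditions -/
lemma sizes {ε : ℝ} (hε : 0 < ε) (hε1 : ε ≤ 1 / 4) (M : ℕ) : ∀ᶠ m : ℕ in atTop, 1 ≤ m ∧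
    4 * ((M : ℝ) + 2) ≤ ε / 64 * Real.log m ∧ (M : ℝ) + 3 ≤ Real.exp (ε / 4 * Real.log m) ∧
    2 * Real.log m + M + 3 ≤ m ∧ 2 * Real.log m + 1 < Real.exp ((1 - (1 - ε) ^ 2 - ε) * Real.log m) := by
  obtain ⟨κ, hκ⟩ : ∃ κ : ℝ, κ = 1 - (1 - ε) ^ 2 - ε := ⟨_, rfl⟩
  have hκ0 : 0 < κ := by rw [hκ]; nlinarith
  have hM0 : (0 : ℝ) ≤ M := Nat.cast_nonneg M
  have hev := ((eventually_ge_atTop (64 / ε * (4 * ((M : ℝ) + 2)))).and ((eventually_ge_atTop (4 / ε * ((M : ℝ) + 3))).and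
    ((eventually_ge_atTop (M + 8 : ℝ)).and (eventually_gt_atTop (4 / κ ^ 2)))))
  filter_upwards [log_nat_atTop.eventually hev, eventually_ge_atTop 1] with m hm hm1
  obtain ⟨d1, d2, d3, d4⟩ := hm
  rw [← hκ]
  have hm0 : (0 : ℝ) < m := by exact_mod_cast hm1
  have hme : Real.exp (Real.log m) = m := Real.exp_log hm0
  obtain ⟨L, hL⟩ : ∃ L : ℝ, L = Real.log m := ⟨_, rfl⟩
  rw [← hL] at d1 d2 d3 d4 hme ⊢
  have hL8 : 8 ≤ L := by linarith
  have hq := Real.quadratic_le_exp_of_nonneg (show 0 ≤ L by linarith)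
  have hq2 := Real.quadratic_le_exp_of_nonneg (show 0 ≤ κ * L by positivity)
  have hq3 := Real.add_one_le_exp (ε / 4 * L)
  refine ⟨hm1, ?_, ?_, ?_, ?_⟩
  · have : ε / 64 * (64 / ε * (4 * ((M : ℝ) + 2))) ≤ ε / 64 * L := mul_le_mul_of_nonneg_left d1 (by positivity)
    have e : ε / 64 * (64 / ε * (4 * ((M : ℝ) + 2))) = 4 * ((M : ℝ) + 2) := by field_simp
    linarith
  · have : ε / 4 * (4 / ε * ((M : ℝ) + 3)) ≤ ε / 4 * L := mul_le_mul_of_nonneg_left d2 (by positivity)
    have e : ε / 4 * (4 / ε * ((M : ℝ) + 3)) = (M : ℝ) + 3 := by field_simp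
    linarith
  · rw [← hme]
    nlinarith
  · rw [div_lt_iff₀ (by positivity)] at d4
    have h1 : 2 * L < (κ * L) ^ 2 / 2 := by
      have : 4 * L < (L * κ ^ 2) * L := mul_lt_mul_of_pos_right d4 (by linarith)
      nlinarith
    have h2 : 0 < κ * L := by positivity
    linarith

/-- **the exceptional zeros in a dyadic block** -/
theorem zblock (hRH : RHs) {ε : ℝ} (hε : 0 < ε) (hε1 : ε ≤ 1 / 4) : ∀ᶠ m : ℕ in atTop, ∀ᶠ T : ℝ in atTop,
    ∀ _ : DecidablePred (fun n => ¬ GZ ε m n),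
    (((Finset.Ioc (NZ T) (NZ (2 * T))).filter (fun n => ¬ GZ ε m n)).card : ℝ) ≤
      ε * (T * Real.log T / (2 * Real.pi)) := by
  have hpi := Real.pi_pos
  obtain ⟨δ, hδd⟩ : ∃ δ : ℝ, δ = ε / 16 := ⟨_, rfl⟩
  have hδ : 0 < δ := by rw [hδd]; positivity
  have hδ1 : δ ≤ 1 := by rw [hδd]; linarith
  obtain ⟨C1, T1, hC1, hT1, hvar⟩ := var_le
  obtain ⟨M, hM1, hM⟩ := exMn C1 δ hδ
  obtain ⟨C2, hC2, huc⟩ := unit_count
  obtain ⟨T2, hT2, hbig⟩ := Pool.Agent.Y743.CL.big_ev (M : ℝ) C2 δ hδ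
  have hM0 : (0 : ℝ) < M := by exact_mod_cast hM1
  have hM1' : (1 : ℝ) ≤ M := by exact_mod_cast hM1
  have htf := tform hRH (ε := ε / 8) (by positivity) (by linarith)
  have h2m : Tendsto (fun m : ℕ => 2 * m) atTop atTop :=
    tendsto_atTop_mono (fun m => by simp only [id]; omega) tendsto_id
  filter_upwards [htf, h2m.eventually htf, sizes hε hε1 M] with m hm1 hm2 hsz
  obtain ⟨z1, z2, z3, z4, z5⟩ := hsz
  filter_upwards [hm1, hm2, eventually_ge_atTop T1, eventually_ge_atTop T2,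
    Real.tendsto_log_atTop.eventually_ge_atTop (2 * (m : ℝ))] with T t1 t2 hTT1 hTT2 hTm _
  obtain ⟨g1, g2, g3, g4⟩ := hbig T hTT2
  have hT10 : 10 ≤ T := hT2.trans hTT2
  obtain ⟨h, hh⟩ : ∃ h : ℝ, h = 2 * Real.pi / Real.log T := ⟨_, rfl⟩
  have hL0 : 0 < Real.log T := by linarith
  have hh0 : 0 < h := by rw [hh]; positivity
  obtain ⟨s, hs⟩ : ∃ s : ℝ, s = δ * M := ⟨_, rfl⟩
  have hs0 : 0 < s := by rw [hs]; positivity
  have hdev := hvar T hTT1 M hM0 g1
  have hdev1 : ∫ t in Icc T (2 * T), dev T M t ≤ T * s ^ 2 := by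
    refine hdev.trans ?_
    apply mul_le_mul_of_nonneg_left _ (by linarith)
    rw [hs]
    exact hM
  have hdev2 : (1 / s) * ∫ t in Icc T (2 * T), dev T M t ≤ s * T := by
    calc (1 / s) * ∫ t in Icc T (2 * T), dev T M t ≤ (1 / s) * (T * s ^ 2) :=
          mul_le_mul_of_nonneg_left hdev1 (by positivity)
      _ = s * T := by field_simp
  -- the crowded heights
  have hch : PT T {t | ε / 64 * Real.log m < (NZ (t + 2 * Real.pi * M / Real.log T) : ℝ) - NZ t} ≤ δ * T := by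
    have hii : IntervalIntegrable (dev T M) volume T (2 * T) := by
      rw [intervalIntegrable_iff_integrableOn_Icc_of_le (by linarith)]
      exact dev_int _ _ _ _
    have h1 := PT_markov (T := T) (by linarith) hii (fun t => dev_nonneg _ _ t) (c := (M : ℝ) ^ 2) (by positivity)
      (S := {t | ε / 64 * Real.log m < (NZ (t + 2 * Real.pi * M / Real.log T) : ℝ) - NZ t}) (by
        intro t _ ht
        have ht : ε / 64 * Real.log m < (NZ (t + 2 * Real.pi * M / Real.log T) : ℝ) - NZ t := ht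
        unfold dev
        apply pow_le_pow_left₀ hM0.le
        linarith)
    rw [intervalIntegral.integral_of_le (by linarith), ← integral_Icc_eq_integral_Ioc] at h1
    refine h1.trans ?_
    rw [div_le_iff₀ (by positivity)]
    refine hdev1.trans ?_
    rw [hs]
    have h2 : δ ^ 2 ≤ δ := by nlinarith
    calc T * (δ * M) ^ 2 = δ ^ 2 * (T * M ^ 2) := by ring
      _ ≤ δ * (T * M ^ 2) := mul_le_mul_of_nonneg_right h2 (by positivity)
      _ = δ * T * M ^ 2 := by ring
  obtain ⟨S0, hS0⟩ : ∃ S0 : Set ℝ, S0 = ({t | ¬ GT (ε / 8) m T t} ∪ {t | ¬ GT (ε / 8) (2 * m) T t}) ∪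
    {t | ε / 64 * Real.log m < (NZ (t + 2 * Real.pi * M / Real.log T) : ℝ) - NZ t} := ⟨_, rfl⟩
  have hS0v : PT T S0 ≤ (ε / 4 + δ) * T := by
    rw [hS0]
    have a1 := PT_union T ({t | ¬ GT (ε / 8) m T t} ∪ {t | ¬ GT (ε / 8) (2 * m) T t})
      {t | ε / 64 * Real.log m < (NZ (t + 2 * Real.pi * M / Real.log T) : ℝ) - NZ t}
    have a2 := PT_union T {t | ¬ GT (ε / 8) m T t} {t | ¬ GT (ε / 8) (2 * m) T t}
    linarith
  obtain ⟨W, hWm, hW1, hW2⟩ := hull T S0
  -- the event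
  obtain ⟨F, hF⟩ : ∃ F : Finset ℕ, F = (Finset.Ioc (NZ T) (NZ (2 * T))).filter (fun n => ¬ GZ ε m n) := ⟨_, rfl⟩
  rw [← hF]
  obtain ⟨S, hS⟩ : ∃ S : Finset ℕ, S = F.filter (fun n => T + M * h ≤ ord n) := ⟨_, rfl⟩
  have hmem : ∀ n ∈ F, NZ T < n ∧ n ≤ NZ (2 * T) ∧ ¬ GZ ε m n := by
    intro n hn
    rw [hF, Finset.mem_filter, Finset.mem_Ioc] at hn
    exact ⟨hn.1.1, hn.1.2, hn.2⟩
  have hmemS : ∀ n ∈ S, n ∈ F ∧ T + M * h ≤ ord n := by
    intro n hn
    rw [hS, Finset.mem_filter] at hn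
    exact hn
  have hpalm := Pool.Agent.X112.SD.palmG (T := T) (M := (M : ℝ)) (s := s) (by linarith) hM0 hs0 S W hWm
    (fun n hn => by have := (hmem n (hmemS n hn).1).1; omega)
    (fun n hn => by rw [← hh]; exact (hmemS n hn).2)
    (fun n hn => by
      obtain ⟨a1, a2, a3⟩ := hmem n (hmemS n hn).1
      exact (SG.ord_le_iff (by omega) _).mpr a2)
    (by
      intro n hn t ht hlt
      obtain ⟨b1, b2⟩ := hmemS n hn
      obtain ⟨a1, a2, a3⟩ := hmem n b1
      have hn1 : 1 ≤ n := by omega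
      have hn2 : ord n ≤ 2 * T := (SG.ord_le_iff hn1 _).mpr a2
      rw [← hh] at ht
      have hTt : T ≤ t := by linarith
      apply hW1 t ⟨hTt, by linarith⟩
      by_cases hgood : t ∈ S0
      · exact Or.inr hgood
      · exfalso
        rw [hS0] at hgood
        simp only [mem_union, mem_ofPred_eq, not_or, not_not, not_lt] at hgood
        obtain ⟨⟨c1, c2⟩, c3⟩ := hgood
        apply a3
        have hpos : Pos ε m M n T t :=
          { hε := hε, hε1 := hε1, hM := hM1, hT := by linarith, h1 := hTt, h2 := hlt,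
            h3 := by
              have e : 2 * Real.pi * M / Real.log T = M * h := by rw [hh]; ring
              rw [e]; exact ht
            h4 := hn2, hm := hTm, hm1 := z1, hn := hn1, hG1 := c1, hG2 := c2, hR := c3, s2 := z2, s3 := z3,
            s4 := z4, s5 := z5 }
        exact hpos.good)
  rw [← hh] at hpalm
  have hS2 : (S.card : ℝ) ≤ T * Real.log T / (2 * Real.pi) * (ε / 4 + 2 * δ) := by
    have a1 : h * S.card ≤ (ε / 4 + 2 * δ) * T := by
      have a0 : (M : ℝ) * volume.real (W ∩ Icc T (2 * T)) ≤ M * ((ε / 4 + δ) * T) :=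
        mul_le_mul_of_nonneg_left (hW2.trans hS0v) hM0.le
      have a2 : s * T = M * (δ * T) := by rw [hs]; ring
      have : M * (h * S.card) ≤ M * ((ε / 4 + 2 * δ) * T) := by
        calc M * (h * S.card) = M * h * S.card := by ring
          _ ≤ M * volume.real (W ∩ Icc T (2 * T)) + (s * T + (1 / s) * ∫ t in Icc T (2 * T), dev T M t) / 2 := hpalm
          _ ≤ M * ((ε / 4 + δ) * T) + (s * T + s * T) / 2 := by linarith
          _ = M * ((ε / 4 + 2 * δ) * T) := by rw [a2]; ring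
      exact le_of_mul_le_mul_left this hM0
    have a2 : T * Real.log T / (2 * Real.pi) * (ε / 4 + 2 * δ) = ((ε / 4 + 2 * δ) * T) / h := by
      rw [hh]; field_simp
    rw [a2, le_div_iff₀ hh0]
    linarith
  have hrest : ((F.filter (fun n => ¬ (T + M * h ≤ ord n))).card : ℝ) ≤ C2 * Real.log T := by
    have hsub : F.filter (fun n => ¬ (T + M * h ≤ ord n)) ⊆ Finset.Ioc (NZ T) (NZ (T + 1)) := by
      intro n hn
      rw [Finset.mem_filter] at hn
      obtain ⟨b1, b2⟩ := hn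
      obtain ⟨a1, a2, a3⟩ := hmem n b1
      rw [Finset.mem_Ioc]
      refine ⟨a1, (SG.ord_le_iff (by omega) _).mp ?_⟩
      push Not at b2
      rw [← hh] at g2
      linarith
    have h1 := Finset.card_le_card hsub
    rw [Nat.card_Ioc] at h1
    have hmono : NZ T ≤ NZ (T + 1) := SG.NZ_mono (by linarith)
    have h2 : ((F.filter (fun n => ¬ (T + M * h ≤ ord n))).card : ℝ) ≤ ((NZ (T + 1) - NZ T : ℕ) : ℝ) := by
      exact_mod_cast h1
    rw [Nat.cast_sub hmono] at h2
    have h3 := huc T (by linarith)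
    linarith
  have hsplit := Finset.card_filter_add_card_filter_not (s := F) (fun n => T + M * h ≤ ord n)
  have hsplit' : (F.card : ℝ) = S.card + ((F.filter (fun n => ¬ (T + M * h ≤ ord n))).card : ℝ) := by
    rw [hS]
    exact_mod_cast hsplit.symm
  have hlog2 : C2 * Real.log T ≤ δ * (T * Real.log T / (2 * Real.pi)) := by
    have a1 : Real.log T ≤ Real.log (2 * T) := Real.log_le_log (by linarith) (by linarith)
    have a2 : C2 * Real.log T ≤ C2 * Real.log (2 * T) := mul_le_mul_of_nonneg_left a1 hC2.le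
    have a3 : 0 ≤ C2 * Real.log (2 * T) := mul_nonneg hC2.le (Real.log_nonneg (by linarith))
    linarith
  have hTL : 0 ≤ T * Real.log T / (2 * Real.pi) := by positivity
  rw [hsplit']
  have : T * Real.log T / (2 * Real.pi) * (ε / 4 + 2 * δ) + δ * (T * Real.log T / (2 * Real.pi)) ≤
      ε * (T * Real.log T / (2 * Real.pi)) := by
    have e : T * Real.log T / (2 * Real.pi) * (ε / 4 + 2 * δ) + δ * (T * Real.log T / (2 * Real.pi)) =
      (ε / 4 + 3 * δ) * (T * Real.log T / (2 * Real.pi)) := by ring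
    rw [e]
    apply mul_le_mul_of_nonneg_right _ hTL
    rw [hδd]; linarith
  linarith

/-- **almost every zero is good** -/
theorem allz (hRH : RHs) {ε : ℝ} (hε : 0 < ε) (hε1 : ε ≤ 1 / 4) : ∀ᶠ m : ℕ in atTop, ∀ᶠ N : ℕ in atTop,
    ∀ _ : DecidablePred (fun n => ¬ GZ ε m n),
    (((Finset.Icc 1 N).filter (fun n => ¬ GZ ε m n)).card : ℝ) ≤ 2 * ε * N := by
  filter_upwards [zblock hRH hε hε1] with m hm
  obtain ⟨T0, hT0⟩ := hm.exists_forall_of_atTop
  filter_upwards [Run7.h435.GL.dyadicS ε ε (max 1 T0) hε.le (by linarith) hε (le_max_left _ _)] with N hN hdec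
  have := hN (fun n => ¬ GZ ε m n) hdec (fun T hT => hT0 T ((le_max_right _ _).trans hT) hdec)
  linarith

end

end Run7.h435.MD
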