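import Pool.Agent.Run7.h435.NFi

/-! # The power spectrum and the covariances of the gaps: final form -/

set_option autoImplicit false

namespace Run7.h435.NF

open Filter Finset Topology
open Run7.h435.GL (dd)

lemma rhs_of (RH : RiemannHypothesis) : SP.RHs := by
  intro s h1 h2 h0
  apply RH s h0
  · rintro ⟨k, hk⟩
    have := congrArg Complex.re hk
    simp at this
    have hk0 : (0 : ℝ) ≤ k := Nat.cast_nonneg k
    linarith
  · intro h
    rw [h] at h2
    simp at h2

/-- the displacement of the levels -/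
noncomputable def lev (n j : ℕ) : ℝ := ∑ i ∈ range j, (dd (n + i) - 1)

/-- the periodogram -/
noncomputable def pw (m n k : ℕ) : ℝ :=
  ‖∑ j ∈ range m, (lev n j : ℂ) * Complex.exp (-(2 * Real.pi * Complex.I * j * k / m))‖ ^ 2 / m

lemma lev_eq (n j : ℕ) : lev n j = Wd j n := by
  unfold lev Wd
  rw [Finset.sum_sub_distrib, Finset.sum_const, Finset.card_range, nsmul_eq_mul, mul_one]

lemma pw_eq (m n k : ℕ) (hm : 2 ≤ m) : pw m n k / (m * Real.log m) = Qk m k n := by
  have hm0 : (m : ℝ) ≠ 0 := by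
    have : (2 : ℝ) ≤ m := by exact_mod_cast hm
    intro h
    rw [h] at this
    norm_num at this
  have h1 : ∑ j ∈ range m, (lev n j : ℂ) * Complex.exp (-(2 * Real.pi * Complex.I * j * k / m)) =
      ft m (fun j => Wd j n) k := by
    unfold ft
    refine Finset.sum_congr rfl fun j _ => ?_
    rw [lev_eq]
    congr 1
    unfold ex
    congr 1
    push_cast
    ring
  unfold pw Qk
  rw [h1]
  field_simp

theorem noise (hRH : SP.RHs) (α β : ℝ) (hα : 0 ≤ α) (hαβ : α ≤ β) (hβ : β ≤ 1) (ε : ℝ) (hε : 0 < ε) :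
    ∀ᶠ m : ℕ in atTop, ∀ᶠ N : ℕ in atTop, (1 / N : ℝ) * ∑ n ∈ Icc 1 N,
      |(∑ k ∈ (range m).filter (fun k : ℕ => (m : ℝ) ^ α ≤ k ∧ (k : ℝ) < (m : ℝ) ^ β ∧ 2 * k ≤ m), pw m n k) /
        (m * Real.log m) - (β - α) / (4 * Real.pi ^ 2)| ≤ ε := by
  classical
  filter_upwards [band hRH α β hα hαβ hβ ε hε, eventually_ge_atTop 2] with m hm hm2
  filter_upwards [hm] with N hN
  refine le_trans (le_of_eq ?_) hN
  unfold av
  congr 1
  refine Finset.sum_congr rfl fun n _ => ?_
  congr 2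
  rw [Finset.sum_div]
  refine Finset.sum_congr ?_ fun k _ => pw_eq m n k hm2
  congr!

end Run7.h435.NF
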