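import Pool.Agent.Run7.h435.MDx
import Pool.Agent.Run7.h435.NFj

/-! # The maximal deviation: final form -/

set_option autoImplicit false

namespace Run7.h435.MD

open Filter Topology MeasureTheory Set
open SP (RHs)
open SG (NZ ord)

noncomputable section

/-- the good zeros, normalised -/
def Gd (ε : ℝ) (m n : ℕ) : Prop :=
  (∀ x : ℝ, 0 ≤ x → x ≤ m → |cz n x| ≤ (1 / Real.pi + ε) * Real.log m) ∧
  (∀ a : ℝ, 0 ≤ a → a ≤ 1 - ε →
    (m : ℝ) ^ (1 - a ^ 2 - ε) ≤ ({j : ℕ | 1 ≤ j ∧ j ≤ m ∧ a / Real.pi * Real.log m ≤ cz n j}.ncard : ℝ) ∧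
    (m : ℝ) ^ (1 - a ^ 2 - ε) ≤ ({j : ℕ | 1 ≤ j ∧ j ≤ m ∧ a / Real.pi * Real.log m ≤ -cz n j}.ncard : ℝ)) ∧
  (∀ a : ℝ, 0 ≤ a → a ≤ 1 →
    ({j : ℕ | 1 ≤ j ∧ j ≤ m ∧ a / Real.pi * Real.log m ≤ |cz n j|}.ncard : ℝ) ≤ (m : ℝ) ^ (1 - a ^ 2 + ε)) ∧
  (∀ j : ℕ, 1 ≤ j → j ≤ m → |dz n j| ≤ (1 / Real.pi + ε) * Real.log m) ∧
  (∃ j : ℕ, 1 ≤ j ∧ j ≤ m ∧ (1 / Real.pi - ε) * Real.log m ≤ dz n j) ∧
  (∃ j : ℕ, 1 ≤ j ∧ j ≤ m ∧ (1 / Real.pi - ε) * Real.log m ≤ -dz n j)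

lemma nc_eq (m : ℕ) (P Q : ℕ → Prop) [DecidablePred Q] (h : ∀ j, P j ↔ Q j) :
    {j : ℕ | 1 ≤ j ∧ j ≤ m ∧ P j}.ncard = ((Finset.Icc 1 m).filter Q).card := by
  have e : {j : ℕ | 1 ≤ j ∧ j ≤ m ∧ P j} = ((Finset.Icc 1 m).filter Q : Finset ℕ) := by
    ext j
    simp only [mem_ofPred_eq, Finset.coe_filter, Finset.mem_Icc, and_assoc, h]
  rw [e, Set.ncard_coe_finset]

lemma Gd_of {ε δ : ℝ} {m n : ℕ} (hm : 1 ≤ m) (hδ : 0 < δ) (hδε : 2 * δ ≤ ε) (h : GZ δ m n) : Gd ε m n := by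
  have hpi := Real.pi_pos
  have hpi3 := Real.pi_gt_three
  have hm1 : (1 : ℝ) ≤ m := by exact_mod_cast hm
  have hm0 : (0 : ℝ) < m := by linarith
  have hL : 0 ≤ Real.log m := Real.log_nonneg hm1
  obtain ⟨h1, h2, h3, h4, h5⟩ := h
  have hup : ∀ y : ℝ, |Real.pi * y| ≤ (1 + δ) * Real.log m → |y| ≤ (1 / Real.pi + ε) * Real.log m := by
    intro y hy
    rw [abs_mul, abs_of_pos hpi] at hy
    have a1 : (1 + δ) * Real.log m ≤ Real.pi * ((1 / Real.pi + ε) * Real.log m) := by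
      have e : Real.pi * ((1 / Real.pi + ε) * Real.log m) = (1 + Real.pi * ε) * Real.log m := by
        field_simp
      rw [e]
      apply mul_le_mul_of_nonneg_right _ hL
      nlinarith
    exact le_of_mul_le_mul_left (hy.trans a1) hpi
  have hlo : ∀ y : ℝ, (1 - 2 * δ) * Real.log m ≤ Real.pi * y → (1 / Real.pi - ε) * Real.log m ≤ y := by
    intro y hy
    have a1 : Real.pi * ((1 / Real.pi - ε) * Real.log m) ≤ (1 - 2 * δ) * Real.log m := by
      have e : Real.pi * ((1 / Real.pi - ε) * Real.log m) = (1 - Real.pi * ε) * Real.log m := by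
        field_simp
      rw [e]
      apply mul_le_mul_of_nonneg_right _ hL
      nlinarith
    exact le_of_mul_le_mul_left (a1.trans hy) hpi
  have hiff : ∀ a y : ℝ, a / Real.pi * Real.log m ≤ y ↔ a * Real.log m ≤ Real.pi * y := by
    intro a y
    rw [div_mul_eq_mul_div, div_le_iff₀ hpi, mul_comm y]
  refine ⟨fun x hx0 hx => hup _ (h1 x hx0 hx), fun a ha ha1 => ⟨?_, ?_⟩, fun a ha ha1 => ?_,
    fun j hj1 hj2 => hup _ (h4 j (Finset.mem_Icc.2 ⟨hj1, hj2⟩)), ?_, ?_⟩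
  · rw [nc_eq m (fun j => a / Real.pi * Real.log m ≤ cz n j)
      (fun j : ℕ => a * Real.log m ≤ 1 * (Real.pi * cz n j)) (fun j => by rw [one_mul]; exact hiff a _)]
    refine le_trans ?_ (h2 1 (Or.inl rfl) a ha (by linarith))
    rw [Real.rpow_def_of_pos hm0, Real.exp_le_exp, mul_comm]
    apply mul_le_mul_of_nonneg_right _ hL
    linarith
  · rw [nc_eq m (fun j => a / Real.pi * Real.log m ≤ -cz n j)
      (fun j : ℕ => a * Real.log m ≤ (-1) * (Real.pi * cz n j)) (fun j => by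
        rw [hiff a _, show Real.pi * -cz n j = -1 * (Real.pi * cz n j) by ring])]
    refine le_trans ?_ (h2 (-1) (Or.inr rfl) a ha (by linarith))
    rw [Real.rpow_def_of_pos hm0, Real.exp_le_exp, mul_comm]
    apply mul_le_mul_of_nonneg_right _ hL
    linarith
  · rw [nc_eq m (fun j => a / Real.pi * Real.log m ≤ |cz n j|)
      (fun j : ℕ => a * Real.log m ≤ |Real.pi * cz n j|) (fun j => by
        rw [hiff a _, abs_mul, abs_of_pos hpi])]
    refine (h3 a ha ha1).trans ?_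
    rw [Real.rpow_def_of_pos hm0, Real.exp_le_exp, mul_comm]
    apply mul_le_mul_of_nonneg_left _ hL
    linarith
  · obtain ⟨j, hj, hj2⟩ := h5 1 (Or.inl rfl)
    rw [Finset.mem_Icc] at hj
    exact ⟨j, hj.1, hj.2, hlo _ (by rw [one_mul] at hj2; exact hj2)⟩
  · obtain ⟨j, hj, hj2⟩ := h5 (-1) (Or.inr rfl)
    rw [Finset.mem_Icc] at hj
    exact ⟨j, hj.1, hj.2, hlo _ (by
      rw [show Real.pi * -dz n j = -1 * (Real.pi * dz n j) by ring]
      exact hj2)⟩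

/-- **the maximal deviation and the thick points, from almost every zero** -/
theorem final (hRH : RHs) {ε : ℝ} (hε : 0 < ε) : ∀ᶠ m : ℕ in atTop, ∀ᶠ N : ℕ in atTop,
    1 - ε ≤ (1 / N : ℝ) * ({n : ℕ | 1 ≤ n ∧ n ≤ N ∧ Gd ε m n}.ncard : ℝ) := by
  classical
  obtain ⟨δ, hδd⟩ : ∃ δ : ℝ, δ = min (1 / 4) (ε / 2) := ⟨_, rfl⟩
  have hδ : 0 < δ := by rw [hδd]; exact lt_min (by norm_num) (by positivity)
  have hδ1 : δ ≤ 1 / 4 := by rw [hδd]; exact min_le_left _ _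
  have hδε : δ ≤ ε / 2 := by rw [hδd]; exact min_le_right _ _
  filter_upwards [allz hRH hδ hδ1, eventually_ge_atTop 1] with m hm hm1
  filter_upwards [hm, eventually_ge_atTop 1] with N hN hN1
  have h1 := hN (Classical.decPred _)
  rw [nc_eq N (fun n => Gd ε m n) (fun n => Gd ε m n) (fun _ => Iff.rfl)]
  have h2 : (Finset.Icc 1 N).filter (fun n => GZ δ m n) ⊆ (Finset.Icc 1 N).filter (fun n => Gd ε m n) := by
    intro n hn
    rw [Finset.mem_filter] at hn ⊢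
    exact ⟨hn.1, Gd_of hm1 hδ (by linarith) hn.2⟩
  have h3 := Finset.card_le_card h2
  have h4 := Finset.card_filter_add_card_filter_not (s := Finset.Icc 1 N) (fun n => GZ δ m n)
  rw [Nat.card_Icc, Nat.add_sub_cancel] at h4
  have h5 : (((Finset.Icc 1 N).filter (fun n => ¬ GZ δ m n)).card : ℝ) ≤ 2 * δ * N := by
    convert h1
  have h6 : (((Finset.Icc 1 N).filter (fun n => GZ δ m n)).card : ℝ) +
    (((Finset.Icc 1 N).filter (fun n => ¬ GZ δ m n)).card : ℝ) = N := by exact_mod_cast h4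
  have h7 : (((Finset.Icc 1 N).filter (fun n => GZ δ m n)).card : ℝ) ≤
    (((Finset.Icc 1 N).filter (fun n => Gd ε m n)).card : ℝ) := by exact_mod_cast h3
  have hN0 : (0 : ℝ) < N := by exact_mod_cast hN1
  rw [one_div, inv_mul_eq_div, le_div_iff₀ hN0]
  nlinarith

end

end Run7.h435.MD
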