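import Pool.Agent.Run7.h435.MEw

/-! # All scales, and the displacements -/

set_option autoImplicit false

namespace Run7.h435.MD

open Filter Topology MeasureTheory Set
open SG (NZ ord)

noncomputable section

/-- from two dyadic scales to those between them -/
lemma interp {ε : ℝ} (hε : 0 < ε) (hε1 : ε ≤ 1 / 4) {i m n : ℕ} (hi : 8 ≤ ε * i) (h1 : GW ε (2 ^ i) n)
    (h2 : GW ε (2 ^ (i + 1)) n) (hm1 : 2 ^ i ≤ m) (hm2 : m ≤ 2 ^ (i + 1)) : GW (2 * ε) m n := by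
  have hl2 := Real.log_two_lt_d9
  have hl2' := Real.log_two_gt_d9
  obtain ⟨ℓ, hℓ⟩ : ∃ ℓ : ℝ, ℓ = Real.log 2 := ⟨_, rfl⟩
  obtain ⟨L, hL⟩ : ∃ L : ℝ, L = Real.log m := ⟨_, rfl⟩
  obtain ⟨L1, hL1⟩ : ∃ L1 : ℝ, L1 = Real.log ((2 ^ i : ℕ) : ℝ) := ⟨_, rfl⟩
  obtain ⟨L2, hL2⟩ : ∃ L2 : ℝ, L2 = Real.log ((2 ^ (i + 1) : ℕ) : ℝ) := ⟨_, rfl⟩
  rw [← hℓ] at hl2 hl2'
  have hL1i : L1 = i * ℓ := by rw [hL1, hℓ]; push_cast; rw [Real.log_pow]
  have hL2i : L2 = L1 + ℓ := by rw [hL1i, hL2, hℓ]; push_cast; rw [Real.log_pow]; push_cast; ring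
  have hmr1 : ((2 ^ i : ℕ) : ℝ) ≤ m := by exact_mod_cast hm1
  have hmr2 : (m : ℝ) ≤ ((2 ^ (i + 1) : ℕ) : ℝ) := by exact_mod_cast hm2
  have hp1 : (0 : ℝ) < ((2 ^ i : ℕ) : ℝ) := by positivity
  have hLL1 : L1 ≤ L := by rw [hL1, hL]; exact Real.log_le_log hp1 hmr1
  have hLL2 : L ≤ L2 := by rw [hL2, hL]; exact Real.log_le_log (by linarith) hmr2
  have hi0 : (0 : ℝ) ≤ i := Nat.cast_nonneg i
  have hεi : (i : ℝ) * ε = ε * i := mul_comm _ _
  have hεL1 : 5 ≤ ε * L1 := by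
    rw [hL1i]
    have : (8 : ℝ) * ℓ ≤ ε * i * ℓ := mul_le_mul_of_nonneg_right hi (by linarith)
    nlinarith
  have hL10 : 0 < L1 := by
    by_contra hc
    push Not at hc
    nlinarith
  have hL0 : 0 < L := by linarith
  have hL20 : 0 < L2 := by linarith
  have hεL : 5 ≤ ε * L := by
    have := mul_le_mul_of_nonneg_left hLL1 hε.le
    linarith
  obtain ⟨⟨a1, a2, a3, a4, a5⟩, a6⟩ := h1
  obtain ⟨⟨b1, b2, b3, b4, b5⟩, b6⟩ := h2
  rw [← hL1] at a1 a2 a3 a4 a5 a6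
  rw [← hL2] at b1 b2 b3 b4 b5 b6
  have hup : (1 + ε) * L2 ≤ (1 + 2 * ε) * L := by
    rw [hL2i]
    have : (1 + ε) * ℓ ≤ 2 := by nlinarith
    nlinarith
  have hsub1 : Finset.Icc 1 (2 ^ i) ⊆ Finset.Icc 1 m := Finset.Icc_subset_Icc_right hm1
  have hsub2 : Finset.Icc 1 m ⊆ Finset.Icc 1 (2 ^ (i + 1)) := Finset.Icc_subset_Icc_right hm2
  unfold GW GZ
  rw [← hL]
  refine ⟨⟨fun x hx0 hx => (b1 x hx0 (hx.trans hmr2)).trans hup, fun σ hσ a ha ha1 => ?_, fun a ha ha1 => ?_,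
    fun j hj => (b4 j (hsub2 hj)).trans hup, fun σ hσ => ?_⟩, ?_⟩
  · obtain ⟨a', ha'⟩ : ∃ a' : ℝ, a' = a * L / L1 := ⟨_, rfl⟩
    have ha'L : a' * L1 = a * L := by rw [ha']; field_simp
    have ha'0 : 0 ≤ a' := by rw [ha']; positivity
    have hiL : L ≤ (1 + ε / 4) * L1 := by
      have : ℓ ≤ ε / 4 * L1 := by linarith
      linarith
    have ha'1 : a' ≤ 1 - ε := by
      rw [ha', div_le_iff₀ hL10]
      have h3 : a * L ≤ (1 - 2 * ε) * ((1 + ε / 4) * L1) := mul_le_mul ha1 hiL hL0.le (by linarith)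
      have h4 : (1 - 2 * ε) * (1 + ε / 4) ≤ 1 - ε := by nlinarith
      have h5 := mul_le_mul_of_nonneg_right h4 hL10.le
      linarith
    have h3 := a2 σ hσ a' ha'0 ha'1
    have h4 : a' ^ 2 * L1 ≤ (a ^ 2 + ε / 4) * L := by
      have e : a' ^ 2 * L1 = a' * (a * L) := by rw [← ha'L]; ring
      rw [e]
      have h5 : a' ≤ a + ε / 4 * a := by
        rw [ha', div_le_iff₀ hL10]
        have := mul_le_mul_of_nonneg_left hiL ha
        linarith
      have h6 : a ^ 2 ≤ 1 := pow_le_one₀ ha (by linarith)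
      have h7 : a' * (a * L) ≤ (a + ε / 4 * a) * (a * L) := mul_le_mul_of_nonneg_right h5 (by positivity)
      have h8 : ε / 4 * (a ^ 2 * L) ≤ ε / 4 * (1 * L) := by gcongr
      linarith
    have h5 : Real.exp ((1 - a ^ 2 - 2 * ε) * L) ≤ Real.exp ((1 - a' ^ 2 - ε) * L1) := by
      apply Real.exp_le_exp.2
      have h6 : (1 - ε) * L ≤ (1 - ε) * L1 + ℓ := by
        have : (1 - ε) * (L - L1) ≤ 1 * ℓ := mul_le_mul (by linarith) (by linarith) (by linarith) (by norm_num)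
        linarith
      nlinarith
    refine h5.trans (h3.trans ?_)
    have h6 : ((Finset.Icc 1 (2 ^ i)).filter (fun j : ℕ => a' * L1 ≤ σ * (Real.pi * cz n j))).card ≤
        ((Finset.Icc 1 m).filter (fun j : ℕ => a * L ≤ σ * (Real.pi * cz n j))).card := by
      refine Finset.card_le_card fun j hj => ?_
      rw [Finset.mem_filter] at hj ⊢
      refine ⟨hsub1 hj.1, ?_⟩
      rw [← ha'L]
      exact hj.2
    exact_mod_cast h6
  · obtain ⟨a', ha'⟩ : ∃ a' : ℝ, a' = a * L / L2 := ⟨_, rfl⟩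
    have ha'L : a' * L2 = a * L := by rw [ha']; field_simp
    have ha'0 : 0 ≤ a' := by rw [ha']; positivity
    have ha'a : a' ≤ a := by
      rw [ha', div_le_iff₀ hL20]
      exact mul_le_mul_of_nonneg_left hLL2 ha
    have h3 := b3 a' ha'0 (ha'a.trans ha1)
    have h4 : a ^ 2 * L - ℓ ≤ a' ^ 2 * L2 := by
      have e : a' ^ 2 * L2 = a' * (a * L) := by rw [← ha'L]; ring
      rw [e]
      have h5 : a * L - a' * L ≤ ℓ := by
        have h6 : a * L = a' * L2 := ha'L.symm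
        have h7 : a' * (L2 - L) ≤ 1 * ℓ := mul_le_mul (by linarith) (by linarith) (by linarith) (by norm_num)
        linarith
      have h6 : a * (a * L - a' * L) ≤ 1 * ℓ := by
        rcases le_or_gt 0 (a * L - a' * L) with h | h
        · exact mul_le_mul ha1 h5 h (by norm_num)
        · nlinarith
      linarith
    have h5 : Real.exp ((1 - a' ^ 2 + ε) * L2) ≤ Real.exp ((1 - a ^ 2 + 2 * ε) * L) := by
      apply Real.exp_le_exp.2
      rw [hL2i] at h4 ⊢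
      nlinarith
    refine le_trans ?_ (h3.trans h5)
    have h6 : ((Finset.Icc 1 m).filter (fun j : ℕ => a * L ≤ |Real.pi * cz n j|)).card ≤
        ((Finset.Icc 1 (2 ^ (i + 1))).filter (fun j : ℕ => a' * L2 ≤ |Real.pi * cz n j|)).card := by
      refine Finset.card_le_card fun j hj => ?_
      rw [Finset.mem_filter] at hj ⊢
      refine ⟨hsub2 hj.1, ?_⟩
      rw [ha'L]
      exact hj.2
    exact_mod_cast h6
  · obtain ⟨j, hj, hj2⟩ := a5 σ hσ
    refine ⟨j, hsub1 hj, le_trans ?_ hj2⟩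
    have h6 : (1 - 2 * ε) * L ≤ (1 - 2 * ε) * L1 + ℓ := by
      have : (1 - 2 * ε) * (L - L1) ≤ 1 * ℓ := mul_le_mul (by linarith) (by linarith) (by linarith) (by norm_num)
      linarith
    linarith
  · have := mul_le_mul_of_nonneg_left hLL1 hε.le
    have : 0 ≤ ε * L := by positivity
    linarith

end

end Run7.h435.MD
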