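import Pool.Agent.Run7.h435.MEw

/-! # The thick points of the displacements -/

set_option autoImplicit false

namespace Run7.h435.MD

open Filter Topology MeasureTheory Set
open SG (NZ ord)

noncomputable section

/-- counting by a map with short fibres -/
lemma fiber_count {A B : Finset ℕ} {L : ℝ} (hL : 0 ≤ L) (f : ℕ → ℕ) (hf : ∀ j ∈ A, f j ∈ B)
    (hfib : ∀ j1 ∈ A, ∀ j2 ∈ A, f j1 = f j2 → j1 ≤ j2 → (j2 : ℝ) - j1 ≤ L) : (A.card : ℝ) ≤ (L + 1) * B.card := by
  have h1 : A.card ≤ (⌊L⌋₊ + 1) * (A.image f).card := by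
    apply Finset.card_le_mul_card_image
    intro k hk
    have hne : (A.filter (fun x => f x = k)).Nonempty := by
      obtain ⟨j, hj, hjk⟩ := Finset.mem_image.1 hk
      exact ⟨j, Finset.mem_filter.2 ⟨hj, hjk⟩⟩
    obtain ⟨j0, hj0⟩ : ∃ j0 : ℕ, j0 = (A.filter (fun x => f x = k)).min' hne := ⟨_, rfl⟩
    have hj0m : j0 ∈ A.filter (fun x => f x = k) := by rw [hj0]; exact Finset.min'_mem _ _
    rw [Finset.mem_filter] at hj0m
    have hsub : A.filter (fun x => f x = k) ⊆ Finset.Icc j0 (j0 + ⌊L⌋₊) := by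
      intro j hj
      have h2 : j0 ≤ j := by rw [hj0]; exact Finset.min'_le _ _ hj
      rw [Finset.mem_filter] at hj
      rw [Finset.mem_Icc]
      refine ⟨h2, ?_⟩
      have h3 := hfib j0 hj0m.1 j hj.1 (by rw [hj0m.2, hj.2]) h2
      have h4 : j - j0 ≤ ⌊L⌋₊ := by
        apply Nat.le_floor
        rw [Nat.cast_sub h2]
        exact h3
      omega
    have h3 := Finset.card_le_card hsub
    rw [Nat.card_Icc] at h3
    omega
  have h2 : (A.image f).card ≤ B.card := by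
    apply Finset.card_le_card
    intro k hk
    obtain ⟨j, hj, hjk⟩ := Finset.mem_image.1 hk
    rw [← hjk]
    exact hf j hj
  have h3 : A.card ≤ (⌊L⌋₊ + 1) * B.card := h1.trans (Nat.mul_le_mul_left _ h2)
  have h4 : (A.card : ℝ) ≤ ((⌊L⌋₊ : ℝ) + 1) * B.card := by exact_mod_cast h3
  have h5 := Nat.floor_le hL
  refine h4.trans ?_
  gcongr

/-- **the thick points of the displacements: lower bound** -/
theorem dz_low {ε : ℝ} (hε : 0 < ε) (hε1 : ε ≤ 1 / 4) {m n : ℕ} (hn : 1 ≤ n) (hlo : 0 < Real.log (ord n))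
    (hG : GW ε m n) (c1 : 4 ≤ ε * Real.log m) (c2 : 2 * (Real.log m + 1) ≤ Real.exp (2 * ε * Real.log m))
    (c3 : Real.log m + 1 ≤ m) (σ : ℝ) (hσ : σ = 1 ∨ σ = -1) (a : ℝ) (ha : 0 ≤ a) (ha1 : a ≤ 1 - 20 * ε) :
    Real.exp ((1 - a ^ 2 - 20 * ε) * Real.log m) ≤
      (((Finset.Icc 1 m).filter (fun k : ℕ => a * Real.log m ≤ σ * (Real.pi * dz n k))).card : ℝ) := by
  obtain ⟨⟨a1, a2, -, -, a5⟩, a6⟩ := hG
  have hpi := Real.pi_pos
  have hpi3 := Real.pi_gt_three
  have hpi4 : Real.pi ≤ 4 := by linarith [Real.pi_lt_d2]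
  obtain ⟨L, hL⟩ : ∃ L : ℝ, L = Real.log m := ⟨_, rfl⟩
  rw [← hL] at a1 a2 a5 a6 c1 c2 c3 ⊢
  have hL16 : 16 ≤ L := by
    have : ε * L ≤ 1 / 4 * L := by
      rcases le_or_gt 0 L with h | h
      · exact mul_le_mul_of_nonneg_right hε1 h
      · nlinarith
    linarith
  have hL0 : 0 < L := by linarith
  have hN1 : (n : ℝ) ≤ NZ (ord n) := by exact_mod_cast SG.le_NZ_ord hn
  rcases le_or_gt (1 - a ^ 2 - 20 * ε) 0 with h0 | h0
  · obtain ⟨k, hk, hk2⟩ := a5 σ hσ
    have h1 : 0 < ((Finset.Icc 1 m).filter (fun k : ℕ => a * L ≤ σ * (Real.pi * dz n k))).card := by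
      refine Finset.card_pos.2 ⟨k, Finset.mem_filter.2 ⟨hk, le_trans ?_ hk2⟩⟩
      apply mul_le_mul_of_nonneg_right _ hL0.le
      linarith
    have h2 : (1 : ℝ) ≤ ((Finset.Icc 1 m).filter (fun k : ℕ => a * L ≤ σ * (Real.pi * dz n k))).card := by
      exact_mod_cast h1
    refine le_trans ?_ h2
    rw [Real.exp_le_one_iff]
    exact mul_nonpos_of_nonpos_of_nonneg h0 hL0.le
  obtain ⟨B, hB⟩ : ∃ B : Finset ℕ, B = (Finset.Icc 1 m).filter (fun k : ℕ => a * L ≤ σ * (Real.pi * dz n k)) := ⟨_, rfl⟩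
  rw [← hB]
  obtain ⟨a', ha'⟩ : ∃ a' : ℝ, a' = a + 5 * ε := ⟨_, rfl⟩
  obtain ⟨A, hA⟩ : ∃ A : Finset ℕ, A = (Finset.Icc 1 m).filter (fun j : ℕ => a' * L ≤ (-σ) * (Real.pi * cz n j)) := ⟨_, rfl⟩
  have hAc : Real.exp ((1 - a' ^ 2 - ε) * L) ≤ (A.card : ℝ) := by
    rw [hA]
    apply a2 (-σ) _ a' (by rw [ha']; positivity) (by rw [ha']; linarith)
    rcases hσ with h | h
    · right; rw [h]
    · left; rw [h]; ring
  obtain ⟨A', hA'⟩ : ∃ A' : Finset ℕ, A' = A.filter (fun j : ℕ => (j : ℝ) + L ≤ m) := ⟨_, rfl⟩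
  have hcard : (A.card : ℝ) ≤ A'.card + (L + 1) := by
    have h1 := Finset.card_filter_add_card_filter_not (s := A) (fun j : ℕ => (j : ℝ) + L ≤ m)
    have h2 : (A.filter (fun j : ℕ => ¬ ((j : ℝ) + L ≤ m))).card ≤ ⌈L⌉₊ := by
      have hsub : A.filter (fun j : ℕ => ¬ ((j : ℝ) + L ≤ m)) ⊆ Finset.Ioc (m - ⌈L⌉₊) m := by
        intro j hj
        rw [Finset.mem_filter, hA, Finset.mem_filter, Finset.mem_Icc] at hj
        rw [Finset.mem_Ioc]
        refine ⟨?_, hj.1.1.2⟩
        by_contra hc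
        push Not at hc
        apply hj.2
        have h3 : ⌈L⌉₊ ≤ m := by
          apply Nat.ceil_le.2
          linarith
        have h4 : (j : ℝ) ≤ ((m - ⌈L⌉₊ : ℕ) : ℝ) := by exact_mod_cast hc
        rw [Nat.cast_sub h3] at h4
        have h5 := Nat.le_ceil L
        linarith
      have h3 := Finset.card_le_card hsub
      rw [Nat.card_Ioc] at h3
      omega
    have h3 : (⌈L⌉₊ : ℝ) ≤ L + 1 := (Nat.ceil_lt_add_one hL0.le).le
    have h4 : (A.card : ℝ) = (A.filter (fun j : ℕ => (j : ℝ) + L ≤ m)).card + (A.filter (fun j : ℕ => ¬ ((j : ℝ) + L ≤ m))).card := by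
      exact_mod_cast h1.symm
    have h5 : ((A.filter (fun j : ℕ => ¬ ((j : ℝ) + L ≤ m))).card : ℝ) ≤ ⌈L⌉₊ := by exact_mod_cast h2
    rw [hA']
    linarith
  obtain ⟨NJ, hNJ⟩ : ∃ NJ : ℕ → ℕ, NJ = fun j : ℕ => NZ (ord n + 2 * Real.pi * (j : ℝ) / Real.log (ord n)) := ⟨_, rfl⟩
  have hNJn : ∀ j, n ≤ NJ j := by
    intro j
    rw [hNJ]
    refine (SG.le_NZ_ord hn).trans (SG.NZ_mono ?_)
    have : 0 ≤ 2 * Real.pi * (j : ℝ) / Real.log (ord n) := by positivity
    linarith
  have hczj : ∀ j : ℕ, cz n j = NJ j - NZ (ord n) - j := by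
    intro j
    rw [hNJ]
    rfl
  have hmemA : ∀ j ∈ A', 1 ≤ j ∧ j ≤ m ∧ a' * L ≤ (-σ) * (Real.pi * cz n j) ∧ (j : ℝ) + L ≤ m := by
    intro j hj
    rw [hA', Finset.mem_filter, hA, Finset.mem_filter, Finset.mem_Icc] at hj
    exact ⟨hj.1.1.1, hj.1.1.2, hj.1.2, hj.2⟩
  obtain ⟨s, hs⟩ : ∃ s : ℕ, s = if σ = 1 then 1 else 0 := ⟨_, rfl⟩
  have hmain := fiber_count (A := A') (B := B) hL0.le (fun j => NJ j - n + s) (by
    intro j hj
    obtain ⟨j1, j2, j3, j4⟩ := hmemA j hj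
    have hkr : ((NJ j - n + s : ℕ) : ℝ) = NJ j - n + s := by
      rw [Nat.cast_add, Nat.cast_sub (hNJn j)]
    have hj1 : (1 : ℝ) ≤ j := by exact_mod_cast j1
    have h1 := abs_le.1 (a1 j (Nat.cast_nonneg j) (by exact_mod_cast j2))
    have hc := hczj j
    have ha'L : 0 ≤ a' * L := by rw [ha']; positivity
    rw [hB, Finset.mem_filter, Finset.mem_Icc]
    rcases hσ with h | h
    · have hs1 : s = 1 := by rw [hs, if_pos h]
      have hcneg : cz n j ≤ 0 := by
        by_contra hcc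
        push Not at hcc
        have := mul_pos hpi hcc
        rw [h] at j3
        linarith
      rw [hs1] at hkr ⊢
      have hk2 : (NJ j - n + 1 : ℕ) ≤ m := by
        have : ((NJ j - n + 1 : ℕ) : ℝ) ≤ m := by
          rw [hkr]
          push_cast
          have : ε * L + 1 ≤ L := by nlinarith
          linarith
        exact_mod_cast this
      refine ⟨⟨by omega, hk2⟩, ?_⟩
      have h2 : ¬ dz n (NJ j - n + 1) ≤ (j : ℝ) - ((NJ j - n + 1 : ℕ) : ℝ) := by
        rw [← dz_le hn hlo]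
        have h3 := hNJn j
        have h4 : NZ (ord n + 2 * Real.pi * (j : ℝ) / Real.log (ord n)) = NJ j := by rw [hNJ]
        rw [h4]
        omega
      push Not at h2
      rw [hkr] at h2
      push_cast at h2
      rw [h, one_mul]
      have h5 : -cz n j - ε * L - 1 ≤ dz n (NJ j - n + 1) := by linarith
      have h6 : Real.pi * (-cz n j - ε * L - 1) ≤ Real.pi * dz n (NJ j - n + 1) := mul_le_mul_of_nonneg_left h5 hpi.le
      have h7 : Real.pi * (ε * L + 1) ≤ 4 * (ε * L + 1) := mul_le_mul_of_nonneg_right hpi4 (by positivity)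
      rw [h, ha'] at j3
      linarith
    · have hne : ¬ σ = 1 := by rw [h]; norm_num
      have hs1 : s = 0 := by rw [hs, if_neg hne]
      have hcpos : 0 ≤ cz n j := by
        by_contra hcc
        push Not at hcc
        have := mul_neg_of_pos_of_neg hpi hcc
        rw [h] at j3
        linarith
      rw [hs1] at hkr ⊢
      have hc3 : 3 * cz n j ≤ (1 + ε) * L := by
        have : 3 * cz n j ≤ Real.pi * cz n j := mul_le_mul_of_nonneg_right hpi3.le hcpos
        linarith [h1.2]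
      have hk1 : 1 ≤ (NJ j - n + 0 : ℕ) := by
        have : (1 : ℝ) ≤ ((NJ j - n + 0 : ℕ) : ℝ) := by
          rw [hkr]
          push_cast
          linarith
        exact_mod_cast this
      have hk2 : (NJ j - n + 0 : ℕ) ≤ m := by
        have : ((NJ j - n + 0 : ℕ) : ℝ) ≤ m := by
          rw [hkr]
          push_cast
          have h8 : ε * L ≤ 1 / 4 * L := mul_le_mul_of_nonneg_right hε1 hL0.le
          linarith
        exact_mod_cast this
      refine ⟨⟨hk1, hk2⟩, ?_⟩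
      have h2 : dz n (NJ j - n + 0) ≤ (j : ℝ) - ((NJ j - n + 0 : ℕ) : ℝ) := by
        rw [← dz_le hn hlo]
        have h3 := hNJn j
        have h4 : NZ (ord n + 2 * Real.pi * (j : ℝ) / Real.log (ord n)) = NJ j := by rw [hNJ]
        rw [h4]
        omega
      rw [hkr] at h2
      push_cast at h2
      rw [h]
      have h5 : dz n (NJ j - n + 0) ≤ -cz n j := by linarith
      have h6 : Real.pi * dz n (NJ j - n + 0) ≤ Real.pi * (-cz n j) := mul_le_mul_of_nonneg_left h5 hpi.le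
      rw [h, ha'] at j3
      have h7 : 0 ≤ 5 * ε * L := by positivity
      linarith) (by
    intro j1 hj1 j2 hj2 he hle
    obtain ⟨p1, p2, p3, p4⟩ := hmemA j1 hj1
    obtain ⟨r1, r2, r3, r4⟩ := hmemA j2 hj2
    have h1 := abs_le.1 (a1 j1 (Nat.cast_nonneg j1) (by exact_mod_cast p2))
    have h2 := abs_le.1 (a1 j2 (Nat.cast_nonneg j2) (by exact_mod_cast r2))
    have h3 : NJ j1 = NJ j2 := by
      have q1 := hNJn j1
      have q2 := hNJn j2
      have he' : NJ j1 - n + s = NJ j2 - n + s := he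
      omega
    have h4 : Real.pi * ((j2 : ℝ) - j1) ≤ 2 * ((1 + ε) * L) := by
      have h5 : (j2 : ℝ) - j1 = cz n j1 - cz n j2 := by
        rw [hczj, hczj, h3]
        ring
      rw [h5, mul_sub]
      linarith [h1.2, h2.1]
    have h5 : (0 : ℝ) ≤ (j2 : ℝ) - j1 := by
      have : (j1 : ℝ) ≤ j2 := by exact_mod_cast hle
      linarith
    have h6 : 3 * ((j2 : ℝ) - j1) ≤ Real.pi * ((j2 : ℝ) - j1) := mul_le_mul_of_nonneg_right hpi3.le h5
    have h7 : (1 + ε) * L ≤ 5 / 4 * L := mul_le_mul_of_nonneg_right (by linarith) hL0.le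
    linarith)
  obtain ⟨E, hE⟩ : ∃ E : ℝ, E = Real.exp ((1 - a ^ 2 - 20 * ε) * L) := ⟨_, rfl⟩
  rw [← hE]
  have hE1 : 1 ≤ E := by
    rw [hE]
    exact Real.one_le_exp (mul_nonneg h0.le hL0.le)
  have h1 : E * (2 * (L + 1)) ≤ Real.exp ((1 - a' ^ 2 - ε) * L) := by
    calc E * (2 * (L + 1)) ≤ E * Real.exp (2 * ε * L) := mul_le_mul_of_nonneg_left c2 (by linarith)
      _ = Real.exp ((1 - a ^ 2 - 18 * ε) * L) := by
          rw [hE, ← Real.exp_add]; congr 1; ring
      _ ≤ Real.exp ((1 - a' ^ 2 - ε) * L) := by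
          apply Real.exp_le_exp.2
          apply mul_le_mul_of_nonneg_right _ hL0.le
          have h2 : a * ε ≤ 1 * ε := mul_le_mul_of_nonneg_right (by linarith) hε.le
          have h3 : ε * ε ≤ 1 / 4 * ε := mul_le_mul_of_nonneg_right hε1 hε.le
          rw [ha']
          linarith
  have h2 : (L + 1) * E ≤ (L + 1) * B.card := by
    have h3 : L + 1 ≤ E * (L + 1) := by
      have := mul_le_mul_of_nonneg_right hE1 (by linarith : 0 ≤ L + 1)
      linarith
    linarith
  exact le_of_mul_le_mul_left h2 (by linarith)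

/-- **the thick points of the displacements: upper bound** -/
theorem dz_upp {ε : ℝ} (hε : 0 < ε) (hε1 : ε ≤ 1 / 4) {m n : ℕ} (hm : 1 ≤ m) (hn : 1 ≤ n) (hlo : 0 < Real.log (ord n))
    (hG : GW ε m n) (c1 : 4 ≤ ε * Real.log m) (c2 : 2 * (Real.log m + 1) ≤ Real.exp (2 * ε * Real.log m))
    (a : ℝ) (ha : 0 ≤ a) (ha1 : a ≤ 1) :
    (((Finset.Icc 1 m).filter (fun k : ℕ => a * Real.log m ≤ |Real.pi * dz n k|)).card : ℝ) ≤
      Real.exp ((1 - a ^ 2 + 20 * ε) * Real.log m) := by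
  obtain ⟨⟨-, -, a3, -, -⟩, a6⟩ := hG
  have hpi := Real.pi_pos
  have hpi3 := Real.pi_gt_three
  have hpi4 : Real.pi ≤ 4 := by linarith [Real.pi_lt_d2]
  have hm0 : (0 : ℝ) < m := by exact_mod_cast hm
  have hme : Real.exp (Real.log m) = m := Real.exp_log hm0
  obtain ⟨L, hL⟩ : ∃ L : ℝ, L = Real.log m := ⟨_, rfl⟩
  rw [← hL] at a3 a6 c1 c2 hme ⊢
  have hL16 : 16 ≤ L := by
    have : ε * L ≤ 1 / 4 * L := by
      rcases le_or_gt 0 L with h | h
      · exact mul_le_mul_of_nonneg_right hε1 h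
      · nlinarith
    linarith
  have hL0 : 0 < L := by linarith
  have hN1 : (n : ℝ) ≤ NZ (ord n) := by exact_mod_cast SG.le_NZ_ord hn
  rcases lt_or_ge a (5 * ε) with h5 | h5
  · have h1 := Finset.card_filter_le (Finset.Icc 1 m) (fun k : ℕ => a * L ≤ |Real.pi * dz n k|)
    rw [Nat.card_Icc, Nat.add_sub_cancel] at h1
    have h2 : (((Finset.Icc 1 m).filter (fun k : ℕ => a * L ≤ |Real.pi * dz n k|)).card : ℝ) ≤ m := by exact_mod_cast h1
    refine h2.trans ?_
    rw [← hme]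
    apply Real.exp_le_exp.2
    have h3 : a ^ 2 ≤ 5 * ε * 1 := by
      rw [sq]
      exact mul_le_mul h5.le ha1 ha (by positivity)
    have h4 : 0 ≤ (20 * ε - a ^ 2) * L := mul_nonneg (by linarith) hL0.le
    linarith
  obtain ⟨A, hA⟩ : ∃ A : ℝ, A = a * L / Real.pi := ⟨_, rfl⟩
  have hapos : 0 < a := by linarith
  have hA0 : 0 < A := by rw [hA]; positivity
  have hpiA : Real.pi * A = a * L := by rw [hA]; field_simp
  have hAL : A ≤ L := by
    have h1 : a * L ≤ 1 * L := mul_le_mul_of_nonneg_right ha1 hL0.le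
    have h2 : 3 * A ≤ Real.pi * A := mul_le_mul_of_nonneg_right hpi3.le hA0.le
    linarith
  obtain ⟨NJ, hNJ⟩ : ∃ NJ : ℕ → ℕ, NJ = fun j : ℕ => NZ (ord n + 2 * Real.pi * (j : ℝ) / Real.log (ord n)) := ⟨_, rfl⟩
  have hczj : ∀ j : ℕ, cz n j = NJ j - NZ (ord n) - j := by
    intro j
    rw [hNJ]
    rfl
  have hdzj : ∀ j k : ℕ, n + k ≤ NJ j ↔ dz n k ≤ (j : ℝ) - k := by
    intro j k
    rw [← dz_le hn hlo, hNJ]
  -- the late zeros
  have hlate : (((Finset.Icc 1 m).filter (fun k : ℕ => a * L ≤ Real.pi * dz n k)).card : ℝ) ≤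
      Real.exp ((1 - a ^ 2 + ε) * L) + (L + 1) := by
    obtain ⟨p, hp⟩ : ∃ p : ℕ, p + 1 = ⌈A⌉₊ := ⟨⌈A⌉₊ - 1, by have := Nat.ceil_pos.2 hA0; omega⟩
    have hp1 : (p : ℝ) < A := by
      have := Nat.ceil_lt_add_one hA0.le
      rw [← hp] at this
      push_cast at this
      linarith
    have hp2 : A ≤ p + 1 := by
      have := Nat.le_ceil A
      rw [← hp] at this
      push_cast at this
      linarith
    obtain ⟨S, hS⟩ : ∃ S : Finset ℕ, S = (Finset.Icc 1 m).filter (fun k : ℕ => a * L ≤ Real.pi * dz n k) := ⟨_, rfl⟩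
    rw [← hS]
    have h1 := Finset.card_filter_add_card_filter_not (s := S) (fun k : ℕ => k + p ≤ m)
    have h2 : (S.filter (fun k : ℕ => ¬ (k + p ≤ m))).card ≤ p := by
      have hsub : S.filter (fun k : ℕ => ¬ (k + p ≤ m)) ⊆ Finset.Ioc (m - p) m := by
        intro k hk
        rw [Finset.mem_filter, hS, Finset.mem_filter, Finset.mem_Icc] at hk
        rw [Finset.mem_Ioc]
        omega
      have h3 := Finset.card_le_card hsub
      rw [Nat.card_Ioc] at h3
      omega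
    have h3 : (S.filter (fun k : ℕ => k + p ≤ m)).card ≤
        ((Finset.Icc 1 m).filter (fun j : ℕ => a * L ≤ |Real.pi * cz n j|)).card := by
      apply Finset.card_le_card_of_injOn (fun k => k + p)
      · intro k hk
        have hk' : k ∈ S.filter (fun k : ℕ => k + p ≤ m) := hk
        rw [Finset.mem_filter, hS, Finset.mem_filter, Finset.mem_Icc] at hk'
        obtain ⟨⟨⟨k1, k2⟩, k3⟩, k4⟩ := hk'
        have h4 : A ≤ dz n k := by
          rw [← hpiA] at k3
          exact le_of_mul_le_mul_left k3 hpi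
        have h5 : ¬ (n + k ≤ NJ (k + p)) := by
          rw [hdzj]
          push_cast
          intro hcon
          linarith
        have h6 : NJ (k + p) + 1 ≤ n + k := by omega
        have h7 : (NJ (k + p) : ℝ) + 1 ≤ n + k := by exact_mod_cast h6
        have h8 : cz n ((k + p : ℕ) : ℝ) ≤ -A := by
          rw [hczj]
          push_cast
          linarith
        show k + p ∈ (((Finset.Icc 1 m).filter (fun j : ℕ => a * L ≤ |Real.pi * cz n j|) : Finset ℕ) : Set ℕ)
        rw [Finset.mem_coe, Finset.mem_filter, Finset.mem_Icc]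
        refine ⟨⟨by omega, k4⟩, ?_⟩
        rw [← hpiA]
        have h9 : Real.pi * cz n ((k + p : ℕ) : ℝ) ≤ Real.pi * (-A) := mul_le_mul_of_nonneg_left h8 hpi.le
        have h10 := neg_abs_le (Real.pi * cz n ((k + p : ℕ) : ℝ))
        linarith
      · intro x _ y _ hxy
        have : x + p = y + p := hxy
        omega
    have h4 : ((S.filter (fun k : ℕ => k + p ≤ m)).card : ℝ) ≤ Real.exp ((1 - a ^ 2 + ε) * L) :=
      le_trans (by exact_mod_cast h3) (a3 a ha ha1)
    have h5 : (S.card : ℝ) = (S.filter (fun k : ℕ => k + p ≤ m)).card + (S.filter (fun k : ℕ => ¬ (k + p ≤ m))).card := by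
      exact_mod_cast h1.symm
    have h6 : ((S.filter (fun k : ℕ => ¬ (k + p ≤ m))).card : ℝ) ≤ p := by exact_mod_cast h2
    linarith
  -- the early zeros
  have hearly : (((Finset.Icc 1 m).filter (fun k : ℕ => a * L ≤ -(Real.pi * dz n k))).card : ℝ) ≤
      Real.exp ((1 - (a - 5 * ε) ^ 2 + ε) * L) + 1 := by
    obtain ⟨p, hp⟩ : ∃ p : ℕ, p = ⌊A⌋₊ := ⟨_, rfl⟩
    have hp1 : (p : ℝ) ≤ A := by rw [hp]; exact Nat.floor_le hA0.le
    have hp2 : A < p + 1 := by rw [hp]; exact Nat.lt_floor_add_one A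
    obtain ⟨S, hS⟩ : ∃ S : Finset ℕ, S = (Finset.Icc 1 m).filter (fun k : ℕ => a * L ≤ -(Real.pi * dz n k)) := ⟨_, rfl⟩
    rw [← hS]
    have hmem : ∀ k ∈ S, 1 ≤ k ∧ k ≤ m ∧ dz n k ≤ -A ∧ p ≤ k := by
      intro k hk
      rw [hS, Finset.mem_filter, Finset.mem_Icc] at hk
      obtain ⟨⟨k1, k2⟩, k3⟩ := hk
      have h4 : dz n k ≤ -A := by
        rw [← hpiA] at k3
        have : Real.pi * dz n k ≤ Real.pi * (-A) := by linarith
        exact le_of_mul_le_mul_left this hpi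
      have h5 : -(k : ℝ) ≤ dz n k := by
        unfold dz
        have h9 : ord n ≤ ord (n + k) := SG.ord_mono hn (by omega)
        have : 0 ≤ (ord (n + k) - ord n) * Real.log (ord n) / (2 * Real.pi) := by
          have : 0 ≤ ord (n + k) - ord n := by linarith
          positivity
        linarith
      have h6 : (p : ℝ) ≤ k := by linarith
      exact ⟨k1, k2, h4, by exact_mod_cast h6⟩
    have h1 := Finset.card_filter_add_card_filter_not (s := S) (fun k : ℕ => p + 1 ≤ k)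
    have h2 : (S.filter (fun k : ℕ => ¬ (p + 1 ≤ k))).card ≤ 1 := by
      have hsub : S.filter (fun k : ℕ => ¬ (p + 1 ≤ k)) ⊆ {p} := by
        intro k hk
        rw [Finset.mem_filter] at hk
        obtain ⟨_, _, _, h4⟩ := hmem k hk.1
        rw [Finset.mem_singleton]
        omega
      exact (Finset.card_le_card hsub).trans (by simp)
    have h3 : (S.filter (fun k : ℕ => p + 1 ≤ k)).card ≤
        ((Finset.Icc 1 m).filter (fun j : ℕ => (a - 5 * ε) * L ≤ |Real.pi * cz n j|)).card := by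
      apply Finset.card_le_card_of_injOn (fun k => k - p)
      · intro k hk
        have hk' : k ∈ S.filter (fun k : ℕ => p + 1 ≤ k) := hk
        rw [Finset.mem_filter] at hk'
        obtain ⟨k1, k2, k3, k4⟩ := hmem k hk'.1
        have hk5 := hk'.2
        have hcast : ((k - p : ℕ) : ℝ) = k - p := Nat.cast_sub k4
        have h5 : n + k ≤ NJ (k - p) := by
          rw [hdzj, hcast]
          linarith
        have h7 : (n : ℝ) + k ≤ NJ (k - p) := by exact_mod_cast h5
        have h8 : A - 1 - ε * L ≤ cz n ((k - p : ℕ) : ℝ) := by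
          rw [hczj, hcast]
          linarith
        show k - p ∈ (((Finset.Icc 1 m).filter (fun j : ℕ => (a - 5 * ε) * L ≤ |Real.pi * cz n j|) : Finset ℕ) : Set ℕ)
        rw [Finset.mem_coe, Finset.mem_filter, Finset.mem_Icc]
        refine ⟨⟨by omega, by omega⟩, ?_⟩
        have h9 : Real.pi * (A - 1 - ε * L) ≤ Real.pi * cz n ((k - p : ℕ) : ℝ) := mul_le_mul_of_nonneg_left h8 hpi.le
        have h10 : Real.pi * (1 + ε * L) ≤ 4 * (1 + ε * L) := mul_le_mul_of_nonneg_right hpi4 (by positivity)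
        have h11 := le_abs_self (Real.pi * cz n ((k - p : ℕ) : ℝ))
        have h12 : Real.pi * (A - 1 - ε * L) = a * L - Real.pi * (1 + ε * L) := by rw [← hpiA]; ring
        linarith
      · intro x hx y hy hxy
        have hx' : x ∈ S.filter (fun k : ℕ => p + 1 ≤ k) := hx
        have hy' : y ∈ S.filter (fun k : ℕ => p + 1 ≤ k) := hy
        have hx2 := (Finset.mem_filter.1 hx').2
        have hy2 := (Finset.mem_filter.1 hy').2
        have : x - p = y - p := hxy
        omega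
    have h4 : ((S.filter (fun k : ℕ => p + 1 ≤ k)).card : ℝ) ≤ Real.exp ((1 - (a - 5 * ε) ^ 2 + ε) * L) :=
      le_trans (by exact_mod_cast h3) (a3 (a - 5 * ε) (by linarith) (by linarith))
    have h5 : (S.card : ℝ) = (S.filter (fun k : ℕ => p + 1 ≤ k)).card + (S.filter (fun k : ℕ => ¬ (p + 1 ≤ k))).card := by
      exact_mod_cast h1.symm
    have h6 : ((S.filter (fun k : ℕ => ¬ (p + 1 ≤ k))).card : ℝ) ≤ 1 := by exact_mod_cast h2
    linarith
  -- the sum
  have hsplit : ((Finset.Icc 1 m).filter (fun k : ℕ => a * L ≤ |Real.pi * dz n k|)).card ≤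
      ((Finset.Icc 1 m).filter (fun k : ℕ => a * L ≤ Real.pi * dz n k)).card +
      ((Finset.Icc 1 m).filter (fun k : ℕ => a * L ≤ -(Real.pi * dz n k))).card := by
    refine le_trans (Finset.card_le_card ?_) (Finset.card_union_le _ _)
    intro k hk
    rw [Finset.mem_filter] at hk
    rw [Finset.mem_union, Finset.mem_filter, Finset.mem_filter]
    rcases le_abs.1 hk.2 with h | h
    · exact Or.inl ⟨hk.1, h⟩
    · exact Or.inr ⟨hk.1, h⟩
  have hsplit' : (((Finset.Icc 1 m).filter (fun k : ℕ => a * L ≤ |Real.pi * dz n k|)).card : ℝ) ≤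
      ((Finset.Icc 1 m).filter (fun k : ℕ => a * L ≤ Real.pi * dz n k)).card +
      ((Finset.Icc 1 m).filter (fun k : ℕ => a * L ≤ -(Real.pi * dz n k))).card := by exact_mod_cast hsplit
  obtain ⟨Y, hY⟩ : ∃ Y : ℝ, Y = Real.exp ((1 - a ^ 2 + 11 * ε) * L) := ⟨_, rfl⟩
  have hY0 : 0 < Y := by rw [hY]; exact Real.exp_pos _
  have hasq : a ^ 2 ≤ 1 := pow_le_one₀ ha ha1
  have y1 : Real.exp ((1 - a ^ 2 + ε) * L) ≤ Y := by
    rw [hY]
    apply Real.exp_le_exp.2
    apply mul_le_mul_of_nonneg_right _ hL0.le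
    linarith
  have y2 : Real.exp ((1 - (a - 5 * ε) ^ 2 + ε) * L) ≤ Y := by
    rw [hY]
    apply Real.exp_le_exp.2
    apply mul_le_mul_of_nonneg_right _ hL0.le
    have h2 : a * ε ≤ 1 * ε := mul_le_mul_of_nonneg_right ha1 hε.le
    have h3 := sq_nonneg ε
    linarith
  have y3 : L + 1 ≤ Y / 2 := by
    have h1 : Real.exp (2 * ε * L) ≤ Y := by
      rw [hY]
      apply Real.exp_le_exp.2
      apply mul_le_mul_of_nonneg_right _ hL0.le
      linarith
    linarith
  have y4 : 4 * Y ≤ Real.exp ((1 - a ^ 2 + 20 * ε) * L) := by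
    have h1 : (4 : ℝ) ≤ Real.exp (9 * ε * L) := by
      have := Real.add_one_le_exp (9 * ε * L)
      linarith
    calc 4 * Y ≤ Real.exp (9 * ε * L) * Y := mul_le_mul_of_nonneg_right h1 hY0.le
      _ = Real.exp ((1 - a ^ 2 + 20 * ε) * L) := by
          rw [hY, ← Real.exp_add]; congr 1; ring
  linarith

end

end Run7.h435.MD
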