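import Pool.Agent.Run7.h435.MEx
import Pool.Agent.Run7.h435.MEy
import Pool.Agent.Run7.h435.MEz

/-! # All scales at once, for the sums of gaps -/

set_option autoImplicit false

namespace Run7.h435.MD

open Filter Topology MeasureTheory Set
open SP (RHs)
open SG (NZ ord)

noncomputable section

lemma rhs_of (RH : RiemannHypothesis) : RHs := by
  intro s h1 h2 h0
  apply RH s h0
  · rintro ⟨k, hk⟩
    have := congrArg Complex.re hk
    simp at this
    have hk0 : (0 : ℝ) ≤ k := Nat.cast_nonneg k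
    linarith
  · intro h
    rw [h] at h2
    simp at h2

/-- the unfolded gap -/
def dq (n : ℕ) : ℝ := (ord (n + 1) - ord n) / (2 * Real.pi) * Real.log (ord n / (2 * Real.pi))

/-- the sum of `k` gaps, minus `k` -/
def gz (n k : ℕ) : ℝ := ∑ l ∈ Finset.range k, (dq (n + l) - 1)

/-- the sums of gaps against the displacements -/
lemma gz_dz {n k M : ℕ} (hn : 1 ≤ n) (hk : k ≤ M) (hM : 1 ≤ M) (hlo : 6 * (M : ℝ) ≤ Real.log (ord n))
    (hd : dz n k ≤ M) : |gz n k - dz n k| ≤ 1 := by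
  have hpi := Real.pi_pos
  have hpi3 := Real.pi_gt_three
  have hpi4 : Real.pi < 3.15 := Real.pi_lt_d2
  have hM1 : (1 : ℝ) ≤ M := by exact_mod_cast hM
  have hkM : (k : ℝ) ≤ M := by exact_mod_cast hk
  have ho0 : 0 < ord n := SG.ord_pos hn
  have ho6 : 6 ≤ ord n := by
    have h1 := Real.log_le_sub_one_of_pos ho0
    linarith
  obtain ⟨L, hL⟩ : ∃ L : ℝ, L = Real.log (ord n) := ⟨_, rfl⟩
  rw [← hL] at hlo
  have hL0 : 0 < L := by linarith
  obtain ⟨Δ, hΔ⟩ : ∃ Δ : ℝ, Δ = (ord (n + k) - ord n) / (2 * Real.pi) := ⟨_, rfl⟩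
  have hdz : dz n k = Δ * L - k := by
    unfold dz
    rw [hΔ, hL]
    ring
  have hmk : ord n ≤ ord (n + k) := SG.ord_mono hn (by omega)
  have hΔ0 : 0 ≤ Δ := by
    rw [hΔ]
    apply div_nonneg (by linarith) (by positivity)
  have hΔL : Δ * L ≤ 2 * M := by linarith
  have hΔ1 : Δ ≤ 1 / 3 := by
    have h1 : Δ * (6 * M) ≤ 2 * M := (mul_le_mul_of_nonneg_left hlo hΔ0).trans hΔL
    have h2 : (6 * M) * Δ ≤ (6 * M) * (1 / 3) := by linarith
    exact le_of_mul_le_mul_left h2 (by linarith)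
  have hok : ord (n + k) ≤ 2 * ord n := by
    have h1 : ord (n + k) - ord n = Δ * (2 * Real.pi) := by rw [hΔ]; field_simp
    have h2 : Δ * (2 * Real.pi) ≤ 1 / 3 * (2 * Real.pi) := mul_le_mul_of_nonneg_right hΔ1 (by linarith)
    linarith
  have hsum : ∑ l ∈ Finset.range k, (ord (n + l + 1) - ord (n + l)) / (2 * Real.pi) = Δ := by
    rw [← Finset.sum_div, hΔ]
    congr 1
    have := Finset.sum_range_sub (fun l => ord (n + l)) k
    simp only [add_zero] at this
    rw [← this]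
    rfl
  have hl2p : Real.log (2 * Real.pi) ≤ 2 := by
    have h1 : 2 * Real.pi ≤ Real.exp 2 := by
      have h2 : Real.exp 2 = Real.exp 1 * Real.exp 1 := by rw [← Real.exp_add]; norm_num
      have h3 := Real.exp_one_gt_d9
      rw [h2]
      nlinarith
    rw [Real.log_le_iff_le_exp (by positivity)]
    exact h1
  have hl2p0 : 0 ≤ Real.log (2 * Real.pi) := Real.log_nonneg (by linarith)
  have hterm : ∀ l ∈ Finset.range k, |(ord (n + l + 1) - ord (n + l)) / (2 * Real.pi) * (Real.log (ord (n + l) / (2 * Real.pi)) - L)| ≤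
      (ord (n + l + 1) - ord (n + l)) / (2 * Real.pi) * 2 := by
    intro l hl
    rw [Finset.mem_range] at hl
    have h1 : ord n ≤ ord (n + l) := SG.ord_mono hn (by omega)
    have h2 : ord (n + l) ≤ ord (n + k) := SG.ord_mono (by omega) (by omega)
    have h3 : ord (n + l) ≤ ord (n + l + 1) := SG.ord_mono (by omega) (by omega)
    have h4 : 0 ≤ (ord (n + l + 1) - ord (n + l)) / (2 * Real.pi) := div_nonneg (by linarith) (by positivity)
    have h5 : 0 < ord (n + l) := SG.ord_pos (by omega)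
    rw [abs_mul, abs_of_nonneg h4]
    apply mul_le_mul_of_nonneg_left _ h4
    rw [Real.log_div h5.ne' (by positivity)]
    have h6 : L ≤ Real.log (ord (n + l)) := by rw [hL]; exact Real.log_le_log ho0 h1
    have h7 : Real.log (ord (n + l)) ≤ L + Real.log 2 := by
      rw [hL, ← Real.log_mul ho0.ne' (by norm_num)]
      exact Real.log_le_log h5 (by linarith)
    have h8 := Real.log_two_lt_d9
    rw [abs_le]
    constructor <;> linarith
  have hdiff : gz n k - dz n k = ∑ l ∈ Finset.range k, (ord (n + l + 1) - ord (n + l)) / (2 * Real.pi) * (Real.log (ord (n + l) / (2 * Real.pi)) - L) := by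
    rw [hdz]
    unfold gz dq
    rw [Finset.sum_sub_distrib, Finset.sum_const, Finset.card_range, nsmul_eq_mul, mul_one]
    simp only [mul_sub]
    rw [Finset.sum_sub_distrib, ← Finset.sum_mul, hsum]
    ring
  rw [hdiff]
  refine (Finset.abs_sum_le_sum_abs _ _).trans ((Finset.sum_le_sum hterm).trans ?_)
  rw [← Finset.sum_mul, hsum]
  linarith

/-- a normalisation of the displacements -/
def Close (X : ℕ → ℕ → ℝ) : Prop := ∀ n k M : ℕ, 1 ≤ n → k ≤ M → 1 ≤ M → 6 * (M : ℝ) ≤ Real.log (ord n) →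
  dz n k ≤ M → |X n k - dz n k| ≤ 1

lemma close_gz : Close gz := fun _ _ _ hn hk hM hlo hd => gz_dz hn hk hM hlo hd

/-- the other normalisation -/
def tq (n : ℕ) : ℝ := 1 / (2 * Real.pi) * ord n * Real.log (ord n)

/-- the sum of `k` gaps, minus `k`, in the other normalisation -/
def tz (n k : ℕ) : ℝ := ∑ l ∈ Finset.range k, (tq (n + l + 1) - tq (n + l) - 1)

lemma close_tz : Close tz := by
  intro n k M hn hk hM hlo hd
  have hpi := Real.pi_pos
  have hpi3 := Real.pi_gt_three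
  have hpi4 : Real.pi < 3.15 := Real.pi_lt_d2
  have hM1 : (1 : ℝ) ≤ M := by exact_mod_cast hM
  have hkM : (k : ℝ) ≤ M := by exact_mod_cast hk
  have ho0 : 0 < ord n := SG.ord_pos hn
  have ho6 : 6 ≤ ord n := by
    have h1 := Real.log_le_sub_one_of_pos ho0
    linarith
  obtain ⟨L, hL⟩ : ∃ L : ℝ, L = Real.log (ord n) := ⟨_, rfl⟩
  rw [← hL] at hlo
  have hL0 : 0 < L := by linarith
  obtain ⟨Δ, hΔ⟩ : ∃ Δ : ℝ, Δ = (ord (n + k) - ord n) / (2 * Real.pi) := ⟨_, rfl⟩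
  have hdz : dz n k = Δ * L - k := by
    unfold dz
    rw [hΔ, hL]
    ring
  have hmk : ord n ≤ ord (n + k) := SG.ord_mono hn (by omega)
  have hΔ0 : 0 ≤ Δ := by
    rw [hΔ]
    apply div_nonneg (by linarith) (by positivity)
  have hΔL : Δ * L ≤ 2 * M := by linarith
  have hΔ1 : Δ ≤ 1 / 3 := by
    have h1 : Δ * (6 * M) ≤ 2 * M := (mul_le_mul_of_nonneg_left hlo hΔ0).trans hΔL
    have h2 : (6 * M) * Δ ≤ (6 * M) * (1 / 3) := by linarith
    exact le_of_mul_le_mul_left h2 (by linarith)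
  have hΔe : ord (n + k) = ord n + Δ * (2 * Real.pi) := by rw [hΔ]; field_simp; ring
  have hok : ord (n + k) ≤ 2 * ord n := by
    have h2 : Δ * (2 * Real.pi) ≤ 1 / 3 * (2 * Real.pi) := mul_le_mul_of_nonneg_right hΔ1 (by linarith)
    linarith
  have hsum : tz n k = tq (n + k) - tq n - k := by
    unfold tz
    rw [Finset.sum_sub_distrib, Finset.sum_const, Finset.card_range, nsmul_eq_mul, mul_one]
    have := Finset.sum_range_sub (fun l => tq (n + l)) k
    simp only [add_zero] at this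
    rw [← this]
    rfl
  have hok0 : 0 < ord (n + k) := by linarith
  -- the logarithm of the ratio
  have hr1 : 0 ≤ Real.log (ord (n + k)) - L := by
    rw [hL]
    linarith [Real.log_le_log ho0 hmk]
  have hr2 : ord (n + k) * (Real.log (ord (n + k)) - L) ≤ 2 * (2 * Real.pi * Δ) := by
    have h1 : Real.log (ord (n + k)) - L ≤ (2 * Real.pi * Δ) / ord n := by
      rw [hL, ← Real.log_div hok0.ne' ho0.ne']
      have h2 := Real.log_le_sub_one_of_pos (x := ord (n + k) / ord n) (by positivity)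
      have h3 : ord (n + k) / ord n - 1 = (2 * Real.pi * Δ) / ord n := by
        rw [hΔe]
        field_simp
        ring
      linarith
    calc ord (n + k) * (Real.log (ord (n + k)) - L) ≤ (2 * ord n) * ((2 * Real.pi * Δ) / ord n) :=
          mul_le_mul hok h1 hr1 (by linarith)
      _ = 2 * (2 * Real.pi * Δ) := by field_simp
  have hr3 : 0 ≤ ord (n + k) * (Real.log (ord (n + k)) - L) := mul_nonneg hok0.le hr1
  have e : tz n k - dz n k = 1 / (2 * Real.pi) * (ord (n + k) * (Real.log (ord (n + k)) - L)) := by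
    rw [hsum, hdz]
    unfold tq
    rw [← hL]
    have : Δ * L = 1 / (2 * Real.pi) * (ord (n + k) * L - ord n * L) := by rw [hΔ]; field_simp
    rw [this]
    ring
  rw [e, abs_of_nonneg (mul_nonneg (by positivity) hr3)]
  have h4 : 1 / (2 * Real.pi) * (ord (n + k) * (Real.log (ord (n + k)) - L)) ≤ 1 / (2 * Real.pi) * (2 * (2 * Real.pi * Δ)) :=
    mul_le_mul_of_nonneg_left hr2 (by positivity)
  have h5 : 1 / (2 * Real.pi) * (2 * (2 * Real.pi * Δ)) = 2 * Δ := by field_simp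
  linarith

lemma nc_eq' (m : ℕ) (P Q : ℕ → Prop) [DecidablePred Q] (h : ∀ j, P j ↔ Q j) :
    {j : ℕ | 1 ≤ j ∧ j ≤ m ∧ P j}.ncard = ((Finset.Icc 1 m).filter Q).card := by
  have e : {j : ℕ | 1 ≤ j ∧ j ≤ m ∧ P j} = ((Finset.Icc 1 m).filter Q : Finset ℕ) := by
    ext j
    simp only [mem_ofPred_eq, Finset.coe_filter, Finset.mem_Icc, and_assoc, h]
  rw [e, Set.ncard_coe_finset]

/-- good at the scale `m`, for a sequence of deviations -/
def Gs (ε : ℝ) (m : ℕ) (f : ℕ → ℝ) : Prop :=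
  (∀ k : ℕ, 1 ≤ k → k ≤ m → |f k| ≤ (1 / Real.pi + ε) * Real.log m) ∧
  (∀ a : ℝ, 0 ≤ a → a ≤ 1 - ε →
    (m : ℝ) ^ (1 - a ^ 2 - ε) ≤ ({k : ℕ | 1 ≤ k ∧ k ≤ m ∧ a / Real.pi * Real.log m ≤ f k}.ncard : ℝ)) ∧
  (∀ a : ℝ, 0 ≤ a → a ≤ 1 - ε →
    (m : ℝ) ^ (1 - a ^ 2 - ε) ≤ ({k : ℕ | 1 ≤ k ∧ k ≤ m ∧ a / Real.pi * Real.log m ≤ -f k}.ncard : ℝ)) ∧
  (∀ a : ℝ, 0 ≤ a → a ≤ 1 →
    ({k : ℕ | 1 ≤ k ∧ k ≤ m ∧ a / Real.pi * Real.log m ≤ |f k|}.ncard : ℝ) ≤ (m : ℝ) ^ (1 - a ^ 2 + ε))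

/-- the transfer of the properties -/
lemma Gs_of {ε δ : ℝ} {m : ℕ} {f g : ℕ → ℝ} (hm : 1 ≤ m) (hδ : 0 < δ) (hδε : 25 * δ ≤ ε) (hε1 : ε ≤ 1)
    (c1 : 4 ≤ δ * Real.log m) (hfg : ∀ k : ℕ, 1 ≤ k → k ≤ m → |g k - f k| ≤ 1)
    (h1 : ∀ k ∈ Finset.Icc 1 m, |Real.pi * f k| ≤ (1 + δ) * Real.log m)
    (h2 : ∀ σ : ℝ, (σ = 1 ∨ σ = -1) → ∀ a : ℝ, 0 ≤ a → a ≤ 1 - 20 * δ →
      Real.exp ((1 - a ^ 2 - 20 * δ) * Real.log m) ≤
      (((Finset.Icc 1 m).filter (fun k : ℕ => a * Real.log m ≤ σ * (Real.pi * f k))).card : ℝ))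
    (h3 : ∀ a : ℝ, 0 ≤ a → a ≤ 1 →
      (((Finset.Icc 1 m).filter (fun k : ℕ => a * Real.log m ≤ |Real.pi * f k|)).card : ℝ) ≤
      Real.exp ((1 - a ^ 2 + 20 * δ) * Real.log m)) : Gs ε m g := by
  have hpi := Real.pi_pos
  have hpi3 := Real.pi_gt_three
  have hpi4 : Real.pi ≤ 4 := by linarith [Real.pi_lt_d2]
  have hm1 : (1 : ℝ) ≤ m := by exact_mod_cast hm
  have hm0 : (0 : ℝ) < m := by linarith
  have hme : Real.exp (Real.log m) = m := Real.exp_log hm0
  have hrp : ∀ x : ℝ, (m : ℝ) ^ x = Real.exp (x * Real.log m) := by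
    intro x
    rw [Real.rpow_def_of_pos hm0, mul_comm]
  unfold Gs
  simp only [hrp]
  obtain ⟨L, hL⟩ : ∃ L : ℝ, L = Real.log m := ⟨_, rfl⟩
  rw [← hL] at c1 h1 h2 h3 hme ⊢
  have hL0 : 0 < L := by
    by_contra hc
    push Not at hc
    have : δ * L ≤ 0 := mul_nonpos_of_nonneg_of_nonpos hδ.le hc
    linarith
  have hiff : ∀ a y : ℝ, a / Real.pi * L ≤ y ↔ a * L ≤ Real.pi * y := by
    intro a y
    rw [div_mul_eq_mul_div, div_le_iff₀ hpi, mul_comm y]
  have hπ1 : ∀ k : ℕ, 1 ≤ k → k ≤ m → |Real.pi * g k - Real.pi * f k| ≤ δ * L := by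
    intro k hk1 hk2
    rw [← mul_sub, abs_mul, abs_of_pos hpi]
    have := mul_le_mul_of_nonneg_left (hfg k hk1 hk2) hpi.le
    linarith
  have hlow : ∀ σ : ℝ, (σ = 1 ∨ σ = -1) → ∀ a : ℝ, 0 ≤ a → a ≤ 1 - ε →
      Real.exp ((1 - a ^ 2 - ε) * L) ≤
      (((Finset.Icc 1 m).filter (fun k : ℕ => a * L ≤ σ * (Real.pi * g k))).card : ℝ) := by
    intro σ hσ a ha ha1
    have h4 := h2 σ hσ (a + δ) (by linarith) (by linarith)
    have h5 : Real.exp ((1 - a ^ 2 - ε) * L) ≤ Real.exp ((1 - (a + δ) ^ 2 - 20 * δ) * L) := by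
      apply Real.exp_le_exp.2
      apply mul_le_mul_of_nonneg_right _ hL0.le
      have h6 : a * δ ≤ 1 * δ := mul_le_mul_of_nonneg_right (by linarith) hδ.le
      have h7 : δ * δ ≤ 1 * δ := mul_le_mul_of_nonneg_right (by linarith) hδ.le
      linarith
    refine h5.trans (h4.trans ?_)
    have h6 : ((Finset.Icc 1 m).filter (fun k : ℕ => (a + δ) * L ≤ σ * (Real.pi * f k))).card ≤
        ((Finset.Icc 1 m).filter (fun k : ℕ => a * L ≤ σ * (Real.pi * g k))).card := by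
      refine Finset.card_le_card fun k hk => ?_
      rw [Finset.mem_filter, Finset.mem_Icc] at hk ⊢
      refine ⟨hk.1, ?_⟩
      have h7 := abs_le.1 (hπ1 k hk.1.1 hk.1.2)
      have h8 := hk.2
      rcases hσ with h | h
      · rw [h] at h8 ⊢
        linarith [h7.1]
      · rw [h] at h8 ⊢
        linarith [h7.2]
    exact_mod_cast h6
  refine ⟨fun k hk1 hk2 => ?_, fun a ha ha1 => ?_, fun a ha ha1 => ?_, fun a ha ha1 => ?_⟩
  · have h4 := h1 k (Finset.mem_Icc.2 ⟨hk1, hk2⟩)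
    have h5 := hπ1 k hk1 hk2
    have h6 : |Real.pi * g k| ≤ (1 + 2 * δ) * L := by
      have := abs_le.1 h4
      have := abs_le.1 h5
      rw [abs_le]
      constructor <;> linarith
    rw [abs_mul, abs_of_pos hpi] at h6
    have h7 : (1 + 2 * δ) * L ≤ Real.pi * ((1 / Real.pi + ε) * L) := by
      have e : Real.pi * ((1 / Real.pi + ε) * L) = (1 + Real.pi * ε) * L := by field_simp
      rw [e]
      apply mul_le_mul_of_nonneg_right _ hL0.le
      have : 3 * ε ≤ Real.pi * ε := mul_le_mul_of_nonneg_right hpi3.le (by linarith)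
      linarith
    exact le_of_mul_le_mul_left (h6.trans h7) hpi
  · rw [nc_eq' m (fun k => a / Real.pi * L ≤ g k)
      (fun k : ℕ => a * L ≤ 1 * (Real.pi * g k)) (fun k => by rw [one_mul]; exact hiff a _)]
    exact hlow 1 (Or.inl rfl) a ha ha1
  · rw [nc_eq' m (fun k => a / Real.pi * L ≤ -g k)
      (fun k : ℕ => a * L ≤ (-1) * (Real.pi * g k)) (fun k => by
        rw [hiff a _, show Real.pi * -g k = -1 * (Real.pi * g k) by ring])]
    exact hlow (-1) (Or.inr rfl) a ha ha1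
  · rw [nc_eq' m (fun k => a / Real.pi * L ≤ |g k|)
      (fun k : ℕ => a * L ≤ |Real.pi * g k|) (fun k => by
        rw [hiff a _, abs_mul, abs_of_pos hpi])]
    rcases lt_or_ge a δ with hlt | hge
    · have h4 := Finset.card_filter_le (Finset.Icc 1 m) (fun k : ℕ => a * L ≤ |Real.pi * g k|)
      rw [Nat.card_Icc, Nat.add_sub_cancel] at h4
      have h5 : (((Finset.Icc 1 m).filter (fun k : ℕ => a * L ≤ |Real.pi * g k|)).card : ℝ) ≤ m := by exact_mod_cast h4
      refine h5.trans ?_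
      rw [← hme]
      apply Real.exp_le_exp.2
      have h6 : a ^ 2 ≤ δ * 1 := by
        rw [sq]
        exact mul_le_mul hlt.le ha1 ha hδ.le
      have h7 : 0 ≤ (ε - a ^ 2) * L := mul_nonneg (by linarith) hL0.le
      linarith
    · have h4 := h3 (a - δ) (by linarith) (by linarith)
      have h5 : ((Finset.Icc 1 m).filter (fun k : ℕ => a * L ≤ |Real.pi * g k|)).card ≤
          ((Finset.Icc 1 m).filter (fun k : ℕ => (a - δ) * L ≤ |Real.pi * f k|)).card := by
        refine Finset.card_le_card fun k hk => ?_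
        rw [Finset.mem_filter, Finset.mem_Icc] at hk ⊢
        refine ⟨hk.1, ?_⟩
        have h6 := hπ1 k hk.1.1 hk.1.2
        have h7 := abs_sub_abs_le_abs_sub (Real.pi * g k) (Real.pi * f k)
        linarith [hk.2]
      have h6 : Real.exp ((1 - (a - δ) ^ 2 + 20 * δ) * L) ≤ Real.exp ((1 - a ^ 2 + ε) * L) := by
        apply Real.exp_le_exp.2
        apply mul_le_mul_of_nonneg_right _ hL0.le
        have h7 : a * δ ≤ 1 * δ := mul_le_mul_of_nonneg_right ha1 hδ.le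
        have h8 := sq_nonneg δ
        linarith
      refine le_trans ?_ (h4.trans h6)
      exact_mod_cast h5

/-- good at the scale `m` -/
def GQ (X : ℕ → ℕ → ℝ) (ε : ℝ) (m n : ℕ) : Prop :=
  Gs ε m (X n) ∧ Gs ε m (fun k => cz n k) ∧ ∀ x : ℝ, 0 ≤ x → x ≤ m → |cz n x| ≤ (1 / Real.pi + ε) * Real.log m

/-- **all scales at once** -/
theorem finalq (hRH : RHs) {X : ℕ → ℕ → ℝ} (hX : Close X) {ε : ℝ} (hε : 0 < ε) : ∃ m0 : ℕ, ∀ M : ℕ, ∀ᶠ N : ℕ in atTop,
    1 - ε ≤ (1 / N : ℝ) * ({n : ℕ | 1 ≤ n ∧ n ≤ N ∧ ∀ m : ℕ, m0 ≤ m → m ≤ M → GQ X ε m n}.ncard : ℝ) := by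
  classical
  have hpi := Real.pi_pos
  have hpi3 := Real.pi_gt_three
  obtain ⟨ε', hε'd⟩ : ∃ ε' : ℝ, ε' = min 1 ε := ⟨_, rfl⟩
  have hε' : 0 < ε' := by rw [hε'd]; exact lt_min one_pos hε
  have hε'1 : ε' ≤ 1 := by rw [hε'd]; exact min_le_left _ _
  have hε'ε : ε' ≤ ε := by rw [hε'd]; exact min_le_right _ _
  obtain ⟨δ', hδ'd⟩ : ∃ δ' : ℝ, δ' = ε' / 50 := ⟨_, rfl⟩
  have hδ' : 0 < δ' := by rw [hδ'd]; positivity
  have hδ'1 : δ' ≤ 1 / 8 := by rw [hδ'd]; linarith
  obtain ⟨δ, hδd⟩ : ∃ δ : ℝ, δ = 2 * δ' := ⟨_, rfl⟩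
  have hδ : 0 < δ := by rw [hδd]; positivity
  have hδ1 : δ ≤ 1 / 4 := by rw [hδd]; linarith
  have hδε : 25 * δ ≤ ε' := by rw [hδd, hδ'd]; linarith
  have hev : ∀ᶠ m : ℕ in atTop, 4 ≤ δ * Real.log m ∧ 2 * (Real.log m + 1) ≤ Real.exp (2 * δ * Real.log m) ∧
      Real.log m + 1 ≤ m := by
    have h1 := log_nat_atTop.eventually ((poly_exp 2 1 (κ := 2 * δ) (by positivity)).and (eventually_ge_atTop (max 2 (4 / δ))))
    filter_upwards [h1, eventually_ge_atTop 1] with m hm hm1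
    obtain ⟨a1, a2⟩ := hm
    have a3 : 4 / δ ≤ Real.log m := (le_max_right _ _).trans a2
    have a4 : 2 ≤ Real.log m := (le_max_left _ _).trans a2
    rw [div_le_iff₀ hδ] at a3
    have hm0 : (0 : ℝ) < m := by exact_mod_cast hm1
    have a5 := Real.add_one_le_exp (Real.log m)
    rw [Real.exp_log hm0] at a5
    refine ⟨by linarith, ?_, a5⟩
    rw [pow_one] at a1
    linarith
  obtain ⟨i2, hi2⟩ := exists_nat_ge (8 / δ')
  rw [div_le_iff₀ hδ'] at hi2
  obtain ⟨m1, hm1⟩ := hev.exists_forall_of_atTop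
  obtain ⟨i0, hi0, hall⟩ := allq hRH (ε := δ') hδ' (by linarith) (max i2 m1)
  have hi0a : i2 ≤ i0 := (le_max_left _ _).trans hi0
  have hi0b : m1 ≤ i0 := (le_max_right _ _).trans hi0
  refine ⟨2 ^ i0, fun M => ?_⟩
  -- the small indices
  obtain ⟨n0, hn0⟩ := (SG.ord_tendsto.eventually_ge_atTop (Real.exp (6 * ((M : ℝ) + 1)))).exists_forall_of_atTop
  filter_upwards [hall M, eventually_ge_atTop 1,
    tendsto_natCast_atTop_atTop.eventually_ge_atTop ((n0 : ℝ) * (2 / ε'))] with N hN hN1 hN2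
  have hN0 : (0 : ℝ) < N := by exact_mod_cast hN1
  have h1 := hN (Classical.decPred _)
  rw [nc_eq' N (fun n => ∀ m : ℕ, 2 ^ i0 ≤ m → m ≤ M → GQ X ε m n) (fun n => ∀ m : ℕ, 2 ^ i0 ≤ m → m ≤ M → GQ X ε m n)
    (fun _ => Iff.rfl)]
  have hkey : ∀ n : ℕ, 1 ≤ n → n0 ≤ n → DG δ' i0 M n → ∀ m : ℕ, 2 ^ i0 ≤ m → m ≤ M → GQ X ε m n := by
    intro n hn1 hnn hDG m hm0 hmM
    have hmpos : 1 ≤ m := (Nat.one_le_two_pow).trans hm0
    have hmne : m ≠ 0 := by omega
    obtain ⟨i, hi⟩ : ∃ i : ℕ, i = Nat.log 2 m := ⟨_, rfl⟩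
    have hia : 2 ^ i ≤ m := by rw [hi]; exact Nat.pow_log_le_self 2 hmne
    have hib : m < 2 ^ (i + 1) := by rw [hi]; exact Nat.lt_pow_succ_log_self (by norm_num) m
    have hic : i0 ≤ i := by
      rw [hi]
      exact Nat.le_log_of_pow_le (by norm_num) hm0
    have hid : i + 1 ≤ M := by
      have := Nat.lt_two_pow_self (n := i)
      omega
    have hiδ : 8 ≤ δ' * i := by
      have : (i2 : ℝ) ≤ i := by exact_mod_cast hi0a.trans hic
      have := mul_le_mul_of_nonneg_right this hδ'.le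
      linarith
    have hGW : GW δ m n := by
      rw [hδd]
      exact interp hδ' (by linarith) hiδ (hDG i (Finset.mem_Icc.2 ⟨hic, by omega⟩))
        (hDG (i + 1) (Finset.mem_Icc.2 ⟨by omega, hid⟩)) hia hib.le
    obtain ⟨c1, c2, c3⟩ := hm1 m (hi0b.trans ((Nat.lt_two_pow_self (n := i0)).le.trans hm0))
    have hlo : 6 * (((M + 1 : ℕ)) : ℝ) ≤ Real.log (ord n) := by
      have h2 := hn0 n hnn
      rw [← Real.log_exp (6 * (((M + 1 : ℕ)) : ℝ))]
      apply Real.log_le_log (Real.exp_pos _)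
      push_cast
      exact h2
    have hlo0 : 0 < Real.log (ord n) := by
      have : (0 : ℝ) < 6 * (((M + 1 : ℕ)) : ℝ) := by positivity
      linarith
    have hL0 : 0 < Real.log m := by
      by_contra hc
      push Not at hc
      have : δ * Real.log m ≤ 0 := mul_nonpos_of_nonneg_of_nonpos hδ.le hc
      linarith
    have hmr : (m : ℝ) ≤ M := by exact_mod_cast hmM
    obtain ⟨⟨a1, a2, a3, a4, a5⟩, a6⟩ := hGW
    have hG2 : Gs ε' m (X n) := by
      apply Gs_of (f := fun k => dz n k) hmpos hδ hδε hε'1 c1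
      · intro k hk1 hk2
        apply hX n k (M + 1) hn1 (by omega) (by omega) hlo
        have h2 := (abs_le.1 (a4 k (Finset.mem_Icc.2 ⟨hk1, hk2⟩))).2
        have h3 : (1 + δ) * Real.log m ≤ Real.pi * (M + 1) := by
          have : (1 + δ) * Real.log m ≤ 2 * Real.log m := mul_le_mul_of_nonneg_right (by linarith) hL0.le
          have : (3 : ℝ) * (M + 1) ≤ Real.pi * (M + 1) := mul_le_mul_of_nonneg_right hpi3.le (by positivity)
          linarith
        have h4 : dz n k ≤ (M : ℝ) + 1 := le_of_mul_le_mul_left (h2.trans h3) hpi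
        push_cast
        exact h4
      · exact a4
      · intro σ hσ a ha ha1
        exact dz_low hδ hδ1 hn1 hlo0 ⟨⟨a1, a2, a3, a4, a5⟩, a6⟩ c1 c2 c3 σ hσ a ha ha1
      · intro a ha ha1
        exact dz_upp hδ hδ1 hmpos hn1 hlo0 ⟨⟨a1, a2, a3, a4, a5⟩, a6⟩ c1 c2 a ha ha1
    have hG3 : Gs ε' m (fun k => cz n k) := by
      apply Gs_of (f := fun k => cz n k) hmpos hδ hδε hε'1 c1
      · intro k hk1 hk2
        simp
      · intro k hk
        rw [Finset.mem_Icc] at hk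
        exact a1 k (Nat.cast_nonneg k) (by exact_mod_cast hk.2)
      · intro σ hσ a ha ha1
        refine le_trans ?_ (a2 σ hσ a ha (by linarith))
        apply Real.exp_le_exp.2
        apply mul_le_mul_of_nonneg_right _ hL0.le
        linarith
      · intro a ha ha1
        refine (a3 a ha ha1).trans ?_
        apply Real.exp_le_exp.2
        apply mul_le_mul_of_nonneg_right _ hL0.le
        linarith
    have hmono : ∀ f : ℕ → ℝ, Gs ε' m f → Gs ε m f := by
      intro f hf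
      have hm1' : (1 : ℝ) ≤ m := by exact_mod_cast hmpos
      obtain ⟨b1, b2, b3, b4⟩ := hf
      refine ⟨fun k hk1 hk2 => (b1 k hk1 hk2).trans ?_, fun a ha ha1 => le_trans ?_ (b2 a ha (by linarith)),
        fun a ha ha1 => le_trans ?_ (b3 a ha (by linarith)), fun a ha ha1 => (b4 a ha ha1).trans ?_⟩
      · apply mul_le_mul_of_nonneg_right _ hL0.le
        linarith
      · exact Real.rpow_le_rpow_of_exponent_le hm1' (by linarith)
      · exact Real.rpow_le_rpow_of_exponent_le hm1' (by linarith)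
      · exact Real.rpow_le_rpow_of_exponent_le hm1' (by linarith)
    refine ⟨hmono _ hG2, hmono _ hG3, fun x hx0 hx => ?_⟩
    have h6 := a1 x hx0 hx
    rw [abs_mul, abs_of_pos hpi] at h6
    have h7 : (1 + δ) * Real.log m ≤ Real.pi * ((1 / Real.pi + ε) * Real.log m) := by
      have e : Real.pi * ((1 / Real.pi + ε) * Real.log m) = (1 + Real.pi * ε) * Real.log m := by field_simp
      rw [e]
      apply mul_le_mul_of_nonneg_right _ hL0.le
      have : 3 * ε ≤ Real.pi * ε := mul_le_mul_of_nonneg_right hpi3.le (by linarith)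
      linarith
    exact le_of_mul_le_mul_left (h6.trans h7) hpi
  obtain ⟨Gd, hGd⟩ : ∃ Gd : Finset ℕ, Gd = (Finset.Icc 1 N).filter (fun n => ∀ m : ℕ, 2 ^ i0 ≤ m → m ≤ M → GQ X ε m n) := ⟨_, rfl⟩
  obtain ⟨Bd, hBd⟩ : ∃ Bd : Finset ℕ, Bd = (Finset.Icc 1 N).filter (fun n => ¬ DG δ' i0 M n) := ⟨_, rfl⟩
  have h5 : (Bd.card : ℝ) ≤ 2 * δ' * N := by
    rw [hBd]
    convert h1
  have hcov : Finset.Icc 1 N ⊆ (Gd ∪ Bd) ∪ Finset.range n0 := by
    intro n hn
    rw [Finset.mem_union, Finset.mem_union]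
    by_cases hnn : n0 ≤ n
    · left
      by_cases hD : DG δ' i0 M n
      · left
        rw [hGd, Finset.mem_filter]
        exact ⟨hn, hkey n (Finset.mem_Icc.1 hn).1 hnn hD⟩
      · right
        rw [hBd, Finset.mem_filter]
        exact ⟨hn, hD⟩
    · right
      rw [Finset.mem_range]
      omega
  have h6 := Finset.card_le_card hcov
  have h7 := Finset.card_union_le (Gd ∪ Bd) (Finset.range n0)
  have h8 := Finset.card_union_le Gd Bd
  rw [Nat.card_Icc, Nat.add_sub_cancel] at h6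
  rw [Finset.card_range] at h7
  have h9 : (N : ℝ) ≤ Gd.card + Bd.card + n0 := by
    have : N ≤ Gd.card + Bd.card + n0 := by omega
    exact_mod_cast this
  have h10 : (n0 : ℝ) ≤ ε' / 2 * N := by
    have : ε' / 2 * ((n0 : ℝ) * (2 / ε')) ≤ ε' / 2 * N := mul_le_mul_of_nonneg_left hN2 (by positivity)
    have e : ε' / 2 * ((n0 : ℝ) * (2 / ε')) = n0 := by field_simp
    linarith
  have h11 : 2 * δ' * N ≤ ε' / 2 * N := by
    apply mul_le_mul_of_nonneg_right _ hN0.le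
    linarith
  have h12 : ε' * N ≤ ε * N := mul_le_mul_of_nonneg_right hε'ε hN0.le
  rw [← hGd, one_div, inv_mul_eq_div, le_div_iff₀ hN0]
  linarith

end

end Run7.h435.MD
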