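import Pool.Agent.Run7.h435.MDj

/-! # The number of high points of the prime sum -/

set_option autoImplicit false

namespace Run7.h435.MD

open Filter Topology MeasureTheory Set
open Pool.Agent.Y743.CL (Pr mem_Pr)

noncomputable section
/-- **lower bound for the number of high points** -/
theorem low_q {δ α η : ℝ} (hδ : 0 < δ) (hδ1 : δ < 1 / 2) (hα : 0 ≤ α) (hα1 : α ≤ 1) (hη : 0 < η) (σ : ℝ)
    (hσ : σ = 1 ∨ σ = -1) : ∀ᶠ m : ℕ in atTop, ∀ᶠ T : ℝ in atTop,
      PT T {t | (((Finset.Icc 1 m).filter (fun j : ℕ => (α * (1 - 2 * δ) - η) * Real.log m ≤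
        σ * Pm δ (Real.log m) T (t + 2 * Real.pi * j / Real.log T))).card : ℝ) <
        Real.exp ((1 - α ^ 2 - η) * Real.log m)} ≤ Real.exp (-(δ / 4 * Real.log m)) * T := by
  obtain ⟨K, hKd⟩ : ∃ K : ℕ, K = ⌈2 / δ⌉₊ + 1 := ⟨_, rfl⟩
  have hK : 1 ≤ K := by omega
  have hK0 : (0 : ℝ) < K := by exact_mod_cast hK
  have hKδ : 2 ≤ K * δ := by
    have h1 := Nat.le_ceil (2 / δ)
    have h2 : (K : ℝ) = ⌈2 / δ⌉₊ + 1 := by rw [hKd]; push_cast; ring
    have h3 : 2 / δ ≤ K := by linarith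
    rwa [div_le_iff₀ hδ] at h3
  have hα2 : α ^ 2 ≤ 1 := pow_le_one₀ hα hα1
  have hσ2 : σ * σ = 1 := by rcases hσ with h | h <;> rw [h] <;> norm_num
  -- the conditions
  have c1 := poly_exp (576 * K) 0 (κ := δ / 4) (by positivity)
  have c2 := poly_exp (32 * (Real.exp (9 * K / 2) * (3 + 5 * K))) K (κ := δ / 4) (by positivity)
  have c3 := poly_exp (96 * (2 + 2 ^ (K + 1))) (2 * K) (κ := 1 / 2) (by norm_num)
  have c4 := poly_exp 4 K (κ := 1) one_pos
  have c5 := poly_exp 4 K (κ := η) hη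
  have c6 := poly_exp 600 2 (κ := δ) hδ
  have c7 := poly_exp 2 0 (κ := δ / 2) (by positivity)
  have hev := (c1.and (c2.and (c3.and (c4.and (c5.and (c6.and (c7.and
    ((eventually_ge_atTop (1 : ℝ)).and (eventually_ge_atTop (4 * K / η ^ 2)))))))))) 
  filter_upwards [log_nat_atTop.eventually hev, eventually_ge_atTop 1] with m hm hm1
  obtain ⟨d1, d2, d3, d4, d5, d6, d7, d8, d9⟩ := hm
  obtain ⟨L, hLd⟩ : ∃ L : ℝ, L = Real.log m := ⟨_, rfl⟩
  rw [← hLd] at d1 d2 d3 d4 d5 d6 d7 d8 d9 ⊢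
  have hm0 : (0 : ℝ) < m := by exact_mod_cast hm1
  have hmL : (m : ℝ) = Real.exp L := by rw [hLd, Real.exp_log hm0]
  have hL0 : 0 < L := by linarith
  obtain ⟨τ, hτd⟩ : ∃ τ : ℝ, τ = tm δ L K := ⟨_, rfl⟩
  have hτ0 : 0 < τ := by
    rw [hτd]
    unfold tm
    have : 0 < 1 - 2 * δ := by linarith
    positivity
  have hKτ : 2 * τ * K = (1 - 2 * δ) * L := by
    rw [hτd]
    unfold tm
    field_simp
  have hKτL : 2 * τ * K ≤ L := by
    rw [hKτ]
    have := mul_nonneg hδ.le hL0.le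
    linarith
  have hτL : τ ≤ L := by
    have h1 : (1 : ℝ) ≤ K := by exact_mod_cast hK
    have h2 := mul_le_mul_of_nonneg_left h1 hτ0.le
    linarith
  obtain ⟨x, hxd⟩ : ∃ x : ℝ, x = σ * (2 * α * τ) := ⟨_, rfl⟩
  have hx2 : x ^ 2 = 4 * α ^ 2 * τ ^ 2 := by
    rw [hxd]
    have : (σ * (2 * α * τ)) ^ 2 = (σ * σ) * (4 * α ^ 2 * τ ^ 2) := by ring
    rw [this, hσ2, one_mul]
  have hx4 : x ^ 2 ≤ 4 * (1 + τ) ^ 2 := by
    rw [hx2]
    have h1 : α ^ 2 * τ ^ 2 ≤ 1 * τ ^ 2 := mul_le_mul_of_nonneg_right hα2 (sq_nonneg τ)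
    linarith
  have ha : 0 < am δ L := Real.exp_pos _
  have htop : ue (am δ L) τ K = bm δ L := by rw [hτd]; exact ue_top hK
  have hb : ue (am δ L) τ K < 1 := by
    rw [htop]
    unfold bm
    rw [Real.exp_lt_one_iff]
    have : 0 < δ * L := by positivity
    linarith
  obtain ⟨n, hnd⟩ : ∃ n : ℕ, n = ⌊Real.exp (δ * L) / 4⌋₊ := ⟨_, rfl⟩
  have hn1 : (n : ℝ) ≤ Real.exp (δ * L) / 4 := by rw [hnd]; exact Nat.floor_le (by positivity)
  have hn2 : Real.exp (δ * L) / 4 - 1 ≤ n := by rw [hnd]; exact (Nat.sub_one_lt_floor _).le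
  have hn : 4 * n * ue (am δ L) τ K ≤ 1 := by
    rw [htop]
    unfold bm
    calc 4 * (n : ℝ) * Real.exp (-(δ * L)) ≤ 4 * (Real.exp (δ * L) / 4) * Real.exp (-(δ * L)) := by gcongr
      _ = Real.exp (δ * L) * Real.exp (-(δ * L)) := by ring
      _ = 1 := by rw [← Real.exp_add]; simp
  have hLL : L ≤ L ^ 2 := le_self_pow₀ d8 two_ne_zero
  have hn144 : 144 * L ^ 2 ≤ n := by linarith [sq_nonneg L]
  have hn3 : 3 * L ≤ n := by linarith
  have hn4 : 3 * L ≤ n / (48 * τ) := by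
    rw [le_div_iff₀ (by positivity)]
    have := mul_le_mul_of_nonneg_left hτL hL0.le
    linarith
  have hM : (2 : ℝ) ≤ Real.exp (δ / 2 * L) := by simpa using d7
  have he := e1_pos hτ0.le x
  have hE := e1_low (L := L) hτ0.le hτL hx2
  obtain ⟨e, hed⟩ : ∃ e : ℝ, e = e1 τ x ^ K := ⟨_, rfl⟩
  have he0 : 0 < e := by rw [hed]; positivity
  have he2K : e1 τ x ^ (2 * K) = e ^ 2 := by rw [hed, ← pow_mul, mul_comm]
  have hEK : e⁻¹ ≤ (1 + L) ^ K * Real.exp (α ^ 2 * L) := by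
    rw [hed, ← inv_pow]
    calc (e1 τ x)⁻¹ ^ K ≤ ((1 + L) * Real.exp (2 * α ^ 2 * τ)) ^ K := pow_le_pow_left₀ (inv_nonneg.2 he.le) hE _
      _ = (1 + L) ^ K * Real.exp (α ^ 2 * (2 * τ * K)) := by
          rw [mul_pow, ← Real.exp_nat_mul]
          congr 2
          ring
      _ ≤ _ := by gcongr
  have hEK1 : e⁻¹ ≤ (1 + L) ^ K * Real.exp L := by
    refine hEK.trans ?_
    gcongr
    exact mul_le_of_le_one_left hL0.le hα2
  obtain ⟨E, hEd⟩ : ∃ E : ℝ, E = Real.exp (-(δ / 4 * L)) := ⟨_, rfl⟩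
  have hE0 : 0 < E := by rw [hEd]; exact Real.exp_pos _
  have hE2 : Real.exp (δ / 2 * L) = Real.exp (δ / 4 * L) * Real.exp (δ / 4 * L) := by
    rw [← Real.exp_add]; congr 1; ring
  have hE4 : E * Real.exp (δ / 4 * L) = 1 := by rw [hEd, ← Real.exp_add]; simp
  rw [← hEd]
  have hch := cheb (K := K) (N := m) ha hτ0 hb n hn hM hx4 hm1 (e1 τ x ^ (2 * K) * (E / 48)) (by positivity)
  filter_upwards [hch, eventually_ge_atTop 0] with T hT hT0
  refine le_trans (PT_mono fun t _ ht => ?_) (hT.trans ?_)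
  · -- the deterministic part
    simp only [Set.mem_ofPred_eq] at ht ⊢
    by_contra hcon
    push Not at hcon
    rw [← hed] at hcon
    have h1 := det_low he0 hm1 hcon
    have h2 : ((Finset.Icc 1 m).filter (fun j => e / 4 ≤ Ph K (am δ L) τ x T j t)).card ≤
        ((Finset.Icc 1 m).filter (fun j : ℕ => (α * (1 - 2 * δ) - η) * L ≤
        σ * Pm δ L T (t + 2 * Real.pi * j / Real.log T))).card := by
      refine Finset.card_le_card fun j hj => ?_
      rw [Finset.mem_filter] at hj ⊢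
      refine ⟨hj.1, ?_⟩
      have h3 : Real.log (4 / e) ≤ 2 * L := by
        rw [Real.log_le_iff_le_exp (by positivity), div_eq_mul_inv]
        calc 4 * e⁻¹ ≤ 4 * ((1 + L) ^ K * Real.exp L) := by gcongr
          _ = (4 * (1 + L) ^ K) * Real.exp L := by ring
          _ ≤ Real.exp (1 * L) * Real.exp L := by gcongr
          _ = Real.exp (2 * L) := by rw [← Real.exp_add]; congr 1; ring
      have h4 := high_of_Ph ha hτ0.le he0 hj.2 h3
      rw [htop] at h4
      have h5 : Real.sqrt (2 * K * (2 * L)) ≤ η * L := by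
        rw [Real.sqrt_le_left (by positivity)]
        rw [div_le_iff₀ (by positivity)] at d9
        have : (η * L) ^ 2 = (L * η ^ 2) * L := by ring
        rw [this]
        have := mul_le_mul_of_nonneg_right d9 hL0.le
        linarith
      have h6 := abs_le.1 (h4.trans h5)
      have h7 : σ * (K * x) = α * (1 - 2 * δ) * L := by
        rw [hxd]
        calc σ * (K * (σ * (2 * α * τ))) = (σ * σ) * (α * (2 * τ * K)) := by ring
          _ = _ := by rw [hσ2, hKτ]; ring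
      obtain ⟨P, hP⟩ : ∃ P : ℝ, P = Pm δ L T (t + 2 * Real.pi * j / Real.log T) := ⟨_, rfl⟩
      have h8 : Yl (bm δ L) (am δ L) (bm δ L) T (t + 2 * Real.pi * j / Real.log T) = P := by rw [hP]; rfl
      rw [h8] at h6
      rw [← hP]
      rcases hσ with h | h
      · rw [h, one_mul] at h7 ⊢
        linarith [h6.1]
      · rw [h] at h7 ⊢
        linarith [h6.2]
    have h3 : Real.exp ((1 - α ^ 2 - η) * L) ≤ m * e / 4 := by
      rw [hmL, le_div_iff₀ (by norm_num)]
      have h4 : Real.exp ((1 - α ^ 2 - η) * L) * 4 * e⁻¹ ≤ Real.exp L := by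
        calc Real.exp ((1 - α ^ 2 - η) * L) * 4 * e⁻¹ ≤
            Real.exp ((1 - α ^ 2 - η) * L) * 4 * ((1 + L) ^ K * Real.exp (α ^ 2 * L)) := by gcongr
          _ = Real.exp ((1 - α ^ 2 - η) * L) * (4 * (1 + L) ^ K) * Real.exp (α ^ 2 * L) := by ring
          _ ≤ Real.exp ((1 - α ^ 2 - η) * L) * Real.exp (η * L) * Real.exp (α ^ 2 * L) := by gcongr
          _ = Real.exp L := by rw [← Real.exp_add, ← Real.exp_add]; congr 1; ring
      calc Real.exp ((1 - α ^ 2 - η) * L) * 4 = (Real.exp ((1 - α ^ 2 - η) * L) * 4 * e⁻¹) * e := by field_simp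
        _ ≤ Real.exp L * e := by gcongr
    have h4 : (((Finset.Icc 1 m).filter (fun j => e / 4 ≤ Ph K (am δ L) τ x T j t)).card : ℝ) ≤
        (((Finset.Icc 1 m).filter (fun j : ℕ => (α * (1 - 2 * δ) - η) * L ≤
        σ * Pm δ L T (t + 2 * Real.pi * j / Real.log T))).card : ℝ) := by exact_mod_cast h2
    linarith
  · refine mul_le_mul_of_nonneg_right ?_ hT0
    have hRR := RR_small (N := m) hδ hδ1 hα hα1 hK hKδ hL0 hmL (x := x) (by rw [hx2, hτd])
    rw [← hτd] at hRR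
    rw [he2K]
    have b1 : 4 * (Real.exp (9 * K / Real.exp (δ / 2 * L)) - 1) ≤ E / 8 := by
      have h576 : 576 * (K : ℝ) ≤ Real.exp (δ / 4 * L) := by simpa using d1
      have hX1 : 1 ≤ Real.exp (δ / 4 * L) := by
        have : (1 : ℝ) ≤ K := by exact_mod_cast hK
        linarith
      obtain ⟨u, hu⟩ : ∃ u : ℝ, u = 9 * K / Real.exp (δ / 2 * L) := ⟨_, rfl⟩
      rw [← hu]
      have hu0 : 0 ≤ u := by rw [hu]; positivity
      have hu1 : 64 * u ≤ E := by
        have h1 : u * (Real.exp (δ / 4 * L) * Real.exp (δ / 4 * L)) = 9 * K := by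
          rw [hu, hE2]; field_simp
        have h2 : 64 * u * (Real.exp (δ / 4 * L) * Real.exp (δ / 4 * L)) ≤ E * (Real.exp (δ / 4 * L) * Real.exp (δ / 4 * L)) := by
          calc 64 * u * (Real.exp (δ / 4 * L) * Real.exp (δ / 4 * L)) = 576 * K := by
                rw [mul_assoc, h1]; ring
            _ ≤ Real.exp (δ / 4 * L) := h576
            _ = (E * Real.exp (δ / 4 * L)) * Real.exp (δ / 4 * L) := by rw [hE4, one_mul]
            _ = _ := by ring
        exact le_of_mul_le_mul_right h2 (by positivity)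
      have hE1 : E ≤ 1 := by
        rw [hEd, Real.exp_le_one_iff]
        have : 0 < δ / 4 * L := by positivity
        linarith
      have h3 : Real.exp u ≤ 1 + 2 * u := by
        have h4 := Real.add_one_le_exp (-u)
        have h5 : Real.exp u * Real.exp (-u) = 1 := by rw [← Real.exp_add]; simp
        have h6 : Real.exp u * (1 - u) ≤ 1 := by
          calc Real.exp u * (1 - u) ≤ Real.exp u * Real.exp (-u) := by
                apply mul_le_mul_of_nonneg_left _ (Real.exp_pos _).le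
                linarith
            _ = 1 := h5
        have h7 : 1 ≤ (1 + 2 * u) * (1 - u) := by
          have h9 : 0 ≤ u * (1 - 2 * u) := mul_nonneg hu0 (by linarith)
          linarith
        have h8 : Real.exp u * (1 - u) ≤ (1 + 2 * u) * (1 - u) := h6.trans h7
        exact le_of_mul_le_mul_right h8 (by linarith)
      linarith
    have b2 : 4 * ((Real.exp (9 * K / 2) * (3 + 5 * K)) * (1 + L) ^ K * Real.exp (-(δ / 2 * L))) ≤ E / 8 := by
      have h1 : 32 * (Real.exp (9 * K / 2) * (3 + 5 * K)) * (1 + L) ^ K ≤ Real.exp (δ / 4 * L) := d2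
      have h2 : Real.exp (δ / 4 * L) * Real.exp (-(δ / 2 * L)) = E := by
        rw [← Real.exp_add, hEd]; congr 1; ring
      calc 4 * ((Real.exp (9 * K / 2) * (3 + 5 * K)) * (1 + L) ^ K * Real.exp (-(δ / 2 * L))) =
          (32 * (Real.exp (9 * K / 2) * (3 + 5 * K)) * (1 + L) ^ K) * Real.exp (-(δ / 2 * L)) / 8 := by ring
        _ ≤ Real.exp (δ / 4 * L) * Real.exp (-(δ / 2 * L)) / 8 := by gcongr
        _ = E / 8 := by rw [h2]
    have b3 : 12 * ((2 * (1 / 4) ^ n + 2 ^ (K + 1) * Real.exp (-(n / (48 * τ)))) / e ^ 2) ≤ E / 8 := by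
      have q1 : ((1 : ℝ) / 4) ^ n ≤ Real.exp (-(3 * L)) := by
        have h1 : (1 : ℝ) / 4 ≤ Real.exp (-1) := by
          rw [Real.exp_neg, ← one_div]
          apply one_div_le_one_div_of_le (Real.exp_pos _)
          linarith [Real.exp_one_lt_d9]
        calc ((1 : ℝ) / 4) ^ n ≤ Real.exp (-1) ^ n := pow_le_pow_left₀ (by norm_num) h1 n
          _ = Real.exp (-n) := by rw [← Real.exp_nat_mul]; congr 1; ring
          _ ≤ _ := Real.exp_le_exp.2 (by linarith)
      have q2 : Real.exp (-(n / (48 * τ))) ≤ Real.exp (-(3 * L)) := Real.exp_le_exp.2 (by linarith)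
      have q3 : (e ^ 2)⁻¹ ≤ (1 + L) ^ (2 * K) * Real.exp (2 * L) := by
        rw [← inv_pow]
        calc e⁻¹ ^ 2 ≤ ((1 + L) ^ K * Real.exp L) ^ 2 := pow_le_pow_left₀ (inv_nonneg.2 he0.le) hEK1 2
          _ = _ := by
              rw [mul_pow, ← Real.exp_nat_mul, ← pow_mul, mul_comm K 2]
              norm_num
      have q4 : 12 * (2 + 2 ^ (K + 1)) * (1 + L) ^ (2 * K) ≤ Real.exp (1 / 2 * L) / 8 := by
        have : 96 * (2 + 2 ^ (K + 1)) * (1 + L) ^ (2 * K) ≤ Real.exp (1 / 2 * L) := d3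
        linarith
      rw [div_eq_mul_inv]
      calc 12 * ((2 * (1 / 4) ^ n + 2 ^ (K + 1) * Real.exp (-(n / (48 * τ)))) * (e ^ 2)⁻¹) ≤
          12 * ((2 * Real.exp (-(3 * L)) + 2 ^ (K + 1) * Real.exp (-(3 * L))) *
            ((1 + L) ^ (2 * K) * Real.exp (2 * L))) := by gcongr
        _ = (12 * (2 + 2 ^ (K + 1)) * (1 + L) ^ (2 * K)) * (Real.exp (-(3 * L)) * Real.exp (2 * L)) := by ring
        _ = (12 * (2 + 2 ^ (K + 1)) * (1 + L) ^ (2 * K)) * Real.exp (-L) := by
            rw [← Real.exp_add]; congr 2; ring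
        _ ≤ (Real.exp (1 / 2 * L) / 8) * Real.exp (-L) := by gcongr
        _ = Real.exp (-(1 / 2 * L)) / 8 := by
            rw [div_mul_eq_mul_div, ← Real.exp_add]; congr 2; ring
        _ ≤ E / 8 := by
            rw [hEd]
            have h9 : δ / 4 * L ≤ 1 / 2 * L := mul_le_mul_of_nonneg_right (by linarith) hL0.le
            have : Real.exp (-(1 / 2 * L)) ≤ Real.exp (-(δ / 4 * L)) := Real.exp_le_exp.2 (by linarith)
            linarith
    have e5 : 4 * (RR K m (am δ L) τ x (Real.exp (δ / 2 * L)) +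
        3 * (2 * (1 / 4) ^ n + 2 ^ (K + 1) * Real.exp (-(n / (48 * τ))) + e ^ 2 * (E / 48)) / e ^ 2) =
        4 * RR K m (am δ L) τ x (Real.exp (δ / 2 * L)) +
        12 * ((2 * (1 / 4) ^ n + 2 ^ (K + 1) * Real.exp (-(n / (48 * τ)))) / e ^ 2) + E / 4 := by
      field_simp
      ring
    rw [e5]
    linarith

end

end Run7.h435.MD
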