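import Pool.Agent.Run7.h435.MDba
import Pool.Agent.Run7.h435.MDw

/-! # Tools for the transfer to the zeros -/

set_option autoImplicit false

namespace Run7.h435.MD

open Filter Topology MeasureTheory Set
open SP (RHs)
open SG (NZ ord)
open Pool.Agent.Y743.NC (dev dev_nonneg dev_int var_le unit_count)

noncomputable section

lemma Pos.good {ε : ℝ} {m M n : ℕ} {T t : ℝ} (h : Pos ε m M n T t) : GZ ε m n := by
  have hL0 := h.L0
  have hε := h.hε
  have s4 := h.s4
  refine ⟨fun x hx0 hx => ?_, h.low, fun a ha ha1 => h.upp a ha ha1, h.disp, h.exd⟩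
  refine (h.one hx0 (by linarith)).trans ?_
  apply mul_le_mul_of_nonneg_right _ hL0.le
  linarith

/-- the good indices, with few repetitions of the ordinate -/
def GW (ε : ℝ) (m n : ℕ) : Prop := GZ ε m n ∧ (NZ (ord n) : ℝ) ≤ n + ε * Real.log m

lemma Pos.goodw {ε : ℝ} {m M n : ℕ} {T t : ℝ} (h : Pos ε m M n T t) : GW ε m n := by
  refine ⟨h.good, ?_⟩
  have hL0 := h.L0
  have hε := h.hε
  have h5 : NZ t + 1 ≤ n := by
    by_contra hc
    have : n ≤ NZ t := by omega
    have := (SG.ord_le_iff h.hn t).2 this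
    linarith [h.h2]
  have h5' : (NZ t : ℝ) + 1 ≤ n := by exact_mod_cast h5
  have h6 : (NZ (ord n) : ℝ) ≤ NZ (t + 2 * Real.pi * M / Real.log T) := by exact_mod_cast SG.NZ_mono h.h3
  have h7 : 0 ≤ ε * Real.log m := by positivity
  linarith [h.hR]

/-- a measurable hull -/
lemma hull (T : ℝ) (S : Set ℝ) : ∃ W : Set ℝ, MeasurableSet W ∧
    (∀ t ∈ Icc T (2 * T), (t = T ∨ t ∈ S) → t ∈ W) ∧ volume.real (W ∩ Icc T (2 * T)) ≤ PT T S := by
  refine ⟨toMeasurable volume (Ioc T (2 * T) ∩ S) ∪ {T}, (measurableSet_toMeasurable _ _).union (measurableSet_singleton T),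
    fun t ht h => ?_, ?_⟩
  · rcases h with h | h
    · exact Or.inr h
    · rcases eq_or_lt_of_le ht.1 with h1 | h1
      · exact Or.inr h1.symm
      · exact Or.inl (subset_toMeasurable _ _ ⟨⟨h1, ht.2⟩, h⟩)
  · have h1 : volume (toMeasurable volume (Ioc T (2 * T) ∩ S) ∪ {T}) ≤ volume (Ioc T (2 * T) ∩ S) := by
      refine (measure_union_le _ _).trans ?_
      rw [measure_toMeasurable, Real.volume_singleton, add_zero]
    have h2 : volume ((toMeasurable volume (Ioc T (2 * T) ∩ S) ∪ {T}) ∩ Icc T (2 * T)) ≤ volume (Ioc T (2 * T) ∩ S) :=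
      (measure_mono inter_subset_left).trans h1
    unfold PT Measure.real
    exact ENNReal.toReal_mono (PT_fin T S) h2

/-- a natural width -/
lemma exMn (C ε : ℝ) (hε : 0 < ε) : ∃ M : ℕ, 1 ≤ M ∧ C + Real.log (1 + M) ≤ (ε * M) ^ 2 := by
  have h1 : Tendsto (fun x : ℝ => (C + Real.log (1 + x)) / x ^ 2) atTop (𝓝 0) := by
    have h2 : Tendsto (fun x : ℝ => C / x ^ 2) atTop (𝓝 0) :=
      tendsto_const_nhds.div_atTop (tendsto_pow_atTop (by norm_num))
    have h3 : Tendsto (fun x : ℝ => Real.log (1 + x) / x ^ 2) atTop (𝓝 0) := by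
      have h4 : Tendsto (fun x : ℝ => 1 / x) atTop (𝓝 0) := tendsto_const_nhds.div_atTop tendsto_id
      refine squeeze_zero' ?_ ?_ h4
      · filter_upwards [eventually_ge_atTop 0] with x hx
        have := Real.log_nonneg (by linarith : 1 ≤ 1 + x)
        positivity
      · filter_upwards [eventually_gt_atTop 0] with x hx
        have h5 := Real.log_le_sub_one_of_pos (by linarith : 0 < 1 + x)
        rw [div_le_div_iff₀ (by positivity) hx]
        nlinarith
    have := h2.add h3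
    rw [add_zero] at this
    refine this.congr fun x => ?_
    rw [← add_div]
  have h2 := (h1.comp (tendsto_natCast_atTop_atTop (R := ℝ))).eventually_le_const (show (0 : ℝ) < ε ^ 2 by positivity)
  obtain ⟨M, hM1, hM2⟩ := (h2.and (eventually_ge_atTop 1)).exists
  refine ⟨M, hM2, ?_⟩
  have hM0 : (0 : ℝ) < M := by exact_mod_cast hM2
  rw [Function.comp_apply, div_le_iff₀ (by positivity)] at hM1
  rw [mul_pow]
  exact hM1

/-- the size conditions -/
lemma sizes {ε : ℝ} (hε : 0 < ε) (hε1 : ε ≤ 1 / 4) (M : ℕ) : ∀ᶠ m : ℕ in atTop, 1 ≤ m ∧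
    4 * ((M : ℝ) + 2) ≤ ε / 64 * Real.log m ∧ (M : ℝ) + 3 ≤ Real.exp (ε / 4 * Real.log m) ∧
    2 * Real.log m + M + 3 ≤ m ∧ 2 * Real.log m + 1 < Real.exp ((1 - (1 - ε) ^ 2 - ε) * Real.log m) := by
  obtain ⟨κ, hκ⟩ : ∃ κ : ℝ, κ = 1 - (1 - ε) ^ 2 - ε := ⟨_, rfl⟩
  have hκ0 : 0 < κ := by rw [hκ]; nlinarith
  have hM0 : (0 : ℝ) ≤ M := Nat.cast_nonneg M
  have hev := ((eventually_ge_atTop (64 / ε * (4 * ((M : ℝ) + 2)))).and ((eventually_ge_atTop (4 / ε * ((M : ℝ) + 3))).and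
    ((eventually_ge_atTop (M + 8 : ℝ)).and (eventually_gt_atTop (4 / κ ^ 2)))))
  filter_upwards [log_nat_atTop.eventually hev, eventually_ge_atTop 1] with m hm hm1
  obtain ⟨d1, d2, d3, d4⟩ := hm
  rw [← hκ]
  have hm0 : (0 : ℝ) < m := by exact_mod_cast hm1
  have hme : Real.exp (Real.log m) = m := Real.exp_log hm0
  obtain ⟨L, hL⟩ : ∃ L : ℝ, L = Real.log m := ⟨_, rfl⟩
  rw [← hL] at d1 d2 d3 d4 hme ⊢
  have hL8 : 8 ≤ L := by linarith
  have hq := Real.quadratic_le_exp_of_nonneg (show 0 ≤ L by linarith)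
  have hq2 := Real.quadratic_le_exp_of_nonneg (show 0 ≤ κ * L by positivity)
  have hq3 := Real.add_one_le_exp (ε / 4 * L)
  refine ⟨hm1, ?_, ?_, ?_, ?_⟩
  · have : ε / 64 * (64 / ε * (4 * ((M : ℝ) + 2))) ≤ ε / 64 * L := mul_le_mul_of_nonneg_left d1 (by positivity)
    have e : ε / 64 * (64 / ε * (4 * ((M : ℝ) + 2))) = 4 * ((M : ℝ) + 2) := by field_simp
    linarith
  · have : ε / 4 * (4 / ε * ((M : ℝ) + 3)) ≤ ε / 4 * L := mul_le_mul_of_nonneg_left d2 (by positivity)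
    have e : ε / 4 * (4 / ε * ((M : ℝ) + 3)) = (M : ℝ) + 3 := by field_simp
    linarith
  · rw [← hme]
    nlinarith
  · rw [div_lt_iff₀ (by positivity)] at d4
    have h1 : 2 * L < (κ * L) ^ 2 / 2 := by
      have : 4 * L < (L * κ ^ 2) * L := mul_lt_mul_of_pos_right d4 (by linarith)
      nlinarith
    have h2 : 0 < κ * L := by positivity
    linarith

end

end Run7.h435.MD
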