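import Pool.Agent.Run7.h435.MEt
import Pool.Agent.Run7.h435.MEw

/-! # The exceptional zeros are rare, all scales at once -/

set_option autoImplicit false

namespace Run7.h435.MD

open Filter Topology MeasureTheory Set
open SP (RHs)
open SG (NZ ord)
open Pool.Agent.Y743.NC (dev dev_nonneg dev_int var_le unit_count)

noncomputable section

/-- good at all the dyadic scales between two given ones -/
def DG (ε : ℝ) (i0 I n : ℕ) : Prop := ∀ i ∈ Finset.Icc i0 I, GW ε (2 ^ i) n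

/-- **the exceptional zeros in a dyadic block** -/
theorem zall (hRH : RHs) {ε : ℝ} (hε : 0 < ε) (hε1 : ε ≤ 1 / 4) (i1 : ℕ) : ∃ i0 : ℕ, i1 ≤ i0 ∧ ∀ I : ℕ, ∀ᶠ T : ℝ in atTop,
    ∀ _ : DecidablePred (fun n => ¬ DG ε i0 I n),
    (((Finset.Ioc (NZ T) (NZ (2 * T))).filter (fun n => ¬ DG ε i0 I n)).card : ℝ) ≤
      ε * (T * Real.log T / (2 * Real.pi)) := by
  have hpi := Real.pi_pos
  obtain ⟨δ, hδd⟩ : ∃ δ : ℝ, δ = ε / 16 := ⟨_, rfl⟩
  have hδ : 0 < δ := by rw [hδd]; positivity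
  have hδ1 : δ ≤ 1 := by rw [hδd]; linarith
  obtain ⟨C1, T1, hC1, hT1, hvar⟩ := var_le
  obtain ⟨M, hM1, hM⟩ := exMn C1 δ hδ
  obtain ⟨C2, hC2, huc⟩ := unit_count
  obtain ⟨T2, hT2, hbig⟩ := Pool.Agent.Y743.CL.big_ev (M : ℝ) C2 δ hδ
  have hM0 : (0 : ℝ) < M := by exact_mod_cast hM1
  have hM1' : (1 : ℝ) ≤ M := by exact_mod_cast hM1
  obtain ⟨c, hc, htf⟩ := tform_q hRH (ε := ε / 8) (by positivity) (by linarith)
  obtain ⟨m1, hm1⟩ := (htf.and (sizes hε hε1 M)).exists_forall_of_atTop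
  -- the ratio
  obtain ⟨q, hq⟩ : ∃ q : ℝ, q = Real.exp (-(c * Real.log 2)) := ⟨_, rfl⟩
  have hq0 : 0 < q := by rw [hq]; exact Real.exp_pos _
  have hlog2 : 0 < Real.log 2 := Real.log_pos (by norm_num)
  have hq1 : q < 1 := by
    rw [hq, Real.exp_lt_one_iff]
    have : 0 < c * Real.log 2 := by positivity
    linarith
  have hqi : ∀ i : ℕ, Real.exp (-(c * Real.log ((2 ^ i : ℕ) : ℝ))) = q ^ i := by
    intro i
    rw [hq, ← Real.exp_nat_mul]
    congr 1
    push_cast
    rw [Real.log_pow]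
    ring
  have hqlim : Tendsto (fun i : ℕ => q ^ i / (1 - q)) atTop (𝓝 0) := by
    have := (tendsto_pow_atTop_nhds_zero_of_lt_one hq0.le hq1).div_const (1 - q)
    rwa [zero_div] at this
  obtain ⟨i0, hi0a, hi0b, hi0c⟩ := ((hqlim.eventually_le_const (show (0 : ℝ) < ε / 4 by positivity)).and
    ((eventually_ge_atTop m1).and (eventually_ge_atTop i1))).exists
  have hpow : ∀ i : ℕ, i0 ≤ i → m1 ≤ 2 ^ i := by
    intro i hi
    exact hi0b.trans (hi.trans (Nat.lt_two_pow_self).le)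
  refine ⟨i0, hi0c, fun I => ?_⟩
  have hfin : ∀ᶠ T : ℝ in atTop, ∀ i ∈ Finset.Icc i0 (I + 1), PT T {t | ¬ GT (ε / 8) (2 ^ i) T t} ≤ q ^ i * T := by
    rw [Filter.eventually_all_finset]
    intro i hi
    have := (hm1 (2 ^ i) (hpow i (Finset.mem_Icc.1 hi).1)).1
    rw [hqi] at this
    exact this
  filter_upwards [hfin, eventually_ge_atTop T1, eventually_ge_atTop T2,
    Real.tendsto_log_atTop.eventually_ge_atTop (2 * ((2 ^ I : ℕ) : ℝ))] with T tf hTT1 hTT2 hTm _
  obtain ⟨g1, g2, g3, g4⟩ := hbig T hTT2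
  have hT10 : 10 ≤ T := hT2.trans hTT2
  obtain ⟨h, hh⟩ : ∃ h : ℝ, h = 2 * Real.pi / Real.log T := ⟨_, rfl⟩
  have hL0 : 0 < Real.log T := by linarith
  have hh0 : 0 < h := by rw [hh]; positivity
  obtain ⟨s, hs⟩ : ∃ s : ℝ, s = δ * M := ⟨_, rfl⟩
  have hs0 : 0 < s := by rw [hs]; positivity
  have hdev := hvar T hTT1 M hM0 g1
  have hdev1 : ∫ t in Icc T (2 * T), dev T M t ≤ T * s ^ 2 := by
    refine hdev.trans ?_
    apply mul_le_mul_of_nonneg_left _ (by linarith)
    rw [hs]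
    exact hM
  have hdev2 : (1 / s) * ∫ t in Icc T (2 * T), dev T M t ≤ s * T := by
    calc (1 / s) * ∫ t in Icc T (2 * T), dev T M t ≤ (1 / s) * (T * s ^ 2) :=
          mul_le_mul_of_nonneg_left hdev1 (by positivity)
      _ = s * T := by field_simp
  have z2 := (hm1 (2 ^ i0) (hpow i0 le_rfl)).2.2.1
  -- the crowded heights
  have hch : PT T {t | ε / 64 * Real.log ((2 ^ i0 : ℕ) : ℝ) < (NZ (t + 2 * Real.pi * M / Real.log T) : ℝ) - NZ t} ≤ δ * T := by
    have hii : IntervalIntegrable (dev T M) volume T (2 * T) := by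
      rw [intervalIntegrable_iff_integrableOn_Icc_of_le (by linarith)]
      exact dev_int _ _ _ _
    have h1 := PT_markov (T := T) (by linarith) hii (fun t => dev_nonneg _ _ t) (c := (M : ℝ) ^ 2) (by positivity)
      (S := {t | ε / 64 * Real.log ((2 ^ i0 : ℕ) : ℝ) < (NZ (t + 2 * Real.pi * M / Real.log T) : ℝ) - NZ t}) (by
        intro t _ ht
        have ht : ε / 64 * Real.log ((2 ^ i0 : ℕ) : ℝ) < (NZ (t + 2 * Real.pi * M / Real.log T) : ℝ) - NZ t := ht
        unfold dev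
        apply pow_le_pow_left₀ hM0.le
        linarith)
    rw [intervalIntegral.integral_of_le (by linarith), ← integral_Icc_eq_integral_Ioc] at h1
    refine h1.trans ?_
    rw [div_le_iff₀ (by positivity)]
    refine hdev1.trans ?_
    rw [hs]
    have h2 : δ ^ 2 ≤ δ := by nlinarith
    calc T * (δ * M) ^ 2 = δ ^ 2 * (T * M ^ 2) := by ring
      _ ≤ δ * (T * M ^ 2) := mul_le_mul_of_nonneg_right h2 (by positivity)
      _ = δ * T * M ^ 2 := by ring
  obtain ⟨S0, hS0⟩ : ∃ S0 : Set ℝ, S0 = {t | ∃ i ∈ Finset.Icc i0 (I + 1), t ∈ {t | ¬ GT (ε / 8) (2 ^ i) T t}} ∪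
    {t | ε / 64 * Real.log ((2 ^ i0 : ℕ) : ℝ) < (NZ (t + 2 * Real.pi * M / Real.log T) : ℝ) - NZ t} := ⟨_, rfl⟩
  have hS0v : PT T S0 ≤ (ε / 4 + δ) * T := by
    rw [hS0]
    have a1 := PT_union T {t | ∃ i ∈ Finset.Icc i0 (I + 1), t ∈ {t | ¬ GT (ε / 8) (2 ^ i) T t}}
      {t | ε / 64 * Real.log ((2 ^ i0 : ℕ) : ℝ) < (NZ (t + 2 * Real.pi * M / Real.log T) : ℝ) - NZ t}
    have a2 := PT_biUnion T (Finset.Icc i0 (I + 1)) (fun i => {t | ¬ GT (ε / 8) (2 ^ i) T t})
    have a3 := Finset.sum_le_sum tf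
    rw [← Finset.sum_mul] at a3
    have a4 : ∑ i ∈ Finset.Icc i0 (I + 1), q ^ i ≤ q ^ i0 / (1 - q) := by
      rw [← Finset.Ico_succ_right_eq_Icc]
      exact geom_sum_Ico_le_of_lt_one hq0.le hq1
    have a5 : (∑ i ∈ Finset.Icc i0 (I + 1), q ^ i) * T ≤ ε / 4 * T :=
      mul_le_mul_of_nonneg_right (a4.trans hi0a) (by linarith)
    linarith
  obtain ⟨W, hWm, hW1, hW2⟩ := hull T S0
  -- the event
  obtain ⟨F, hF⟩ : ∃ F : Finset ℕ, F = (Finset.Ioc (NZ T) (NZ (2 * T))).filter (fun n => ¬ DG ε i0 I n) := ⟨_, rfl⟩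
  rw [← hF]
  obtain ⟨S, hS⟩ : ∃ S : Finset ℕ, S = F.filter (fun n => T + M * h ≤ ord n) := ⟨_, rfl⟩
  have hmem : ∀ n ∈ F, NZ T < n ∧ n ≤ NZ (2 * T) ∧ ¬ DG ε i0 I n := by
    intro n hn
    rw [hF, Finset.mem_filter, Finset.mem_Ioc] at hn
    exact ⟨hn.1.1, hn.1.2, hn.2⟩
  have hmemS : ∀ n ∈ S, n ∈ F ∧ T + M * h ≤ ord n := by
    intro n hn
    rw [hS, Finset.mem_filter] at hn
    exact hn
  have hpalm := Pool.Agent.X112.SD.palmG (T := T) (M := (M : ℝ)) (s := s) (by linarith) hM0 hs0 S W hWm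
    (fun n hn => by have := (hmem n (hmemS n hn).1).1; omega)
    (fun n hn => by rw [← hh]; exact (hmemS n hn).2)
    (fun n hn => by
      obtain ⟨a1, a2, a3⟩ := hmem n (hmemS n hn).1
      exact (SG.ord_le_iff (by omega) _).mpr a2)
    (by
      intro n hn t ht hlt
      obtain ⟨b1, b2⟩ := hmemS n hn
      obtain ⟨a1, a2, a3⟩ := hmem n b1
      have hn1 : 1 ≤ n := by omega
      have hn2 : ord n ≤ 2 * T := (SG.ord_le_iff hn1 _).mpr a2
      rw [← hh] at ht
      have hTt : T ≤ t := by linarith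
      apply hW1 t ⟨hTt, by linarith⟩
      by_cases hgood : t ∈ S0
      · exact Or.inr hgood
      · exfalso
        rw [hS0] at hgood
        simp only [mem_union, mem_ofPred_eq, not_or, not_exists, not_and, not_not, not_lt] at hgood
        obtain ⟨c1, c3⟩ := hgood
        apply a3
        intro i hi
        rw [Finset.mem_Icc] at hi
        obtain ⟨-, z1, y2, z3, z4, z5⟩ := hm1 (2 ^ i) (hpow i hi.1)
        have hmono : Real.log ((2 ^ i0 : ℕ) : ℝ) ≤ Real.log ((2 ^ i : ℕ) : ℝ) := by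
          apply Real.log_le_log (by positivity)
          exact_mod_cast Nat.pow_le_pow_right (by norm_num) hi.1
        have hpos : Pos ε (2 ^ i) M n T t :=
          { hε := hε, hε1 := hε1, hM := hM1, hT := by linarith, h1 := hTt, h2 := hlt,
            h3 := by
              have e : 2 * Real.pi * M / Real.log T = M * h := by rw [hh]; ring
              rw [e]; exact ht
            h4 := hn2
            hm := by
              refine le_trans ?_ hTm
              apply mul_le_mul_of_nonneg_left _ (by norm_num)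
              exact_mod_cast Nat.pow_le_pow_right (by norm_num) hi.2
            hm1 := z1, hn := hn1
            hG1 := c1 i (Finset.mem_Icc.2 ⟨hi.1, by omega⟩)
            hG2 := by
              have := c1 (i + 1) (Finset.mem_Icc.2 ⟨by omega, by omega⟩)
              rwa [pow_succ, mul_comm] at this
            hR := by
              have h9 : ε / 64 * Real.log ((2 ^ i0 : ℕ) : ℝ) ≤ ε / 64 * Real.log ((2 ^ i : ℕ) : ℝ) :=
                mul_le_mul_of_nonneg_left hmono (by positivity)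
              linarith
            s2 := y2, s3 := z3, s4 := z4, s5 := z5 }
        exact hpos.goodw)
  rw [← hh] at hpalm
  have hS2 : (S.card : ℝ) ≤ T * Real.log T / (2 * Real.pi) * (ε / 4 + 2 * δ) := by
    have a1 : h * S.card ≤ (ε / 4 + 2 * δ) * T := by
      have a0 : (M : ℝ) * volume.real (W ∩ Icc T (2 * T)) ≤ M * ((ε / 4 + δ) * T) :=
        mul_le_mul_of_nonneg_left (hW2.trans hS0v) hM0.le
      have a2 : s * T = M * (δ * T) := by rw [hs]; ring
      have : M * (h * S.card) ≤ M * ((ε / 4 + 2 * δ) * T) := by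
        calc M * (h * S.card) = M * h * S.card := by ring
          _ ≤ M * volume.real (W ∩ Icc T (2 * T)) + (s * T + (1 / s) * ∫ t in Icc T (2 * T), dev T M t) / 2 := hpalm
          _ ≤ M * ((ε / 4 + δ) * T) + (s * T + s * T) / 2 := by linarith
          _ = M * ((ε / 4 + 2 * δ) * T) := by rw [a2]; ring
      exact le_of_mul_le_mul_left this hM0
    have a2 : T * Real.log T / (2 * Real.pi) * (ε / 4 + 2 * δ) = ((ε / 4 + 2 * δ) * T) / h := by
      rw [hh]; field_simp
    rw [a2, le_div_iff₀ hh0]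
    linarith
  have hrest : ((F.filter (fun n => ¬ (T + M * h ≤ ord n))).card : ℝ) ≤ C2 * Real.log T := by
    have hsub : F.filter (fun n => ¬ (T + M * h ≤ ord n)) ⊆ Finset.Ioc (NZ T) (NZ (T + 1)) := by
      intro n hn
      rw [Finset.mem_filter] at hn
      obtain ⟨b1, b2⟩ := hn
      obtain ⟨a1, a2, a3⟩ := hmem n b1
      rw [Finset.mem_Ioc]
      refine ⟨a1, (SG.ord_le_iff (by omega) _).mp ?_⟩
      push Not at b2
      rw [← hh] at g2
      linarith
    have h1 := Finset.card_le_card hsub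
    rw [Nat.card_Ioc] at h1
    have hmono : NZ T ≤ NZ (T + 1) := SG.NZ_mono (by linarith)
    have h2 : ((F.filter (fun n => ¬ (T + M * h ≤ ord n))).card : ℝ) ≤ ((NZ (T + 1) - NZ T : ℕ) : ℝ) := by
      exact_mod_cast h1
    rw [Nat.cast_sub hmono] at h2
    have h3 := huc T (by linarith)
    linarith
  have hsplit := Finset.card_filter_add_card_filter_not (s := F) (fun n => T + M * h ≤ ord n)
  have hsplit' : (F.card : ℝ) = S.card + ((F.filter (fun n => ¬ (T + M * h ≤ ord n))).card : ℝ) := by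
    rw [hS]
    exact_mod_cast hsplit.symm
  have hlog3 : C2 * Real.log T ≤ δ * (T * Real.log T / (2 * Real.pi)) := by
    have a1 : Real.log T ≤ Real.log (2 * T) := Real.log_le_log (by linarith) (by linarith)
    have a2 : C2 * Real.log T ≤ C2 * Real.log (2 * T) := mul_le_mul_of_nonneg_left a1 hC2.le
    have a3 : 0 ≤ C2 * Real.log (2 * T) := mul_nonneg hC2.le (Real.log_nonneg (by linarith))
    linarith
  have hTL : 0 ≤ T * Real.log T / (2 * Real.pi) := by positivity
  rw [hsplit']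
  have : T * Real.log T / (2 * Real.pi) * (ε / 4 + 2 * δ) + δ * (T * Real.log T / (2 * Real.pi)) ≤
      ε * (T * Real.log T / (2 * Real.pi)) := by
    have e : T * Real.log T / (2 * Real.pi) * (ε / 4 + 2 * δ) + δ * (T * Real.log T / (2 * Real.pi)) =
      (ε / 4 + 3 * δ) * (T * Real.log T / (2 * Real.pi)) := by ring
    rw [e]
    apply mul_le_mul_of_nonneg_right _ hTL
    rw [hδd]; linarith
  linarith

/-- **almost every zero is good at all scales** -/
theorem allq (hRH : RHs) {ε : ℝ} (hε : 0 < ε) (hε1 : ε ≤ 1 / 4) (i1 : ℕ) : ∃ i0 : ℕ, i1 ≤ i0 ∧ ∀ I : ℕ, ∀ᶠ N : ℕ in atTop,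
    ∀ _ : DecidablePred (fun n => ¬ DG ε i0 I n),
    (((Finset.Icc 1 N).filter (fun n => ¬ DG ε i0 I n)).card : ℝ) ≤ 2 * ε * N := by
  obtain ⟨i0, hi0, h⟩ := zall hRH hε hε1 i1
  refine ⟨i0, hi0, fun I => ?_⟩
  obtain ⟨T0, hT0⟩ := (h I).exists_forall_of_atTop
  filter_upwards [Run7.h435.GL.dyadicS ε ε (max 1 T0) hε.le (by linarith) hε (le_max_left _ _)] with N hN hdec
  have := hN (fun n => ¬ DG ε i0 I n) hdec (fun T hT => hT0 T ((le_max_right _ _).trans hT) hdec)
  linarith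

end

end Run7.h435.MD
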