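import Pool.Agent.Run7.h435.MEg

/-! # The pair counts in all intervals -/

set_option autoImplicit false

namespace Run7.h435.MD

open Filter Topology MeasureTheory Set
open SP (RHs)
open SG (NZ ord)

noncomputable section

/-- the numbers of places, in terms of exponentials -/
lemma Gs_low {δ : ℝ} {m : ℕ} {f : ℕ → ℝ} (hm : 1 ≤ m) (h : Gs δ m f) (σ : ℝ) (hσ : σ = 1 ∨ σ = -1) {a : ℝ} (ha : 0 ≤ a)
    (ha1 : a ≤ 1 - δ) (_ : DecidablePred fun k : ℕ => a / Real.pi * Real.log m ≤ σ * f k) :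
    Real.exp ((1 - a ^ 2 - δ) * Real.log m) ≤
      (((Finset.Icc 1 m).filter (fun k : ℕ => a / Real.pi * Real.log m ≤ σ * f k)).card : ℝ) := by
  have hm0 : (0 : ℝ) < m := by exact_mod_cast hm
  have e : Real.exp ((1 - a ^ 2 - δ) * Real.log m) = (m : ℝ) ^ (1 - a ^ 2 - δ) := by
    rw [Real.rpow_def_of_pos hm0]; congr 1; ring
  rw [e]
  rcases hσ with h1 | h1
  · rw [← nc_eq' m (fun k => a / Real.pi * Real.log m ≤ f k) _ (fun j => by rw [h1, one_mul])]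
    exact h.2.1 a ha ha1
  · rw [← nc_eq' m (fun k => a / Real.pi * Real.log m ≤ -f k) _ (fun j => by rw [h1]; ring_nf)]
    exact h.2.2.1 a ha ha1

lemma Gs_upp {δ : ℝ} {m : ℕ} {f : ℕ → ℝ} (hm : 1 ≤ m) (h : Gs δ m f) {a : ℝ} (ha : 0 ≤ a)
    (ha1 : a ≤ 1) (_ : DecidablePred fun k : ℕ => a / Real.pi * Real.log m ≤ |f k|) :
    (((Finset.Icc 1 m).filter (fun k : ℕ => a / Real.pi * Real.log m ≤ |f k|)).card : ℝ) ≤
      Real.exp ((1 - a ^ 2 + δ) * Real.log m) := by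
  have hm0 : (0 : ℝ) < m := by exact_mod_cast hm
  have e : Real.exp ((1 - a ^ 2 + δ) * Real.log m) = (m : ℝ) ^ (1 - a ^ 2 + δ) := by
    rw [Real.rpow_def_of_pos hm0]; congr 1; ring
  rw [e, ← nc_eq' m (fun k => a / Real.pi * Real.log m ≤ |f k|) _ (fun j => Iff.rfl)]
  exact h.2.2.2 a ha ha1

/-- **many pairs** -/
lemma pairs_low {ε δ : ℝ} {m m' : ℕ} {f : ℕ → ℝ} (hδ : 0 < δ) (hδε : 40 * δ ≤ ε) (hε1 : ε ≤ 1) (hm' : 1 ≤ m') (hmm : m' ≤ m)
    (h1 : Gs δ m f) (h2 : Gs δ m' f) (l1 : (1 - 8 * δ) * Real.log m ≤ Real.log m') (l2 : Real.log m' ≤ (1 - 4 * δ) * Real.log m)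
    (l3 : 2 ≤ δ * Real.log m) (σ : ℝ) (hσ : σ = 1 ∨ σ = -1) {a : ℝ} (ha : 0 ≤ a) (ha1 : a ≤ 1 - ε) :
    (m : ℝ) ^ (2 - 2 * a ^ 2 - ε) ≤
      ({p : ℕ × ℕ | 1 ≤ p.1 ∧ p.1 < p.2 ∧ p.2 ≤ m ∧ 2 * a / Real.pi * Real.log m ≤ σ * (f p.2 - f p.1)}.ncard : ℝ) := by
  classical
  have hpi := Real.pi_pos
  have hm1 : 1 ≤ m := hm'.trans hmm
  have hm0 : (0 : ℝ) < m := by exact_mod_cast hm1
  obtain ⟨L, hL⟩ : ∃ L : ℝ, L = Real.log m := ⟨_, rfl⟩
  obtain ⟨L', hL'⟩ : ∃ L' : ℝ, L' = Real.log m' := ⟨_, rfl⟩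
  rw [← hL, ← hL'] at l1 l2
  rw [← hL] at l3
  have hδ1 : δ ≤ 1 / 40 := by linarith
  have hL0 : 0 < L := by
    by_contra hc
    push Not at hc
    have : δ * L ≤ 0 := mul_nonpos_of_nonneg_of_nonpos hδ.le hc
    linarith
  have hL'0 : 0 < L' := by
    have : 0 < (1 - 8 * δ) * L := mul_pos (by linarith) hL0
    linarith
  -- the common threshold
  obtain ⟨b, hb⟩ : ∃ b : ℝ, b = a * L / L' := ⟨_, rfl⟩
  have hb0 : 0 ≤ b := by rw [hb]; positivity
  have hbL : b * L' = a * L := by rw [hb]; field_simp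
  have ha1' : a ≤ 1 := by linarith
  have hb1 : b ≤ 1 - δ := by
    rw [hb, div_le_iff₀ hL'0]
    have h3 : (1 - δ) * ((1 - 8 * δ) * L) ≤ (1 - δ) * L' := mul_le_mul_of_nonneg_left l1 (by linarith)
    have h4 : a * L ≤ (1 - ε) * L := mul_le_mul_of_nonneg_right ha1 hL0.le
    have h5 : (1 - ε) * L ≤ (1 - δ) * ((1 - 8 * δ) * L) := by
      have : (1 - ε) ≤ (1 - δ) * (1 - 8 * δ) := by nlinarith
      have := mul_le_mul_of_nonneg_right this hL0.le
      linarith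
    linarith
  have ethr : b / Real.pi * Real.log m' = a / Real.pi * Real.log m := by
    rw [← hL', ← hL]
    have : b / Real.pi * L' = (b * L') / Real.pi := by ring
    rw [this, hbL]
    ring
  have haLL : b ^ 2 * L' = a ^ 2 * L * (L / L') := by rw [hb]; field_simp
  have hr1 : L / L' ≤ 1 + 12 * δ := by
    rw [div_le_iff₀ hL'0]
    have h3 : (1 + 12 * δ) * ((1 - 8 * δ) * L) ≤ (1 + 12 * δ) * L' := mul_le_mul_of_nonneg_left l1 (by linarith)
    have h4 : L ≤ (1 + 12 * δ) * ((1 - 8 * δ) * L) := by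
      have : 1 ≤ (1 + 12 * δ) * (1 - 8 * δ) := by nlinarith
      have := mul_le_mul_of_nonneg_right this hL0.le
      linarith
    linarith
  have hr2 : 1 ≤ L / L' := by
    rw [le_div_iff₀ hL'0]
    have : 0 < δ * L := by positivity
    linarith
  have ha2 : a ^ 2 ≤ 1 := by nlinarith
  have ha20 : 0 ≤ a ^ 2 := sq_nonneg a
  have hσ' : -σ = 1 ∨ -σ = -1 := by
    rcases hσ with h | h
    · right; rw [h]
    · left; rw [h]; norm_num
  -- the two sets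
  obtain ⟨A, hA⟩ : ∃ A : Finset ℕ, A = (Finset.Icc 1 m').filter (fun k : ℕ => b / Real.pi * Real.log m' ≤ -σ * f k) := ⟨_, rfl⟩
  obtain ⟨B, hB⟩ : ∃ B : Finset ℕ, B = (Finset.Icc 1 m).filter (fun k : ℕ => a / Real.pi * Real.log m ≤ σ * f k) := ⟨_, rfl⟩
  obtain ⟨D, hD⟩ : ∃ D : Finset ℕ, D = (Finset.Icc 1 m').filter (fun k : ℕ => b / Real.pi * Real.log m' ≤ |f k|) := ⟨_, rfl⟩
  have cA : Real.exp ((1 - b ^ 2 - δ) * L') ≤ (A.card : ℝ) := by
    rw [hA, hL']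
    exact Gs_low hm' h2 (-σ) hσ' hb0 hb1 _
  have cB : Real.exp ((1 - a ^ 2 - δ) * L) ≤ (B.card : ℝ) := by
    rw [hB, hL]
    exact Gs_low hm1 h1 σ hσ ha (by linarith) _
  have cD : (D.card : ℝ) ≤ Real.exp ((1 - b ^ 2 + δ) * L') := by
    rw [hD, hL']
    exact Gs_upp hm' h2 hb0 (by linarith) _
  have eA : (1 - a ^ 2 - 24 * δ) * L ≤ (1 - b ^ 2 - δ) * L' := by
    have h3 : b ^ 2 * L' ≤ a ^ 2 * L * (1 + 12 * δ) := by
      rw [haLL]
      exact mul_le_mul_of_nonneg_left hr1 (by positivity)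
    have h4 : δ * L' ≤ δ * L := by
      apply mul_le_mul_of_nonneg_left _ hδ.le
      have : 0 < δ * L := by positivity
      linarith
    have h5 : a ^ 2 * L * (12 * δ) ≤ 1 * L * (12 * δ) := by gcongr
    nlinarith
  have eD : (1 - b ^ 2 + δ) * L' ≤ (1 - a ^ 2 - 3 * δ) * L := by
    have h3 : a ^ 2 * L * 1 ≤ b ^ 2 * L' := by
      rw [haLL]
      exact mul_le_mul_of_nonneg_left hr2 (by positivity)
    have h4 : δ * L' ≤ δ * L := by
      apply mul_le_mul_of_nonneg_left _ hδ.le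
      have : 0 < δ * L := by positivity
      linarith
    linarith
  have cBD : Real.exp ((1 - a ^ 2 - 2 * δ) * L) ≤ ((B \ D).card : ℝ) := by
    have h3 : (B.card : ℝ) - D.card ≤ ((B \ D).card : ℝ) := by
      have := Finset.le_card_sdiff D B
      have h4 : B.card ≤ (B \ D).card + D.card := by omega
      have h5 : (B.card : ℝ) ≤ (B \ D).card + D.card := by exact_mod_cast h4
      linarith
    have h4 : (D.card : ℝ) ≤ Real.exp ((1 - a ^ 2 - 3 * δ) * L) := cD.trans (Real.exp_le_exp.2 eD)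
    have h5 : Real.exp ((1 - a ^ 2 - 3 * δ) * L) ≤ Real.exp ((1 - a ^ 2 - 2 * δ) * L) := by
      apply Real.exp_le_exp.2
      have : 0 < δ * L := by positivity
      linarith
    have h6 : 2 * Real.exp ((1 - a ^ 2 - 2 * δ) * L) ≤ Real.exp ((1 - a ^ 2 - δ) * L) := by
      have h7 : 2 ≤ Real.exp (δ * L) := by
        have := Real.add_one_le_exp (δ * L)
        linarith
      calc 2 * Real.exp ((1 - a ^ 2 - 2 * δ) * L) ≤ Real.exp (δ * L) * Real.exp ((1 - a ^ 2 - 2 * δ) * L) := by gcongr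
        _ = _ := by rw [← Real.exp_add]; congr 1; ring
    linarith
  -- the product
  have hsub : ((A ×ˢ (B \ D) : Finset (ℕ × ℕ)) : Set (ℕ × ℕ)) ⊆
      {p : ℕ × ℕ | 1 ≤ p.1 ∧ p.1 < p.2 ∧ p.2 ≤ m ∧ 2 * a / Real.pi * Real.log m ≤ σ * (f p.2 - f p.1)} := by
    rintro ⟨i, j⟩ hp
    rw [Finset.mem_coe, Finset.mem_product] at hp
    obtain ⟨hi, hj⟩ := hp
    simp only at hi hj
    rw [hA, Finset.mem_filter, Finset.mem_Icc, ethr] at hi
    rw [Finset.mem_sdiff, hB, Finset.mem_filter, Finset.mem_Icc, hD, Finset.mem_filter, Finset.mem_Icc, ethr] at hj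
    obtain ⟨⟨i1, i2⟩, i3⟩ := hi
    obtain ⟨⟨⟨j1, j2⟩, j3⟩, j4⟩ := hj
    have j5 : m' < j := by
      by_contra hc
      push Not at hc
      apply j4
      refine ⟨⟨j1, hc⟩, j3.trans ?_⟩
      rcases hσ with h | h
      · rw [h, one_mul]; exact le_abs_self _
      · rw [h, neg_one_mul]; exact neg_le_abs _
    refine ⟨i1, lt_of_le_of_lt i2 j5, j2, ?_⟩
    show 2 * a / Real.pi * Real.log m ≤ σ * (f j - f i)
    have e : 2 * a / Real.pi * Real.log m = a / Real.pi * Real.log m + a / Real.pi * Real.log m := by ring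
    rw [e]
    linarith
  have hfin : {p : ℕ × ℕ | 1 ≤ p.1 ∧ p.1 < p.2 ∧ p.2 ≤ m ∧ 2 * a / Real.pi * Real.log m ≤ σ * (f p.2 - f p.1)}.Finite := by
    refine (Set.finite_Icc ((1, 1) : ℕ × ℕ) (m, m)).subset ?_
    rintro ⟨i, j⟩ ⟨p1, p2, p3, _⟩
    exact ⟨⟨p1, by show 1 ≤ j; simp only at p1 p2; omega⟩, ⟨by show i ≤ m; simp only at p1 p2 p3; omega, p3⟩⟩
  have hc1 := Set.ncard_le_ncard hsub hfin
  rw [Set.ncard_coe_finset, Finset.card_product] at hc1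
  have hc2 : ((A.card : ℝ) * ((B \ D).card : ℝ)) ≤
      ({p : ℕ × ℕ | 1 ≤ p.1 ∧ p.1 < p.2 ∧ p.2 ≤ m ∧ 2 * a / Real.pi * Real.log m ≤ σ * (f p.2 - f p.1)}.ncard : ℝ) := by
    exact_mod_cast hc1
  refine le_trans ?_ hc2
  rw [Real.rpow_def_of_pos hm0, ← hL]
  calc Real.exp (L * (2 - 2 * a ^ 2 - ε)) ≤ Real.exp ((1 - a ^ 2 - 24 * δ) * L + (1 - a ^ 2 - 2 * δ) * L) := by
        apply Real.exp_le_exp.2
        have : 40 * δ * L ≤ ε * L := mul_le_mul_of_nonneg_right hδε hL0.le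
        have : 0 < δ * L := by positivity
        linarith
    _ = Real.exp ((1 - a ^ 2 - 24 * δ) * L) * Real.exp ((1 - a ^ 2 - 2 * δ) * L) := Real.exp_add _ _
    _ ≤ (A.card : ℝ) * ((B \ D).card : ℝ) := by
        apply mul_le_mul _ cBD (Real.exp_pos _).le (Nat.cast_nonneg _)
        exact (Real.exp_le_exp.2 eA).trans cA

/-- **few pairs** -/
lemma pairs_upp {ε δ : ℝ} {m K : ℕ} {f : ℕ → ℝ} (hm1 : 1 ≤ m) (hδ : 0 < δ) (hδε : 8 * δ ≤ ε) (hK1 : 1 ≤ K)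
    (hK : 32 ≤ ε * K) (hKδ : Real.pi * δ * K ≤ 1) (h : Gs δ m f) (hL0 : 0 < Real.log m)
    (l3 : ((K : ℝ) + 2) ^ 2 ≤ Real.exp (ε / 2 * Real.log m)) {a : ℝ} (ha : 0 ≤ a) (ha1 : a ≤ 1) :
    ({p : ℕ × ℕ | 1 ≤ p.1 ∧ p.1 < p.2 ∧ p.2 ≤ m ∧ 2 * a / Real.pi * Real.log m ≤ |f p.2 - f p.1|}.ncard : ℝ) ≤
      (m : ℝ) ^ (2 - 2 * a ^ 2 + ε) := by
  classical
  have hpi := Real.pi_pos
  have hm0 : (0 : ℝ) < m := by exact_mod_cast hm1
  obtain ⟨L, hL⟩ : ∃ L : ℝ, L = Real.log m := ⟨_, rfl⟩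
  have hK0 : (0 : ℝ) < K := by exact_mod_cast hK1
  obtain ⟨N, hN⟩ : ∃ N : ℕ → Finset ℕ, N = fun k : ℕ => (Finset.Icc 1 m).filter (fun i : ℕ => ((k : ℝ) / K) * L ≤ Real.pi * |f i|) := ⟨_, rfl⟩
  obtain ⟨Q, hQ⟩ : ∃ Q : Finset (ℕ × ℕ), Q = ((Finset.range (K + 2)) ×ˢ (Finset.range (K + 2))).filter
    (fun q : ℕ × ℕ => 2 * a * K ≤ (q.1 : ℝ) + q.2 + 2) := ⟨_, rfl⟩
  rw [← hL] at hL0 l3 ⊢
  -- one set
  have hNc : ∀ k : ℕ, ((N k).card : ℝ) ≤ Real.exp ((1 - (min 1 ((k : ℝ) / K)) ^ 2 + δ) * L) := by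
    intro k
    have hx0 : 0 ≤ min 1 ((k : ℝ) / K) := le_min zero_le_one (by positivity)
    have h1 := Gs_upp hm1 h hx0 (min_le_left _ _) (Classical.decPred _)
    rw [hL]
    refine le_trans ?_ h1
    have : N k ⊆ (Finset.Icc 1 m).filter (fun i : ℕ => min 1 ((k : ℝ) / K) / Real.pi * Real.log m ≤ |f i|) := by
      intro i hi
      rw [hN] at hi
      rw [Finset.mem_filter] at hi ⊢
      refine ⟨hi.1, ?_⟩
      rw [div_mul_eq_mul_div, div_le_iff₀ hpi, ← hL]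
      have h3 : min 1 ((k : ℝ) / K) * L ≤ ((k : ℝ) / K) * L := mul_le_mul_of_nonneg_right (min_le_right _ _) hL0.le
      linarith [hi.2]
    exact_mod_cast Finset.card_le_card this
  have hsub : {p : ℕ × ℕ | 1 ≤ p.1 ∧ p.1 < p.2 ∧ p.2 ≤ m ∧ 2 * a / Real.pi * L ≤ |f p.2 - f p.1|} ⊆
      ((Q.biUnion fun q => N q.1 ×ˢ N q.2 : Finset (ℕ × ℕ)) : Set (ℕ × ℕ)) := by
    rintro ⟨i, j⟩ ⟨p1, p2, p3, p4⟩
    simp only at p1 p2 p3 p4
    have hidx : ∀ i : ℕ, 1 ≤ i → i ≤ m → ∃ k : ℕ, k < K + 2 ∧ i ∈ N k ∧ Real.pi * |f i| * K ≤ (k + 1) * L := by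
      intro i hi1 hi2
      obtain ⟨u, hu⟩ : ∃ u : ℝ, u = Real.pi * |f i| * K / L := ⟨_, rfl⟩
      have hu0 : 0 ≤ u := by rw [hu]; positivity
      have huL : u * L = Real.pi * |f i| * K := by rw [hu]; field_simp
      have hf := h.1 i hi1 hi2
      rw [← hL] at hf
      have hu1 : u ≤ K + 1 := by
        rw [hu, div_le_iff₀ hL0]
        have h1 : Real.pi * |f i| ≤ Real.pi * ((1 / Real.pi + δ) * L) := mul_le_mul_of_nonneg_left hf hpi.le
        have e : Real.pi * ((1 / Real.pi + δ) * L) = (1 + Real.pi * δ) * L := by field_simp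
        rw [e] at h1
        have h2 := mul_le_mul_of_nonneg_right h1 hK0.le
        have h3 := mul_le_mul_of_nonneg_right hKδ hL0.le
        linarith
      refine ⟨⌊u⌋₊, ?_, ?_, ?_⟩
      · have h1 : ⌊u⌋₊ ≤ K + 1 := by
          have : ⌊u⌋₊ ≤ ⌊(K : ℝ) + 1⌋₊ := Nat.floor_le_floor hu1
          have e : ⌊(K : ℝ) + 1⌋₊ = K + 1 := by
            rw [show (K : ℝ) + 1 = ((K + 1 : ℕ) : ℝ) by push_cast; ring, Nat.floor_natCast]
          omega
        omega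
      · rw [hN]
        rw [Finset.mem_filter, Finset.mem_Icc]
        refine ⟨⟨hi1, hi2⟩, ?_⟩
        have h1 : (⌊u⌋₊ : ℝ) ≤ u := Nat.floor_le hu0
        have h2 := mul_le_mul_of_nonneg_right h1 hL0.le
        rw [huL] at h2
        rw [div_mul_eq_mul_div, div_le_iff₀ hK0]
        exact h2
      · have h1 : u ≤ ⌊u⌋₊ + 1 := (Nat.lt_floor_add_one u).le
        have h2 := mul_le_mul_of_nonneg_right h1 hL0.le
        rw [huL] at h2
        exact h2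
    obtain ⟨k, hk1, hk2, hk3⟩ := hidx i p1 (by omega)
    obtain ⟨l, hl1, hl2, hl3⟩ := hidx j (by omega) p3
    rw [Finset.mem_coe, Finset.mem_biUnion]
    refine ⟨(k, l), ?_, ?_⟩
    · rw [hQ, Finset.mem_filter, Finset.mem_product, Finset.mem_range, Finset.mem_range]
      refine ⟨⟨hk1, hl1⟩, ?_⟩
      show 2 * a * K ≤ (k : ℝ) + l + 2
      have h1 : 2 * a / Real.pi * L ≤ |f i| + |f j| := p4.trans (by rw [add_comm]; exact abs_sub _ _)
      have h2 := mul_le_mul_of_nonneg_left h1 hpi.le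
      have e : Real.pi * (2 * a / Real.pi * L) = 2 * a * L := by field_simp
      rw [e] at h2
      have h3 := mul_le_mul_of_nonneg_right h2 hK0.le
      have h4 : 2 * a * K * L ≤ ((k : ℝ) + l + 2) * L := by linarith
      exact le_of_mul_le_mul_right h4 hL0
    · rw [Finset.mem_product]
      exact ⟨hk2, hl2⟩
  have hc1 := Set.ncard_le_ncard hsub (Finset.finite_toSet _)
  rw [Set.ncard_coe_finset] at hc1
  have hc2 : (((Q.biUnion fun q => N q.1 ×ˢ N q.2).card : ℕ) : ℝ) ≤ ∑ q ∈ Q, (((N q.1).card : ℝ) * (N q.2).card) := by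
    have := Finset.card_biUnion_le (s := Q) (t := fun q => N q.1 ×ˢ N q.2)
    simp only [Finset.card_product] at this
    exact_mod_cast this
  have hterm : ∀ q ∈ Q, ((N q.1).card : ℝ) * (N q.2).card ≤ Real.exp ((2 - 2 * a ^ 2 + ε / 2) * L) := by
    rintro ⟨k, l⟩ hq
    rw [hQ, Finset.mem_filter, Finset.mem_product, Finset.mem_range, Finset.mem_range] at hq
    obtain ⟨⟨q1, q2⟩, q3⟩ := hq
    simp only at q1 q2 q3 ⊢
    obtain ⟨w, hw⟩ : ∃ w : ℝ, w = 1 / K := ⟨_, rfl⟩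
    have hw0 : 0 < w := by rw [hw]; positivity
    have hwε : 8 * w ≤ ε / 4 := by
      rw [hw, mul_one_div, div_le_iff₀ hK0]
      linarith
    obtain ⟨x, hx⟩ : ∃ x : ℝ, x = min 1 ((k : ℝ) / K) := ⟨_, rfl⟩
    obtain ⟨y, hy⟩ : ∃ y : ℝ, y = min 1 ((l : ℝ) / K) := ⟨_, rfl⟩
    have hmin : ∀ k : ℕ, k < K + 2 → (k : ℝ) / K - w ≤ min 1 ((k : ℝ) / K) := by
      intro k hk
      apply le_min
      · have h1 : (k : ℝ) ≤ K + 1 := by exact_mod_cast (by omega : k ≤ K + 1)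
        have h2 : (k : ℝ) / K ≤ (K + 1) / K := div_le_div_of_nonneg_right h1 hK0.le
        have e : ((K : ℝ) + 1) / K = 1 + w := by rw [hw]; field_simp
        linarith
      · linarith
    have hx1 := hmin k q1
    have hy1 := hmin l q2
    rw [← hx] at hx1
    rw [← hy] at hy1
    have hx0 : 0 ≤ x := by rw [hx]; exact le_min zero_le_one (by positivity)
    have hy0 : 0 ≤ y := by rw [hy]; exact le_min zero_le_one (by positivity)
    have hxy : 2 * a - 4 * w ≤ x + y := by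
      have h1 : 2 * a - 2 * w ≤ (k : ℝ) / K + l / K := by
        rw [hw, ← add_div, le_div_iff₀ hK0]
        have e : (2 * a - 2 * (1 / (K : ℝ))) * K = 2 * a * K - 2 := by field_simp
        rw [e]
        linarith
      linarith
    have hsq : 2 * a ^ 2 - 8 * w ≤ x ^ 2 + y ^ 2 := by
      have h1 : (x + y) ^ 2 ≤ 2 * (x ^ 2 + y ^ 2) := by
        have := sq_nonneg (x - y)
        nlinarith
      rcases le_or_gt (4 * w) (2 * a) with h2 | h2
      · have h3 : (2 * a - 4 * w) ^ 2 ≤ (x + y) ^ 2 := pow_le_pow_left₀ (by linarith) hxy 2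
        have h4 : 0 ≤ w ^ 2 := sq_nonneg w
        have h5 : a * w ≤ 1 * w := mul_le_mul_of_nonneg_right ha1 hw0.le
        nlinarith
      · have h3 : a ^ 2 ≤ a * 1 := by rw [sq]; exact mul_le_mul_of_nonneg_left ha1 ha
        have h4 := sq_nonneg x
        have h5 := sq_nonneg y
        linarith
    have h1 := hNc k
    have h2 := hNc l
    rw [← hx] at h1
    rw [← hy] at h2
    calc ((N k).card : ℝ) * (N l).card ≤ Real.exp ((1 - x ^ 2 + δ) * L) * Real.exp ((1 - y ^ 2 + δ) * L) :=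
          mul_le_mul h1 h2 (Nat.cast_nonneg _) (Real.exp_pos _).le
      _ = Real.exp ((2 - (x ^ 2 + y ^ 2) + 2 * δ) * L) := by rw [← Real.exp_add]; congr 1; ring
      _ ≤ _ := by
          apply Real.exp_le_exp.2
          apply mul_le_mul_of_nonneg_right _ hL0.le
          linarith
  have hQc : (Q.card : ℝ) ≤ ((K : ℝ) + 2) ^ 2 := by
    have h1 : Q.card ≤ ((Finset.range (K + 2)) ×ˢ (Finset.range (K + 2))).card := by
      rw [hQ]; exact Finset.card_filter_le _ _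
    rw [Finset.card_product, Finset.card_range] at h1
    have h2 : (Q.card : ℝ) ≤ (((K + 2) * (K + 2) : ℕ) : ℝ) := by exact_mod_cast h1
    push_cast at h2
    linarith
  have hc3 : (({p : ℕ × ℕ | 1 ≤ p.1 ∧ p.1 < p.2 ∧ p.2 ≤ m ∧ 2 * a / Real.pi * L ≤ |f p.2 - f p.1|}.ncard : ℕ) : ℝ) ≤
      (((Q.biUnion fun q => N q.1 ×ˢ N q.2).card : ℕ) : ℝ) := by exact_mod_cast hc1
  refine hc3.trans (hc2.trans ((Finset.sum_le_sum hterm).trans ?_))
  rw [Finset.sum_const, nsmul_eq_mul, Real.rpow_def_of_pos hm0, ← hL]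
  calc (Q.card : ℝ) * Real.exp ((2 - 2 * a ^ 2 + ε / 2) * L) ≤ Real.exp (ε / 2 * L) * Real.exp ((2 - 2 * a ^ 2 + ε / 2) * L) := by
        apply mul_le_mul_of_nonneg_right _ (Real.exp_pos _).le
        exact hQc.trans l3
    _ = _ := by rw [← Real.exp_add]; congr 1; ring

/-- the deviation of the number of zeros in an interval seen from a zero -/
def ez (n : ℕ) (α β : ℝ) : ℝ := (NZ (ord n + 2 * Real.pi * β / Real.log (ord n)) : ℝ) -
  NZ (ord n + 2 * Real.pi * α / Real.log (ord n)) - (β - α)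

lemma ez_cz (n : ℕ) (α β : ℝ) : ez n α β = cz n β - cz n α := by
  unfold ez cz
  ring

/-- the intervals at the scale `m`, seen from a zero -/
def PQ (ε : ℝ) (m n : ℕ) : Prop :=
  (∀ α β : ℝ, 0 ≤ α → α ≤ β → β ≤ m → |ez n α β| ≤ (2 / Real.pi + ε) * Real.log m) ∧
  (∀ a : ℝ, 0 ≤ a → a ≤ 1 - ε → (m : ℝ) ^ (2 - 2 * a ^ 2 - ε) ≤
    ({p : ℕ × ℕ | 1 ≤ p.1 ∧ p.1 < p.2 ∧ p.2 ≤ m ∧ 2 * a / Real.pi * Real.log m ≤ ez n p.1 p.2}.ncard : ℝ)) ∧
  (∀ a : ℝ, 0 ≤ a → a ≤ 1 - ε → (m : ℝ) ^ (2 - 2 * a ^ 2 - ε) ≤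
    ({p : ℕ × ℕ | 1 ≤ p.1 ∧ p.1 < p.2 ∧ p.2 ≤ m ∧ 2 * a / Real.pi * Real.log m ≤ -ez n p.1 p.2}.ncard : ℝ)) ∧
  (∀ a : ℝ, 0 ≤ a → a ≤ 1 →
    ({p : ℕ × ℕ | 1 ≤ p.1 ∧ p.1 < p.2 ∧ p.2 ≤ m ∧ 2 * a / Real.pi * Real.log m ≤ |ez n p.1 p.2|}.ncard : ℝ) ≤
      (m : ℝ) ^ (2 - 2 * a ^ 2 + ε))

/-- **all intervals at all scales** -/
theorem finalp (hRH : RHs) {ε : ℝ} (hε : 0 < ε) : ∃ m0 : ℕ, ∀ M : ℕ, ∀ᶠ N : ℕ in atTop,
    1 - ε ≤ (1 / N : ℝ) * ({n : ℕ | 1 ≤ n ∧ n ≤ N ∧ ∀ m : ℕ, m0 ≤ m → m ≤ M → PQ ε m n}.ncard : ℝ) := by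
  classical
  have hpi := Real.pi_pos
  have hpi4 : Real.pi ≤ 4 := by linarith [Real.pi_lt_d2]
  obtain ⟨ε', hε'd⟩ : ∃ ε' : ℝ, ε' = min 1 ε := ⟨_, rfl⟩
  have hε' : 0 < ε' := by rw [hε'd]; exact lt_min one_pos hε
  have hε'1 : ε' ≤ 1 := by rw [hε'd]; exact min_le_left _ _
  have hε'ε : ε' ≤ ε := by rw [hε'd]; exact min_le_right _ _
  obtain ⟨K, hK⟩ := exists_nat_ge (32 / ε')
  rw [div_le_iff₀ hε'] at hK
  have hK0 : (0 : ℝ) < K := by
    by_contra hc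
    push Not at hc
    have : (K : ℝ) * ε' ≤ 0 := mul_nonpos_of_nonpos_of_nonneg hc hε'.le
    linarith
  have hK1 : 1 ≤ K := by
    have : 0 < K := by exact_mod_cast hK0
    omega
  obtain ⟨δ, hδd⟩ : ∃ δ : ℝ, δ = min (ε' / 40) (1 / (4 * K)) := ⟨_, rfl⟩
  have hδ : 0 < δ := by rw [hδd]; exact lt_min (by positivity) (by positivity)
  have hδε : 40 * δ ≤ ε' := by
    have : δ ≤ ε' / 40 := by rw [hδd]; exact min_le_left _ _
    linarith
  have hδK : Real.pi * δ * K ≤ 1 := by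
    have h1 : δ ≤ 1 / (4 * K) := by rw [hδd]; exact min_le_right _ _
    rw [le_div_iff₀ (by positivity)] at h1
    have h2 : Real.pi * (δ * K) ≤ 4 * (δ * K) := mul_le_mul_of_nonneg_right hpi4 (by positivity)
    linarith
  have hδ1 : δ ≤ 1 / 40 := by linarith
  obtain ⟨m0, hm0⟩ := finalq hRH close_gz hδ
  -- the smaller scale
  have hev : ∀ᶠ m : ℕ in atTop, m0 ≤ ⌊Real.exp ((1 - 4 * δ) * Real.log m)⌋₊ ∧
      2 ≤ 4 * δ * Real.log m ∧ 2 ≤ δ * Real.log m ∧ ((K : ℝ) + 2) ^ 2 ≤ Real.exp (ε' / 2 * Real.log m) ∧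
      1 ≤ ⌊Real.exp ((1 - 4 * δ) * Real.log m)⌋₊ := by
    have h1 : Tendsto (fun m : ℕ => Real.exp ((1 - 4 * δ) * Real.log m)) atTop atTop :=
      Real.tendsto_exp_atTop.comp (log_nat_atTop.const_mul_atTop (by linarith))
    have h2 : Tendsto (fun m : ℕ => ⌊Real.exp ((1 - 4 * δ) * Real.log m)⌋₊) atTop atTop := tendsto_nat_floor_atTop.comp h1
    have h3 := log_nat_atTop.eventually ((poly_exp (((K : ℝ) + 2) ^ 2) 0 (κ := ε' / 2) (by positivity)).and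
      (eventually_ge_atTop (2 / δ)))
    filter_upwards [h2.eventually_ge_atTop m0, h3, h2.eventually_ge_atTop 1] with m a1 a2 a3
    obtain ⟨a4, a5⟩ := a2
    rw [div_le_iff₀ hδ] at a5
    rw [pow_zero, mul_one] at a4
    exact ⟨a1, by linarith, by linarith, a4, a3⟩
  obtain ⟨m1, hm1⟩ := hev.exists_forall_of_atTop
  refine ⟨max m0 m1, fun M => ?_⟩
  filter_upwards [hm0 M, eventually_ge_atTop 1] with N hN hN1
  have hN0 : (0 : ℝ) < N := by exact_mod_cast hN1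
  have hsub : {n : ℕ | 1 ≤ n ∧ n ≤ N ∧ ∀ m : ℕ, m0 ≤ m → m ≤ M → GQ gz δ m n} ⊆
      {n : ℕ | 1 ≤ n ∧ n ≤ N ∧ ∀ m : ℕ, max m0 m1 ≤ m → m ≤ M → PQ ε m n} := by
    rintro n ⟨hn1, hnN, hn⟩
    refine ⟨hn1, hnN, fun m hm hmM => ?_⟩
    have hmm0 : m0 ≤ m := (le_max_left _ _).trans hm
    obtain ⟨b1, b2, b3, b4, b5⟩ := hm1 m ((le_max_right _ _).trans hm)
    obtain ⟨m', hm'⟩ : ∃ m' : ℕ, m' = ⌊Real.exp ((1 - 4 * δ) * Real.log m)⌋₊ := ⟨_, rfl⟩
    rw [← hm'] at b1 b5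
    have hL0 : 0 < Real.log m := by
      by_contra hc
      push Not at hc
      have : δ * Real.log m ≤ 0 := mul_nonpos_of_nonneg_of_nonpos hδ.le hc
      linarith
    have hmpos : (0 : ℝ) < m := by
      by_contra hc
      push Not at hc
      have h0 : (m : ℝ) = 0 := le_antisymm hc (Nat.cast_nonneg m)
      rw [h0, Real.log_zero] at hL0
      exact lt_irrefl _ hL0
    have hm1' : 1 ≤ m := by
      have : 0 < m := by exact_mod_cast hmpos
      omega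
    have hm'0 : (0 : ℝ) < m' := by
      have : (1 : ℝ) ≤ m' := by exact_mod_cast b5
      linarith
    have c1 : (m' : ℝ) ≤ Real.exp ((1 - 4 * δ) * Real.log m) := by rw [hm']; exact Nat.floor_le (Real.exp_pos _).le
    have c2 : Real.exp ((1 - 4 * δ) * Real.log m) ≤ 2 * m' := by
      have h1 : Real.exp ((1 - 4 * δ) * Real.log m) < m' + 1 := by rw [hm']; exact Nat.lt_floor_add_one _
      have h2 : (1 : ℝ) ≤ m' := by exact_mod_cast b5
      linarith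
    have l2 : Real.log m' ≤ (1 - 4 * δ) * Real.log m := by
      rw [← Real.log_exp ((1 - 4 * δ) * Real.log m)]
      exact Real.log_le_log hm'0 c1
    have l1 : (1 - 8 * δ) * Real.log m ≤ Real.log m' := by
      have h1 := Real.log_le_log (Real.exp_pos _) c2
      rw [Real.log_exp, Real.log_mul (by norm_num) hm'0.ne'] at h1
      have := Real.log_two_lt_d9
      linarith
    have hmm' : m' ≤ m := by
      have h1 : (m' : ℝ) ≤ m := by
        refine c1.trans ?_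
        calc Real.exp ((1 - 4 * δ) * Real.log m) ≤ Real.exp (Real.log m) := by
              apply Real.exp_le_exp.2
              linarith
          _ = m := Real.exp_log hmpos
      exact_mod_cast h1
    have G1 := hn m hmm0 hmM
    have G2 := hn m' b1 (hmm'.trans hmM)
    have hlow := fun (σ : ℝ) (hσ : σ = 1 ∨ σ = -1) (a : ℝ) (ha : 0 ≤ a) (ha1 : a ≤ 1 - ε') =>
      pairs_low (ε := ε') (δ := δ) (m := m) (m' := m') (f := fun k : ℕ => cz n k) hδ hδε hε'1 b5 hmm' G1.2.1 G2.2.1 l1 l2 b3 σ hσ ha ha1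
    have hmr1 : (1 : ℝ) ≤ m := by exact_mod_cast hm1'
    refine ⟨?_, ?_, ?_, ?_⟩
    · intro α β h0 hαβ hβ
      rw [ez_cz]
      have h1 := G1.2.2 β (by linarith) hβ
      have h2 := G1.2.2 α h0 (by linarith)
      refine (abs_sub _ _).trans ((add_le_add h1 h2).trans ?_)
      have h3 : (1 / Real.pi + δ) + (1 / Real.pi + δ) ≤ 2 / Real.pi + ε := by
        have e : 2 / Real.pi = 1 / Real.pi + 1 / Real.pi := by ring
        rw [e]
        linarith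
      have := mul_le_mul_of_nonneg_right h3 hL0.le
      linarith
    · intro a ha ha1
      have h1 := hlow 1 (Or.inl rfl) a ha (by linarith)
      simp only [one_mul] at h1
      simp only [ez_cz]
      refine le_trans ?_ h1
      exact Real.rpow_le_rpow_of_exponent_le hmr1 (by linarith)
    · intro a ha ha1
      have h1 := hlow (-1) (Or.inr rfl) a ha (by linarith)
      simp only [neg_one_mul] at h1
      simp only [ez_cz]
      refine le_trans ?_ h1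
      exact Real.rpow_le_rpow_of_exponent_le hmr1 (by linarith)
    · intro a ha ha1
      simp only [ez_cz]
      refine (pairs_upp (ε := ε') (δ := δ) (m := m) (K := K) (f := fun k : ℕ => cz n k) hm1' hδ (by linarith) hK1 (by linarith)
        hδK G1.2.1 hL0 b4 ha ha1).trans ?_
      exact Real.rpow_le_rpow_of_exponent_le hmr1 (by linarith)
  have hfin : {n : ℕ | 1 ≤ n ∧ n ≤ N ∧ ∀ m : ℕ, max m0 m1 ≤ m → m ≤ M → PQ ε m n}.Finite := by
    refine (Set.finite_Icc 1 N).subset ?_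
    rintro n ⟨h1, h2, _⟩
    exact ⟨h1, h2⟩
  have hc : (({n : ℕ | 1 ≤ n ∧ n ≤ N ∧ ∀ m : ℕ, m0 ≤ m → m ≤ M → GQ gz δ m n}.ncard : ℕ) : ℝ) ≤
      ({n : ℕ | 1 ≤ n ∧ n ≤ N ∧ ∀ m : ℕ, max m0 m1 ≤ m → m ≤ M → PQ ε m n}.ncard : ℝ) := by
    exact_mod_cast Set.ncard_le_ncard hsub hfin
  have hc2 := mul_le_mul_of_nonneg_left hc (by positivity : (0 : ℝ) ≤ 1 / N)
  linarith

end

end Run7.h435.MD
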