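import Pool.Agent.Run7.h435.GLi
import Mathlib.MeasureTheory.Function.Floor

/-! # Expectations of cosines of linear combinations of sums of consecutive gaps -/

set_option autoImplicit false

namespace Run7.h435.NF

open Filter Finset MeasureTheory ProbabilityTheory Topology
open Run7.h435.GL (dd vs Sg law)
open scoped Matrix RealInnerProductSpace

/-- the linear functional -/
noncomputable def lf {m : ℕ} (b : Fin m → ℝ) (x : EuclideanSpace ℝ (Fin m)) : ℝ := ∑ i, b i * x i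

lemma lf_cont {m : ℕ} (b : Fin m → ℝ) : Continuous (lf b) := by
  unfold lf
  fun_prop

lemma lf_null {m : ℕ} (b : Fin m → ℝ) (hb : b ≠ 0) (c : ℝ) :
    volume {x : EuclideanSpace ℝ (Fin m) | lf b x = c} = 0 := by
  obtain ⟨i0, hi0⟩ : ∃ i, b i ≠ 0 := by
    by_contra hcon
    push Not at hcon
    exact hb (funext hcon)
  have hpos : 0 < ∑ i, b i * b i := by
    refine Finset.sum_pos' (fun i _ => mul_self_nonneg _) ⟨i0, Finset.mem_univ _, ?_⟩
    exact mul_self_pos.2 hi0
  obtain ⟨K, hK⟩ : ∃ K : Submodule ℝ (EuclideanSpace ℝ (Fin m)), ∀ x, x ∈ K ↔ lf b x = 0 := by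
    refine ⟨{ carrier := {x | lf b x = 0}, add_mem' := ?_, zero_mem' := ?_, smul_mem' := ?_ }, fun x => Iff.rfl⟩
    · intro x y hx hy
      simp only [Set.mem_ofPred_eq, lf, PiLp.add_apply, mul_add, Finset.sum_add_distrib] at hx hy ⊢
      rw [hx, hy, add_zero]
    · simp [lf]
    · intro c x hx
      simp only [Set.mem_ofPred_eq, lf, PiLp.smul_apply, smul_eq_mul] at hx ⊢
      have e : ∑ i, b i * (c * x i) = c * ∑ i, b i * x i := by
        rw [Finset.mul_sum]
        exact Finset.sum_congr rfl fun i _ => by ring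
      rw [e, hx, mul_zero]
  have hKt : K ≠ ⊤ := by
    intro h
    have h1 : (WithLp.toLp 2 b : EuclideanSpace ℝ (Fin m)) ∈ K := by rw [h]; trivial
    rw [hK] at h1
    unfold lf at h1
    have h2 : ∑ i, b i * b i = 0 := h1
    linarith
  have hK0 := Measure.addHaar_submodule (volume : Measure (EuclideanSpace ℝ (Fin m))) K hKt
  obtain ⟨x0, hx0⟩ : ∃ x0 : EuclideanSpace ℝ (Fin m), lf b x0 = -c := by
    refine ⟨WithLp.toLp 2 (fun i => -c / (∑ i, b i * b i) * b i), ?_⟩
    unfold lf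
    have e : ∑ i, b i * (-c / (∑ i, b i * b i) * b i) = -c / (∑ i, b i * b i) * ∑ i, b i * b i := by
      rw [Finset.mul_sum]
      exact Finset.sum_congr rfl fun i _ => by ring
    show ∑ i, b i * (-c / (∑ i, b i * b i) * b i) = -c
    rw [e, div_mul_cancel₀ _ hpos.ne']
  have e : {x : EuclideanSpace ℝ (Fin m) | lf b x = c} = (fun x => x + x0) ⁻¹' (K : Set (EuclideanSpace ℝ (Fin m))) := by
    ext x
    rw [Set.mem_preimage, SetLike.mem_coe, hK]
    have h1 : lf b (x + x0) = lf b x + lf b x0 := by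
      simp only [lf, PiLp.add_apply, mul_add, Finset.sum_add_distrib]
    rw [h1, hx0]
    constructor
    · intro h
      have h' : lf b x = c := h
      linarith
    · intro h
      show lf b x = c
      linarith
  rw [e, measure_preimage_add_right]
  exact hK0

/-- the number of the cell modulo `2 π` -/
noncomputable def ce {m : ℕ} (b : Fin m → ℝ) (M : ℕ) (x : EuclideanSpace ℝ (Fin m)) : ℤ :=
  ⌊(M : ℝ) * (lf b x / (2 * Real.pi))⌋ - M * ⌊lf b x / (2 * Real.pi)⌋

lemma ce_range {m : ℕ} (b : Fin m → ℝ) (M : ℕ) (hM : 1 ≤ M) (x : EuclideanSpace ℝ (Fin m)) :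
    0 ≤ ce b M x ∧ ce b M x < M := by
  unfold ce
  obtain ⟨t, ht⟩ : ∃ t : ℝ, t = lf b x / (2 * Real.pi) := ⟨_, rfl⟩
  rw [← ht]
  have hM0 : (0 : ℝ) < M := by exact_mod_cast hM
  have h1 := Int.floor_le t
  have h2 := Int.lt_floor_add_one t
  constructor
  · have h3 : (M : ℤ) * ⌊t⌋ ≤ ⌊(M : ℝ) * t⌋ := by
      rw [Int.le_floor]
      push_cast
      exact mul_le_mul_of_nonneg_left h1 hM0.le
    omega
  · have h3 : ⌊(M : ℝ) * t⌋ < (M : ℤ) * ⌊t⌋ + M := by
      rw [Int.floor_lt]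
      push_cast
      nlinarith
    omega

lemma ce_cos {m : ℕ} (b : Fin m → ℝ) (M : ℕ) (hM : 1 ≤ M) (x : EuclideanSpace ℝ (Fin m)) :
    |Real.cos (lf b x) - Real.cos (2 * Real.pi * (ce b M x) / M)| ≤ 2 * Real.pi / M := by
  have hpi := Real.pi_pos
  have hM0 : (0 : ℝ) < M := by exact_mod_cast hM
  unfold ce
  obtain ⟨t, ht⟩ : ∃ t : ℝ, t = lf b x / (2 * Real.pi) := ⟨_, rfl⟩
  rw [← ht]
  have hx : lf b x = 2 * Real.pi * t := by rw [ht]; field_simp
  have e : Real.cos (2 * Real.pi * ((⌊(M : ℝ) * t⌋ - M * ⌊t⌋ : ℤ) : ℝ) / M) =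
      Real.cos (2 * Real.pi * ⌊(M : ℝ) * t⌋ / M) := by
    have e1 : 2 * Real.pi * ((⌊(M : ℝ) * t⌋ - M * ⌊t⌋ : ℤ) : ℝ) / M =
        2 * Real.pi * ⌊(M : ℝ) * t⌋ / M - ⌊t⌋ * (2 * Real.pi) := by
      push_cast
      field_simp
    rw [e1, Real.cos_sub_int_mul_two_pi]
  rw [e, hx]
  refine (Real.abs_cos_sub_cos_le _ _).trans ?_
  have h1 := Int.floor_le ((M : ℝ) * t)
  have h2 := Int.lt_floor_add_one ((M : ℝ) * t)
  have e2 : 2 * Real.pi * t - 2 * Real.pi * ⌊(M : ℝ) * t⌋ / M = 2 * Real.pi / M * (M * t - ⌊(M : ℝ) * t⌋) := by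
    field_simp
  rw [e2, abs_mul, abs_of_pos (by positivity), abs_of_nonneg (by linarith)]
  exact mul_le_of_le_one_right (by positivity) (by linarith)

lemma floor_loc {X : Type} [TopologicalSpace X] {f : X → ℝ} (hf : Continuous f) (x : X) (h : ∀ q : ℤ, f x ≠ q) :
    ∀ᶠ y in 𝓝 x, ⌊f y⌋ = ⌊f x⌋ := by
  have h1 : (⌊f x⌋ : ℝ) < f x := lt_of_le_of_ne (Int.floor_le _) (fun h2 => h _ h2.symm)
  have h2 := Int.lt_floor_add_one (f x)
  filter_upwards [hf.continuousAt.eventually (lt_mem_nhds h1), hf.continuousAt.eventually (gt_mem_nhds h2)]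
    with y h3 h4
  rw [Int.floor_eq_iff]
  exact ⟨h3.le, h4⟩

lemma ce_null {m : ℕ} (b : Fin m → ℝ) (hb : b ≠ 0) (M : ℕ) (hM : 1 ≤ M) (i : ℤ) :
    volume (frontier {x : EuclideanSpace ℝ (Fin m) | ce b M x = i}) = 0 := by
  have hpi := Real.pi_pos
  have hM0 : (0 : ℝ) < M := by exact_mod_cast hM
  have hsub : frontier {x : EuclideanSpace ℝ (Fin m) | ce b M x = i} ⊆
      ⋃ q : ℤ, {x : EuclideanSpace ℝ (Fin m) | lf b x = 2 * Real.pi * q / M} := by
    intro x hx
    by_contra hcon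
    rw [Set.mem_iUnion] at hcon
    push Not at hcon
    have hc : ∀ q : ℤ, lf b x ≠ 2 * Real.pi * q / M := fun q h => hcon q h
    have h1 := floor_loc (f := fun y : EuclideanSpace ℝ (Fin m) => (M : ℝ) * (lf b y / (2 * Real.pi)))
      (by have := lf_cont b; fun_prop) x (fun q h => hc q (by
        rw [← h]
        field_simp))
    have h2 := floor_loc (f := fun y : EuclideanSpace ℝ (Fin m) => lf b y / (2 * Real.pi))
      (by have := lf_cont b; fun_prop) x (fun q h => hc (M * q) (by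
        push_cast
        rw [← h]
        field_simp))
    have h3 : ∀ᶠ y in 𝓝 x, ce b M y = ce b M x := by
      filter_upwards [h1, h2] with y h4 h5
      unfold ce
      rw [h4, h5]
    rw [frontier_eq_closure_inter_closure] at hx
    by_cases h4 : ce b M x = i
    · have h5 := mem_closure_iff_frequently.1 hx.2
      obtain ⟨y, hy1, hy2⟩ := (h5.and_eventually h3).exists
      exact hy1 (by
        show ce b M y = i
        rw [hy2, h4])
    · have h5 := mem_closure_iff_frequently.1 hx.1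
      obtain ⟨y, hy1, hy2⟩ := (h5.and_eventually h3).exists
      have hy1' : ce b M y = i := hy1
      exact h4 (by rw [← hy2, hy1'])
  refine measure_mono_null hsub (measure_iUnion_null fun q => lf_null b hb _)

lemma ce_meas {m : ℕ} (b : Fin m → ℝ) (M : ℕ) (i : ℤ) :
    MeasurableSet {x : EuclideanSpace ℝ (Fin m) | ce b M x = i} := by
  have hl : Measurable (lf b) := (lf_cont b).measurable
  have h : Measurable (ce b M) := by
    unfold ce
    exact (Int.measurable_floor.comp ((hl.div_const _).const_mul _)).sub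
      ((Int.measurable_floor.comp (hl.div_const _)).const_mul _)
  exact h (measurableSet_singleton i)

lemma int_cos {m : ℕ} (b : Fin m → ℝ) {S : Matrix (Fin m) (Fin m) ℝ} (hS : S.PosDef) :
    ∫ x, Real.cos (lf b x) ∂(multivariateGaussian 0 S) = Real.exp (-(∑ i, ∑ j, b i * b j * S i j) / 2) := by
  have h1 : charFun (multivariateGaussian 0 S) (WithLp.toLp 2 b) =
      Complex.exp ((-(b ⬝ᵥ S *ᵥ b) / 2 : ℝ) : ℂ) := by
    rw [charFun_multivariateGaussian hS.posSemidef]
    congr 1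
    rw [inner_zero_right]
    push_cast
    ring
  have h2 : b ⬝ᵥ S *ᵥ b = ∑ i, ∑ j, b i * b j * S i j := by
    simp only [dotProduct, Matrix.mulVec, Finset.mul_sum]
    exact Finset.sum_congr rfl fun i _ => Finset.sum_congr rfl fun j _ => by ring
  rw [h2, charFun_apply] at h1
  have hin : ∀ x : EuclideanSpace ℝ (Fin m), ⟪x, (WithLp.toLp 2 b : EuclideanSpace ℝ (Fin m))⟫ = lf b x := by
    intro x
    rw [PiLp.inner_apply]
    unfold lf
    refine Finset.sum_congr rfl fun i _ => ?_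
    simp
  simp only [hin] at h1
  have hint : Integrable (fun x : EuclideanSpace ℝ (Fin m) => Complex.exp ((lf b x : ℂ) * Complex.I))
      (multivariateGaussian 0 S) := by
    refine Integrable.of_bound (C := 1) ?_ (Eventually.of_forall fun x => ?_)
    · have := lf_cont b
      exact (Continuous.aestronglyMeasurable (by fun_prop))
    · rw [Complex.norm_exp_ofReal_mul_I]
  have h3 := congrArg Complex.re h1
  rw [← Complex.ofReal_exp, Complex.ofReal_re] at h3
  rw [← h3]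
  have h4 := integral_re hint
  simp only [RCLike.re_to_complex, Complex.exp_ofReal_mul_I_re] at h4
  exact h4

theorem cos_law {m : ℕ} (A : ℕ) (b : Fin m → ℝ) (ε : ℝ) (hε : 0 < ε) :
    ∀ᶠ h : ℕ in atTop, ∀ k : Fin m → ℕ,
      ((∀ i, h ≤ k i ∧ k i ≤ h ^ A) ∧ ∀ i j, i ≠ j → (h : ℝ) ≤ |(k i : ℝ) - k j|) →
      ∀ᶠ N : ℕ in atTop,
      |(1 / N : ℝ) * ∑ n ∈ Icc 1 N, Real.cos (lf b (vs h k n)) -
        Real.exp (-(∑ i, ∑ j, b i * b j * Sg h k i j) / 2)| ≤ ε := by
  classical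
  have hpi := Real.pi_pos
  by_cases hb : b = 0
  · refine Eventually.of_forall fun h k _ => ?_
    filter_upwards [eventually_ge_atTop 1] with N hN
    have hN0 : (0 : ℝ) < N := by exact_mod_cast hN
    rw [hb]
    simp only [lf, Pi.zero_apply, zero_mul, Finset.sum_const_zero, Real.cos_zero, Finset.sum_const,
      Nat.card_Icc, Nat.add_sub_cancel, nsmul_eq_mul, mul_one, neg_zero, zero_div, Real.exp_zero]
    rw [one_div, inv_mul_cancel₀ hN0.ne', sub_self, abs_zero]
    exact hε.le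
  obtain ⟨M, hM⟩ := exists_nat_ge (8 * Real.pi / ε + 1)
  have hM1 : (1 : ℝ) ≤ M := by
    have : 0 ≤ 8 * Real.pi / ε := by positivity
    linarith
  have hM1' : 1 ≤ M := by exact_mod_cast hM1
  have hM0 : (0 : ℝ) < M := by linarith
  have hMε : 2 * Real.pi / M ≤ ε / 4 := by
    rw [div_le_iff₀ hM0]
    have h1 : 8 * Real.pi / ε ≤ M := by linarith
    rw [div_le_iff₀ hε] at h1
    linarith
  have hall : ∀ᶠ h : ℕ in atTop, ∀ i ∈ range M, ∀ k : Fin m → ℕ,
      ((∀ i, h ≤ k i ∧ k i ≤ h ^ A) ∧ ∀ i j, i ≠ j → (h : ℝ) ≤ |(k i : ℝ) - k j|) →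
      (Sg h k).PosDef ∧ ∀ᶠ N : ℕ in atTop,
      |(1 / N : ℝ) * ({n : ℕ | 1 ≤ n ∧ n ≤ N ∧ vs h k n ∈ {x : EuclideanSpace ℝ (Fin m) | ce b M x = (i : ℕ)}}.ncard : ℝ) -
        (multivariateGaussian 0 (Sg h k)).real {x : EuclideanSpace ℝ (Fin m) | ce b M x = (i : ℕ)}| ≤ ε / (2 * M) := by
    rw [Filter.eventually_all_finset]
    intro i _
    exact law m A _ (ce_null b hb M hM1' i) (ε / (2 * M)) (by positivity)
  filter_upwards [hall] with h hh k hk
  have hpd : (Sg h k).PosDef := (hh 0 (Finset.mem_range.2 hM1') k hk).1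
  have hNall : ∀ᶠ N : ℕ in atTop, ∀ i ∈ range M,
      |(1 / N : ℝ) * ({n : ℕ | 1 ≤ n ∧ n ≤ N ∧ vs h k n ∈ {x : EuclideanSpace ℝ (Fin m) | ce b M x = (i : ℕ)}}.ncard : ℝ) -
        (multivariateGaussian 0 (Sg h k)).real {x : EuclideanSpace ℝ (Fin m) | ce b M x = (i : ℕ)}| ≤ ε / (2 * M) := by
    rw [Filter.eventually_all_finset]
    intro i hi
    exact (hh i hi k hk).2
  filter_upwards [hNall, eventually_ge_atTop 1] with N hN hN1
  have hN0 : (0 : ℝ) < N := by exact_mod_cast hN1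
  obtain ⟨c, hc⟩ : ∃ c : ℕ → ℝ, c = fun i : ℕ => Real.cos (2 * Real.pi * (i : ℝ) / M) := ⟨_, rfl⟩
  have hc1 : ∀ i, |c i| ≤ 1 := fun i => by rw [hc]; exact Real.abs_cos_le_one _
  obtain ⟨γ, hγ⟩ : ∃ γ : Measure (EuclideanSpace ℝ (Fin m)), γ = multivariateGaussian 0 (Sg h k) := ⟨_, rfl⟩
  have hγp : IsProbabilityMeasure γ := by rw [hγ]; infer_instance
  obtain ⟨cell, hcell⟩ : ∃ cell : ℕ → Set (EuclideanSpace ℝ (Fin m)),
    cell = fun i => {x : EuclideanSpace ℝ (Fin m) | ce b M x = (i : ℕ)} := ⟨_, rfl⟩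
  -- the step function
  obtain ⟨st, hst⟩ : ∃ st : EuclideanSpace ℝ (Fin m) → ℝ, st = fun x => ∑ i ∈ range M, (cell i).indicator (fun _ => c i) x :=
    ⟨_, rfl⟩
  have hstep : ∀ x, |Real.cos (lf b x) - st x| ≤ 2 * Real.pi / M := by
    intro x
    obtain ⟨h1, h2⟩ := ce_range b M hM1' x
    obtain ⟨i, hi⟩ := Int.eq_ofNat_of_zero_le h1
    have hiM : i < M := by omega
    have e : st x = c i := by
      rw [hst]
      simp only
      rw [Finset.sum_eq_single i]
      · rw [Set.indicator_of_mem]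
        rw [hcell]
        exact hi
      · intro j _ hji
        rw [Set.indicator_of_notMem]
        rw [hcell]
        intro hj
        have hj' : ce b M x = (j : ℕ) := hj
        rw [hi] at hj'
        exact hji (by exact_mod_cast hj'.symm)
      · intro hi2
        exact absurd (Finset.mem_range.2 hiM) hi2
    rw [e, hc]
    have h3 := ce_cos b M hM1' x
    rw [hi] at h3
    exact_mod_cast h3
  -- the sum
  have hs1 : |∑ n ∈ Icc 1 N, Real.cos (lf b (vs h k n)) - ∑ n ∈ Icc 1 N, st (vs h k n)| ≤ N * (ε / 4) := by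
    rw [← Finset.sum_sub_distrib]
    refine (Finset.abs_sum_le_sum_abs _ _).trans ?_
    refine (Finset.sum_le_sum fun n _ => (hstep _).trans hMε).trans ?_
    rw [Finset.sum_const, Nat.card_Icc, Nat.add_sub_cancel, nsmul_eq_mul]
  have hs2 : ∑ n ∈ Icc 1 N, st (vs h k n) =
      ∑ i ∈ range M, c i * ({n : ℕ | 1 ≤ n ∧ n ≤ N ∧ vs h k n ∈ cell i}.ncard : ℝ) := by
    rw [hst]
    simp only
    rw [Finset.sum_comm]
    refine Finset.sum_congr rfl fun i _ => ?_
    have e1 : {n : ℕ | 1 ≤ n ∧ n ≤ N ∧ vs h k n ∈ cell i} = ↑((Icc 1 N).filter fun n => vs h k n ∈ cell i) := by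
      ext n
      simp only [Set.mem_ofPred_eq, Finset.coe_filter, Finset.mem_Icc, and_assoc]
    rw [e1, Set.ncard_coe_finset, Finset.card_filter]
    push_cast
    rw [Finset.mul_sum]
    refine Finset.sum_congr rfl fun n _ => ?_
    by_cases h5 : vs h k n ∈ cell i
    · rw [Set.indicator_of_mem h5, if_pos h5, mul_one]
    · rw [Set.indicator_of_notMem h5, if_neg h5, mul_zero]
  -- the integral
  have hcm : ∀ i, MeasurableSet (cell i) := fun i => by rw [hcell]; exact ce_meas b M i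
  have hindi : ∀ i, Integrable ((cell i).indicator fun _ => c i) γ := fun i =>
    (integrable_const (c i)).indicator (hcm i)
  have hstI : Integrable st γ := by
    rw [hst]
    exact integrable_finsetSum _ fun i _ => hindi i
  have hcosI : Integrable (fun x => Real.cos (lf b x)) γ := by
    refine Integrable.of_bound (C := 1) ?_ (Eventually.of_forall fun x => ?_)
    · have := lf_cont b
      exact (Continuous.aestronglyMeasurable (by fun_prop))
    · rw [Real.norm_eq_abs]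
      exact Real.abs_cos_le_one _
  have hi1 : |∫ x, Real.cos (lf b x) ∂γ - ∫ x, st x ∂γ| ≤ ε / 4 := by
    rw [← integral_sub hcosI hstI, ← Real.norm_eq_abs]
    refine (norm_integral_le_of_norm_le_const (C := ε / 4) (Eventually.of_forall fun x => ?_)).trans ?_
    · rw [Real.norm_eq_abs]
      exact (hstep x).trans hMε
    · rw [probReal_univ, mul_one]
  have hi2 : ∫ x, st x ∂γ = ∑ i ∈ range M, c i * γ.real (cell i) := by
    rw [hst]
    simp only
    rw [integral_finsetSum _ fun i _ => hindi i]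
    refine Finset.sum_congr rfl fun i _ => ?_
    rw [integral_indicator (hcm i), setIntegral_const, smul_eq_mul, mul_comm]
  have hdiff : |(1 / N : ℝ) * ∑ n ∈ Icc 1 N, st (vs h k n) - ∫ x, st x ∂γ| ≤ ε / 2 := by
    rw [hs2, hi2, Finset.mul_sum, ← Finset.sum_sub_distrib]
    refine (Finset.abs_sum_le_sum_abs _ _).trans ?_
    have h6 : ∀ i ∈ range M, |(1 / N : ℝ) * (c i * ({n : ℕ | 1 ≤ n ∧ n ≤ N ∧ vs h k n ∈ cell i}.ncard : ℝ)) -
        c i * γ.real (cell i)| ≤ ε / (2 * M) := by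
      intro i hi
      have h7 := hN i hi
      have e2 : (1 / N : ℝ) * (c i * ({n : ℕ | 1 ≤ n ∧ n ≤ N ∧ vs h k n ∈ cell i}.ncard : ℝ)) -
        c i * γ.real (cell i) = c i * ((1 / N : ℝ) * ({n : ℕ | 1 ≤ n ∧ n ≤ N ∧ vs h k n ∈ cell i}.ncard : ℝ) -
          γ.real (cell i)) := by ring
      rw [e2, abs_mul]
      have h8 : |(1 / N : ℝ) * ({n : ℕ | 1 ≤ n ∧ n ≤ N ∧ vs h k n ∈ cell i}.ncard : ℝ) -
          γ.real (cell i)| ≤ ε / (2 * M) := by
        rw [hcell, hγ]
        exact h7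
      exact (mul_le_of_le_one_left (abs_nonneg _) (hc1 i)).trans h8
    refine (Finset.sum_le_sum h6).trans (le_of_eq ?_)
    rw [Finset.sum_const, Finset.card_range, nsmul_eq_mul]
    field_simp
  have hfin : |(1 / N : ℝ) * ∑ n ∈ Icc 1 N, Real.cos (lf b (vs h k n)) - (1 / N : ℝ) * ∑ n ∈ Icc 1 N, st (vs h k n)| ≤
      ε / 4 := by
    rw [← mul_sub, abs_mul, abs_of_pos (by positivity : (0 : ℝ) < 1 / N)]
    calc (1 / N : ℝ) * |∑ n ∈ Icc 1 N, Real.cos (lf b (vs h k n)) - ∑ n ∈ Icc 1 N, st (vs h k n)| ≤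
        (1 / N : ℝ) * (N * (ε / 4)) := mul_le_mul_of_nonneg_left hs1 (by positivity)
      _ = ε / 4 := by field_simp
  have hI := int_cos b hpd
  rw [← hγ] at hI
  rw [← hI]
  have a1 := abs_le.1 hfin
  have a2 := abs_le.1 hdiff
  have a3 := abs_le.1 hi1
  rw [abs_le]
  constructor <;> linarith

end Run7.h435.NF
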