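import Pool.Agent.Run7.h435.NFa

/-! # Law of large numbers for cosines of sums of consecutive gaps -/

set_option autoImplicit false

namespace Run7.h435.NF

open Filter Finset MeasureTheory ProbabilityTheory Topology
open Run7.h435.GL (dd vs Sg law)

/-- centred sum of `r` consecutive unfolded gaps -/
noncomputable def Wd (r n : ℕ) : ℝ := ∑ l ∈ range r, dd (n + l) - r

lemma Wd_add (r s n : ℕ) : Wd (r + s) n = Wd r n + Wd s (n + r) := by
  unfold Wd
  rw [Finset.sum_range_add]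
  push_cast
  have : ∑ x ∈ range s, dd (n + (r + x)) = ∑ x ∈ range s, dd (n + r + x) :=
    Finset.sum_congr rfl fun x _ => by rw [Nat.add_assoc]
  rw [this]
  ring

/-- the mean over `1 ≤ n ≤ N` -/
noncomputable def av (N : ℕ) (F : ℕ → ℝ) : ℝ := (1 / N : ℝ) * ∑ n ∈ Icc 1 N, F n

lemma av_mono {N : ℕ} {F G : ℕ → ℝ} (h : ∀ n ∈ Icc 1 N, F n ≤ G n) : av N F ≤ av N G :=
  mul_le_mul_of_nonneg_left (Finset.sum_le_sum h) (by positivity)

lemma av_add (N : ℕ) (F G : ℕ → ℝ) : av N (fun n => F n + G n) = av N F + av N G := by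
  unfold av
  rw [Finset.sum_add_distrib, mul_add]

lemma av_sub (N : ℕ) (F G : ℕ → ℝ) : av N (fun n => F n - G n) = av N F - av N G := by
  unfold av
  rw [Finset.sum_sub_distrib, mul_sub]

lemma av_mul (N : ℕ) (c : ℝ) (F : ℕ → ℝ) : av N (fun n => c * F n) = c * av N F := by
  unfold av
  rw [← Finset.mul_sum]
  ring

lemma av_const {N : ℕ} (hN : 1 ≤ N) (c : ℝ) : av N (fun _ => c) = c := by
  have hN0 : (0 : ℝ) < N := by exact_mod_cast hN
  unfold av
  rw [Finset.sum_const, Nat.card_Icc, Nat.add_sub_cancel, nsmul_eq_mul]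
  field_simp

lemma av_sum {ι : Type} (N : ℕ) (S : Finset ι) (F : ι → ℕ → ℝ) :
    av N (fun n => ∑ i ∈ S, F i n) = ∑ i ∈ S, av N (F i) := by
  unfold av
  rw [Finset.sum_comm, Finset.mul_sum]

lemma av_abs (N : ℕ) (F : ℕ → ℝ) : |av N F| ≤ av N (fun n => |F n|) := by
  unfold av
  rw [abs_mul, abs_of_nonneg (by positivity : (0 : ℝ) ≤ 1 / N)]
  exact mul_le_mul_of_nonneg_left (Finset.abs_sum_le_sum_abs _ _) (by positivity)

lemma sum_shift (N d : ℕ) (F : ℕ → ℝ) :
    ∑ n ∈ Icc 1 N, F (n + d) + ∑ n ∈ Icc 1 d, F n = ∑ n ∈ Icc 1 (N + d), F n := by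
  induction N with
  | zero => simp
  | succ N ih =>
    rw [Finset.sum_Icc_succ_top (by omega), show N + 1 + d = (N + d) + 1 by ring,
      Finset.sum_Icc_succ_top (by omega), ← ih]
    ring

/-- shifts change the mean of a bounded function by little -/
lemma av_shift (N d : ℕ) (F : ℕ → ℝ) (K : ℝ) (hF : ∀ n, |F n| ≤ K) :
    |av N (fun n => F (n + d)) - av N F| ≤ 2 * K * d / N := by
  have hK : 0 ≤ K := (abs_nonneg _).trans (hF 0)
  have h1 := sum_shift N d F
  have h2 := sum_shift d N F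
  rw [add_comm d N] at h2
  have h3 : ∑ n ∈ Icc 1 N, F (n + d) - ∑ n ∈ Icc 1 N, F n = ∑ n ∈ Icc 1 d, F (n + N) - ∑ n ∈ Icc 1 d, F n := by
    linarith
  have hb : ∀ G : ℕ → ℝ, (∀ n, |G n| ≤ K) → |∑ n ∈ Icc 1 d, G n| ≤ d * K := by
    intro G hG
    refine (Finset.abs_sum_le_sum_abs _ _).trans ((Finset.sum_le_sum fun n _ => hG n).trans (le_of_eq ?_))
    rw [Finset.sum_const, Nat.card_Icc, Nat.add_sub_cancel, nsmul_eq_mul]
  unfold av
  rw [← mul_sub, h3, abs_mul, abs_of_nonneg (by positivity : (0 : ℝ) ≤ 1 / N)]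
  have h4 : |∑ n ∈ Icc 1 d, F (n + N) - ∑ n ∈ Icc 1 d, F n| ≤ 2 * K * d := by
    have a1 := hb (fun n => F (n + N)) fun n => hF _
    have a2 := hb F hF
    refine (abs_sub _ _).trans ?_
    linarith
  calc (1 / N : ℝ) * |∑ n ∈ Icc 1 d, F (n + N) - ∑ n ∈ Icc 1 d, F n| ≤ (1 / N : ℝ) * (2 * K * d) :=
        mul_le_mul_of_nonneg_left h4 (by positivity)
    _ = _ := by ring

lemma av_shift_nonneg {N d : ℕ} (hd : d ≤ N) (F : ℕ → ℝ) (hF : ∀ n, 0 ≤ F n) {B : ℝ} (hB : 0 ≤ B)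
    (h : ∀ M, N ≤ M → ∑ n ∈ Icc 1 M, F n ≤ B * M) (hN : 1 ≤ N) : av N (fun n => F (n + d)) ≤ 2 * B := by
  have hN0 : (0 : ℝ) < N := by exact_mod_cast hN
  have h1 := sum_shift N d F
  have h2 := h (N + d) (by omega)
  have h3 : 0 ≤ ∑ n ∈ Icc 1 d, F n := Finset.sum_nonneg fun n _ => hF n
  have h4 : (d : ℝ) ≤ N := by exact_mod_cast hd
  unfold av
  rw [one_div, inv_mul_le_iff₀ hN0]
  push_cast at h2
  nlinarith

/-- the asymptotic variance -/
noncomputable def vv (h R : ℕ) : ℝ := Real.log R / (Real.pi ^ 2 * Real.log h)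

/-- the asymptotic covariance of two sums of `R` gaps with a shift `d` -/
noncomputable def cc (h R d : ℕ) : ℝ :=
  (Real.log ((d : ℝ) + R) + Real.log |(R : ℝ) - d| - 2 * Real.log d) / (2 * Real.pi ^ 2 * Real.log h)

lemma law1 (A : ℕ) (s : ℝ) (ε : ℝ) (hε : 0 < ε) : ∀ᶠ h : ℕ in atTop, ∀ R : ℕ, h ≤ R → R ≤ h ^ A →
    ∀ᶠ N : ℕ in atTop, |av N (fun n => Real.cos (s * (Wd R n / Real.sqrt (Real.log h)))) -
      Real.exp (-(s ^ 2 * vv h R) / 2)| ≤ ε := by
  filter_upwards [cos_law (m := 1) A ![s] ε hε] with h hh R hR1 hR2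
  have h1 := hh ![R] ⟨fun i => by fin_cases i; exact ⟨hR1, hR2⟩, fun i j hij => by
    fin_cases i; fin_cases j; exact absurd rfl hij⟩
  filter_upwards [h1] with N hN
  have e1 : ∀ n, lf ![s] (vs h ![R] n) = s * (Wd R n / Real.sqrt (Real.log h)) := by
    intro n
    simp [lf, vs, Wd]
  have e2 : ∑ i, ∑ j, ![s] i * ![s] j * Sg h ![R] i j = s ^ 2 * vv h R := by
    have s00 : Sg h ![R] 0 0 = vv h R := by simp [Sg, vv]
    rw [Fin.sum_univ_one, Fin.sum_univ_one, s00]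
    show s * s * vv h R = _
    ring
  simp only [e1, e2] at hN
  exact hN

lemma law2 (A : ℕ) (s : ℝ) (ε : ℝ) (hε : 0 < ε) : ∀ᶠ h : ℕ in atTop, ∀ R d : ℕ, h ≤ R → h ≤ d →
    R + d ≤ h ^ A → (h : ℝ) ≤ |(R : ℝ) - d| →
    ∀ᶠ N : ℕ in atTop,
      |av N (fun n => Real.cos (s * (Wd R n / Real.sqrt (Real.log h)) + s * (Wd R (n + d) / Real.sqrt (Real.log h)))) -
        Real.exp (-(s ^ 2 * (vv h R + cc h R d)))| ≤ ε ∧
      |av N (fun n => Real.cos (s * (Wd R n / Real.sqrt (Real.log h)) - s * (Wd R (n + d) / Real.sqrt (Real.log h)))) -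
        Real.exp (-(s ^ 2 * (vv h R - cc h R d)))| ≤ ε := by
  filter_upwards [cos_law (m := 3) A ![s, -s, s] ε hε, cos_law (m := 3) A ![s, s, -s] ε hε,
    eventually_ge_atTop 2] with h hp hm hh2 R d hR hd hRd hdiff
  have hR0 : (0 : ℝ) ≤ R := Nat.cast_nonneg _
  have hd0 : (0 : ℝ) ≤ d := Nat.cast_nonneg _
  have hRr : (h : ℝ) ≤ R := by exact_mod_cast hR
  have hdr : (h : ℝ) ≤ d := by exact_mod_cast hd
  have hlh : 0 < Real.log h := Real.log_pos (by exact_mod_cast hh2)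
  have hpi := Real.pi_pos
  have hsp : (∀ i, h ≤ (![R, d, R + d] : Fin 3 → ℕ) i ∧ (![R, d, R + d] : Fin 3 → ℕ) i ≤ h ^ A) ∧
      ∀ i j, i ≠ j → (h : ℝ) ≤ |((![R, d, R + d] : Fin 3 → ℕ) i : ℝ) - (![R, d, R + d] : Fin 3 → ℕ) j| := by
    refine ⟨fun i => ?_, fun i j hij => ?_⟩
    · fin_cases i
      · exact ⟨hR, by show R ≤ h ^ A; omega⟩
      · exact ⟨hd, by show d ≤ h ^ A; omega⟩
      · exact ⟨by show h ≤ R + d; omega, hRd⟩
    · have a1 : |(R : ℝ) - ((R + d : ℕ) : ℝ)| = d := by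
        push_cast
        rw [show (R : ℝ) - (R + d) = -d by ring, abs_neg, abs_of_nonneg hd0]
      have a2 : |(d : ℝ) - ((R + d : ℕ) : ℝ)| = R := by
        push_cast
        rw [show (d : ℝ) - (R + d) = -R by ring, abs_neg, abs_of_nonneg hR0]
      fin_cases i <;> fin_cases j
      · exact absurd rfl hij
      · exact hdiff
      · show (h : ℝ) ≤ |(R : ℝ) - ((R + d : ℕ) : ℝ)|
        rw [a1]; exact hdr
      · show (h : ℝ) ≤ |(d : ℝ) - (R : ℝ)|
        rw [abs_sub_comm]; exact hdiff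
      · exact absurd rfl hij
      · show (h : ℝ) ≤ |(d : ℝ) - ((R + d : ℕ) : ℝ)|
        rw [a2]; exact hRr
      · show (h : ℝ) ≤ |((R + d : ℕ) : ℝ) - (R : ℝ)|
        rw [abs_sub_comm, a1]; exact hdr
      · show (h : ℝ) ≤ |((R + d : ℕ) : ℝ) - (d : ℝ)|
        rw [abs_sub_comm, a2]; exact hRr
      · exact absurd rfl hij
  have hW : ∀ n, Wd (R + d) n = Wd d n + Wd R (n + d) := by
    intro n
    rw [add_comm R d, Wd_add]
  have hcv : ∀ n i, (vs h (![R, d, R + d] : Fin 3 → ℕ) n) i =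
      Wd ((![R, d, R + d] : Fin 3 → ℕ) i) n / Real.sqrt (Real.log h) := fun n i => rfl
  have hS : ∀ b : Fin 3 → ℝ, ∑ i, ∑ j, b i * b j * Sg h (![R, d, R + d] : Fin 3 → ℕ) i j =
      (b 0 ^ 2 * (2 * Real.log R) + b 1 ^ 2 * (2 * Real.log d) + b 2 ^ 2 * (2 * Real.log ((d : ℝ) + R)) +
        2 * (b 0 * b 1 * (Real.log R + Real.log d - Real.log |(R : ℝ) - d|)) +
        2 * (b 0 * b 2 * (Real.log R + Real.log ((d : ℝ) + R) - Real.log d)) +
        2 * (b 1 * b 2 * (Real.log d + Real.log ((d : ℝ) + R) - Real.log R))) / (2 * Real.pi ^ 2 * Real.log h) := by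
    intro b
    have a1 : |(R : ℝ) - ((R + d : ℕ) : ℝ)| = d := by
      push_cast
      rw [show (R : ℝ) - (R + d) = -d by ring, abs_neg, abs_of_nonneg hd0]
    have a2 : |(d : ℝ) - ((R + d : ℕ) : ℝ)| = R := by
      push_cast
      rw [show (d : ℝ) - (R + d) = -R by ring, abs_neg, abs_of_nonneg hR0]
    have a3 : ((R + d : ℕ) : ℝ) = d + R := by push_cast; ring
    have s00 : Sg h (![R, d, R + d] : Fin 3 → ℕ) 0 0 = Real.log R / (Real.pi ^ 2 * Real.log h) := by
      simp [Sg]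
    have s11 : Sg h (![R, d, R + d] : Fin 3 → ℕ) 1 1 = Real.log d / (Real.pi ^ 2 * Real.log h) := by
      simp [Sg]
    have s22 : Sg h (![R, d, R + d] : Fin 3 → ℕ) 2 2 = Real.log ((d : ℝ) + R) / (Real.pi ^ 2 * Real.log h) := by
      rw [← a3]; simp [Sg]
    have s01 : Sg h (![R, d, R + d] : Fin 3 → ℕ) 0 1 =
        (Real.log R + Real.log d - Real.log |(R : ℝ) - d|) / (2 * Real.pi ^ 2 * Real.log h) := by
      simp [Sg]
    have s10 : Sg h (![R, d, R + d] : Fin 3 → ℕ) 1 0 =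
        (Real.log R + Real.log d - Real.log |(R : ℝ) - d|) / (2 * Real.pi ^ 2 * Real.log h) := by
      rw [abs_sub_comm, add_comm (Real.log R)]
      simp [Sg]
    have s02 : Sg h (![R, d, R + d] : Fin 3 → ℕ) 0 2 =
        (Real.log R + Real.log ((d : ℝ) + R) - Real.log d) / (2 * Real.pi ^ 2 * Real.log h) := by
      have : Sg h (![R, d, R + d] : Fin 3 → ℕ) 0 2 =
        (Real.log (R : ℝ) + Real.log ((R + d : ℕ) : ℝ) - Real.log |(R : ℝ) - ((R + d : ℕ) : ℝ)|) /
          (2 * Real.pi ^ 2 * Real.log h) := by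
        unfold Sg
        rw [Matrix.of_apply, if_neg (by decide)]
        rfl
      rw [this, a1, a3]
    have s20 : Sg h (![R, d, R + d] : Fin 3 → ℕ) 2 0 =
        (Real.log R + Real.log ((d : ℝ) + R) - Real.log d) / (2 * Real.pi ^ 2 * Real.log h) := by
      have : Sg h (![R, d, R + d] : Fin 3 → ℕ) 2 0 =
        (Real.log ((R + d : ℕ) : ℝ) + Real.log (R : ℝ) - Real.log |((R + d : ℕ) : ℝ) - (R : ℝ)|) /
          (2 * Real.pi ^ 2 * Real.log h) := by
        unfold Sg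
        rw [Matrix.of_apply, if_neg (by decide)]
        rfl
      rw [this, abs_sub_comm, a1, a3, add_comm (Real.log R)]
    have s12 : Sg h (![R, d, R + d] : Fin 3 → ℕ) 1 2 =
        (Real.log d + Real.log ((d : ℝ) + R) - Real.log R) / (2 * Real.pi ^ 2 * Real.log h) := by
      have : Sg h (![R, d, R + d] : Fin 3 → ℕ) 1 2 =
        (Real.log (d : ℝ) + Real.log ((R + d : ℕ) : ℝ) - Real.log |(d : ℝ) - ((R + d : ℕ) : ℝ)|) /
          (2 * Real.pi ^ 2 * Real.log h) := by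
        unfold Sg
        rw [Matrix.of_apply, if_neg (by decide)]
        rfl
      rw [this, a2, a3]
    have s21 : Sg h (![R, d, R + d] : Fin 3 → ℕ) 2 1 =
        (Real.log d + Real.log ((d : ℝ) + R) - Real.log R) / (2 * Real.pi ^ 2 * Real.log h) := by
      have : Sg h (![R, d, R + d] : Fin 3 → ℕ) 2 1 =
        (Real.log ((R + d : ℕ) : ℝ) + Real.log (d : ℝ) - Real.log |((R + d : ℕ) : ℝ) - (d : ℝ)|) /
          (2 * Real.pi ^ 2 * Real.log h) := by
        unfold Sg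
        rw [Matrix.of_apply, if_neg (by decide)]
        rfl
      rw [this, abs_sub_comm, a2, a3, add_comm (Real.log (d : ℝ))]
    simp only [Fin.sum_univ_three, s00, s11, s22, s01, s10, s02, s20, s12, s21]
    field_simp
    ring
  filter_upwards [hp _ hsp, hm _ hsp] with N h1 h2
  constructor
  · have e1 : ∀ n, lf ![s, -s, s] (vs h (![R, d, R + d] : Fin 3 → ℕ) n) =
        s * (Wd R n / Real.sqrt (Real.log h)) + s * (Wd R (n + d) / Real.sqrt (Real.log h)) := by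
      intro n
      unfold lf
      rw [Fin.sum_univ_three, hcv, hcv, hcv]
      show s * (Wd R n / Real.sqrt (Real.log h)) + -s * (Wd d n / Real.sqrt (Real.log h)) +
        s * (Wd (R + d) n / Real.sqrt (Real.log h)) = _
      rw [hW]
      ring
    have e2 : -(∑ i, ∑ j, (![s, -s, s] : Fin 3 → ℝ) i * (![s, -s, s] : Fin 3 → ℝ) j *
        Sg h (![R, d, R + d] : Fin 3 → ℕ) i j) / 2 = -(s ^ 2 * (vv h R + cc h R d)) := by
      rw [hS]
      show -((s ^ 2 * (2 * Real.log R) + (-s) ^ 2 * (2 * Real.log d) + s ^ 2 * (2 * Real.log ((d : ℝ) + R)) +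
        2 * (s * -s * (Real.log R + Real.log d - Real.log |(R : ℝ) - d|)) +
        2 * (s * s * (Real.log R + Real.log ((d : ℝ) + R) - Real.log d)) +
        2 * (-s * s * (Real.log d + Real.log ((d : ℝ) + R) - Real.log R))) / (2 * Real.pi ^ 2 * Real.log h)) / 2 = _
      unfold vv cc
      field_simp
      ring
    simp only [e1, e2] at h1
    exact h1
  · have e1 : ∀ n, lf ![s, s, -s] (vs h (![R, d, R + d] : Fin 3 → ℕ) n) =
        s * (Wd R n / Real.sqrt (Real.log h)) - s * (Wd R (n + d) / Real.sqrt (Real.log h)) := by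
      intro n
      unfold lf
      rw [Fin.sum_univ_three, hcv, hcv, hcv]
      show s * (Wd R n / Real.sqrt (Real.log h)) + s * (Wd d n / Real.sqrt (Real.log h)) +
        -s * (Wd (R + d) n / Real.sqrt (Real.log h)) = _
      rw [hW]
      ring
    have e2 : -(∑ i, ∑ j, (![s, s, -s] : Fin 3 → ℝ) i * (![s, s, -s] : Fin 3 → ℝ) j *
        Sg h (![R, d, R + d] : Fin 3 → ℕ) i j) / 2 = -(s ^ 2 * (vv h R - cc h R d)) := by
      rw [hS]
      show -((s ^ 2 * (2 * Real.log R) + s ^ 2 * (2 * Real.log d) + (-s) ^ 2 * (2 * Real.log ((d : ℝ) + R)) +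
        2 * (s * s * (Real.log R + Real.log d - Real.log |(R : ℝ) - d|)) +
        2 * (s * -s * (Real.log R + Real.log ((d : ℝ) + R) - Real.log d)) +
        2 * (s * -s * (Real.log d + Real.log ((d : ℝ) + R) - Real.log R))) / (2 * Real.pi ^ 2 * Real.log h)) / 2 = _
      unfold vv cc
      field_simp
      ring
    simp only [e1, e2] at h2
    exact h2

end Run7.h435.NF
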