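import Mathlib

/-! # Finite Fourier transforms: energies of the increments and the periodogram -/

set_option autoImplicit false

namespace Run7.h435.NF

open Finset

/-- `exp (2 π i t)` -/
noncomputable def ex (t : ℝ) : ℂ := Complex.exp (((2 * Real.pi * t : ℝ) : ℂ) * Complex.I)

lemma ex_add (s t : ℝ) : ex (s + t) = ex s * ex t := by
  unfold ex
  rw [← Complex.exp_add]
  congr 1
  push_cast
  ring

lemma ex_norm (t : ℝ) : ‖ex t‖ = 1 := Complex.norm_exp_ofReal_mul_I _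

lemma ex_int (n : ℤ) : ex n = 1 := by
  unfold ex
  rw [Complex.exp_eq_one_iff]
  exact ⟨n, by push_cast; ring⟩

lemma ex_zero : ex 0 = 1 := by
  have := ex_int 0
  rwa [Int.cast_zero] at this

lemma ex_pow (t : ℝ) (k : ℕ) : ex (k * t) = ex t ^ k := by
  unfold ex
  rw [← Complex.exp_nat_mul]
  congr 1
  push_cast
  ring

lemma ex_conj (t : ℝ) : (starRingEnd ℂ) (ex t) = ex (-t) := by
  unfold ex
  rw [← Complex.exp_conj, map_mul, Complex.conj_ofReal, Complex.conj_I]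
  congr 1
  push_cast
  ring

lemma ex_re (t : ℝ) : (ex t).re = Real.cos (2 * Real.pi * t) := by
  unfold ex
  exact Complex.exp_ofReal_mul_I_re _

lemma ex_sub_sq (t : ℝ) : ‖ex t - 1‖ ^ 2 = 2 - 2 * Real.cos (2 * Real.pi * t) := by
  have h1 : ‖ex t - 1‖ ^ 2 = Complex.normSq (ex t - 1) := (Complex.normSq_eq_norm_sq _).symm
  rw [h1, Complex.normSq_sub]
  have h2 : Complex.normSq (ex t) = 1 := by rw [Complex.normSq_eq_norm_sq, ex_norm]; norm_num
  rw [h2, map_one, map_one, mul_one, ex_re]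
  ring

lemma ex_ne (m : ℕ) (hm : 1 ≤ m) (d : ℤ) (hd : ¬ (m : ℤ) ∣ d) : ex ((d : ℝ) / m) ≠ 1 := by
  intro h
  unfold ex at h
  rw [Complex.exp_eq_one_iff] at h
  obtain ⟨n, hn⟩ := h
  have hm0 : (m : ℝ) ≠ 0 := by
    have : (1 : ℝ) ≤ m := by exact_mod_cast hm
    intro h0
    rw [h0] at this
    norm_num at this
  have hpi := Real.pi_ne_zero
  have h1 : ((2 * Real.pi * ((d : ℝ) / m) : ℝ) : ℂ) = ((2 * Real.pi * n : ℝ) : ℂ) := by
    have h2 : ((2 * Real.pi * ((d : ℝ) / m) : ℝ) : ℂ) * Complex.I = ((2 * Real.pi * n : ℝ) : ℂ) * Complex.I := by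
      rw [hn]
      push_cast
      ring
    exact mul_right_cancel₀ Complex.I_ne_zero h2
  have h3 : 2 * Real.pi * ((d : ℝ) / m) = 2 * Real.pi * n := by exact_mod_cast h1
  have h4 : (d : ℝ) / m = n := mul_left_cancel₀ (by positivity) h3
  rw [div_eq_iff hm0] at h4
  apply hd
  refine ⟨n, ?_⟩
  have h5 : (d : ℝ) = ((m * n : ℤ) : ℝ) := by push_cast; rw [h4]; ring
  exact_mod_cast h5

lemma orth (m : ℕ) (hm : 1 ≤ m) (d : ℤ) (hd : ¬ (m : ℤ) ∣ d) :
    ∑ k ∈ range m, ex (k * ((d : ℝ) / m)) = 0 := by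
  have hm0 : (m : ℝ) ≠ 0 := by
    have : (1 : ℝ) ≤ m := by exact_mod_cast hm
    positivity
  simp only [ex_pow]
  have h1 := ex_ne m hm d hd
  rw [geom_sum_eq h1, ← ex_pow]
  have h2 : (m : ℝ) * ((d : ℝ) / m) = d := by field_simp
  rw [h2, ex_int, sub_self, zero_div]

/-- the finite Fourier transform -/
noncomputable def ft (m : ℕ) (w : ℕ → ℝ) (k : ℕ) : ℂ := ∑ j ∈ range m, (w j : ℂ) * ex (-(j * k / m))

theorem parseval (m : ℕ) (hm : 1 ≤ m) (w : ℕ → ℝ) :
    ∑ k ∈ range m, ‖ft m w k‖ ^ 2 = m * ∑ j ∈ range m, w j ^ 2 := by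
  have h1 : ∀ k, ((‖ft m w k‖ ^ 2 : ℝ) : ℂ) =
      ∑ j ∈ range m, ∑ l ∈ range m, (w j : ℂ) * (w l : ℂ) * ex (k * ((((l : ℤ) - (j : ℤ) : ℤ) : ℝ) / m)) := by
    intro k
    have e1 : ((‖ft m w k‖ ^ 2 : ℝ) : ℂ) = ft m w k * (starRingEnd ℂ) (ft m w k) := by
      rw [Complex.mul_conj, Complex.normSq_eq_norm_sq]
    rw [e1]
    unfold ft
    rw [map_sum, Finset.sum_mul_sum]
    refine Finset.sum_congr rfl fun j _ => Finset.sum_congr rfl fun l _ => ?_
    rw [map_mul, ex_conj, Complex.conj_ofReal]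
    have e2 : ex (k * ((((l : ℤ) - (j : ℤ) : ℤ) : ℝ) / m)) = ex (-(j * k / m)) * ex (- -(l * k / m)) := by
      rw [← ex_add]
      congr 1
      push_cast
      ring
    rw [e2]
    ring
  have h2 : ((∑ k ∈ range m, ‖ft m w k‖ ^ 2 : ℝ) : ℂ) = ((m * ∑ j ∈ range m, w j ^ 2 : ℝ) : ℂ) := by
    rw [Complex.ofReal_sum]
    rw [Finset.sum_congr rfl fun k _ => h1 k]
    rw [Finset.sum_comm]
    have h3 : ∀ j ∈ range m, ∑ k ∈ range m, ∑ l ∈ range m, (w j : ℂ) * (w l : ℂ) *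
        ex (k * ((((l : ℤ) - (j : ℤ) : ℤ) : ℝ) / m)) = (m : ℂ) * (w j : ℂ) ^ 2 := by
      intro j hj
      rw [Finset.sum_comm, Finset.sum_eq_single j]
      · simp only [sub_self, Int.cast_zero, zero_div, mul_zero, ex_zero, mul_one]
        rw [Finset.sum_const, Finset.card_range, nsmul_eq_mul]
        ring
      · intro l hl hlj
        rw [← Finset.mul_sum, orth m hm _ ?_, mul_zero]
        intro hdv
        rw [Finset.mem_range] at hj hl
        have h4 := Int.eq_zero_of_abs_lt_dvd hdv (by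
          rw [abs_lt]
          constructor <;> omega)
        omega
      · intro h
        exact absurd hj h
    rw [Finset.sum_congr rfl h3]
    push_cast
    rw [Finset.mul_sum]
  exact_mod_cast h2

lemma sum_cyc (m R : ℕ) (hR : R ≤ m) (g : ℕ → ℂ) :
    ∑ j ∈ range m, g (if j < m - R then j + R else j - (m - R)) = ∑ j ∈ range m, g j := by
  have e1 : ∑ j ∈ range m, g (if j < m - R then j + R else j - (m - R)) =
      ∑ j ∈ range ((m - R) + R), g (if j < m - R then j + R else j - (m - R)) := by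
    rw [Nat.sub_add_cancel hR]
  have e2 : ∑ j ∈ range m, g j = ∑ j ∈ range (R + (m - R)), g j := by
    rw [Nat.add_sub_cancel' hR]
  rw [e1, e2, Finset.sum_range_add, Finset.sum_range_add, add_comm]
  congr 1
  · refine Finset.sum_congr rfl fun j _ => ?_
    rw [if_neg (by omega)]
    congr 1
    omega
  · refine Finset.sum_congr rfl fun j hj => ?_
    rw [Finset.mem_range] at hj
    rw [if_pos hj]
    congr 1
    omega

/-- the cyclic increments -/
noncomputable def cy (m R : ℕ) (w : ℕ → ℝ) (j : ℕ) : ℝ :=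
  w (if j < m - R then j + R else j - (m - R)) - w j

lemma ft_cy (m R : ℕ) (hm : 1 ≤ m) (hR : R ≤ m) (w : ℕ → ℝ) (k : ℕ) :
    ft m (cy m R w) k = (ex (k * ((R : ℝ) / m)) - 1) * ft m w k := by
  have hm0 : (m : ℝ) ≠ 0 := by
    have : (1 : ℝ) ≤ m := by exact_mod_cast hm
    positivity
  have h1 : ∑ j ∈ range m, (w (if j < m - R then j + R else j - (m - R)) : ℂ) * ex (-(j * k / m)) =
      ex (k * ((R : ℝ) / m)) * ft m w k := by
    have h2 := sum_cyc m R hR (fun j => (w j : ℂ) * ex (-(j * k / m)))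
    unfold ft
    rw [← h2, Finset.mul_sum]
    refine Finset.sum_congr rfl fun j hj => ?_
    rw [Finset.mem_range] at hj
    by_cases h3 : j < m - R
    · simp only [if_pos h3]
      have e : ex (-(j * k / m)) = ex (k * ((R : ℝ) / m)) * ex (-(((j + R : ℕ) : ℝ) * k / m)) := by
        rw [← ex_add]
        congr 1
        push_cast
        ring
      rw [e]
      ring
    · simp only [if_neg h3]
      have e : ex (-(j * k / m)) = ex (k * ((R : ℝ) / m)) * ex (-(((j - (m - R) : ℕ) : ℝ) * k / m)) := by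
        have e3 : ((j - (m - R) : ℕ) : ℝ) = j - (m - R) := by
          rw [Nat.cast_sub (by omega), Nat.cast_sub hR]
        rw [← ex_add, e3]
        have e4 : k * ((R : ℝ) / m) + -(((j : ℝ) - (m - R)) * k / m) = -(j * k / m) + ((k : ℤ) : ℝ) := by
          push_cast
          field_simp
          ring
        rw [e4, ex_add, ex_int, mul_one]
      rw [e]
      ring
  have h2 : ft m (cy m R w) k = ∑ j ∈ range m, (w (if j < m - R then j + R else j - (m - R)) : ℂ) *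
      ex (-(j * k / m)) - ft m w k := by
    unfold ft cy
    rw [← Finset.sum_sub_distrib]
    refine Finset.sum_congr rfl fun j _ => ?_
    push_cast
    ring
  rw [h2, h1]
  ring

/-- the energy of the cyclic increments and the periodogram -/
theorem spec_id (m R : ℕ) (hm : 1 ≤ m) (hR : R ≤ m) (w : ℕ → ℝ) :
    ∑ k ∈ range m, (2 - 2 * Real.cos (2 * Real.pi * (k * ((R : ℝ) / m)))) * ‖ft m w k‖ ^ 2 =
      m * (∑ j ∈ range (m - R), (w (j + R) - w j) ^ 2 + ∑ i ∈ range R, (w (i + (m - R)) - w i) ^ 2) := by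
  have h1 := parseval m hm (cy m R w)
  have h2 : ∀ k, ‖ft m (cy m R w) k‖ ^ 2 =
      (2 - 2 * Real.cos (2 * Real.pi * (k * ((R : ℝ) / m)))) * ‖ft m w k‖ ^ 2 := by
    intro k
    rw [ft_cy m R hm hR w k, norm_mul, mul_pow, ex_sub_sq]
  simp only [h2] at h1
  rw [h1]
  congr 1
  have e1 : ∑ j ∈ range m, cy m R w j ^ 2 = ∑ j ∈ range ((m - R) + R), cy m R w j ^ 2 := by
    rw [Nat.sub_add_cancel hR]
  rw [e1, Finset.sum_range_add]
  congr 1
  · refine Finset.sum_congr rfl fun j hj => ?_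
    rw [Finset.mem_range] at hj
    unfold cy
    rw [if_pos hj]
  · refine Finset.sum_congr rfl fun j _ => ?_
    unfold cy
    rw [if_neg (by omega), Nat.add_sub_cancel_left, add_comm (m - R) j]
    ring

/-- the square of the Dirichlet mean -/
noncomputable def DR (m R k : ℕ) : ℝ := ‖(1 / R : ℂ) * ∑ r ∈ range R, ex (r * ((k : ℝ) / m))‖ ^ 2

/-- distance of natural numbers -/
def ds (r s : ℕ) : ℕ := (r - s) + (s - r)

lemma ds_cast (r s : ℕ) : ((ds r s : ℕ) : ℝ) = |(r : ℝ) - s| := by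
  unfold ds
  rcases le_total r s with h | h
  · rw [Nat.sub_eq_zero_of_le h, zero_add, Nat.cast_sub h, abs_of_nonpos (by
      have : (r : ℝ) ≤ s := by exact_mod_cast h
      linarith)]
    ring
  · rw [Nat.sub_eq_zero_of_le h, add_zero, Nat.cast_sub h, abs_of_nonneg (by
      have : (s : ℝ) ≤ r := by exact_mod_cast h
      linarith)]

lemma DR_eq (m R k : ℕ) (hR : 1 ≤ R) : DR m R k =
    1 - (1 / (2 * (R : ℝ) ^ 2)) * ∑ r ∈ range R, ∑ s ∈ range R,
      (2 - 2 * Real.cos (2 * Real.pi * (k * ((ds r s : ℝ) / m)))) := by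
  have hR0 : (0 : ℝ) < R := by exact_mod_cast hR
  have h1 : ((‖∑ r ∈ range R, ex (r * ((k : ℝ) / m))‖ ^ 2 : ℝ) : ℂ) =
      ∑ r ∈ range R, ∑ s ∈ range R, ex (((r : ℝ) - s) * ((k : ℝ) / m)) := by
    rw [← Complex.normSq_eq_norm_sq, ← Complex.mul_conj, map_sum, Finset.sum_mul_sum]
    refine Finset.sum_congr rfl fun r _ => Finset.sum_congr rfl fun s _ => ?_
    rw [ex_conj, ← ex_add]
    congr 1
    ring
  have h2 : ‖∑ r ∈ range R, ex (r * ((k : ℝ) / m))‖ ^ 2 =
      ∑ r ∈ range R, ∑ s ∈ range R, Real.cos (2 * Real.pi * (k * ((ds r s : ℝ) / m))) := by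
    have h3 := congrArg Complex.re h1
    rw [Complex.ofReal_re, Complex.re_sum] at h3
    rw [h3]
    refine Finset.sum_congr rfl fun r _ => ?_
    rw [Complex.re_sum]
    refine Finset.sum_congr rfl fun s _ => ?_
    rw [ex_re, ds_cast]
    rcases abs_cases ((r : ℝ) - s) with ⟨h4, _⟩ | ⟨h4, _⟩
    · rw [h4]
      congr 1
      ring
    · rw [h4, ← Real.cos_neg]
      congr 1
      ring
  unfold DR
  rw [norm_mul, mul_pow, h2]
  have e1 : ‖(1 / R : ℂ)‖ ^ 2 = 1 / (R : ℝ) ^ 2 := by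
    rw [norm_div, norm_one, Complex.norm_natCast, div_pow, one_pow]
  rw [e1]
  simp only [Finset.sum_sub_distrib, Finset.sum_const, Finset.card_range, nsmul_eq_mul, ← Finset.mul_sum]
  field_simp
  ring

lemma DR_nonneg (m R k : ℕ) : 0 ≤ DR m R k := sq_nonneg _

lemma DR_le_one (m R k : ℕ) (hR : 1 ≤ R) : DR m R k ≤ 1 := by
  rw [DR_eq m R k hR]
  have h1 : 0 ≤ ∑ r ∈ range R, ∑ s ∈ range R,
      (2 - 2 * Real.cos (2 * Real.pi * (k * ((ds r s : ℝ) / m)))) :=
    Finset.sum_nonneg fun r _ => Finset.sum_nonneg fun s _ => by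
      linarith [Real.cos_le_one (2 * Real.pi * (k * ((ds r s : ℝ) / m)))]
  have h2 : 0 ≤ (1 / (2 * (R : ℝ) ^ 2)) * ∑ r ∈ range R, ∑ s ∈ range R,
      (2 - 2 * Real.cos (2 * Real.pi * (k * ((ds r s : ℝ) / m)))) := mul_nonneg (by positivity) h1
  linarith

/-- the distance to the multiples of `m` -/
def nk (m k : ℕ) : ℕ := min k (m - k)

lemma cos_nk (m k d : ℕ) (hm : 1 ≤ m) (hk : k ≤ m) :
    Real.cos (2 * Real.pi * (k * ((d : ℝ) / m))) = Real.cos (2 * Real.pi * ((nk m k : ℕ) * ((d : ℝ) / m))) := by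
  have hm0 : (m : ℝ) ≠ 0 := by
    have : (1 : ℝ) ≤ m := by exact_mod_cast hm
    positivity
  unfold nk
  rcases le_total k (m - k) with h | h
  · rw [min_eq_left h]
  · rw [min_eq_right h, Nat.cast_sub hk]
    have e : 2 * Real.pi * (((m : ℝ) - k) * ((d : ℝ) / m)) = ((d : ℤ) : ℝ) * (2 * Real.pi) -
        2 * Real.pi * (k * ((d : ℝ) / m)) := by
      push_cast
      field_simp
    rw [e, Real.cos_int_mul_two_pi_sub]

/-- the Dirichlet mean is close to one at small frequencies -/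
lemma DR_low (m R k : ℕ) (hm : 1 ≤ m) (hR : 1 ≤ R) (hk : k ≤ m) (κ : ℝ) (hκ : (nk m k : ℝ) ≤ κ) :
    1 - 2 * Real.pi ^ 2 * (R * κ / m) ^ 2 ≤ DR m R k := by
  have hR0 : (0 : ℝ) < R := by exact_mod_cast hR
  have hm0 : (0 : ℝ) < m := by exact_mod_cast hm
  have hpi := Real.pi_pos
  have hk0 : (0 : ℝ) ≤ nk m k := Nat.cast_nonneg _
  rw [DR_eq m R k hR]
  have h1 : ∑ r ∈ range R, ∑ s ∈ range R, (2 - 2 * Real.cos (2 * Real.pi * (k * ((ds r s : ℝ) / m)))) ≤
      ∑ r ∈ range R, ∑ s ∈ range R, 4 * Real.pi ^ 2 * (R * κ / m) ^ 2 := by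
    refine Finset.sum_le_sum fun r hr => Finset.sum_le_sum fun s hs => ?_
    rw [Finset.mem_range] at hr hs
    rw [cos_nk m k _ hm hk]
    have h2 := Real.one_sub_sq_div_two_le_cos (x := 2 * Real.pi * ((nk m k : ℕ) * ((ds r s : ℝ) / m)))
    have h3 : (ds r s : ℝ) ≤ R := by
      have : ds r s ≤ R := by unfold ds; omega
      exact_mod_cast this
    have h4 : (0 : ℝ) ≤ ds r s := Nat.cast_nonneg _
    have h5 : 0 ≤ 2 * Real.pi * ((nk m k : ℕ) * ((ds r s : ℝ) / m)) := by positivity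
    have h6 : 2 * Real.pi * ((nk m k : ℕ) * ((ds r s : ℝ) / m)) ≤ 2 * Real.pi * (R * κ / m) := by
      apply mul_le_mul_of_nonneg_left _ (by positivity)
      rw [← mul_div_assoc]
      apply div_le_div_of_nonneg_right _ hm0.le
      calc (nk m k : ℝ) * (ds r s : ℝ) ≤ κ * R := mul_le_mul hκ h3 h4 (hk0.trans hκ)
        _ = R * κ := mul_comm _ _
    have h7 : (2 * Real.pi * ((nk m k : ℕ) * ((ds r s : ℝ) / m))) ^ 2 ≤ (2 * Real.pi * (R * κ / m)) ^ 2 :=
      pow_le_pow_left₀ h5 h6 2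
    have h8 : (2 * Real.pi * (R * κ / m)) ^ 2 = 4 * Real.pi ^ 2 * (R * κ / m) ^ 2 := by ring
    rw [h8] at h7
    linarith
  have h2 : ∑ _r ∈ range R, ∑ _s ∈ range R, 4 * Real.pi ^ 2 * (R * κ / m) ^ 2 =
      (R : ℝ) ^ 2 * (4 * Real.pi ^ 2 * (R * κ / m) ^ 2) := by
    simp only [Finset.sum_const, Finset.card_range, nsmul_eq_mul]
    ring
  rw [h2] at h1
  have h3 : (1 / (2 * (R : ℝ) ^ 2)) * ∑ r ∈ range R, ∑ s ∈ range R,
      (2 - 2 * Real.cos (2 * Real.pi * (k * ((ds r s : ℝ) / m)))) ≤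
      (1 / (2 * (R : ℝ) ^ 2)) * ((R : ℝ) ^ 2 * (4 * Real.pi ^ 2 * (R * κ / m) ^ 2)) :=
    mul_le_mul_of_nonneg_left h1 (by positivity)
  have h4 : (1 / (2 * (R : ℝ) ^ 2)) * ((R : ℝ) ^ 2 * (4 * Real.pi ^ 2 * (R * κ / m) ^ 2)) =
      2 * Real.pi ^ 2 * (R * κ / m) ^ 2 := by
    field_simp
    ring
  linarith

lemma sin_low (m k : ℕ) (hk1 : 1 ≤ k) (hkm : k < m) : 2 * (nk m k : ℝ) / m ≤ Real.sin (Real.pi * (k / m)) := by
  have hm0 : (0 : ℝ) < m := by exact_mod_cast (show 0 < m by omega)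
  have hpi := Real.pi_pos
  have hk0 : (0 : ℝ) < k := by exact_mod_cast hk1
  have hkm' : (k : ℝ) < m := by exact_mod_cast hkm
  unfold nk
  rcases le_total k (m - k) with h | h
  · rw [min_eq_left h]
    have h1 : (2 * (k : ℝ)) ≤ m := by exact_mod_cast (show 2 * k ≤ m by omega)
    have h2 := Real.mul_le_sin (x := Real.pi * (k / m)) (by positivity) (by
      rw [mul_div_assoc', div_le_div_iff₀ hm0 (by norm_num)]
      nlinarith)
    refine le_trans (le_of_eq ?_) h2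
    field_simp
  · rw [min_eq_right h, Nat.cast_sub hkm.le]
    have h1 : (m : ℝ) ≤ 2 * k := by exact_mod_cast (show m ≤ 2 * k by omega)
    have h2 := Real.mul_le_sin (x := Real.pi * ((m - k) / m)) (by
      have : 0 ≤ (m : ℝ) - k := by linarith
      positivity) (by
      rw [mul_div_assoc', div_le_div_iff₀ hm0 (by norm_num)]
      nlinarith)
    have h3 : Real.sin (Real.pi * ((m - k) / m)) = Real.sin (Real.pi * (k / m)) := by
      rw [← Real.sin_pi_sub]
      congr 1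
      field_simp
      ring
    rw [h3] at h2
    refine le_trans (le_of_eq ?_) h2
    field_simp

/-- the Dirichlet mean is small at high frequencies -/
lemma DR_high (m R k : ℕ) (hR : 1 ≤ R) (hk1 : 1 ≤ k) (hkm : k < m) :
    DR m R k ≤ (m / (2 * R * nk m k)) ^ 2 := by
  have hm0 : (0 : ℝ) < m := by exact_mod_cast (show 0 < m by omega)
  have hR0 : (0 : ℝ) < R := by exact_mod_cast hR
  have hnk : (0 : ℝ) < nk m k := by
    have : 0 < nk m k := by unfold nk; omega
    exact_mod_cast this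
  have h1 : ex ((k : ℝ) / m) ≠ 1 := by
    have h := ex_ne m (by omega) (k : ℤ) (by
      intro h
      have := Int.eq_zero_of_abs_lt_dvd h (by rw [abs_lt]; constructor <;> omega)
      omega)
    rwa [Int.cast_natCast] at h
  have h2 : ‖ex ((k : ℝ) / m) - 1‖ = 2 * Real.sin (Real.pi * (k / m)) := by
    have h3 := ex_sub_sq ((k : ℝ) / m)
    have h4 := sin_low m k hk1 hkm
    have h5 : 0 ≤ Real.sin (Real.pi * (k / m)) := le_trans (by positivity) h4
    have h6 : 2 - 2 * Real.cos (2 * Real.pi * ((k : ℝ) / m)) = (2 * Real.sin (Real.pi * (k / m))) ^ 2 := by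
      rw [show 2 * Real.pi * ((k : ℝ) / m) = 2 * (Real.pi * (k / m)) by ring, Real.cos_two_mul]
      have := Real.sin_sq_add_cos_sq (Real.pi * ((k : ℝ) / m))
      nlinarith
    rw [h6] at h3
    exact (pow_left_inj₀ (norm_nonneg _) (by positivity) (by norm_num)).1 h3
  have h3 : 4 * (nk m k : ℝ) / m ≤ ‖ex ((k : ℝ) / m) - 1‖ := by
    rw [h2]
    have h4 := sin_low m k hk1 hkm
    have e : 4 * (nk m k : ℝ) / m = 2 * (2 * (nk m k : ℝ) / m) := by ring
    linarith
  unfold DR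
  apply pow_le_pow_left₀ (norm_nonneg _)
  simp only [ex_pow]
  rw [geom_sum_eq h1, norm_mul, norm_div, norm_div, norm_one, Complex.norm_natCast]
  have h4 : ‖ex ((k : ℝ) / m) ^ R - 1‖ ≤ 2 := by
    refine (norm_sub_le _ _).trans ?_
    rw [norm_pow, ex_norm, one_pow, norm_one]
    norm_num
  have h5 : ‖ex ((k : ℝ) / m) ^ R - 1‖ / ‖ex ((k : ℝ) / m) - 1‖ ≤ 2 / (4 * (nk m k : ℝ) / m) :=
    div_le_div₀ (by norm_num) h4 (by positivity) h3
  calc 1 / (R : ℝ) * (‖ex ((k : ℝ) / m) ^ R - 1‖ / ‖ex ((k : ℝ) / m) - 1‖) ≤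
      1 / (R : ℝ) * (2 / (4 * (nk m k : ℝ) / m)) := mul_le_mul_of_nonneg_left h5 (by positivity)
    _ = m / (2 * R * nk m k) := by
        field_simp
        ring

lemma DR_full (m k : ℕ) (hk1 : 1 ≤ k) (hkm : k < m) : DR m m k = 0 := by
  unfold DR
  have h := orth m (by omega) (k : ℤ) (by
    intro h
    have := Int.eq_zero_of_abs_lt_dvd h (by rw [abs_lt]; constructor <;> omega)
    omega)
  have h2 : ∑ r ∈ range m, ex (r * ((k : ℝ) / m)) = 0 := by rwa [Int.cast_natCast] at h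
  rw [h2, mul_zero, norm_zero]
  norm_num

end Run7.h435.NF
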