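import Pool.Agent.Run7.h435.NFb
import Pool.Agent.Run7.h435.NFp

/-! # Mean square law of large numbers for the cosines -/

set_option autoImplicit false

namespace Run7.h435.NF

open Filter Finset MeasureTheory ProbabilityTheory Topology

/-- the centred cosine -/
noncomputable def Yc (h R : ℕ) (s : ℝ) (n : ℕ) : ℝ :=
  Real.cos (s * (Wd R n / Real.sqrt (Real.log h))) - Real.exp (-(s ^ 2 * vv h R) / 2)

lemma vv_nonneg (h R : ℕ) : 0 ≤ vv h R := by
  unfold vv
  have h1 := Real.log_natCast_nonneg R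
  have h2 := Real.log_natCast_nonneg h
  positivity

lemma Yc_abs (h R : ℕ) (s : ℝ) (n : ℕ) : |Yc h R s n| ≤ 2 := by
  unfold Yc
  have h1 := Real.abs_cos_le_one (s * (Wd R n / Real.sqrt (Real.log h)))
  have h2 := Real.exp_pos (-(s ^ 2 * vv h R) / 2)
  have h3 : Real.exp (-(s ^ 2 * vv h R) / 2) ≤ 1 := by
    apply Real.exp_le_one_iff.2
    have := mul_nonneg (sq_nonneg s) (vv_nonneg h R)
    linarith
  rw [abs_le] at h1 ⊢
  constructor <;> linarith [h1.1, h1.2]

lemma cosh_est (a δ : ℝ) (ha : 0 ≤ a) (hδ : |δ| ≤ 1) :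
    |(1 / 2) * (Real.exp (-(a + δ)) + Real.exp (-(a - δ))) - Real.exp (-a)| ≤ δ ^ 2 := by
  have h1 := Real.abs_exp_sub_one_sub_id_le hδ
  have h2 := Real.abs_exp_sub_one_sub_id_le (x := -δ) (by rwa [abs_neg])
  have e : (1 / 2) * (Real.exp (-(a + δ)) + Real.exp (-(a - δ))) - Real.exp (-a) =
      Real.exp (-a) * ((1 / 2) * ((Real.exp δ - 1 - δ) + (Real.exp (-δ) - 1 - -δ))) := by
    rw [show -(a + δ) = -a + -δ by ring, show -(a - δ) = -a + δ by ring, Real.exp_add, Real.exp_add]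
    ring
  have h3 : Real.exp (-a) ≤ 1 := Real.exp_le_one_iff.2 (by linarith)
  rw [e, abs_mul, abs_of_pos (Real.exp_pos _)]
  rw [neg_sq] at h2
  have h4 : |(1 / 2) * ((Real.exp δ - 1 - δ) + (Real.exp (-δ) - 1 - -δ))| ≤ δ ^ 2 := by
    rw [abs_le] at h1 h2 ⊢
    constructor <;> linarith [h1.1, h1.2, h2.1, h2.2]
  exact (mul_le_of_le_one_left (abs_nonneg _) h3).trans h4

lemma pair_mean (A : ℕ) (s ε : ℝ) (hε : 0 < ε) : ∀ᶠ h : ℕ in atTop, ∀ R d : ℕ, h ≤ R → h ≤ d →
    R + d ≤ h ^ A → (h : ℝ) ≤ |(R : ℝ) - d| → |s ^ 2 * cc h R d| ≤ 1 →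
    ∀ᶠ N : ℕ in atTop, |av N (fun n => Yc h R s n * Yc h R s (n + d))| ≤ (s ^ 2 * cc h R d) ^ 2 + ε := by
  filter_upwards [law1 A s (ε / 8) (by positivity), law2 A s (ε / 8) (by positivity)] with h hl1 hl2
    R d hR hd hRd hdiff hc
  have hbig : ∀ᶠ N : ℕ in atTop, 16 * (d : ℝ) / ε ≤ N := tendsto_natCast_atTop_atTop.eventually_ge_atTop _
  filter_upwards [hl1 R hR (by omega), hl2 R d hR hd hRd hdiff, hbig, eventually_ge_atTop 1] with N h1 h2 h3 hN
  obtain ⟨h2, h2'⟩ := h2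
  have hN0 : (0 : ℝ) < N := by exact_mod_cast hN
  obtain ⟨x, hx⟩ : ∃ x : ℕ → ℝ, x = fun n => s * (Wd R n / Real.sqrt (Real.log h)) := ⟨_, rfl⟩
  obtain ⟨φ, hφ⟩ : ∃ φ : ℝ, φ = Real.exp (-(s ^ 2 * vv h R) / 2) := ⟨_, rfl⟩
  have hφ1 : φ ≤ 1 := by
    rw [hφ]
    apply Real.exp_le_one_iff.2
    have := mul_nonneg (sq_nonneg s) (vv_nonneg h R)
    linarith
  have hφ0 : 0 < φ := by rw [hφ]; exact Real.exp_pos _
  have hφ2 : φ * φ = Real.exp (-(s ^ 2 * vv h R)) := by
    rw [hφ, ← Real.exp_add]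
    congr 1
    ring
  have hY : ∀ n, Yc h R s n = Real.cos (x n) - φ := fun n => by rw [hx, hφ]; rfl
  have e1 : ∀ n, Yc h R s n * Yc h R s (n + d) = (1 / 2) * (Real.cos (x n + x (n + d)) +
      Real.cos (x n - x (n + d))) - φ * (Real.cos (x n) + Real.cos (x (n + d))) + φ * φ := by
    intro n
    rw [hY, hY, Real.cos_add, Real.cos_sub]
    ring
  have e2 : av N (fun n => Yc h R s n * Yc h R s (n + d)) = (1 / 2) * (av N (fun n => Real.cos (x n + x (n + d))) +
      av N (fun n => Real.cos (x n - x (n + d)))) - φ * (av N (fun n => Real.cos (x n)) +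
      av N (fun n => Real.cos (x (n + d)))) + φ * φ := by
    have : (fun n => Yc h R s n * Yc h R s (n + d)) = fun n => ((1 / 2) * (Real.cos (x n + x (n + d)) +
      Real.cos (x n - x (n + d))) - φ * (Real.cos (x n) + Real.cos (x (n + d)))) + φ * φ := funext e1
    rw [this, av_add, av_const hN, av_sub, av_mul, av_mul, av_add, av_add]
  have hsh := av_shift N d (fun n => Real.cos (x n)) 1 fun n => Real.abs_cos_le_one _
  have hsh2 : 2 * 1 * (d : ℝ) / N ≤ ε / 8 := by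
    rw [div_le_iff₀ hN0]
    rw [div_le_iff₀ hε] at h3
    linarith
  have hce := cosh_est (s ^ 2 * vv h R) (s ^ 2 * cc h R d) (mul_nonneg (sq_nonneg s) (vv_nonneg h R)) hc
  have k1 : |av N (fun n => Real.cos (x n)) - φ| ≤ ε / 8 := by rw [hx, hφ]; exact h1
  have k2 : |av N (fun n => Real.cos (x n + x (n + d))) - Real.exp (-(s ^ 2 * vv h R + s ^ 2 * cc h R d))| ≤ ε / 8 := by
    rw [hx, ← mul_add]; exact h2
  have k3 : |av N (fun n => Real.cos (x n - x (n + d))) - Real.exp (-(s ^ 2 * vv h R - s ^ 2 * cc h R d))| ≤ ε / 8 := by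
    rw [hx, ← mul_sub]; exact h2'
  have k4 : |av N (fun n => Real.cos (x (n + d))) - φ| ≤ ε / 4 := by
    have := hsh.trans hsh2
    rw [abs_le] at this k1 ⊢
    constructor <;> linarith [this.1, this.2, k1.1, k1.2]
  have k5 : |φ * (av N (fun n => Real.cos (x n)) - φ) + φ * (av N (fun n => Real.cos (x (n + d))) - φ)| ≤
      ε / 8 + ε / 4 := by
    refine (abs_add_le _ _).trans (add_le_add ?_ ?_)
    · rw [abs_mul, abs_of_pos hφ0]
      exact (mul_le_of_le_one_left (abs_nonneg _) hφ1).trans k1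
    · rw [abs_mul, abs_of_pos hφ0]
      exact (mul_le_of_le_one_left (abs_nonneg _) hφ1).trans k4
  rw [e2]
  rw [← hφ2] at hce
  rw [abs_le] at k2 k3 k5 hce ⊢
  constructor <;> linarith [k2.1, k2.2, k3.1, k3.2, k5.1, k5.2, hce.1, hce.2]

lemma pow_succ_le (B : ℕ) : ∀ᶠ h : ℕ in atTop, 2 * (h + 1) ^ (B + 1) ≤ h ^ (B + 2) := by
  filter_upwards [eventually_ge_atTop (2 * 2 ^ (B + 1)), eventually_ge_atTop 1] with h h1 h2
  calc 2 * (h + 1) ^ (B + 1) ≤ 2 * (2 * h) ^ (B + 1) := by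
        apply Nat.mul_le_mul_left
        exact Nat.pow_le_pow_left (by omega) _
    _ = (2 * 2 ^ (B + 1)) * h ^ (B + 1) := by rw [mul_pow]; ring
    _ ≤ h * h ^ (B + 1) := Nat.mul_le_mul_right _ h1
    _ = h ^ (B + 2) := by ring

lemma cc_bound {B h m R d : ℕ} (hh : 2 ≤ h) (h1 : 2 * (h + 1) ^ (B + 1) ≤ h ^ (B + 2)) (hm : m < (h + 1) ^ (B + 1))
    (hR : R ≤ m) (hd : d ≤ m) (hd1 : h ^ B ≤ d) (hdR : h ^ B ≤ ds d R) : |cc h R d| ≤ 1 := by
  have hpi := Real.pi_gt_three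
  have hL : 0 < Real.log h := Real.log_pos (by exact_mod_cast hh)
  have hhB : (1 : ℝ) ≤ (h : ℝ) ^ B := one_le_pow₀ (by exact_mod_cast (by omega : 1 ≤ h))
  obtain ⟨L, hLd⟩ : ∃ L : ℝ, L = Real.log h := ⟨_, rfl⟩
  have hlow : ∀ y : ℝ, (h : ℝ) ^ B ≤ y → B * L ≤ Real.log y := by
    intro y hy
    have := Real.log_le_log (by linarith) hy
    rwa [Real.log_pow, ← hLd] at this
  have hupp : ∀ y : ℝ, 0 < y → y ≤ (h : ℝ) ^ (B + 2) → Real.log y ≤ (B + 2) * L := by
    intro y hy0 hy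
    have := Real.log_le_log hy0 hy
    rw [Real.log_pow, ← hLd] at this
    push_cast at this
    exact this
  have hd1' : (h : ℝ) ^ B ≤ d := by exact_mod_cast hd1
  have hdR' : (h : ℝ) ^ B ≤ |(R : ℝ) - d| := by
    rw [abs_sub_comm, ← ds_cast]
    exact_mod_cast hdR
  have hsum : (d : ℝ) + R ≤ (h : ℝ) ^ (B + 2) := by
    have : d + R ≤ h ^ (B + 2) := by omega
    exact_mod_cast this
  have hR0 : (0 : ℝ) ≤ R := Nat.cast_nonneg _
  have hd0 : (0 : ℝ) < d := by linarith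
  have habs : |(R : ℝ) - d| ≤ (h : ℝ) ^ (B + 2) := by
    rw [abs_le]
    constructor <;> linarith
  have a1 := hlow _ hd1'
  have a2 := hlow _ hdR'
  have a3 := hlow ((d : ℝ) + R) (by linarith)
  have b1 := hupp _ hd0 (by linarith)
  have b2 := hupp |(R : ℝ) - d| (by linarith) habs
  have b3 := hupp ((d : ℝ) + R) (by linarith) hsum
  unfold cc
  rw [← hLd] at hL ⊢
  rw [abs_div, abs_of_pos (by positivity : 0 < 2 * Real.pi ^ 2 * L), div_le_one (by positivity), abs_le]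
  have h9 : 4 * L ≤ 2 * Real.pi ^ 2 * L := by
    have : (4 : ℝ) ≤ 2 * Real.pi ^ 2 := by nlinarith
    exact mul_le_mul_of_nonneg_right this hL.le
  constructor <;> linarith

lemma count_near (M j a H : ℕ) : ((range M).filter fun i => ds i a < H).card ≤ 2 * H := by
  have h1 : (range M).filter (fun i => ds i a < H) ⊆ Ico (a + 1 - H) (a + H) := by
    intro i hi
    rw [Finset.mem_filter] at hi
    rw [Finset.mem_Ico]
    have := hi.2
    unfold ds at this
    omega
  refine (Finset.card_le_card h1).trans ?_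
  rw [Nat.card_Ico]
  omega

lemma count_bad (M j R H : ℕ) :
    ((range M).filter fun i => ds j i < H ∨ ds (ds j i) R < H).card ≤ 6 * H := by
  have h1 : (range M).filter (fun i => ds j i < H ∨ ds (ds j i) R < H) ⊆
      Ico (j + 1 - H) (j + H) ∪ (Ico (j + R + 1 - H) (j + R + H) ∪ Ico (j + 1 - R - H) (j + H - R)) := by
    intro i hi
    rw [Finset.mem_filter] at hi
    rw [Finset.mem_union, Finset.mem_union, Finset.mem_Ico, Finset.mem_Ico, Finset.mem_Ico]
    have := hi.2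
    unfold ds at this
    omega
  refine (Finset.card_le_card h1).trans ((Finset.card_union_le _ _).trans ?_)
  have h2 := Finset.card_union_le (Ico (j + R + 1 - H) (j + R + H)) (Ico (j + 1 - R - H) (j + H - R))
  simp only [Nat.card_Ico] at h2 ⊢
  omega

/-- mean square law of large numbers for the cosines -/
theorem lln_cos (B : ℕ) (hB : 1 ≤ B) (s : ℝ) (hs : |s| ≤ 1) (ε : ℝ) (hε : 0 < ε) :
    ∀ᶠ h : ℕ in atTop, ∀ m R : ℕ, h ^ (B + 1) ≤ m → m < (h + 1) ^ (B + 1) → h ≤ R → R ≤ m → ∀ M ≤ m,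
      ∀ᶠ N : ℕ in atTop,
        av N (fun n => ((1 / m : ℝ) * ∑ j ∈ range M, Yc h R s (n + j)) ^ 2) ≤ s ^ 4 + ε := by
  classical
  have hbig0 : ∀ᶠ h : ℕ in atTop, 96 / ε ≤ (h : ℝ) := tendsto_natCast_atTop_atTop.eventually_ge_atTop _
  filter_upwards [pair_mean (B + 2) s (ε / 4) (by positivity), pow_succ_le B, hbig0, eventually_ge_atTop 2]
    with h hpm h1 h2 hh m R hm1 hm2 hR hRm M hM
  obtain ⟨H, hH⟩ : ∃ H : ℕ, H = h ^ B := ⟨_, rfl⟩
  have hHh : h ≤ H := by
    rw [hH]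
    calc h = h ^ 1 := (pow_one h).symm
      _ ≤ h ^ B := Nat.pow_le_pow_right (by omega) hB
  have hs2 : s ^ 2 ≤ 1 := by
    rw [← sq_abs]
    exact pow_le_one₀ (abs_nonneg _) hs
  have hm0 : 0 < m := lt_of_lt_of_le (by positivity) hm1
  have hmr : (0 : ℝ) < m := by exact_mod_cast hm0
  obtain ⟨Y, hY⟩ : ∃ Y : ℕ → ℝ, Y = Yc h R s := ⟨_, rfl⟩
  have hYa : ∀ n, |Y n| ≤ 2 := fun n => by rw [hY]; exact Yc_abs _ _ _ _
  have hgood : ∀ᶠ N : ℕ in atTop, ∀ d ∈ range (m + 1), H ≤ d → H ≤ ds d R →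
      |av N (fun n => Y n * Y (n + d))| ≤ s ^ 4 + ε / 4 := by
    rw [Filter.eventually_all_finset]
    intro d hd
    rw [Finset.mem_range] at hd
    by_cases hg : H ≤ d ∧ H ≤ ds d R
    · have hcb := cc_bound (B := B) hh h1 hm2 hRm (by omega : d ≤ m) (by rw [← hH]; exact hg.1)
        (by rw [← hH]; exact hg.2)
      have hcs : |s ^ 2 * cc h R d| ≤ s ^ 2 := by
        rw [abs_mul, abs_of_nonneg (sq_nonneg s)]
        exact mul_le_of_le_one_right (sq_nonneg s) hcb
      have hdist : (h : ℝ) ≤ |(R : ℝ) - d| := by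
        rw [abs_sub_comm, ← ds_cast]
        exact_mod_cast (hHh.trans hg.2)
      filter_upwards [hpm R d hR (hHh.trans hg.1) (by omega) hdist (hcs.trans hs2)] with N hN _ _
      rw [hY]
      refine hN.trans (add_le_add ?_ le_rfl)
      calc (s ^ 2 * cc h R d) ^ 2 = |s ^ 2 * cc h R d| ^ 2 := (sq_abs _).symm
        _ ≤ (s ^ 2) ^ 2 := pow_le_pow_left₀ (abs_nonneg _) hcs 2
        _ = s ^ 4 := by ring
    · exact Eventually.of_forall fun N a b => absurd ⟨a, b⟩ hg
  have hbig : ∀ᶠ N : ℕ in atTop, 32 * (m : ℝ) / ε ≤ N := tendsto_natCast_atTop_atTop.eventually_ge_atTop _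
  filter_upwards [hgood, hbig, eventually_ge_atTop 1] with N hN hNb hN1
  have hN0 : (0 : ℝ) < N := by exact_mod_cast hN1
  rw [← hY]
  -- ordered pairs
  have hord : ∀ i j : ℕ, i ≤ j → j < M →
      |av N (fun n => Y (n + i) * Y (n + j))| ≤ s ^ 4 + ε / 2 + 4 * (if ds i j < H ∨ ds (ds i j) R < H then 1 else 0) := by
    intro i j hij hjM
    have hprod : ∀ a b, |Y a * Y b| ≤ 4 := fun a b => by
      rw [abs_mul]
      calc |Y a| * |Y b| ≤ 2 * 2 := mul_le_mul (hYa a) (hYa b) (abs_nonneg _) (by norm_num)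
        _ = 4 := by norm_num
    have hds : ds i j = j - i := by unfold ds; omega
    split_ifs with hb
    · have : |av N (fun n => Y (n + i) * Y (n + j))| ≤ 4 := by
        refine (av_abs _ _).trans ((av_mono fun n _ => hprod _ _).trans (le_of_eq (av_const hN1 4)))
      have h5 : 0 ≤ s ^ 4 := by positivity
      linarith
    · rw [not_or, not_lt, not_lt] at hb
      have h3 := hN (j - i) (Finset.mem_range.2 (by omega)) (by rw [← hds]; exact hb.1) (by rw [← hds]; exact hb.2)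
      have h4 := av_shift N i (fun n => Y n * Y (n + (j - i))) 4 fun n => hprod _ _
      have e : (fun n => Y (n + i) * Y (n + j)) = fun n => Y (n + i) * Y (n + i + (j - i)) := by
        funext n
        rw [show n + i + (j - i) = n + j by omega]
      rw [e]
      have h5 : 2 * 4 * (i : ℝ) / N ≤ ε / 4 := by
        rw [div_le_iff₀ hN0]
        rw [div_le_iff₀ hε] at hNb
        have : (i : ℝ) ≤ m := by exact_mod_cast (by omega : i ≤ m)
        linarith
      have h6 := h4.trans h5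
      rw [abs_le] at h3 h6 ⊢
      constructor <;> linarith [h3.1, h3.2, h6.1, h6.2]
  have hall : ∀ i j : ℕ, i < M → j < M →
      |av N (fun n => Y (n + i) * Y (n + j))| ≤ s ^ 4 + ε / 2 + 4 * (if ds i j < H ∨ ds (ds i j) R < H then 1 else 0) := by
    intro i j hi hj
    rcases le_total i j with h3 | h3
    · exact hord i j h3 hj
    · have h4 := hord j i h3 hi
      have e1 : (fun n => Y (n + i) * Y (n + j)) = fun n => Y (n + j) * Y (n + i) := by
        funext n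
        ring
      have e2 : ds i j = ds j i := by unfold ds; omega
      rw [e1, e2]
      exact h4
  have hexp : av N (fun n => ((1 / m : ℝ) * ∑ j ∈ range M, Y (n + j)) ^ 2) =
      (1 / (m : ℝ) ^ 2) * ∑ i ∈ range M, ∑ j ∈ range M, av N (fun n => Y (n + i) * Y (n + j)) := by
    have e1 : (fun n => ((1 / m : ℝ) * ∑ j ∈ range M, Y (n + j)) ^ 2) =
        fun n => (1 / (m : ℝ) ^ 2) * ∑ i ∈ range M, ∑ j ∈ range M, Y (n + i) * Y (n + j) := by
      funext n
      rw [mul_pow, sq (∑ j ∈ range M, Y (n + j)), Finset.sum_mul_sum]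
      ring
    rw [e1, av_mul, av_sum]
    congr 1
    refine Finset.sum_congr rfl fun i _ => ?_
    rw [av_sum]
  rw [hexp]
  have hsum : ∑ i ∈ range M, ∑ j ∈ range M, av N (fun n => Y (n + i) * Y (n + j)) ≤
      (m : ℝ) ^ 2 * (s ^ 4 + ε / 2) + 24 * H * m := by
    have hbad : ∀ i, ∑ j ∈ range M, (if ds i j < H ∨ ds (ds i j) R < H then (1 : ℝ) else 0) ≤ 6 * H := by
      intro i
      rw [← Finset.sum_filter, Finset.sum_const, nsmul_eq_mul, mul_one]
      exact_mod_cast count_bad M i R H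
    have hMm : (M : ℝ) ≤ m := by exact_mod_cast hM
    have hM0 : (0 : ℝ) ≤ M := Nat.cast_nonneg _
    have hH0 : (0 : ℝ) ≤ H := Nat.cast_nonneg _
    have h5 : 0 ≤ s ^ 4 + ε / 2 := by positivity
    calc ∑ i ∈ range M, ∑ j ∈ range M, av N (fun n => Y (n + i) * Y (n + j)) ≤
        ∑ i ∈ range M, ∑ j ∈ range M, (s ^ 4 + ε / 2 + 4 * (if ds i j < H ∨ ds (ds i j) R < H then 1 else 0)) := by
          refine Finset.sum_le_sum fun i hi => Finset.sum_le_sum fun j hj => ?_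
          exact (le_abs_self _).trans (hall i j (Finset.mem_range.1 hi) (Finset.mem_range.1 hj))
      _ = ∑ i ∈ range M, (M * (s ^ 4 + ε / 2) + 4 * ∑ j ∈ range M, (if ds i j < H ∨ ds (ds i j) R < H then (1 : ℝ) else 0)) := by
          refine Finset.sum_congr rfl fun i _ => ?_
          rw [Finset.sum_add_distrib, Finset.sum_const, Finset.card_range, nsmul_eq_mul, Finset.mul_sum]
      _ ≤ ∑ _i ∈ range M, (m * (s ^ 4 + ε / 2) + 24 * H) := by
          refine Finset.sum_le_sum fun i _ => ?_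
          have h6 := hbad i
          have h7 : (M : ℝ) * (s ^ 4 + ε / 2) ≤ m * (s ^ 4 + ε / 2) := mul_le_mul_of_nonneg_right hMm h5
          linarith
      _ = M * (m * (s ^ 4 + ε / 2) + 24 * H) := by
          rw [Finset.sum_const, Finset.card_range, nsmul_eq_mul]
      _ ≤ m * (m * (s ^ 4 + ε / 2) + 24 * H) := mul_le_mul_of_nonneg_right hMm (by positivity)
      _ = _ := by ring
  have hfin : (1 / (m : ℝ) ^ 2) * ((m : ℝ) ^ 2 * (s ^ 4 + ε / 2) + 24 * H * m) ≤ s ^ 4 + ε := by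
    have e : (1 / (m : ℝ) ^ 2) * ((m : ℝ) ^ 2 * (s ^ 4 + ε / 2) + 24 * H * m) = s ^ 4 + ε / 2 + 24 * H / m := by
      field_simp
    rw [e]
    have hHm : (H : ℝ) * h ≤ m := by
      have : H * h ≤ m := by
        rw [hH, ← pow_succ]
        exact hm1
      exact_mod_cast this
    have h24 : 24 * (H : ℝ) / m ≤ ε / 2 := by
      rw [div_le_iff₀ hmr]
      rw [div_le_iff₀ hε] at h2
      have hH0 : (0 : ℝ) ≤ H := Nat.cast_nonneg _
      have h8 : 96 * (H : ℝ) ≤ h * ε * H := mul_le_mul_of_nonneg_right h2 hH0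
      have h9 : ε * ((H : ℝ) * h) ≤ ε * m := mul_le_mul_of_nonneg_left hHm hε.le
      nlinarith
    linarith
  exact (mul_le_mul_of_nonneg_left hsum (by positivity)).trans hfin

end Run7.h435.NF
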