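import Pool.Agent.Run7.h435.NFc
import Pool.Agent.R320.VQ.Conv

/-! # Law of large numbers for the squares of sums of consecutive gaps, on RH -/

set_option autoImplicit false

namespace Run7.h435.NF

open Filter Finset MeasureTheory ProbabilityTheory Topology
open Run7.h435.GL (dd)

lemma Wd_SS (r n : ℕ) : Wd r n = Pool.Agent.R320.CL.SS r n - r := rfl

/-- fourth moments of the centred sums -/
theorem fourth (hRH : SP.RHs) : ∃ C : ℝ, 0 < C ∧ ∀ R : ℕ, ∀ᶠ N : ℕ in atTop,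
    ∑ n ∈ Icc 1 N, Wd R n ^ 4 ≤ C * (1 + Real.log R) ^ 2 * N := by
  have hc := Pool.Agent.R320.VQ.conv hRH (fun x => x ^ 4) (by fun_prop) 1 4 (fun x => by
    rw [one_mul, abs_pow]
    exact pow_le_pow_left₀ (abs_nonneg _) (by linarith [abs_nonneg x]) 4) 1 one_pos
  obtain ⟨r0, hr0⟩ := hc.exists_forall_of_atTop
  obtain ⟨I, hI⟩ : ∃ I : ℝ, I = ∫ x, (fun x : ℝ => x ^ 4) x ∂(Pool.Agent.Y743.CL.gs) := ⟨_, rfl⟩
  obtain ⟨C1, hC1, h1⟩ := Pool.Agent.R320.VQ.SS_mom hRH 4 (by norm_num)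
  refine ⟨(|I| + 1) + C1 * (r0 + 2 : ℝ) ^ 4, by positivity, fun R => ?_⟩
  have hlR : 0 ≤ Real.log R := Real.log_natCast_nonneg R
  have hone : 1 ≤ (1 + Real.log R) ^ 2 := by nlinarith
  have hpi := Real.pi_gt_three
  by_cases hR : r0 ≤ R ∧ 2 ≤ R
  · have hbig : ∀ᶠ N : ℕ in atTop, (R : ℝ) * Real.log R ≤ Real.log N :=
      (Real.tendsto_log_atTop.comp tendsto_natCast_atTop_atTop).eventually_ge_atTop _
    filter_upwards [hbig, eventually_ge_atTop 1] with N h2 h3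
    have h4 := hr0 R hR.1 N h3 h2
    rw [← hI] at h4
    have hl : 0 < Real.log R := Real.log_pos (by exact_mod_cast hR.2)
    have hlm : 0 < Pool.Agent.Y743.CL.lm R := by
      unfold Pool.Agent.Y743.CL.lm
      positivity
    have hlm4 : Pool.Agent.Y743.CL.lm R ^ 4 ≤ (1 + Real.log R) ^ 2 := by
      have e : Pool.Agent.Y743.CL.lm R ^ 4 = (Real.log R) ^ 2 / Real.pi ^ 4 := by
        unfold Pool.Agent.Y743.CL.lm
        rw [div_pow, show Real.sqrt (Real.log R) ^ 4 = (Real.sqrt (Real.log R) ^ 2) ^ 2 by ring,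
          Real.sq_sqrt hl.le]
      rw [e]
      have h5 : (Real.log R) ^ 2 / Real.pi ^ 4 ≤ (Real.log R) ^ 2 := by
        apply div_le_self (sq_nonneg _)
        exact one_le_pow₀ (by linarith)
      nlinarith
    have hX : ∀ n, Wd R n ^ 4 = Pool.Agent.Y743.CL.lm R ^ 4 * Pool.Agent.R320.VQ.XX R n ^ 4 := by
      intro n
      have : Wd R n = Pool.Agent.Y743.CL.lm R * Pool.Agent.R320.VQ.XX R n := by
        rw [Wd_SS]
        unfold Pool.Agent.R320.VQ.XX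
        field_simp
      rw [this, mul_pow]
    have hN0 : (0 : ℝ) ≤ N := Nat.cast_nonneg N
    have h6 : ∑ n ∈ Icc 1 N, Pool.Agent.R320.VQ.XX R n ^ 4 ≤ (|I| + 1) * N := by
      have h7 := (abs_le.1 h4).2
      have h8 : I * N ≤ |I| * N := mul_le_mul_of_nonneg_right (le_abs_self I) hN0
      linarith
    have h9 : 0 ≤ ∑ n ∈ Icc 1 N, Pool.Agent.R320.VQ.XX R n ^ 4 := Finset.sum_nonneg fun n _ => by positivity
    simp only [hX]
    rw [← Finset.mul_sum]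
    calc Pool.Agent.Y743.CL.lm R ^ 4 * ∑ n ∈ Icc 1 N, Pool.Agent.R320.VQ.XX R n ^ 4 ≤
        (1 + Real.log R) ^ 2 * ((|I| + 1) * N) := mul_le_mul hlm4 h6 h9 (sq_nonneg _)
      _ = (|I| + 1) * ((1 + Real.log R) ^ 2 * N) := by ring
      _ ≤ ((|I| + 1) + C1 * (r0 + 2 : ℝ) ^ 4) * ((1 + Real.log R) ^ 2 * N) := by
          apply mul_le_mul_of_nonneg_right _ (by positivity)
          have : 0 ≤ C1 * (r0 + 2 : ℝ) ^ 4 := by positivity
          linarith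
      _ = _ := by ring
  · have hR' : R ≤ r0 + 2 := by
      by_contra hcon
      exact hR ⟨by omega, by omega⟩
    have hRr : (R : ℝ) ≤ r0 + 2 := by exact_mod_cast hR'
    filter_upwards [eventually_ge_atTop R] with N hN
    have h2 := h1 N R hN
    have hN0 : (0 : ℝ) ≤ N := Nat.cast_nonneg N
    have h3 : ∑ n ∈ Icc 1 N, Wd R n ^ 4 = ∑ n ∈ Icc 1 N, |Pool.Agent.R320.CL.SS R n - R| ^ 4 :=
      Finset.sum_congr rfl fun n _ => by
        rw [Wd_SS, Even.pow_abs (by decide)]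
    rw [h3]
    refine h2.trans ?_
    have h4 : C1 * (R : ℝ) ^ 4 ≤ C1 * (r0 + 2 : ℝ) ^ 4 :=
      mul_le_mul_of_nonneg_left (pow_le_pow_left₀ (Nat.cast_nonneg _) hRr 4) hC1.le
    calc C1 * (R : ℝ) ^ 4 * N ≤ C1 * (r0 + 2 : ℝ) ^ 4 * N := mul_le_mul_of_nonneg_right h4 hN0
      _ ≤ ((|I| + 1) + C1 * (r0 + 2 : ℝ) ^ 4) * N := by
          apply mul_le_mul_of_nonneg_right _ hN0
          have : 0 ≤ |I| := abs_nonneg I
          linarith
      _ ≤ ((|I| + 1) + C1 * (r0 + 2 : ℝ) ^ 4) * (1 + Real.log R) ^ 2 * N := by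
          apply mul_le_mul_of_nonneg_right _ hN0
          exact le_mul_of_one_le_right (by positivity) hone

lemma cos_sq (s x : ℝ) (hs : 0 < s) : |x ^ 2 - 2 / s ^ 2 * (1 - Real.cos (s * x))| ≤ s ^ 2 * x ^ 4 := by
  have key : ∀ y : ℝ, |y ^ 2 - 2 * (1 - Real.cos y)| ≤ y ^ 4 := by
    intro y
    by_cases hy : |y| ≤ 1
    · have h1 := Real.cos_bound hy
      have h2 : |y| ^ 4 = y ^ 4 := Even.pow_abs (by decide) y
      rw [h2] at h1
      have h3 : 0 ≤ y ^ 4 := by positivity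
      rw [abs_le] at h1 ⊢
      constructor <;> linarith [h1.1, h1.2]
    · push Not at hy
      have h1 := Real.one_sub_sq_div_two_le_cos (x := y)
      have h2 := Real.cos_le_one y
      have h3 : 1 ≤ y ^ 2 := by
        rw [← sq_abs]
        exact one_le_pow₀ hy.le
      rw [abs_le]
      constructor <;> nlinarith
  have h1 := key (s * x)
  have e : x ^ 2 - 2 / s ^ 2 * (1 - Real.cos (s * x)) =
      ((s * x) ^ 2 - 2 * (1 - Real.cos (s * x))) / s ^ 2 := by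
    field_simp
  rw [e, abs_div, abs_of_pos (by positivity : 0 < s ^ 2), div_le_iff₀ (by positivity)]
  calc |(s * x) ^ 2 - 2 * (1 - Real.cos (s * x))| ≤ (s * x) ^ 4 := h1
    _ = s ^ 2 * x ^ 4 * s ^ 2 := by ring

lemma exp_sq (s v : ℝ) (hs : 0 < s) (hs1 : s ≤ 1) (hv : 0 ≤ v) (hv1 : v ≤ 1) :
    |2 / s ^ 2 * (1 - Real.exp (-(s ^ 2 * v) / 2)) - v| ≤ s ^ 2 := by
  obtain ⟨y, hy⟩ : ∃ y : ℝ, y = s ^ 2 * v / 2 := ⟨_, rfl⟩
  have hs2 : s ^ 2 ≤ 1 := pow_le_one₀ hs.le hs1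
  have hy0 : 0 ≤ y := by rw [hy]; positivity
  have hy1 : y ≤ s ^ 2 := by
    rw [hy]
    nlinarith [sq_nonneg s]
  have h1 := Real.abs_exp_sub_one_sub_id_le (x := -y) (by rw [abs_neg, abs_of_nonneg hy0]; linarith)
  have e : 2 / s ^ 2 * (1 - Real.exp (-(s ^ 2 * v) / 2)) - v = -(2 / s ^ 2 * (Real.exp (-y) - 1 - -y)) := by
    have e1 : -(s ^ 2 * v) / 2 = -y := by rw [hy]; ring
    have e2 : v = 2 / s ^ 2 * y := by rw [hy]; field_simp
    rw [e1]
    linear_combination -e2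
  rw [e, abs_neg, abs_mul, abs_of_pos (by positivity : 0 < 2 / s ^ 2)]
  have h2 : y ^ 2 ≤ (s ^ 2) ^ 2 / 2 := by
    have : y ≤ s ^ 2 / 2 := by rw [hy]; nlinarith [sq_nonneg s]
    nlinarith [sq_nonneg s]
  calc 2 / s ^ 2 * |Real.exp (-y) - 1 - -y| ≤ 2 / s ^ 2 * ((-y) ^ 2) := mul_le_mul_of_nonneg_left h1 (by positivity)
    _ = 2 / s ^ 2 * y ^ 2 := by rw [neg_sq]
    _ ≤ 2 / s ^ 2 * ((s ^ 2) ^ 2 / 2) := mul_le_mul_of_nonneg_left h2 (by positivity)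
    _ = s ^ 2 := by field_simp

lemma abs_le_amgm (x t : ℝ) (ht : 0 < t) : |x| ≤ (t + x ^ 2 / t) / 2 := by
  rw [le_div_iff₀ (by norm_num), ← sq_abs x]
  have h : |x| * 2 * t ≤ t * t + |x| ^ 2 := by nlinarith [sq_nonneg (|x| - t)]
  have e : t + |x| ^ 2 / t = (t * t + |x| ^ 2) / t := by field_simp
  rw [e, le_div_iff₀ ht]
  exact h

lemma exists_base (A h0 : ℕ) (hA : 1 ≤ A) : ∀ᶠ m : ℕ in atTop, ∃ h : ℕ, h0 ≤ h ∧ h ^ A ≤ m ∧ m < (h + 1) ^ A := by
  filter_upwards [eventually_ge_atTop ((h0 + 1) ^ A), eventually_ge_atTop 1] with m hm hm1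
  obtain ⟨h, hh⟩ : ∃ h, h = Nat.findGreatest (fun h => h ^ A ≤ m) m := ⟨_, rfl⟩
  have h1 : h ^ A ≤ m := by
    rw [hh]
    exact Nat.findGreatest_spec (P := fun h => h ^ A ≤ m) (Nat.zero_le m) (by
      show 0 ^ A ≤ m
      rw [zero_pow (by omega)]
      exact Nat.zero_le _)
  have h2 : m < (h + 1) ^ A := by
    by_contra hcon
    push Not at hcon
    have h3 : h + 1 ≤ m := by
      calc h + 1 = (h + 1) ^ 1 := (pow_one _).symm
        _ ≤ (h + 1) ^ A := Nat.pow_le_pow_right (by omega) hA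
        _ ≤ m := hcon
    have h4 := Nat.findGreatest_is_greatest (P := fun h => h ^ A ≤ m) (n := m) (k := h + 1) (by rw [← hh]; omega) h3
    exact h4 hcon
  refine ⟨h, ?_, h1, h2⟩
  by_contra hcon
  push Not at hcon
  have h5 : (h + 1) ^ A ≤ (h0 + 1) ^ A := Nat.pow_le_pow_left (by omega) A
  omega

end Run7.h435.NF
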