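import Pool.Agent.Run7.h435.NFd

/-! # Law of large numbers for the squares of sums of consecutive gaps, on RH: conclusion -/

set_option autoImplicit false

namespace Run7.h435.NF

open Filter Finset MeasureTheory ProbabilityTheory Topology
open Run7.h435.GL (dd)

/-- a single pair `R, M` -/
lemma sq_one (C : ℝ) (hC : 0 < C)
    (hF : ∀ R : ℕ, ∀ᶠ N : ℕ in atTop, ∑ n ∈ Icc 1 N, Wd R n ^ 4 ≤ C * (1 + Real.log R) ^ 2 * N)
    (ε : ℝ) (hε : 0 < ε) : ∀ᶠ m : ℕ in atTop, ∀ R ≤ m, ∀ M ≤ m, ∀ᶠ N : ℕ in atTop,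
      av N (fun n => |(1 / m : ℝ) * ∑ j ∈ range M,
        (Wd R (n + j) ^ 2 / Real.log m - Real.log R / (Real.pi ^ 2 * Real.log m))|) ≤ ε := by
  have hpi := Real.pi_gt_three
  -- the parameters
  obtain ⟨τ, hτ⟩ : ∃ τ : ℝ, τ = min 1 (ε / 8) := ⟨_, rfl⟩
  have hτ0 : 0 < τ := by rw [hτ]; exact lt_min one_pos (by positivity)
  have hτ1 : τ ≤ ε / 8 := by rw [hτ]; exact min_le_right _ _
  obtain ⟨s, hs⟩ : ∃ s : ℝ, s = min 1 (ε / (4 * (32 * C + 1))) := ⟨_, rfl⟩
  have hs0 : 0 < s := by rw [hs]; exact lt_min one_pos (by positivity)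
  have hs1 : s ≤ 1 := by rw [hs]; exact min_le_left _ _
  have hs2 : (32 * C + 1) * s ^ 2 ≤ ε / 4 := by
    have h1 : s ≤ ε / (4 * (32 * C + 1)) := by rw [hs]; exact min_le_right _ _
    have h2 : s ^ 2 ≤ s := by nlinarith only [hs0, hs1]
    calc (32 * C + 1) * s ^ 2 ≤ (32 * C + 1) * (ε / (4 * (32 * C + 1))) :=
          mul_le_mul_of_nonneg_left (h2.trans h1) (by positivity)
      _ = ε / 4 := by field_simp
  obtain ⟨B, hB⟩ := exists_nat_ge (max (2 / τ) (max (8 / ε) (64 * C / (ε / 4) ^ 2)) + 1)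
  have hB1 : (1 : ℝ) ≤ B := by
    have : 0 ≤ max (2 / τ) (max (8 / ε) (64 * C / (ε / 4) ^ 2)) := (by positivity : 0 ≤ 2 / τ).trans (le_max_left _ _)
    linarith
  have hB1' : 1 ≤ B := by exact_mod_cast hB1
  have hBτ : 2 / τ ≤ B := ((le_max_left _ _).trans (by linarith [hB]) : 2 / τ ≤ B)
  have hBε : 8 / ε ≤ B :=
    (((le_max_left _ _).trans (le_max_right _ _)).trans (by linarith [hB]) : 8 / ε ≤ B)
  have hBC : 64 * C / (ε / 4) ^ 2 ≤ B :=
    (((le_max_right _ _).trans (le_max_right _ _)).trans (by linarith [hB]) : 64 * C / (ε / 4) ^ 2 ≤ B)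
  obtain ⟨A, hA⟩ : ∃ A : ℝ, A = B + 1 := ⟨_, rfl⟩
  have hA1 : 1 ≤ A := by rw [hA]; linarith
  have hA0 : 0 < A := by linarith
  obtain ⟨σ, hσ⟩ : ∃ σ : ℝ, σ = s / Real.sqrt A := ⟨_, rfl⟩
  have hsA : 1 ≤ Real.sqrt A := Real.one_le_sqrt.2 hA1
  have hσ0 : 0 < σ := by rw [hσ]; positivity
  have hσ1 : |σ| ≤ 1 := by
    rw [abs_of_pos hσ0, hσ]
    exact (div_le_self hs0.le hsA).trans hs1
  have hσ4 : σ ^ 4 = s ^ 4 / A ^ 2 := by
    rw [hσ, div_pow, show Real.sqrt A ^ 4 = (Real.sqrt A ^ 2) ^ 2 by ring, Real.sq_sqrt hA0.le]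
  have hσ2 : σ ^ 2 = s ^ 2 / A := by
    rw [hσ, div_pow, Real.sq_sqrt hA0.le]
  have hσ4' : σ ^ 4 ≤ s ^ 4 * τ ^ 2 / 4 := by
    rw [hσ4]
    rw [div_le_iff₀ (by positivity)]
    have h1 : 2 ≤ τ * A := by
      rw [div_le_iff₀ hτ0] at hBτ
      rw [hA]
      linarith only [hBτ, hτ0]
    have h2 : 4 ≤ (τ * A) ^ 2 := by nlinarith only [h1]
    have h3 : 0 ≤ s ^ 4 := by positivity
    calc s ^ 4 = s ^ 4 * 4 / 4 := by ring
      _ ≤ s ^ 4 * (τ * A) ^ 2 / 4 := by
          apply div_le_div_of_nonneg_right _ (by norm_num)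
          exact mul_le_mul_of_nonneg_left h2 h3
      _ = _ := by ring
  have hlln := (lln_cos B hB1' σ hσ1 (s ^ 4 * τ ^ 2 / 4) (by positivity)).and (eventually_ge_atTop 3)
  obtain ⟨h0, hh0⟩ := hlln.exists_forall_of_atTop
  filter_upwards [exists_base (B + 1) (max h0 3) (by omega), eventually_ge_atTop 3] with m hm hm3 R hR M hM
  obtain ⟨h, hh, hm1, hm2⟩ := hm
  obtain ⟨hln, hh3⟩ := hh0 h ((le_max_left _ _).trans hh)
  -- logarithms
  have hmr : (0 : ℝ) < m := by exact_mod_cast (by omega : 0 < m)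
  have hhr : (3 : ℝ) ≤ h := by exact_mod_cast hh3
  have hlh : 1 ≤ Real.log h := by
    rw [Real.le_log_iff_exp_le (by linarith)]
    linarith [Real.exp_one_lt_d9]
  obtain ⟨a, ha⟩ : ∃ a : ℝ, a = A * Real.log h := ⟨_, rfl⟩
  have ha1 : 1 ≤ a := by rw [ha]; nlinarith only [hA1, hlh]
  have ha0 : 0 < a := by linarith
  have hlm1 : a ≤ Real.log m := by
    have h1 : Real.log ((h : ℝ) ^ (B + 1)) ≤ Real.log m :=
      Real.log_le_log (by positivity) (by exact_mod_cast hm1)
    rw [Real.log_pow] at h1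
    push_cast at h1
    rw [ha, hA]
    exact h1
  have hlm2 : Real.log m ≤ 2 * a := by
    have h1 : Real.log m ≤ Real.log (((h : ℝ) ^ 2) ^ (B + 1)) := by
      apply Real.log_le_log hmr
      have h2 : (m : ℝ) ≤ ((h : ℝ) + 1) ^ (B + 1) := by exact_mod_cast hm2.le
      refine h2.trans (pow_le_pow_left₀ (by positivity) ?_ _)
      nlinarith only [hhr]
    rw [Real.log_pow, Real.log_pow] at h1
    push_cast at h1
    rw [ha, hA]
    linarith only [h1]
  have hlm0 : 0 < Real.log m := by linarith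
  have hMm : (M : ℝ) ≤ m := by exact_mod_cast hM
  have hM0 : (0 : ℝ) ≤ M := Nat.cast_nonneg _
  have hMm1 : 1 / (m : ℝ) * M ≤ 1 := by
    rw [one_div, inv_mul_le_iff₀ hmr, mul_one]
    exact hMm
  have hlR0 : 0 ≤ Real.log R := Real.log_natCast_nonneg R
  -- the normalised squares
  obtain ⟨v, hv⟩ : ∃ v : ℝ, v = Real.log R / (Real.pi ^ 2 * a) := ⟨_, rfl⟩
  have hv0 : 0 ≤ v := by rw [hv]; positivity
  obtain ⟨X, hX⟩ : ∃ X : ℕ → ℝ, X = fun n => Wd R n / Real.sqrt a := ⟨_, rfl⟩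
  have hX2 : ∀ n, X n ^ 2 = Wd R n ^ 2 / a := fun n => by
    rw [hX]
    simp only
    rw [div_pow, Real.sq_sqrt ha0.le]
  have hX4 : ∀ n, X n ^ 4 = Wd R n ^ 4 / a ^ 2 := fun n => by
    rw [hX]
    simp only
    rw [div_pow, show Real.sqrt a ^ 4 = (Real.sqrt a ^ 2) ^ 2 by ring, Real.sq_sqrt ha0.le]
  have hred : ∀ n, |(1 / m : ℝ) * ∑ j ∈ range M,
      (Wd R (n + j) ^ 2 / Real.log m - Real.log R / (Real.pi ^ 2 * Real.log m))| ≤
      |(1 / m : ℝ) * ∑ j ∈ range M, (X (n + j) ^ 2 - v)| := by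
    intro n
    have e : (1 / m : ℝ) * ∑ j ∈ range M,
        (Wd R (n + j) ^ 2 / Real.log m - Real.log R / (Real.pi ^ 2 * Real.log m)) =
        (a / Real.log m) * ((1 / m : ℝ) * ∑ j ∈ range M, (X (n + j) ^ 2 - v)) := by
      rw [← mul_assoc, mul_comm (a / Real.log m), mul_assoc, Finset.mul_sum (range M) _ (a / Real.log m)]
      congr 1
      refine Finset.sum_congr rfl fun j _ => ?_
      rw [hX2, hv]
      field_simp
    rw [e, abs_mul, abs_of_pos (by positivity : 0 < a / Real.log m)]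
    apply mul_le_of_le_one_left (abs_nonneg _)
    rw [div_le_one hlm0]
    exact hlm1
  -- fourth moments
  obtain ⟨N1, hN1⟩ := (hF R).exists_forall_of_atTop
  have h4m : ∀ N, max N1 (max m 1) ≤ N → ∀ j < M, av N (fun n => X (n + j) ^ 4) ≤
      2 * (C * (1 + Real.log R) ^ 2 / a ^ 2) := by
    intro N hN j hj
    have hN1' : N1 ≤ N := (le_max_left _ _).trans hN
    have hNm : m ≤ N := ((le_max_left _ _).trans (le_max_right _ _)).trans hN
    have hN1'' : 1 ≤ N := ((le_max_right _ _).trans (le_max_right _ _)).trans hN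
    refine av_shift_nonneg (d := j) (by omega) (fun n => X n ^ 4) (fun n => by positivity) (by positivity) ?_ hN1''
    intro K hK
    simp only [hX4]
    rw [← Finset.sum_div, div_le_iff₀ (by positivity)]
    refine (hN1 K (hN1'.trans hK)).trans (le_of_eq ?_)
    field_simp
  by_cases hRh : h ≤ R
  · -- the main case
    have hR1 : (1 : ℝ) ≤ R := by
      have : 1 ≤ R := by omega
      exact_mod_cast this
    have hlRm : Real.log R ≤ Real.log m := Real.log_le_log (by linarith) (by exact_mod_cast hR)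
    have hv1 : v ≤ 1 := by
      rw [hv, div_le_one (by positivity)]
      have h1 : 2 * a ≤ Real.pi ^ 2 * a := mul_le_mul_of_nonneg_right (by nlinarith only [hpi]) ha0.le
      linarith only [h1, hlRm, hlm2]
    have h4b : C * (1 + Real.log R) ^ 2 / a ^ 2 ≤ 16 * C := by
      rw [div_le_iff₀ (by positivity)]
      have h1 : 1 + Real.log R ≤ 4 * a := by linarith only [hlRm, hlm2, ha1]
      have h2 : (1 + Real.log R) ^ 2 ≤ (4 * a) ^ 2 := pow_le_pow_left₀ (by positivity) h1 2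
      calc C * (1 + Real.log R) ^ 2 ≤ C * (4 * a) ^ 2 := mul_le_mul_of_nonneg_left h2 hC.le
        _ = 16 * C * a ^ 2 := by ring
    filter_upwards [hln m R hm1 hm2 hRh hR M hM, eventually_ge_atTop (max N1 (max m 1))] with N hN hNb
    have hN1'' : 1 ≤ N := ((le_max_right _ _).trans (le_max_right _ _)).trans hNb
    -- the cosines
    have hYX : ∀ n, Yc h R σ n = Real.cos (s * X n) - Real.exp (-(s ^ 2 * v) / 2) := by
      intro n
      unfold Yc
      have e1 : σ * (Wd R n / Real.sqrt (Real.log h)) = s * X n := by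
        rw [hσ, hX, ha]
        simp only
        rw [Real.sqrt_mul hA0.le]
        field_simp
      have e2 : σ ^ 2 * vv h R = s ^ 2 * v := by
        rw [hσ2, hv, ha]
        unfold vv
        field_simp
      rw [e1, e2]
    have hpt : ∀ n, |(1 / m : ℝ) * ∑ j ∈ range M, (X (n + j) ^ 2 - v)| ≤
        (1 / m : ℝ) * ∑ j ∈ range M, s ^ 2 * X (n + j) ^ 4 +
        (2 / s ^ 2) * ((s ^ 2 * τ + ((1 / m : ℝ) * ∑ j ∈ range M, Yc h R σ (n + j)) ^ 2 / (s ^ 2 * τ)) / 2) + s ^ 2 := by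
      intro n
      have e : (1 / m : ℝ) * ∑ j ∈ range M, (X (n + j) ^ 2 - v) =
          (1 / m : ℝ) * ∑ j ∈ range M, (X (n + j) ^ 2 - 2 / s ^ 2 * (1 - Real.cos (s * X (n + j)))) -
          (2 / s ^ 2) * ((1 / m : ℝ) * ∑ j ∈ range M, Yc h R σ (n + j)) +
          (1 / m : ℝ) * M * (2 / s ^ 2 * (1 - Real.exp (-(s ^ 2 * v) / 2)) - v) := by
        have e1 : ∑ j ∈ range M, Yc h R σ (n + j) = ∑ j ∈ range M, Real.cos (s * X (n + j)) -
            M * Real.exp (-(s ^ 2 * v) / 2) := by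
          simp only [hYX]
          rw [Finset.sum_sub_distrib, Finset.sum_const, Finset.card_range, nsmul_eq_mul]
        have e2 : ∑ j ∈ range M, (X (n + j) ^ 2 - v) = ∑ j ∈ range M, X (n + j) ^ 2 - M * v := by
          rw [Finset.sum_sub_distrib, Finset.sum_const, Finset.card_range, nsmul_eq_mul]
        have e3 : ∑ j ∈ range M, (X (n + j) ^ 2 - 2 / s ^ 2 * (1 - Real.cos (s * X (n + j)))) =
            ∑ j ∈ range M, X (n + j) ^ 2 - 2 / s ^ 2 * (M - ∑ j ∈ range M, Real.cos (s * X (n + j))) := by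
          rw [Finset.sum_sub_distrib, ← Finset.mul_sum, Finset.sum_sub_distrib, Finset.sum_const,
            Finset.card_range, nsmul_eq_mul, mul_one]
        rw [e1, e2, e3]
        ring
      rw [e]
      have b1 : |(1 / m : ℝ) * ∑ j ∈ range M, (X (n + j) ^ 2 - 2 / s ^ 2 * (1 - Real.cos (s * X (n + j))))| ≤
          (1 / m : ℝ) * ∑ j ∈ range M, s ^ 2 * X (n + j) ^ 4 := by
        rw [abs_mul, abs_of_pos (by positivity : (0 : ℝ) < 1 / m)]
        apply mul_le_mul_of_nonneg_left _ (by positivity)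
        exact (Finset.abs_sum_le_sum_abs _ _).trans (Finset.sum_le_sum fun j _ => cos_sq s _ hs0)
      have b2 : |(2 / s ^ 2) * ((1 / m : ℝ) * ∑ j ∈ range M, Yc h R σ (n + j))| ≤
          (2 / s ^ 2) * ((s ^ 2 * τ + ((1 / m : ℝ) * ∑ j ∈ range M, Yc h R σ (n + j)) ^ 2 / (s ^ 2 * τ)) / 2) := by
        rw [abs_mul, abs_of_pos (by positivity : (0 : ℝ) < 2 / s ^ 2)]
        exact mul_le_mul_of_nonneg_left (abs_le_amgm _ _ (by positivity)) (by positivity)
      have b3 : |(1 / m : ℝ) * M * (2 / s ^ 2 * (1 - Real.exp (-(s ^ 2 * v) / 2)) - v)| ≤ s ^ 2 := by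
        rw [abs_mul, abs_of_nonneg (by positivity : (0 : ℝ) ≤ 1 / m * M)]
        exact (mul_le_of_le_one_left (abs_nonneg _) hMm1).trans (exp_sq s v hs0 hs1 hv0 hv1)
      refine (abs_add_le _ _).trans (add_le_add ((abs_sub _ _).trans (add_le_add b1 b2)) b3)
    have hav : av N (fun n => |(1 / m : ℝ) * ∑ j ∈ range M, (X (n + j) ^ 2 - v)|) ≤
        (1 / m : ℝ) * ∑ j ∈ range M, s ^ 2 * av N (fun n => X (n + j) ^ 4) +
        (2 / s ^ 2) * ((s ^ 2 * τ + av N (fun n => ((1 / m : ℝ) * ∑ j ∈ range M, Yc h R σ (n + j)) ^ 2) / (s ^ 2 * τ)) / 2) + s ^ 2 := by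
      refine (av_mono fun n _ => hpt n).trans (le_of_eq ?_)
      have e1 : (fun n => (1 / m : ℝ) * ∑ j ∈ range M, s ^ 2 * X (n + j) ^ 4 +
        (2 / s ^ 2) * ((s ^ 2 * τ + ((1 / m : ℝ) * ∑ j ∈ range M, Yc h R σ (n + j)) ^ 2 / (s ^ 2 * τ)) / 2) + s ^ 2) =
        fun n => ((1 / m : ℝ) * (∑ j ∈ range M, s ^ 2 * X (n + j) ^ 4) +
          ((2 / s ^ 2) * (1 / (s ^ 2 * τ)) * (1 / 2)) * ((1 / m : ℝ) * ∑ j ∈ range M, Yc h R σ (n + j)) ^ 2) +
          (τ + s ^ 2) := by
        funext n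
        field_simp
        ring
      rw [e1, av_add, av_const hN1'', av_add, av_mul, av_mul, av_sum]
      simp only [av_mul]
      field_simp
      ring
    refine (av_mono fun n _ => hred n).trans (hav.trans ?_)
    have c1 : (1 / m : ℝ) * ∑ j ∈ range M, s ^ 2 * av N (fun n => X (n + j) ^ 4) ≤ s ^ 2 * (32 * C) := by
      have : ∀ j ∈ range M, s ^ 2 * av N (fun n => X (n + j) ^ 4) ≤ s ^ 2 * (32 * C) := by
        intro j hj
        apply mul_le_mul_of_nonneg_left _ (sq_nonneg s)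
        refine (h4m N hNb j (Finset.mem_range.1 hj)).trans ?_
        linarith only [h4b]
      calc (1 / m : ℝ) * ∑ j ∈ range M, s ^ 2 * av N (fun n => X (n + j) ^ 4) ≤
          (1 / m : ℝ) * ∑ _j ∈ range M, s ^ 2 * (32 * C) :=
            mul_le_mul_of_nonneg_left (Finset.sum_le_sum this) (by positivity)
        _ = (1 / m : ℝ) * M * (s ^ 2 * (32 * C)) := by
            rw [Finset.sum_const, Finset.card_range, nsmul_eq_mul]
            ring
        _ ≤ 1 * (s ^ 2 * (32 * C)) := mul_le_mul_of_nonneg_right hMm1 (by positivity)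
        _ = _ := one_mul _
    have c2 : (2 / s ^ 2) * ((s ^ 2 * τ + av N (fun n => ((1 / m : ℝ) * ∑ j ∈ range M, Yc h R σ (n + j)) ^ 2) / (s ^ 2 * τ)) / 2) ≤
        2 * τ := by
      have h1 : av N (fun n => ((1 / m : ℝ) * ∑ j ∈ range M, Yc h R σ (n + j)) ^ 2) / (s ^ 2 * τ) ≤ s ^ 2 * τ := by
        rw [div_le_iff₀ (by positivity)]
        refine hN.trans ?_
        have h2 : 0 ≤ s ^ 4 * τ ^ 2 := by positivity
        calc σ ^ 4 + s ^ 4 * τ ^ 2 / 4 ≤ s ^ 4 * τ ^ 2 / 4 + s ^ 4 * τ ^ 2 / 4 := by linarith only [hσ4']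
          _ ≤ s ^ 4 * τ ^ 2 := by linarith only [h2]
          _ = _ := by ring
      calc (2 / s ^ 2) * ((s ^ 2 * τ + av N (fun n => ((1 / m : ℝ) * ∑ j ∈ range M, Yc h R σ (n + j)) ^ 2) / (s ^ 2 * τ)) / 2) ≤
          (2 / s ^ 2) * ((s ^ 2 * τ + s ^ 2 * τ) / 2) := by
            apply mul_le_mul_of_nonneg_left _ (by positivity)
            linarith only [h1]
        _ = 2 * τ := by field_simp; ring
    linarith only [c1, c2, hs2, hτ1, hε]
  · -- few gaps
    push Not at hRh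
    have hlRh : Real.log R ≤ Real.log h := by
      rcases Nat.eq_zero_or_pos R with h1 | h1
      · rw [h1, Nat.cast_zero, Real.log_zero]; linarith
      · exact Real.log_le_log (by exact_mod_cast h1) (by exact_mod_cast hRh.le)
    have hBA : (B : ℝ) ≤ A := by rw [hA]; linarith
    have hva : v ≤ ε / 8 := by
      have h1 : v ≤ 1 / A := by
        rw [hv, ha, div_le_div_iff₀ (by positivity) hA0, one_mul]
        have h3 : Real.log R * A ≤ Real.log h * A := mul_le_mul_of_nonneg_right hlRh hA0.le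
        have h4 : 1 * (A * Real.log h) ≤ Real.pi ^ 2 * (A * Real.log h) :=
          mul_le_mul_of_nonneg_right (by nlinarith only [hpi]) (by positivity)
        linarith only [h3, h4]
      have h2 : 1 / A ≤ ε / 8 := by
        rw [div_le_div_iff₀ hA0 (by norm_num)]
        rw [div_le_iff₀ hε] at hBε
        rw [hA]
        linarith only [hBε, hε]
      exact h1.trans h2
    have h4b : C * (1 + Real.log R) ^ 2 / a ^ 2 ≤ 4 * C / A ^ 2 := by
      rw [div_le_div_iff₀ (by positivity) (by positivity)]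
      have h1 : (1 + Real.log R) ^ 2 ≤ (2 * Real.log h) ^ 2 :=
        pow_le_pow_left₀ (by positivity) (by linarith only [hlh, hlRh]) 2
      calc C * (1 + Real.log R) ^ 2 * A ^ 2 ≤ C * (2 * Real.log h) ^ 2 * A ^ 2 := by gcongr
        _ = 4 * C * a ^ 2 := by rw [ha]; ring
    filter_upwards [eventually_ge_atTop (max N1 (max m 1))] with N hNb
    have hN1'' : 1 ≤ N := ((le_max_right _ _).trans (le_max_right _ _)).trans hNb
    have hsq : ∀ j < M, av N (fun n => X (n + j) ^ 2) ≤ ε / 4 := by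
      intro j hj
      have h1 : ∀ n, X (n + j) ^ 2 ≤ (ε / 4) / 2 + (1 / (2 * (ε / 4))) * X (n + j) ^ 4 := by
        intro n
        have h2 := abs_le_amgm (X (n + j) ^ 2) (ε / 4) (by positivity)
        rw [abs_of_nonneg (sq_nonneg _)] at h2
        refine h2.trans (le_of_eq ?_)
        field_simp
      have h3 := h4m N hNb j hj
      have h5 : av N (fun n => X (n + j) ^ 2) ≤ (ε / 4) / 2 + (1 / (2 * (ε / 4))) * av N (fun n => X (n + j) ^ 4) := by
        refine (av_mono fun n _ => h1 n).trans (le_of_eq ?_)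
        rw [av_add, av_const hN1'', av_mul]
      have h6 : (1 / (2 * (ε / 4))) * av N (fun n => X (n + j) ^ 4) ≤ (ε / 4) / 2 := by
        have h7 : av N (fun n => X (n + j) ^ 4) ≤ 8 * C / A ^ 2 := by
          refine h3.trans ?_
          have e : 8 * C / A ^ 2 = 2 * (4 * C / A ^ 2) := by ring
          rw [e]
          linarith only [h4b]
        have h8 : 8 * C / A ^ 2 ≤ (ε / 4) ^ 2 := by
          rw [div_le_iff₀ (by positivity)]
          rw [div_le_iff₀ (by positivity : 0 < (ε / 4) ^ 2)] at hBC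
          have h9 : (B : ℝ) ≤ A ^ 2 := by rw [hA]; nlinarith only [hB1]
          have h10 : 0 < (ε / 4) ^ 2 := by positivity
          have h11 : (B : ℝ) * (ε / 4) ^ 2 ≤ A ^ 2 * (ε / 4) ^ 2 := mul_le_mul_of_nonneg_right h9 h10.le
          linarith only [hBC, h11, hC]
        calc (1 / (2 * (ε / 4))) * av N (fun n => X (n + j) ^ 4) ≤ (1 / (2 * (ε / 4))) * (ε / 4) ^ 2 :=
              mul_le_mul_of_nonneg_left (h7.trans h8) (by positivity)
          _ = (ε / 4) / 2 := by field_simp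
      linarith only [h5, h6]
    have hpt : ∀ n, |(1 / m : ℝ) * ∑ j ∈ range M, (X (n + j) ^ 2 - v)| ≤
        (1 / m : ℝ) * ∑ j ∈ range M, X (n + j) ^ 2 + v := by
      intro n
      rw [Finset.sum_sub_distrib, Finset.sum_const, Finset.card_range, nsmul_eq_mul, mul_sub]
      refine (abs_sub _ _).trans ?_
      have h1 : 0 ≤ (1 / m : ℝ) * ∑ j ∈ range M, X (n + j) ^ 2 :=
        mul_nonneg (by positivity) (Finset.sum_nonneg fun _ _ => sq_nonneg _)
      rw [abs_of_nonneg h1, ← mul_assoc, abs_of_nonneg (by positivity)]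
      have := mul_le_of_le_one_left hv0 hMm1
      linarith only [this]
    refine (av_mono fun n _ => hred n).trans ((av_mono fun n _ => hpt n).trans ?_)
    rw [av_add, av_const hN1'', av_mul, av_sum]
    have c1 : (1 / m : ℝ) * ∑ j ∈ range M, av N (fun n => X (n + j) ^ 2) ≤ ε / 4 := by
      calc (1 / m : ℝ) * ∑ j ∈ range M, av N (fun n => X (n + j) ^ 2) ≤ (1 / m : ℝ) * ∑ _j ∈ range M, ε / 4 :=
            mul_le_mul_of_nonneg_left (Finset.sum_le_sum fun j hj => hsq j (Finset.mem_range.1 hj)) (by positivity)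
        _ = (1 / m : ℝ) * M * (ε / 4) := by
            rw [Finset.sum_const, Finset.card_range, nsmul_eq_mul]
            ring
        _ ≤ 1 * (ε / 4) := mul_le_mul_of_nonneg_right hMm1 (by positivity)
        _ = _ := one_mul _
    linarith only [c1, hva, hε]

theorem sq_law (hRH : SP.RHs) (ε : ℝ) (hε : 0 < ε) : ∀ᶠ m : ℕ in atTop, ∀ᶠ N : ℕ in atTop, ∀ R ≤ m, ∀ M ≤ m,
      av N (fun n => |(1 / m : ℝ) * ∑ j ∈ range M,
        (Wd R (n + j) ^ 2 / Real.log m - Real.log R / (Real.pi ^ 2 * Real.log m))|) ≤ ε := by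
  obtain ⟨C, hC, hF⟩ := fourth hRH
  filter_upwards [sq_one C hC hF ε hε] with m hm
  have h1 : ∀ᶠ N : ℕ in atTop, ∀ R ∈ range (m + 1), ∀ M ∈ range (m + 1),
      av N (fun n => |(1 / m : ℝ) * ∑ j ∈ range M,
        (Wd R (n + j) ^ 2 / Real.log m - Real.log R / (Real.pi ^ 2 * Real.log m))|) ≤ ε := by
    rw [Filter.eventually_all_finset]
    intro R hR
    rw [Filter.eventually_all_finset]
    intro M hM
    rw [Finset.mem_range] at hR hM
    exact hm R (by omega) M (by omega)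
  filter_upwards [h1] with N hN R hR M hM
  exact hN R (Finset.mem_range.2 (by omega)) M (Finset.mem_range.2 (by omega))

end Run7.h435.NF
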