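import Pool.Agent.Run7.h435.NFe

/-! # The periodogram of windows of gaps: energies -/

set_option autoImplicit false

namespace Run7.h435.NF

open Filter Finset Topology

/-- normalised power at the frequency `k / m` for the window starting at `n` -/
noncomputable def Qk (m k n : ℕ) : ℝ := ‖ft m (fun j => Wd j n) k‖ ^ 2 / ((m : ℝ) ^ 2 * Real.log m)

/-- limit of the mean square -/
noncomputable def vm (m r : ℕ) : ℝ := Real.log r / (Real.pi ^ 2 * Real.log m)

/-- limit of the energy of the cyclic increments -/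
noncomputable def cR (m R : ℕ) : ℝ := ((m : ℝ) - R) / m * vm m R + R / m * vm m (m - R)

/-- energy of the cyclic increments -/
noncomputable def CR (m R n : ℕ) : ℝ :=
  ∑ k ∈ Ico 1 m, (2 - 2 * Real.cos (2 * Real.pi * (k * ((R : ℝ) / m)))) * Qk m k n

lemma Qk_nonneg {m : ℕ} (hm : 1 ≤ m) (k n : ℕ) : 0 ≤ Qk m k n := by
  unfold Qk
  have : 0 ≤ Real.log m := Real.log_natCast_nonneg m
  positivity

lemma CR_eq (m R n : ℕ) (hm : 2 ≤ m) (hR : R ≤ m) : CR m R n =
    (1 / m : ℝ) * ∑ j ∈ range (m - R), Wd R (n + j) ^ 2 / Real.log m +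
    (1 / m : ℝ) * ∑ i ∈ range R, Wd (m - R) (n + i) ^ 2 / Real.log m := by
  have hm0 : (0 : ℝ) < m := by exact_mod_cast (by omega : 0 < m)
  have hl : 0 < Real.log m := Real.log_pos (by exact_mod_cast (by omega : 1 < m))
  have h1 := spec_id m R (by omega) hR (fun j => Wd j n)
  have h2 : ∀ j, Wd (j + R) n - Wd j n = Wd R (n + j) := fun j => by rw [Wd_add]; ring
  have h3 : ∀ i, Wd (i + (m - R)) n - Wd i n = Wd (m - R) (n + i) := fun i => by rw [Wd_add]; ring
  simp only [h2, h3] at h1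
  have h4 : ∑ k ∈ range m, (2 - 2 * Real.cos (2 * Real.pi * (k * ((R : ℝ) / m)))) * ‖ft m (fun j => Wd j n) k‖ ^ 2 =
      ∑ k ∈ Ico 1 m, (2 - 2 * Real.cos (2 * Real.pi * (k * ((R : ℝ) / m)))) * ‖ft m (fun j => Wd j n) k‖ ^ 2 := by
    rw [Finset.range_eq_Ico, Finset.sum_eq_sum_Ico_succ_bot (by omega : 0 < m)]
    simp
  rw [h4] at h1
  unfold CR Qk
  have h5 : ∑ k ∈ Ico 1 m, (2 - 2 * Real.cos (2 * Real.pi * (k * ((R : ℝ) / m)))) *
      (‖ft m (fun j => Wd j n) k‖ ^ 2 / ((m : ℝ) ^ 2 * Real.log m)) =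
      (∑ k ∈ Ico 1 m, (2 - 2 * Real.cos (2 * Real.pi * (k * ((R : ℝ) / m)))) *
      ‖ft m (fun j => Wd j n) k‖ ^ 2) / ((m : ℝ) ^ 2 * Real.log m) := by
    rw [Finset.sum_div]
    refine Finset.sum_congr rfl fun k _ => ?_
    rw [mul_div_assoc]
  rw [h5, h1, ← Finset.sum_div, ← Finset.sum_div]
  field_simp

lemma CR_law (hRH : SP.RHs) (ε : ℝ) (hε : 0 < ε) : ∀ᶠ m : ℕ in atTop, ∀ᶠ N : ℕ in atTop, ∀ R ≤ m,
    av N (fun n => |CR m R n - cR m R|) ≤ ε := by
  filter_upwards [sq_law hRH (ε / 2) (by positivity), eventually_ge_atTop 2] with m hm hm2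
  filter_upwards [hm] with N hN R hR
  have hm0 : (0 : ℝ) < m := by exact_mod_cast (by omega : 0 < m)
  have h1 := hN R hR (m - R) (Nat.sub_le _ _)
  have h2 := hN (m - R) (Nat.sub_le _ _) R hR
  have hpt : ∀ n, |CR m R n - cR m R| ≤
      |(1 / m : ℝ) * ∑ j ∈ range (m - R), (Wd R (n + j) ^ 2 / Real.log m - Real.log R / (Real.pi ^ 2 * Real.log m))| +
      |(1 / m : ℝ) * ∑ j ∈ range R, (Wd (m - R) (n + j) ^ 2 / Real.log m -
        Real.log (m - R : ℕ) / (Real.pi ^ 2 * Real.log m))| := by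
    intro n
    have e : CR m R n - cR m R =
      (1 / m : ℝ) * ∑ j ∈ range (m - R), (Wd R (n + j) ^ 2 / Real.log m - Real.log R / (Real.pi ^ 2 * Real.log m)) +
      (1 / m : ℝ) * ∑ j ∈ range R, (Wd (m - R) (n + j) ^ 2 / Real.log m -
        Real.log (m - R : ℕ) / (Real.pi ^ 2 * Real.log m)) := by
      rw [CR_eq m R n hm2 hR, Finset.sum_sub_distrib, Finset.sum_sub_distrib, Finset.sum_const, Finset.sum_const,
        Finset.card_range, Finset.card_range, nsmul_eq_mul, nsmul_eq_mul, Nat.cast_sub hR]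
      unfold cR vm
      rw [Nat.cast_sub hR]
      field_simp
      ring
    rw [e]
    exact abs_add_le _ _
  refine (av_mono fun n _ => hpt n).trans ?_
  rw [av_add]
  linarith

/-- double mean of the energies -/
noncomputable def AR (m R n : ℕ) : ℝ :=
  (1 / (2 * (R : ℝ) ^ 2)) * ∑ r ∈ range R, ∑ s ∈ range R, CR m (ds r s) n

/-- its limit -/
noncomputable def aR (m R : ℕ) : ℝ :=
  (1 / (2 * (R : ℝ) ^ 2)) * ∑ r ∈ range R, ∑ s ∈ range R, cR m (ds r s)

lemma AR_law (hRH : SP.RHs) (ε : ℝ) (hε : 0 < ε) : ∀ᶠ m : ℕ in atTop, ∀ᶠ N : ℕ in atTop, ∀ R : ℕ, 1 ≤ R → R ≤ m →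
    av N (fun n => |AR m R n - aR m R|) ≤ ε := by
  filter_upwards [CR_law hRH ε hε] with m hm
  filter_upwards [hm] with N hN R hR1 hR
  have hR0 : (0 : ℝ) < R := by exact_mod_cast hR1
  have hpt : ∀ n, |AR m R n - aR m R| ≤
      (1 / (2 * (R : ℝ) ^ 2)) * ∑ r ∈ range R, ∑ s ∈ range R, |CR m (ds r s) n - cR m (ds r s)| := by
    intro n
    unfold AR aR
    rw [← mul_sub, abs_mul, abs_of_pos (by positivity : 0 < 1 / (2 * (R : ℝ) ^ 2)), ← Finset.sum_sub_distrib]
    apply mul_le_mul_of_nonneg_left _ (by positivity)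
    refine (Finset.abs_sum_le_sum_abs _ _).trans (Finset.sum_le_sum fun r _ => ?_)
    rw [← Finset.sum_sub_distrib]
    exact Finset.abs_sum_le_sum_abs _ _
  refine (av_mono fun n _ => hpt n).trans ?_
  rw [av_mul, av_sum]
  have h1 : ∑ r ∈ range R, av N (fun n => ∑ s ∈ range R, |CR m (ds r s) n - cR m (ds r s)|) ≤
      ∑ _r ∈ range R, ∑ _s ∈ range R, ε := by
    refine Finset.sum_le_sum fun r hr => ?_
    rw [av_sum]
    refine Finset.sum_le_sum fun s hs => ?_
    rw [Finset.mem_range] at hr hs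
    exact hN _ (by unfold ds; omega)
  refine (mul_le_mul_of_nonneg_left h1 (by positivity)).trans ?_
  simp only [Finset.sum_const, Finset.card_range, nsmul_eq_mul]
  have e : 1 / (2 * (R : ℝ) ^ 2) * (R * (R * ε)) = ε / 2 := by field_simp
  rw [e]
  linarith

/-- energy weighted with the squares of the Dirichlet means -/
noncomputable def GR (m R n : ℕ) : ℝ := ∑ k ∈ Ico 1 m, DR m R k * Qk m k n

/-- the total energy -/
noncomputable def H0 (m n : ℕ) : ℝ := ∑ k ∈ Ico 1 m, Qk m k n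

lemma GR_eq (m R n : ℕ) (hR : 1 ≤ R) : GR m R n = H0 m n - AR m R n := by
  unfold GR H0 AR CR
  have h1 : ∑ r ∈ range R, ∑ s ∈ range R, ∑ k ∈ Ico 1 m,
      (2 - 2 * Real.cos (2 * Real.pi * (k * ((ds r s : ℝ) / m)))) * Qk m k n =
      ∑ k ∈ Ico 1 m, (∑ r ∈ range R, ∑ s ∈ range R,
        (2 - 2 * Real.cos (2 * Real.pi * (k * ((ds r s : ℝ) / m))))) * Qk m k n := by
    have e1 : ∀ r, ∑ s ∈ range R, ∑ k ∈ Ico 1 m, (2 - 2 * Real.cos (2 * Real.pi * (k * ((ds r s : ℝ) / m)))) * Qk m k n =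
        ∑ k ∈ Ico 1 m, ∑ s ∈ range R, (2 - 2 * Real.cos (2 * Real.pi * (k * ((ds r s : ℝ) / m)))) * Qk m k n :=
      fun r => Finset.sum_comm
    simp only [e1]
    rw [Finset.sum_comm]
    refine Finset.sum_congr rfl fun k _ => ?_
    rw [Finset.sum_mul]
    refine Finset.sum_congr rfl fun r _ => ?_
    rw [Finset.sum_mul]
  rw [h1, Finset.mul_sum, ← Finset.sum_sub_distrib]
  refine Finset.sum_congr rfl fun k _ => ?_
  rw [DR_eq m R k hR]
  ring

lemma H0_eq (m n : ℕ) (hm : 1 ≤ m) : H0 m n = AR m m n := by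
  have h1 := GR_eq m m n hm
  have h2 : GR m m n = 0 := by
    unfold GR
    refine Finset.sum_eq_zero fun k hk => ?_
    rw [Finset.mem_Ico] at hk
    rw [DR_full m k hk.1 hk.2, zero_mul]
  linarith

/-- the energy of the low frequencies -/
noncomputable def Lk (m n : ℕ) (κ : ℝ) : ℝ := by
  classical
  exact ∑ k ∈ (Ico 1 m).filter (fun k => (nk m k : ℝ) < κ), Qk m k n

lemma Lk_nonneg {m : ℕ} (hm : 1 ≤ m) (n : ℕ) (κ : ℝ) : 0 ≤ Lk m n κ :=
  Finset.sum_nonneg fun _ _ => Qk_nonneg hm _ _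

lemma Lk_le {m : ℕ} (hm : 1 ≤ m) (n : ℕ) (κ : ℝ) : Lk m n κ ≤ H0 m n :=
  Finset.sum_le_sum_of_subset_of_nonneg (Finset.filter_subset _ _) fun _ _ _ => Qk_nonneg hm _ _

lemma L_up (m R n : ℕ) (κ : ℝ) (hm : 1 ≤ m) (hR : 1 ≤ R) :
    (1 - 2 * Real.pi ^ 2 * (R * κ / m) ^ 2) * Lk m n κ ≤ GR m R n := by
  classical
  unfold Lk GR
  rw [Finset.mul_sum]
  refine (Finset.sum_le_sum (fun k hk => ?_)).trans
    (Finset.sum_le_sum_of_subset_of_nonneg (Finset.filter_subset (fun k => (nk m k : ℝ) < κ) _)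
      fun k _ _ => mul_nonneg (DR_nonneg m R k) (Qk_nonneg hm k n))
  rw [Finset.mem_filter, Finset.mem_Ico] at hk
  exact mul_le_mul_of_nonneg_right (DR_low m R k hm hR (by omega) κ hk.2.le) (Qk_nonneg hm k n)

lemma L_lo (m R n : ℕ) (κ : ℝ) (hm : 1 ≤ m) (hR : 1 ≤ R) (hκ : 0 < κ) :
    GR m R n ≤ Lk m n κ + (m / (2 * R * κ)) ^ 2 * H0 m n := by
  classical
  have hR0 : (0 : ℝ) < R := by exact_mod_cast hR
  have hm0 : (0 : ℝ) < m := by exact_mod_cast hm
  unfold GR
  rw [← Finset.sum_filter_add_sum_filter_not (Ico 1 m) (fun k => (nk m k : ℝ) < κ)]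
  apply add_le_add
  · unfold Lk
    refine Finset.sum_le_sum fun k _ => ?_
    exact mul_le_of_le_one_left (Qk_nonneg hm k n) (DR_le_one m R k hR)
  · unfold H0
    rw [Finset.mul_sum]
    refine (Finset.sum_le_sum (fun k hk => ?_)).trans
      (Finset.sum_le_sum_of_subset_of_nonneg (Finset.filter_subset (fun k => ¬ (nk m k : ℝ) < κ) _)
        fun k _ _ => mul_nonneg (sq_nonneg _) (Qk_nonneg hm k n))
    rw [Finset.mem_filter, Finset.mem_Ico, not_lt] at hk
    apply mul_le_mul_of_nonneg_right _ (Qk_nonneg hm k n)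
    refine (DR_high m R k hR hk.1.1 hk.1.2).trans ?_
    apply pow_le_pow_left₀ (by positivity)
    apply div_le_div_of_nonneg_left hm0.le (by positivity)
    exact mul_le_mul_of_nonneg_left hk.2 (by positivity)

/-! ### Convergence in the mean -/

/-- convergence in the mean over the windows -/
def Cv (F : ℕ → ℕ → ℝ) (t : ℝ) : Prop :=
  ∀ ε : ℝ, 0 < ε → ∀ᶠ m : ℕ in atTop, ∀ᶠ N : ℕ in atTop, av N (fun n => |F m n - t|) ≤ ε

lemma Cv.add {F G : ℕ → ℕ → ℝ} {s t : ℝ} (hF : Cv F s) (hG : Cv G t) :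
    Cv (fun m n => F m n + G m n) (s + t) := by
  intro ε hε
  filter_upwards [hF (ε / 2) (by positivity), hG (ε / 2) (by positivity)] with m h1 h2
  filter_upwards [h1, h2] with N h3 h4
  refine (av_mono (G := fun n => |F m n - s| + |G m n - t|) fun n _ => ?_).trans ?_
  · have e : F m n + G m n - (s + t) = (F m n - s) + (G m n - t) := by ring
    rw [e]
    exact abs_add_le _ _
  · rw [av_add]
    linarith

lemma Cv.mul {F : ℕ → ℕ → ℝ} {t : ℝ} (hF : Cv F t) {q : ℕ → ℝ} {q0 : ℝ} (hq : Tendsto q atTop (𝓝 q0)) :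
    Cv (fun m n => q m * F m n) (q0 * t) := by
  intro ε hε
  have h1 : ∀ᶠ m in atTop, |q m - q0| < min 1 (ε / (2 * (|t| + 1))) := by
    have := Metric.tendsto_atTop.1 hq (min 1 (ε / (2 * (|t| + 1)))) (lt_min one_pos (by positivity))
    obtain ⟨M, hM⟩ := this
    filter_upwards [eventually_ge_atTop M] with m hm
    have := hM m hm
    rwa [Real.dist_eq] at this
  filter_upwards [hF (ε / (2 * (|q0| + 1))) (by positivity), h1] with m h2 h3
  filter_upwards [h2, eventually_ge_atTop 1] with N h4 hN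
  have hq1 : |q m| ≤ |q0| + 1 := by
    have := (abs_sub_abs_le_abs_sub (q m) q0).trans (h3.le.trans (min_le_left _ _))
    linarith
  have hq2 : |q m - q0| * |t| ≤ ε / 2 := by
    have h5 := h3.le.trans (min_le_right _ _)
    calc |q m - q0| * |t| ≤ ε / (2 * (|t| + 1)) * (|t| + 1) :=
          mul_le_mul h5 (by linarith) (abs_nonneg _) (by positivity)
      _ = ε / 2 := by field_simp
  refine (av_mono (G := fun n => (|q0| + 1) * |F m n - t| + ε / 2) fun n _ => ?_).trans ?_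
  · have e : q m * F m n - q0 * t = q m * (F m n - t) + (q m - q0) * t := by ring
    rw [e]
    refine (abs_add_le _ _).trans (add_le_add ?_ ?_)
    · rw [abs_mul]
      exact mul_le_mul_of_nonneg_right hq1 (abs_nonneg _)
    · rw [abs_mul]
      exact hq2
  · rw [av_add, av_const hN, av_mul]
    have h6 : (|q0| + 1) * av N (fun n => |F m n - t|) ≤ (|q0| + 1) * (ε / (2 * (|q0| + 1))) :=
      mul_le_mul_of_nonneg_left h4 (by positivity)
    have h7 : (|q0| + 1) * (ε / (2 * (|q0| + 1))) = ε / 2 := by field_simp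
    linarith

lemma Cv.const {t : ℝ} : Cv (fun _ _ => t) t := by
  intro ε hε
  refine Eventually.of_forall fun m => ?_
  filter_upwards [eventually_ge_atTop 1] with N hN
  simp only [sub_self, abs_zero]
  rw [av_const hN]
  exact hε.le

lemma Cv.squeeze {F : ℕ → ℕ → ℝ} {t : ℝ} (h : ∀ δ : ℝ, 0 < δ → ∃ (U V : ℕ → ℕ → ℝ) (u v : ℝ), Cv U u ∧ Cv V v ∧
    |u - t| ≤ δ ∧ |v - t| ≤ δ ∧ ∀ᶠ m in atTop, ∀ n, V m n ≤ F m n ∧ F m n ≤ U m n) : Cv F t := by
  intro ε hε
  obtain ⟨U, V, u, v, hU, hV, h1, h2, h3⟩ := h (ε / 4) (by positivity)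
  filter_upwards [hU (ε / 4) (by positivity), hV (ε / 4) (by positivity), h3] with m h4 h5 h6
  filter_upwards [h4, h5, eventually_ge_atTop 1] with N h7 h8 hN
  refine (av_mono (G := fun n => |U m n - u| + |V m n - v| + ε / 4) fun n _ => ?_).trans ?_
  · obtain ⟨a1, a2⟩ := h6 n
    have b1 := le_abs_self (U m n - u)
    have b2 := neg_abs_le (V m n - v)
    have b3 := abs_nonneg (U m n - u)
    have b4 := abs_nonneg (V m n - v)
    rw [abs_le] at h1 h2 ⊢
    constructor <;> linarith [h1.1, h1.2, h2.1, h2.2]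
  · rw [av_add, av_const hN, av_add]
    linarith

lemma Cv.of_law {F : ℕ → ℕ → ℝ} {f : ℕ → ℝ} {t : ℝ}
    (h : ∀ ε : ℝ, 0 < ε → ∀ᶠ m : ℕ in atTop, ∀ᶠ N : ℕ in atTop, av N (fun n => |F m n - f m|) ≤ ε)
    (hf : Tendsto f atTop (𝓝 t)) : Cv F t := by
  intro ε hε
  have h1 : ∀ᶠ m in atTop, |f m - t| < ε / 2 := by
    obtain ⟨M, hM⟩ := Metric.tendsto_atTop.1 hf (ε / 2) (by positivity)
    filter_upwards [eventually_ge_atTop M] with m hm
    have := hM m hm
    rwa [Real.dist_eq] at this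
  filter_upwards [h (ε / 2) (by positivity), h1] with m h2 h3
  filter_upwards [h2, eventually_ge_atTop 1] with N h4 hN
  refine (av_mono (G := fun n => |F m n - f m| + ε / 2) fun n _ => ?_).trans ?_
  · have e : F m n - t = (F m n - f m) + (f m - t) := by ring
    rw [e]
    exact (abs_add_le _ _).trans (add_le_add le_rfl h3.le)
  · rw [av_add, av_const hN]
    linarith

end Run7.h435.NF
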