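import Pool.Agent.Run7.h435.NFf

/-! # The periodogram of windows of gaps: asymptotic energies in frequency bands -/

set_option autoImplicit false

namespace Run7.h435.NF

open Filter Finset Topology

lemma tendsto_of_le {f : ℕ → ℝ} {t : ℝ} (h : ∀ ε : ℝ, 0 < ε → ∀ᶠ m : ℕ in atTop, |f m - t| ≤ ε) :
    Tendsto f atTop (𝓝 t) := by
  rw [Metric.tendsto_nhds]
  intro ε hε
  filter_upwards [h (ε / 2) (by positivity)] with m hm
  rw [Real.dist_eq]
  linarith

/-- the scale `m ^ b` -/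
noncomputable def Rb (b : ℝ) (m : ℕ) : ℕ := ⌈(m : ℝ) ^ b⌉₊

lemma Rb_one {b : ℝ} {m : ℕ} (hm : 1 ≤ m) : 1 ≤ Rb b m := by
  have hm0 : (0 : ℝ) < m := by exact_mod_cast hm
  exact Nat.ceil_pos.2 (Real.rpow_pos_of_pos hm0 b)

lemma Rb_le {b : ℝ} {m : ℕ} (hb : b ≤ 1) (hm : 1 ≤ m) : Rb b m ≤ m := by
  have hm1 : (1 : ℝ) ≤ m := by exact_mod_cast hm
  unfold Rb
  rw [Nat.ceil_le]
  calc (m : ℝ) ^ b ≤ (m : ℝ) ^ (1 : ℝ) := Real.rpow_le_rpow_of_exponent_le hm1 hb
    _ = m := Real.rpow_one _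

lemma Rb_low (b : ℝ) (m : ℕ) : (m : ℝ) ^ b ≤ Rb b m := Nat.le_ceil _

lemma Rb_up {b : ℝ} {m : ℕ} (hb : 0 ≤ b) (hm : 1 ≤ m) : (Rb b m : ℝ) ≤ 2 * (m : ℝ) ^ b := by
  have hm1 : (1 : ℝ) ≤ m := by exact_mod_cast hm
  have h1 : (1 : ℝ) ≤ (m : ℝ) ^ b := Real.one_le_rpow hm1 hb
  have h2 : (Rb b m : ℝ) < (m : ℝ) ^ b + 1 := Nat.ceil_lt_add_one (by positivity)
  linarith

lemma vm_nonneg (m r : ℕ) : 0 ≤ vm m r := by
  unfold vm
  have := Real.log_natCast_nonneg r
  have := Real.log_natCast_nonneg m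
  positivity

lemma log_mono_nat {a b : ℕ} (h : a ≤ b) : Real.log a ≤ Real.log b := by
  rcases Nat.eq_zero_or_pos a with h1 | h1
  · rw [h1, Nat.cast_zero, Real.log_zero]
    exact Real.log_natCast_nonneg b
  · exact Real.log_le_log (by exact_mod_cast h1) (by exact_mod_cast h)

lemma vm_mono (m : ℕ) {a b : ℕ} (h : a ≤ b) : vm m a ≤ vm m b := by
  unfold vm
  have := Real.log_natCast_nonneg m
  exact div_le_div_of_nonneg_right (log_mono_nat h) (by positivity)

lemma vm_full {m : ℕ} (hm : 2 ≤ m) : vm m m = 1 / Real.pi ^ 2 := by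
  have hl : 0 < Real.log m := Real.log_pos (by exact_mod_cast (by omega : 1 < m))
  unfold vm
  field_simp

lemma vm_le {m r : ℕ} (hm : 2 ≤ m) (hr : r ≤ m) : vm m r ≤ 1 / Real.pi ^ 2 := by
  rw [← vm_full hm]
  exact vm_mono m hr

lemma vm_low {b : ℝ} {m : ℕ} (hm : 2 ≤ m) : b / Real.pi ^ 2 ≤ vm m (Rb b m) := by
  have hm0 : (0 : ℝ) < m := by exact_mod_cast (by omega : 0 < m)
  have hl : 0 < Real.log m := Real.log_pos (by exact_mod_cast (by omega : 1 < m))
  have h1 : b * Real.log m ≤ Real.log (Rb b m) := by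
    rw [← Real.log_rpow hm0]
    exact Real.log_le_log (Real.rpow_pos_of_pos hm0 b) (Rb_low b m)
  unfold vm
  rw [div_le_div_iff₀ (by have := Real.pi_pos; positivity) (by have := Real.pi_pos; positivity)]
  have h2 : b * Real.log m * Real.pi ^ 2 ≤ Real.log (Rb b m) * Real.pi ^ 2 :=
    mul_le_mul_of_nonneg_right h1 (sq_nonneg _)
  linarith

lemma vm_up {b : ℝ} {m : ℕ} (hb : 0 ≤ b) (hm : 2 ≤ m) : vm m (Rb b m) ≤ (b + 1 / Real.log m) / Real.pi ^ 2 := by
  have hm0 : (0 : ℝ) < m := by exact_mod_cast (by omega : 0 < m)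
  have hpi := Real.pi_pos
  have hl : 0 < Real.log m := Real.log_pos (by exact_mod_cast (by omega : 1 < m))
  have h1 : Real.log (Rb b m) ≤ 1 + b * Real.log m := by
    have h2 : (0 : ℝ) < Rb b m := by exact_mod_cast (Rb_one (b := b) (by omega : 1 ≤ m))
    have h3 := Real.log_le_log h2 (Rb_up hb (by omega))
    rw [Real.log_mul (by norm_num) (by positivity), Real.log_rpow hm0] at h3
    have h4 : Real.log 2 ≤ 1 := by
      have := Real.log_two_lt_d9
      linarith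
    linarith
  unfold vm
  rw [div_le_div_iff₀ (by positivity) (by positivity)]
  have e : (b + 1 / Real.log m) * (Real.pi ^ 2 * Real.log m) = (1 + b * Real.log m) * Real.pi ^ 2 := by
    field_simp
    ring
  rw [e]
  exact mul_le_mul_of_nonneg_right h1 (sq_nonneg _)

lemma cR_nonneg {m d : ℕ} (hm : 1 ≤ m) (hd : d ≤ m) : 0 ≤ cR m d := by
  have hm0 : (0 : ℝ) < m := by exact_mod_cast hm
  have hd' : (d : ℝ) ≤ m := by exact_mod_cast hd
  unfold cR
  have h1 := vm_nonneg m d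
  have h2 := vm_nonneg m (m - d)
  have h3 : 0 ≤ ((m : ℝ) - d) / m := div_nonneg (by linarith) hm0.le
  positivity

lemma ds_lt {r s R : ℕ} (hr : r < R) (hs : s < R) : ds r s < R := by unfold ds; omega

lemma aR_up {m R : ℕ} (hm : 2 ≤ m) (hR1 : 1 ≤ R) (hR : R ≤ m) :
    aR m R ≤ (1 / 2) * (vm m R + R / m * (1 / Real.pi ^ 2)) := by
  have hm0 : (0 : ℝ) < m := by exact_mod_cast (by omega : 0 < m)
  have hR0 : (0 : ℝ) < R := by exact_mod_cast hR1
  have h1 : ∑ r ∈ range R, ∑ s ∈ range R, cR m (ds r s) ≤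
      ∑ _r ∈ range R, ∑ _s ∈ range R, (vm m R + R / m * (1 / Real.pi ^ 2)) := by
    refine Finset.sum_le_sum fun r hr => Finset.sum_le_sum fun s hs => ?_
    rw [Finset.mem_range] at hr hs
    have hd := ds_lt hr hs
    have hd0 : (0 : ℝ) ≤ (ds r s : ℕ) := Nat.cast_nonneg _
    have hdR : ((ds r s : ℕ) : ℝ) ≤ R := by exact_mod_cast hd.le
    have hdm : ((ds r s : ℕ) : ℝ) ≤ m := by exact_mod_cast (hd.le.trans hR)
    unfold cR
    apply add_le_add
    · have h2 : ((m : ℝ) - (ds r s : ℕ)) / m ≤ 1 := by rw [div_le_one hm0]; linarith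
      have h3 := vm_mono m hd.le
      have h4 := vm_nonneg m (ds r s)
      calc ((m : ℝ) - (ds r s : ℕ)) / m * vm m (ds r s) ≤ 1 * vm m (ds r s) := mul_le_mul_of_nonneg_right h2 h4
        _ ≤ vm m R := by rw [one_mul]; exact h3
    · apply mul_le_mul (div_le_div_of_nonneg_right hdR hm0.le) (vm_le hm (Nat.sub_le _ _)) (vm_nonneg _ _)
        (by positivity)
  unfold aR
  refine (mul_le_mul_of_nonneg_left h1 (by positivity)).trans (le_of_eq ?_)
  simp only [Finset.sum_const, Finset.card_range, nsmul_eq_mul]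
  field_simp

lemma aR_up_full {m : ℕ} (hm : 2 ≤ m) : aR m m ≤ 1 / (2 * Real.pi ^ 2) := by
  have hm0 : (0 : ℝ) < m := by exact_mod_cast (by omega : 0 < m)
  have hpi := Real.pi_pos
  have h1 : ∑ r ∈ range m, ∑ s ∈ range m, cR m (ds r s) ≤
      ∑ _r ∈ range m, ∑ _s ∈ range m, (1 / Real.pi ^ 2) := by
    refine Finset.sum_le_sum fun r hr => Finset.sum_le_sum fun s hs => ?_
    rw [Finset.mem_range] at hr hs
    have hd := ds_lt hr hs
    have hd0 : (0 : ℝ) ≤ (ds r s : ℕ) := Nat.cast_nonneg _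
    have hdm : ((ds r s : ℕ) : ℝ) ≤ m := by exact_mod_cast hd.le
    unfold cR
    have h2 := vm_le hm hd.le
    have h3 := vm_le hm (Nat.sub_le m (ds r s))
    have h4 : 0 ≤ ((m : ℝ) - (ds r s : ℕ)) / m := div_nonneg (by linarith) hm0.le
    have h5 : 0 ≤ ((ds r s : ℕ) : ℝ) / m := by positivity
    calc ((m : ℝ) - (ds r s : ℕ)) / m * vm m (ds r s) + ((ds r s : ℕ) : ℝ) / m * vm m (m - ds r s) ≤
        ((m : ℝ) - (ds r s : ℕ)) / m * (1 / Real.pi ^ 2) + ((ds r s : ℕ) : ℝ) / m * (1 / Real.pi ^ 2) :=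
          add_le_add (mul_le_mul_of_nonneg_left h2 h4) (mul_le_mul_of_nonneg_left h3 h5)
      _ = 1 / Real.pi ^ 2 := by
          field_simp
          ring
  unfold aR
  refine (mul_le_mul_of_nonneg_left h1 (by positivity)).trans (le_of_eq ?_)
  simp only [Finset.sum_const, Finset.card_range, nsmul_eq_mul]
  field_simp

lemma sum_low {R : ℕ} (bad : ℕ → Prop) [DecidablePred bad] (f : ℕ → ℝ) (K : ℝ) (c : ℕ) (hK : 0 ≤ K)
    (h0 : ∀ s < R, 0 ≤ f s) (h1 : ∀ s < R, ¬ bad s → K ≤ f s) (hc : ((range R).filter bad).card ≤ c) :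
    ((R : ℝ) - c) * K ≤ ∑ s ∈ range R, f s := by
  have h2 : ∑ s ∈ (range R).filter (fun s => ¬ bad s), f s ≤ ∑ s ∈ range R, f s :=
    Finset.sum_le_sum_of_subset_of_nonneg (Finset.filter_subset _ _) fun s hs _ => h0 s (Finset.mem_range.1 hs)
  have h3 : (((range R).filter (fun s => ¬ bad s)).card : ℝ) * K ≤ ∑ s ∈ (range R).filter (fun s => ¬ bad s), f s := by
    rw [← nsmul_eq_mul, ← Finset.sum_const]
    refine Finset.sum_le_sum fun s hs => ?_
    rw [Finset.mem_filter, Finset.mem_range] at hs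
    exact h1 s hs.1 hs.2
  have h4 : (R : ℝ) - c ≤ ((range R).filter (fun s => ¬ bad s)).card := by
    have h5 := Finset.card_filter_add_card_filter_not (s := range R) (p := bad)
    rw [Finset.card_range] at h5
    have h6 : (R : ℝ) ≤ c + ((range R).filter (fun s => ¬ bad s)).card := by
      exact_mod_cast (by omega : R ≤ c + ((range R).filter (fun s => ¬ bad s)).card)
    linarith
  exact (mul_le_mul_of_nonneg_right h4 hK).trans (h3.trans h2)

lemma aR_low {m R H : ℕ} (hm : 2 ≤ m) (hR1 : 1 ≤ R) (hR : R ≤ m) (hH : H ≤ m) :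
    (1 / 2) * (vm m H - (2 * H / R + R / m) / Real.pi ^ 2) ≤ aR m R := by
  have hm0 : (0 : ℝ) < m := by exact_mod_cast (by omega : 0 < m)
  have hR0 : (0 : ℝ) < R := by exact_mod_cast hR1
  have hRm : (R : ℝ) ≤ m := by exact_mod_cast hR
  have hpi := Real.pi_pos
  obtain ⟨Z, hZ⟩ : ∃ Z : ℝ, Z = vm m H := ⟨_, rfl⟩
  have hZ0 : 0 ≤ Z := by rw [hZ]; exact vm_nonneg _ _
  have hZ1 : Z ≤ 1 / Real.pi ^ 2 := by rw [hZ]; exact vm_le hm hH
  obtain ⟨K, hK⟩ : ∃ K : ℝ, K = (1 - R / m) * Z := ⟨_, rfl⟩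
  have hRm1 : (R : ℝ) / m ≤ 1 := by rw [div_le_one hm0]; exact hRm
  have hK0 : 0 ≤ K := by rw [hK]; exact mul_nonneg (by linarith) hZ0
  have h1 : ∑ _r ∈ range R, ((R : ℝ) - (2 * H : ℕ)) * K ≤ ∑ r ∈ range R, ∑ s ∈ range R, cR m (ds r s) := by
    refine Finset.sum_le_sum fun r hr => ?_
    rw [Finset.mem_range] at hr
    refine sum_low (fun s => ds s r < H) _ K (2 * H) hK0 (fun s hs => ?_) (fun s hs hb => ?_) (count_near R 0 r H)
    · exact cR_nonneg (by omega) ((ds_lt hr hs).le.trans hR)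
    · have hd := ds_lt hr hs
      have hds : ds s r = ds r s := by unfold ds; omega
      rw [not_lt, hds] at hb
      have h2 : Z ≤ vm m (ds r s) := by rw [hZ]; exact vm_mono m hb
      have hdR : ((ds r s : ℕ) : ℝ) ≤ R := by exact_mod_cast hd.le
      have h3 : 1 - (R : ℝ) / m ≤ ((m : ℝ) - (ds r s : ℕ)) / m := by
        rw [sub_div, div_self hm0.ne']
        have := div_le_div_of_nonneg_right hdR hm0.le
        linarith
      have h4 : 0 ≤ ((ds r s : ℕ) : ℝ) / m * vm m (m - ds r s) := mul_nonneg (by positivity) (vm_nonneg _ _)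
      rw [hK]
      unfold cR
      have h5 := mul_le_mul h3 h2 hZ0 ((by linarith : 0 ≤ 1 - (R : ℝ) / m).trans h3)
      linarith
  have h2 : (1 / (2 * (R : ℝ) ^ 2)) * ∑ _r ∈ range R, ((R : ℝ) - (2 * H : ℕ)) * K ≤ aR m R :=
    mul_le_mul_of_nonneg_left h1 (by positivity)
  refine le_trans ?_ h2
  rw [Finset.sum_const, Finset.card_range, nsmul_eq_mul]
  have e : 1 / (2 * (R : ℝ) ^ 2) * (R * (((R : ℝ) - (2 * H : ℕ)) * K)) = (1 / 2) * ((1 - 2 * H / R) * K) := by
    push_cast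
    field_simp
  rw [e, ← hZ, hK]
  apply mul_le_mul_of_nonneg_left _ (by norm_num)
  obtain ⟨X, hX⟩ : ∃ X : ℝ, X = 2 * H / R := ⟨_, rfl⟩
  obtain ⟨Y, hY⟩ : ∃ Y : ℝ, Y = R / m := ⟨_, rfl⟩
  have hX0 : 0 ≤ X := by rw [hX]; positivity
  have hY0 : 0 ≤ Y := by rw [hY]; positivity
  rw [← hX, ← hY]
  have h6 : (X + Y) * Z ≤ (X + Y) * (1 / Real.pi ^ 2) := mul_le_mul_of_nonneg_left hZ1 (by positivity)
  have h7 : 0 ≤ X * Y * Z := by positivity
  have h8 : (X + Y) / Real.pi ^ 2 = (X + Y) * (1 / Real.pi ^ 2) := by ring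
  rw [h8]
  nlinarith

lemma count_far (m r H : ℕ) (hr : r < m) : ((range m).filter fun s => ds s r < H ∨ m < ds r s + H).card ≤ 4 * H := by
  have h1 : (range m).filter (fun s => ds s r < H ∨ m < ds r s + H) ⊆
      Ico (r + 1 - H) (r + H) ∪ (Ico (m + r + 1 - H) m ∪ Ico 0 (r + H - m)) := by
    intro s hs
    rw [Finset.mem_filter, Finset.mem_range] at hs
    rw [Finset.mem_union, Finset.mem_union, Finset.mem_Ico, Finset.mem_Ico, Finset.mem_Ico]
    have h2 := hs.2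
    have h3 := hs.1
    unfold ds at h2
    omega
  refine (Finset.card_le_card h1).trans ((Finset.card_union_le _ _).trans ?_)
  have h2 := Finset.card_union_le (Ico (m + r + 1 - H) m) (Ico 0 (r + H - m))
  simp only [Nat.card_Ico] at h2 ⊢
  omega

lemma aR_low_full {m H : ℕ} (hm : 2 ≤ m) (hH : H ≤ m) :
    (1 / 2) * (vm m H - (4 * H / m) / Real.pi ^ 2) ≤ aR m m := by
  have hm0 : (0 : ℝ) < m := by exact_mod_cast (by omega : 0 < m)
  have hpi := Real.pi_pos
  obtain ⟨Z, hZ⟩ : ∃ Z : ℝ, Z = vm m H := ⟨_, rfl⟩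
  have hZ0 : 0 ≤ Z := by rw [hZ]; exact vm_nonneg _ _
  have hZ1 : Z ≤ 1 / Real.pi ^ 2 := by rw [hZ]; exact vm_le hm hH
  have h1 : ∑ _r ∈ range m, ((m : ℝ) - (4 * H : ℕ)) * Z ≤ ∑ r ∈ range m, ∑ s ∈ range m, cR m (ds r s) := by
    refine Finset.sum_le_sum fun r hr => ?_
    rw [Finset.mem_range] at hr
    refine sum_low (fun s => ds s r < H ∨ m < ds r s + H) _ Z (4 * H) hZ0 (fun s hs => ?_) (fun s hs hb => ?_)
      (count_far m r H hr)
    · exact cR_nonneg (by omega) (ds_lt hr hs).le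
    · have hd := ds_lt hr hs
      have hds : ds s r = ds r s := by unfold ds; omega
      rw [not_or, not_lt, not_lt, hds] at hb
      have h2 : Z ≤ vm m (ds r s) := by rw [hZ]; exact vm_mono m hb.1
      have h3 : Z ≤ vm m (m - ds r s) := by rw [hZ]; exact vm_mono m (by omega)
      have hdm : ((ds r s : ℕ) : ℝ) ≤ m := by exact_mod_cast hd.le
      have h4 : 0 ≤ ((m : ℝ) - (ds r s : ℕ)) / m := div_nonneg (by linarith) hm0.le
      have h5 : 0 ≤ ((ds r s : ℕ) : ℝ) / m := by positivity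
      unfold cR
      have h6 := mul_le_mul_of_nonneg_left h2 h4
      have h7 := mul_le_mul_of_nonneg_left h3 h5
      have e : ((m : ℝ) - (ds r s : ℕ)) / m * Z + ((ds r s : ℕ) : ℝ) / m * Z = Z := by
        field_simp
        ring
      linarith
  have h2 : (1 / (2 * (m : ℝ) ^ 2)) * ∑ _r ∈ range m, ((m : ℝ) - (4 * H : ℕ)) * Z ≤ aR m m :=
    mul_le_mul_of_nonneg_left h1 (by positivity)
  refine le_trans ?_ h2
  rw [Finset.sum_const, Finset.card_range, nsmul_eq_mul]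
  have e : 1 / (2 * (m : ℝ) ^ 2) * (m * (((m : ℝ) - (4 * H : ℕ)) * Z)) = (1 / 2) * ((1 - 4 * H / m) * Z) := by
    push_cast
    field_simp
  rw [e, ← hZ]
  apply mul_le_mul_of_nonneg_left _ (by norm_num)
  have h6 : (4 * (H : ℝ) / m) * Z ≤ (4 * H / m) * (1 / Real.pi ^ 2) := mul_le_mul_of_nonneg_left hZ1 (by positivity)
  have h8 : (4 * (H : ℝ) / m) / Real.pi ^ 2 = (4 * H / m) * (1 / Real.pi ^ 2) := by ring
  rw [h8]
  linarith

lemma pow_small (c : ℝ) (hc : 0 < c) : Tendsto (fun m : ℕ => (m : ℝ) ^ (-c)) atTop (𝓝 0) :=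
  (tendsto_rpow_neg_atTop hc).comp tendsto_natCast_atTop_atTop

lemma pow_small_le (c : ℝ) (hc : 0 < c) (ε : ℝ) (hε : 0 < ε) : ∀ᶠ m : ℕ in atTop, (m : ℝ) ^ (-c) ≤ ε :=
  (pow_small c hc).eventually_le_const hε

lemma aR_full : Tendsto (fun m : ℕ => aR m m) atTop (𝓝 (1 / (2 * Real.pi ^ 2))) := by
  refine tendsto_of_le fun ε hε => ?_
  have hpi := Real.pi_gt_three
  obtain ⟨δ, hδ⟩ : ∃ δ : ℝ, δ = min 1 (ε / 2) := ⟨_, rfl⟩
  have hδ0 : 0 < δ := by rw [hδ]; exact lt_min one_pos (by positivity)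
  have hδ1 : δ ≤ 1 := by rw [hδ]; exact min_le_left _ _
  have hδ2 : δ ≤ ε / 2 := by rw [hδ]; exact min_le_right _ _
  filter_upwards [pow_small_le δ hδ0 (ε / 16) (by positivity), eventually_ge_atTop 2] with m h1 hm
  have hm0 : (0 : ℝ) < m := by exact_mod_cast (by omega : 0 < m)
  have hup := aR_up_full hm
  have hlo := aR_low_full (m := m) (H := Rb (1 - δ) m) hm (Rb_le (by linarith) (by omega))
  have hv := vm_low (b := 1 - δ) hm
  have hR := Rb_up (b := 1 - δ) (m := m) (by linarith) (by omega)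
  have h2 : 4 * (Rb (1 - δ) m : ℝ) / m ≤ ε / 2 := by
    rw [div_le_iff₀ hm0]
    have h3 : (m : ℝ) ^ (1 - δ) = m * (m : ℝ) ^ (-δ) := by
      rw [sub_eq_add_neg, Real.rpow_add hm0, Real.rpow_one]
    rw [h3] at hR
    have h4 := mul_le_mul_of_nonneg_left h1 hm0.le
    linarith
  have hp2 : (1 : ℝ) ≤ Real.pi ^ 2 := by nlinarith
  have h5 : 1 / (2 * Real.pi ^ 2) - ε ≤ aR m m := by
    refine le_trans ?_ hlo
    have h6 : (4 * (Rb (1 - δ) m : ℝ) / m) / Real.pi ^ 2 ≤ ε / 2 :=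
      (div_le_self (by positivity) hp2).trans h2
    have h7 : δ / Real.pi ^ 2 ≤ ε / 2 := (div_le_self hδ0.le hp2).trans hδ2
    have e : (1 - δ) / Real.pi ^ 2 = 1 / Real.pi ^ 2 - δ / Real.pi ^ 2 := by ring
    have e2 : 1 / (2 * Real.pi ^ 2) = (1 / 2) * (1 / Real.pi ^ 2) := by ring
    rw [e] at hv
    rw [e2]
    linarith
  rw [abs_le]
  constructor <;> linarith

lemma aR_b (b : ℝ) (hb : 0 ≤ b) (hb1 : b < 1) :
    Tendsto (fun m : ℕ => aR m (Rb b m)) atTop (𝓝 (b / (2 * Real.pi ^ 2))) := by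
  refine tendsto_of_le fun ε hε => ?_
  have hpi := Real.pi_gt_three
  have hp2 : (1 : ℝ) ≤ Real.pi ^ 2 := by nlinarith
  have hlog : ∀ᶠ m : ℕ in atTop, 1 / (ε / 2) ≤ Real.log m :=
    (Real.tendsto_log_atTop.comp tendsto_natCast_atTop_atTop).eventually_ge_atTop _
  obtain ⟨δ, hδ⟩ : ∃ δ : ℝ, δ = ε / 2 := ⟨_, rfl⟩
  have hδ0 : 0 < δ := by rw [hδ]; positivity
  filter_upwards [pow_small_le δ hδ0 (ε / 16) (by positivity), pow_small_le (1 - b) (by linarith) (ε / 16)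
    (by positivity), hlog, eventually_ge_atTop 2] with m h1 h2 h3 hm
  have hm0 : (0 : ℝ) < m := by exact_mod_cast (by omega : 0 < m)
  have hR1 := Rb_one (b := b) (m := m) (by omega)
  have hRm := Rb_le (b := b) (m := m) hb1.le (by omega)
  have hRu := Rb_up (b := b) (m := m) hb (by omega)
  have hRl := Rb_low b m
  have hR0 : (0 : ℝ) < Rb b m := by exact_mod_cast hR1
  have hmb : (0 : ℝ) < (m : ℝ) ^ b := Real.rpow_pos_of_pos hm0 b
  have hRm2 : (Rb b m : ℝ) / m ≤ ε / 8 := by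
    rw [div_le_iff₀ hm0]
    have h4 : (m : ℝ) ^ b = m * (m : ℝ) ^ (-(1 - b)) := by
      have : (m : ℝ) ^ b = (m : ℝ) ^ (1 + -(1 - b)) := by congr 1; ring
      rw [this, Real.rpow_add hm0, Real.rpow_one]
    rw [h4] at hRu
    have h5 := mul_le_mul_of_nonneg_left h2 hm0.le
    linarith
  rw [abs_le]
  constructor
  · -- lower bound
    rcases le_total b δ with hbd | hbd
    · have h4 : 0 ≤ aR m (Rb b m) := by
        unfold aR
        refine mul_nonneg (by positivity) (Finset.sum_nonneg fun r hr => Finset.sum_nonneg fun s hs => ?_)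
        rw [Finset.mem_range] at hr hs
        exact cR_nonneg (by omega) ((ds_lt hr hs).le.trans hRm)
      have h5 : b / (2 * Real.pi ^ 2) ≤ b := div_le_self hb (by linarith)
      linarith
    · have hlo := aR_low (m := m) (R := Rb b m) (H := Rb (b - δ) m) hm hR1 hRm
        (Rb_le (by linarith) (by omega))
      have hv := vm_low (b := b - δ) hm
      have hHu := Rb_up (b := b - δ) (m := m) (by linarith) (by omega)
      have h4 : 2 * (Rb (b - δ) m : ℝ) / Rb b m ≤ ε / 4 := by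
        rw [div_le_iff₀ hR0]
        have h5 : (m : ℝ) ^ (b - δ) = (m : ℝ) ^ b * (m : ℝ) ^ (-δ) := by
          rw [sub_eq_add_neg, Real.rpow_add hm0]
        rw [h5] at hHu
        have h6 := mul_le_mul_of_nonneg_left h1 hmb.le
        have h7 := mul_le_mul_of_nonneg_right hRl (by positivity : 0 ≤ ε / 16)
        linarith
      have h8 : (2 * (Rb (b - δ) m : ℝ) / Rb b m + (Rb b m : ℝ) / m) / Real.pi ^ 2 ≤ ε / 2 := by
        refine (div_le_self (by positivity) hp2).trans ?_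
        linarith
      have h9 : δ / Real.pi ^ 2 ≤ ε / 2 := by
        refine (div_le_self hδ0.le hp2).trans ?_
        rw [hδ]
      have e : (b - δ) / Real.pi ^ 2 = b / Real.pi ^ 2 - δ / Real.pi ^ 2 := by ring
      have e2 : b / (2 * Real.pi ^ 2) = (1 / 2) * (b / Real.pi ^ 2) := by ring
      rw [e] at hv
      rw [e2]
      linarith
  · have hup := aR_up (m := m) (R := Rb b m) hm hR1 hRm
    have hv := vm_up (b := b) (m := m) hb hm
    have hl : 0 < Real.log m := Real.log_pos (by exact_mod_cast (by omega : 1 < m))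
    have h4 : 1 / Real.log m ≤ ε / 2 := by
      rw [div_le_iff₀ (by positivity)] at h3
      rw [div_le_iff₀ hl]
      linarith
    have h5 : (1 / Real.log m) / Real.pi ^ 2 ≤ ε / 2 := (div_le_self (by positivity) hp2).trans h4
    have h6 : (Rb b m : ℝ) / m * (1 / Real.pi ^ 2) ≤ ε / 8 := by
      have : (Rb b m : ℝ) / m * (1 / Real.pi ^ 2) = (Rb b m : ℝ) / m / Real.pi ^ 2 := by ring
      rw [this]
      exact (div_le_self (by positivity) hp2).trans hRm2
    have e : (b + 1 / Real.log m) / Real.pi ^ 2 = b / Real.pi ^ 2 + (1 / Real.log m) / Real.pi ^ 2 := by ring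
    have e2 : b / (2 * Real.pi ^ 2) = (1 / 2) * (b / Real.pi ^ 2) := by ring
    rw [e] at hv
    rw [e2]
    linarith

lemma Cv_AR (hRH : SP.RHs) (b : ℝ) (hb : 0 ≤ b) (hb1 : b < 1) :
    Cv (fun m n => AR m (Rb b m) n) (b / (2 * Real.pi ^ 2)) := by
  refine Cv.of_law (f := fun m => aR m (Rb b m)) (fun ε hε => ?_) (aR_b b hb hb1)
  filter_upwards [AR_law hRH ε hε, eventually_ge_atTop 1] with m hm hm1
  filter_upwards [hm] with N hN
  exact hN _ (Rb_one hm1) (Rb_le hb1.le hm1)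

lemma Cv_H0 (hRH : SP.RHs) : Cv (fun m n => H0 m n) (1 / (2 * Real.pi ^ 2)) := by
  refine Cv.of_law (f := fun m => aR m m) (fun ε hε => ?_) aR_full
  filter_upwards [AR_law hRH ε hε, eventually_ge_atTop 1] with m hm hm1
  filter_upwards [hm] with N hN
  have := hN m hm1 le_rfl
  simp only [H0_eq m _ hm1]
  exact this

lemma Cv_GR (hRH : SP.RHs) (b : ℝ) (hb : 0 ≤ b) (hb1 : b < 1) :
    Cv (fun m n => GR m (Rb b m) n) ((1 - b) / (2 * Real.pi ^ 2)) := by
  have h1 := (Cv_H0 hRH).add ((Cv_AR hRH b hb hb1).mul (tendsto_const_nhds (x := (-1 : ℝ))))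
  have e : 1 / (2 * Real.pi ^ 2) + -1 * (b / (2 * Real.pi ^ 2)) = (1 - b) / (2 * Real.pi ^ 2) := by ring
  rw [e] at h1
  intro ε hε
  filter_upwards [h1 ε hε, eventually_ge_atTop 1] with m hm hm1
  filter_upwards [hm] with N hN
  have h2 : ∀ n, GR m (Rb b m) n = H0 m n + -1 * AR m (Rb b m) n := fun n => by
    rw [GR_eq m _ n (Rb_one hm1)]
    ring
  simp only [h2]
  exact hN

/-- the energy of the low frequencies -/
theorem Cv_L (hRH : SP.RHs) (α : ℝ) (hα : 0 ≤ α) (hα1 : α ≤ 1) :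
    Cv (fun m n => Lk m n ((m : ℝ) ^ α)) (α / (2 * Real.pi ^ 2)) := by
  have hpi := Real.pi_gt_three
  have hp2 : (1 : ℝ) ≤ 2 * Real.pi ^ 2 := by nlinarith
  refine Cv.squeeze fun δ hδ => ?_
  have hU : ∃ (U : ℕ → ℕ → ℝ) (u : ℝ), Cv U u ∧ |u - α / (2 * Real.pi ^ 2)| ≤ δ ∧
      ∀ᶠ m in atTop, ∀ n, Lk m n ((m : ℝ) ^ α) ≤ U m n := by
    by_cases h1 : α + δ ≤ 1
    · obtain ⟨b, hb⟩ : ∃ b : ℝ, b = 1 - α - δ := ⟨_, rfl⟩
      have hb0 : 0 ≤ b := by rw [hb]; linarith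
      have hb1 : b < 1 := by rw [hb]; linarith
      have hth : Tendsto (fun m : ℕ => 1 - 2 * Real.pi ^ 2 * (2 * (m : ℝ) ^ (-δ)) ^ 2) atTop (𝓝 1) := by
        have h2 := (((pow_small δ hδ).const_mul 2).pow 2).const_mul (2 * Real.pi ^ 2)
        have h3 := h2.const_sub 1
        simpa using h3
      have hq : Tendsto (fun m : ℕ => (1 - 2 * Real.pi ^ 2 * (2 * (m : ℝ) ^ (-δ)) ^ 2)⁻¹) atTop (𝓝 1) := by
        have := hth.inv₀ one_ne_zero
        rwa [inv_one] at this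
      refine ⟨_, _, (Cv_GR hRH b hb0 hb1).mul hq, ?_, ?_⟩
      · have e : 1 * ((1 - b) / (2 * Real.pi ^ 2)) - α / (2 * Real.pi ^ 2) = δ / (2 * Real.pi ^ 2) := by
          rw [hb]; ring
        rw [e, abs_of_pos (by positivity)]
        exact div_le_self hδ.le hp2
      · filter_upwards [hth.eventually (lt_mem_nhds (show (0 : ℝ) < 1 by norm_num)), eventually_ge_atTop 1]
          with m h2 hm n
        have hm0 : (0 : ℝ) < m := by exact_mod_cast hm
        have h3 := L_up m (Rb b m) n ((m : ℝ) ^ α) hm (Rb_one hm)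
        have hRu := Rb_up (b := b) (m := m) hb0 hm
        have h4 : (Rb b m : ℝ) * (m : ℝ) ^ α / m ≤ 2 * (m : ℝ) ^ (-δ) := by
          rw [div_le_iff₀ hm0]
          have e1 : 2 * (m : ℝ) ^ (-δ) * m = 2 * (m : ℝ) ^ b * (m : ℝ) ^ α := by
            have e2 : (m : ℝ) ^ b * (m : ℝ) ^ α = (m : ℝ) ^ (-δ) * m := by
              rw [← Real.rpow_add hm0]
              have : b + α = -δ + 1 := by rw [hb]; ring
              rw [this, Real.rpow_add hm0, Real.rpow_one]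
            linarith
          rw [e1]
          exact mul_le_mul_of_nonneg_right hRu (by positivity)
        have h5 : ((Rb b m : ℝ) * (m : ℝ) ^ α / m) ^ 2 ≤ (2 * (m : ℝ) ^ (-δ)) ^ 2 :=
          pow_le_pow_left₀ (by positivity) h4 2
        have h6 : 1 - 2 * Real.pi ^ 2 * (2 * (m : ℝ) ^ (-δ)) ^ 2 ≤
            1 - 2 * Real.pi ^ 2 * ((Rb b m : ℝ) * (m : ℝ) ^ α / m) ^ 2 := by
          have := mul_le_mul_of_nonneg_left h5 (by positivity : 0 ≤ 2 * Real.pi ^ 2)
          linarith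
        have h7 := (mul_le_mul_of_nonneg_right h6 (Lk_nonneg hm n ((m : ℝ) ^ α))).trans h3
        rw [inv_mul_eq_div, le_div_iff₀ h2]
        linarith
    · push Not at h1
      refine ⟨_, _, Cv_H0 hRH, ?_, ?_⟩
      · have e : 1 / (2 * Real.pi ^ 2) - α / (2 * Real.pi ^ 2) = (1 - α) / (2 * Real.pi ^ 2) := by ring
        rw [e, abs_of_nonneg (div_nonneg (by linarith) (by positivity))]
        exact (div_le_self (by linarith) hp2).trans (by linarith)
      · filter_upwards [eventually_ge_atTop 1] with m hm n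
        exact Lk_le hm n _
  have hV : ∃ (V : ℕ → ℕ → ℝ) (v : ℝ), Cv V v ∧ |v - α / (2 * Real.pi ^ 2)| ≤ δ ∧
      ∀ᶠ m in atTop, ∀ n, V m n ≤ Lk m n ((m : ℝ) ^ α) := by
    by_cases h1 : δ < α
    · obtain ⟨b, hb⟩ : ∃ b : ℝ, b = 1 - α + δ := ⟨_, rfl⟩
      have hb0 : 0 ≤ b := by rw [hb]; linarith
      have hb1 : b < 1 := by rw [hb]; linarith
      have hq : Tendsto (fun m : ℕ => -((m : ℝ) ^ (-δ)) ^ 2) atTop (𝓝 0) := by
        have h2 := ((pow_small δ hδ).pow 2).neg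
        simpa using h2
      refine ⟨_, _, (Cv_GR hRH b hb0 hb1).add ((Cv_H0 hRH).mul hq), ?_, ?_⟩
      · have e : (1 - b) / (2 * Real.pi ^ 2) + 0 * (1 / (2 * Real.pi ^ 2)) - α / (2 * Real.pi ^ 2) =
            -(δ / (2 * Real.pi ^ 2)) := by
          rw [hb]; ring
        rw [e, abs_neg, abs_of_pos (by positivity)]
        exact div_le_self hδ.le hp2
      · filter_upwards [eventually_ge_atTop 1] with m hm n
        have hm0 : (0 : ℝ) < m := by exact_mod_cast hm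
        have h3 := L_lo m (Rb b m) n ((m : ℝ) ^ α) hm (Rb_one hm) (Real.rpow_pos_of_pos hm0 α)
        have hRl := Rb_low b m
        have hR0 : (0 : ℝ) < Rb b m := by exact_mod_cast (Rb_one (b := b) hm)
        have hma : (0 : ℝ) < (m : ℝ) ^ α := Real.rpow_pos_of_pos hm0 α
        have h4 : (m : ℝ) / (2 * (Rb b m) * (m : ℝ) ^ α) ≤ (m : ℝ) ^ (-δ) := by
          rw [div_le_iff₀ (by positivity)]
          have e1 : (m : ℝ) ^ (-δ) * ((m : ℝ) ^ b * (m : ℝ) ^ α) = m := by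
            rw [← Real.rpow_add hm0, ← Real.rpow_add hm0]
            have : -δ + (b + α) = 1 := by rw [hb]; ring
            rw [this, Real.rpow_one]
          have h5 : (m : ℝ) ^ (-δ) * ((m : ℝ) ^ b * (m : ℝ) ^ α) ≤
              (m : ℝ) ^ (-δ) * ((Rb b m : ℝ) * (m : ℝ) ^ α) :=
            mul_le_mul_of_nonneg_left (mul_le_mul_of_nonneg_right hRl hma.le) (by positivity)
          have h6 : 0 ≤ (m : ℝ) ^ (-δ) * ((Rb b m : ℝ) * (m : ℝ) ^ α) := by positivity
          rw [e1] at h5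
          have e2 : (m : ℝ) ^ (-δ) * (2 * (Rb b m : ℝ) * (m : ℝ) ^ α) =
            2 * ((m : ℝ) ^ (-δ) * ((Rb b m : ℝ) * (m : ℝ) ^ α)) := by ring
          rw [e2]
          linarith
        have h5 : ((m : ℝ) / (2 * (Rb b m) * (m : ℝ) ^ α)) ^ 2 ≤ ((m : ℝ) ^ (-δ)) ^ 2 :=
          pow_le_pow_left₀ (by positivity) h4 2
        have hH : 0 ≤ H0 m n := (Lk_nonneg hm n 0).trans (Lk_le hm n 0)
        have h6 := mul_le_mul_of_nonneg_right h5 hH
        linarith
    · push Not at h1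
      refine ⟨_, _, Cv.const (t := 0), ?_, ?_⟩
      · rw [zero_sub, abs_neg, abs_of_nonneg (by positivity)]
        exact (div_le_self hα hp2).trans h1
      · filter_upwards [eventually_ge_atTop 1] with m hm n
        exact Lk_nonneg hm n _
  obtain ⟨U, u, hU1, hU2, hU3⟩ := hU
  obtain ⟨V, v, hV1, hV2, hV3⟩ := hV
  refine ⟨U, V, u, v, hU1, hV1, hU2, hV2, ?_⟩
  filter_upwards [hU3, hV3] with m h1 h2 n
  exact ⟨h2 n, h1 n⟩

end Run7.h435.NF
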