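import Pool.Agent.Run7.h435.NFg

/-! # The periodogram of windows of gaps: one-sided frequency bands -/

set_option autoImplicit false

namespace Run7.h435.NF

open Filter Finset Topology

lemma ft_symm (m k : ℕ) (hm : 1 ≤ m) (hk : k ≤ m) (w : ℕ → ℝ) : ‖ft m w (m - k)‖ = ‖ft m w k‖ := by
  have hm0 : (m : ℝ) ≠ 0 := by
    have : (1 : ℝ) ≤ m := by exact_mod_cast hm
    positivity
  have h1 : ft m w (m - k) = (starRingEnd ℂ) (ft m w k) := by
    unfold ft
    rw [map_sum]
    refine Finset.sum_congr rfl fun j _ => ?_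
    rw [map_mul, Complex.conj_ofReal, ex_conj, Nat.cast_sub hk]
    have e : -((j : ℝ) * ((m : ℝ) - k) / m) = - -(j * k / m) + ((-(j : ℤ) : ℤ) : ℝ) := by
      push_cast
      field_simp
      ring
    rw [e, ex_add, ex_int, mul_one]
  rw [h1, RCLike.norm_conj]

lemma Qk_symm (m k n : ℕ) (hm : 1 ≤ m) (hk : k ≤ m) : Qk m (m - k) n = Qk m k n := by
  unfold Qk
  rw [ft_symm m k hm hk]

/-- one-sided low frequency energy -/
noncomputable def l1 (m n : ℕ) (κ : ℝ) : ℝ := by
  classical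
  exact ∑ k ∈ (Ico 1 m).filter (fun k : ℕ => (k : ℝ) < κ ∧ 2 * k ≤ m), Qk m k n

lemma l1_bd (m n : ℕ) (κ : ℝ) (hm : 2 ≤ m) :
    (1 / 2) * Lk m n κ ≤ l1 m n κ ∧ l1 m n κ ≤ (1 / 2) * Lk m n κ + (1 / 2) * CR m 1 n := by
  classical
  have hm0 : (0 : ℝ) < m := by exact_mod_cast (by omega : 0 < m)
  obtain ⟨P, hP⟩ : ∃ P : ℝ, P = ∑ k ∈ (Ico 1 m).filter (fun k : ℕ => (k : ℝ) < κ ∧ 2 * k < m), Qk m k n := ⟨_, rfl⟩
  obtain ⟨M0, hM0⟩ : ∃ M0 : ℝ, M0 = ∑ k ∈ (Ico 1 m).filter (fun k : ℕ => (k : ℝ) < κ ∧ 2 * k = m), Qk m k n := ⟨_, rfl⟩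
  have hQ : ∀ k, 0 ≤ Qk m k n := fun k => Qk_nonneg (by omega) k n
  have h1 : l1 m n κ = P + M0 := by
    unfold l1
    rw [hP, hM0, ← Finset.sum_union]
    · refine Finset.sum_congr ?_ fun _ _ => rfl
      ext k
      simp only [Finset.mem_filter, Finset.mem_union, Finset.mem_Ico]
      constructor
      · rintro ⟨a, b, c⟩
        rcases Nat.lt_or_eq_of_le c with h | h
        · exact Or.inl ⟨a, b, h⟩
        · exact Or.inr ⟨a, b, h⟩
      · rintro (⟨a, b, c⟩ | ⟨a, b, c⟩)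
        · exact ⟨a, b, c.le⟩
        · exact ⟨a, b, c.le⟩
    · rw [Finset.disjoint_filter]
      rintro k _ ⟨_, a⟩ ⟨_, b⟩
      omega
  have h2 : Lk m n κ = l1 m n κ + P := by
    unfold Lk l1
    rw [← Finset.sum_filter_add_sum_filter_not ((Ico 1 m).filter (fun k => (nk m k : ℝ) < κ)) (fun k => 2 * k ≤ m),
      Finset.filter_filter, Finset.filter_filter]
    congr 1
    · refine Finset.sum_congr ?_ fun _ _ => rfl
      apply Finset.filter_congr
      intro k hk
      constructor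
      · rintro ⟨a, b⟩
        have e : nk m k = k := by unfold nk; omega
        rw [e] at a
        exact ⟨a, b⟩
      · rintro ⟨a, b⟩
        have e : nk m k = k := by unfold nk; omega
        rw [e]
        exact ⟨a, b⟩
    · rw [hP]
      refine Finset.sum_nbij' (fun k => m - k) (fun k => m - k) ?_ ?_ ?_ ?_ ?_
      · intro k hk
        rw [Finset.mem_filter, Finset.mem_Ico] at hk ⊢
        obtain ⟨⟨a, b⟩, c, d⟩ := hk
        have e : nk m k = m - k := by unfold nk; omega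
        rw [e] at c
        exact ⟨⟨by omega, by omega⟩, c, by omega⟩
      · intro k hk
        rw [Finset.mem_filter, Finset.mem_Ico] at hk ⊢
        obtain ⟨⟨a, b⟩, c, d⟩ := hk
        have e : nk m (m - k) = k := by unfold nk; omega
        refine ⟨⟨by omega, by omega⟩, ?_, by omega⟩
        rw [e]
        exact c
      · intro k hk
        rw [Finset.mem_filter, Finset.mem_Ico] at hk
        show m - (m - k) = k
        omega
      · intro k hk
        rw [Finset.mem_filter, Finset.mem_Ico] at hk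
        show m - (m - k) = k
        omega
      · intro k hk
        rw [Finset.mem_filter, Finset.mem_Ico] at hk
        exact (Qk_symm m k n (by omega) (by omega)).symm
  have h3 : 0 ≤ M0 := by rw [hM0]; exact Finset.sum_nonneg fun _ _ => hQ _
  have h4 : M0 ≤ CR m 1 n := by
    rw [hM0]
    unfold CR
    refine (Finset.sum_le_sum (fun k hk => ?_)).trans
      (Finset.sum_le_sum_of_subset_of_nonneg (Finset.filter_subset (fun k : ℕ => (k : ℝ) < κ ∧ 2 * k = m) _)
        fun k _ _ => mul_nonneg (by linarith [Real.cos_le_one (2 * Real.pi * (k * (((1 : ℕ) : ℝ) / m)))]) (hQ k))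
    rw [Finset.mem_filter] at hk
    have h5 : 2 * Real.pi * (k * (((1 : ℕ) : ℝ) / m)) = Real.pi := by
      have : (m : ℝ) = 2 * k := by
        have := hk.2.2
        rw [← this]
        push_cast
        ring
      rw [this]
      have hk0 : (0 : ℝ) < k := by linarith
      push_cast
      field_simp
    rw [h5, Real.cos_pi]
    linarith [hQ k]
  constructor <;> linarith

lemma Cv_C1 (hRH : SP.RHs) : Cv (fun m n => CR m 1 n) 0 := by
  refine Cv.of_law (f := fun m => cR m 1) (fun ε hε => ?_) ?_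
  · filter_upwards [CR_law hRH ε hε, eventually_ge_atTop 1] with m hm hm1
    filter_upwards [hm] with N hN
    exact hN 1 hm1
  · refine tendsto_of_le fun ε hε => ?_
    have h1 : ∀ᶠ m : ℕ in atTop, 1 / ε ≤ (m : ℝ) := tendsto_natCast_atTop_atTop.eventually_ge_atTop _
    filter_upwards [h1, eventually_ge_atTop 2] with m h2 hm
    have hm0 : (0 : ℝ) < m := by exact_mod_cast (by omega : 0 < m)
    have hpi := Real.pi_gt_three
    have hv1 : vm m 1 = 0 := by
      unfold vm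
      rw [Nat.cast_one, Real.log_one, zero_div]
    have h3 : vm m (m - 1) ≤ 1 := by
      refine (vm_le hm (Nat.sub_le _ _)).trans ?_
      rw [div_le_one (by positivity)]
      nlinarith
    have h4 := vm_nonneg m (m - 1)
    unfold cR
    rw [hv1, mul_zero, zero_add, sub_zero, Nat.cast_one, abs_of_nonneg (by positivity)]
    have h5 : 1 / (m : ℝ) ≤ ε := by
      rw [div_le_iff₀ hm0]
      rw [div_le_iff₀ hε] at h2
      linarith
    calc 1 / (m : ℝ) * vm m (m - 1) ≤ 1 / (m : ℝ) * 1 := mul_le_mul_of_nonneg_left h3 (by positivity)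
      _ ≤ ε := by rw [mul_one]; exact h5

lemma Cv_l1 (hRH : SP.RHs) (α : ℝ) (hα : 0 ≤ α) (hα1 : α ≤ 1) :
    Cv (fun m n => l1 m n ((m : ℝ) ^ α)) (α / (4 * Real.pi ^ 2)) := by
  refine Cv.squeeze fun δ hδ => ?_
  have hV := (Cv_L hRH α hα hα1).mul (tendsto_const_nhds (x := (1 / 2 : ℝ)))
  have hU := hV.add ((Cv_C1 hRH).mul (tendsto_const_nhds (x := (1 / 2 : ℝ))))
  have e1 : (1 / 2 : ℝ) * (α / (2 * Real.pi ^ 2)) = α / (4 * Real.pi ^ 2) := by ring
  refine ⟨_, _, _, _, hU, hV, ?_, ?_, ?_⟩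
  · rw [e1, mul_zero, add_zero, sub_self, abs_zero]
    exact hδ.le
  · rw [e1, sub_self, abs_zero]
    exact hδ.le
  · filter_upwards [eventually_ge_atTop 2] with m hm n
    exact l1_bd m n _ hm

/-- the energy in a frequency band -/
theorem band (hRH : SP.RHs) (α β : ℝ) (hα : 0 ≤ α) (hαβ : α ≤ β) (hβ : β ≤ 1) :
    Cv (fun m n => by
      classical
      exact ∑ k ∈ (range m).filter (fun k : ℕ => (m : ℝ) ^ α ≤ k ∧ (k : ℝ) < (m : ℝ) ^ β ∧ 2 * k ≤ m), Qk m k n)
      ((β - α) / (4 * Real.pi ^ 2)) := by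
  classical
  have h1 := (Cv_l1 hRH β (hα.trans hαβ) hβ).add
    ((Cv_l1 hRH α hα (hαβ.trans hβ)).mul (tendsto_const_nhds (x := (-1 : ℝ))))
  have e1 : β / (4 * Real.pi ^ 2) + -1 * (α / (4 * Real.pi ^ 2)) = (β - α) / (4 * Real.pi ^ 2) := by ring
  rw [e1] at h1
  intro ε hε
  filter_upwards [h1 ε hε, eventually_ge_atTop 1] with m hm hm1
  filter_upwards [hm] with N hN
  refine le_trans (le_of_eq ?_) hN
  congr 1
  funext n
  congr 2
  have hm1r : (1 : ℝ) ≤ m := by exact_mod_cast hm1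
  have hpa : (1 : ℝ) ≤ (m : ℝ) ^ α := Real.one_le_rpow hm1r hα
  have hpab : (m : ℝ) ^ α ≤ (m : ℝ) ^ β := Real.rpow_le_rpow_of_exponent_le hm1r hαβ
  have h2 : l1 m n ((m : ℝ) ^ β) = l1 m n ((m : ℝ) ^ α) +
      ∑ k ∈ (range m).filter (fun k : ℕ => (m : ℝ) ^ α ≤ k ∧ (k : ℝ) < (m : ℝ) ^ β ∧ 2 * k ≤ m), Qk m k n := by
    unfold l1
    rw [← Finset.sum_union]
    · refine Finset.sum_congr ?_ fun _ _ => rfl
      ext k
      simp only [Finset.mem_filter, Finset.mem_union, Finset.mem_Ico, Finset.mem_range]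
      constructor
      · rintro ⟨⟨a1, a2⟩, b, c⟩
        by_cases h : (k : ℝ) < (m : ℝ) ^ α
        · exact Or.inl ⟨⟨a1, a2⟩, h, c⟩
        · exact Or.inr ⟨a2, not_lt.1 h, b, c⟩
      · rintro (⟨⟨a1, a2⟩, b, c⟩ | ⟨a2, b, c, d⟩)
        · exact ⟨⟨a1, a2⟩, b.trans_le hpab, c⟩
        · have : (1 : ℝ) ≤ k := hpa.trans b
          exact ⟨⟨by exact_mod_cast this, a2⟩, c, d⟩
    · rw [Finset.disjoint_left]
      intro k hk1 hk2
      rw [Finset.mem_filter] at hk1 hk2
      linarith [hk1.2.1, hk2.2.1]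
  linarith

end Run7.h435.NF
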