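import Pool.Agent.Run7.h435.NFh

/-! # Covariances of the gaps: exact sum rule and the law of Dyson in the mean -/

set_option autoImplicit false

namespace Run7.h435.NF

open Filter Finset Topology
open Run7.h435.GL (dd)

/-- covariance of gaps at distance `k` -/
noncomputable def cv (k N : ℕ) : ℝ := av N (fun n => (dd n - 1) * (dd (n + k) - 1))

/-- mean square of the centred sums -/
noncomputable def V (r N : ℕ) : ℝ := av N (fun n => Wd r n ^ 2)

lemma Wd_zero (n : ℕ) : Wd 0 n = 0 := by simp [Wd]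

lemma Wd_one (n : ℕ) : Wd 1 n = dd n - 1 := by simp [Wd]

lemma V_zero (N : ℕ) : V 0 N = 0 := by
  unfold V av
  simp [Wd_zero]

/-- the shift does not change the mean in the limit -/
lemma shift_tend (C : ℝ) (hC : 0 ≤ C) (F : ℕ → ℝ) (hF0 : ∀ n, 0 ≤ F n)
    (h : ∀ᶠ N : ℕ in atTop, ∑ n ∈ Icc 1 N, F n ^ 2 ≤ C * N) (d : ℕ) (ε : ℝ) (hε : 0 < ε) :
    ∀ᶠ N : ℕ in atTop, |av N (fun n => F (n + d)) - av N F| ≤ ε := by
  obtain ⟨η, hη⟩ : ∃ η : ℝ, η = ε / (2 * (d + 1)) := ⟨_, rfl⟩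
  have hd0 : (0 : ℝ) ≤ d := Nat.cast_nonneg d
  have hη0 : 0 < η := by rw [hη]; positivity
  obtain ⟨K, hK⟩ : ∃ K : ℝ, K = ∑ n ∈ Icc 1 d, F n := ⟨_, rfl⟩
  have hK0 : 0 ≤ K := by rw [hK]; exact Finset.sum_nonneg fun n _ => hF0 n
  obtain ⟨N0, hN0⟩ := h.exists_forall_of_atTop
  have hb1 : ∀ᶠ N : ℕ in atTop, 4 * (d * C / η) / ε ≤ (N : ℝ) := tendsto_natCast_atTop_atTop.eventually_ge_atTop _
  have hb2 : ∀ᶠ N : ℕ in atTop, 4 * K / ε ≤ (N : ℝ) := tendsto_natCast_atTop_atTop.eventually_ge_atTop _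
  filter_upwards [eventually_ge_atTop N0, hb1, hb2, eventually_ge_atTop (d + 1)] with N h1 h2 h3 h4
  have hNp : (0 : ℝ) < N := by exact_mod_cast (by omega : 0 < N)
  have hdN : (d : ℝ) ≤ N := by exact_mod_cast (by omega : d ≤ N)
  have hsh := sum_shift N d F
  have hsh2 := sum_shift d N F
  rw [add_comm d N] at hsh2
  have e : av N (fun n => F (n + d)) - av N F = (1 / N : ℝ) * (∑ n ∈ Icc 1 d, F (n + N) - K) := by
    unfold av
    rw [← mul_sub, hK]
    congr 1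
    linarith
  have hterm : ∀ n ∈ Icc 1 d, F (n + N) ≤ (η * N + 2 * C / η) / 2 := by
    intro n hn
    rw [Finset.mem_Icc] at hn
    have a1 : F (n + N) ^ 2 ≤ C * ((n + N : ℕ) : ℝ) := by
      refine le_trans ?_ (hN0 (n + N) (by omega))
      exact Finset.single_le_sum (f := fun n => F n ^ 2) (fun i _ => sq_nonneg _)
        (Finset.mem_Icc.2 ⟨by omega, le_rfl⟩)
    have a2 := abs_le_amgm (F (n + N)) (η * N) (by positivity)
    rw [abs_of_nonneg (hF0 _)] at a2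
    refine a2.trans ?_
    apply div_le_div_of_nonneg_right _ (by norm_num)
    apply add_le_add le_rfl
    rw [div_le_iff₀ (by positivity)]
    refine a1.trans ?_
    have a3 : ((n + N : ℕ) : ℝ) ≤ 2 * N := by
      have : n + N ≤ 2 * N := by omega
      exact_mod_cast this
    calc C * ((n + N : ℕ) : ℝ) ≤ C * (2 * N) := mul_le_mul_of_nonneg_left a3 hC
      _ = 2 * C / η * (η * N) := by field_simp
  have hS : ∑ n ∈ Icc 1 d, F (n + N) ≤ d * ((η * N + 2 * C / η) / 2) := by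
    refine (Finset.sum_le_sum hterm).trans (le_of_eq ?_)
    rw [Finset.sum_const, Nat.card_Icc, Nat.add_sub_cancel, nsmul_eq_mul]
  have hS0 : 0 ≤ ∑ n ∈ Icc 1 d, F (n + N) := Finset.sum_nonneg fun n _ => hF0 _
  have hdη : (d : ℝ) * η ≤ ε / 2 := by
    rw [hη]
    have : (d : ℝ) * (ε / (2 * (d + 1))) = ε / 2 * (d / (d + 1)) := by field_simp
    rw [this]
    apply mul_le_of_le_one_right (by positivity)
    rw [div_le_one (by positivity)]
    linarith
  rw [div_le_iff₀ hε] at h2 h3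
  rw [e, abs_mul, abs_of_pos (by positivity : (0 : ℝ) < 1 / N), one_div, inv_mul_le_iff₀ hNp, abs_le]
  have e2 : (d : ℝ) * ((η * N + 2 * C / η) / 2) = d * η * N / 2 + d * C / η := by field_simp
  rw [e2] at hS
  have h5 : (d : ℝ) * η * N ≤ ε / 2 * N := mul_le_mul_of_nonneg_right hdη hNp.le
  have h6 : 0 ≤ ε * N := by positivity
  constructor
  · linarith
  · linarith

lemma V_shift (C : ℝ) (hC : 0 < C)
    (hF : ∀ R : ℕ, ∀ᶠ N : ℕ in atTop, ∑ n ∈ Icc 1 N, Wd R n ^ 4 ≤ C * (1 + Real.log R) ^ 2 * N)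
    (r d : ℕ) (ε : ℝ) (hε : 0 < ε) :
    ∀ᶠ N : ℕ in atTop, |av N (fun n => Wd r (n + d) ^ 2) - V r N| ≤ ε := by
  refine shift_tend (C * (1 + Real.log r) ^ 2) (by positivity) (fun n => Wd r n ^ 2) (fun n => sq_nonneg _) ?_ d ε hε
  filter_upwards [hF r] with N hN
  refine le_trans (le_of_eq ?_) hN
  refine Finset.sum_congr rfl fun n _ => ?_
  ring

/-- the second difference of the mean squares is the covariance -/
lemma cv_diff (C : ℝ) (hC : 0 < C)
    (hF : ∀ R : ℕ, ∀ᶠ N : ℕ in atTop, ∑ n ∈ Icc 1 N, Wd R n ^ 4 ≤ C * (1 + Real.log R) ^ 2 * N)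
    (k : ℕ) (hk : 1 ≤ k) (ε : ℝ) (hε : 0 < ε) :
    ∀ᶠ N : ℕ in atTop, |2 * cv k N - (V (k + 1) N - 2 * V k N + V (k - 1) N)| ≤ ε := by
  obtain ⟨j, rfl⟩ : ∃ j, k = j + 1 := ⟨k - 1, by omega⟩
  filter_upwards [V_shift C hC hF j 1 (ε / 2) (by positivity), V_shift C hC hF (j + 1) 1 (ε / 2) (by positivity)]
    with N h1 h2
  have hid : ∀ n, 2 * ((dd n - 1) * (dd (n + (j + 1)) - 1)) =
      (Wd (j + 1 + 1) n ^ 2 + Wd j (n + 1) ^ 2) - (Wd (j + 1) n ^ 2 + Wd (j + 1) (n + 1) ^ 2) := by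
    intro n
    have a1 : Wd (j + 1) n = (dd n - 1) + Wd j (n + 1) := by
      rw [add_comm j 1, Wd_add, Wd_one]
    have a2 : Wd (j + 1) (n + 1) = Wd j (n + 1) + (dd (n + (j + 1)) - 1) := by
      rw [Wd_add, Wd_one]
      congr 3
      ring
    have a3 : Wd (j + 1 + 1) n = (dd n - 1) + (Wd j (n + 1) + (dd (n + (j + 1)) - 1)) := by
      rw [add_comm (j + 1) 1, Wd_add, Wd_one, a2]
    rw [a1, a2, a3]
    ring
  have e : 2 * cv (j + 1) N = (V (j + 1 + 1) N + av N (fun n => Wd j (n + 1) ^ 2)) -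
      (V (j + 1) N + av N (fun n => Wd (j + 1) (n + 1) ^ 2)) := by
    unfold cv V
    rw [← av_mul, ← av_add, ← av_add, ← av_sub]
    congr 1
    funext n
    exact hid n
  rw [e, Nat.add_sub_cancel]
  rw [abs_le] at h1 h2 ⊢
  constructor <;> linarith [h1.1, h1.2, h2.1, h2.2]

lemma alg1 (v : ℕ → ℝ) (h0 : v 0 = 0) (m : ℕ) (hm : 1 ≤ m) :
    ∑ k ∈ Ico 1 m, ((m : ℝ) - k) * (v (k + 1) - 2 * v k + v (k - 1)) = v m - m * v 1 := by
  have hs : ∀ m : ℕ, 1 ≤ m → ∑ k ∈ Ico 1 m, (v (k + 1) - 2 * v k + v (k - 1)) = v m - v (m - 1) - v 1 := by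
    intro m hm
    induction m, hm using Nat.le_induction with
    | base => simp [h0]
    | succ m hm ih =>
      rw [Finset.sum_Ico_succ_top hm, ih, Nat.add_sub_cancel]
      ring
  induction m, hm using Nat.le_induction with
  | base => simp
  | succ m hm ih =>
    have e : ∀ k : ℕ, (((m + 1 : ℕ) : ℝ) - k) * (v (k + 1) - 2 * v k + v (k - 1)) =
        ((m : ℝ) - k) * (v (k + 1) - 2 * v k + v (k - 1)) + (v (k + 1) - 2 * v k + v (k - 1)) := by
      intro k
      push_cast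
      ring
    simp only [e]
    rw [Finset.sum_add_distrib, hs (m + 1) (by omega), Finset.sum_Ico_succ_top hm, ih, Nat.add_sub_cancel]
    push_cast
    ring

lemma alg2 (v : ℕ → ℝ) (h0 : v 0 = 0) (m : ℕ) (hm : 1 ≤ m) :
    ∑ k ∈ Ico 1 m, ((m : ℝ) - k) * k * (v (k + 1) - 2 * v k + v (k - 1)) =
      ((m : ℝ) - 1) * v m - 2 * ∑ k ∈ Ico 1 m, v k := by
  have hs : ∀ m : ℕ, 1 ≤ m → ∑ k ∈ Ico 1 m, (k : ℝ) * (v (k + 1) - 2 * v k + v (k - 1)) =
      ((m : ℝ) - 1) * v m - m * v (m - 1) := by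
    intro m hm
    induction m, hm using Nat.le_induction with
    | base => simp [h0]
    | succ m hm ih =>
      rw [Finset.sum_Ico_succ_top hm, ih, Nat.add_sub_cancel]
      push_cast
      ring
  induction m, hm using Nat.le_induction with
  | base => simp
  | succ m hm ih =>
    have e : ∀ k : ℕ, (((m + 1 : ℕ) : ℝ) - k) * k * (v (k + 1) - 2 * v k + v (k - 1)) =
        ((m : ℝ) - k) * k * (v (k + 1) - 2 * v k + v (k - 1)) + k * (v (k + 1) - 2 * v k + v (k - 1)) := by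
      intro k
      push_cast
      ring
    simp only [e]
    rw [Finset.sum_add_distrib, hs (m + 1) (by omega), Finset.sum_Ico_succ_top hm, ih, Nat.add_sub_cancel,
      Finset.sum_Ico_succ_top hm]
    push_cast
    ring

/-- the mean squares of all sums, uniformly -/
lemma V_law (hRH : SP.RHs) (ε : ℝ) (hε : 0 < ε) : ∀ᶠ m : ℕ in atTop, ∀ᶠ N : ℕ in atTop, ∀ k ≤ m,
    |V k N / Real.log m - vm m k| ≤ ε := by
  obtain ⟨C, hC, hF⟩ := fourth hRH
  filter_upwards [sq_law hRH (ε / 2) (by positivity), eventually_ge_atTop 3] with m hm hm3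
  have hm0 : (0 : ℝ) < m := by exact_mod_cast (by omega : 0 < m)
  have hl : 0 < Real.log m := Real.log_pos (by exact_mod_cast (by omega : 1 < m))
  have hsh : ∀ᶠ N : ℕ in atTop, ∀ k ∈ range (m + 1), ∀ j ∈ range m,
      |av N (fun n => Wd k (n + j) ^ 2) - V k N| ≤ ε / 2 * Real.log m := by
    rw [Filter.eventually_all_finset]
    intro k _
    rw [Filter.eventually_all_finset]
    intro j _
    exact V_shift C hC hF k j _ (by positivity)
  filter_upwards [hm, hsh, eventually_ge_atTop 1] with N h1 h2 hN k hk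
  have h3 := (av_abs _ _).trans (h1 k hk m le_rfl)
  have e1 : av N (fun n => (1 / m : ℝ) * ∑ j ∈ range m,
      (Wd k (n + j) ^ 2 / Real.log m - Real.log k / (Real.pi ^ 2 * Real.log m))) =
      (1 / m : ℝ) * ∑ j ∈ range m, (av N (fun n => Wd k (n + j) ^ 2) / Real.log m - vm m k) := by
    rw [av_mul, av_sum]
    congr 1
    refine Finset.sum_congr rfl fun j _ => ?_
    rw [av_sub, av_const hN]
    have : (fun n => Wd k (n + j) ^ 2 / Real.log m) = fun n => (1 / Real.log m) * Wd k (n + j) ^ 2 := by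
      funext n
      ring
    rw [this, av_mul]
    unfold vm
    ring
  rw [e1] at h3
  have h4 : |V k N / Real.log m - vm m k - (1 / m : ℝ) * ∑ j ∈ range m,
      (av N (fun n => Wd k (n + j) ^ 2) / Real.log m - vm m k)| ≤ ε / 2 := by
    have e2 : V k N / Real.log m - vm m k - (1 / m : ℝ) * ∑ j ∈ range m,
        (av N (fun n => Wd k (n + j) ^ 2) / Real.log m - vm m k) =
        (1 / m : ℝ) * ∑ j ∈ range m, (V k N - av N (fun n => Wd k (n + j) ^ 2)) / Real.log m := by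
      have e3 : V k N / Real.log m - vm m k = (1 / m : ℝ) * ∑ _j ∈ range m, (V k N / Real.log m - vm m k) := by
        rw [Finset.sum_const, Finset.card_range, nsmul_eq_mul]
        field_simp
      rw [e3, ← mul_sub, ← Finset.sum_sub_distrib]
      congr 1
      refine Finset.sum_congr rfl fun j _ => ?_
      ring
    rw [e2, abs_mul, abs_of_pos (by positivity : (0 : ℝ) < 1 / m), one_div, inv_mul_le_iff₀ hm0]
    refine (Finset.abs_sum_le_sum_abs _ _).trans ?_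
    have h5 : ∀ j ∈ range m, |(V k N - av N (fun n => Wd k (n + j) ^ 2)) / Real.log m| ≤ ε / 2 := by
      intro j hj
      rw [abs_div, abs_of_pos hl, div_le_iff₀ hl, abs_sub_comm]
      exact h2 k (Finset.mem_range.2 (by omega)) j hj
    refine (Finset.sum_le_sum h5).trans (le_of_eq ?_)
    rw [Finset.sum_const, Finset.card_range, nsmul_eq_mul]
  rw [abs_le] at h3 h4 ⊢
  constructor <;> linarith [h3.1, h3.2, h4.1, h4.2]

lemma mean_vm : Tendsto (fun m : ℕ => (1 / m : ℝ) * ∑ k ∈ Ico 1 m, vm m k) atTop (𝓝 (1 / Real.pi ^ 2)) := by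
  refine tendsto_of_le fun ε hε => ?_
  have hpi := Real.pi_gt_three
  have hp2 : (1 : ℝ) ≤ Real.pi ^ 2 := by nlinarith
  obtain ⟨δ, hδ⟩ : ∃ δ : ℝ, δ = min 1 (ε / 2) := ⟨_, rfl⟩
  have hδ0 : 0 < δ := by rw [hδ]; exact lt_min one_pos (by positivity)
  have hδ1 : δ ≤ 1 := by rw [hδ]; exact min_le_left _ _
  have hδ2 : δ ≤ ε / 2 := by rw [hδ]; exact min_le_right _ _
  filter_upwards [pow_small_le δ hδ0 (ε / 16) (by positivity), eventually_ge_atTop 2] with m h1 hm
  have hm0 : (0 : ℝ) < m := by exact_mod_cast (by omega : 0 < m)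
  obtain ⟨H, hH⟩ : ∃ H : ℕ, H = Rb (1 - δ) m := ⟨_, rfl⟩
  have hHm : H ≤ m := by rw [hH]; exact Rb_le (by linarith) (by omega)
  have hH1 : 1 ≤ H := by rw [hH]; exact Rb_one (by omega)
  have hv : (1 - δ) / Real.pi ^ 2 ≤ vm m H := by rw [hH]; exact vm_low hm
  have hR : (H : ℝ) ≤ 2 * (m : ℝ) ^ (1 - δ) := by rw [hH]; exact Rb_up (by linarith) (by omega)
  have h2 : (H : ℝ) / m ≤ ε / 8 := by
    rw [div_le_iff₀ hm0]
    have h3 : (m : ℝ) ^ (1 - δ) = m * (m : ℝ) ^ (-δ) := by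
      rw [sub_eq_add_neg, Real.rpow_add hm0, Real.rpow_one]
    rw [h3] at hR
    have h4 := mul_le_mul_of_nonneg_left h1 hm0.le
    linarith
  have hup : (1 / m : ℝ) * ∑ k ∈ Ico 1 m, vm m k ≤ 1 / Real.pi ^ 2 := by
    rw [one_div, inv_mul_le_iff₀ hm0]
    have h3 : ∑ k ∈ Ico 1 m, vm m k ≤ ∑ _k ∈ Ico 1 m, 1 / Real.pi ^ 2 :=
      Finset.sum_le_sum fun k hk => vm_le hm (Finset.mem_Ico.1 hk).2.le
    refine h3.trans ?_
    rw [Finset.sum_const, Nat.card_Ico, nsmul_eq_mul]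
    apply mul_le_mul_of_nonneg_right _ (by positivity)
    exact_mod_cast Nat.sub_le m 1
  have hlo : vm m H - (H / m) / Real.pi ^ 2 ≤ (1 / m : ℝ) * ∑ k ∈ Ico 1 m, vm m k := by
    have h3 : ((m : ℝ) - H) * vm m H ≤ ∑ k ∈ Ico 1 m, vm m k := by
      calc ((m : ℝ) - H) * vm m H = ∑ _k ∈ Ico H m, vm m H := by
            rw [Finset.sum_const, Nat.card_Ico, nsmul_eq_mul, Nat.cast_sub hHm]
        _ ≤ ∑ k ∈ Ico H m, vm m k := Finset.sum_le_sum fun k hk => vm_mono m (Finset.mem_Ico.1 hk).1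
        _ ≤ ∑ k ∈ Ico 1 m, vm m k :=
            Finset.sum_le_sum_of_subset_of_nonneg (Finset.Ico_subset_Ico hH1 le_rfl) fun k _ _ => vm_nonneg m k
    have h4 := mul_le_mul_of_nonneg_left h3 (by positivity : (0 : ℝ) ≤ 1 / m)
    refine le_trans ?_ h4
    have e : (1 / m : ℝ) * (((m : ℝ) - H) * vm m H) = vm m H - (H / m) * vm m H := by field_simp
    rw [e]
    have h5 : ((H : ℝ) / m) * vm m H ≤ (H / m) * (1 / Real.pi ^ 2) :=
      mul_le_mul_of_nonneg_left (vm_le hm hHm) (by positivity)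
    have e2 : ((H : ℝ) / m) / Real.pi ^ 2 = (H / m) * (1 / Real.pi ^ 2) := by ring
    rw [e2]
    linarith
  have h5 : ((H : ℝ) / m) / Real.pi ^ 2 ≤ ε / 8 := (div_le_self (by positivity) hp2).trans h2
  have h6 : δ / Real.pi ^ 2 ≤ ε / 2 := (div_le_self hδ0.le hp2).trans hδ2
  have e : (1 - δ) / Real.pi ^ 2 = 1 / Real.pi ^ 2 - δ / Real.pi ^ 2 := by ring
  rw [e] at hv
  rw [abs_le]
  constructor <;> linarith

/-- the sum rule and the law of Dyson in the mean -/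
theorem cov_laws (hRH : SP.RHs) (ε : ℝ) (hε : 0 < ε) : ∀ᶠ m : ℕ in atTop, ∀ᶠ N : ℕ in atTop,
    |m / Real.log m * (cv 0 N + 2 * ∑ k ∈ Ico 1 m, (1 - (k : ℝ) / m) * cv k N) - 1 / Real.pi ^ 2| ≤ ε ∧
    |1 / Real.log m * ∑ k ∈ Ico 1 m, (1 - (k : ℝ) / m) * k * cv k N + 1 / (2 * Real.pi ^ 2)| ≤ ε := by
  obtain ⟨C, hC, hF⟩ := fourth hRH
  have hpi := Real.pi_gt_three
  have hp2 : (1 : ℝ) ≤ Real.pi ^ 2 := by nlinarith
  have hmv : ∀ᶠ m : ℕ in atTop, |(1 / m : ℝ) * ∑ k ∈ Ico 1 m, vm m k - 1 / Real.pi ^ 2| < ε / 8 := by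
    have := Metric.tendsto_nhds.1 mean_vm (ε / 8) (by positivity)
    simpa only [Real.dist_eq] using this
  have hinv : ∀ᶠ m : ℕ in atTop, 8 / ε ≤ (m : ℝ) := tendsto_natCast_atTop_atTop.eventually_ge_atTop _
  filter_upwards [V_law hRH (ε / 8) (by positivity), hmv, hinv, eventually_ge_atTop 3] with m hV hmv2 hinv2 hm3
  have hm0 : (0 : ℝ) < m := by exact_mod_cast (by omega : 0 < m)
  have hl : 0 < Real.log m := Real.log_pos (by exact_mod_cast (by omega : 1 < m))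
  -- the error terms
  obtain ⟨η, hη⟩ : ∃ η : ℝ, η = ε / 8 * Real.log m / (m : ℝ) ^ 3 := ⟨_, rfl⟩
  have hη0 : 0 < η := by rw [hη]; positivity
  have hcv : ∀ᶠ N : ℕ in atTop, ∀ k ∈ Ico 1 m, |2 * cv k N - (V (k + 1) N - 2 * V k N + V (k - 1) N)| ≤ η := by
    rw [Filter.eventually_all_finset]
    intro k hk
    exact cv_diff C hC hF k (Finset.mem_Ico.1 hk).1 η hη0
  filter_upwards [hV, hcv] with N hV2 hcv2
  obtain ⟨ρ, hρ⟩ : ∃ ρ : ℕ → ℝ, ρ = fun k => 2 * cv k N - (V (k + 1) N - 2 * V k N + V (k - 1) N) := ⟨_, rfl⟩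
  have hρb : ∀ k ∈ Ico 1 m, |ρ k| ≤ η := by rw [hρ]; exact hcv2
  have hcvρ : ∀ k, cv k N = (1 / 2) * ((V (k + 1) N - 2 * V k N + V (k - 1) N) + ρ k) := by
    intro k
    rw [hρ]
    ring
  have hsumη : ∀ w : ℕ → ℝ, (∀ k ∈ Ico 1 m, |w k| ≤ m) →
      |∑ k ∈ Ico 1 m, w k * ρ k| ≤ ε / 8 * Real.log m / m := by
    intro w hw
    refine (Finset.abs_sum_le_sum_abs _ _).trans ?_
    have h1 : ∀ k ∈ Ico 1 m, |w k * ρ k| ≤ m * η := by
      intro k hk
      rw [abs_mul]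
      exact mul_le_mul (hw k hk) (hρb k hk) (abs_nonneg _) hm0.le
    refine (Finset.sum_le_sum h1).trans ?_
    rw [Finset.sum_const, Nat.card_Ico, nsmul_eq_mul]
    have h2 : ((m - 1 : ℕ) : ℝ) ≤ m := by exact_mod_cast Nat.sub_le m 1
    calc ((m - 1 : ℕ) : ℝ) * (m * η) ≤ m * (m * η) := mul_le_mul_of_nonneg_right h2 (by positivity)
      _ = ε / 8 * Real.log m / m := by
          rw [hη]
          field_simp
  have hm1 : (1 : ℝ) ≤ m := by exact_mod_cast (by omega : 1 ≤ m)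
  have hVm := hV2 m le_rfl
  rw [vm_full (by omega)] at hVm
  have hc0 : cv 0 N = V 1 N := by
    unfold cv V
    congr 1
    funext n
    rw [Wd_one, add_zero]
    ring
  constructor
  · -- the sum rule
    have h1 := alg1 (fun k => V k N) (V_zero N) m (by omega)
    have h2 := hsumη (fun k => ((m : ℝ) - k) / m) (by
      intro k hk
      rw [Finset.mem_Ico] at hk
      have hk1 : (k : ℝ) ≤ m := by exact_mod_cast hk.2.le
      have hk0 : (0 : ℝ) ≤ k := Nat.cast_nonneg k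
      rw [abs_of_nonneg (div_nonneg (by linarith) hm0.le), div_le_iff₀ hm0]
      nlinarith)
    have e : m / Real.log m * (cv 0 N + 2 * ∑ k ∈ Ico 1 m, (1 - (k : ℝ) / m) * cv k N) =
        V m N / Real.log m + (m / Real.log m) * ∑ k ∈ Ico 1 m, ((m : ℝ) - k) / m * ρ k := by
      have e1 : ∑ k ∈ Ico 1 m, (1 - (k : ℝ) / m) * cv k N =
          (1 / (2 * m)) * ∑ k ∈ Ico 1 m, ((m : ℝ) - k) * (V (k + 1) N - 2 * V k N + V (k - 1) N) +
          (1 / 2) * ∑ k ∈ Ico 1 m, ((m : ℝ) - k) / m * ρ k := by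
        rw [Finset.mul_sum, Finset.mul_sum, ← Finset.sum_add_distrib]
        refine Finset.sum_congr rfl fun k _ => ?_
        rw [hcvρ]
        field_simp
      rw [e1, h1, hc0]
      field_simp
      ring
    have h3 : |(m / Real.log m) * ∑ k ∈ Ico 1 m, ((m : ℝ) - k) / m * ρ k| ≤ ε / 8 := by
      rw [abs_mul, abs_of_pos (by positivity : 0 < (m : ℝ) / Real.log m)]
      calc (m / Real.log m) * |∑ k ∈ Ico 1 m, ((m : ℝ) - k) / m * ρ k| ≤
          (m / Real.log m) * (ε / 8 * Real.log m / m) := mul_le_mul_of_nonneg_left h2 (by positivity)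
        _ = _ := by field_simp
    rw [e]
    rw [abs_le] at hVm h3 ⊢
    constructor <;> linarith [hVm.1, hVm.2, h3.1, h3.2]
  · -- the law of Dyson
    have h1 := alg2 (fun k => V k N) (V_zero N) m (by omega)
    have h2 := hsumη (fun k => (1 - (k : ℝ) / m) * k) (by
      intro k hk
      rw [Finset.mem_Ico] at hk
      have hk1 : (k : ℝ) ≤ m := by exact_mod_cast hk.2.le
      have hk0 : (0 : ℝ) ≤ k := Nat.cast_nonneg k
      have hk2 : (k : ℝ) / m ≤ 1 := by rw [div_le_one hm0]; exact hk1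
      have hk3 : 0 ≤ (k : ℝ) / m := by positivity
      rw [abs_of_nonneg (mul_nonneg (by linarith) hk0)]
      calc (1 - (k : ℝ) / m) * k ≤ 1 * k := mul_le_mul_of_nonneg_right (by linarith) hk0
        _ ≤ m := by rw [one_mul]; exact hk1)
    have e : 1 / Real.log m * ∑ k ∈ Ico 1 m, (1 - (k : ℝ) / m) * k * cv k N =
        (1 / 2) * (V m N / Real.log m) - (1 / (2 * m)) * (V m N / Real.log m) -
        (1 / m) * ∑ k ∈ Ico 1 m, V k N / Real.log m +
        (1 / (2 * Real.log m)) * ∑ k ∈ Ico 1 m, (1 - (k : ℝ) / m) * k * ρ k := by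
      have e1 : ∑ k ∈ Ico 1 m, (1 - (k : ℝ) / m) * k * cv k N =
          (1 / (2 * m)) * ∑ k ∈ Ico 1 m, ((m : ℝ) - k) * k * (V (k + 1) N - 2 * V k N + V (k - 1) N) +
          (1 / 2) * ∑ k ∈ Ico 1 m, (1 - (k : ℝ) / m) * k * ρ k := by
        rw [Finset.mul_sum, Finset.mul_sum, ← Finset.sum_add_distrib]
        refine Finset.sum_congr rfl fun k _ => ?_
        rw [hcvρ]
        field_simp
      rw [e1, h1, ← Finset.sum_div]
      field_simp
    have h3 : |(1 / (2 * Real.log m)) * ∑ k ∈ Ico 1 m, (1 - (k : ℝ) / m) * k * ρ k| ≤ ε / 8 := by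
      rw [abs_mul, abs_of_pos (by positivity : 0 < 1 / (2 * Real.log m))]
      calc (1 / (2 * Real.log m)) * |∑ k ∈ Ico 1 m, (1 - (k : ℝ) / m) * k * ρ k| ≤
          (1 / (2 * Real.log m)) * (ε / 8 * Real.log m / m) := mul_le_mul_of_nonneg_left h2 (by positivity)
        _ = (ε / 8) * (1 / (2 * m)) := by field_simp
        _ ≤ (ε / 8) * 1 := by
            apply mul_le_mul_of_nonneg_left _ (by positivity)
            rw [div_le_one (by positivity)]
            linarith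
        _ = _ := mul_one _
    have h4 : |(1 / m : ℝ) * ∑ k ∈ Ico 1 m, V k N / Real.log m - (1 / m : ℝ) * ∑ k ∈ Ico 1 m, vm m k| ≤ ε / 8 := by
      rw [← mul_sub, ← Finset.sum_sub_distrib, abs_mul, abs_of_pos (by positivity : (0 : ℝ) < 1 / m), one_div,
        inv_mul_le_iff₀ hm0]
      refine (Finset.abs_sum_le_sum_abs _ _).trans ?_
      refine (Finset.sum_le_sum fun k hk => hV2 k (Finset.mem_Ico.1 hk).2.le).trans ?_
      rw [Finset.sum_const, Nat.card_Ico, nsmul_eq_mul]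
      apply mul_le_mul_of_nonneg_right _ (by positivity)
      exact_mod_cast Nat.sub_le m 1
    have hVm0 : 0 ≤ V m N / Real.log m := by
      apply div_nonneg _ hl.le
      unfold V av
      exact mul_nonneg (by positivity) (Finset.sum_nonneg fun _ _ => sq_nonneg _)
    have h5 : (1 / (2 * m)) * (V m N / Real.log m) ≤ ε / 8 := by
      have h6 : V m N / Real.log m ≤ 1 + ε / 8 := by
        have h7 : 1 / Real.pi ^ 2 ≤ 1 := by rw [div_le_one (by positivity)]; exact hp2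
        linarith [(abs_le.1 hVm).2]
      have h8 : 1 / (m : ℝ) ≤ ε / 8 := by
        rw [div_le_iff₀ hm0]
        rw [div_le_iff₀ hε] at hinv2
        linarith
      have h9 : 1 / (m : ℝ) ≤ 1 := by rw [div_le_one hm0]; exact hm1
      have h10 : 0 ≤ 1 / (m : ℝ) := by positivity
      have e2 : (1 / (2 * m)) * (V m N / Real.log m) = (1 / 2) * ((1 / m) * (V m N / Real.log m)) := by
        field_simp
      rw [e2]
      have h11 : (1 / (m : ℝ)) * (V m N / Real.log m) ≤ (1 / m) * (1 + ε / 8) := mul_le_mul_of_nonneg_left h6 h10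
      have h12 : (1 / (m : ℝ)) * (ε / 8) ≤ 1 * (ε / 8) := mul_le_mul_of_nonneg_right h9 (by positivity)
      linarith
    have h6 : 0 ≤ (1 / (2 * m)) * (V m N / Real.log m) := mul_nonneg (by positivity) hVm0
    have e3 : 1 / (2 * Real.pi ^ 2) = (1 / 2) * (1 / Real.pi ^ 2) := by ring
    rw [e, e3]
    have hmv3 := hmv2.le
    rw [abs_le] at hVm h3 h4 hmv3 ⊢
    constructor <;> linarith [hVm.1, hVm.2, h3.1, h3.2, h4.1, h4.2, hmv3.1, hmv3.2]

end Run7.h435.NF
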