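import Pool.Agent.Run7.h435.PolyAlg2

/-!
# Points of the plane with rational coordinates
-/

set_option linter.unusedSectionVars false

namespace Run7.h435

open Pool.Agent Pool.Agent.NPC Pool.Agent.NPC.H532

/-! ### The test for collinearity -/

/-- Homogeneous coordinates. -/
def hX (p : ℚ × ℚ) : ℤ := p.1.num * (p.2.den : ℤ)

def hY (p : ℚ × ℚ) : ℤ := p.2.num * (p.1.den : ℤ)

def hZ (p : ℚ × ℚ) : ℤ := (p.1.den : ℤ) * (p.2.den : ℤ)

def det3 (a b c : ℚ × ℚ) : ℤ :=
  hX a * (hY b * hZ c - hY c * hZ b) - hY a * (hX b * hZ c - hX c * hZ b) +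
    hZ a * (hX b * hY c - hX c * hY b)

/-- The test whether three points are distinct and collinear. -/
def colB (a b c : ℚ × ℚ) : Bool :=
  !(decide (a = b)) && (!(decide (b = c)) && (!(decide (a = c)) && decide (det3 a b c = 0)))

/-- Twice the signed area. -/
def DD (a b c : ℚ × ℚ) : ℚ := (b.1 - a.1) * (c.2 - a.2) - (b.2 - a.2) * (c.1 - a.1)

theorem hX_cast (p : ℚ × ℚ) : (hX p : ℚ) = p.1 * hZ p := by
  unfold hX hZ
  push_cast
  have h1 : (p.1.num : ℚ) = p.1 * p.1.den := (Rat.mul_den_eq_num p.1).symm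
  rw [h1]
  ring

theorem hY_cast (p : ℚ × ℚ) : (hY p : ℚ) = p.2 * hZ p := by
  unfold hY hZ
  push_cast
  have h1 : (p.2.num : ℚ) = p.2 * p.2.den := (Rat.mul_den_eq_num p.2).symm
  rw [h1]
  ring

theorem hZ_ne (p : ℚ × ℚ) : (hZ p : ℚ) ≠ 0 := by
  unfold hZ
  push_cast
  have h1 : (p.1.den : ℚ) ≠ 0 := by exact_mod_cast p.1.den_nz
  have h2 : (p.2.den : ℚ) ≠ 0 := by exact_mod_cast p.2.den_nz
  exact mul_ne_zero h1 h2

theorem det3_zero (a b c : ℚ × ℚ) : det3 a b c = 0 ↔ DD a b c = 0 := by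
  have e : (det3 a b c : ℚ) = (hZ a * hZ b * hZ c) * DD a b c := by
    unfold det3 DD
    push_cast
    rw [hX_cast, hX_cast, hX_cast, hY_cast, hY_cast, hY_cast]
    ring
  have h1 : (hZ a : ℚ) * hZ b * hZ c ≠ 0 := mul_ne_zero (mul_ne_zero (hZ_ne a) (hZ_ne b)) (hZ_ne c)
  constructor
  · intro h
    rw [h] at e
    have : (hZ a * hZ b * hZ c : ℚ) * DD a b c = 0 := by rw [← e]; simp
    exact (mul_eq_zero.1 this).resolve_left h1
  · intro h
    rw [h, mul_zero] at e
    exact_mod_cast e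

theorem colB_iff (a b c : ℚ × ℚ) :
    (rel colB) a b c ↔ a ≠ b ∧ b ≠ c ∧ a ≠ c ∧ DD a b c = 0 := by
  unfold rel colB
  simp only [Bool.and_eq_true, Bool.not_eq_true', decide_eq_false_iff_not, decide_eq_true_iff,
    det3_zero, ne_eq]

theorem lin_colB : Lin (rel colB) := by
  constructor
  · intro a b c h
    rw [colB_iff] at h ⊢
    obtain ⟨h1, h2, h3, h4⟩ := h
    refine ⟨h1.symm, h3, h2, ?_⟩
    unfold DD at *
    linarith
  · intro a b c h
    rw [colB_iff] at h ⊢
    obtain ⟨h1, h2, h3, h4⟩ := h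
    refine ⟨h2, h3.symm, h1.symm, ?_⟩
    unfold DD at *
    linarith
  · intro a b c h
    rw [colB_iff] at h
    exact h.1
  · intro a b c d h h' hcd
    rw [colB_iff] at h h' ⊢
    obtain ⟨h1, h2, h3, h4⟩ := h
    obtain ⟨_, h2', h3', h4'⟩ := h'
    refine ⟨h3, hcd, h3', ?_⟩
    unfold DD at *
    have e1 : (b.1 - a.1) * ((c.1 - a.1) * (d.2 - a.2) - (c.2 - a.2) * (d.1 - a.1)) = 0 := by
      linear_combination (c.1 - a.1) * h4' - (d.1 - a.1) * h4
    have e2 : (b.2 - a.2) * ((c.1 - a.1) * (d.2 - a.2) - (c.2 - a.2) * (d.1 - a.1)) = 0 := by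
      linear_combination (c.2 - a.2) * h4' - (d.2 - a.2) * h4
    by_contra hne
    have e3 := (mul_eq_zero.1 e1).resolve_right hne
    have e4 := (mul_eq_zero.1 e2).resolve_right hne
    exact h1 (Prod.ext (by linarith) (by linarith))

theorem Poly_hX : NPC.Poly hX := by
  unfold hX
  exact Poly_mulZ (RP.Poly_num (NPC.Poly.fst NPC.Poly.id))
    (Poly_ofNat (RP.Poly_den (NPC.Poly.snd NPC.Poly.id)))

theorem Poly_hY : NPC.Poly hY := by
  unfold hY
  exact Poly_mulZ (RP.Poly_num (NPC.Poly.snd NPC.Poly.id))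
    (Poly_ofNat (RP.Poly_den (NPC.Poly.fst NPC.Poly.id)))

theorem Poly_hZ : NPC.Poly hZ := by
  unfold hZ
  exact Poly_mulZ (Poly_ofNat (RP.Poly_den (NPC.Poly.fst NPC.Poly.id)))
    (Poly_ofNat (RP.Poly_den (NPC.Poly.snd NPC.Poly.id)))

theorem Poly_colB : NPC.Poly (fun p : (ℚ × ℚ) × (ℚ × ℚ) × (ℚ × ℚ) => colB p.1 p.2.1 p.2.2) := by
  have a : NPC.Poly (fun p : (ℚ × ℚ) × (ℚ × ℚ) × (ℚ × ℚ) => p.1) := NPC.Poly.fst NPC.Poly.id
  have b : NPC.Poly (fun p : (ℚ × ℚ) × (ℚ × ℚ) × (ℚ × ℚ) => p.2.1) :=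
    NPC.Poly.fst (NPC.Poly.snd NPC.Poly.id)
  have c : NPC.Poly (fun p : (ℚ × ℚ) × (ℚ × ℚ) × (ℚ × ℚ) => p.2.2) :=
    NPC.Poly.snd (NPC.Poly.snd NPC.Poly.id)
  have d : NPC.Poly (fun p : (ℚ × ℚ) × (ℚ × ℚ) × (ℚ × ℚ) => det3 p.1 p.2.1 p.2.2) := by
    unfold det3
    refine Poly_addZ (Poly_subZ (Poly_mulZ (Poly_hX.comp a) (Poly_subZ (Poly_mulZ (Poly_hY.comp b)
      (Poly_hZ.comp c)) (Poly_mulZ (Poly_hY.comp c) (Poly_hZ.comp b)))) (Poly_mulZ
      (Poly_hY.comp a) (Poly_subZ (Poly_mulZ (Poly_hX.comp b) (Poly_hZ.comp c)) (Poly_mulZ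
      (Poly_hX.comp c) (Poly_hZ.comp b))))) (Poly_mulZ (Poly_hZ.comp a) (Poly_subZ (Poly_mulZ
      (Poly_hX.comp b) (Poly_hY.comp c)) (Poly_mulZ (Poly_hX.comp c) (Poly_hY.comp b))))
  unfold colB
  exact NPC.Poly.and (NPC.Poly.not (NPC.Poly.decide_eq a b)) (NPC.Poly.and (NPC.Poly.not
    (NPC.Poly.decide_eq b c)) (NPC.Poly.and (NPC.Poly.not (NPC.Poly.decide_eq a c))
    (NPC.Poly.decide_eq d (NPC.Poly.const 0))))

/-! ### Collinearity in the Euclidean plane -/

/-- The point of the Euclidean plane with given rational coordinates. -/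
noncomputable def toPlane (p : ℚ × ℚ) : EuclideanSpace ℝ (Fin 2) := !₂[(p.1 : ℝ), (p.2 : ℝ)]

theorem toPlane_zero (p : ℚ × ℚ) : toPlane p 0 = p.1 := by simp [toPlane]

theorem toPlane_one (p : ℚ × ℚ) : toPlane p 1 = p.2 := by simp [toPlane]

theorem collinear_toPlane {a b c : ℚ × ℚ} (hab : a ≠ b) :
    Collinear ℝ {toPlane a, toPlane b, toPlane c} ↔ DD a b c = 0 := by
  rw [collinear_iff_of_mem (p₀ := toPlane a) (by simp)]
  constructor
  · rintro ⟨v, hv⟩
    obtain ⟨s, hs⟩ := hv (toPlane b) (by simp)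
    obtain ⟨t, ht⟩ := hv (toPlane c) (by simp)
    have s0 := congrArg (fun f : EuclideanSpace ℝ (Fin 2) => f 0) hs
    have s1 := congrArg (fun f : EuclideanSpace ℝ (Fin 2) => f 1) hs
    have t0 := congrArg (fun f : EuclideanSpace ℝ (Fin 2) => f 0) ht
    have t1 := congrArg (fun f : EuclideanSpace ℝ (Fin 2) => f 1) ht
    simp only [vadd_eq_add, PiLp.add_apply, PiLp.smul_apply, smul_eq_mul, toPlane_zero,
      toPlane_one] at s0 s1 t0 t1
    have : ((DD a b c : ℚ) : ℝ) = 0 := by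
      unfold DD
      push_cast
      rw [s0, s1, t0, t1]
      ring
    exact_mod_cast this
  · intro h
    refine ⟨toPlane b - toPlane a, ?_⟩
    intro p hp
    simp only [Set.mem_insert_iff, Set.mem_singleton_iff] at hp
    rcases hp with rfl | rfl | rfl
    · exact ⟨0, by simp⟩
    · exact ⟨1, by simp⟩
    · have hR : ((b.1 : ℝ) - a.1) * (c.2 - a.2) - (b.2 - a.2) * (c.1 - a.1) = 0 := by
        unfold DD at h
        exact_mod_cast h
      by_cases h1 : (b.1 : ℝ) - a.1 = 0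
      · have h2 : (b.2 : ℝ) - a.2 ≠ 0 := by
          intro h2
          apply hab
          refine Prod.ext ?_ ?_
          · have : (b.1 : ℝ) = a.1 := by linarith
            exact_mod_cast this.symm
          · have : (b.2 : ℝ) = a.2 := by linarith
            exact_mod_cast this.symm
        refine ⟨(c.2 - a.2) / (b.2 - a.2), ?_⟩
        ext i
        fin_cases i
        · simp only [vadd_eq_add, PiLp.add_apply, PiLp.smul_apply, PiLp.sub_apply, smul_eq_mul]
          change toPlane c 0 = _ * (toPlane b 0 - toPlane a 0) + toPlane a 0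
          rw [toPlane_zero, toPlane_zero, toPlane_zero, h1]
          rw [h1, zero_mul, zero_sub, neg_eq_zero, mul_eq_zero] at hR
          have := hR.resolve_left h2
          linarith
        · simp only [vadd_eq_add, PiLp.add_apply, PiLp.smul_apply, PiLp.sub_apply, smul_eq_mul]
          change toPlane c 1 = _ * (toPlane b 1 - toPlane a 1) + toPlane a 1
          rw [toPlane_one, toPlane_one, toPlane_one]
          field_simp
          ring
      · refine ⟨(c.1 - a.1) / (b.1 - a.1), ?_⟩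
        ext i
        fin_cases i
        · simp only [vadd_eq_add, PiLp.add_apply, PiLp.smul_apply, PiLp.sub_apply, smul_eq_mul]
          change toPlane c 0 = _ * (toPlane b 0 - toPlane a 0) + toPlane a 0
          rw [toPlane_zero, toPlane_zero, toPlane_zero]
          field_simp
          ring
        · simp only [vadd_eq_add, PiLp.add_apply, PiLp.smul_apply, PiLp.sub_apply, smul_eq_mul]
          change toPlane c 1 = _ * (toPlane b 1 - toPlane a 1) + toPlane a 1
          rw [toPlane_one, toPlane_one, toPlane_one]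
          field_simp
          linear_combination hR

end Run7.h435
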