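import Pool.Agent.Run7.h435.Ratio2
import Pool.Agent.H532R2.RatPoly

/-!
# The algorithm runs in polynomial time
-/

set_option linter.unusedSectionVars false

namespace Run7.h435

open Pool.Agent Pool.Agent.NPC Pool.Agent.NPC.H532

section basics

variable {β γ δ σ : Type} [TEnc β] [TEnc γ] [TEnc δ] [TEnc σ]

theorem Poly_best {f : β → σ → ℕ} {d : β → σ} {l : β → List σ}
    (hf : NPC.Poly (fun p : β × σ => f p.1 p.2)) (hd : NPC.Poly d) (hl : NPC.Poly l) :
    NPC.Poly (fun b => best (f b) (d b) (l b)) := by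
  unfold best
  refine Poly_foldl (F := fun b s x => if f b s < f b x then x else s) hl hd ?_
    (fun b => sz (d b) + sz (l b)) ((PB.sz hd).add (PB.sz hl)) ?_
  · have h1 : NPC.Poly (fun p : β × σ × σ => f p.1 p.2.1) :=
      hf.comp (NPC.Poly.pair (NPC.Poly.fst NPC.Poly.id) (NPC.Poly.fst (NPC.Poly.snd NPC.Poly.id)))
    have h2 : NPC.Poly (fun p : β × σ × σ => f p.1 p.2.2) :=
      hf.comp (NPC.Poly.pair (NPC.Poly.fst NPC.Poly.id) (NPC.Poly.snd (NPC.Poly.snd NPC.Poly.id)))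
    exact NPC.Poly.ite (p := fun p : β × σ × σ => f p.1 p.2.1 < f p.1 p.2.2) (NPC.Poly.decide_lt h1 h2)
      (NPC.Poly.snd (NPC.Poly.snd NPC.Poly.id)) (NPC.Poly.fst (NPC.Poly.snd NPC.Poly.id))
  · intro a k _
    rcases best_mem (f a) ((l a).take k) (d a) with h | h
    · unfold best at h
      rw [h]
      exact Nat.le_add_right _ _
    · unfold best at h
      have := sz_le_of_mem (List.mem_of_mem_take h)
      omega

theorem Poly_least {f : β → σ → ℕ} {d : β → σ} {l : β → List σ}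
    (hf : NPC.Poly (fun p : β × σ => f p.1 p.2)) (hd : NPC.Poly d) (hl : NPC.Poly l) :
    NPC.Poly (fun b => least (f b) (d b) (l b)) := by
  unfold least
  refine Poly_foldl (F := fun b s x => if f b x < f b s then x else s) hl hd ?_
    (fun b => sz (d b) + sz (l b)) ((PB.sz hd).add (PB.sz hl)) ?_
  · have h1 : NPC.Poly (fun p : β × σ × σ => f p.1 p.2.1) :=
      hf.comp (NPC.Poly.pair (NPC.Poly.fst NPC.Poly.id) (NPC.Poly.fst (NPC.Poly.snd NPC.Poly.id)))
    have h2 : NPC.Poly (fun p : β × σ × σ => f p.1 p.2.2) :=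
      hf.comp (NPC.Poly.pair (NPC.Poly.fst NPC.Poly.id) (NPC.Poly.snd (NPC.Poly.snd NPC.Poly.id)))
    exact NPC.Poly.ite (p := fun p : β × σ × σ => f p.1 p.2.2 < f p.1 p.2.1) (NPC.Poly.decide_lt h2 h1)
      (NPC.Poly.snd (NPC.Poly.snd NPC.Poly.id)) (NPC.Poly.fst (NPC.Poly.snd NPC.Poly.id))
  · intro a k _
    rcases least_mem (f a) ((l a).take k) (d a) with h | h
    · unfold least at h
      rw [h]
      exact Nat.le_add_right _ _
    · unfold least at h
      have := sz_le_of_mem (List.mem_of_mem_take h)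
      omega

theorem Poly_prodL {V : β → List γ} {W : β → List δ} (hV : NPC.Poly V) (hW : NPC.Poly W) :
    NPC.Poly (fun b => prodL (V b) (W b)) := by
  unfold prodL
  refine NPC.Poly.flatMap (F := fun b x => (W b).map fun y => (x, y)) hV ?_
  exact NPC.Poly.map (α := β × γ) (F := fun p y => (p.2, y)) (hW.comp (NPC.Poly.fst NPC.Poly.id))
    (NPC.Poly.pair (NPC.Poly.snd (NPC.Poly.fst NPC.Poly.id)) (NPC.Poly.snd NPC.Poly.id))

theorem sz_sublist {l₁ l₂ : List γ} (h : l₁.Sublist l₂) : sz l₁ ≤ sz l₂ := by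
  induction h with
  | slnil => exact le_rfl
  | cons a _ ih => simp only [sz_list_cons]; omega
  | cons_cons a _ ih => simp only [sz_list_cons]; omega

theorem Poly_iter_sub {V : β → List γ} {F : β → List γ → List γ} (hV : NPC.Poly V)
    (hF : NPC.Poly (fun p : β × List γ => F p.1 p.2))
    (hs : ∀ b k, ((F b)^[k] (V b)).Sublist (V b)) :
    NPC.Poly (fun b => (F b)^[(V b).length] (V b)) := by
  obtain ⟨q, hq⟩ := hV.sz_le
  exact NPC.Poly.iterLen hV hV hF q fun a k _ => (sz_sublist (hs a k)).trans (hq a)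

theorem Poly_dedup [DecidableEq γ] {V : β → List γ} (hV : NPC.Poly V) :
    NPC.Poly (fun b => (V b).dedup) := by
  have key : ∀ l : List γ, l.foldr (fun x s => bif decide (x ∈ s) then s else x :: s) [] =
      l.dedup := by
    intro l
    induction l with
    | nil => rfl
    | cons x l ih =>
      rw [List.foldr_cons, ih]
      by_cases hx : x ∈ l
      · rw [List.dedup_cons_of_mem hx, decide_eq_true (List.mem_dedup.2 hx)]; rfl
      · rw [List.dedup_cons_of_notMem hx,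
          decide_eq_false (fun h => hx (List.mem_dedup.1 h))]; rfl
  obtain ⟨q, hq⟩ := hV.sz_le
  refine (NPC.Poly.foldr (s := fun _ => ([] : List γ))
    (F := fun _ x s => bif decide (x ∈ s) then s else x :: s) hV (NPC.Poly.const _) ?_ q ?_).congr
    fun b => key (V b)
  · have h1 : NPC.Poly (fun p : β × γ × List γ => p.2.1) := NPC.Poly.fst (NPC.Poly.snd NPC.Poly.id)
    have h2 : NPC.Poly (fun p : β × γ × List γ => p.2.2) := NPC.Poly.snd (NPC.Poly.snd NPC.Poly.id)
    exact NPC.Poly.cond (NPC.Poly.decide_mem h1 h2) h2 (NPC.Poly.cons h1 h2)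
  · intro a k _
    rw [key]
    exact (sz_sublist ((List.dedup_sublist _).trans (List.drop_sublist _ _))).trans (hq a)

theorem Poly_two_pow {n : β → ℕ} (hn : UPoly n) : NPC.Poly (fun b => 2 ^ n b) := by
  obtain ⟨q, hq⟩ := NPC.Poly.sz_le hn
  have key : ∀ k : ℕ, (fun x => 2 * x)^[k] 1 = 2 ^ k := by
    intro k
    induction k with
    | zero => rfl
    | succ k ih => rw [Function.iterate_succ_apply', ih, pow_succ]; ring
  refine (NPC.Poly.iterLen (l := fun b => List.replicate (n b) ()) (s := fun _ => 1)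
    (F := fun _ x => 2 * x) hn (NPC.Poly.const _) (NPC.Poly.mul (NPC.Poly.const 2) (NPC.Poly.snd NPC.Poly.id))
    (Polynomial.C 4 * q + Polynomial.C 5) ?_).congr fun b => ?_
  · intro a k hk
    rw [key]
    have h1 := sz_nat_le (2 ^ k)
    have h2 : (2 ^ k).size = k + 1 := Nat.size_pow
    have h3 := length_lt_sz (List.replicate (n a) ())
    have h4 := hq a
    simp only [Polynomial.eval_add, Polynomial.eval_mul, Polynomial.eval_C]
    omega
  · rw [key]; simp

end basics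

section alg

variable {α : Type} [DecidableEq α] [TEnc α] {r : α → α → α → Bool}
  {β : Type} [TEnc β]

theorem Poly_r (hr : NPC.Poly (fun p : α × α × α => r p.1 p.2.1 p.2.2)) {x y z : β → α}
    (hx : NPC.Poly x) (hy : NPC.Poly y) (hz : NPC.Poly z) : NPC.Poly (fun b => r (x b) (y b) (z b)) :=
  hr.comp (NPC.Poly.pair hx (NPC.Poly.pair hy hz))

theorem Poly_onL (hr : NPC.Poly (fun p : α × α × α => r p.1 p.2.1 p.2.2)) {x y z : β → α}
    (hx : NPC.Poly x) (hy : NPC.Poly y) (hz : NPC.Poly z) : NPC.Poly (fun b => onL r (x b) (y b) (z b)) := by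
  unfold onL
  exact NPC.Poly.or (NPC.Poly.or (NPC.Poly.decide_eq hz hx) (NPC.Poly.decide_eq hz hy)) (Poly_r hr hx hy hz)

theorem Poly_cleanStep (hr : NPC.Poly (fun p : α × α × α => r p.1 p.2.1 p.2.2)) {l : β → ℕ}
    {V : β → List α} (hl : NPC.Poly l) (hV : NPC.Poly V) :
    NPC.Poly (fun b => cleanStep r (l b) (V b)) := by
  have h1 : NPC.Poly (fun p : β × α × α => richT r (l p.1) (V p.1) p.2) := by
    unfold richT
    refine NPC.Poly.and (NPC.Poly.not (NPC.Poly.decide_eq (NPC.Poly.fst (NPC.Poly.snd NPC.Poly.id))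
      (NPC.Poly.snd (NPC.Poly.snd NPC.Poly.id)))) (NPC.Poly.decide_lt (hl.comp (NPC.Poly.fst NPC.Poly.id))
      (NPC.Poly.length ?_))
    exact NPC.Poly.filter (α := β × α × α) (p := fun p z => onL r p.2.1 p.2.2 z)
      (hV.comp (NPC.Poly.fst NPC.Poly.id))
      (Poly_onL hr (NPC.Poly.fst (NPC.Poly.snd (NPC.Poly.fst NPC.Poly.id))) (NPC.Poly.snd (NPC.Poly.snd
        (NPC.Poly.fst NPC.Poly.id))) (NPC.Poly.snd NPC.Poly.id))
  have h2 : NPC.Poly (fun b => ((prodL (V b) (V b)).filter fun p => richT r (l b) (V b) p).head?) :=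
    NPC.Poly.head? (NPC.Poly.filter (p := fun b p => richT r (l b) (V b) p) (Poly_prodL hV hV) h1)
  have h3 : NPC.Poly (fun p : β × α × α => (V p.1).filter fun z => !(onL r p.2.1 p.2.2 z)) :=
    NPC.Poly.filter (α := β × α × α) (p := fun p z => !(onL r p.2.1 p.2.2 z))
      (hV.comp (NPC.Poly.fst NPC.Poly.id))
      (NPC.Poly.not (Poly_onL hr (NPC.Poly.fst (NPC.Poly.snd (NPC.Poly.fst NPC.Poly.id))) (NPC.Poly.snd (NPC.Poly.snd
        (NPC.Poly.fst NPC.Poly.id))) (NPC.Poly.snd NPC.Poly.id)))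
  refine (NPC.Poly.optCases (h := fun b p => (V b).filter fun z => !(onL r p.1 p.2 z)) h2 hV h3).congr
    fun b => ?_
  unfold cleanStep
  cases ((prodL (V b) (V b)).filter fun p => richT r (l b) (V b) p).head? <;> rfl

theorem Poly_clean (hr : NPC.Poly (fun p : α × α × α => r p.1 p.2.1 p.2.2)) {l : β → ℕ}
    {V : β → List α} (hl : NPC.Poly l) (hV : NPC.Poly V) : NPC.Poly (fun b => clean r (l b) (V b)) :=
  Poly_iter_sub (F := fun b W => cleanStep r (l b) W) hV
    (Poly_cleanStep hr (hl.comp (NPC.Poly.fst NPC.Poly.id)) (NPC.Poly.snd NPC.Poly.id))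
    fun b k => clean_iter_sub r (l b) (V b) k

theorem Poly_gre (hr : NPC.Poly (fun p : α × α × α => r p.1 p.2.1 p.2.2)) {V : β → List α}
    (hV : NPC.Poly V) : NPC.Poly (fun b => gre r (V b)) := by
  obtain ⟨q, hq⟩ := hV.sz_le
  refine NPC.Poly.foldr (s := fun _ => ([] : List α)) (F := fun _ x s =>
    bif (s.any fun a => s.any fun b => r a b x) then s else x :: s) hV (NPC.Poly.const _) ?_ q ?_
  · have h1 : NPC.Poly (fun p : β × α × List α => p.2.1) := NPC.Poly.fst (NPC.Poly.snd NPC.Poly.id)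
    have h2 : NPC.Poly (fun p : β × α × List α => p.2.2) := NPC.Poly.snd (NPC.Poly.snd NPC.Poly.id)
    refine NPC.Poly.cond ?_ h2 (NPC.Poly.cons h1 h2)
    refine NPC.Poly.any (α := β × α × List α) (p := fun p a => p.2.2.any fun b => r a b p.2.1) h2 ?_
    refine NPC.Poly.any (α := (β × α × List α) × α) (p := fun p b => r p.2 b p.1.2.1)
      (h2.comp (NPC.Poly.fst NPC.Poly.id)) ?_
    exact Poly_r hr (NPC.Poly.snd (NPC.Poly.fst NPC.Poly.id)) (NPC.Poly.snd NPC.Poly.id)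
      (NPC.Poly.fst (NPC.Poly.snd (NPC.Poly.fst (NPC.Poly.fst NPC.Poly.id))))
  · intro a k _
    exact (sz_sublist ((gre_sub r ((V a).drop k)).trans (List.drop_sublist _ _))).trans (hq a)

theorem Poly_delL {V : β → List α} {v : β → α} (hV : NPC.Poly V) (hv : NPC.Poly v) :
    NPC.Poly (fun b => delL (V b) (v b)) := by
  unfold delL
  exact NPC.Poly.filter (p := fun b x => !(decide (x = v b))) hV
    (NPC.Poly.not (NPC.Poly.decide_eq (NPC.Poly.snd NPC.Poly.id) (hv.comp (NPC.Poly.fst NPC.Poly.id))))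

theorem Poly_f3 (hr : NPC.Poly (fun p : α × α × α => r p.1 p.2.1 p.2.2)) :
    NPC.Poly (fun p : β × α × α × α => f3 r p.2) := by
  unfold f3
  exact Poly_r hr (NPC.Poly.fst (NPC.Poly.snd NPC.Poly.id)) (NPC.Poly.fst (NPC.Poly.snd (NPC.Poly.snd NPC.Poly.id)))
    (NPC.Poly.snd (NPC.Poly.snd (NPC.Poly.snd NPC.Poly.id)))

theorem Poly_f4 (hr : NPC.Poly (fun p : α × α × α => r p.1 p.2.1 p.2.2))
    {p : β → α × α × α × α} (hp : NPC.Poly p) : NPC.Poly (fun b => f4 r (p b)) := by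
  unfold f4
  have h1 := NPC.Poly.fst hp
  have h2 := NPC.Poly.fst (NPC.Poly.snd hp)
  have h3 := NPC.Poly.fst (NPC.Poly.snd (NPC.Poly.snd hp))
  have h4 := NPC.Poly.snd (NPC.Poly.snd (NPC.Poly.snd hp))
  exact NPC.Poly.and (Poly_r hr h1 h2 h3) (NPC.Poly.and (Poly_r hr h1 h2 h4)
    (NPC.Poly.not (NPC.Poly.decide_eq h3 h4)))

theorem Poly_f6 (hr : NPC.Poly (fun p : α × α × α => r p.1 p.2.1 p.2.2))
    {p : β → α × α × α × α × α × α} (hp : NPC.Poly p) : NPC.Poly (fun b => f6 r (p b)) := by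
  unfold f6
  have h1 := NPC.Poly.fst hp
  have h2 := NPC.Poly.fst (NPC.Poly.snd hp)
  have h3 := NPC.Poly.fst (NPC.Poly.snd (NPC.Poly.snd hp))
  have h4 := NPC.Poly.fst (NPC.Poly.snd (NPC.Poly.snd (NPC.Poly.snd hp)))
  have h5 := NPC.Poly.fst (NPC.Poly.snd (NPC.Poly.snd (NPC.Poly.snd (NPC.Poly.snd hp))))
  have h6 := NPC.Poly.snd (NPC.Poly.snd (NPC.Poly.snd (NPC.Poly.snd (NPC.Poly.snd hp))))
  exact NPC.Poly.and (Poly_r hr h1 h2 h4) (NPC.Poly.and (Poly_r hr h2 h3 h5) (NPC.Poly.and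
    (Poly_r hr h3 h1 h6) (NPC.Poly.not (Poly_r hr h1 h2 h3))))

theorem Poly_costL (hr : NPC.Poly (fun p : α × α × α => r p.1 p.2.1 p.2.2)) {a : β → ℕ × ℕ × ℕ}
    {V : β → List α} (ha : NPC.Poly a) (hV : NPC.Poly V) : NPC.Poly (fun b => costL r (a b) (V b)) := by
  unfold costL
  have hN := NPC.Poly.length hV
  have p2 := Poly_prodL hV hV
  have p3 := Poly_prodL hV p2
  have p4 := Poly_prodL hV p3
  have p5 := Poly_prodL hV p4
  have p6 := Poly_prodL hV p5
  have q3 := NPC.Poly.length (NPC.Poly.filter (p := fun _ p => f3 r p) p3 (Poly_f3 hr))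
  have q4 := NPC.Poly.length (NPC.Poly.filter (p := fun _ p => f4 r p) p4
    (Poly_f4 hr (NPC.Poly.snd NPC.Poly.id)))
  have q6 := NPC.Poly.length (NPC.Poly.filter (p := fun _ p => f6 r p) p6
    (Poly_f6 hr (NPC.Poly.snd NPC.Poly.id)))
  exact NPC.Poly.add (NPC.Poly.add (NPC.Poly.mul (NPC.Poly.mul (NPC.Poly.fst ha) q3) (NPC.Poly.mul hN (NPC.Poly.mul hN hN)))
    (NPC.Poly.mul (NPC.Poly.mul (NPC.Poly.fst (NPC.Poly.snd ha)) q4) (NPC.Poly.mul hN hN)))
    (NPC.Poly.mul (NPC.Poly.snd (NPC.Poly.snd ha)) q6)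

theorem Poly_shrinkStep (hr : NPC.Poly (fun p : α × α × α => r p.1 p.2.1 p.2.2))
    {a : β → ℕ × ℕ × ℕ} {m : β → ℕ} {V : β → List α} (ha : NPC.Poly a) (hm : NPC.Poly m) (hV : NPC.Poly V) :
    NPC.Poly (fun b => shrinkStep r (a b) (m b) (V b)) := by
  have h1 : NPC.Poly (fun p : β × α => least (costL r (a p.1)) (delL (V p.1) p.2)
      ((V p.1).map fun v => delL (V p.1) v)) := by
    refine Poly_least (f := fun (p : β × α) W => costL r (a p.1) W) ?_ ?_ ?_
    · exact Poly_costL hr (ha.comp (NPC.Poly.fst (NPC.Poly.fst NPC.Poly.id))) (NPC.Poly.snd NPC.Poly.id)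
    · exact Poly_delL (hV.comp (NPC.Poly.fst NPC.Poly.id)) (NPC.Poly.snd NPC.Poly.id)
    · exact NPC.Poly.map (α := β × α) (F := fun p v => delL (V p.1) v) (hV.comp (NPC.Poly.fst NPC.Poly.id))
        (Poly_delL (hV.comp (NPC.Poly.fst (NPC.Poly.fst NPC.Poly.id))) (NPC.Poly.snd NPC.Poly.id))
  have h2 := NPC.Poly.optCases (h := fun b v => least (costL r (a b)) (delL (V b) v)
    ((V b).map fun v => delL (V b) v)) (NPC.Poly.head? hV) hV h1
  refine (NPC.Poly.cond (NPC.Poly.decide_le (NPC.Poly.length hV) hm) hV h2).congr fun b => ?_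
  unfold shrinkStep
  cases (V b).head? <;> rfl

theorem Poly_shrink (hr : NPC.Poly (fun p : α × α × α => r p.1 p.2.1 p.2.2))
    {l m : β → ℕ} {V : β → List α} (hl : NPC.Poly l) (hm : NPC.Poly m) (hV : NPC.Poly V) :
    NPC.Poly (fun b => shrink r (l b) (m b) (V b)) := by
  have hN := NPC.Poly.length hV
  have ha := NPC.Poly.pair (NPC.Poly.mul hN (NPC.Poly.mul hl hl)) (NPC.Poly.pair (NPC.Poly.mul (NPC.Poly.mul hN hN) hl)
    (NPC.Poly.mul hN (NPC.Poly.mul hN hN)))
  exact Poly_iter_sub (F := fun b W => shrinkStep r ((V b).length * (l b * l b),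
    (V b).length * (V b).length * l b, (V b).length * ((V b).length * (V b).length)) (m b) W) hV
    (Poly_shrinkStep hr (ha.comp (NPC.Poly.fst NPC.Poly.id)) (hm.comp (NPC.Poly.fst NPC.Poly.id))
      (NPC.Poly.snd NPC.Poly.id)) fun b k => shrink_iter_sub r _ _ _ k

theorem Poly_nobad (hr : NPC.Poly (fun p : α × α × α => r p.1 p.2.1 p.2.2)) {V : β → List α}
    (hV : NPC.Poly V) : NPC.Poly (fun b => nobad r (V b)) := by
  unfold nobad
  have hV1 : NPC.Poly (fun p : β × α => V p.1) := hV.comp (NPC.Poly.fst NPC.Poly.id)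
  have p2 := Poly_prodL hV1 hV1
  have p3 := Poly_prodL hV1 p2
  have p4 := Poly_prodL hV1 p3
  have p5 := Poly_prodL hV1 p4
  refine NPC.Poly.filter (p := fun b x => !((prodL (V b) (prodL (V b) (V b))).any
    fun p => f4 r (x, p)) && !((prodL (V b) (prodL (V b) (prodL (V b)
    (prodL (V b) (V b))))).any fun p => f6 r (x, p))) hV ?_
  refine NPC.Poly.and (NPC.Poly.not ?_) (NPC.Poly.not ?_)
  · exact NPC.Poly.any (α := β × α) (p := fun p q => f4 r (p.2, q)) p3
      (Poly_f4 hr (NPC.Poly.pair (NPC.Poly.snd (NPC.Poly.fst NPC.Poly.id)) (NPC.Poly.snd NPC.Poly.id)))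
  · exact NPC.Poly.any (α := β × α) (p := fun p q => f6 r (p.2, q)) p5
      (Poly_f6 hr (NPC.Poly.pair (NPC.Poly.snd (NPC.Poly.fst NPC.Poly.id)) (NPC.Poly.snd NPC.Poly.id)))

end alg

end Run7.h435
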