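import Pool.Agent.Run7.h435.PolyAlg

/-!
# The algorithm runs in polynomial time: the greedy process
-/

set_option linter.unusedSectionVars false

namespace Run7.h435

open Pool.Agent Pool.Agent.NPC Pool.Agent.NPC.H532

variable {α : Type} [DecidableEq α] [TEnc α] {r : α → α → α → Bool}
  {β : Type} [TEnc β]

theorem Poly_nbL (hr : NPC.Poly (fun p : α × α × α => r p.1 p.2.1 p.2.2)) {I V : β → List α}
    {u : β → α} (hI : NPC.Poly I) (hV : NPC.Poly V) (hu : NPC.Poly u) :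
    NPC.Poly (fun b => nbL r (I b) (V b) (u b)) := by
  unfold nbL
  refine NPC.Poly.filter (p := fun b x => (I b).any fun w => r w (u b) x) hV ?_
  exact NPC.Poly.any (α := β × α) (p := fun p w => r w (u p.1) p.2) (hI.comp (NPC.Poly.fst
    NPC.Poly.id)) (Poly_r hr (NPC.Poly.snd NPC.Poly.id) (hu.comp (NPC.Poly.fst (NPC.Poly.fst
    NPC.Poly.id))) (NPC.Poly.snd (NPC.Poly.fst NPC.Poly.id)))

theorem Poly_s2L (hr : NPC.Poly (fun p : α × α × α => r p.1 p.2.1 p.2.2)) {I V : β → List α}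
    (hI : NPC.Poly I) (hV : NPC.Poly V) : NPC.Poly (fun b => s2L r (I b) (V b)) := by
  unfold s2L
  refine NPC.Poly.sum (NPC.Poly.map (F := fun b u => (nbL r (I b) (V b) u).length) hV ?_)
  exact NPC.Poly.length (Poly_nbL hr (hI.comp (NPC.Poly.fst NPC.Poly.id))
    (hV.comp (NPC.Poly.fst NPC.Poly.id)) (NPC.Poly.snd NPC.Poly.id))

theorem Poly_c3L (hr : NPC.Poly (fun p : α × α × α => r p.1 p.2.1 p.2.2)) {V : β → List α}
    (hV : NPC.Poly V) : NPC.Poly (fun b => c3L r (V b)) := by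
  unfold c3L
  refine NPC.Poly.sum (NPC.Poly.map (F := fun b x => ((V b).map fun y =>
    ((V b).filter fun z => r x y z).length).sum) hV ?_)
  refine NPC.Poly.sum (NPC.Poly.map (α := β × α) (F := fun p y =>
    ((V p.1).filter fun z => r p.2 y z).length) (hV.comp (NPC.Poly.fst NPC.Poly.id)) ?_)
  refine NPC.Poly.length (NPC.Poly.filter (α := (β × α) × α) (p := fun p z => r p.1.2 p.2 z)
    (hV.comp (NPC.Poly.fst (NPC.Poly.fst NPC.Poly.id))) ?_)
  exact Poly_r hr (NPC.Poly.snd (NPC.Poly.fst (NPC.Poly.fst NPC.Poly.id)))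
    (NPC.Poly.snd (NPC.Poly.fst NPC.Poly.id)) (NPC.Poly.snd NPC.Poly.id)

theorem Poly_Fh {A L lam N S2 C3 : β → ℕ} (hA : NPC.Poly A) (hL : UPoly L) (hlam : NPC.Poly lam)
    (hN : NPC.Poly N) (hS : NPC.Poly S2) (hC : NPC.Poly C3) :
    NPC.Poly (fun b => Fh (A b) (L b) (lam b) (N b) (S2 b) (C3 b)) := by
  have f : NPC.Poly (fun p : β × ℕ => p.1) := NPC.Poly.fst NPC.Poly.id
  have g : NPC.Poly (fun p : β × ℕ => p.2) := NPC.Poly.snd NPC.Poly.id
  have hmin : UPoly (fun p : β × ℕ => min p.2 (L p.1)) :=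
    UPoly.of_le (NPC.Poly.min g (hL.toPoly.comp f)) (hL.comp f) fun p => Nat.min_le_right _ _
  have h1 : NPC.Poly (fun p : β × ℕ => (A p.1 * lam p.1 * (N p.1 * N p.1)) /
      ((2 ^ (min p.2 (L p.1)) + lam p.1) * lam p.1 * N p.1 + lam p.1 * S2 p.1 +
        L p.1 * C3 p.1)) :=
    NPC.Poly.div (NPC.Poly.mul (NPC.Poly.mul (hA.comp f) (hlam.comp f))
      (NPC.Poly.mul (hN.comp f) (hN.comp f)))
      (NPC.Poly.add (NPC.Poly.add (NPC.Poly.mul (NPC.Poly.mul (NPC.Poly.add (Poly_two_pow hmin)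
        (hlam.comp f)) (hlam.comp f)) (hN.comp f)) (NPC.Poly.mul (hlam.comp f) (hS.comp f)))
        (NPC.Poly.mul (hL.toPoly.comp f) (hC.comp f)))
  refine (NPC.Poly.sum (NPC.Poly.map (F := fun b j => (A b * lam b * (N b * N b)) /
      ((2 ^ (min j (L b)) + lam b) * lam b * N b + lam b * S2 b + L b * C3 b)) hL.range h1)).congr
    fun b => ?_
  unfold Fh
  congr 1
  apply List.map_congr_left
  intro j hj
  rw [List.mem_range] at hj
  rw [min_eq_left hj.le]

theorem Poly_mxF {A L Lam N S2 C3 : β → ℕ} (hA : NPC.Poly A) (hL : UPoly L) (hLam : UPoly Lam)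
    (hN : NPC.Poly N) (hS : NPC.Poly S2) (hC : NPC.Poly C3) :
    NPC.Poly (fun b => mxF (A b) (L b) (Lam b) (N b) (S2 b) (C3 b)) := by
  unfold mxF
  refine Poly_best (f := fun _ x => x) (NPC.Poly.snd NPC.Poly.id) (NPC.Poly.const 0) ?_
  have f : NPC.Poly (fun p : β × ℕ => p.1) := NPC.Poly.fst NPC.Poly.id
  have g : NPC.Poly (fun p : β × ℕ => p.2) := NPC.Poly.snd NPC.Poly.id
  exact NPC.Poly.map (F := fun b i => Fh (A b) (L b) (i + 1) (N b) (S2 b) (C3 b)) hLam.range
    (Poly_Fh (hA.comp f) (hL.comp f) (NPC.Poly.succ g) (hN.comp f) (hS.comp f) (hC.comp f))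

theorem Poly_score (hr : NPC.Poly (fun p : α × α × α => r p.1 p.2.1 p.2.2)) {A L Lam : β → ℕ}
    {s : β → List α × List α} (hA : NPC.Poly A) (hL : UPoly L) (hLam : UPoly Lam)
    (hs : NPC.Poly s) : NPC.Poly (fun b => score r (A b) (L b) (Lam b) (s b)) := by
  unfold score
  have h1 := NPC.Poly.fst hs
  have h2 := NPC.Poly.snd hs
  exact NPC.Poly.add (NPC.Poly.mul (NPC.Poly.mul (NPC.Poly.const 27) hA) (NPC.Poly.length h1))
    (Poly_mxF hA hL hLam (NPC.Poly.length h2) (Poly_s2L hr h1 h2) (Poly_c3L hr h2))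

theorem Poly_selL (hr : NPC.Poly (fun p : α × α × α => r p.1 p.2.1 p.2.2)) {I V : β → List α}
    {v : β → α} (hI : NPC.Poly I) (hV : NPC.Poly V) (hv : NPC.Poly v) :
    NPC.Poly (fun b => selL r (I b) (V b) (v b)) := by
  unfold selL
  refine NPC.Poly.filter (p := fun b x => !(decide (x = v b)) && !((I b).any fun w => r w (v b) x))
    hV ?_
  refine NPC.Poly.and (NPC.Poly.not (NPC.Poly.decide_eq (NPC.Poly.snd NPC.Poly.id)
    (hv.comp (NPC.Poly.fst NPC.Poly.id)))) (NPC.Poly.not ?_)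
  exact NPC.Poly.any (α := β × α) (p := fun p w => r w (v p.1) p.2) (hI.comp (NPC.Poly.fst
    NPC.Poly.id)) (Poly_r hr (NPC.Poly.snd NPC.Poly.id) (hv.comp (NPC.Poly.fst (NPC.Poly.fst
    NPC.Poly.id))) (NPC.Poly.snd (NPC.Poly.fst NPC.Poly.id)))

theorem Poly_cands (hr : NPC.Poly (fun p : α × α × α => r p.1 p.2.1 p.2.2))
    {s : β → List α × List α} (hs : NPC.Poly s) : NPC.Poly (fun b => cands r (s b)) := by
  unfold cands
  have f : NPC.Poly (fun p : β × α => p.1) := NPC.Poly.fst NPC.Poly.id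
  have g : NPC.Poly (fun p : β × α => p.2) := NPC.Poly.snd NPC.Poly.id
  have h1 := NPC.Poly.fst hs
  have h2 := NPC.Poly.snd hs
  refine NPC.Poly.append ?_ ?_
  · exact NPC.Poly.map (F := fun b v => ((s b).1, delL (s b).2 v)) h2
      (NPC.Poly.pair (h1.comp f) (Poly_delL (h2.comp f) g))
  · exact NPC.Poly.map (F := fun b v => (v :: (s b).1, selL r (s b).1 (s b).2 v)) h2
      (NPC.Poly.pair (NPC.Poly.cons g (h1.comp f)) (Poly_selL hr (h1.comp f) (h2.comp f) g))

theorem Poly_stepL (hr : NPC.Poly (fun p : α × α × α => r p.1 p.2.1 p.2.2)) {A L Lam : β → ℕ}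
    {s : β → List α × List α} (hA : NPC.Poly A) (hL : UPoly L) (hLam : UPoly Lam)
    (hs : NPC.Poly s) : NPC.Poly (fun b => stepL r (A b) (L b) (Lam b) (s b)) := by
  unfold stepL
  refine NPC.Poly.cond (NPC.Poly.isEmpty (NPC.Poly.snd hs)) hs ?_
  refine Poly_best (f := fun b s => score r (A b) (L b) (Lam b) s) ?_ (NPC.Poly.const _)
    (Poly_cands hr hs)
  have f : NPC.Poly (fun p : β × List α × List α => p.1) := NPC.Poly.fst NPC.Poly.id
  exact Poly_score hr (hA.comp f) (hL.comp f) (hLam.comp f) (NPC.Poly.snd NPC.Poly.id)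

/-- A bound for the states of the process. -/
def Bd (W0 : List α) (s : List α × List α) : Prop :=
  (∀ x ∈ s.1, x ∈ W0) ∧ (∀ x ∈ s.2, x ∈ W0) ∧ s.1.length + s.2.length ≤ W0.length

theorem bd_step {W0 : List α} {s : List α × List α} (hs : Bd W0 s) (A L Lam : ℕ) :
    Bd W0 (stepL r A L Lam s) := by
  obtain ⟨b1, b2, b3⟩ := hs
  rcases stepL_cases (r := r) A L Lam s with ⟨_, h2⟩ | ⟨_, h2 | h2, _⟩
  · rw [h2]; exact ⟨b1, b2, b3⟩
  · rw [h2]
    refine ⟨?_, ?_, ?_⟩ <;> simp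
  · rcases mem_cands.1 h2 with ⟨v, hv, h3⟩ | ⟨v, hv, h3⟩
    · rw [h3]
      have := delL_length hv
      refine ⟨b1, fun x hx => b2 x (mem_delL.1 hx).1, ?_⟩
      simp only
      omega
    · rw [h3]
      have := selL_length (r := r) (I := s.1) hv
      refine ⟨?_, fun x hx => b2 x (mem_selL.1 hx).1, ?_⟩
      · intro x hx
        rcases List.mem_cons.1 hx with hx | hx
        · rw [hx]; exact b2 v hv
        · exact b1 x hx
      · simp only [List.length_cons]
        omega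

theorem bd_iter (W0 : List α) (A L Lam : ℕ) (k : ℕ) :
    Bd W0 ((stepL r A L Lam)^[k] ([], W0)) := by
  induction k with
  | zero => refine ⟨?_, ?_, ?_⟩ <;> simp
  | succ k ih =>
    rw [Function.iterate_succ_apply']
    exact bd_step ih A L Lam

theorem sz_of_bd {W0 : List α} {s : List α × List α} (hs : Bd W0 s) :
    sz s ≤ 2 * (sz W0 * (sz W0 + 1) + 1) + 1 := by
  obtain ⟨b1, b2, b3⟩ := hs
  have hW := length_lt_sz W0
  have h1 := sz_le_length_mul s.1 (sz W0) fun a ha => (sz_le_of_mem (b1 a ha)).le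
  have h2 := sz_le_length_mul s.2 (sz W0) fun a ha => (sz_le_of_mem (b2 a ha)).le
  have h3 : s.1.length * (sz W0 + 1) ≤ sz W0 * (sz W0 + 1) :=
    Nat.mul_le_mul_right _ (by omega)
  have h4 : s.2.length * (sz W0 + 1) ≤ sz W0 * (sz W0 + 1) :=
    Nat.mul_le_mul_right _ (by omega)
  have h5 : sz s = sz s.1 + sz s.2 + 1 := sz_pair s.1 s.2
  omega

theorem Poly_potL (hr : NPC.Poly (fun p : α × α × α => r p.1 p.2.1 p.2.2)) {L : β → ℕ}
    {V : β → List α} (hL : UPoly L) (hV : NPC.Poly V) :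
    NPC.Poly (fun b => potL r (L b) (V b)) := by
  unfold potL
  obtain ⟨q, hq⟩ := hV.sz_le
  have hn : UPoly (fun b => (V b).length + 1) := UPoly.add (UPoly.length hV) (UPoly.const 1)
  have f : NPC.Poly (fun p : β × List α × List α => p.1) := NPC.Poly.fst NPC.Poly.id
  refine NPC.Poly.fst (NPC.Poly.iterLen (l := V) (s := fun b => (([] : List α), V b))
    (F := fun b s => stepL r (((V b).length + 1) * ((V b).length + 1)) (L b)
      ((V b).length + 1) s) hV (NPC.Poly.pair (NPC.Poly.const []) hV) ?_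
    (Polynomial.C 2 * (q * (q + Polynomial.C 1) + Polynomial.C 1) + Polynomial.C 1) ?_)
  · exact Poly_stepL hr (NPC.Poly.mul (hn.toPoly.comp f) (hn.toPoly.comp f)) (hL.comp f)
      (hn.comp f) (NPC.Poly.snd NPC.Poly.id)
  · intro b k _
    refine (sz_of_bd (bd_iter (V b) _ _ _ k)).trans ?_
    have h1 := hq b
    simp only [Polynomial.eval_add, Polynomial.eval_mul, Polynomial.eval_C]
    have h2 : sz (V b) * (sz (V b) + 1) ≤ q.eval (sz b) * (q.eval (sz b) + 1) :=
      Nat.mul_le_mul h1 (by omega)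
    omega

theorem Poly_candL (hr : NPC.Poly (fun p : α × α × α => r p.1 p.2.1 p.2.2)) {V : β → List α}
    (hV : NPC.Poly V) : NPC.Poly (fun b => candL r (V b)) := by
  have hn : UPoly (fun b => (V b).length + 1) := UPoly.add (UPoly.length hV) (UPoly.const 1)
  have e1 : NPC.Poly (fun p : ((β × ℕ) × ℕ) × ℕ => p.1.1.1) :=
    NPC.Poly.fst (NPC.Poly.fst (NPC.Poly.fst NPC.Poly.id))
  have e2 : NPC.Poly (fun p : ((β × ℕ) × ℕ) × ℕ => p.1.1.2) :=
    NPC.Poly.snd (NPC.Poly.fst (NPC.Poly.fst NPC.Poly.id))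
  have e3 : NPC.Poly (fun p : ((β × ℕ) × ℕ) × ℕ => p.1.2) :=
    NPC.Poly.snd (NPC.Poly.fst NPC.Poly.id)
  have e4 : NPC.Poly (fun p : ((β × ℕ) × ℕ) × ℕ => p.2) := NPC.Poly.snd NPC.Poly.id
  have hmin : UPoly (fun p : ((β × ℕ) × ℕ) × ℕ => min p.2 ((V p.1.1.1).length + 1)) :=
    UPoly.of_le (NPC.Poly.min e4 (hn.toPoly.comp e1)) (hn.comp e1) fun p => Nat.min_le_right _ _
  have h1 : NPC.Poly (fun p : ((β × ℕ) × ℕ) × ℕ => potL r (min p.2 ((V p.1.1.1).length + 1))
      (nobad r (shrink r p.1.1.2 p.1.2 (clean r p.1.1.2 (V p.1.1.1))))) :=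
    Poly_potL hr hmin (Poly_nobad hr (Poly_shrink hr e2 e3 (Poly_clean hr e2 (hV.comp e1))))
  have h2 : NPC.Poly (fun p : (β × ℕ) × ℕ => (List.range ((V p.1.1).length + 1)).map fun L =>
      potL r (min L ((V p.1.1).length + 1))
      (nobad r (shrink r p.1.2 p.2 (clean r p.1.2 (V p.1.1))))) :=
    NPC.Poly.map (α := (β × ℕ) × ℕ) (F := fun p L => potL r (min L ((V p.1.1).length + 1))
      (nobad r (shrink r p.1.2 p.2 (clean r p.1.2 (V p.1.1)))))
      (hn.comp (NPC.Poly.fst (NPC.Poly.fst NPC.Poly.id))).range h1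
  have h3 : NPC.Poly (fun p : β × ℕ => (List.range ((V p.1).length + 1)).flatMap fun m =>
      (List.range ((V p.1).length + 1)).map fun L =>
      potL r (min L ((V p.1).length + 1))
      (nobad r (shrink r p.2 m (clean r p.2 (V p.1))))) :=
    NPC.Poly.flatMap (α := β × ℕ) (F := fun p m => (List.range ((V p.1).length + 1)).map fun L =>
      potL r (min L ((V p.1).length + 1))
      (nobad r (shrink r p.2 m (clean r p.2 (V p.1)))))
      (hn.comp (NPC.Poly.fst NPC.Poly.id)).range h2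
  refine (NPC.Poly.flatMap (F := fun b l => (List.range ((V b).length + 1)).flatMap fun m =>
      (List.range ((V b).length + 1)).map fun L =>
      potL r (min L ((V b).length + 1))
      (nobad r (shrink r l m (clean r l (V b))))) hn.range h3).congr fun b => ?_
  unfold candL
  congr 1
  funext l
  congr 1
  funext m
  apply List.map_congr_left
  intro L hL
  rw [List.mem_range] at hL
  rw [min_eq_left hL.le]

/-- The algorithm runs in polynomial time. -/
theorem Poly_algL (hr : NPC.Poly (fun p : α × α × α => r p.1 p.2.1 p.2.2)) :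
    NPC.Poly (fun V : List α => algL r V) := by
  unfold algL
  have hd : NPC.Poly (fun V : List α => V.dedup) := Poly_dedup NPC.Poly.id
  exact Poly_best (f := fun _ s => s.length) (NPC.Poly.length (NPC.Poly.snd NPC.Poly.id))
    (Poly_gre hr hd) (Poly_candL hr hd)

end Run7.h435
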