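import Mathlib

/-!
# Inequalities for the potential
-/

namespace Run7.h435

open Finset

/-- the term `1/(2^j+W)` -/
noncomputable def tt (W : ℝ) (j : ℕ) : ℝ := 1 / (2 ^ j + W)

noncomputable def GG (L : ℕ) (W : ℝ) : ℝ := ∑ j ∈ range L, tt W j

noncomputable def QQ (L : ℕ) (W : ℝ) : ℝ := ∑ j ∈ range L, tt W j ^ 2

theorem tt_pos {W : ℝ} (hW : 0 < W) (j : ℕ) : 0 < tt W j := by
  unfold tt; positivity

theorem tt_mul {W : ℝ} (hW : 0 < W) (j : ℕ) : tt W j * (2 ^ j + W) = 1 := by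
  unfold tt
  have : (2 : ℝ) ^ j + W ≠ 0 := by positivity
  field_simp

theorem QQ_pos {L : ℕ} (hL : 1 ≤ L) {W : ℝ} (hW : 0 < W) : 0 < QQ L W := by
  unfold QQ
  exact sum_pos (fun j _ => pow_pos (tt_pos hW j) 2) (by simp; omega)

theorem QQ_nonneg {L : ℕ} {W : ℝ} : 0 ≤ QQ L W := by
  unfold QQ
  exact sum_nonneg (fun j _ => sq_nonneg _)

theorem GG_le_two {L : ℕ} {W : ℝ} (hW : 0 < W) : GG L W ≤ 2 := by
  unfold GG
  have h1 : ∀ j ∈ range L, tt W j ≤ (1 / 2 : ℝ) ^ j := by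
    intro j _
    unfold tt
    rw [one_div_pow]
    apply one_div_le_one_div_of_le (by positivity)
    linarith
  refine (sum_le_sum h1).trans ?_
  have h2 : ∑ j ∈ range L, (1 / 2 : ℝ) ^ j = 2 - 2 * (1 / 2 : ℝ) ^ L := by
    induction L with
    | zero => simp
    | succ n ih =>
      rw [sum_range_succ, ih, pow_succ]
      · ring
      · intro j hj
        exact h1 j (by simp at hj ⊢; omega)
  rw [h2]
  have : (0 : ℝ) < (1 / 2 : ℝ) ^ L := by positivity
  linarith

theorem WQ_le_G {L : ℕ} {W : ℝ} (hW : 0 < W) : W * QQ L W ≤ GG L W := by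
  unfold QQ GG
  rw [mul_sum]
  refine sum_le_sum fun j _ => ?_
  have h1 := tt_pos hW j
  have h2 := tt_mul hW j
  have h3 : W * tt W j ≤ 1 := by
    have : (0 : ℝ) < 2 ^ j := by positivity
    nlinarith
  nlinarith

/-- `∑ 2^j t_j^2 ≤ 2/W` by telescoping. -/
theorem sum_two_pow {L : ℕ} {W : ℝ} (hW : 0 < W) :
    ∑ j ∈ range L, (2 : ℝ) ^ j * tt W j ^ 2 ≤ 2 / W := by
  have h1 : ∀ j ∈ range L, (2 : ℝ) ^ j * tt W j ^ 2 ≤
      (2 / W) * (2 ^ (j + 1) / (2 ^ (j + 1) + W) - 2 ^ j / (2 ^ j + W)) := by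
    intro j _
    unfold tt
    set x : ℝ := 2 ^ j with hx
    have hx0 : 0 < x := by positivity
    have e : (2 : ℝ) ^ (j + 1) = 2 * x := by rw [pow_succ, hx]; ring
    rw [e]
    have e2 : (2 / W) * (2 * x / (2 * x + W) - x / (x + W)) = 2 * x / ((2 * x + W) * (x + W)) := by
      have a1 : (2 * x + W) ≠ 0 := by positivity
      have a2 : (x + W) ≠ 0 := by positivity
      have a3 : W ≠ 0 := hW.ne'
      field_simp
      ring
    rw [e2]
    have e3 : x * (1 / (x + W)) ^ 2 = 2 * x / ((2 * x + 2 * W) * (x + W)) := by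
      have a2 : (x + W) ≠ 0 := by positivity
      field_simp
    rw [e3]
    apply div_le_div_of_nonneg_left (by positivity) (by positivity)
    nlinarith
  refine (sum_le_sum h1).trans ?_
  rw [← mul_sum, Finset.sum_range_sub (fun j => (2 : ℝ) ^ j / (2 ^ j + W))]
  have h2 : (2 : ℝ) ^ L / (2 ^ L + W) ≤ 1 := by
    rw [div_le_one (by positivity)]
    linarith
  have h3 : (0 : ℝ) ≤ 2 ^ 0 / (2 ^ 0 + W) := by positivity
  have h4 : (0 : ℝ) < 2 / W := by positivity
  nlinarith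

theorem G_sub {L : ℕ} {W : ℝ} (hW : 0 < W) :
    GG L W = W * QQ L W + ∑ j ∈ range L, (2 : ℝ) ^ j * tt W j ^ 2 := by
  unfold QQ GG
  rw [mul_sum, ← sum_add_distrib]
  refine sum_congr rfl fun j _ => ?_
  have h2 := tt_mul hW j
  calc tt W j = tt W j * (tt W j * (2 ^ j + W)) := by rw [h2, mul_one]
    _ = _ := by ring

theorem G_le {L : ℕ} {W : ℝ} (hW : 0 < W) : GG L W ≤ W * QQ L W + 2 / W := by
  rw [G_sub hW]
  have := sum_two_pow (L := L) hW
  linarith

theorem G_le_nine {L : ℕ} (hL : 1 ≤ L) {W : ℝ} (hW : 1 ≤ W) : GG L W ≤ 9 * (W * QQ L W) := by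
  have hW0 : 0 < W := by linarith
  have h1 := G_le (L := L) hW0
  have h2 : 1 / (4 * W ^ 2) ≤ QQ L W := by
    have h3 : tt W 0 ^ 2 ≤ QQ L W := by
      unfold QQ
      exact single_le_sum (f := fun j => tt W j ^ 2) (fun j _ => sq_nonneg _)
        (by simp; omega)
    refine le_trans ?_ h3
    unfold tt
    rw [one_div_pow]
    apply one_div_le_one_div_of_le (by positivity)
    simp only [pow_zero]
    nlinarith
  have h4 : 2 / W ≤ 8 * (W * QQ L W) := by
    have h5 : 8 * (W * (1 / (4 * W ^ 2))) ≤ 8 * (W * QQ L W) := by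
      apply mul_le_mul_of_nonneg_left _ (by norm_num)
      exact mul_le_mul_of_nonneg_left h2 hW0.le
    have h6 : 8 * (W * (1 / (4 * W ^ 2))) = 2 / W := by
      field_simp
      norm_num
    linarith
  linarith

theorem Q_le {L : ℕ} {W : ℝ} (hW : 0 < W) : QQ L W * W ^ 2 ≤ L := by
  unfold QQ
  rw [sum_mul]
  have : ∀ j ∈ range L, tt W j ^ 2 * W ^ 2 ≤ 1 := by
    intro j _
    have h1 := tt_pos hW j
    have h2 := tt_mul hW j
    have h3 : tt W j * W ≤ 1 := by
      have : (0 : ℝ) < 2 ^ j := by positivity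
      nlinarith
    have h4 : 0 ≤ tt W j * W := by positivity
    calc tt W j ^ 2 * W ^ 2 = (tt W j * W) ^ 2 := by ring
      _ ≤ 1 := by nlinarith
  refine (sum_le_sum this).trans ?_
  simp

/-- The linear lower bound of the potential. -/
theorem sq_div_ge {x y t : ℝ} (hy : 0 < y ∨ (x = 0 ∧ y = 0)) : 2 * t * x - t ^ 2 * y ≤ x ^ 2 / y := by
  rcases hy with hy | ⟨hx, hy⟩
  · rw [le_div_iff₀ hy]
    nlinarith [sq_nonneg (x - t * y)]
  · subst hx; subst hy; simp

/-- Denominators. -/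
noncomputable def yy (L lam : ℕ) (j : ℕ) (N S2 C3 : ℝ) : ℝ :=
  (2 ^ j + lam) * N + S2 + (L / lam) * C3

/-- The potential with fixed parameter `lam`. -/
noncomputable def FF (L lam : ℕ) (N S2 C3 : ℝ) : ℝ :=
  ∑ j ∈ range L, N ^ 2 / yy L lam j N S2 C3

/-- `W = a + lam + L c / lam`. -/
noncomputable def WW (L lam : ℕ) (N S2 C3 : ℝ) : ℝ := S2 / N + lam + (L / lam) * (C3 / N)

noncomputable def pp (L lam : ℕ) (N S2 C3 : ℝ) : ℝ :=
  GG L (WW L lam N S2 C3) + QQ L (WW L lam N S2 C3) * (WW L lam N S2 C3 - lam)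

theorem WW_ge {L lam : ℕ} {N S2 C3 : ℝ} (hN : 0 < N) (hS : 0 ≤ S2) (hC : 0 ≤ C3) :
    (lam : ℝ) ≤ WW L lam N S2 C3 := by
  unfold WW
  have h1 : 0 ≤ S2 / N := by positivity
  have h2 : 0 ≤ (L / lam : ℝ) * (C3 / N) := by positivity
  linarith

theorem yy_eq {L lam j : ℕ} {N S2 C3 : ℝ} (hN : 0 < N) :
    yy L lam j N S2 C3 = N * (2 ^ j + WW L lam N S2 C3) := by
  unfold yy WW
  field_simp
  ring

theorem FF_eq {L lam : ℕ} {N S2 C3 : ℝ} (hN : 0 < N) (hlam : 1 ≤ lam) (hS : 0 ≤ S2)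
    (hC : 0 ≤ C3) : FF L lam N S2 C3 = N * GG L (WW L lam N S2 C3) := by
  unfold FF GG
  rw [mul_sum]
  refine sum_congr rfl fun j _ => ?_
  rw [yy_eq hN]
  unfold tt
  have h1 := WW_ge (L := L) (lam := lam) hN hS hC
  have h2 : (1 : ℝ) ≤ lam := by exact_mod_cast hlam
  have h4 : (0 : ℝ) < WW L lam N S2 C3 := by linarith
  have h3 : (2 : ℝ) ^ j + WW L lam N S2 C3 ≠ 0 := by positivity
  field_simp

/-- The potential of another state is bounded below by the tangent. -/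
theorem FF_tangent {L lam : ℕ} {N S2 C3 N' S2' C3' : ℝ} (hN : 0 < N) (hlam : 1 ≤ lam)
    (hS : 0 ≤ S2) (hC : 0 ≤ C3) (h0 : 0 ≤ N') (hS' : 0 ≤ S2') (hC' : 0 ≤ C3')
    (hz : N' = 0 → S2' = 0 ∧ C3' = 0) :
    FF L lam N S2 C3 + pp L lam N S2 C3 * (N' - N) - QQ L (WW L lam N S2 C3) * (S2' - S2)
      - QQ L (WW L lam N S2 C3) * (L / lam) * (C3' - C3) ≤ FF L lam N' S2' C3' := by
  set W := WW L lam N S2 C3 with hW
  have hlam' : (1 : ℝ) ≤ lam := by exact_mod_cast hlam
  have hW1 : (lam : ℝ) ≤ W := WW_ge hN hS hC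
  have hW0 : 0 < W := by linarith
  have h1 : ∀ j ∈ range L, 2 * tt W j * N' - tt W j ^ 2 * yy L lam j N' S2' C3' ≤
      N' ^ 2 / yy L lam j N' S2' C3' := by
    intro j _
    apply sq_div_ge
    rcases h0.eq_or_lt with h | h
    · right
      obtain ⟨h2, h3⟩ := hz h.symm
      refine ⟨h.symm, ?_⟩
      unfold yy
      rw [← h, h2, h3]; ring
    · left
      unfold yy
      have h5 : (0 : ℝ) ≤ (L / lam : ℝ) * C3' := mul_nonneg (by positivity) hC'
      have h6 : (0 : ℝ) < (2 ^ j + lam) * N' := mul_pos (by positivity) h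
      linarith
  have h2 := sum_le_sum h1
  have h3 : ∑ j ∈ range L, (2 * tt W j * N' - tt W j ^ 2 * yy L lam j N' S2' C3') =
      pp L lam N S2 C3 * N' - QQ L W * S2' - QQ L W * (L / lam) * C3' := by
    have e1 : ∀ j ∈ range L, (2 * tt W j * N' - tt W j ^ 2 * yy L lam j N' S2' C3') =
        tt W j * N' + tt W j ^ 2 * ((W - lam) * N' - S2' - (L / lam) * C3') := by
      intro j _
      have h4 := tt_mul hW0 j
      unfold yy
      have h5 : tt W j ^ 2 * (2 ^ j + W) = tt W j := by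
        calc tt W j ^ 2 * (2 ^ j + W) = tt W j * (tt W j * (2 ^ j + W)) := by ring
          _ = _ := by rw [h4, mul_one]
      have h6 : tt W j ^ 2 * 2 ^ j = tt W j - tt W j ^ 2 * W := by linarith
      calc 2 * tt W j * N' - tt W j ^ 2 * ((2 ^ j + (lam : ℝ)) * N' + S2' + L / lam * C3')
          = 2 * tt W j * N' - (tt W j ^ 2 * 2 ^ j) * N' - tt W j ^ 2 * (lam * N' + S2' +
            L / lam * C3') := by ring
        _ = _ := by rw [h6]; ring
    rw [sum_congr rfl e1, sum_add_distrib, ← sum_mul, ← sum_mul]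
    unfold pp
    rw [← hW]
    change GG L W * N' + QQ L W * _ = _
    ring
  have h4 : FF L lam N S2 C3 = pp L lam N S2 C3 * N - QQ L W * S2 - QQ L W * (L / lam) * C3 := by
    rw [FF_eq hN hlam hS hC]
    unfold pp
    rw [← hW]
    have h5 : (W - lam) * N = S2 + (L / lam) * C3 := by
      rw [hW]; unfold WW; field_simp; ring
    calc N * GG L W = GG L W * N + QQ L W * ((W - lam) * N) - QQ L W * ((W - lam) * N) := by ring
      _ = GG L W * N + QQ L W * ((W - lam) * N) - QQ L W * (S2 + (L / lam) * C3) := by rw [h5]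
      _ = _ := by ring
  unfold FF
  unfold FF at h4
  rw [h3] at h2
  rw [h4]
  linarith

/-- The averaged inequality. -/
theorem average {ι : Type*} (V : Finset ι) {L lam : ℕ} (hL : 1 ≤ L) (hlam : 1 ≤ lam)
    (a b : ι → ℝ) (ha : ∀ u ∈ V, 0 ≤ a u) (hb : ∀ u ∈ V, 0 ≤ b u) (hV : V.Nonempty)
    {N S2 C3 : ℝ} (eN : N = V.card) (eS : S2 = ∑ u ∈ V, a u) (eC : C3 = ∑ u ∈ V, b u)
    (h1 : (lam : ℝ) * (lam - 1) * N ≤ L * C3) (h2 : L * C3 ≤ (lam : ℝ) * (lam + 1) * N)
    (hl : ∀ u ∈ V, 2 * QQ L (WW L lam N S2 C3) * a u +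
      3 * (QQ L (WW L lam N S2 C3) * (L / lam)) * b u ≤ pp L lam N S2 C3) :
    - (26 * N) ≤ - pp L lam N S2 C3 * (N + S2) + QQ L (WW L lam N S2 C3) *
        (2 * ∑ u ∈ V, a u * a u - C3) + QQ L (WW L lam N S2 C3) * (L / lam) *
        (3 * C3 + 3 * ∑ u ∈ V, a u * b u) := by
  have hN : 0 < N := by
    rw [eN]; exact_mod_cast hV.card_pos
  have hS : 0 ≤ S2 := by rw [eS]; exact sum_nonneg ha
  have hC : 0 ≤ C3 := by rw [eC]; exact sum_nonneg hb
  have hlam' : (1 : ℝ) ≤ lam := by exact_mod_cast hlam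
  set W := WW L lam N S2 C3 with hW
  set p := pp L lam N S2 C3 with hp
  set Q := QQ L W with hQ
  have hW1 : (lam : ℝ) ≤ W := WW_ge hN hS hC
  have hW0 : 0 < W := by linarith
  have hW11 : 1 ≤ W := by linarith
  have hQ0 : 0 < Q := QQ_pos hL hW0
  have hG2 : GG L W ≤ 2 := GG_le_two hW0
  have hWQ : W * Q ≤ GG L W := WQ_le_G hW0
  have hG9 : GG L W ≤ 9 * (W * Q) := G_le_nine hL hW11
  have hGle : GG L W ≤ W * Q + 2 / W := G_le hW0
  have hQL : Q * W ^ 2 ≤ L := Q_le hW0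
  have ep : p = GG L W + Q * (W - lam) := rfl
  have p4 : p ≤ 4 := by
    rw [ep]
    nlinarith
  have pQ : p ≤ 10 * W * Q := by
    rw [ep]
    nlinarith
  have hL0 : (0 : ℝ) < L := by exact_mod_cast hL
  have hLl : (0 : ℝ) < L / lam := by positivity
  have eW : (W - lam) * N = S2 + (L / lam) * C3 := by
    rw [hW]; unfold WW; field_simp; ring
  -- bound for theta
  have hθ : p * N - 2 * Q * S2 - 3 * (Q * (L / lam)) * C3 ≤ (2 / W + Q) * N := by
    have e1 : p * N - 2 * Q * S2 - 3 * (Q * (L / lam)) * C3 =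
        GG L W * N - Q * W * N + Q * (lam * N - (L / lam) * C3) := by
      rw [ep]
      have : (GG L W + Q * (W - lam)) * N = GG L W * N + Q * ((W - lam) * N) := by ring
      rw [this]
      have e2 : Q * W * N = Q * ((W - lam) * N) + Q * lam * N := by ring
      rw [e2, eW]
      ring
    rw [e1]
    have e3 : lam * N - (L / lam) * C3 ≤ N := by
      have : (L / lam) * C3 = L * C3 / lam := by ring
      rw [this]
      have h3 : (lam - 1) * N ≤ L * C3 / lam := by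
        rw [le_div_iff₀ (by linarith)]
        linarith
      linarith
    have e4 : Q * (lam * N - (L / lam) * C3) ≤ Q * N := mul_le_mul_of_nonneg_left e3 hQ0.le
    have e5 : GG L W * N ≤ (W * Q + 2 / W) * N := mul_le_mul_of_nonneg_right hGle hN.le
    linarith
  -- bound for Q c
  have hQc : Q * C3 ≤ 2 * N := by
    have h3 : L * C3 ≤ 2 * W ^ 2 * N := by
      refine h2.trans ?_
      apply mul_le_mul_of_nonneg_right _ hN.le
      nlinarith
    have h4 : Q * (L * C3) ≤ Q * (2 * W ^ 2 * N) := mul_le_mul_of_nonneg_left h3 hQ0.le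
    have h5 : Q * (2 * W ^ 2 * N) ≤ 2 * L * N := by
      calc Q * (2 * W ^ 2 * N) = (Q * W ^ 2) * (2 * N) := by ring
        _ ≤ L * (2 * N) := mul_le_mul_of_nonneg_right hQL (by linarith)
        _ = _ := by ring
    have h6 : L * (Q * C3) ≤ L * (2 * N) := by linarith
    exact le_of_mul_le_mul_left h6 hL0
  -- main sum
  have hmain : ∑ u ∈ V, a u * (p - (2 * Q * a u + 3 * (Q * (L / lam)) * b u)) ≤
      5 * W * (p * N - 2 * Q * S2 - 3 * (Q * (L / lam)) * C3) := by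
    have e1 : ∀ u ∈ V, a u * (p - (2 * Q * a u + 3 * (Q * (L / lam)) * b u)) ≤
        5 * W * (p - (2 * Q * a u + 3 * (Q * (L / lam)) * b u)) := by
      intro u hu
      have h3 := hl u hu
      have h4 : a u ≤ 5 * W := by
        have h5 : 0 ≤ 3 * (Q * (L / lam)) * b u := by
          have := hb u hu
          positivity
        have h6 : 2 * Q * a u ≤ 10 * W * Q := by linarith
        have h7 : (2 * Q) * a u ≤ (2 * Q) * (5 * W) := by linarith
        exact le_of_mul_le_mul_left h7 (by positivity)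
      exact mul_le_mul_of_nonneg_right h4 (by linarith)
    refine (sum_le_sum e1).trans (le_of_eq ?_)
    rw [← mul_sum]
    congr 1
    rw [sum_sub_distrib, sum_const, sum_add_distrib, ← mul_sum, ← mul_sum, ← eS, ← eC, nsmul_eq_mul,
      ← eN]
    ring
  have hfin : 5 * W * (p * N - 2 * Q * S2 - 3 * (Q * (L / lam)) * C3) ≤ 20 * N := by
    have h3 : 5 * W * (p * N - 2 * Q * S2 - 3 * (Q * (L / lam)) * C3) ≤
        5 * W * ((2 / W + Q) * N) := mul_le_mul_of_nonneg_left hθ (by positivity)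
    have h4 : 5 * W * ((2 / W + Q) * N) = (10 + 5 * (W * Q)) * N := by
      field_simp
      ring
    rw [h4] at h3
    refine h3.trans ?_
    apply mul_le_mul_of_nonneg_right _ hN.le
    linarith
  have hexp : ∑ u ∈ V, a u * (p - (2 * Q * a u + 3 * (Q * (L / lam)) * b u)) =
      p * S2 - 2 * Q * ∑ u ∈ V, a u * a u - 3 * (Q * (L / lam)) * ∑ u ∈ V, a u * b u := by
    rw [eS, mul_sum, mul_sum, mul_sum, ← sum_sub_distrib, ← sum_sub_distrib]
    refine sum_congr rfl fun u _ => ?_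
    ring
  rw [hexp] at hmain
  have h7 : 0 ≤ Q * (L / lam) * (3 * C3) := by positivity
  have h8 : p * N ≤ 4 * N := mul_le_mul_of_nonneg_right p4 hN.le
  nlinarith

end Run7.h435
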