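import Pool.Agent.Run7.h435.ListAlg

/-!
# The guarantee of the greedy process
-/

set_option linter.unusedSectionVars false

namespace Run7.h435

open Finset

/-! ### The best value of the parameter -/

theorem yy_opt {L lam mu j : ℕ} {N S2 C3 : ℝ} (hlam : 1 ≤ lam) (hmu : 1 ≤ mu) (hN : 0 ≤ N)
    (h1 : (lam : ℝ) * (lam - 1) * N ≤ L * C3) (h2 : L * C3 ≤ (lam : ℝ) * (lam + 1) * N) :
    yy L lam j N S2 C3 ≤ yy L mu j N S2 C3 := by
  unfold yy
  have l1 : (1 : ℝ) ≤ lam := by exact_mod_cast hlam
  have m1 : (1 : ℝ) ≤ mu := by exact_mod_cast hmu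
  have key : (lam : ℝ) * mu * (((2 ^ j + mu) * N + S2 + (L / mu) * C3) -
      ((2 ^ j + lam) * N + S2 + (L / lam) * C3)) = (mu - lam) * (lam * mu * N - L * C3) := by
    field_simp
    ring
  have key2 : (0 : ℝ) ≤ (mu - lam) * (lam * mu * N - L * C3) := by
    rcases lt_trichotomy mu lam with h | h | h
    · have h3 : (mu : ℝ) ≤ lam - 1 := by
        have : mu + 1 ≤ lam := h
        have : ((mu + 1 : ℕ) : ℝ) ≤ lam := by exact_mod_cast this
        push_cast at this
        linarith
      have h4 : (lam : ℝ) * mu * N ≤ lam * (lam - 1) * N := by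
        apply mul_le_mul_of_nonneg_right _ hN
        apply mul_le_mul_of_nonneg_left h3 (by linarith)
      nlinarith
    · rw [h]; simp
    · have h3 : (lam : ℝ) + 1 ≤ mu := by exact_mod_cast h
      have h4 : (lam : ℝ) * (lam + 1) * N ≤ lam * mu * N := by
        apply mul_le_mul_of_nonneg_right _ hN
        apply mul_le_mul_of_nonneg_left h3 (by linarith)
      nlinarith
  rw [← key] at key2
  have h5 : (0 : ℝ) < lam * mu := by positivity
  have := nonneg_of_mul_nonneg_right key2 h5
  linarith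

theorem FF_opt {L lam mu : ℕ} {N S2 C3 : ℝ} (hlam : 1 ≤ lam) (hmu : 1 ≤ mu) (hN : 0 < N)
    (hS : 0 ≤ S2) (hC : 0 ≤ C3)
    (h1 : (lam : ℝ) * (lam - 1) * N ≤ L * C3) (h2 : L * C3 ≤ (lam : ℝ) * (lam + 1) * N) :
    FF L mu N S2 C3 ≤ FF L lam N S2 C3 := by
  unfold FF
  refine sum_le_sum fun j _ => ?_
  apply div_le_div_of_nonneg_left (by positivity) _ (yy_opt hlam hmu hN.le h1 h2)
  unfold yy
  have : (0 : ℝ) < 2 ^ j := by positivity
  have l1 : (1 : ℝ) ≤ lam := by exact_mod_cast hlam
  positivity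

theorem exists_lam {L n N C3 : ℕ} (hN : 1 ≤ N) (hNn : N ≤ n) (hLn : L ≤ n) (hC : C3 ≤ N * N) :
    ∃ lam, 1 ≤ lam ∧ lam ≤ n + 1 ∧ lam * (lam - 1) * N ≤ L * C3 ∧ L * C3 ≤ lam * (lam + 1) * N := by
  have hex : ∃ lam, 1 ≤ lam ∧ L * C3 ≤ lam * (lam + 1) * N := by
    refine ⟨L * C3 + 1, by omega, ?_⟩
    calc L * C3 ≤ (L * C3 + 1) * 1 * 1 := by omega
      _ ≤ (L * C3 + 1) * (L * C3 + 1 + 1) * N := by
        apply Nat.mul_le_mul (Nat.mul_le_mul le_rfl (by omega)) hN
  classical
  set lam := Nat.find hex with hlam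
  obtain ⟨h1, h2⟩ := Nat.find_spec hex
  rw [← hlam] at h1 h2
  have h3 : lam * (lam - 1) * N ≤ L * C3 := by
    rcases Nat.lt_or_ge 1 lam with h | h
    · have := Nat.find_min hex (m := lam - 1) (by omega)
      push Not at this
      have h4 := this (by omega)
      have h5 : lam - 1 + 1 = lam := by omega
      rw [h5] at h4
      rw [mul_comm lam]
      exact h4.le
    · have : lam - 1 = 0 := by omega
      rw [this]; simp
  refine ⟨lam, h1, ?_, h3, h2⟩
  by_contra hcon
  push Not at hcon
  have h4 : (n + 2) * (n + 1) ≤ lam * (lam - 1) := Nat.mul_le_mul (by omega) (by omega)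
  have h5 : lam * (lam - 1) * N ≤ n * N * N := by
    calc lam * (lam - 1) * N ≤ L * C3 := h3
      _ ≤ n * (N * N) := Nat.mul_le_mul hLn hC
      _ = n * N * N := by ring
  have h6 : lam * (lam - 1) ≤ n * N := Nat.le_of_mul_le_mul_right h5 (by omega)
  have h7 : n * N ≤ n * n := Nat.mul_le_mul le_rfl hNn
  nlinarith

variable {α : Type} [DecidableEq α] {r : α → α → α → Bool}

theorem c3_le_of_no4 {V : Finset α} (h4 : No4 (rel r) V) :
    c3 (rel r) V ≤ V.card * V.card := by
  unfold c3
  have : ∀ u ∈ V, (e3 (rel r) V u).card ≤ V.card := by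
    intro u hu
    apply card_le_card_of_injOn (fun p => p.1)
    · intro p hp
      rw [mem_coe, mem_e3] at hp
      exact hp.1.1
    · intro p hp q hq hpq
      rw [mem_coe, mem_e3] at hp hq
      simp only at hpq
      refine Prod.ext hpq ?_
      refine h4 u hu p.1 hp.1.1 p.2 hp.1.2 q.2 hq.1.2 hp.2 ?_
      rw [hpq]
      exact hq.2
  refine (sum_le_sum this).trans ?_
  simp

/-! ### The invariant -/

variable (r) in
/-- The invariant of the process. -/
structure Inv (W0 : List α) (s : List α × List α) : Prop where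
  subI : ∀ x ∈ s.1, x ∈ W0
  subV : ∀ x ∈ s.2, x ∈ W0
  ndI : s.1.Nodup
  ndV : s.2.Nodup
  dis : ∀ x ∈ s.1, x ∉ s.2
  gp : ∀ a ∈ s.1, ∀ b ∈ s.1, ∀ c ∈ s.1, r a b c = false
  ext : ∀ a ∈ s.1, ∀ b ∈ s.1, ∀ c ∈ s.2, r a b c = false

theorem inv_nil (W0 : List α) : Inv r W0 ([], []) := by
  constructor <;> simp

theorem inv_start {W0 : List α} (hW : W0.Nodup) : Inv r W0 ([], W0) := by
  constructor <;> simp [hW]

theorem mem_delL {V : List α} {v x : α} : x ∈ delL V v ↔ x ∈ V ∧ x ≠ v := by
  simp [delL]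

theorem mem_selL {I V : List α} {v x : α} :
    x ∈ selL r I V v ↔ x ∈ V ∧ x ≠ v ∧ ∀ w ∈ I, r w v x = false := by
  simp [selL]

theorem inv_del {W0 : List α} {s : List α × List α} (hs : Inv r W0 s) (v : α) :
    Inv r W0 (s.1, delL s.2 v) := by
  refine ⟨hs.subI, ?_, hs.ndI, hs.ndV.filter _, ?_, hs.gp, ?_⟩
  · intro x hx
    exact hs.subV x (mem_delL.1 hx).1
  · intro x hx hx2
    exact hs.dis x hx (mem_delL.1 hx2).1
  · intro a ha b hb c hc
    exact hs.ext a ha b hb c (mem_delL.1 hc).1

theorem inv_sel (h : Lin (rel r)) {W0 : List α} {s : List α × List α} (hs : Inv r W0 s) {v : α}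
    (hv : v ∈ s.2) : Inv r W0 (v :: s.1, selL r s.1 s.2 v) := by
  have f1 : ∀ a b c, r a b c = false ↔ ¬ (rel r) a b c := by
    intro a b c; simp [rel]
  have hext : ∀ a ∈ s.1, ∀ b ∈ s.1, ∀ c ∈ s.2, ¬ (rel r) a b c := fun a ha b hb c hc =>
    (f1 _ _ _).1 (hs.ext a ha b hb c hc)
  have hgp : ∀ a ∈ s.1, ∀ b ∈ s.1, ∀ c ∈ s.1, ¬ (rel r) a b c := fun a ha b hb c hc =>
    (f1 _ _ _).1 (hs.gp a ha b hb c hc)
  refine ⟨?_, ?_, ?_, hs.ndV.filter _, ?_, ?_, ?_⟩
  · intro x hx
    rcases List.mem_cons.1 hx with rfl | hx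
    · exact hs.subV _ hv
    · exact hs.subI _ hx
  · intro x hx
    exact hs.subV x (mem_selL.1 hx).1
  · exact List.nodup_cons.2 ⟨fun hh => hs.dis _ hh hv, hs.ndI⟩
  · intro x hx hx2
    have h2 := mem_selL.1 hx2
    rcases List.mem_cons.1 hx with rfl | hx
    · exact h2.2.1 rfl
    · exact hs.dis x hx h2.1
  · intro a ha0 b hb0 c hc0
    rw [f1]
    intro hR
    rcases List.mem_cons.1 ha0 with ea | ha
    · rcases List.mem_cons.1 hb0 with eb | hb
      · exact h.ne _ _ _ hR (ea.trans eb.symm)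
      · rcases List.mem_cons.1 hc0 with ec | hc
        · exact h.ne3 hR (ea.trans ec.symm)
        · exact hext b hb c hc a (ea ▸ hv) (h.rot _ _ _ hR)
    · rcases List.mem_cons.1 hb0 with eb | hb
      · rcases List.mem_cons.1 hc0 with ec | hc
        · exact h.ne2 hR (eb.trans ec.symm)
        · exact hext c hc a ha b (eb ▸ hv) (h.rot2 hR)
      · rcases List.mem_cons.1 hc0 with ec | hc
        · exact hext a ha b hb c (ec ▸ hv) hR
        · exact hgp a ha b hb c hc hR
  · intro a ha0 b hb0 c hc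
    have h2 := mem_selL.1 hc
    rw [f1]
    intro hR
    rcases List.mem_cons.1 ha0 with ea | ha
    · rcases List.mem_cons.1 hb0 with eb | hb
      · exact h.ne _ _ _ hR (ea.trans eb.symm)
      · rw [ea] at hR
        exact (f1 _ _ _).1 (h2.2.2 b hb) (h.swap _ _ _ hR)
    · rcases List.mem_cons.1 hb0 with eb | hb
      · rw [eb] at hR
        exact (f1 _ _ _).1 (h2.2.2 a ha) hR
      · exact hext a ha b hb c h2.1 hR

theorem mem_cands {s t : List α × List α} : t ∈ cands r s ↔
    (∃ v ∈ s.2, t = (s.1, delL s.2 v)) ∨ (∃ v ∈ s.2, t = (v :: s.1, selL r s.1 s.2 v)) := by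
  unfold cands
  rw [List.mem_append, List.mem_map, List.mem_map]
  constructor
  · rintro (⟨v, hv, rfl⟩ | ⟨v, hv, rfl⟩)
    · exact Or.inl ⟨v, hv, rfl⟩
    · exact Or.inr ⟨v, hv, rfl⟩
  · rintro (⟨v, hv, rfl⟩ | ⟨v, hv, rfl⟩)
    · exact Or.inl ⟨v, hv, rfl⟩
    · exact Or.inr ⟨v, hv, rfl⟩

theorem stepL_cases (A L Lam : ℕ) (s : List α × List α) :
    (s.2 = [] ∧ stepL r A L Lam s = s) ∨
    (s.2 ≠ [] ∧ (stepL r A L Lam s = ([], []) ∨ stepL r A L Lam s ∈ cands r s) ∧
      ∀ t ∈ cands r s, score r A L Lam t ≤ score r A L Lam (stepL r A L Lam s)) := by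
  by_cases hn : s.2 = []
  · left
    refine ⟨hn, ?_⟩
    unfold stepL
    rw [hn]; rfl
  · right
    have : s.2.isEmpty = false := by
      rw [List.isEmpty_eq_false_iff]; exact hn
    have e : stepL r A L Lam s = best (score r A L Lam) ([], []) (cands r s) := by
      unfold stepL
      rw [this]; rfl
    rw [e]
    exact ⟨hn, best_mem _ _ _, fun t ht => best_ge _ _ _ t ht⟩

theorem inv_step (h : Lin (rel r)) (A L Lam : ℕ) {W0 : List α} {s : List α × List α}
    (hs : Inv r W0 s) : Inv r W0 (stepL r A L Lam s) := by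
  rcases stepL_cases (r := r) A L Lam s with ⟨_, h2⟩ | ⟨_, h2 | h2, _⟩
  · rw [h2]; exact hs
  · rw [h2]; exact inv_nil W0
  · rcases mem_cands.1 h2 with ⟨v, _, h3⟩ | ⟨v, hv, h3⟩
    · rw [h3]; exact inv_del hs v
    · rw [h3]; exact inv_sel h hs hv

theorem inv_iter (h : Lin (rel r)) (A L Lam : ℕ) {W0 : List α} {s : List α × List α}
    (hs : Inv r W0 s) (k : ℕ) : Inv r W0 ((stepL r A L Lam)^[k] s) := by
  induction k with
  | zero => exact hs
  | succ k ih => rw [Function.iterate_succ_apply']; exact inv_step h A L Lam ih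

theorem delL_length {V : List α} {v : α} (hv : v ∈ V) : (delL V v).length + 1 ≤ V.length := by
  unfold delL
  have := List.length_filter_lt_length_iff_exists (p := fun x => !(decide (x = v))) (l := V)
  have h2 := this.2 ⟨v, hv, by simp⟩
  omega

theorem selL_length {I V : List α} {v : α} (hv : v ∈ V) :
    (selL r I V v).length + 1 ≤ V.length := by
  unfold selL
  have := List.length_filter_lt_length_iff_exists
    (p := fun x => !(decide (x = v)) && !(I.any fun w => r w v x)) (l := V)
  have h2 := this.2 ⟨v, hv, by simp⟩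
  omega

theorem step_length (A L Lam : ℕ) (s : List α × List α) :
    (stepL r A L Lam s).2.length ≤ s.2.length - 1 := by
  rcases stepL_cases (r := r) A L Lam s with ⟨h1, h2⟩ | ⟨h1, h2 | h2, _⟩
  · rw [h2, h1]; simp
  · rw [h2]; simp
  · rcases mem_cands.1 h2 with ⟨v, hv, h3⟩ | ⟨v, hv, h3⟩
    · rw [h3]
      have := delL_length hv
      simp only
      omega
    · rw [h3]
      have := selL_length (r := r) (I := s.1) hv
      simp only
      omega

theorem iter_length (A L Lam : ℕ) (s : List α × List α) (k : ℕ) :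
    ((stepL r A L Lam)^[k] s).2.length ≤ s.2.length - k := by
  induction k with
  | zero => simp
  | succ k ih =>
    rw [Function.iterate_succ_apply']
    have := step_length (r := r) A L Lam ((stepL r A L Lam)^[k] s)
    omega

/-! ### The potential does not drop much -/

theorem mxF_ge (A L Lam N S2 C3 lam : ℕ) (h1 : 1 ≤ lam) (h2 : lam ≤ Lam) :
    Fh A L lam N S2 C3 ≤ mxF A L Lam N S2 C3 := by
  unfold mxF
  have := best_ge (fun x : ℕ => x) ((List.range Lam).map fun i => Fh A L (i + 1) N S2 C3) 0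
    (Fh A L lam N S2 C3) (by
      rw [List.mem_map]
      refine ⟨lam - 1, by rw [List.mem_range]; omega, ?_⟩
      have : lam - 1 + 1 = lam := by omega
      rw [this])
  exact this

theorem FF_nonneg {L lam : ℕ} {N S2 C3 : ℝ} (hN : 0 ≤ N) (hS : 0 ≤ S2) (hC : 0 ≤ C3) :
    0 ≤ FF L lam N S2 C3 := by
  unfold FF
  refine sum_nonneg fun j _ => ?_
  unfold yy
  positivity

theorem mxF_le (A L Lam N S2 C3 : ℕ) (X : ℝ) (hX : 0 ≤ X)
    (h : ∀ lam, 1 ≤ lam → FF L lam N S2 C3 ≤ X) : (mxF A L Lam N S2 C3 : ℝ) ≤ A * X := by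
  unfold mxF
  rcases best_mem (fun x : ℕ => x) ((List.range Lam).map fun i => Fh A L (i + 1) N S2 C3) 0
    with h1 | h1
  · rw [h1]
    simp only [Nat.cast_zero]
    positivity
  · rw [List.mem_map] at h1
    obtain ⟨i, _, hi⟩ := h1
    rw [← hi]
    refine (Fh_le A L (i + 1) N S2 C3 (by omega)).trans ?_
    exact mul_le_mul_of_nonneg_left (h _ (by omega)) (by positivity)

theorem mxF_zero (A L Lam S2 C3 : ℕ) : mxF A L Lam 0 S2 C3 = 0 := by
  unfold mxF
  rcases best_mem (fun x : ℕ => x) ((List.range Lam).map fun i => Fh A L (i + 1) 0 S2 C3) 0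
    with h1 | h1
  · exact h1
  · rw [List.mem_map] at h1
    obtain ⟨i, _, hi⟩ := h1
    rw [← hi]
    simp [Fh]

theorem step_score (h : Lin (rel r)) {W0 : List α} (hW : W0.Nodup) (h4 : No4 (rel r) W0.toFinset)
    (h6 : No6 (rel r) W0.toFinset) {s : List α × List α} (hs : Inv r W0 s) (A : ℕ) {L : ℕ}
    (hL : 1 ≤ L) (hL' : L ≤ W0.length) :
    score r A L (W0.length + 1) s ≤ score r A L (W0.length + 1)
      (stepL r A L (W0.length + 1) s) + L := by
  rcases stepL_cases (r := r) A L (W0.length + 1) s with ⟨_, h2⟩ | ⟨hne, _, h3⟩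
  · rw [h2]; omega
  · have hVne : s.2.toFinset.Nonempty := by
      rw [List.toFinset_nonempty_iff]; exact hne
    have hsub : s.2.toFinset ⊆ W0.toFinset := by
      intro x hx
      rw [List.mem_toFinset] at hx ⊢
      exact hs.subV x hx
    have hcV : s.2.toFinset.card = s.2.length := List.toFinset_card_of_nodup hs.ndV
    have hcW : W0.toFinset.card = W0.length := List.toFinset_card_of_nodup hW
    have hG : Good (rel r) W0.toFinset s.1.toFinset s.2.toFinset := by
      refine ⟨?_, hsub, ?_, h4, h6⟩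
      · intro x hx
        rw [List.mem_toFinset] at hx ⊢
        exact hs.subI x hx
      · intro x hx hx2
        rw [List.mem_toFinset] at hx hx2
        exact hs.dis x hx hx2
    have h4' : No4 (rel r) s.2.toFinset := fun x hx y hy z hz w hw =>
      h4 x (hsub hx) y (hsub hy) z (hsub hz) w (hsub hw)
    have hN : 1 ≤ s.2.toFinset.card := hVne.card_pos
    have hNn : s.2.toFinset.card ≤ W0.length := by rw [← hcW]; exact card_le_card hsub
    obtain ⟨lam, l1, l2, l3, l4⟩ := exists_lam (L := L) hN hNn hL' (c3_le_of_no4 h4')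
    have e1 : s2L r s.1 s.2 = s2 (rel r) s.1.toFinset s.2.toFinset := s2L_eq r hs.ndV
    have e2 : c3L r s.2 = c3 (rel r) s.2.toFinset := c3L_eq r hs.ndV
    have hmx : (mxF A L (W0.length + 1) s.2.length (s2L r s.1 s.2) (c3L r s.2) : ℝ) ≤
        A * FF L lam s.2.toFinset.card (s2 (rel r) s.1.toFinset s.2.toFinset)
          (c3 (rel r) s.2.toFinset) := by
      apply mxF_le
      · exact FF_nonneg (by positivity) (by positivity) (by positivity)
      · intro mu hmu
        rw [e1, e2, hcV]
        apply FF_opt l1 hmu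
        · have : (1 : ℝ) ≤ s.2.length := by
            rw [← hcV]; exact_mod_cast hN
          linarith
        · positivity
        · positivity
        · have : ((lam : ℝ) * (lam - 1) * s.2.length) =
              ((lam * (lam - 1) * s.2.toFinset.card : ℕ) : ℝ) := by
            rw [hcV]
            push_cast [Nat.cast_sub l1]; ring
          rw [this]
          exact_mod_cast l3
        · rw [← hcV]
          exact_mod_cast l4
    rcases exists_move h hG hVne hL l1 l3 l4 with ⟨v, hv, hm⟩ | ⟨v, hv, hm⟩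
    · rw [List.mem_toFinset] at hv
      have h5 := h3 (s.1, delL s.2 v) (mem_cands.2 (Or.inl ⟨v, hv, rfl⟩))
      have hnd : (delL s.2 v).Nodup := hs.ndV.filter _
      have h6 := mxF_ge A L (W0.length + 1) (delL s.2 v).length (s2L r s.1 (delL s.2 v))
        (c3L r (delL s.2 v)) lam l1 l2
      have h7 := Fh_ge A L lam (delL s.2 v).length (s2L r s.1 (delL s.2 v))
        (c3L r (delL s.2 v)) l1
      rw [s2L_eq r hnd, c3L_eq r hnd, ← List.toFinset_card_of_nodup hnd, delL_toFinset] at h6 h7
      have h8 : (A : ℝ) * FF L lam s.2.toFinset.card (s2 (rel r) s.1.toFinset s.2.toFinset)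
          (c3 (rel r) s.2.toFinset) ≤ A * FF L lam (s.2.toFinset \ {v}).card
          (s2 (rel r) s.1.toFinset (s.2.toFinset \ {v})) (c3 (rel r) (s.2.toFinset \ {v})) :=
        mul_le_mul_of_nonneg_left hm (by positivity)
      have h9 : (mxF A L (W0.length + 1) s.2.length (s2L r s.1 s.2) (c3L r s.2) : ℝ) ≤
          mxF A L (W0.length + 1) (s.2.toFinset \ {v}).card
          (s2 (rel r) s.1.toFinset (s.2.toFinset \ {v})) (c3 (rel r) (s.2.toFinset \ {v})) + L := by
        have : (Fh A L lam (s.2.toFinset \ {v}).card (s2 (rel r) s.1.toFinset (s.2.toFinset \ {v}))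
          (c3 (rel r) (s.2.toFinset \ {v})) : ℝ) ≤ mxF A L (W0.length + 1)
          (s.2.toFinset \ {v}).card (s2 (rel r) s.1.toFinset (s.2.toFinset \ {v}))
          (c3 (rel r) (s.2.toFinset \ {v})) := by exact_mod_cast h6
        linarith
      have h10 : mxF A L (W0.length + 1) s.2.length (s2L r s.1 s.2) (c3L r s.2) ≤
          mxF A L (W0.length + 1) (s.2.toFinset \ {v}).card
          (s2 (rel r) s.1.toFinset (s.2.toFinset \ {v})) (c3 (rel r) (s.2.toFinset \ {v})) + L := by
        exact_mod_cast h9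
      refine le_trans ?_ (Nat.add_le_add_right h5 L)
      unfold score
      simp only
      rw [s2L_eq r hnd, c3L_eq r hnd, ← List.toFinset_card_of_nodup hnd, delL_toFinset]
      rw [Nat.add_assoc]
      exact Nat.add_le_add_left h10 _
    · rw [List.mem_toFinset] at hv
      have h5 := h3 (v :: s.1, selL r s.1 s.2 v) (mem_cands.2 (Or.inr ⟨v, hv, rfl⟩))
      have hnd : (selL r s.1 s.2 v).Nodup := hs.ndV.filter _
      have h6 := mxF_ge A L (W0.length + 1) (selL r s.1 s.2 v).length
        (s2L r (v :: s.1) (selL r s.1 s.2 v)) (c3L r (selL r s.1 s.2 v)) lam l1 l2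
      have h7 := Fh_ge A L lam (selL r s.1 s.2 v).length
        (s2L r (v :: s.1) (selL r s.1 s.2 v)) (c3L r (selL r s.1 s.2 v)) l1
      rw [s2L_eq r hnd, c3L_eq r hnd, ← List.toFinset_card_of_nodup hnd, selL_toFinset,
        List.toFinset_cons] at h6 h7
      set V' := selV (rel r) s.1.toFinset s.2.toFinset v with hV'
      have h8 : (A : ℝ) * (FF L lam s.2.toFinset.card (s2 (rel r) s.1.toFinset s.2.toFinset)
          (c3 (rel r) s.2.toFinset) - 26) ≤ A * FF L lam V'.card
          (s2 (rel r) (insert v s.1.toFinset) V') (c3 (rel r) V') :=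
        mul_le_mul_of_nonneg_left hm (by positivity)
      have h9 : (mxF A L (W0.length + 1) s.2.length (s2L r s.1 s.2) (c3L r s.2) : ℝ) ≤
          mxF A L (W0.length + 1) V'.card
          (s2 (rel r) (insert v s.1.toFinset) V') (c3 (rel r) V') + L + 26 * A := by
        have : (Fh A L lam V'.card (s2 (rel r) (insert v s.1.toFinset) V')
          (c3 (rel r) V') : ℝ) ≤ mxF A L (W0.length + 1)
          V'.card (s2 (rel r) (insert v s.1.toFinset) V')
          (c3 (rel r) V') := by exact_mod_cast h6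
        linarith
      have h10 : mxF A L (W0.length + 1) s.2.length (s2L r s.1 s.2) (c3L r s.2) ≤
          mxF A L (W0.length + 1) V'.card
          (s2 (rel r) (insert v s.1.toFinset) V') (c3 (rel r) V') + L + 26 * A := by
        exact_mod_cast h9
      refine le_trans ?_ (Nat.add_le_add_right h5 L)
      unfold score
      simp only [List.length_cons]
      rw [s2L_eq r hnd, c3L_eq r hnd, ← List.toFinset_card_of_nodup hnd, selL_toFinset,
        List.toFinset_cons, ← hV']
      have e5 : 27 * A * (s.1.length + 1) = 27 * A * s.1.length + 27 * A := by ring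
      rw [e5]
      omega

theorem iter_score (h : Lin (rel r)) {W0 : List α} (hW : W0.Nodup)
    (h4 : No4 (rel r) W0.toFinset) (h6 : No6 (rel r) W0.toFinset) (A : ℕ) {L : ℕ}
    (hL : 1 ≤ L) (hL' : L ≤ W0.length) (k : ℕ) :
    score r A L (W0.length + 1) ([], W0) ≤ score r A L (W0.length + 1)
      ((stepL r A L (W0.length + 1))^[k] ([], W0)) + k * L := by
  induction k with
  | zero => simp
  | succ k ih =>
    rw [Function.iterate_succ_apply']
    have := step_score h hW h4 h6 (inv_iter h A L (W0.length + 1) (inv_start hW) k) A hL hL'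
    have e : (k + 1) * L = k * L + L := by ring
    omega

/-- The guarantee of the greedy process. -/
theorem potL_spec (h : Lin (rel r)) {V : List α} (hV : V.Nodup) (h4 : No4 (rel r) V.toFinset)
    (h6 : No6 (rel r) V.toFinset) {L lam : ℕ} (hL : 1 ≤ L) (hL' : L ≤ V.length) (hlam : 1 ≤ lam)
    (hlam' : lam ≤ V.length + 1) :
    FF L lam V.length 0 (c3 (rel r) V.toFinset) ≤ 27 * (potL r L V).length + 1 := by
  set A := (V.length + 1) * (V.length + 1) with hA
  have h1 := iter_score h hV h4 h6 A hL hL' V.length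
  set t := (stepL r A L (V.length + 1))^[V.length] ([], V) with ht
  have ht2 : t.2.length = 0 := by
    have := iter_length (r := r) A L (V.length + 1) ([], V) V.length
    rw [← ht] at this
    simp only [Nat.sub_self, Nat.le_zero] at this
    exact this
  have h2 : score r A L (V.length + 1) t = 27 * A * t.1.length := by
    unfold score
    rw [ht2, mxF_zero, Nat.add_zero]
  have h3 : potL r L V = t.1 := rfl
  rw [h3]
  have h5 := mxF_ge A L (V.length + 1) V.length (s2L r [] V) (c3L r V) lam hlam hlam'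
  have h7 := Fh_ge A L lam V.length (s2L r [] V) (c3L r V) hlam
  have e1 : s2L r [] V = 0 := by
    unfold s2L nbL
    simp
  have h8 : score r A L (V.length + 1) ([], V) = mxF A L (V.length + 1) V.length (s2L r [] V)
      (c3L r V) := by
    unfold score
    simp
  rw [h2, h8] at h1
  have h9 : Fh A L lam V.length (s2L r [] V) (c3L r V) ≤ 27 * A * t.1.length + V.length * L :=
    h5.trans h1
  have h10 : (Fh A L lam V.length (s2L r [] V) (c3L r V) : ℝ) ≤
      27 * A * t.1.length + V.length * L := by exact_mod_cast h9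
  rw [e1, c3L_eq r hV] at h7 h10
  have hA0 : (0 : ℝ) < A := by rw [hA]; positivity
  have h11 : ((V.length : ℝ) + 1) * L ≤ A := by
    rw [hA]
    push_cast
    apply mul_le_mul_of_nonneg_left _ (by positivity)
    have : (L : ℝ) ≤ V.length := by exact_mod_cast hL'
    linarith
  have h12 : (A : ℝ) * FF L lam V.length 0 (c3 (rel r) V.toFinset) ≤
      A * (27 * t.1.length + 1) := by
    simp only [Nat.cast_zero] at h7 h10
    nlinarith
  exact le_of_mul_le_mul_left h12 hA0

theorem potL_inv (h : Lin (rel r)) {V : List α} (hV : V.Nodup) (L : ℕ) :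
    ∃ t, Inv r V (potL r L V, t) :=
  ⟨_, inv_iter h _ L (V.length + 1) (inv_start hV) V.length⟩

end Run7.h435
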