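import Pool.Agent.Run7.h435.Shrink2

/-!
# The approximation ratio
-/

set_option linter.unusedSectionVars false

namespace Run7.h435

open Finset

variable {α : Type} [DecidableEq α] (r : α → α → α → Bool)

/-- The candidate solutions. -/
def candL (V : List α) : List (List α) :=
  (List.range (V.length + 1)).flatMap fun l =>
    (List.range (V.length + 1)).flatMap fun m =>
      (List.range (V.length + 1)).map fun L => potL r L (nobad r (shrink r l m (clean r l V)))

/-- The algorithm. -/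
def algL (V : List α) : List α := best (fun s => s.length) (gre r V.dedup) (candL r V.dedup)

theorem mem_candL {V W : List α} : W ∈ candL r V ↔ ∃ l m L, l ≤ V.length ∧ m ≤ V.length ∧
    L ≤ V.length ∧ W = potL r L (nobad r (shrink r l m (clean r l V))) := by
  unfold candL
  simp only [List.mem_flatMap, List.mem_map, List.mem_range]
  constructor
  · rintro ⟨l, hl, m, hm, L, hL, rfl⟩
    exact ⟨l, m, L, by omega, by omega, by omega, rfl⟩
  · rintro ⟨l, m, L, hl, hm, hL, rfl⟩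
    exact ⟨l, by omega, m, by omega, L, by omega, rfl⟩

/-- The algorithm outputs a set of points in general position. -/
theorem algL_valid (h : Lin (rel r)) (V : List α) :
    (algL r V).Nodup ∧ (∀ x ∈ algL r V, x ∈ V) ∧ ∀ a ∈ algL r V, ∀ b ∈ algL r V,
      ∀ c ∈ algL r V, ¬ (rel r) a b c := by
  have hnd : V.dedup.Nodup := List.nodup_dedup V
  rcases best_mem (fun s : List α => s.length) (candL r V.dedup) (gre r V.dedup) with h1 | h1
  · have e : algL r V = gre r V.dedup := h1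
    rw [e]
    refine ⟨(gre_sub r _).nodup hnd, fun x hx => ?_, gre_gp r h _⟩
    exact List.mem_dedup.1 ((gre_sub r _).subset hx)
  · have e : algL r V ∈ candL r V.dedup := h1
    rw [mem_candL] at e
    obtain ⟨l, m, L, _, _, _, e⟩ := e
    have s1 := clean_sub r l V.dedup
    have s2 := (shrink_sub r l m (clean r l V.dedup)).trans s1
    have s3 := (nobad_sub r (shrink r l m (clean r l V.dedup))).trans s2
    obtain ⟨t, ht⟩ := potL_inv h (s3.nodup hnd) L
    rw [← e] at ht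
    refine ⟨ht.ndI, fun x hx => ?_, fun a ha b hb c hc hR => ?_⟩
    · exact List.mem_dedup.1 (s3.subset (ht.subI x hx))
    · have := ht.gp a ha b hb c hc
      rw [show r a b c = true from hR] at this
      exact absurd this (by simp)

theorem algL_ge_gre (V : List α) : (gre r V.dedup).length ≤ (algL r V).length :=
  best_ge_d (fun s : List α => s.length) _ _

theorem algL_ge_cand (V : List α) {l m L : ℕ} (hl : l ≤ V.dedup.length) (hm : m ≤ V.dedup.length)
    (hL : L ≤ V.dedup.length) :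
    (potL r L (nobad r (shrink r l m (clean r l V.dedup)))).length ≤ (algL r V).length :=
  best_ge (fun s : List α => s.length) _ _ _ ((mem_candL r).2 ⟨l, m, L, hl, hm, hL, rfl⟩)

/-! ### Lower bound for the potential at the start -/

theorem FF_lower {h s : ℕ} (hh : 1 ≤ h) (hs : h ≤ s * s) (hs1 : 1 ≤ s) {N C3 x : ℝ} (hN : 0 < N)
    (hC0 : 0 ≤ C3) (hC : C3 ≤ 6 * 4 ^ h * N) (hx : 2 ^ h * x ≤ 4 * N) :
    h * x / (32 * s) ≤ FF h (2 ^ h * s) N 0 C3 := by
  have hs0 : (1 : ℝ) ≤ s := by exact_mod_cast hs1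
  have hss : (h : ℝ) ≤ s * s := by exact_mod_cast hs
  have e2 : (1 : ℝ) ≤ 2 ^ h := one_le_pow₀ (by norm_num)
  have e4 : (4 : ℝ) ^ h = 2 ^ h * 2 ^ h := by rw [← mul_pow]; norm_num
  have hden : ∀ j ∈ range h, N / (8 * 2 ^ h * s) ≤ N ^ 2 / yy h (2 ^ h * s) j N 0 C3 := by
    intro j hj
    rw [mem_range] at hj
    have hy0 : 0 < yy h (2 ^ h * s) j N 0 C3 := by
      unfold yy
      positivity
    have hy : yy h (2 ^ h * s) j N 0 C3 ≤ 8 * 2 ^ h * s * N := by
      unfold yy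
      push_cast
      have a1 : (2 : ℝ) ^ j ≤ 2 ^ h := pow_le_pow_right₀ (by norm_num) hj.le
      have a2 : (h : ℝ) / (2 ^ h * s) * C3 ≤ 6 * 2 ^ h * s * N := by
        rw [div_mul_eq_mul_div, div_le_iff₀ (by positivity)]
        calc (h : ℝ) * C3 ≤ (s * s) * (6 * 4 ^ h * N) := by
              apply mul_le_mul hss hC hC0 (by positivity)
          _ = 6 * 2 ^ h * s * N * (2 ^ h * s) := by rw [e4]; ring
      have a3 : (2 : ℝ) ^ j * N ≤ 2 ^ h * s * N := by
        apply mul_le_mul_of_nonneg_right _ hN.le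
        nlinarith
      nlinarith
    rw [div_le_div_iff₀ (by positivity) hy0]
    calc N * yy h (2 ^ h * s) j N 0 C3 ≤ N * (8 * 2 ^ h * s * N) :=
          mul_le_mul_of_nonneg_left hy hN.le
      _ = N ^ 2 * (8 * 2 ^ h * s) := by ring
  have h1 : (h : ℝ) * (N / (8 * 2 ^ h * s)) ≤ FF h (2 ^ h * s) N 0 C3 := by
    unfold FF
    have := sum_le_sum hden
    rw [sum_const, card_range, nsmul_eq_mul] at this
    exact this
  refine le_trans ?_ h1
  have h2 : x / (32 * s) ≤ N / (8 * 2 ^ h * s) := by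
    rw [div_le_div_iff₀ (by positivity) (by positivity)]
    have : (2 ^ h * x) * (8 * s) ≤ (4 * N) * (8 * s) :=
      mul_le_mul_of_nonneg_right hx (by positivity)
    calc x * (8 * 2 ^ h * s) = (2 ^ h * x) * (8 * s) := by ring
      _ ≤ (4 * N) * (8 * s) := this
      _ = N * (32 * s) := by ring
  have h3 : (h : ℝ) * (x / (32 * s)) ≤ h * (N / (8 * 2 ^ h * s)) :=
    mul_le_mul_of_nonneg_left h2 (by positivity)
  calc (h : ℝ) * x / (32 * s) = h * (x / (32 * s)) := by ring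
    _ ≤ _ := h3

/-! ### The large case -/

theorem div_pow_aux {T x t m c : ℝ} {j : ℕ} (hx : 0 < x) (hm : 0 ≤ m)
    (hmx : m ≤ t * x) (h1 : T * x ^ (j + 1) ≤ 3 * m ^ (j + 1)) (hc : 3 * t ^ j ≤ c * x) :
    T ≤ c * m := by
  have h2 : m ^ (j + 1) ≤ m * (t ^ j * x ^ j) := by
    rw [pow_succ, mul_comm, ← mul_pow]
    exact mul_le_mul_of_nonneg_left (pow_le_pow_left₀ hm hmx j) hm
  have h3 : T * x ^ (j + 1) ≤ (c * m) * x ^ (j + 1) := by
    calc T * x ^ (j + 1) ≤ 3 * m ^ (j + 1) := h1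
      _ ≤ 3 * (m * (t ^ j * x ^ j)) := by linarith
      _ = (3 * t ^ j) * (m * x ^ j) := by ring
      _ ≤ (c * x) * (m * x ^ j) := mul_le_mul_of_nonneg_right hc (by positivity)
      _ = (c * m) * x ^ (j + 1) := by ring
  exact le_of_mul_le_mul_right h3 (by positivity)

theorem sqrt_aux {h : ℕ} (hh : 1 ≤ h) : (Nat.sqrt h + 1) * (Nat.sqrt h + 1) ≤ 4 * h := by
  have h1 := Nat.sqrt_le h
  have h2 : 1 ≤ Nat.sqrt h := Nat.sqrt_pos.2 hh
  nlinarith

theorem large_case (hl : Lin (rel r)) {V : List α} (hV : V.Nodup) {O : Finset α}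
    (hO : GP (rel r) O) (hOV : O ⊆ V.toFinset) {h : ℕ} (hh : 1 ≤ h) (hn1 : 1 ≤ V.length)
    (hk : 10 * (V.length : ℝ) * 2 ^ (10 * h + 10) ≤ (O.card : ℝ) ^ 2) :
    ∃ l m, l ≤ V.length ∧ m ≤ V.length ∧ h ≤ V.length ∧
      (h : ℝ) * (O.card : ℝ) ^ 2 ≤ 40000000 * V.length *
        ((potL r h (nobad r (shrink r l m (clean r l V)))).length : ℝ) ^ 2 := by
  set n := V.length with hn
  set k := O.card with hkdef
  have hkn : k ≤ n := by
    have := card_le_card hOV
    rwa [List.toFinset_card_of_nodup hV] at this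
  set t : ℝ := 2 ^ h with ht
  have ht2 : (2 : ℝ) ≤ t := by
    rw [ht]
    calc (2 : ℝ) = 2 ^ 1 := by norm_num
      _ ≤ 2 ^ h := pow_le_pow_right₀ (by norm_num) hh
  have e10 : (2 : ℝ) ^ (10 * h + 10) = 1024 * t ^ 10 := by
    rw [pow_add, mul_comm 10 h, pow_mul]; norm_num; ring
  rw [e10] at hk
  have hnR : (1 : ℝ) ≤ n := by exact_mod_cast hn1
  have hknR : (k : ℝ) ≤ n := by exact_mod_cast hkn
  have ht10 : (1 : ℝ) ≤ t ^ 10 := one_le_pow₀ (by linarith)
  have hk1 : (10240 : ℝ) ≤ k := by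
    have h2 : 10240 * (n : ℝ) * 1 ≤ 10240 * n * t ^ 10 :=
      mul_le_mul_of_nonneg_left ht10 (by positivity)
    have h4 : (k : ℝ) ^ 2 ≤ k * n := by
      rw [pow_two]; exact mul_le_mul_of_nonneg_left hknR (by positivity)
    have h5 : 10240 * (n : ℝ) ≤ k * n := by linarith
    exact le_of_mul_le_mul_right h5 (by linarith)
  have hk5 : 10240 ≤ k := by exact_mod_cast hk1
  have hk0 : 0 < k := by omega
  set l := 4 * n / k + 1 with hldef
  have l1 : 4 * n ≤ l * k := by
    have := Nat.lt_mul_div_succ (4 * n) hk0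
    rw [mul_comm l k]; exact this.le
  have l2 : l * k ≤ 5 * n := by
    have := Nat.div_mul_le_self (4 * n) k
    rw [hldef, add_mul, one_mul]
    omega
  have l3 : l ≤ n := by
    have : l * 5 ≤ l * k := Nat.mul_le_mul_left _ (by omega)
    omega
  have l4 : 1 ≤ l := Nat.succ_le_succ (Nat.zero_le _)
  set V1 := clean r l V with hV1
  have hV1n : V1.Nodup := (clean_sub r l V).nodup hV
  set N := V1.length with hN
  have hNn : N ≤ n := (clean_sub r l V).length_le
  have c1 := clean_opt r hl hO l hV hOV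
  rw [← hV1, ← hN, ← hn, ← hkdef] at c1
  have c2 : k ≤ 2 * N := by
    have : l * k ≤ l * (2 * N) := by
      have e : l * (2 * N) = 2 * (l * N) := by ring
      rw [e]
      omega
    exact Nat.le_of_mul_le_mul_left this (by omega)
  have hlR : (1 : ℝ) ≤ l := by exact_mod_cast l4
  have hl0 : (0 : ℝ) < l := by linarith
  have hN0 : (0 : ℝ) ≤ N := by positivity
  have c2R : (k : ℝ) ≤ 2 * N := by exact_mod_cast c2
  have l2R : (l : ℝ) * k ≤ 5 * n := by exact_mod_cast l2
  set x : ℝ := √((N : ℝ) / l) with hx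
  have hx0 : 0 ≤ x := Real.sqrt_nonneg _
  have hx2 : x ^ 2 = N / l := Real.sq_sqrt (by positivity)
  have hx2l : x ^ 2 * l = N := by rw [hx2]; field_simp
  have hxk : (k : ℝ) ^ 2 ≤ 10 * n * x ^ 2 := by
    have h1 : (k : ℝ) ^ 2 * l ≤ (10 * n * x ^ 2) * l := by
      calc (k : ℝ) ^ 2 * l = (l * k) * k := by ring
        _ ≤ (5 * n) * (2 * N) := mul_le_mul l2R c2R (by positivity) (by positivity)
        _ = (10 * n * x ^ 2) * l := by rw [mul_assoc (10 * (n : ℝ)), hx2l]; ring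
    exact le_of_mul_le_mul_right h1 hl0
  have hx3 : 32 * t ^ 5 ≤ x := by
    have h1 : 10 * (n : ℝ) * (1024 * t ^ 10) ≤ 10 * n * x ^ 2 := hk.trans hxk
    have h2 : 1024 * t ^ 10 ≤ x ^ 2 := le_of_mul_le_mul_left h1 (by positivity)
    have h3 : (32 * t ^ 5) ^ 2 ≤ x ^ 2 := by
      calc (32 * t ^ 5) ^ 2 = 1024 * t ^ 10 := by ring
        _ ≤ x ^ 2 := h2
    exact le_of_sq_le_sq h3 hx0
  have ht5 : t ≤ t ^ 5 := by
    calc t = t ^ 1 := (pow_one t).symm
      _ ≤ t ^ 5 := pow_le_pow_right₀ (by linarith) (by norm_num)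
  have ht35 : t ^ 3 ≤ t ^ 5 := pow_le_pow_right₀ (by linarith) (by norm_num)
  have ht0 : 0 < t := by linarith
  have hxpos : 0 < x := lt_of_lt_of_le (by positivity) hx3
  set m := ⌊t * x⌋₊ with hm
  have m1 : (m : ℝ) ≤ t * x := Nat.floor_le (by positivity)
  have m2 : t * x < m + 1 := Nat.lt_floor_add_one _
  have hx64 : 64 ≤ x := by linarith
  have htx : 128 ≤ t * x := by
    calc (128 : ℝ) = 2 * 64 := by norm_num
      _ ≤ t * x := mul_le_mul ht2 hx64 (by norm_num) (by linarith)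
  have m3 : t * x ≤ 2 * m := by linarith
  have m4 : (m : ℝ) ≤ N := by
    have h1 : t * x ≤ x * x := mul_le_mul_of_nonneg_right (by linarith) hx0
    have h2 : x * x ≤ N := by
      rw [← hx2l, ← pow_two]
      exact le_mul_of_one_le_right (by positivity) hlR
    linarith
  have m5 : m ≤ N := by exact_mod_cast m4
  have m6 : 1 ≤ m := by
    have : (0 : ℝ) < m := by linarith
    exact_mod_cast this
  have hm0 : (0 : ℝ) ≤ m := by positivity
  obtain ⟨s1, s2, s3, s4⟩ := shrink_spec r hl hV1n l4 m6 m5 (clean_poor r l V)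
  set V2 := shrink r l m V1 with hV2
  have hV2n : V2.Nodup := (shrink_sub r l m V1).nodup hV1n
  have q3 : ((T3 r V2.toFinset).card : ℝ) ≤ (3 * t ^ 2) * m := by
    have h1 : (N : ℝ) * (T3 r V2.toFinset).card ≤ 3 * l * m ^ 3 := by exact_mod_cast s2
    have h2 : ((T3 r V2.toFinset).card : ℝ) * x ^ 2 ≤ 3 * m ^ 3 := by
      have : (((T3 r V2.toFinset).card : ℝ) * x ^ 2) * l ≤ (3 * m ^ 3) * l := by
        calc (((T3 r V2.toFinset).card : ℝ) * x ^ 2) * l = (x ^ 2 * l) * (T3 r V2.toFinset).card := by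
              ring
          _ ≤ 3 * (l : ℝ) * (m : ℝ) ^ 3 := by rw [hx2l]; exact h1
          _ = _ := by ring
      exact le_of_mul_le_mul_right this hl0
    have h3 : (m : ℝ) ^ 3 ≤ m * (t ^ 2 * x ^ 2) := by
      have : (m : ℝ) ^ 2 ≤ (t * x) ^ 2 := pow_le_pow_left₀ hm0 m1 2
      calc (m : ℝ) ^ 3 = m * m ^ 2 := by ring
        _ ≤ m * (t * x) ^ 2 := mul_le_mul_of_nonneg_left this hm0
        _ = _ := by ring
    have h4 : ((T3 r V2.toFinset).card : ℝ) * x ^ 2 ≤ ((3 * t ^ 2) * m) * x ^ 2 := by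
      calc ((T3 r V2.toFinset).card : ℝ) * x ^ 2 ≤ 3 * m ^ 3 := h2
        _ ≤ 3 * (m * (t ^ 2 * x ^ 2)) := by linarith
        _ = _ := by ring
    exact le_of_mul_le_mul_right h4 (by positivity)
  have q4 : ((T4 r V2.toFinset).card : ℝ) ≤ (1 / 4) * m := by
    have h1 : (N : ℝ) ^ 2 * (T4 r V2.toFinset).card ≤ 3 * l ^ 2 * m ^ 4 := by exact_mod_cast s3
    have h2 : ((T4 r V2.toFinset).card : ℝ) * x ^ (3 + 1) ≤ 3 * m ^ (3 + 1) := by
      have : (((T4 r V2.toFinset).card : ℝ) * x ^ 4) * l ^ 2 ≤ (3 * m ^ 4) * l ^ 2 := by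
        calc (((T4 r V2.toFinset).card : ℝ) * x ^ 4) * l ^ 2 =
              (x ^ 2 * l) ^ 2 * (T4 r V2.toFinset).card := by ring
          _ ≤ 3 * (l : ℝ) ^ 2 * (m : ℝ) ^ 4 := by rw [hx2l]; exact h1
          _ = _ := by ring
      exact le_of_mul_le_mul_right this (by positivity)
    refine div_pow_aux (j := 3) hxpos hm0 m1 h2 ?_
    linarith
  have q6 : ((T6 r V2.toFinset).card : ℝ) ≤ (1 / 4) * m := by
    have h1 : (N : ℝ) ^ 3 * (T6 r V2.toFinset).card ≤ 3 * l ^ 3 * m ^ 6 := by exact_mod_cast s4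
    have h2 : ((T6 r V2.toFinset).card : ℝ) * x ^ (5 + 1) ≤ 3 * m ^ (5 + 1) := by
      have : (((T6 r V2.toFinset).card : ℝ) * x ^ 6) * l ^ 3 ≤ (3 * m ^ 6) * l ^ 3 := by
        calc (((T6 r V2.toFinset).card : ℝ) * x ^ 6) * l ^ 3 =
              (x ^ 2 * l) ^ 3 * (T6 r V2.toFinset).card := by ring
          _ ≤ 3 * (l : ℝ) ^ 3 * (m : ℝ) ^ 6 := by rw [hx2l]; exact h1
          _ = _ := by ring
      exact le_of_mul_le_mul_right this (by positivity)
    refine div_pow_aux (j := 5) hxpos hm0 m1 h2 ?_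
    linarith
  set W := nobad r V2 with hW
  have hWn : W.Nodup := (nobad_sub r V2).nodup hV2n
  have w1 := nobad_length r hV2n
  rw [← hW, s1] at w1
  have w2 : (m : ℝ) ≤ 2 * W.length := by
    have : (m : ℝ) ≤ W.length + (T4 r V2.toFinset).card + (T6 r V2.toFinset).card := by
      exact_mod_cast w1
    linarith
  have w3 : (c3 (rel r) W.toFinset : ℝ) ≤ 6 * 4 ^ h * W.length := by
    rw [← T3_eq_c3]
    have h1 : ((T3 r W.toFinset).card : ℝ) ≤ (T3 r V2.toFinset).card := by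
      exact_mod_cast T3_mono r (by
        intro z hz
        rw [List.mem_toFinset] at hz ⊢
        exact (nobad_sub r V2).subset hz)
    have e4 : (4 : ℝ) ^ h = t ^ 2 := by
      rw [ht, ← pow_mul, mul_comm h 2, pow_mul]; norm_num
    rw [e4]
    have : (3 * t ^ 2) * (m : ℝ) ≤ (3 * t ^ 2) * (2 * W.length) :=
      mul_le_mul_of_nonneg_left w2 (by positivity)
    linarith
  have w4 : t * x ≤ 4 * (W.length : ℝ) := by linarith
  have hWpos : (0 : ℝ) < W.length := by linarith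
  set s := Nat.sqrt h + 1 with hs
  have s5 : h ≤ s * s := (Nat.lt_succ_sqrt h).le
  have s6 : s * s ≤ 4 * h := by
    rw [hs]
    exact sqrt_aux hh
  have s7 : s ≤ h + 1 := by
    have := Nat.sqrt_le_self h
    omega
  have h2h : h + 1 ≤ 2 ^ h := Nat.lt_two_pow_self
  have h2hR : (h : ℝ) + 1 ≤ t := by rw [ht]; exact_mod_cast h2h
  have sR : (s : ℝ) ≤ h + 1 := by exact_mod_cast s7
  have hW8 : t ^ 2 ≤ (W.length : ℝ) := by
    have h1 : t * (32 * t ^ 5) ≤ t * x := mul_le_mul_of_nonneg_left hx3 (by linarith)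
    have h2 : t ^ 2 ≤ t ^ 6 := pow_le_pow_right₀ (by linarith) (by norm_num)
    have h3 : t * (32 * t ^ 5) = 32 * t ^ 6 := by ring
    have h4 : 0 ≤ t ^ 6 := by positivity
    linarith
  have hhW : h ≤ W.length := by
    have ht2' : t ≤ t ^ 2 := by
      rw [pow_two]; exact le_mul_of_one_le_right ht0.le (by linarith)
    have : (h : ℝ) ≤ W.length := by linarith
    exact_mod_cast this
  have hlamW : 2 ^ h * s ≤ W.length + 1 := by
    have : ((2 ^ h * s : ℕ) : ℝ) ≤ ((W.length + 1 : ℕ) : ℝ) := by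
      push_cast
      rw [← ht]
      have h1 : t * s ≤ t * t := mul_le_mul_of_nonneg_left (by linarith) ht0.le
      rw [← pow_two] at h1
      linarith
    exact_mod_cast this
  have hlam1 : 1 ≤ 2 ^ h * s := Nat.mul_pos (by positivity) (by omega)
  have p1 := potL_spec hl hWn (nobad_no4 r V2) (nobad_no6 r V2) hh hhW hlam1 hlamW
  have hs0 : (1 : ℝ) ≤ s := by exact_mod_cast (show 1 ≤ s by omega)
  have p2 := FF_lower (h := h) (s := s) hh s5 (by omega) hWpos
    (Nat.cast_nonneg (c3 (rel r) W.toFinset)) w3 w4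
  set I := potL r h W with hI
  refine ⟨l, m, l3, m5.trans hNn, ?_, ?_⟩
  · exact hhW.trans ((nobad_sub r V2).length_le.trans (by rw [s1]; exact m5.trans hNn))
  rw [← hV2, ← hW, ← hI]
  have p3 : (h : ℝ) * x / (32 * s) ≤ 27 * I.length + 1 := p2.trans p1
  have hhR : (1 : ℝ) ≤ h := by exact_mod_cast hh
  have p4 : 16 ≤ (h : ℝ) * x / (32 * s) := by
    rw [le_div_iff₀ (by positivity)]
    have h1 : (1024 : ℝ) ≤ x := by
      have : (32 : ℝ) ≤ t ^ 5 := by
        calc (32 : ℝ) = 2 ^ 5 := by norm_num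
          _ ≤ t ^ 5 := pow_le_pow_left₀ (by norm_num) ht2 5
      linarith
    have h2 : (h : ℝ) * 1024 ≤ h * x := mul_le_mul_of_nonneg_left h1 (by linarith)
    linarith
  have p5 : 15 * ((h : ℝ) * x / (32 * s)) ≤ 432 * I.length := by linarith
  have p6 : (h : ℝ) ^ 2 * x ^ 2 ≤ 830 * 1024 * s ^ 2 * (I.length : ℝ) ^ 2 := by
    have h1 : 15 * ((h : ℝ) * x) ≤ 432 * I.length * (32 * s) := by
      have : 15 * ((h : ℝ) * x / (32 * s)) = 15 * (h * x) / (32 * s) := by ring
      rw [this, div_le_iff₀ (by positivity)] at p5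
      exact p5
    have h2 : (15 * ((h : ℝ) * x)) ^ 2 ≤ (432 * I.length * (32 * s)) ^ 2 :=
      pow_le_pow_left₀ (by positivity) h1 2
    have h3 : (0 : ℝ) ≤ s ^ 2 * (I.length : ℝ) ^ 2 := by positivity
    have e1 : (15 * ((h : ℝ) * x)) ^ 2 = 225 * (h ^ 2 * x ^ 2) := by ring
    have e2 : (432 * (I.length : ℝ) * (32 * s)) ^ 2 = 191102976 * (s ^ 2 * (I.length : ℝ) ^ 2) := by
      ring
    rw [e1, e2] at h2
    have e3 : 830 * 1024 * (s : ℝ) ^ 2 * (I.length : ℝ) ^ 2 =
      849920 * (s ^ 2 * (I.length : ℝ) ^ 2) := by ring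
    rw [e3]
    linarith
  have s6R : (s : ℝ) ^ 2 ≤ 4 * h := by
    have : (s : ℝ) * s ≤ 4 * h := by exact_mod_cast s6
    rw [pow_two]; exact this
  have p7 : (h : ℝ) * x ^ 2 ≤ 3399680 * (I.length : ℝ) ^ 2 := by
    have h1 : (h : ℝ) * (h * x ^ 2) ≤ h * (3399680 * (I.length : ℝ) ^ 2) := by
      calc (h : ℝ) * (h * x ^ 2) = h ^ 2 * x ^ 2 := by ring
        _ ≤ 830 * 1024 * s ^ 2 * (I.length : ℝ) ^ 2 := p6
        _ ≤ 830 * 1024 * (4 * h) * (I.length : ℝ) ^ 2 := by
          apply mul_le_mul_of_nonneg_right _ (by positivity)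
          linarith
        _ = h * (3399680 * (I.length : ℝ) ^ 2) := by ring
    exact le_of_mul_le_mul_left h1 (by linarith)
  calc (h : ℝ) * (k : ℝ) ^ 2 ≤ h * (10 * n * x ^ 2) :=
        mul_le_mul_of_nonneg_left hxk (by positivity)
    _ = 10 * n * (h * x ^ 2) := by ring
    _ ≤ 10 * n * (3399680 * (I.length : ℝ) ^ 2) :=
        mul_le_mul_of_nonneg_left p7 (by positivity)
    _ ≤ 40000000 * n * (I.length : ℝ) ^ 2 := by
        have : (0 : ℝ) ≤ n * (I.length : ℝ) ^ 2 := by positivity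
        linarith

end Run7.h435
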