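import Pool.Agent.Run7.h435.Ratio

/-!
# The approximation ratio: conclusion
-/

set_option linter.unusedSectionVars false

namespace Run7.h435

open Finset

variable {α : Type} [DecidableEq α] (r : α → α → α → Bool)

theorem small_aux {n k h : ℕ} (hn : 1 ≤ n) (hkn : k ≤ n) (h20 : 2 ^ (20 * h) ≤ n)
    (hc : h = 0 ∨ (k : ℝ) ^ 2 ≤ 10 * (n : ℝ) * 2 ^ (10 * h + 10)) :
    (k : ℝ) * (h + 1) ≤ 102 * n := by
  have hnR : (1 : ℝ) ≤ n := by exact_mod_cast hn
  have hknR : (k : ℝ) ≤ n := by exact_mod_cast hkn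
  rcases hc with h0 | hc
  · rw [h0]
    simp only [Nat.cast_zero, zero_add, mul_one]
    linarith
  · have e1 : ((h : ℝ) + 1) ≤ 2 ^ h := by
      have : h + 1 ≤ 2 ^ h := Nat.lt_two_pow_self
      exact_mod_cast this
    have e2 : ((h : ℝ) + 1) ^ 2 ≤ (2 ^ h) ^ 2 := pow_le_pow_left₀ (by positivity) e1 2
    have e3 : (2 : ℝ) ^ (20 * h) ≤ n := by exact_mod_cast h20
    have e4 : (2 : ℝ) ^ (10 * h + 10) * (2 ^ h) ^ 2 ≤ 1024 * 2 ^ (20 * h) := by
      have : (2 : ℝ) ^ (10 * h + 10) * (2 ^ h) ^ 2 = 1024 * 2 ^ (12 * h) := by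
        rw [pow_add, ← pow_mul, mul_right_comm, ← pow_add]
        rw [show 10 * h + h * 2 = 12 * h by ring]
        norm_num
        ring
      rw [this]
      apply mul_le_mul_of_nonneg_left _ (by norm_num)
      exact pow_le_pow_right₀ (by norm_num) (by omega)
    have e5 : ((k : ℝ) * (h + 1)) ^ 2 ≤ (102 * n) ^ 2 := by
      calc ((k : ℝ) * (h + 1)) ^ 2 = k ^ 2 * (h + 1) ^ 2 := by ring
        _ ≤ (10 * (n : ℝ) * 2 ^ (10 * h + 10)) * (2 ^ h) ^ 2 :=
          mul_le_mul hc e2 (by positivity) (by positivity)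
        _ = 10 * n * (2 ^ (10 * h + 10) * (2 ^ h) ^ 2) := by ring
        _ ≤ 10 * n * (1024 * 2 ^ (20 * h)) := mul_le_mul_of_nonneg_left e4 (by positivity)
        _ ≤ 10 * n * (1024 * n) := by
          apply mul_le_mul_of_nonneg_left _ (by positivity)
          linarith
        _ ≤ (102 * n) ^ 2 := by nlinarith
    exact le_of_sq_le_sq e5 (by positivity)

theorem log_aux {n h : ℕ} (hh : h = Nat.log 2 n / 20) :
    Real.log ((n : ℝ) + 1) ≤ 20 * (h + 1) := by
  have h1 : n < 2 ^ (Nat.log 2 n + 1) := Nat.lt_pow_succ_log_self (by norm_num) n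
  have h2 : Nat.log 2 n + 1 ≤ 20 * (h + 1) := by omega
  have h3 : n + 1 ≤ 2 ^ (20 * (h + 1)) := h1.trans_le (Nat.pow_le_pow_right (by norm_num) h2)
  have h4 : (n : ℝ) + 1 ≤ 2 ^ (20 * (h + 1)) := by exact_mod_cast h3
  have h0 : (0 : ℝ) < (n : ℝ) + 1 := by
    have : (0 : ℝ) ≤ n := Nat.cast_nonneg n
    linarith
  have h5 := Real.log_le_log h0 h4
  rw [Real.log_pow] at h5
  have h6 : Real.log 2 ≤ 1 := by
    have := Real.log_two_lt_d9
    linarith
  have h7 : ((20 * (h + 1) : ℕ) : ℝ) * Real.log 2 ≤ ((20 * (h + 1) : ℕ) : ℝ) * 1 :=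
    mul_le_mul_of_nonneg_left h6 (Nat.cast_nonneg _)
  push_cast at h5 h7
  linarith

/-- The approximation ratio of the algorithm. -/
theorem algL_ratio (hl : Lin (rel r)) (V0 : List α) {O : Finset α} (hO : GP (rel r) O)
    (hOV : O ⊆ V0.toFinset) : (O.card : ℝ) ≤
      40000 * √((V0.toFinset.card : ℝ) / Real.log ((V0.toFinset.card : ℝ) + 1)) *
        (algL r V0).length := by
  set V := V0.dedup with hV
  have hnd : V.Nodup := List.nodup_dedup V0
  have hVn : V0.toFinset.card = V.length := List.card_toFinset V0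
  have hOV' : O ⊆ V.toFinset := by
    intro x hx
    have := hOV hx
    rw [List.mem_toFinset] at this ⊢
    exact List.mem_dedup.2 this
  rw [hVn]
  set n := V.length with hn
  have hkn : O.card ≤ n := by
    have := card_le_card hOV
    rwa [hVn] at this
  rcases Nat.eq_zero_or_pos n with h0 | h0
  · have : O.card = 0 := by omega
    rw [this]
    simp only [Nat.cast_zero]
    positivity
  set h := Nat.log 2 n / 20 with hh
  have hL := log_aux (n := n) hh
  have h20 : 2 ^ (20 * h) ≤ n := by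
    have h1 : 2 ^ Nat.log 2 n ≤ n := Nat.pow_log_le_self 2 (by omega)
    exact (Nat.pow_le_pow_right (by norm_num) (by omega)).trans h1
  have hnR : (1 : ℝ) ≤ n := by exact_mod_cast h0
  have hLpos : 0 < Real.log ((n : ℝ) + 1) := Real.log_pos (by linarith)
  set g := (algL r V0).length with hg
  have key : (O.card : ℝ) ^ 2 * Real.log ((n : ℝ) + 1) ≤ 1600000000 * n * (g : ℝ) ^ 2 := by
    by_cases hc : 1 ≤ h ∧ 10 * (n : ℝ) * 2 ^ (10 * h + 10) ≤ (O.card : ℝ) ^ 2
    · obtain ⟨l, m, h1, h2, h3, h4⟩ := large_case r hl hnd hO hOV' hc.1 h0 hc.2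
      have h5 := algL_ge_cand r V0 h1 h2 h3
      rw [← hV] at h5
      have h6 : ((potL r h (nobad r (shrink r l m (clean r l V)))).length : ℝ) ^ 2 ≤
          (g : ℝ) ^ 2 := by
        apply pow_le_pow_left₀ (by positivity)
        exact_mod_cast h5
      have hh1 : (1 : ℝ) ≤ h := by exact_mod_cast hc.1
      have h7 : Real.log ((n : ℝ) + 1) ≤ 40 * h := by linarith
      calc (O.card : ℝ) ^ 2 * Real.log ((n : ℝ) + 1) ≤ (O.card : ℝ) ^ 2 * (40 * h) :=
            mul_le_mul_of_nonneg_left h7 (by positivity)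
        _ = 40 * (h * (O.card : ℝ) ^ 2) := by ring
        _ ≤ 40 * (40000000 * n *
            ((potL r h (nobad r (shrink r l m (clean r l V)))).length : ℝ) ^ 2) :=
            mul_le_mul_of_nonneg_left h4 (by norm_num)
        _ ≤ 40 * (40000000 * n * (g : ℝ) ^ 2) := by
            apply mul_le_mul_of_nonneg_left _ (by norm_num)
            exact mul_le_mul_of_nonneg_left h6 (by positivity)
        _ = _ := by ring
    · have hc' : h = 0 ∨ (O.card : ℝ) ^ 2 ≤ 10 * (n : ℝ) * 2 ^ (10 * h + 10) := by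
        by_cases h1 : 1 ≤ h
        · right
          by_contra h2
          push Not at h2
          exact hc ⟨h1, h2.le⟩
        · left; omega
      have h1 := small_aux h0 hkn h20 hc'
      have h2 := gre_bound r hl hO hOV'
      have h3 := algL_ge_gre r V0
      rw [← hV, ← hg] at h3
      have h4 : O.card ≤ 3 * (g * g) := h2.trans (Nat.mul_le_mul_left _ (Nat.mul_le_mul h3 h3))
      have h5 : (O.card : ℝ) ≤ 3 * (g : ℝ) ^ 2 := by
        rw [pow_two]; exact_mod_cast h4
      calc (O.card : ℝ) ^ 2 * Real.log ((n : ℝ) + 1) ≤ (O.card : ℝ) ^ 2 * (20 * (h + 1)) :=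
            mul_le_mul_of_nonneg_left hL (by positivity)
        _ = O.card * (20 * (O.card * (h + 1))) := by ring
        _ ≤ (3 * (g : ℝ) ^ 2) * (20 * (O.card * (h + 1))) :=
            mul_le_mul_of_nonneg_right h5 (by positivity)
        _ ≤ (3 * (g : ℝ) ^ 2) * (20 * (102 * n)) := by
            apply mul_le_mul_of_nonneg_left _ (by positivity)
            linarith
        _ ≤ _ := by
            have : (0 : ℝ) ≤ n * (g : ℝ) ^ 2 := by positivity
            linarith
  have key2 : (O.card : ℝ) ^ 2 ≤ (40000 * √((n : ℝ) / Real.log ((n : ℝ) + 1)) * g) ^ 2 := by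
    rw [mul_pow, mul_pow, Real.sq_sqrt (by positivity)]
    rw [show (40000 : ℝ) ^ 2 * (n / Real.log ((n : ℝ) + 1)) * (g : ℝ) ^ 2 =
      (1600000000 * n * (g : ℝ) ^ 2) / Real.log ((n : ℝ) + 1) by ring]
    rw [le_div_iff₀ hLpos]
    exact key
  exact le_of_sq_le_sq key2 (by positivity)

end Run7.h435
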