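import Pool.Agent.Run7.h435.Clean

/-!
# Derandomised sampling
-/

set_option linter.unusedSectionVars false
set_option linter.unusedSimpArgs false

namespace Run7.h435

open Finset

variable {α : Type} [DecidableEq α]

/-! ### Double counting -/

theorem avg {τ : Type} [DecidableEq τ] {T : Finset α → Finset τ} {supp : τ → Finset α} {k : ℕ}
    (h1 : ∀ V v, T (V \ {v}) = (T V).filter (fun p => v ∉ supp p))
    (h2 : ∀ V, ∀ p ∈ T V, supp p ⊆ V ∧ (supp p).card = k) (V : Finset α) :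
    ∑ v ∈ V, (T (V \ {v})).card + k * (T V).card = V.card * (T V).card := by
  have e1 : ∑ v ∈ V, (T (V \ {v})).card = ∑ v ∈ V, ∑ p ∈ T V, if v ∉ supp p then 1 else 0 := by
    refine sum_congr rfl fun v _ => ?_
    rw [h1, card_filter]
  have e2 : k * (T V).card = ∑ p ∈ T V, ∑ v ∈ V, if v ∈ supp p then 1 else 0 := by
    rw [mul_comm, ← smul_eq_mul, ← sum_const]
    refine sum_congr rfl fun p hp => ?_
    obtain ⟨h3, h4⟩ := h2 V p hp
    rw [← card_filter, ← h4]
    congr 1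
    ext v
    rw [Finset.mem_filter]
    exact ⟨fun h => ⟨h3 h, h⟩, fun h => h.2⟩
  rw [e1, e2, sum_comm, ← sum_add_distrib]
  have e3 : ∀ p ∈ T V, (∑ v ∈ V, (if v ∉ supp p then 1 else 0)) +
      (∑ v ∈ V, if v ∈ supp p then 1 else 0) = V.card := by
    intro p _
    rw [← sum_add_distrib, card_eq_sum_ones]
    refine sum_congr rfl fun v _ => ?_
    by_cases hv : v ∈ supp p <;> simp [hv]
  rw [sum_congr rfl e3, sum_const, smul_eq_mul, mul_comm]

/-! ### Configurations -/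

section

variable (r : α → α → α → Bool)

def f3 (p : α × α × α) : Bool := r p.1 p.2.1 p.2.2

def f4 (p : α × α × α × α) : Bool :=
  r p.1 p.2.1 p.2.2.1 && (r p.1 p.2.1 p.2.2.2 && !(decide (p.2.2.1 = p.2.2.2)))

def f6 (p : α × α × α × α × α × α) : Bool :=
  r p.1 p.2.1 p.2.2.2.1 && (r p.2.1 p.2.2.1 p.2.2.2.2.1 && (r p.2.2.1 p.1 p.2.2.2.2.2 &&
    !(r p.1 p.2.1 p.2.2.1)))

def T3 (V : Finset α) : Finset (α × α × α) := (V ×ˢ V ×ˢ V).filter fun p => f3 r p = true

def T4 (V : Finset α) : Finset (α × α × α × α) :=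
  (V ×ˢ V ×ˢ V ×ˢ V).filter fun p => f4 r p = true

def T6 (V : Finset α) : Finset (α × α × α × α × α × α) :=
  (V ×ˢ V ×ˢ V ×ˢ V ×ˢ V ×ˢ V).filter fun p => f6 r p = true

theorem mem_T3 {V : Finset α} {x y z : α} :
    (x, y, z) ∈ T3 r V ↔ (x ∈ V ∧ y ∈ V ∧ z ∈ V) ∧ (rel r) x y z := by
  simp only [T3, f3, Finset.mem_filter, Finset.mem_product, rel]

theorem mem_T4 {V : Finset α} {x y z w : α} :
    (x, y, z, w) ∈ T4 r V ↔ (x ∈ V ∧ y ∈ V ∧ z ∈ V ∧ w ∈ V) ∧
      (rel r) x y z ∧ (rel r) x y w ∧ z ≠ w := by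
  simp only [T4, f4, Finset.mem_filter, Finset.mem_product, rel, Bool.and_eq_true,
    Bool.not_eq_true', decide_eq_false_iff_not, ne_eq]

theorem mem_T6 {V : Finset α} {x y z a b c : α} :
    (x, y, z, a, b, c) ∈ T6 r V ↔ (x ∈ V ∧ y ∈ V ∧ z ∈ V ∧ a ∈ V ∧ b ∈ V ∧ c ∈ V) ∧
      (rel r) x y a ∧ (rel r) y z b ∧ (rel r) z x c ∧ ¬ (rel r) x y z := by
  simp only [T6, f6, Finset.mem_filter, Finset.mem_product, rel, Bool.and_eq_true,
    Bool.not_eq_true', Bool.not_eq_true]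

theorem avg3 (h : Lin (rel r)) (V : Finset α) :
    ∑ v ∈ V, (T3 r (V \ {v})).card + 3 * (T3 r V).card = V.card * (T3 r V).card := by
  refine avg (T := T3 r) (supp := fun p => {p.1, p.2.1, p.2.2}) ?_ ?_ V
  · intro V v
    ext ⟨x, y, z⟩
    rw [Finset.mem_filter, mem_T3, mem_T3]
    simp only [Finset.mem_sdiff, Finset.mem_singleton, Finset.mem_insert]
    tauto
  · rintro V ⟨x, y, z⟩ hp
    rw [mem_T3] at hp
    obtain ⟨⟨hx, hy, hz⟩, hR⟩ := hp
    have n1 := h.ne _ _ _ hR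
    have n2 := h.ne2 hR
    have n3 := h.ne3 hR
    refine ⟨?_, ?_⟩
    · simp [Finset.insert_subset_iff, hx, hy, hz]
    · simp [Finset.card_insert_of_notMem, n1, n2, n3]

theorem avg4 (h : Lin (rel r)) (V : Finset α) :
    ∑ v ∈ V, (T4 r (V \ {v})).card + 4 * (T4 r V).card = V.card * (T4 r V).card := by
  refine avg (T := T4 r) (supp := fun p => {p.1, p.2.1, p.2.2.1, p.2.2.2}) ?_ ?_ V
  · intro V v
    ext ⟨x, y, z, w⟩
    rw [Finset.mem_filter, mem_T4, mem_T4]
    simp only [Finset.mem_sdiff, Finset.mem_singleton, Finset.mem_insert]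
    tauto
  · rintro V ⟨x, y, z, w⟩ hp
    rw [mem_T4] at hp
    obtain ⟨⟨hx, hy, hz, hw⟩, hR, hR', n⟩ := hp
    have n1 := h.ne _ _ _ hR
    have n2 := h.ne2 hR
    have n3 := h.ne3 hR
    have n4 := h.ne2 hR'
    have n5 := h.ne3 hR'
    refine ⟨?_, ?_⟩
    · simp [Finset.insert_subset_iff, hx, hy, hz, hw]
    · simp [Finset.card_insert_of_notMem, n, n1, n2, n3, n4, n5]

theorem avg6 (h : Lin (rel r)) (V : Finset α) :
    ∑ v ∈ V, (T6 r (V \ {v})).card + 6 * (T6 r V).card = V.card * (T6 r V).card := by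
  refine avg (T := T6 r) (supp := fun p => {p.1, p.2.1, p.2.2.1, p.2.2.2.1, p.2.2.2.2.1,
    p.2.2.2.2.2}) ?_ ?_ V
  · intro V v
    ext ⟨x, y, z, a, b, c⟩
    rw [Finset.mem_filter, mem_T6, mem_T6]
    simp only [Finset.mem_sdiff, Finset.mem_singleton, Finset.mem_insert]
    tauto
  · rintro V ⟨x, y, z, a, b, c⟩ hp
    rw [mem_T6] at hp
    obtain ⟨⟨hx, hy, hz, ha, hb, hc⟩, h1, h2, h3, hn⟩ := hp
    have n1 : x ≠ y := h.ne _ _ _ h1
    have n2 : y ≠ z := h.ne _ _ _ h2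
    have n3 : x ≠ z := (h.ne _ _ _ h3).symm
    have n4 : y ≠ a := h.ne2 h1
    have n5 : x ≠ a := h.ne3 h1
    have n6 : z ≠ b := h.ne2 h2
    have n7 : y ≠ b := h.ne3 h2
    have n8 : x ≠ c := h.ne2 h3
    have n9 : z ≠ c := h.ne3 h3
    have m1 : z ≠ a := by rintro rfl; exact hn h1
    have m2 : x ≠ b := by rintro rfl; exact hn (h.rot2 h2)
    have m3 : y ≠ c := by rintro rfl; exact hn (h.rot _ _ _ h3)
    have m4 : a ≠ b := by
      rintro rfl
      exact hn (h.swap _ _ _ (h.tr _ _ _ _ (h.rot _ _ _ h1) (h.swap2 h2) n3))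
    have m5 : a ≠ c := by
      rintro rfl
      exact hn (h.tr _ _ _ _ (h.swap2 h1) (h.rot _ _ _ h3) n2)
    have m6 : b ≠ c := by
      rintro rfl
      exact hn (h.rot _ _ _ (h.tr _ _ _ _ (h.swap2 h3) (h.rot _ _ _ h2) n1))
    refine ⟨?_, ?_⟩
    · simp [Finset.insert_subset_iff, hx, hy, hz, ha, hb, hc]
    · simp [Finset.card_insert_of_notMem, n1, n2, n3, n4, n5, n6, n7, n8, n9, m1, m2, m3, m4, m5,
        m6]

/-! ### Initial counts -/

theorem T3_card (V : Finset α) :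
    (T3 r V).card = ∑ x ∈ V, ∑ y ∈ V, ∑ z ∈ V, if (rel r) x y z then 1 else 0 := by
  unfold T3
  rw [card_filter, sum_product]
  refine sum_congr rfl fun x _ => ?_
  rw [sum_product]
  rfl

theorem T3_eq_c3 (V : Finset α) : (T3 r V).card = c3 (rel r) V := by
  rw [T3_card]
  unfold c3
  refine sum_congr rfl fun x _ => ?_
  rw [card_e3]

/-- Small codegrees. -/
def CoD (l : ℕ) (V : Finset α) : Prop :=
  ∀ x ∈ V, ∀ y ∈ V, (∑ z ∈ V, if (rel r) x y z then 1 else 0) ≤ l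

theorem T3_le {l : ℕ} {V : Finset α} (hV : CoD r l V) : (T3 r V).card ≤ V.card * (V.card * l) := by
  rw [T3_card]
  refine (sum_le_sum fun x hx => sum_le_sum fun y hy => hV x hx y hy).trans ?_
  simp

theorem T4_le {l : ℕ} {V : Finset α} (hV : CoD r l V) :
    (T4 r V).card ≤ V.card * (V.card * (l * l)) := by
  have e : (T4 r V).card ≤ ∑ x ∈ V, ∑ y ∈ V, (∑ z ∈ V, if (rel r) x y z then 1 else 0) *
      (∑ w ∈ V, if (rel r) x y w then 1 else 0) := by
    unfold T4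
    rw [card_filter, sum_product]
    refine sum_le_sum fun x _ => ?_
    rw [sum_product]
    refine sum_le_sum fun y _ => ?_
    rw [sum_product, sum_mul_sum]
    refine sum_le_sum fun z _ => sum_le_sum fun w _ => ?_
    unfold f4 rel
    cases h1 : r x y z <;> cases h2 : r x y w <;> simp [h1, h2]
    split_ifs <;> omega
  refine e.trans ?_
  refine (sum_le_sum fun x hx => sum_le_sum fun y hy =>
    Nat.mul_le_mul (hV x hx y hy) (hV x hx y hy)).trans ?_
  simp

theorem T6_le {l : ℕ} {V : Finset α} (hV : CoD r l V) :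
    (T6 r V).card ≤ V.card * (V.card * (V.card * (l * (l * l)))) := by
  have e : (T6 r V).card ≤ ∑ x ∈ V, ∑ y ∈ V, ∑ z ∈ V,
      (∑ a ∈ V, if (rel r) x y a then 1 else 0) *
      ((∑ b ∈ V, if (rel r) y z b then 1 else 0) *
      (∑ c ∈ V, if (rel r) z x c then 1 else 0)) := by
    unfold T6
    rw [card_filter, sum_product]
    refine sum_le_sum fun x _ => ?_
    rw [sum_product]
    refine sum_le_sum fun y _ => ?_
    rw [sum_product]
    refine sum_le_sum fun z _ => ?_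
    rw [sum_product, sum_mul]
    refine sum_le_sum fun a _ => ?_
    rw [sum_product, sum_mul_sum, mul_sum]
    refine sum_le_sum fun b _ => ?_
    rw [mul_sum]
    refine sum_le_sum fun c _ => ?_
    unfold f6 rel
    cases h1 : r x y a <;> cases h2 : r y z b <;> cases h3 : r z x c <;> simp [h1, h2, h3]
    split_ifs <;> omega
  refine e.trans ?_
  refine (sum_le_sum fun x hx => sum_le_sum fun y hy => sum_le_sum fun z hz =>
    Nat.mul_le_mul (hV x hx y hy) (Nat.mul_le_mul (hV y hy z hz) (hV z hz x hx))).trans ?_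
  simp

theorem coD_of_poor {l : ℕ} {V : List α} (hV : V.Nodup) (h : Lin (rel r)) (hp : Poor r l V) :
    CoD r l V.toFinset := by
  intro x hx y hy
  rw [List.mem_toFinset] at hx hy
  rw [← card_filter]
  by_cases hxy : x = y
  · have : (V.toFinset.filter fun z => (rel r) x y z) = ∅ := by
      rw [Finset.filter_eq_empty_iff]
      intro z _ hR
      exact h.ne _ _ _ hR hxy
    rw [this]; simp
  · have h1 := hp x hx y hy hxy
    rw [← List.toFinset_card_of_nodup (hV.filter _), List.toFinset_filter] at h1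
    refine le_trans (card_le_card ?_) h1
    intro z hz
    rw [Finset.mem_filter] at hz ⊢
    refine ⟨hz.1, ?_⟩
    unfold onL
    have := hz.2
    unfold rel at this
    rw [this]
    simp

/-! ### The potential -/

def costF (a1 a2 a3 : ℕ) (V : Finset α) : ℕ :=
  a1 * (T3 r V).card * (V.card * (V.card * V.card)) + a2 * (T4 r V).card * (V.card * V.card) +
    a3 * (T6 r V).card

theorem exists_del (h : Lin (rel r)) (a1 a2 a3 : ℕ) {V : Finset α} (hV : V.Nonempty) :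
    ∃ v ∈ V, (costF r a1 a2 a3 (V \ {v}) : ℝ) * V.card ^ 6 ≤
      ((V \ {v}).card : ℝ) ^ 6 * costF r a1 a2 a3 V := by
  have hN1 : (1 : ℝ) ≤ V.card := by exact_mod_cast hV.card_pos
  obtain ⟨M, hM⟩ : ∃ M : ℝ, (V.card : ℝ) = M + 1 := ⟨V.card - 1, by ring⟩
  have hM0 : 0 ≤ M := by linarith
  have hcard : ∀ v ∈ V, ((V \ {v}).card : ℝ) = M := by
    intro v hv
    have := del_card hv
    have h2 : (((V \ {v}).card + 1 : ℕ) : ℝ) = V.card := by exact_mod_cast this
    push_cast at h2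
    linarith
  have e3 : ∑ v ∈ V, ((T3 r (V \ {v})).card : ℝ) = (M - 2) * (T3 r V).card := by
    have := avg3 r h V
    have h2 : ((∑ v ∈ V, (T3 r (V \ {v})).card + 3 * (T3 r V).card : ℕ) : ℝ) =
      ((V.card * (T3 r V).card : ℕ) : ℝ) := by exact_mod_cast this
    push_cast at h2
    rw [hM] at h2
    linarith
  have e4 : ∑ v ∈ V, ((T4 r (V \ {v})).card : ℝ) = (M - 3) * (T4 r V).card := by
    have := avg4 r h V
    have h2 : ((∑ v ∈ V, (T4 r (V \ {v})).card + 4 * (T4 r V).card : ℕ) : ℝ) =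
      ((V.card * (T4 r V).card : ℕ) : ℝ) := by exact_mod_cast this
    push_cast at h2
    rw [hM] at h2
    linarith
  have e6 : ∑ v ∈ V, ((T6 r (V \ {v})).card : ℝ) = (M - 5) * (T6 r V).card := by
    have := avg6 r h V
    have h2 : ((∑ v ∈ V, (T6 r (V \ {v})).card + 6 * (T6 r V).card : ℕ) : ℝ) =
      ((V.card * (T6 r V).card : ℕ) : ℝ) := by exact_mod_cast this
    push_cast at h2
    rw [hM] at h2
    linarith
  have hc : ∀ v ∈ V, (costF r a1 a2 a3 (V \ {v}) : ℝ) = a1 * M ^ 3 * (T3 r (V \ {v})).card +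
      a2 * M ^ 2 * (T4 r (V \ {v})).card + a3 * (T6 r (V \ {v})).card := by
    intro v hv
    unfold costF
    push_cast
    rw [hcard v hv]
    ring
  have hc0 : (costF r a1 a2 a3 V : ℝ) = a1 * (M + 1) ^ 3 * (T3 r V).card +
      a2 * (M + 1) ^ 2 * (T4 r V).card + a3 * (T6 r V).card := by
    unfold costF
    push_cast
    rw [hM]
    ring
  have key : ∑ v ∈ V, (costF r a1 a2 a3 (V \ {v}) : ℝ) * V.card ^ 6 ≤
      ∑ v ∈ V, ((V \ {v}).card : ℝ) ^ 6 * costF r a1 a2 a3 V := by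
    have l1 : ∑ v ∈ V, (costF r a1 a2 a3 (V \ {v}) : ℝ) * V.card ^ 6 =
        (M + 1) ^ 6 * (a1 * M ^ 3 * ((M - 2) * (T3 r V).card) +
          a2 * M ^ 2 * ((M - 3) * (T4 r V).card) + a3 * ((M - 5) * (T6 r V).card)) := by
      rw [← e3, ← e4, ← e6, ← sum_mul, hM, mul_comm]
      congr 1
      rw [sum_congr rfl hc, sum_add_distrib, sum_add_distrib, mul_sum, mul_sum, mul_sum]
    have l2 : ∑ v ∈ V, ((V \ {v}).card : ℝ) ^ 6 * costF r a1 a2 a3 V =
        (M + 1) * (M ^ 6 * (a1 * (M + 1) ^ 3 * (T3 r V).card +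
          a2 * (M + 1) ^ 2 * (T4 r V).card + a3 * (T6 r V).card)) := by
      rw [← hc0]
      have : ∀ v ∈ V, ((V \ {v}).card : ℝ) ^ 6 * (costF r a1 a2 a3 V : ℝ) =
          M ^ 6 * costF r a1 a2 a3 V := by
        intro v hv
        rw [hcard v hv]
      rw [sum_congr rfl this, sum_const, nsmul_eq_mul, hM]
    rw [l1, l2]
    have p1 : (M + 1) ^ 6 * (M ^ 3 * (M - 2)) ≤ (M + 1) * (M ^ 6 * (M + 1) ^ 3) := by
      have : 0 ≤ (M + 1) ^ 4 * M ^ 3 * (3 * M + 2) := by positivity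
      nlinarith [this]
    have p2 : (M + 1) ^ 6 * (M ^ 2 * (M - 3)) ≤ (M + 1) * (M ^ 6 * (M + 1) ^ 2) := by
      have : 0 ≤ (M + 1) ^ 3 * M ^ 2 * (6 * M ^ 2 + 8 * M + 3) := by positivity
      nlinarith [this]
    have p3 : (M + 1) ^ 6 * (M - 5) ≤ (M + 1) * M ^ 6 := by
      have : 0 ≤ (M + 1) * (15 * M ^ 4 + 40 * M ^ 3 + 45 * M ^ 2 + 24 * M + 5) := by positivity
      nlinarith [this]
    have q1 := mul_le_mul_of_nonneg_left p1 (show (0 : ℝ) ≤ a1 * (T3 r V).card by positivity)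
    have q2 := mul_le_mul_of_nonneg_left p2 (show (0 : ℝ) ≤ a2 * (T4 r V).card by positivity)
    have q3 := mul_le_mul_of_nonneg_left p3 (show (0 : ℝ) ≤ a3 * (T6 r V).card by positivity)
    linarith
  exact Finset.exists_le_of_sum_le hV key

end

end Run7.h435
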