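import Pool.Agent.Run7.h435.Shrink

/-!
# Derandomised sampling on lists
-/

set_option linter.unusedSectionVars false

namespace Run7.h435

open Finset

section

variable {σ : Type*}

/-- An element of smallest score. -/
def least (f : σ → ℕ) (d : σ) (l : List σ) : σ := l.foldl (fun s x => if f x < f s then x else s) d

theorem least_cons (f : σ → ℕ) (d x : σ) (l : List σ) :
    least f d (x :: l) = least f (if f x < f d then x else d) l := rfl

theorem least_le_d (f : σ → ℕ) : ∀ (l : List σ) (d : σ), f (least f d l) ≤ f d
  | [], d => le_rfl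
  | x :: l, d => by
    rw [least_cons]
    refine le_trans (least_le_d f l _) ?_
    split_ifs with h
    · exact h.le
    · exact le_rfl

theorem least_mem (f : σ → ℕ) : ∀ (l : List σ) (d : σ), least f d l = d ∨ least f d l ∈ l
  | [], d => Or.inl rfl
  | x :: l, d => by
    rw [least_cons]
    rcases least_mem f l (if f x < f d then x else d) with h | h
    · rw [h]
      split_ifs with h'
      · right; simp
      · left; rfl
    · right
      exact List.mem_cons_of_mem _ h

theorem least_le (f : σ → ℕ) : ∀ (l : List σ) (d x : σ), x ∈ l → f (least f d l) ≤ f x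
  | [], d, x, h => by simp at h
  | y :: l, d, x, h => by
    rw [least_cons]
    rcases List.mem_cons.1 h with h | h
    · subst h
      refine le_trans (least_le_d f l _) ?_
      split_ifs with h'
      · exact le_rfl
      · omega
    · exact least_le f l _ x h

end

variable {α : Type} [DecidableEq α] (r : α → α → α → Bool)

def costL (a : ℕ × ℕ × ℕ) (V : List α) : ℕ :=
  a.1 * ((prodL V (prodL V V)).filter (f3 r)).length * (V.length * (V.length * V.length)) +
  a.2.1 * ((prodL V (prodL V (prodL V V))).filter (f4 r)).length * (V.length * V.length) +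
  a.2.2 * ((prodL V (prodL V (prodL V (prodL V (prodL V V))))).filter (f6 r)).length

def shrinkStep (a : ℕ × ℕ × ℕ) (m : ℕ) (V : List α) : List α :=
  bif decide (V.length ≤ m) then V else
    match V.head? with
    | none => V
    | some v => least (costL r a) (delL V v) (V.map fun v => delL V v)

/-- Delete points one by one until `m` are left. -/
def shrink (l m : ℕ) (V : List α) : List α :=
  (shrinkStep r (V.length * (l * l), V.length * V.length * l,
    V.length * (V.length * V.length)) m)^[V.length] V

/-- Remove the points in bad configurations. -/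
def nobad (V : List α) : List α := V.filter fun x =>
  !((prodL V (prodL V V)).any fun p => f4 r (x, p)) &&
  !((prodL V (prodL V (prodL V (prodL V V)))).any fun p => f6 r (x, p))

theorem prodL_toFinset {β γ : Type} [DecidableEq β] [DecidableEq γ] (V : List β) (W : List γ) :
    (prodL V W).toFinset = V.toFinset ×ˢ W.toFinset := by
  ext p
  rw [List.mem_toFinset, mem_prodL, Finset.mem_product, List.mem_toFinset, List.mem_toFinset]

theorem prodL_nodup {β γ : Type} {V : List β} {W : List γ} (hV : V.Nodup) (hW : W.Nodup) :
    (prodL V W).Nodup := hV.product hW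

theorem length_filter_eq {β : Type} [DecidableEq β] {l : List β} (hl : l.Nodup) (p : β → Bool) :
    (l.filter p).length = (l.toFinset.filter fun x => p x = true).card := by
  rw [← List.toFinset_card_of_nodup (hl.filter _), List.toFinset_filter]

theorem costL_eq (a : ℕ × ℕ × ℕ) {V : List α} (hV : V.Nodup) :
    costL r a V = costF r a.1 a.2.1 a.2.2 V.toFinset := by
  unfold costL costF T3 T4 T6
  have h2 := prodL_nodup hV hV
  have h3 := prodL_nodup hV h2
  have h4 := prodL_nodup hV h3
  have h5 := prodL_nodup hV h4
  have h6 := prodL_nodup hV h5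
  rw [length_filter_eq h3, length_filter_eq h4, length_filter_eq h6,
    List.toFinset_card_of_nodup hV]
  simp only [prodL_toFinset]

theorem shrinkStep_cases (a : ℕ × ℕ × ℕ) (m : ℕ) (V : List α) :
    (V.length ≤ m ∧ shrinkStep r a m V = V) ∨ (m < V.length ∧ (∃ v ∈ V,
      shrinkStep r a m V = delL V v) ∧
      ∀ v ∈ V, costL r a (shrinkStep r a m V) ≤ costL r a (delL V v)) := by
  by_cases h : V.length ≤ m
  · left
    refine ⟨h, ?_⟩
    unfold shrinkStep
    rw [decide_eq_true h]; rfl
  · right
    push Not at h
    refine ⟨h, ?_⟩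
    cases V with
    | nil => simp at h
    | cons x V =>
      have e : shrinkStep r a m (x :: V) = least (costL r a) (delL (x :: V) x)
          ((x :: V).map fun v => delL (x :: V) v) := by
        unfold shrinkStep
        rw [decide_eq_false (not_le.2 h)]; rfl
      rw [e]
      refine ⟨?_, ?_⟩
      · rcases least_mem (costL r a) ((x :: V).map fun v => delL (x :: V) v) (delL (x :: V) x)
          with h1 | h1
        · exact ⟨x, by simp, h1⟩
        · rw [List.mem_map] at h1
          obtain ⟨v, hv, h2⟩ := h1
          exact ⟨v, hv, h2.symm⟩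
      · intro v hv
        exact least_le _ _ _ _ (List.mem_map.2 ⟨v, hv, rfl⟩)

theorem delL_sub (V : List α) (v : α) : (delL V v).Sublist V := List.filter_sublist

theorem delL_length_eq {V : List α} (hV : V.Nodup) {v : α} (hv : v ∈ V) :
    (delL V v).length + 1 = V.length := by
  have h1 := List.toFinset_card_of_nodup (hV.filter fun x => !(decide (x = v)))
  have h2 : (V.filter fun x => !(decide (x = v))) = delL V v := rfl
  rw [h2, delL_toFinset] at h1
  have h3 := del_card (V := V.toFinset) (v := v) (by rwa [List.mem_toFinset])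
  rw [List.toFinset_card_of_nodup hV] at h3
  omega

theorem shrinkStep_sub (a : ℕ × ℕ × ℕ) (m : ℕ) (V : List α) : (shrinkStep r a m V).Sublist V := by
  rcases shrinkStep_cases r a m V with ⟨_, h⟩ | ⟨_, ⟨v, _, h⟩, _⟩
  · rw [h]
  · rw [h]; exact delL_sub V v

theorem shrink_iter_sub (a : ℕ × ℕ × ℕ) (m : ℕ) (V : List α) (k : ℕ) :
    ((shrinkStep r a m)^[k] V).Sublist V := by
  induction k with
  | zero => exact List.Sublist.refl _
  | succ k ih =>
    rw [Function.iterate_succ_apply']
    exact (shrinkStep_sub r a m _).trans ih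

theorem shrink_sub (l m : ℕ) (V : List α) : (shrink r l m V).Sublist V :=
  shrink_iter_sub r _ m V _

theorem shrink_iter (h : Lin (rel r)) (a : ℕ × ℕ × ℕ) (m : ℕ) {V : List α} (hV : V.Nodup) (k : ℕ)
    (hk : m + k ≤ V.length) : ((shrinkStep r a m)^[k] V).length + k = V.length ∧
      (costL r a ((shrinkStep r a m)^[k] V) : ℝ) * V.length ^ 6 ≤
        (((shrinkStep r a m)^[k] V).length : ℝ) ^ 6 * costL r a V := by
  induction k with
  | zero => simp [mul_comm]
  | succ k ih =>
    obtain ⟨h1, h2⟩ := ih (by omega)
    rw [Function.iterate_succ_apply']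
    set W := (shrinkStep r a m)^[k] V with hW
    have hWn : W.Nodup := (shrink_iter_sub r a m V k).nodup hV
    rcases shrinkStep_cases r a m W with ⟨h3, _⟩ | ⟨h3, ⟨v, hv, h4⟩, h5⟩
    · omega
    · have h6 := delL_length_eq hWn hv
      refine ⟨by rw [h4]; omega, ?_⟩
      have hne : W.toFinset.Nonempty := ⟨v, by rwa [List.mem_toFinset]⟩
      obtain ⟨u, hu, h7⟩ := exists_del r h a.1 a.2.1 a.2.2 hne
      rw [List.mem_toFinset] at hu
      have hdn : (delL W u).Nodup := hWn.filter _
      rw [← delL_toFinset, ← costL_eq r a hWn, ← costL_eq r a hdn,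
        List.toFinset_card_of_nodup hWn, List.toFinset_card_of_nodup hdn] at h7
      have h8 := h5 u hu
      have h9 := delL_length_eq hWn hu
      have h10 : (shrinkStep r a m W).length = (delL W u).length := by rw [h4]; omega
      rw [h10]
      have h11 : (costL r a (shrinkStep r a m W) : ℝ) ≤ costL r a (delL W u) := by
        exact_mod_cast h8
      have hWpos : (0 : ℝ) < (W.length : ℝ) ^ 6 := by
        have : 0 < W.length := by omega
        positivity
      have h12 : (costL r a (shrinkStep r a m W) : ℝ) * V.length ^ 6 * (W.length : ℝ) ^ 6 ≤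
          ((delL W u).length : ℝ) ^ 6 * costL r a V * (W.length : ℝ) ^ 6 := by
        calc (costL r a (shrinkStep r a m W) : ℝ) * V.length ^ 6 * (W.length : ℝ) ^ 6
            ≤ (costL r a (delL W u) : ℝ) * V.length ^ 6 * (W.length : ℝ) ^ 6 := by
              apply mul_le_mul_of_nonneg_right _ hWpos.le
              exact mul_le_mul_of_nonneg_right h11 (by positivity)
          _ = ((costL r a (delL W u) : ℝ) * (W.length : ℝ) ^ 6) * V.length ^ 6 := by ring
          _ ≤ (((delL W u).length : ℝ) ^ 6 * costL r a W) * V.length ^ 6 :=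
              mul_le_mul_of_nonneg_right h7 (by positivity)
          _ = ((delL W u).length : ℝ) ^ 6 * (costL r a W * V.length ^ 6) := by ring
          _ ≤ ((delL W u).length : ℝ) ^ 6 * ((W.length : ℝ) ^ 6 * costL r a V) :=
              mul_le_mul_of_nonneg_left h2 (by positivity)
          _ = _ := by ring
      exact le_of_mul_le_mul_right h12 hWpos

theorem shrink_stable (a : ℕ × ℕ × ℕ) (m : ℕ) {W : List α} (hW : W.length ≤ m) (k : ℕ) :
    (shrinkStep r a m)^[k] W = W := by
  induction k with
  | zero => rfl
  | succ k ih =>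
    rw [Function.iterate_succ_apply', ih]
    rcases shrinkStep_cases r a m W with ⟨_, h⟩ | ⟨h, _⟩
    · exact h
    · omega

/-- The sample: its size and the numbers of configurations. -/
theorem shrink_spec (h : Lin (rel r)) {l m : ℕ} {V : List α} (hV : V.Nodup) (hl : 1 ≤ l)
    (hm : 1 ≤ m) (hmV : m ≤ V.length) (hp : Poor r l V) :
    (shrink r l m V).length = m ∧
    V.length * (T3 r (shrink r l m V).toFinset).card ≤ 3 * l * m ^ 3 ∧
    V.length ^ 2 * (T4 r (shrink r l m V).toFinset).card ≤ 3 * l ^ 2 * m ^ 4 ∧
    V.length ^ 3 * (T6 r (shrink r l m V).toFinset).card ≤ 3 * l ^ 3 * m ^ 6 := by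
  set a : ℕ × ℕ × ℕ := (V.length * (l * l), V.length * V.length * l,
    V.length * (V.length * V.length)) with ha
  have e1 : shrink r l m V = (shrinkStep r a m)^[V.length - m] V := by
    unfold shrink
    rw [← ha]
    have : V.length = m + (V.length - m) := by omega
    rw [this, Function.iterate_add_apply]
    have h1 := (shrink_iter r h a m hV (V.length - m) (by omega)).1
    rw [← this]
    apply shrink_stable
    omega
  obtain ⟨h1, h2⟩ := shrink_iter r h a m hV (V.length - m) (by omega)
  rw [← e1] at h1 h2
  set W := shrink r l m V with hW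
  have hWn : W.Nodup := (shrink_sub r l m V).nodup hV
  have hlen : W.length = m := by omega
  have hco := coD_of_poor r hV h hp
  have b3 := T3_le r hco
  have b4 := T4_le r hco
  have b6 := T6_le r hco
  rw [List.toFinset_card_of_nodup hV] at b3 b4 b6
  set N := V.length with hN
  have hN0 : 0 < N := by omega
  have hcV : costL r a V ≤ 3 * l ^ 3 * N ^ 6 := by
    rw [costL_eq r a hV]
    unfold costF
    rw [List.toFinset_card_of_nodup hV, ← hN, ha]
    simp only
    have c3 := Nat.mul_le_mul_left (N * (l * l) * (N * (N * N))) b3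
    have c4 := Nat.mul_le_mul_left (N * N * l * (N * N)) b4
    have c6 := Nat.mul_le_mul_left (N * (N * N)) b6
    calc N * (l * l) * (T3 r V.toFinset).card * (N * (N * N)) +
        N * N * l * (T4 r V.toFinset).card * (N * N) +
        N * (N * N) * (T6 r V.toFinset).card =
        N * (l * l) * (N * (N * N)) * (T3 r V.toFinset).card +
        N * N * l * (N * N) * (T4 r V.toFinset).card +
        N * (N * N) * (T6 r V.toFinset).card := by ring
      _ ≤ N * (l * l) * (N * (N * N)) * (N * (N * l)) + N * N * l * (N * N) * (N * (N * (l * l))) +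
        N * (N * N) * (N * (N * (N * (l * (l * l))))) := by omega
      _ = 3 * l ^ 3 * N ^ 6 := by ring
  have hcW : costL r a W ≤ 3 * l ^ 3 * m ^ 6 := by
    have h3 : (costL r a W : ℝ) * N ^ 6 ≤ (m : ℝ) ^ 6 * (3 * l ^ 3 * N ^ 6) := by
      rw [hlen] at h2
      refine h2.trans ?_
      apply mul_le_mul_of_nonneg_left _ (by positivity)
      exact_mod_cast hcV
    have h4 : costL r a W * N ^ 6 ≤ (3 * l ^ 3 * m ^ 6) * N ^ 6 := by
      have : (costL r a W : ℝ) * N ^ 6 ≤ (3 * l ^ 3 * m ^ 6) * N ^ 6 := by
        refine h3.trans (le_of_eq ?_); ring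
      exact_mod_cast this
    exact Nat.le_of_mul_le_mul_right h4 (by positivity)
  rw [costL_eq r a hWn] at hcW
  unfold costF at hcW
  rw [List.toFinset_card_of_nodup hWn, hlen, ha] at hcW
  simp only at hcW
  have hl0 : 0 < l := hl
  have hm0 : 0 < m := hm
  refine ⟨hlen, ?_, ?_, ?_⟩
  · have h5 : (N * (T3 r W.toFinset).card) * (l ^ 2 * m ^ 3) ≤ (3 * l * m ^ 3) * (l ^ 2 * m ^ 3) := by
      have e : (N * (T3 r W.toFinset).card) * (l ^ 2 * m ^ 3) =
        N * (l * l) * (T3 r W.toFinset).card * (m * (m * m)) := by ring
      rw [e]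
      refine (le_trans ?_ hcW).trans (le_of_eq ?_)
      · rw [Nat.add_assoc]; exact Nat.le_add_right _ _
      · ring
    exact Nat.le_of_mul_le_mul_right h5 (by positivity)
  · have h5 : (N ^ 2 * (T4 r W.toFinset).card) * (l * m ^ 2) ≤
        (3 * l ^ 2 * m ^ 4) * (l * m ^ 2) := by
      have e : (N ^ 2 * (T4 r W.toFinset).card) * (l * m ^ 2) =
        N * N * l * (T4 r W.toFinset).card * (m * m) := by ring
      rw [e]
      refine (le_trans ?_ hcW).trans (le_of_eq ?_)
      · rw [Nat.add_right_comm]; exact Nat.le_add_left _ _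
      · ring
    exact Nat.le_of_mul_le_mul_right h5 (by positivity)
  · have e : N ^ 3 * (T6 r W.toFinset).card = N * (N * N) * (T6 r W.toFinset).card := by ring
    rw [e]
    exact (Nat.le_add_left _ _).trans hcW

/-! ### Removing the bad points -/

theorem nobad_sub (V : List α) : (nobad r V).Sublist V := List.filter_sublist

theorem nobad_no4 (V : List α) : No4 (rel r) (nobad r V).toFinset := by
  intro x hx y hy z hz w hw h1 h2
  by_contra hne
  rw [List.mem_toFinset] at hx hy hz hw
  have s := (nobad_sub r V).subset
  unfold nobad at hx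
  rw [List.mem_filter, Bool.and_eq_true, Bool.not_eq_true', Bool.not_eq_true',
    List.any_eq_false] at hx
  refine hx.2.1 (y, z, w) ?_ ?_
  · rw [mem_prodL, mem_prodL]
    exact ⟨s hy, s hz, s hw⟩
  · unfold f4
    simp only [Bool.and_eq_true, Bool.not_eq_true', decide_eq_false_iff_not]
    exact ⟨h1, h2, hne⟩

theorem nobad_no6 (V : List α) : No6 (rel r) (nobad r V).toFinset := by
  intro x hx y hy z hz a ha b hb c hc h1 h2 h3
  by_contra hne
  rw [List.mem_toFinset] at hx hy hz ha hb hc
  have s := (nobad_sub r V).subset
  unfold nobad at hx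
  rw [List.mem_filter, Bool.and_eq_true, Bool.not_eq_true', Bool.not_eq_true',
    List.any_eq_false, List.any_eq_false] at hx
  refine hx.2.2 (y, z, a, b, c) ?_ ?_
  · rw [mem_prodL, mem_prodL, mem_prodL, mem_prodL]
    exact ⟨s hy, s hz, s ha, s hb, s hc⟩
  · unfold f6
    simp only [Bool.and_eq_true, Bool.not_eq_true']
    refine ⟨h1, h2, h3, ?_⟩
    simpa [rel] using hne

theorem nobad_length {V : List α} (hV : V.Nodup) : V.length ≤ (nobad r V).length +
    (T4 r V.toFinset).card + (T6 r V.toFinset).card := by
  have h1 : V.toFinset ⊆ (nobad r V).toFinset ∪ ((T4 r V.toFinset).image (fun p => p.1) ∪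
      (T6 r V.toFinset).image (fun p => p.1)) := by
    intro x hx
    rw [List.mem_toFinset] at hx
    rw [Finset.mem_union, Finset.mem_union, List.mem_toFinset, Finset.mem_image, Finset.mem_image]
    by_cases h4 : ((prodL V (prodL V V)).any fun p => f4 r (x, p)) = true
    · right; left
      rw [List.any_eq_true] at h4
      obtain ⟨p, hp, hf⟩ := h4
      refine ⟨(x, p), ?_, rfl⟩
      unfold T4
      rw [Finset.mem_filter]
      refine ⟨?_, hf⟩
      rw [mem_prodL, mem_prodL] at hp
      simp only [Finset.mem_product, List.mem_toFinset]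
      exact ⟨hx, hp⟩
    · by_cases h6 : ((prodL V (prodL V (prodL V (prodL V V)))).any fun p => f6 r (x, p)) = true
      · right; right
        rw [List.any_eq_true] at h6
        obtain ⟨p, hp, hf⟩ := h6
        refine ⟨(x, p), ?_, rfl⟩
        unfold T6
        rw [Finset.mem_filter]
        refine ⟨?_, hf⟩
        rw [mem_prodL, mem_prodL, mem_prodL, mem_prodL] at hp
        simp only [Finset.mem_product, List.mem_toFinset]
        exact ⟨hx, hp⟩
      · left
        unfold nobad
        rw [List.mem_filter]
        refine ⟨hx, ?_⟩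
        rw [Bool.not_eq_true] at h4 h6
        rw [h4, h6]; rfl
  have h2 := card_le_card h1
  have h3 := card_union_le (nobad r V).toFinset ((T4 r V.toFinset).image (fun p => p.1) ∪
      (T6 r V.toFinset).image (fun p => p.1))
  have h4 := card_union_le ((T4 r V.toFinset).image (fun p => p.1))
    ((T6 r V.toFinset).image (fun p => p.1))
  have h5 : ((T4 r V.toFinset).image (fun p => p.1)).card ≤ (T4 r V.toFinset).card :=
    card_image_le
  have h6 : ((T6 r V.toFinset).image (fun p => p.1)).card ≤ (T6 r V.toFinset).card :=
    card_image_le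
  have h7 : (nobad r V).toFinset.card ≤ (nobad r V).length := List.toFinset_card_le _
  rw [List.toFinset_card_of_nodup hV] at h2
  omega

theorem T3_mono {V W : Finset α} (h : V ⊆ W) : (T3 r V).card ≤ (T3 r W).card := by
  apply card_le_card
  unfold T3
  apply Finset.filter_subset_filter
  exact Finset.product_subset_product h (Finset.product_subset_product h h)

end Run7.h435
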