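import Pool.Agent.Run7.h435.Comb

/-!
# Existence of a good move
-/

set_option linter.unusedSectionVars false

namespace Run7.h435

open Finset

variable {α : Type*} [DecidableEq α] {R : α → α → α → Prop} [∀ a b c, Decidable (R a b c)]

/-- The survivors after the selection of `v`. -/
def selV (R : α → α → α → Prop) [∀ a b c, Decidable (R a b c)] (I V : Finset α) (v : α) :
    Finset α := V \ insert v (nb R I V v)

/-- The situation in which counts are exact. -/
structure Good (R : α → α → α → Prop) (W0 I V : Finset α) : Prop where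
  subI : I ⊆ W0
  subV : V ⊆ W0
  dis : ∀ x ∈ I, x ∉ V
  no4 : No4 R W0
  no6 : No6 R W0

theorem not_mem_nb (h : Lin R) {I V : Finset α} {v : α} : v ∉ nb R I V v := by
  rw [mem_nb]
  rintro ⟨_, w, _, hR⟩
  exact h.ne2 hR rfl

theorem nb_sub {I V : Finset α} {v : α} : nb R I V v ⊆ V := by
  unfold nb; exact filter_subset _ _

/-! ### Deletion -/

theorem del_card {V : Finset α} {v : α} (hv : v ∈ V) : (V \ {v}).card + 1 = V.card := by
  rw [sdiff_singleton_eq_erase]
  exact card_erase_add_one hv

theorem del_s2 (h : Lin R) {I V : Finset α} {v : α} (hv : v ∈ V) :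
    s2 R I (V \ {v}) + 2 * (nb R I V v).card = s2 R I V := by
  have h1 := s2_sdiff (R := R) h (I := I) (K := {v}) (V := V) (by simpa using hv)
  simp only [sum_singleton] at h1
  have h2 : (nb R I {v} v).card = 0 := by
    rw [card_eq_zero, eq_empty_iff_forall_notMem]
    intro x hx
    rw [mem_nb, mem_singleton] at hx
    obtain ⟨rfl, w, _, hR⟩ := hx
    exact h.ne2 hR rfl
  omega

theorem del_c3 (h : Lin R) {V : Finset α} {v : α} (hv : v ∈ V) :
    c3 R (V \ {v}) + 3 * (e3 R V v).card = c3 R V := by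
  have h1 := c3_sdiff (R := R) h (K := {v}) (V := V) (by simpa using hv) (by
    intro x hx y hy z _ hR
    rw [mem_singleton] at hx hy
    subst hx; subst hy
    exact h.ne _ _ _ hR rfl)
  simpa using h1

/-! ### Selection -/

theorem sel_card (h : Lin R) {I V : Finset α} {v : α} (hv : v ∈ V) :
    (selV R I V v).card + 1 + (nb R I V v).card = V.card := by
  unfold selV
  have h1 : insert v (nb R I V v) ⊆ V := insert_subset hv nb_sub
  have h2 := card_sdiff_add_card_eq_card h1
  rw [card_insert_of_notMem (not_mem_nb h)] at h2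
  omega

section

variable {W0 I V : Finset α}

theorem no_adj_in_nb (h : Lin R) (G : Good R W0 I V) {v x y w : α} (hv : v ∈ V)
    (hx : x ∈ nb R I V v) (hy : y ∈ nb R I V v) (hw : w ∈ W0) : ¬ R x y w := by
  intro hR
  rw [mem_nb] at hx hy
  obtain ⟨hxV, w1, hw1, h1⟩ := hx
  obtain ⟨hyV, w3, hw3, h3⟩ := hy
  have h4 : R v x y := G.no6 v (G.subV hv) x (G.subV hxV) y (G.subV hyV) w1 (G.subI hw1) w hw
    w3 (G.subI hw3) (h.rot _ _ _ h1) hR (h.swap _ _ _ (h.rot _ _ _ h3))
  have h5 := G.no4 v (G.subV hv) x (G.subV hxV) y (G.subV hyV) w1 (G.subI hw1) h4 (h.rot _ _ _ h1)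
  subst h5
  exact G.dis _ hw1 hyV

theorem sel_s2_old (h : Lin R) (G : Good R W0 I V) {v : α} (hv : v ∈ V) :
    s2 R I (selV R I V v) + 2 * ∑ u ∈ nb R I V v, (nb R I V u).card ≤ s2 R I V := by
  unfold selV
  have h1 : insert v (nb R I V v) ⊆ V := insert_subset hv nb_sub
  have h2 := s2_sdiff (R := R) h (I := I) h1
  have h3 : ∑ x ∈ insert v (nb R I V v), (nb R I (insert v (nb R I V v)) x).card ≤
      2 * (nb R I V v).card := by
    rw [sum_insert (not_mem_nb h)]
    have h4 : (nb R I (insert v (nb R I V v)) v).card ≤ (nb R I V v).card := by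
      apply card_le_card
      intro x hx
      rw [mem_nb] at hx ⊢
      exact ⟨h1 hx.1, hx.2⟩
    have h5 : ∑ x ∈ nb R I V v, (nb R I (insert v (nb R I V v)) x).card ≤
        ∑ x ∈ nb R I V v, 1 := by
      refine sum_le_sum fun x hx => ?_
      have : nb R I (insert v (nb R I V v)) x ⊆ {v} := by
        intro y hy
        rw [mem_nb, mem_insert] at hy
        rw [mem_singleton]
        obtain ⟨hy1 | hy1, w, hw, hR⟩ := hy
        · exact hy1
        · exact absurd (h.rot _ _ _ hR) (no_adj_in_nb h G hv hx hy1 (G.subI hw))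
      exact (card_le_card this).trans (by simp)
    simp only [sum_const, smul_eq_mul, mul_one] at h5
    omega
  rw [sum_insert (not_mem_nb h)] at h2
  omega

theorem sel_s2_new {v : α} :
    s2 R (insert v I) (selV R I V v) ≤ s2 R I (selV R I V v) + (e3 R V v).card := by
  unfold s2
  set V' := selV R I V v with hV'
  have hsub : V' ⊆ V := by rw [hV']; unfold selV; exact sdiff_subset
  have h1 : ∀ x ∈ V', (nb R (insert v I) V' x).card ≤ (nb R I V' x).card +
      (V'.filter fun y => R v x y).card := by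
    intro x _
    refine le_trans (card_le_card ?_) (card_union_le _ _)
    intro y hy
    rw [mem_nb] at hy
    rw [mem_union, mem_nb, mem_filter]
    obtain ⟨hyV, w, hw, hR⟩ := hy
    rw [mem_insert] at hw
    rcases hw with rfl | hw
    · exact Or.inr ⟨hyV, hR⟩
    · exact Or.inl ⟨hyV, w, hw, hR⟩
  refine (sum_le_sum h1).trans ?_
  rw [sum_add_distrib]
  apply Nat.add_le_add_left
  rw [← card_sigma]
  apply card_le_card_of_injOn (fun p => (p.1, p.2))
  · intro p hp
    rw [mem_coe, mem_sigma, mem_filter] at hp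
    rw [mem_coe, mem_e3]
    exact ⟨⟨hsub hp.1, hsub hp.2.1⟩, hp.2.2⟩
  · intro p _ q _ hpq
    simp only [Prod.mk.injEq] at hpq
    exact Sigma.ext hpq.1 (heq_of_eq hpq.2)

theorem sel_c3 (h : Lin R) (G : Good R W0 I V) {v : α} (hv : v ∈ V) :
    c3 R (selV R I V v) + 3 * ((e3 R V v).card + ∑ u ∈ nb R I V v, (e3 R V u).card) = c3 R V := by
  unfold selV
  have h1 : insert v (nb R I V v) ⊆ V := insert_subset hv nb_sub
  have h2 := c3_sdiff (R := R) h h1 (by
    intro x hx y hy z hz hR
    rw [mem_insert] at hx hy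
    rcases hx with rfl | hx
    · rcases hy with rfl | hy
      · exact h.ne _ _ _ hR rfl
      · rw [mem_nb] at hy
        obtain ⟨hyV, w, hw, h3⟩ := hy
        have h5 := G.no4 x (G.subV hv) y (G.subV hyV) z (G.subV hz) w (G.subI hw) hR
          (h.rot _ _ _ h3)
        subst h5
        exact G.dis _ hw hz
    · rcases hy with rfl | hy
      · rw [mem_nb] at hx
        obtain ⟨hxV, w, hw, h3⟩ := hx
        have h5 := G.no4 y (G.subV hv) x (G.subV hxV) z (G.subV hz) w (G.subI hw)
          (h.swap _ _ _ hR) (h.rot _ _ _ h3)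
        subst h5
        exact G.dis _ hw hz
      · exact no_adj_in_nb h G hv hx hy (G.subV hz) hR)
  rwa [sum_insert (not_mem_nb h)] at h2

/-- Existence of a good move. -/
theorem exists_move (h : Lin R) (G : Good R W0 I V) (hV : V.Nonempty) {L lam : ℕ} (hL : 1 ≤ L)
    (hlam : 1 ≤ lam) (h1 : lam * (lam - 1) * V.card ≤ L * c3 R V)
    (h2 : L * c3 R V ≤ lam * (lam + 1) * V.card) :
    (∃ v ∈ V, FF L lam V.card (s2 R I V) (c3 R V) ≤
      FF L lam (V \ {v}).card (s2 R I (V \ {v})) (c3 R (V \ {v}))) ∨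
    (∃ v ∈ V, FF L lam V.card (s2 R I V) (c3 R V) - 26 ≤
      FF L lam (selV R I V v).card (s2 R (insert v I) (selV R I V v)) (c3 R (selV R I V v))) := by
  set N : ℝ := (V.card : ℝ) with hN
  set S2 : ℝ := (s2 R I V : ℝ) with hS2
  set C3 : ℝ := (c3 R V : ℝ) with hC3
  set Q := QQ L (WW L lam N S2 C3) with hQ
  set p := pp L lam N S2 C3 with hp
  have hN0 : 0 < N := by rw [hN]; exact_mod_cast hV.card_pos
  have hS0 : 0 ≤ S2 := by rw [hS2]; positivity
  have hC0 : 0 ≤ C3 := by rw [hC3]; positivity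
  have hQ0 : 0 ≤ Q := QQ_nonneg
  have hLl : (0 : ℝ) ≤ L / lam := by positivity
  have hemp : ∀ (I' V' : Finset α), ((V'.card : ℕ) : ℝ) = 0 →
      ((s2 R I' V' : ℕ) : ℝ) = 0 ∧ ((c3 R V' : ℕ) : ℝ) = 0 := by
    intro I' V' hc
    have : V' = ∅ := card_eq_zero.1 (by exact_mod_cast hc)
    subst this
    simp [s2, c3]
  by_cases hdel : ∃ v ∈ V, p < 2 * Q * (nb R I V v).card + 3 * (Q * (L / lam)) * (e3 R V v).card
  · left
    obtain ⟨v, hv, hlt⟩ := hdel
    refine ⟨v, hv, ?_⟩
    have t := FF_tangent (L := L) (lam := lam) (N' := ((V \ {v}).card : ℝ))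
      (S2' := (s2 R I (V \ {v}) : ℝ)) (C3' := (c3 R (V \ {v}) : ℝ)) hN0 hlam hS0 hC0
      (by positivity) (by positivity) (by positivity) (hemp _ _)
    have c1 : ((V \ {v}).card : ℝ) = N - 1 := by
      have := del_card hv
      rw [hN, ← this]; push_cast; ring
    have c2 : (s2 R I (V \ {v}) : ℝ) = S2 - 2 * (nb R I V v).card := by
      have := del_s2 (R := R) h (I := I) hv
      rw [hS2, ← this]; push_cast; ring
    have c4 : (c3 R (V \ {v}) : ℝ) = C3 - 3 * (e3 R V v).card := by
      have := del_c3 (R := R) h hv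
      rw [hC3, ← this]; push_cast; ring
    rw [c1, c2, c4] at t ⊢
    rw [← hQ, ← hp] at t
    linarith
  · right
    push Not at hdel
    have av := average V (L := L) (lam := lam) hL hlam (fun u => ((nb R I V u).card : ℝ))
      (fun u => ((e3 R V u).card : ℝ)) (fun _ _ => by positivity) (fun _ _ => by positivity) hV
      (N := N) (S2 := S2) (C3 := C3) hN (by rw [hS2]; unfold s2; push_cast; rfl)
      (by rw [hC3]; unfold c3; push_cast; rfl) (by
        have : ((lam : ℝ) * (lam - 1) * N) = ((lam * (lam - 1) * V.card : ℕ) : ℝ) := by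
          push_cast [Nat.cast_sub hlam]; rw [hN]
        rw [this, hC3]
        exact_mod_cast h1) (by
        rw [hC3, hN]
        exact_mod_cast h2) hdel
    rw [← hQ, ← hp] at av
    by_contra hcon
    push Not at hcon
    have key : ∀ v ∈ V, p * (-(1 + ((nb R I V v).card : ℝ))) +
        Q * (2 * ∑ u ∈ nb R I V v, ((nb R I V u).card : ℝ) - (e3 R V v).card) +
        Q * (L / lam) * (3 * ((e3 R V v).card + ∑ u ∈ nb R I V v, ((e3 R V u).card : ℝ))) < -26 := by
      intro v hv
      have t := FF_tangent (L := L) (lam := lam) (N' := ((selV R I V v).card : ℝ))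
        (S2' := (s2 R (insert v I) (selV R I V v) : ℝ)) (C3' := (c3 R (selV R I V v) : ℝ)) hN0 hlam
        hS0 hC0 (by positivity) (by positivity) (by positivity) (hemp _ _)
      have c0 := hcon v hv
      have c1 : ((selV R I V v).card : ℝ) = N - 1 - (nb R I V v).card := by
        have := sel_card (R := R) h (I := I) hv
        rw [hN, ← this]; push_cast; ring
      have c2 : (s2 R (insert v I) (selV R I V v) : ℝ) ≤
          S2 - 2 * ∑ u ∈ nb R I V v, ((nb R I V u).card : ℝ) + (e3 R V v).card := by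
        have a1 := sel_s2_old h G hv
        have a2 := sel_s2_new (R := R) (I := I) (V := V) (v := v)
        have a3 : ((s2 R (insert v I) (selV R I V v) : ℕ) : ℝ) ≤
          (s2 R I (selV R I V v) : ℕ) + ((e3 R V v).card : ℕ) := by exact_mod_cast a2
        have a4 : ((s2 R I (selV R I V v) : ℕ) : ℝ) + 2 * ∑ u ∈ nb R I V v,
          ((nb R I V u).card : ℝ) ≤ (s2 R I V : ℕ) := by exact_mod_cast a1
        rw [hS2]
        linarith
      have c4 : (c3 R (selV R I V v) : ℝ) = C3 - 3 * ((e3 R V v).card +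
          ∑ u ∈ nb R I V v, ((e3 R V u).card : ℝ)) := by
        have := sel_c3 h G hv
        rw [hC3, ← this]; push_cast; ring
      have c5 : Q * ((s2 R (insert v I) (selV R I V v) : ℝ) - S2) ≤
          Q * (- 2 * ∑ u ∈ nb R I V v, ((nb R I V u).card : ℝ) + (e3 R V v).card) :=
        mul_le_mul_of_nonneg_left (by linarith) hQ0
      rw [← hQ, ← hp] at t
      rw [c4] at t c0
      rw [c1] at t c0
      have e1 : Q * (L / lam : ℝ) * (C3 - 3 * ((e3 R V v).card +
          ∑ u ∈ nb R I V v, ((e3 R V u).card : ℝ)) - C3) = - (Q * (L / lam) * (3 * ((e3 R V v).card +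
          ∑ u ∈ nb R I V v, ((e3 R V u).card : ℝ)))) := by ring
      rw [e1] at t
      have e2 : p * (N - 1 - ((nb R I V v).card : ℝ) - N) = p * (-(1 + ((nb R I V v).card : ℝ))) := by
        ring
      rw [e2] at t
      linarith
    have hs := sum_lt_sum_of_nonempty hV key
    have b1 : ∑ v ∈ V, ∑ u ∈ nb R I V v, ((nb R I V u).card : ℝ) =
        ∑ u ∈ V, ((nb R I V u).card : ℝ) * (nb R I V u).card := by
      have := sum_nb (R := R) h I V (fun u => (nb R I V u).card)
      exact_mod_cast this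
    have b2 : ∑ v ∈ V, ∑ u ∈ nb R I V v, ((e3 R V u).card : ℝ) =
        ∑ u ∈ V, ((nb R I V u).card : ℝ) * (e3 R V u).card := by
      have := sum_nb (R := R) h I V (fun u => (e3 R V u).card)
      exact_mod_cast this
    have b3 : ∑ v ∈ V, ((nb R I V v).card : ℝ) = S2 := by
      rw [hS2]; unfold s2; push_cast; rfl
    have b4 : ∑ v ∈ V, ((e3 R V v).card : ℝ) = C3 := by
      rw [hC3]; unfold c3; push_cast; rfl
    rw [sum_add_distrib, sum_add_distrib, ← mul_sum, ← mul_sum, ← mul_sum, ← mul_sum,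
      sum_add_distrib, sum_sub_distrib, ← mul_sum, b1, b2, b4, sum_neg_distrib, sum_add_distrib,
      b3] at hs
    simp only [sum_const, nsmul_eq_mul, mul_one] at hs
    rw [← hN] at hs
    nlinarith
  
end

end Run7.h435
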