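import Mathlib

/-! # Characteristic functions from the values of the distribution functions at finitely many points -/

set_option autoImplicit false

namespace Run7.h435.UD

open Complex Filter Finset MeasureTheory ProbabilityTheory Topology

/-- the points of a grid in `[-R, R]` -/
noncomputable def gr (R : ℝ) (J j : ℕ) : ℝ := -R + j * (2 * R / J)

/-- the indicator of `a < x` -/
noncomputable def ind (a x : ℝ) : ℝ := if a < x then 1 else 0

/-- a step function close to `exp (i ξ x)` on `(-R, R]` -/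
noncomputable def stp (ξ R : ℝ) (J : ℕ) (x : ℝ) : ℂ :=
  ∑ j ∈ range J, cexp (I * ((ξ * gr R J j : ℝ) : ℂ)) * ((ind (gr R J j) x : ℂ) - (ind (gr R J (j + 1)) x : ℂ))

lemma norm_exp_sub (x y : ℝ) : ‖cexp (I * (x : ℂ)) - cexp (I * (y : ℂ))‖ ≤ |x - y| := by
  have h1 : cexp (I * (x : ℂ)) - cexp (I * (y : ℂ)) = cexp (I * (y : ℂ)) * (cexp (I * ((x - y : ℝ) : ℂ)) - 1) := by
    rw [mul_sub, ← Complex.exp_add, mul_one]
    congr 2
    push_cast
    ring
  rw [h1, norm_mul]
  have h2 : ‖cexp (I * (y : ℂ))‖ = 1 := by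
    rw [mul_comm]; exact Complex.norm_exp_ofReal_mul_I y
  rw [h2, one_mul]
  have := Real.norm_exp_I_mul_ofReal_sub_one_le (x := x - y)
  simpa using this

lemma norm_exp_one (y : ℝ) : ‖cexp (I * (y : ℂ))‖ = 1 := by
  rw [mul_comm]; exact Complex.norm_exp_ofReal_mul_I y

lemma gr_mono {R : ℝ} (hR : 0 ≤ R) (J : ℕ) {i j : ℕ} (h : i ≤ j) : gr R J i ≤ gr R J j := by
  unfold gr
  have h1 : (i : ℝ) ≤ j := by exact_mod_cast h
  have h2 : 0 ≤ 2 * R / J := by positivity
  nlinarith

lemma gr_zero (R : ℝ) (J : ℕ) : gr R J 0 = -R := by unfold gr; simp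

lemma gr_top (R : ℝ) {J : ℕ} (hJ : 1 ≤ J) : gr R J J = R := by
  unfold gr
  have : (0 : ℝ) < J := by exact_mod_cast hJ
  field_simp
  ring

lemma stp_close {ξ R : ℝ} (hR : 0 < R) {J : ℕ} (hJ : 1 ≤ J) (x : ℝ) :
    ‖cexp (I * ((ξ * x : ℝ) : ℂ)) - stp ξ R J x‖ ≤ |ξ| * (2 * R / J) + (1 - ind (-R) x + ind R x) := by
  have hJ0 : (0 : ℝ) < J := by exact_mod_cast hJ
  have hw : 0 < 2 * R / J := by positivity
  have hη : 0 ≤ |ξ| * (2 * R / J) := by positivity
  by_cases h1 : -R < x
  · by_cases h2 : x ≤ R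
    · -- the good case
      obtain ⟨t, ht⟩ : ∃ t : ℝ, t = (x + R) / (2 * R / J) := ⟨_, rfl⟩
      have ht0 : 0 < t := by rw [ht]; exact div_pos (by linarith) hw
      have htx : t * (2 * R / J) = x + R := by rw [ht]; field_simp
      have htJ : t ≤ J := by
        by_contra hcon
        push Not at hcon
        have : (J : ℝ) * (2 * R / J) < t * (2 * R / J) := mul_lt_mul_of_pos_right hcon hw
        have e : (J : ℝ) * (2 * R / J) = 2 * R := by field_simp
        linarith
      obtain ⟨n, hn⟩ : ∃ n : ℕ, n = ⌈t⌉₊ := ⟨_, rfl⟩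
      have hn0 : 0 < n := by rw [hn]; exact Nat.ceil_pos.2 ht0
      have hn1 : t ≤ n := by rw [hn]; exact Nat.le_ceil t
      have hnJ : n ≤ J := by rw [hn]; exact Nat.ceil_le.2 htJ
      have hn2 : (n : ℝ) < t + 1 := by rw [hn]; exact Nat.ceil_lt_add_one ht0.le
      obtain ⟨j0, hj0⟩ : ∃ j0 : ℕ, n = j0 + 1 := ⟨n - 1, by omega⟩
      rw [hj0] at hn1 hn2 hnJ
      push_cast at hn1 hn2
      have g1 : gr R J j0 < x := by
        unfold gr
        have : (j0 : ℝ) * (2 * R / J) < t * (2 * R / J) := mul_lt_mul_of_pos_right (by linarith) hw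
        linarith
      have g2 : x ≤ gr R J (j0 + 1) := by
        unfold gr
        have : t * (2 * R / J) ≤ ((j0 : ℝ) + 1) * (2 * R / J) := mul_le_mul_of_nonneg_right hn1 hw.le
        push_cast
        linarith
      have hs : stp ξ R J x = cexp (I * ((ξ * gr R J j0 : ℝ) : ℂ)) := by
        unfold stp
        rw [Finset.sum_eq_single j0]
        · unfold ind
          rw [if_pos g1, if_neg (not_lt.2 g2)]
          simp
        · intro j _ hj
          rcases lt_or_gt_of_ne hj with h | h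
          · have a1 : gr R J (j + 1) < x := lt_of_le_of_lt (gr_mono hR.le J (by omega)) g1
            have a2 : gr R J j < x := lt_of_le_of_lt (gr_mono hR.le J (by omega)) g1
            unfold ind
            rw [if_pos a1, if_pos a2]
            simp
          · have a1 : ¬ gr R J (j + 1) < x := not_lt.2 (g2.trans (gr_mono hR.le J (by omega)))
            have a2 : ¬ gr R J j < x := not_lt.2 (g2.trans (gr_mono hR.le J (by omega)))
            unfold ind
            rw [if_neg a1, if_neg a2]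
            simp
        · intro h
          exact absurd (Finset.mem_range.2 (by omega)) h
      rw [hs]
      refine (norm_exp_sub _ _).trans ?_
      have e1 : ind (-R) x = 1 := by unfold ind; rw [if_pos h1]
      have e2 : ind R x = 0 := by unfold ind; rw [if_neg (not_lt.2 h2)]
      rw [e1, e2, ← mul_sub, abs_mul]
      have h3 : |x - gr R J j0| ≤ 2 * R / J := by
        rw [abs_of_nonneg (by linarith)]
        have : gr R J (j0 + 1) = gr R J j0 + 2 * R / J := by unfold gr; push_cast; ring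
        linarith
      have := mul_le_mul_of_nonneg_left h3 (abs_nonneg ξ)
      linarith
    · push Not at h2
      have hs : stp ξ R J x = 0 := by
        unfold stp
        refine Finset.sum_eq_zero fun j hj => ?_
        rw [Finset.mem_range] at hj
        have b1 : gr R J (j + 1) ≤ R := by
          rw [← gr_top R hJ]
          have := gr_mono hR.le J (show j + 1 ≤ J by omega)
          rwa [gr_top R hJ] at this ⊢
        have a1 : gr R J (j + 1) < x := lt_of_le_of_lt b1 h2
        have a2 : gr R J j < x := lt_of_le_of_lt (gr_mono hR.le J (by omega)) a1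
        unfold ind
        rw [if_pos a1, if_pos a2]
        simp
      rw [hs, sub_zero, norm_exp_one]
      have e1 : ind (-R) x = 1 := by unfold ind; rw [if_pos h1]
      have e2 : ind R x = 1 := by unfold ind; rw [if_pos h2]
      rw [e1, e2]
      linarith
  · have hs : stp ξ R J x = 0 := by
      unfold stp
      refine Finset.sum_eq_zero fun j hj => ?_
      have b0 : -R ≤ gr R J j := by
        rw [← gr_zero R J]; exact gr_mono hR.le J (by omega)
      have b1 : -R ≤ gr R J (j + 1) := by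
        rw [← gr_zero R J]; exact gr_mono hR.le J (by omega)
      have a1 : ¬ gr R J (j + 1) < x := fun h => h1 (lt_of_le_of_lt b1 h)
      have a2 : ¬ gr R J j < x := fun h => h1 (lt_of_le_of_lt b0 h)
      unfold ind
      rw [if_neg a1, if_neg a2]
      simp
    rw [hs, sub_zero, norm_exp_one]
    have e1 : ind (-R) x = 0 := by unfold ind; rw [if_neg h1]
    have e2 : ind R x = 0 := by unfold ind; rw [if_neg (fun h => h1 (by linarith))]
    rw [e1, e2]
    linarith

lemma ind_meas (a : ℝ) : Measurable (ind a) :=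
  Measurable.ite measurableSet_Ioi measurable_const measurable_const

lemma ind_int (G : Measure ℝ) [IsProbabilityMeasure G] (a : ℝ) : Integrable (ind a) G := by
  refine Integrable.of_bound (ind_meas a).aestronglyMeasurable 1 (Eventually.of_forall fun x => ?_)
  unfold ind
  split_ifs <;> simp

lemma ind_integral (G : Measure ℝ) [IsProbabilityMeasure G] (a : ℝ) : ∫ x, ind a x ∂G = G.real (Set.Ioi a) := by
  have h : ind a = (Set.Ioi a).indicator (fun _ => (1 : ℝ)) := by
    ext x
    unfold ind Set.indicator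
    simp only [Set.mem_Ioi]
  rw [h, integral_indicator_const _ measurableSet_Ioi]
  simp

/-- the characteristic function of a measure and the sums of a step function -/
lemma char_stp (G : Measure ℝ) [IsProbabilityMeasure G] {ξ R : ℝ} (hR : 0 < R) {J : ℕ} (hJ : 1 ≤ J) :
    ‖∫ x, cexp (I * ((ξ * x : ℝ) : ℂ)) ∂G - ∑ j ∈ range J, cexp (I * ((ξ * gr R J j : ℝ) : ℂ)) *
      ((G.real (Set.Ioi (gr R J j)) : ℂ) - (G.real (Set.Ioi (gr R J (j + 1))) : ℂ))‖ ≤
      |ξ| * (2 * R / J) + (1 - G.real (Set.Ioi (-R)) + G.real (Set.Ioi R)) := by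
  have hi : ∀ a, Integrable (fun x => (ind a x : ℂ)) G := fun a => (ind_int G a).ofReal
  have hI : ∀ a, ∫ x, (ind a x : ℂ) ∂G = (G.real (Set.Ioi a) : ℂ) := fun a => by
    rw [integral_complex_ofReal, ind_integral]
  have hterm : ∀ j : ℕ, Integrable (fun x => cexp (I * ((ξ * gr R J j : ℝ) : ℂ)) *
      ((ind (gr R J j) x : ℂ) - (ind (gr R J (j + 1)) x : ℂ))) G := fun j => ((hi _).sub (hi _)).const_mul _
  have h1 : ∫ x, stp ξ R J x ∂G = ∑ j ∈ range J, cexp (I * ((ξ * gr R J j : ℝ) : ℂ)) *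
      ((G.real (Set.Ioi (gr R J j)) : ℂ) - (G.real (Set.Ioi (gr R J (j + 1))) : ℂ)) := by
    unfold stp
    rw [integral_finsetSum _ fun j _ => hterm j]
    refine Finset.sum_congr rfl fun j _ => ?_
    rw [integral_const_mul, integral_sub (hi _) (hi _), hI, hI]
  have hs : Integrable (stp ξ R J) G := by
    unfold stp
    exact integrable_finsetSum _ fun j _ => hterm j
  have he : Integrable (fun x : ℝ => cexp (I * ((ξ * x : ℝ) : ℂ))) G := by
    refine Integrable.of_bound (Continuous.aestronglyMeasurable (by fun_prop)) 1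
      (Eventually.of_forall fun x => (norm_exp_one _).le)
  rw [← h1, ← integral_sub he hs]
  have hg1 : Integrable (fun x => 1 - ind (-R) x) G := (integrable_const _).sub (ind_int G _)
  have hg2 : Integrable (fun x => 1 - ind (-R) x + ind R x) G := hg1.add (ind_int G _)
  have hg : Integrable (fun x => |ξ| * (2 * R / J) + (1 - ind (-R) x + ind R x)) G :=
    (integrable_const _).add hg2
  refine (norm_integral_le_of_norm_le hg (Eventually.of_forall fun x => stp_close hR hJ x)).trans (le_of_eq ?_)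
  rw [integral_add (integrable_const _) hg2, integral_add hg1 (ind_int G _),
    integral_sub (integrable_const _) (ind_int G _), ind_integral, ind_integral]
  simp

/-- the tails of a Gaussian law -/
lemma tail_G {v : NNReal} {R : ℝ} (hR : 0 < R) :
    1 - (gaussianReal 0 v).real (Set.Ioi (-R)) + (gaussianReal 0 v).real (Set.Ioi R) ≤ v / R ^ 2 := by
  obtain ⟨G, hG⟩ : ∃ G : Measure ℝ, G = gaussianReal 0 v := ⟨_, rfl⟩
  have hprob : IsProbabilityMeasure G := by rw [hG]; infer_instance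
  have h1 := meas_ge_le_variance_div_sq (μ := gaussianReal 0 v) (X := id) (memLp_id_gaussianReal 2) hR
  rw [← hG] at h1 ⊢
  have h2 : (∫ x, id x ∂G) = 0 := by rw [hG]; exact integral_id_gaussianReal
  have h3 : Var[id; G] = v := by rw [hG]; exact variance_id_gaussianReal
  rw [h2, h3] at h1
  have h4 : 1 - G.real (Set.Ioi (-R)) = G.real (Set.Iic (-R)) := by
    have := measureReal_compl (μ := G) (s := Set.Ioi (-R)) measurableSet_Ioi
    rw [probReal_univ, Set.compl_Ioi] at this
    exact this.symm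
  rw [h4]
  have h5 : G.real (Set.Iic (-R)) + G.real (Set.Ioi R) = G.real (Set.Iic (-R) ∪ Set.Ioi R) := by
    refine (measureReal_union ?_ measurableSet_Ioi).symm
    rw [Set.disjoint_left]
    intro x hx hx'
    rw [Set.mem_Iic] at hx
    rw [Set.mem_Ioi] at hx'
    linarith
  rw [h5]
  have h6 : G.real (Set.Iic (-R) ∪ Set.Ioi R) ≤ G.real {ω | R ≤ |id ω - 0|} := by
    refine measureReal_mono ?_
    rintro x (hx | hx)
    · rw [Set.mem_Iic] at hx
      show R ≤ |id x - 0|
      rw [id, sub_zero, abs_of_nonpos (by linarith)]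
      linarith
    · rw [Set.mem_Ioi] at hx
      show R ≤ |id x - 0|
      rw [id, sub_zero, abs_of_nonneg (by linarith)]
      exact hx.le
  refine h6.trans ?_
  rw [measureReal_def]
  refine (ENNReal.toReal_mono ENNReal.ofReal_ne_top h1).trans (le_of_eq ?_)
  exact ENNReal.toReal_ofReal (by positivity)

/-- **a finite sequence whose distribution function is close to that of a Gaussian law at finitely many points** -/
lemma emp {v : NNReal} {ξ R ε : ℝ} (hR : 0 < R) {J : ℕ} (hJ : 1 ≤ J) (N : ℕ) (X : ℕ → ℝ)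
    (hX : ∀ j ≤ J, |∑ n ∈ Icc 1 N, ind (gr R J j) (X n) - N * (gaussianReal 0 v).real (Set.Ioi (gr R J j))| ≤ ε * N) :
    ‖∑ n ∈ Icc 1 N, cexp (I * ((ξ * X n : ℝ) : ℂ)) - N * cexp ((-(v * ξ ^ 2 / 2) : ℝ) : ℂ)‖ ≤
      (2 * (|ξ| * (2 * R / J)) + 2 * (v / R ^ 2) + 2 * ε * (J + 1)) * N := by
  obtain ⟨G, hG⟩ : ∃ G : Measure ℝ, G = gaussianReal 0 v := ⟨_, rfl⟩
  have hprob : IsProbabilityMeasure G := by rw [hG]; infer_instance
  have ht := tail_G (v := v) hR
  have hc := char_stp (gaussianReal 0 v) (ξ := ξ) hR hJ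
  have hch : ∫ x, cexp (I * ((ξ * x : ℝ) : ℂ)) ∂(gaussianReal 0 v) = cexp ((-(v * ξ ^ 2 / 2) : ℝ) : ℂ) := by
    have h := charFun_gaussianReal (μ := 0) (v := v) (t := ξ)
    rw [charFun_apply_real] at h
    have e : ∀ x : ℝ, cexp (I * ((ξ * x : ℝ) : ℂ)) = cexp (ξ * x * I) := fun x => by
      congr 1; push_cast; ring
    simp only [e]
    rw [h]
    congr 1
    push_cast
    ring
  rw [hch] at hc
  rw [← hG] at ht hc hX
  obtain ⟨c, hcd⟩ : ∃ c : ℕ → ℂ, c = fun j => cexp (I * ((ξ * gr R J j : ℝ) : ℂ)) := ⟨_, rfl⟩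
  have hcn : ∀ j, ‖c j‖ = 1 := fun j => by rw [hcd]; exact norm_exp_one _
  obtain ⟨C, hC⟩ : ∃ C : ℕ → ℝ, C = fun j => ∑ n ∈ Icc 1 N, ind (gr R J j) (X n) := ⟨_, rfl⟩
  obtain ⟨g, hg⟩ : ∃ g : ℕ → ℝ, g = fun j => G.real (Set.Ioi (gr R J j)) := ⟨_, rfl⟩
  have hX' : ∀ j ≤ J, |C j - N * g j| ≤ ε * N := fun j hj => by rw [hC, hg]; exact hX j hj
  have hN0 : (0 : ℝ) ≤ N := Nat.cast_nonneg _
  -- the empirical sum of the step function
  have h1 : ∑ n ∈ Icc 1 N, stp ξ R J (X n) = ∑ j ∈ range J, c j * ((C j : ℂ) - (C (j + 1) : ℂ)) := by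
    unfold stp
    rw [Finset.sum_comm]
    refine Finset.sum_congr rfl fun j _ => ?_
    rw [← Finset.mul_sum, Finset.sum_sub_distrib, hC, hcd]
    push_cast
    rfl
  have h2 : ‖∑ n ∈ Icc 1 N, cexp (I * ((ξ * X n : ℝ) : ℂ)) - ∑ n ∈ Icc 1 N, stp ξ R J (X n)‖ ≤
      |ξ| * (2 * R / J) * N + (N - C 0 + C J) := by
    rw [← Finset.sum_sub_distrib]
    refine (norm_sum_le _ _).trans ((Finset.sum_le_sum fun n _ => stp_close hR hJ (X n)).trans (le_of_eq ?_))
    rw [Finset.sum_add_distrib, Finset.sum_const, Finset.sum_add_distrib, Finset.sum_sub_distrib, Finset.sum_const,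
      Nat.card_Icc, hC]
    simp only [gr_zero, gr_top R hJ, nsmul_eq_mul]
    simp
    ring
  have h3 : ‖∑ j ∈ range J, c j * ((C j : ℂ) - (C (j + 1) : ℂ)) -
      N * ∑ j ∈ range J, c j * ((g j : ℂ) - (g (j + 1) : ℂ))‖ ≤ 2 * ε * J * N := by
    rw [Finset.mul_sum, ← Finset.sum_sub_distrib]
    refine (norm_sum_le _ _).trans ?_
    have h4 : ∀ j ∈ range J, ‖c j * ((C j : ℂ) - (C (j + 1) : ℂ)) - N * (c j * ((g j : ℂ) - (g (j + 1) : ℂ)))‖ ≤ 2 * ε * N := by
      intro j hj
      rw [Finset.mem_range] at hj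
      have e1 : c j * ((C j : ℂ) - (C (j + 1) : ℂ)) - N * (c j * ((g j : ℂ) - (g (j + 1) : ℂ))) =
          c j * (((C j - N * g j : ℝ) : ℂ) - ((C (j + 1) - N * g (j + 1) : ℝ) : ℂ)) := by push_cast; ring
      rw [e1, norm_mul, hcn, one_mul]
      refine (norm_sub_le _ _).trans ?_
      rw [Complex.norm_real, Complex.norm_real, Real.norm_eq_abs, Real.norm_eq_abs]
      have a1 := hX' j (by omega)
      have a2 := hX' (j + 1) (by omega)
      linarith
    refine (Finset.sum_le_sum h4).trans (le_of_eq ?_)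
    rw [Finset.sum_const, Finset.card_range, nsmul_eq_mul]
    ring
  have h5 : ‖(N : ℂ) * ∑ j ∈ range J, c j * ((g j : ℂ) - (g (j + 1) : ℂ)) - N * cexp ((-(v * ξ ^ 2 / 2) : ℝ) : ℂ)‖ ≤
      (|ξ| * (2 * R / J) + v / R ^ 2) * N := by
    rw [← mul_sub, norm_mul, Complex.norm_natCast, mul_comm]
    refine mul_le_mul_of_nonneg_right ?_ hN0
    rw [norm_sub_rev]
    have hcc : ‖cexp ((-(v * ξ ^ 2 / 2) : ℝ) : ℂ) - ∑ j ∈ range J, c j * ((g j : ℂ) - (g (j + 1) : ℂ))‖ ≤
        |ξ| * (2 * R / J) + (1 - G.real (Set.Ioi (-R)) + G.real (Set.Ioi R)) := by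
      rw [hcd, hg]; exact hc
    linarith
  have h6 : (N : ℝ) - C 0 + C J ≤ (v / R ^ 2) * N + 2 * ε * N := by
    have a1 := abs_le.1 (hX' 0 (Nat.zero_le _))
    have a2 := abs_le.1 (hX' J le_rfl)
    have e1 : g 0 = G.real (Set.Ioi (-R)) := by rw [hg]; simp only [gr_zero]
    have e2 : g J = G.real (Set.Ioi R) := by rw [hg]; simp only [gr_top R hJ]
    have a3 : (1 - g 0 + g J) * N ≤ (v / R ^ 2) * N := by
      refine mul_le_mul_of_nonneg_right ?_ hN0
      rw [e1, e2]; exact ht
    nlinarith [a1.1, a1.2, a2.1, a2.2]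
  have h7 := norm_sub_le_norm_sub_add_norm_sub (∑ n ∈ Icc 1 N, cexp (I * ((ξ * X n : ℝ) : ℂ)))
    (∑ n ∈ Icc 1 N, stp ξ R J (X n)) (N * cexp ((-(v * ξ ^ 2 / 2) : ℝ) : ℂ))
  have h8 := norm_sub_le_norm_sub_add_norm_sub (∑ n ∈ Icc 1 N, stp ξ R J (X n))
    ((N : ℂ) * ∑ j ∈ range J, c j * ((g j : ℂ) - (g (j + 1) : ℂ))) (N * cexp ((-(v * ξ ^ 2 / 2) : ℝ) : ℂ))
  rw [← h1] at h3
  nlinarith [h2, h3, h5, h6, h7, h8]

end Run7.h435.UD
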