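import Pool.Agent.Run7.h435.UD1
import Pool.Agent.Run7.h435.GLi

/-! # The characteristic function of the sums of gaps at small frequencies -/

set_option autoImplicit false

namespace Run7.h435.UD

open Complex Filter Finset MeasureTheory ProbabilityTheory Topology
open Run7.h435.GL (dd vs Sg law)

/-- the normalised sum of `k` gaps -/
noncomputable def Xs (h k n : ℕ) : ℝ := (∑ l ∈ range k, dd (n + l) - k) / Real.sqrt (Real.log h)

/-- the variance of the limit law -/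
noncomputable def vv (h k : ℕ) : NNReal := (Real.log k / (Real.pi ^ 2 * Real.log h)).toNNReal

lemma half_law (a ε : ℝ) (hε : 0 < ε) : ∀ᶠ h : ℕ in atTop, ∀ k : ℕ, h ≤ k → k ≤ h ^ 2 → ∀ᶠ N : ℕ in atTop,
    |∑ n ∈ Icc 1 N, ind a (Xs h k n) - N * (gaussianReal 0 (vv h k)).real (Set.Ioi a)| ≤ ε * N := by
  classical
  have hlin : IsLinearMap ℝ (fun x : EuclideanSpace ℝ (Fin 1) => x 0) := ⟨fun x y => rfl, fun a x => rfl⟩
  have hS := (convex_halfSpace_gt hlin a).addHaar_frontier volume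
  filter_upwards [law 1 2 {x | a < x 0} hS ε hε] with h hh k hk1 hk2
  obtain ⟨hpd, hN⟩ := hh (fun _ => k) ⟨fun _ => ⟨hk1, hk2⟩, fun i j hij => absurd (Subsingleton.elim i j) hij⟩
  have e1 : (multivariateGaussian 0 (Sg h (fun _ : Fin 1 => k))).real {x : EuclideanSpace ℝ (Fin 1) | a < x 0} =
      (gaussianReal 0 (vv h k)).real (Set.Ioi a) := by
    have mp := measurePreserving_eval_multivariateGaussian (μ := (0 : EuclideanSpace ℝ (Fin 1))) hpd.posSemidef (i := (0 : Fin 1))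
    have h1 := mp.measure_preimage (s := Set.Ioi a) measurableSet_Ioi.nullMeasurableSet
    have h2 : (Sg h (fun _ : Fin 1 => k) 0 0).toNNReal = vv h k := by
      unfold Sg vv
      simp
    rw [h2] at h1
    rw [measureReal_def, measureReal_def]
    exact congrArg ENNReal.toReal h1
  filter_upwards [hN, eventually_ge_atTop 1] with N h1 h2
  have hN0 : (0 : ℝ) < N := by exact_mod_cast h2
  rw [e1] at h1
  have e2 : (({n : ℕ | 1 ≤ n ∧ n ≤ N ∧ a < vs h (fun _ : Fin 1 => k) n 0}.ncard : ℕ) : ℝ) =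
      ∑ n ∈ Icc 1 N, ind a (Xs h k n) := by
    have e3 : {n : ℕ | 1 ≤ n ∧ n ≤ N ∧ a < vs h (fun _ : Fin 1 => k) n 0} =
        (((Icc 1 N).filter (fun n => a < Xs h k n) : Finset ℕ) : Set ℕ) := by
      ext n
      simp only [Set.mem_ofPred_eq, Finset.coe_filter, Finset.mem_Icc]
      constructor
      · rintro ⟨a1, a2, a3⟩
        exact ⟨⟨a1, a2⟩, a3⟩
      · rintro ⟨⟨a1, a2⟩, a3⟩
        exact ⟨a1, a2, a3⟩
    rw [e3, Set.ncard_coe_finset, Finset.card_filter]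
    push_cast
    rfl
  rw [e2] at h1
  have h3 := mul_le_mul_of_nonneg_right h1 hN0.le
  refine le_trans (le_of_eq ?_) h3
  rw [← abs_of_pos hN0, ← abs_mul, abs_of_pos hN0]
  congr 1
  field_simp

/-- two numbers for the variance -/
lemma vv_bd {h k : ℕ} (hh : 3 ≤ h) (h1 : h ≤ k) (h2 : k ≤ h ^ 2) :
    1 / Real.pi ^ 2 ≤ (vv h k : ℝ) ∧ (vv h k : ℝ) ≤ 1 := by
  have hpi := Real.pi_gt_three
  have hh0 : (3 : ℝ) ≤ h := by exact_mod_cast hh
  have hl : 0 < Real.log h := Real.log_pos (by linarith)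
  have h1' : (h : ℝ) ≤ k := by exact_mod_cast h1
  have h2' : (k : ℝ) ≤ (h : ℝ) ^ 2 := by exact_mod_cast h2
  have l1 : Real.log h ≤ Real.log k := Real.log_le_log (by linarith) h1'
  have l2 : Real.log k ≤ 2 * Real.log h := by
    have := Real.log_le_log (by linarith : (0 : ℝ) < k) h2'
    rwa [Real.log_pow] at this
  have hv : (vv h k : ℝ) = Real.log k / (Real.pi ^ 2 * Real.log h) := by
    unfold vv
    rw [Real.coe_toNNReal _ (by positivity)]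
  rw [hv]
  constructor
  · rw [div_le_div_iff₀ (by positivity) (by positivity)]
    nlinarith [sq_nonneg Real.pi]
  · rw [div_le_one (by positivity)]
    have h9 : 2 ≤ Real.pi ^ 2 := by nlinarith
    have := mul_le_mul_of_nonneg_right h9 hl.le
    linarith

lemma cf (ξ ε : ℝ) (hε : 0 < ε) : ∀ᶠ h : ℕ in atTop, ∀ k : ℕ, h ≤ k → k ≤ h ^ 2 → ∀ᶠ N : ℕ in atTop,
    ‖∑ n ∈ Icc 1 N, cexp (I * ((ξ * Xs h k n : ℝ) : ℂ))‖ ≤ (Real.exp (-(ξ ^ 2 / (2 * Real.pi ^ 2))) + ε) * N := by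
  have hpi := Real.pi_gt_three
  obtain ⟨R, hR⟩ : ∃ R : ℝ, R = 1 + 8 / ε := ⟨_, rfl⟩
  have hR1 : 1 ≤ R := by rw [hR]; have : 0 < 8 / ε := by positivity
                         linarith
  have hR0 : 0 < R := by linarith
  have hR2 : 8 / ε ≤ R ^ 2 := by
    have : 8 / ε ≤ R := by rw [hR]; linarith
    nlinarith
  obtain ⟨J, hJ⟩ : ∃ J : ℕ, J = ⌈16 * |ξ| * R / ε⌉₊ + 1 := ⟨_, rfl⟩
  have hJ1 : 1 ≤ J := by omega
  have hJ0 : (0 : ℝ) < J := by exact_mod_cast hJ1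
  have hJ2 : 16 * |ξ| * R / ε ≤ J := by
    rw [hJ]; push_cast
    linarith [Nat.le_ceil (16 * |ξ| * R / ε)]
  obtain ⟨ε', hε'⟩ : ∃ ε' : ℝ, ε' = ε / (8 * (J + 1)) := ⟨_, rfl⟩
  have hε'0 : 0 < ε' := by rw [hε']; positivity
  have hall : ∀ᶠ h : ℕ in atTop, ∀ j ∈ range (J + 1), ∀ k : ℕ, h ≤ k → k ≤ h ^ 2 → ∀ᶠ N : ℕ in atTop,
      |∑ n ∈ Icc 1 N, ind (gr R J j) (Xs h k n) - N * (gaussianReal 0 (vv h k)).real (Set.Ioi (gr R J j))| ≤ ε' * N :=
    (Filter.eventually_all_finset _).2 fun j _ => half_law (gr R J j) ε' hε'0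
  filter_upwards [hall, eventually_ge_atTop 3] with h h1 h3 k hk1 hk2
  have hN : ∀ᶠ N : ℕ in atTop, ∀ j ∈ range (J + 1),
      |∑ n ∈ Icc 1 N, ind (gr R J j) (Xs h k n) - N * (gaussianReal 0 (vv h k)).real (Set.Ioi (gr R J j))| ≤ ε' * N :=
    (Filter.eventually_all_finset _).2 fun j hj => h1 j hj k hk1 hk2
  obtain ⟨v1, v2⟩ := vv_bd h3 hk1 hk2
  filter_upwards [hN] with N h4
  have hN0 : (0 : ℝ) ≤ N := Nat.cast_nonneg _
  have h5 := emp (v := vv h k) (ξ := ξ) hR0 hJ1 N (Xs h k) (fun j hj => h4 j (Finset.mem_range.2 (by omega)))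
  have h6 : ‖(N : ℂ) * cexp ((-((vv h k : ℝ) * ξ ^ 2 / 2) : ℝ) : ℂ)‖ ≤ Real.exp (-(ξ ^ 2 / (2 * Real.pi ^ 2))) * N := by
    rw [norm_mul, Complex.norm_natCast, Complex.norm_exp_ofReal, mul_comm]
    refine mul_le_mul_of_nonneg_right (Real.exp_le_exp.2 ?_) hN0
    have := mul_le_mul_of_nonneg_right v1 (sq_nonneg ξ)
    have e : ξ ^ 2 / (2 * Real.pi ^ 2) = 1 / Real.pi ^ 2 * ξ ^ 2 / 2 := by field_simp
    rw [e]
    linarith
  have b1 : 2 * (|ξ| * (2 * R / J)) ≤ ε / 4 := by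
    have : 16 * |ξ| * R ≤ J * ε := by rwa [div_le_iff₀ hε] at hJ2
    have e : 2 * (|ξ| * (2 * R / J)) = 4 * (|ξ| * R) / J := by ring
    rw [e, div_le_iff₀ hJ0]
    linarith
  have b2 : 2 * ((vv h k : ℝ) / R ^ 2) ≤ ε / 4 := by
    have : 8 ≤ R ^ 2 * ε := by rwa [div_le_iff₀ hε] at hR2
    have e : 2 * ((vv h k : ℝ) / R ^ 2) = 2 * (vv h k : ℝ) / R ^ 2 := by ring
    rw [e, div_le_iff₀ (by positivity)]
    nlinarith
  have b3 : 2 * ε' * (J + 1) = ε / 4 := by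
    rw [hε']; field_simp; norm_num
  have h7 := norm_sub_norm_le (∑ n ∈ Icc 1 N, cexp (I * ((ξ * Xs h k n : ℝ) : ℂ)))
    ((N : ℂ) * cexp ((-((vv h k : ℝ) * ξ ^ 2 / 2) : ℝ) : ℂ))
  have h8 : (2 * (|ξ| * (2 * R / J)) + 2 * ((vv h k : ℝ) / R ^ 2) + 2 * ε' * (J + 1)) * N ≤ ε * N := by
    refine mul_le_mul_of_nonneg_right ?_ hN0
    linarith
  linarith

/-- the tails of the sums -/
lemma tails (ε : ℝ) (hε : 0 < ε) : ∃ R : ℝ, 0 < R ∧ ∀ᶠ h : ℕ in atTop, ∀ k : ℕ, h ≤ k → k ≤ h ^ 2 → ∀ᶠ N : ℕ in atTop,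
    ∑ n ∈ Icc 1 N, (1 - ind (-R) (Xs h k n) + ind R (Xs h k n)) ≤ ε * N := by
  obtain ⟨R, hR⟩ : ∃ R : ℝ, R = 1 + 2 / ε := ⟨_, rfl⟩
  have hp : 0 < 2 / ε := by positivity
  have hR1 : 1 ≤ R := by rw [hR]; linarith
  have hR0 : 0 < R := by linarith
  have hR2 : 2 / ε ≤ R ^ 2 := by
    have : 2 / ε ≤ R := by rw [hR]; linarith
    nlinarith
  refine ⟨R, hR0, ?_⟩
  filter_upwards [half_law (-R) (ε / 4) (by positivity), half_law R (ε / 4) (by positivity), eventually_ge_atTop 3]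
    with h h1 h2 h3 k hk1 hk2
  obtain ⟨v1, v2⟩ := vv_bd h3 hk1 hk2
  filter_upwards [h1 k hk1 hk2, h2 k hk1 hk2] with N h4 h5
  have hN0 : (0 : ℝ) ≤ N := Nat.cast_nonneg _
  have ht := tail_G (v := vv h k) hR0
  rw [Finset.sum_add_distrib, Finset.sum_sub_distrib, Finset.sum_const, Nat.card_Icc, nsmul_eq_mul, mul_one,
    Nat.add_sub_cancel]
  have b2 : (vv h k : ℝ) / R ^ 2 ≤ ε / 2 := by
    have : 2 ≤ R ^ 2 * ε := by rwa [div_le_iff₀ hε] at hR2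
    rw [div_le_iff₀ (by positivity)]
    nlinarith
  have b3 := mul_le_mul_of_nonneg_right (ht.trans b2) hN0
  have a1 := (abs_le.1 h4).1
  have a2 := (abs_le.1 h5).2
  nlinarith

/-- **small frequencies**: the characteristic function of the sums of `k` gaps, `H ≤ k ≤ H ^ 2` -/
theorem win (ε : ℝ) (hε : 0 < ε) : ∃ θ0 : ℝ, 0 < θ0 ∧ ∀ θ : ℝ, 0 < θ → θ < θ0 → ∃ H : ℕ, 1 ≤ H ∧ 1 / ε ≤ H ∧
    ∀ k : ℕ, H ≤ k → k ≤ H ^ 2 → ∀ᶠ N : ℕ in atTop,
      ‖∑ n ∈ Icc 1 N, cexp (I * ((θ * ∑ l ∈ range k, dd (n + l) : ℝ) : ℂ))‖ ≤ ε * N := by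
  have hpi := Real.pi_gt_three
  -- the frequency after normalisation
  obtain ⟨ξ, hξ⟩ : ∃ ξ : ℝ, ξ = 2 * Real.pi ^ 2 * (4 / ε) + 1 := ⟨_, rfl⟩
  have hp4 : 0 < 4 / ε := by positivity
  have hξ1 : 1 ≤ ξ := by
    rw [hξ]
    have : 0 < 2 * Real.pi ^ 2 * (4 / ε) := by positivity
    linarith
  have hξ2 : 2 * Real.pi ^ 2 * (4 / ε) ≤ ξ ^ 2 := by
    have : 2 * Real.pi ^ 2 * (4 / ε) ≤ ξ := by rw [hξ]; linarith
    nlinarith
  have hexp : Real.exp (-(ξ ^ 2 / (2 * Real.pi ^ 2))) ≤ ε / 4 := by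
    have h1 : 4 / ε ≤ ξ ^ 2 / (2 * Real.pi ^ 2) := by
      rw [le_div_iff₀ (by positivity)]; linarith
    have h2 : 4 / ε ≤ Real.exp (ξ ^ 2 / (2 * Real.pi ^ 2)) := by
      have := Real.add_one_le_exp (ξ ^ 2 / (2 * Real.pi ^ 2))
      linarith
    rw [Real.exp_neg]
    calc (Real.exp (ξ ^ 2 / (2 * Real.pi ^ 2)))⁻¹ ≤ (4 / ε)⁻¹ := inv_anti₀ hp4 h2
      _ = ε / 4 := by rw [inv_div]
  obtain ⟨R, hR0, hR⟩ := tails (ε / 16) (by positivity)
  obtain ⟨M, hM⟩ := ((cf ξ (ε / 4) (by positivity)).and hR).exists_forall_of_atTop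
  obtain ⟨δ, hδ⟩ : ∃ δ : ℝ, δ = ε / (8 * R) := ⟨_, rfl⟩
  have hδ0 : 0 < δ := by rw [hδ]; positivity
  obtain ⟨B, hB⟩ : ∃ B : ℝ, B = M + 1 / ε + 4 := ⟨_, rfl⟩
  have hM0 : (0 : ℝ) ≤ M := Nat.cast_nonneg _
  have hinv : 0 < 1 / ε := by positivity
  have hB4 : 4 ≤ B := by rw [hB]; linarith
  refine ⟨min (ξ / B) (min 1 (2 * ξ * δ)), by positivity, fun θ hθ hθ0 => ?_⟩
  have t1 : θ < ξ / B := lt_of_lt_of_le hθ0 (min_le_left _ _)
  have t2 : θ < 1 := lt_of_lt_of_le hθ0 ((min_le_right _ _).trans (min_le_left _ _))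
  have t3 : θ < 2 * ξ * δ := lt_of_lt_of_le hθ0 ((min_le_right _ _).trans (min_le_right _ _))
  have t4 : B < ξ / θ := by
    rw [lt_div_iff₀ (by linarith)] at t1
    rw [lt_div_iff₀ hθ]
    linarith
  obtain ⟨E, hE⟩ : ∃ E : ℝ, E = Real.exp ((ξ / θ) ^ 2) := ⟨_, rfl⟩
  have hEB : B ≤ E := by
    rw [hE]
    have h1 := Real.add_one_le_exp ((ξ / θ) ^ 2)
    nlinarith
  obtain ⟨H, hH⟩ : ∃ H : ℕ, H = ⌈E⌉₊ := ⟨_, rfl⟩
  have hHE : E ≤ H := by rw [hH]; exact Nat.le_ceil E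
  have hHE2 : (H : ℝ) < E + 1 := by rw [hH]; exact Nat.ceil_lt_add_one (by linarith)
  have hHM : M ≤ H := by
    have : (M : ℝ) ≤ H := by linarith
    exact_mod_cast this
  have hH1 : 1 ≤ H := by
    have : (1 : ℝ) ≤ H := by linarith
    exact_mod_cast this
  refine ⟨H, hH1, by linarith, fun k hk1 hk2 => ?_⟩
  obtain ⟨hc, ht⟩ := hM H hHM
  -- the square root
  obtain ⟨r, hr⟩ : ∃ r : ℝ, r = Real.sqrt (Real.log H) := ⟨_, rfl⟩
  have hE0 : 0 < E := by linarith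
  have hl1 : (ξ / θ) ^ 2 ≤ Real.log H := by
    have := Real.log_le_log hE0 hHE
    rwa [hE, Real.log_exp] at this
  have hl2 : Real.log H ≤ (ξ / θ) ^ 2 + 1 := by
    have h1 : (H : ℝ) ≤ E * Real.exp 1 := by
      have := Real.add_one_le_exp (1 : ℝ)
      nlinarith
    have h2 := Real.log_le_log (by linarith : (0 : ℝ) < H) h1
    rwa [hE, ← Real.exp_add, Real.log_exp] at h2
  have hl0 : 0 ≤ Real.log H := (sq_nonneg _).trans hl1
  have hrr : r ^ 2 = Real.log H := by rw [hr]; exact Real.sq_sqrt hl0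
  have hr0 : 0 ≤ r := by rw [hr]; exact Real.sqrt_nonneg _
  have hrpos : 0 < r := by
    rcases hr0.lt_or_eq with h | h
    · exact h
    · exfalso
      rw [← h] at hrr
      have : 0 < (ξ / θ) ^ 2 := by positivity
      nlinarith
  have hq1 : ξ ≤ θ * r := by
    have h1 : (ξ / θ) ^ 2 ≤ r ^ 2 := by rw [hrr]; exact hl1
    have h2 : ξ / θ ≤ r := by
      rw [← abs_of_nonneg hr0, ← abs_of_nonneg (show 0 ≤ ξ / θ by positivity)]
      exact sq_le_sq.1 h1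
    rwa [div_le_iff₀ hθ, mul_comm] at h2
  have hq2 : θ * r ≤ ξ + δ := by
    have h1 : (θ * r) ^ 2 ≤ (ξ + δ) ^ 2 := by
      have e1 : (θ * r) ^ 2 = θ ^ 2 * Real.log H := by rw [mul_pow, hrr]
      have e2 : θ ^ 2 * Real.log H ≤ θ ^ 2 * ((ξ / θ) ^ 2 + 1) := mul_le_mul_of_nonneg_left hl2 (sq_nonneg _)
      have e3 : θ ^ 2 * ((ξ / θ) ^ 2 + 1) = ξ ^ 2 + θ ^ 2 := by field_simp
      nlinarith
    have h2 := sq_le_sq.1 h1
    rwa [abs_of_nonneg (by positivity), abs_of_nonneg (by positivity)] at h2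
  filter_upwards [hc k hk1 hk2, ht k hk1 hk2] with N h1 h2
  have hN0 : (0 : ℝ) ≤ N := Nat.cast_nonneg _
  -- remove the constant
  have e1 : ∑ n ∈ Icc 1 N, cexp (I * ((θ * ∑ l ∈ range k, dd (n + l) : ℝ) : ℂ)) =
      cexp (I * ((θ * k : ℝ) : ℂ)) * ∑ n ∈ Icc 1 N, cexp (I * ((θ * r * Xs H k n : ℝ) : ℂ)) := by
    rw [Finset.mul_sum]
    refine Finset.sum_congr rfl fun n _ => ?_
    rw [← Complex.exp_add]
    congr 1
    have : θ * r * Xs H k n = θ * (∑ l ∈ range k, dd (n + l) - k) := by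
      unfold Xs
      rw [← hr]
      field_simp
    rw [this]
    push_cast
    ring
  rw [e1, norm_mul, norm_exp_one, one_mul]
  have h3 : ‖∑ n ∈ Icc 1 N, cexp (I * ((θ * r * Xs H k n : ℝ) : ℂ)) - ∑ n ∈ Icc 1 N, cexp (I * ((ξ * Xs H k n : ℝ) : ℂ))‖ ≤
      δ * R * N + 2 * ∑ n ∈ Icc 1 N, (1 - ind (-R) (Xs H k n) + ind R (Xs H k n)) := by
    rw [← Finset.sum_sub_distrib, Finset.mul_sum]
    have e2 : δ * R * N = ∑ n ∈ Icc 1 N, δ * R := by
      rw [Finset.sum_const, Nat.card_Icc, nsmul_eq_mul, Nat.add_sub_cancel]; ring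
    rw [e2, ← Finset.sum_add_distrib]
    refine (norm_sum_le _ _).trans (Finset.sum_le_sum fun n _ => ?_)
    obtain ⟨x, hx⟩ : ∃ x : ℝ, x = Xs H k n := ⟨_, rfl⟩
    rw [← hx]
    by_cases hb : -R < x ∧ x ≤ R
    · have a1 : ind (-R) x = 1 := by unfold ind; rw [if_pos hb.1]
      have a2 : ind R x = 0 := by unfold ind; rw [if_neg (not_lt.2 hb.2)]
      rw [a1, a2]
      refine (norm_exp_sub _ _).trans ?_
      rw [← sub_mul, abs_mul, abs_of_nonneg (by linarith : 0 ≤ θ * r - ξ)]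
      have a3 : |x| ≤ R := abs_le.2 ⟨hb.1.le, hb.2⟩
      have a4 : (θ * r - ξ) * |x| ≤ δ * R := mul_le_mul (by linarith) a3 (abs_nonneg _) hδ0.le
      linarith
    · have a1 : (1 : ℝ) ≤ 1 - ind (-R) x + ind R x := by
        unfold ind
        by_cases c1 : -R < x
        · have c2 : R < x := by
            by_contra c3
            exact hb ⟨c1, not_lt.1 c3⟩
          rw [if_pos c1, if_pos c2]
          norm_num
        · rw [if_neg c1, if_neg (fun c => c1 (by linarith))]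
          norm_num
      have a2 := norm_sub_le (cexp (I * ((θ * r * x : ℝ) : ℂ))) (cexp (I * ((ξ * x : ℝ) : ℂ)))
      rw [norm_exp_one, norm_exp_one] at a2
      have a3 : 0 < δ * R := by positivity
      linarith
  have h4 := norm_sub_norm_le (∑ n ∈ Icc 1 N, cexp (I * ((θ * r * Xs H k n : ℝ) : ℂ)))
    (∑ n ∈ Icc 1 N, cexp (I * ((ξ * Xs H k n : ℝ) : ℂ)))
  have h5 : δ * R = ε / 8 := by rw [hδ]; field_simp
  rw [h5] at h3
  have h6 := mul_le_mul_of_nonneg_right hexp hN0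
  nlinarith

end Run7.h435.UD
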