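import Pool.Agent.Run7.h435.UD2
import Pool.Agent.Run7.h435.GLh
import Pool.Agent.W565.MOFS

/-! # The displacements of the zeros modulo `s` -/

set_option autoImplicit false

namespace Run7.h435.UD

open Complex Filter Finset MeasureTheory ProbabilityTheory Topology
open SG (ord NZ)
open Run7.h435.GL (dd log_two_pi)
open Pool.Agent.X112.GS (yy inc few_wide gap_close sum_inc)
open Pool.Agent.H469R2.NK (vdcH)

/-- the normalised zeros -/
noncomputable def zz (n : ℕ) : ℝ := ord n / (2 * Real.pi) * Real.log (ord n / (2 * Real.pi * Real.exp 1)) + 11 / 8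

/-- the increments of the normalised zeros are close to the gaps `dd` -/
lemma close_zz (L : ℕ) (K η : ℝ) (hK : 0 < K) (hη : 0 < η) : ∃ n1 : ℕ, 1 ≤ n1 ∧ ∀ n, n1 ≤ n →
    (∀ l < L, |inc yy (n + l)| ≤ K) → ∀ k ≤ L, |∑ l ∈ range k, dd (n + l) - (zz (n + k) - zz n)| ≤ η := by
  have hpi := Real.pi_pos
  obtain ⟨ε, hε⟩ : ∃ ε : ℝ, ε = η / (2 * (L + 1)) := ⟨_, rfl⟩
  have hε0 : 0 < ε := by rw [hε]; positivity
  have hord : Tendsto ord atTop atTop := Pool.Agent.Y743.LR.ord_tendsto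
  have hlog : Tendsto (fun n => Real.log (ord n)) atTop atTop := Real.tendsto_log_atTop.comp hord
  obtain ⟨n1, hn11, hn1⟩ := gap_close K ε hK hε0 L
  obtain ⟨n2, hn2⟩ := ((hlog.eventually_ge_atTop ((K + ε) / ε)).and (hord.eventually_ge_atTop 3)).exists_forall_of_atTop
  refine ⟨max n1 n2, hn11.trans (le_max_left _ _), fun n hn hw k hk => ?_⟩
  obtain ⟨-, a2⟩ := hn1 n ((le_max_left _ _).trans hn)
  obtain ⟨-, a4⟩ := a2 hw
  have hstep : ∀ l < L, |dd (n + l) - inc zz (n + l)| ≤ 2 * ε := by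
    intro l hl
    obtain ⟨b1, b2⟩ := hn2 (n + l) (((le_max_right _ _).trans hn).trans (Nat.le_add_right _ _))
    obtain ⟨c1, c2⟩ := hn2 (n + l + 1) (((le_max_right _ _).trans hn).trans (by omega))
    have h1 := a4 l hl.le l hl le_rfl
    obtain ⟨g, hg⟩ : ∃ g : ℝ, g = ord (n + l + 1) - ord (n + l) := ⟨_, rfl⟩
    have hl0 : 0 < Real.log (ord (n + l)) := lt_of_lt_of_le (by positivity) b1
    have p1 : 0 < ord (n + l) := by linarith
    have p2 : 0 < ord (n + l + 1) := by linarith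
    have e1 : dd (n + l) - inc zz (n + l) = ((ord (n + l + 1) - ord (n + l)) * Real.log (ord (n + l)) / (2 * Real.pi) -
        inc yy (n + l)) + g / (2 * Real.pi) := by
      unfold inc zz yy dd
      rw [Real.log_div p1.ne' (by positivity), Real.log_div p2.ne' (by positivity), Real.log_div p1.ne' (by positivity),
        Real.log_mul (by positivity) (Real.exp_pos _).ne', Real.log_exp, hg]
      field_simp
      ring
    have h2 : |g| * Real.log (ord (n + l)) / (2 * Real.pi) ≤ K + ε := by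
      have h3 := hw l hl
      have h4 := abs_sub_abs_le_abs_sub ((ord (n + l + 1) - ord (n + l)) * Real.log (ord (n + l)) / (2 * Real.pi))
        (inc yy (n + l))
      have h5 : |(ord (n + l + 1) - ord (n + l)) * Real.log (ord (n + l)) / (2 * Real.pi)| =
          |g| * Real.log (ord (n + l)) / (2 * Real.pi) := by
        rw [abs_div, abs_mul, abs_of_pos hl0, abs_of_pos (by positivity : 0 < 2 * Real.pi), hg]
      rw [h5] at h4
      linarith
    have h3 : |g / (2 * Real.pi)| ≤ ε := by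
      rw [abs_div, abs_of_pos (by positivity : 0 < 2 * Real.pi)]
      rw [div_le_iff₀ hε0] at b1
      have h4 : |g| / (2 * Real.pi) * Real.log (ord (n + l)) ≤ Real.log (ord (n + l)) * ε := by
        refine le_trans (le_of_eq ?_) (h2.trans b1)
        ring
      rw [mul_comm (Real.log _)] at h4
      exact le_of_mul_le_mul_right h4 hl0
    rw [e1]
    refine (abs_add_le _ _).trans ?_
    linarith
  rw [← sum_inc zz n k, ← Finset.sum_sub_distrib]
  refine (Finset.abs_sum_le_sum_abs _ _).trans ?_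
  have h1 : ∑ l ∈ range k, |dd (n + l) - inc zz (n + l)| ≤ ∑ l ∈ range k, 2 * ε :=
    Finset.sum_le_sum fun l hl => hstep l (by rw [Finset.mem_range] at hl; omega)
  refine h1.trans ?_
  rw [Finset.sum_const, Finset.card_range, nsmul_eq_mul, hε]
  have h2 : (k : ℝ) ≤ L := by exact_mod_cast hk
  have h3 : (k : ℝ) * (2 * (η / (2 * (L + 1)))) = η * (k / (L + 1)) := by field_simp
  rw [h3]
  apply mul_le_of_le_one_right hη.le
  rw [div_le_one (by positivity)]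
  linarith

/-- the characteristic function of the increments of the normalised zeros -/
theorem winz (ε : ℝ) (hε : 0 < ε) : ∃ θ0 : ℝ, 0 < θ0 ∧ ∀ θ : ℝ, 0 < θ → θ < θ0 → ∃ H : ℕ, 1 ≤ H ∧ 1 / ε ≤ H ∧
    ∃ N0 : ℕ, ∀ N : ℕ, N0 ≤ N → ∀ k : ℕ, H ≤ k → k ≤ H ^ 2 →
      ‖∑ n ∈ Icc 1 N, cexp (I * ((θ * (zz (n + k) - zz n) : ℝ) : ℂ))‖ ≤ ε * N := by
  classical
  obtain ⟨ε', hε'⟩ : ∃ ε' : ℝ, ε' = ε / 8 := ⟨_, rfl⟩
  have hε'0 : 0 < ε' := by rw [hε']; positivity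
  obtain ⟨θ0, hθ0, hw⟩ := win ε' hε'0
  refine ⟨min θ0 1, by positivity, fun θ hθ hθ1 => ?_⟩
  have u1 : θ < θ0 := lt_of_lt_of_le hθ1 (min_le_left _ _)
  have u2 : θ < 1 := lt_of_lt_of_le hθ1 (min_le_right _ _)
  obtain ⟨H, hH1, hH2, hH⟩ := hw θ hθ u1
  obtain ⟨K, hK, hfw⟩ := few_wide ε' hε'0 (H ^ 2)
  obtain ⟨n1, hn11, hn1⟩ := close_zz (H ^ 2) K ε' hK hε'0
  have hall : ∀ᶠ N : ℕ in atTop, ∀ k ∈ Icc H (H ^ 2),
      ‖∑ n ∈ Icc 1 N, cexp (I * ((θ * ∑ l ∈ range k, dd (n + l) : ℝ) : ℂ))‖ ≤ ε' * N :=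
    (Filter.eventually_all_finset _).2 fun k hk => hH k (Finset.mem_Icc.1 hk).1 (Finset.mem_Icc.1 hk).2
  have hbig : ∀ᶠ N : ℕ in atTop, (2 * (n1 : ℝ)) ≤ ε' * N :=
    (tendsto_natCast_atTop_atTop.const_mul_atTop hε'0).eventually_ge_atTop _
  obtain ⟨N0, hN0⟩ := (hall.and (hfw.and hbig)).exists_forall_of_atTop
  refine ⟨H, hH1, ?_, N0, fun N hN k hk1 hk2 => ?_⟩
  · refine le_trans ?_ hH2
    apply one_div_le_one_div_of_le hε'0
    rw [hε']; linarith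
  obtain ⟨c1, c2, c3⟩ := hN0 N hN
  have d1 := c1 k (Finset.mem_Icc.2 ⟨hk1, hk2⟩)
  have hNn : (0 : ℝ) ≤ N := Nat.cast_nonneg _
  obtain ⟨W, hW⟩ : ∃ W : ℕ → Prop, W = fun n => ¬ ∀ l < H ^ 2, |inc yy (n + l)| ≤ K := ⟨_, rfl⟩
  have c2' : (((Icc 1 N).filter W).card : ℝ) ≤ ε' * N := by
    refine le_trans (le_of_eq ?_) c2
    rw [hW]
    congr!
  have h3 : ‖∑ n ∈ Icc 1 N, cexp (I * ((θ * (zz (n + k) - zz n) : ℝ) : ℂ)) -
      ∑ n ∈ Icc 1 N, cexp (I * ((θ * ∑ l ∈ range k, dd (n + l) : ℝ) : ℂ))‖ ≤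
      ∑ n ∈ Icc 1 N, (ε' + ((if n < n1 then (2 : ℝ) else 0) + (if W n then (2 : ℝ) else 0))) := by
    rw [← Finset.sum_sub_distrib]
    refine (norm_sum_le _ _).trans (Finset.sum_le_sum fun n _ => ?_)
    have hb := norm_sub_le (cexp (I * ((θ * (zz (n + k) - zz n) : ℝ) : ℂ)))
      (cexp (I * ((θ * ∑ l ∈ range k, dd (n + l) : ℝ) : ℂ)))
    rw [norm_exp_one, norm_exp_one] at hb
    have q1 : (0 : ℝ) ≤ if n < n1 then (2 : ℝ) else 0 := by split_ifs <;> norm_num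
    have q2 : (0 : ℝ) ≤ if W n then (2 : ℝ) else 0 := by split_ifs <;> norm_num
    by_cases r1 : n < n1
    · rw [if_pos r1]
      linarith
    · by_cases r2 : W n
      · rw [if_pos r2]
        linarith
      · have r3 : ∀ l < H ^ 2, |inc yy (n + l)| ≤ K := by
          rw [hW] at r2
          exact not_not.1 r2
        have r4 := hn1 n (not_lt.1 r1) r3 k hk2
        refine (norm_exp_sub _ _).trans ?_
        rw [← mul_sub, abs_mul, abs_of_pos hθ, abs_sub_comm]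
        have r5 : θ * |∑ l ∈ range k, dd (n + l) - (zz (n + k) - zz n)| ≤ 1 * ε' :=
          mul_le_mul u2.le r4 (abs_nonneg _) zero_le_one
        linarith
  rw [Finset.sum_add_distrib, Finset.sum_add_distrib, Finset.sum_const, Nat.card_Icc, nsmul_eq_mul,
    Nat.add_sub_cancel] at h3
  have h4 : ∑ n ∈ Icc 1 N, (if n < n1 then (2 : ℝ) else 0) ≤ 2 * n1 := by
    rw [← Finset.sum_filter, Finset.sum_const, nsmul_eq_mul, mul_comm]
    have : ((Icc 1 N).filter (fun n => n < n1)).card ≤ n1 := by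
      refine (Finset.card_le_card (t := range n1) fun n hn => ?_).trans (Finset.card_range _).le
      rw [Finset.mem_filter] at hn
      exact Finset.mem_range.2 hn.2
    have : (((Icc 1 N).filter (fun n => n < n1)).card : ℝ) ≤ n1 := by exact_mod_cast this
    linarith
  have h5 : ∑ n ∈ Icc 1 N, (if W n then (2 : ℝ) else 0) ≤ 2 * (ε' * N) := by
    rw [← Finset.sum_filter, Finset.sum_const, nsmul_eq_mul, mul_comm]
    linarith
  have h6 := norm_sub_norm_le (∑ n ∈ Icc 1 N, cexp (I * ((θ * (zz (n + k) - zz n) : ℝ) : ℂ)))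
    (∑ n ∈ Icc 1 N, cexp (I * ((θ * ∑ l ∈ range k, dd (n + l) : ℝ) : ℂ)))
  have h7 : ε = 8 * ε' := by rw [hε']; ring
  rw [h7]
  nlinarith

/-- **the exponential sums over the normalised zeros, with all linear phases** -/
theorem weyl (ε : ℝ) (hε : 0 < ε) (hε1 : ε ≤ 1) : ∃ θ0 : ℝ, 0 < θ0 ∧ ∀ θ : ℝ, 0 < θ → θ < θ0 → ∃ N0 : ℕ, ∀ N : ℕ, N0 ≤ N →
    ∀ α : ℝ, ‖∑ n ∈ Icc 1 N, cexp (I * ((α * n + θ * zz n : ℝ) : ℂ))‖ ≤ ε * N := by
  obtain ⟨δ, hδ⟩ : ∃ δ : ℝ, δ = ε ^ 2 / 16 := ⟨_, rfl⟩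
  have hδ0 : 0 < δ := by rw [hδ]; positivity
  obtain ⟨θ0, hθ0, hw⟩ := winz δ hδ0
  refine ⟨θ0, hθ0, fun θ hθ hθ1 => ?_⟩
  obtain ⟨H, hH1, hH2, N0, hN0⟩ := hw θ hθ hθ1
  refine ⟨N0 + H ^ 2 + 1, fun N hN α => ?_⟩
  obtain ⟨z, hz⟩ : ∃ z : ℕ → ℂ, z = fun n => cexp (I * ((α * ((n + 1 : ℕ) : ℝ) + θ * zz (n + 1) : ℝ) : ℂ)) := ⟨_, rfl⟩
  have hz1 : ∀ n, ‖z n‖ ≤ 1 := fun n => by rw [hz]; exact (norm_exp_one _).le
  have hv := vdcH z hz1 N (H ^ 2)
  have hH0 : (1 : ℝ) ≤ H := by exact_mod_cast hH1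
  have hN1 : (1 : ℝ) ≤ N := by exact_mod_cast (by omega : 1 ≤ N)
  have hNH : (H : ℝ) ^ 2 ≤ N := by exact_mod_cast (by omega : H ^ 2 ≤ N)
  have hshift : ∀ (M : ℕ) (f : ℕ → ℂ), ∑ n ∈ range M, f (n + 1) = ∑ n ∈ Icc 1 M, f n := by
    intro M f
    rw [Finset.range_eq_Ico, Finset.sum_Ico_add' f 0 M 1]
    rfl
  have hzS : ∑ n ∈ range N, z n = ∑ n ∈ Icc 1 N, cexp (I * ((α * n + θ * zz n : ℝ) : ℂ)) := by
    rw [hz]
    exact hshift N (fun n => cexp (I * ((α * n + θ * zz n : ℝ) : ℂ)))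
  -- the correlations
  have hcor : ∀ l, ‖∑ n ∈ range (N - l), z (n + l) * (starRingEnd ℂ) (z n)‖ =
      ‖∑ n ∈ Icc 1 (N - l), cexp (I * ((θ * (zz (n + l) - zz n) : ℝ) : ℂ))‖ := by
    intro l
    have e1 : ∑ n ∈ range (N - l), z (n + l) * (starRingEnd ℂ) (z n) =
        cexp (I * ((α * l : ℝ) : ℂ)) * ∑ n ∈ Icc 1 (N - l), cexp (I * ((θ * (zz (n + l) - zz n) : ℝ) : ℂ)) := by
      rw [← hshift (N - l) (fun n => cexp (I * ((θ * (zz (n + l) - zz n) : ℝ) : ℂ))), Finset.mul_sum]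
      refine Finset.sum_congr rfl fun n _ => ?_
      rw [hz]
      simp only
      rw [← Complex.exp_conj, map_mul, Complex.conj_I, Complex.conj_ofReal, ← Complex.exp_add, ← Complex.exp_add]
      congr 1
      rw [show n + l + 1 = n + 1 + l by ring]
      push_cast
      ring
    rw [e1, norm_mul, norm_exp_one, one_mul]
  simp only [hcor] at hv
  have hsum : ∑ l ∈ Ico 1 (H ^ 2), ‖∑ n ∈ Icc 1 (N - l), cexp (I * ((θ * (zz (n + l) - zz n) : ℝ) : ℂ))‖ ≤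
      ∑ l ∈ Ico 1 (H ^ 2), ((if l < H then (N : ℝ) else 0) + δ * N) := by
    refine Finset.sum_le_sum fun l hl => ?_
    rw [Finset.mem_Ico] at hl
    have hNl : ((N - l : ℕ) : ℝ) ≤ N := by exact_mod_cast Nat.sub_le _ _
    by_cases h1 : l < H
    · rw [if_pos h1]
      refine (norm_sum_le _ _).trans ?_
      simp only [norm_exp_one]
      rw [Finset.sum_const, Nat.card_Icc, nsmul_eq_mul, mul_one, Nat.add_sub_cancel]
      have : 0 ≤ δ * N := by positivity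
      linarith
    · rw [if_neg h1, zero_add]
      refine (hN0 (N - l) (by omega) l (not_lt.1 h1) hl.2.le).trans ?_
      exact mul_le_mul_of_nonneg_left hNl hδ0.le
  have hsum2 : ∑ l ∈ Ico 1 (H ^ 2), ((if l < H then (N : ℝ) else 0) + δ * N) ≤ H * N + (H : ℝ) ^ 2 * (δ * N) := by
    rw [Finset.sum_add_distrib]
    apply add_le_add
    · rw [← Finset.sum_filter, Finset.sum_const, nsmul_eq_mul]
      refine mul_le_mul_of_nonneg_right ?_ (by linarith)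
      have : ((Ico 1 (H ^ 2)).filter (fun l => l < H)).card ≤ H := by
        refine (Finset.card_le_card (t := range H) fun n hn => ?_).trans (Finset.card_range _).le
        rw [Finset.mem_filter] at hn
        exact Finset.mem_range.2 hn.2
      exact_mod_cast this
    · rw [Finset.sum_const, nsmul_eq_mul, Nat.card_Ico]
      refine mul_le_mul_of_nonneg_right ?_ (by positivity)
      have : ((H ^ 2 - 1 : ℕ) : ℝ) ≤ ((H ^ 2 : ℕ) : ℝ) := by exact_mod_cast Nat.sub_le _ _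
      rwa [Nat.cast_pow] at this
  rw [← hzS]
  obtain ⟨Y, hY⟩ : ∃ Y : ℝ, Y = ‖∑ n ∈ range N, z n‖ := ⟨_, rfl⟩
  rw [← hY] at hv ⊢
  have hY0 : 0 ≤ Y := by rw [hY]; exact norm_nonneg _
  simp only [Nat.cast_pow] at hv
  have h1 : (H : ℝ) ^ 2 * Y ^ 2 ≤ (2 * N) * (N + 2 * (H * N + (H : ℝ) ^ 2 * (δ * N))) := by
    refine hv.trans ?_
    apply mul_le_mul (by linarith) (by linarith [hsum.trans hsum2]) (by positivity) (by positivity)
  have h2 : 1 ≤ δ * H := by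
    rw [div_le_iff₀ hδ0] at hH2
    linarith
  have h3 : (H : ℝ) ^ 2 * Y ^ 2 ≤ (H : ℝ) ^ 2 * (ε * N) ^ 2 := by
    refine h1.trans ?_
    have e1 : (ε * N) ^ 2 = 16 * δ * N ^ 2 := by rw [hδ]; ring
    rw [e1]
    have e2 : (2 * (N : ℝ)) * (N + 2 * (H * N + (H : ℝ) ^ 2 * (δ * N))) =
        (2 + 4 * H + 4 * (H : ℝ) ^ 2 * δ) * N ^ 2 := by ring
    have e3 : (H : ℝ) ^ 2 * (16 * δ * N ^ 2) = (16 * (H : ℝ) ^ 2 * δ) * N ^ 2 := by ring
    rw [e2, e3]
    refine mul_le_mul_of_nonneg_right ?_ (by positivity)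
    have e4 : (H : ℝ) ≤ (H : ℝ) ^ 2 * δ := by nlinarith
    have e5 : (1 : ℝ) ≤ (H : ℝ) ^ 2 * δ := by linarith
    linarith
  have h4 : Y ^ 2 ≤ (ε * N) ^ 2 := le_of_mul_le_mul_left h3 (by positivity)
  have h5 := sq_le_sq.1 h4
  rwa [abs_of_nonneg hY0, abs_of_nonneg (by positivity)] at h5

end Run7.h435.UD
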