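import Pool.Agent.Run7.h435.UD3

/-! # Equidistribution modulo `s` -/

set_option autoImplicit false

namespace Run7.h435.UD

open Complex Filter Finset MeasureTheory Topology
open Pool.Agent.W565.MOFS (saw_sum)
open Pool.Agent.H469R2.NK (e e_add norm_e)

lemma fract_ind (x b : ℝ) (h0 : 0 ≤ b) (h1 : b ≤ 1) :
    (if Int.fract x < b then (1 : ℝ) else 0) - b = (Int.fract (x - b) - 1 / 2) - (Int.fract x - 1 / 2) := by
  have f0 := Int.fract_nonneg x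
  have f1 := Int.fract_lt_one x
  have f2 := Int.self_sub_fract x
  by_cases h : Int.fract x < b
  · rw [if_pos h]
    have h2 : Int.fract (x - b) = Int.fract x - b + 1 := by
      rw [Int.fract_eq_iff]
      refine ⟨by linarith, by linarith, ⌊x⌋ - 1, ?_⟩
      push_cast
      linarith
    rw [h2]
    ring
  · rw [if_neg h]
    push Not at h
    have h2 : Int.fract (x - b) = Int.fract x - b := by
      rw [Int.fract_eq_iff]
      refine ⟨by linarith, by linarith, ⌊x⌋, ?_⟩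
      linarith
    rw [h2]
    ring

lemma disc_half (x : ℕ → ℝ) (N H : ℕ) (hH : 1 ≤ H) (w : ℝ)
    (hw : ∀ h ∈ Icc 1 (H ^ 2), ‖∑ n ∈ Icc 1 N, e (h * x n)‖ ≤ w) (b : ℝ) (h0 : 0 ≤ b) (h1 : b ≤ 1) :
    |∑ n ∈ Icc 1 N, (if Int.fract (x n) < b then (1 : ℝ) else 0) - b * N| ≤ 2 * ((N : ℝ) / H + (H : ℝ) ^ 2 * w) := by
  have e1 : ∑ n ∈ Icc 1 N, (if Int.fract (x n) < b then (1 : ℝ) else 0) - b * N =
      ∑ n ∈ Icc 1 N, (Int.fract (x n - b) - 1 / 2) - ∑ n ∈ Icc 1 N, (Int.fract (x n) - 1 / 2) := by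
    rw [← Finset.sum_sub_distrib]
    have : b * N = ∑ n ∈ Icc 1 N, b := by
      rw [Finset.sum_const, Nat.card_Icc, nsmul_eq_mul, Nat.add_sub_cancel]; ring
    rw [this, ← Finset.sum_sub_distrib]
    exact Finset.sum_congr rfl fun n _ => fract_ind (x n) b h0 h1
  have hs : ∀ y : ℕ → ℝ, (∀ h ∈ Icc 1 (H ^ 2), ‖∑ n ∈ Icc 1 N, e (h * y n)‖ ≤ w) →
      |∑ n ∈ Icc 1 N, (Int.fract (y n) - 1 / 2)| ≤ (N : ℝ) / H + (H : ℝ) ^ 2 * w := by
    intro y hy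
    refine (saw_sum (Icc 1 N) y H hH).trans ?_
    rw [Nat.card_Icc, Nat.add_sub_cancel]
    have h2 := Finset.sum_le_sum hy
    rw [Finset.sum_const, Nat.card_Icc, nsmul_eq_mul, Nat.add_sub_cancel] at h2
    push_cast at h2
    linarith
  have h2 := hs x hw
  have h3 := hs (fun n => x n - b) (by
    intro h hh
    have e2 : ∑ n ∈ Icc 1 N, e (h * (x n - b)) = e (-(h * b)) * ∑ n ∈ Icc 1 N, e (h * x n) := by
      rw [Finset.mul_sum]
      refine Finset.sum_congr rfl fun n _ => ?_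
      rw [← e_add]
      congr 1
      ring
    rw [e2, norm_mul, norm_e, one_mul]
    exact hw h hh)
  rw [e1]
  refine (abs_sub _ _).trans ?_
  linarith

/-- the norm of an exponential sum does not change if all the phases change their sign -/
lemma norm_neg_phase (S : Finset ℕ) (y : ℕ → ℝ) :
    ‖∑ n ∈ S, cexp (I * ((-(y n) : ℝ) : ℂ))‖ = ‖∑ n ∈ S, cexp (I * ((y n : ℝ) : ℂ))‖ := by
  rw [← Complex.norm_conj, map_sum]
  congr 1
  refine Finset.sum_congr rfl fun n _ => ?_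
  rw [← Complex.exp_conj, map_mul, Complex.conj_I, Complex.conj_ofReal]
  congr 1
  push_cast
  ring

theorem equi (ε : ℝ) (hε : 0 < ε) : ∃ s0 : ℝ, 0 < s0 ∧ ∀ s : ℝ, s0 ≤ |s| → ∃ N0 : ℕ, ∀ N : ℕ, N0 ≤ N →
    ∀ α β a b : ℝ, 0 ≤ a → a ≤ b → b ≤ 1 →
      |(1 / N : ℝ) * (({n : ℕ | 1 ≤ n ∧ n ≤ N ∧ a ≤ Int.fract (α * n + β + zz n / s) ∧
        Int.fract (α * n + β + zz n / s) < b}.ncard : ℕ) : ℝ) - (b - a)| ≤ ε := by
  classical
  have hpi := Real.pi_pos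
  obtain ⟨H, hH⟩ : ∃ H : ℕ, H = ⌈16 / ε⌉₊ + 1 := ⟨_, rfl⟩
  have hH1 : 1 ≤ H := by omega
  have hH0 : (0 : ℝ) < H := by exact_mod_cast hH1
  have hH2 : 16 / ε ≤ H := by
    rw [hH]; push_cast
    linarith [Nat.le_ceil (16 / ε)]
  obtain ⟨δ, hδ⟩ : ∃ δ : ℝ, δ = min 1 (ε / (16 * (H : ℝ) ^ 2)) := ⟨_, rfl⟩
  have hδ0 : 0 < δ := by rw [hδ]; positivity
  have hδ1 : δ ≤ 1 := by rw [hδ]; exact min_le_left _ _
  have hδ2 : (H : ℝ) ^ 2 * δ ≤ ε / 16 := by
    have : δ ≤ ε / (16 * (H : ℝ) ^ 2) := by rw [hδ]; exact min_le_right _ _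
    calc (H : ℝ) ^ 2 * δ ≤ (H : ℝ) ^ 2 * (ε / (16 * (H : ℝ) ^ 2)) := mul_le_mul_of_nonneg_left this (by positivity)
      _ = ε / 16 := by field_simp
  obtain ⟨θ0, hθ0, hw⟩ := weyl δ hδ0 hδ1
  refine ⟨2 * Real.pi * (H : ℝ) ^ 2 / θ0 + 1, by positivity, fun s hs => ?_⟩
  have hs0 : 0 < |s| := lt_of_lt_of_le (by positivity) hs
  have hall : ∀ᶠ N : ℕ in atTop, ∀ h ∈ Icc 1 (H ^ 2), ∀ α : ℝ,
      ‖∑ n ∈ Icc 1 N, cexp (I * ((α * n + (2 * Real.pi * h / |s|) * zz n : ℝ) : ℂ))‖ ≤ δ * N := by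
    refine (Filter.eventually_all_finset _).2 fun h hh => ?_
    rw [Finset.mem_Icc] at hh
    have hh0 : (0 : ℝ) < h := by exact_mod_cast (by omega : 0 < h)
    have hh1 : (h : ℝ) ≤ (H : ℝ) ^ 2 := by exact_mod_cast hh.2
    obtain ⟨N0, hN0⟩ := hw (2 * Real.pi * h / |s|) (by positivity) (by
      rw [div_lt_iff₀ hs0]
      have h1 : 2 * Real.pi * (H : ℝ) ^ 2 / θ0 < |s| := by linarith
      rw [div_lt_iff₀ hθ0] at h1
      have h2 : 2 * Real.pi * (h : ℝ) ≤ 2 * Real.pi * (H : ℝ) ^ 2 := mul_le_mul_of_nonneg_left hh1 (by positivity)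
      linarith)
    exact Filter.eventually_atTop.2 ⟨N0, hN0⟩
  obtain ⟨N0, hN0⟩ := (hall.and (eventually_ge_atTop 1)).exists_forall_of_atTop
  refine ⟨N0, fun N hN α β a b ha hab hb => ?_⟩
  obtain ⟨h1, h2⟩ := hN0 N hN
  have hN0' : (0 : ℝ) < N := by exact_mod_cast h2
  obtain ⟨x, hx⟩ : ∃ x : ℕ → ℝ, x = fun n => α * n + β + zz n / s := ⟨_, rfl⟩
  have hW : ∀ h ∈ Icc 1 (H ^ 2), ‖∑ n ∈ Icc 1 N, e (h * x n)‖ ≤ δ * N := by
    intro h hh
    have e1 : ∀ n : ℕ, e (h * x n) = cexp (I * ((2 * Real.pi * h * β : ℝ) : ℂ)) *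
        cexp (I * ((2 * Real.pi * h * α * n + (2 * Real.pi * h / s) * zz n : ℝ) : ℂ)) := by
      intro n
      rw [hx, ← Complex.exp_add]
      unfold e
      congr 1
      push_cast
      ring
    simp only [e1]
    rw [← Finset.mul_sum, norm_mul, norm_exp_one, one_mul]
    rcases le_or_gt 0 s with hs1 | hs1
    · have := h1 h hh (2 * Real.pi * h * α)
      rwa [abs_of_nonneg hs1] at this
    · have h3 := h1 h hh (-(2 * Real.pi * h * α))
      rw [abs_of_neg hs1] at h3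
      rw [← norm_neg_phase]
      refine le_trans (le_of_eq ?_) h3
      congr 1
      refine Finset.sum_congr rfl fun n _ => ?_
      congr 3
      rw [div_neg]
      ring
  have hA := disc_half x N H hH1 (δ * N) hW a ha (hab.trans hb)
  have hB := disc_half x N H hH1 (δ * N) hW b (ha.trans hab) hb
  have e2 : (({n : ℕ | 1 ≤ n ∧ n ≤ N ∧ a ≤ Int.fract (α * n + β + zz n / s) ∧
        Int.fract (α * n + β + zz n / s) < b}.ncard : ℕ) : ℝ) =
      ∑ n ∈ Icc 1 N, (if Int.fract (x n) < b then (1 : ℝ) else 0) - ∑ n ∈ Icc 1 N, (if Int.fract (x n) < a then (1 : ℝ) else 0) := by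
    have e3 : {n : ℕ | 1 ≤ n ∧ n ≤ N ∧ a ≤ Int.fract (α * n + β + zz n / s) ∧
        Int.fract (α * n + β + zz n / s) < b} =
        (((Icc 1 N).filter (fun n => a ≤ Int.fract (x n) ∧ Int.fract (x n) < b) : Finset ℕ) : Set ℕ) := by
      ext n
      rw [hx]
      simp only [Set.mem_ofPred_eq, Finset.coe_filter, Finset.mem_Icc]
      constructor
      · rintro ⟨a1, a2, a3⟩
        exact ⟨⟨a1, a2⟩, a3⟩
      · rintro ⟨⟨a1, a2⟩, a3⟩
        exact ⟨a1, a2, a3⟩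
    rw [e3, Set.ncard_coe_finset, Finset.card_filter, ← Finset.sum_sub_distrib]
    push_cast
    refine Finset.sum_congr rfl fun n _ => ?_
    by_cases c1 : Int.fract (x n) < a
    · rw [if_neg (fun h => absurd h.1 (not_le.2 c1)), if_pos (lt_of_lt_of_le c1 hab), if_pos c1]
      norm_num
    · rw [if_neg c1]
      by_cases c2 : Int.fract (x n) < b
      · rw [if_pos ⟨not_lt.1 c1, c2⟩, if_pos c2]
        norm_num
      · rw [if_neg (fun h => c2 h.2), if_neg c2]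
        norm_num
  rw [e2]
  have hbd : 2 * ((N : ℝ) / H + (H : ℝ) ^ 2 * (δ * N)) ≤ ε / 2 * N := by
    have b1 : (N : ℝ) / H ≤ ε / 16 * N := by
      rw [div_le_iff₀ hH0]
      rw [div_le_iff₀ hε] at hH2
      nlinarith
    have b2 : (H : ℝ) ^ 2 * (δ * N) ≤ ε / 16 * N := by
      rw [← mul_assoc]
      exact mul_le_mul_of_nonneg_right hδ2 hN0'.le
    nlinarith
  obtain ⟨CA, hCA⟩ : ∃ CA : ℝ, CA = ∑ n ∈ Icc 1 N, (if Int.fract (x n) < a then (1 : ℝ) else 0) := ⟨_, rfl⟩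
  obtain ⟨CB, hCB⟩ : ∃ CB : ℝ, CB = ∑ n ∈ Icc 1 N, (if Int.fract (x n) < b then (1 : ℝ) else 0) := ⟨_, rfl⟩
  rw [← hCA] at hA ⊢
  rw [← hCB] at hB ⊢
  have hA1 := abs_le.1 hA
  have hB1 := abs_le.1 hB
  have e4 : (1 / N : ℝ) * (CB - CA) - (b - a) = ((CB - b * N) - (CA - a * N)) / N := by
    field_simp
    ring
  rw [e4, abs_div, abs_of_pos hN0', div_le_iff₀ hN0', abs_le]
  constructor <;> linarith [hA1.1, hA1.2, hB1.1, hB1.2]

end Run7.h435.UD
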